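import Pool.Agent.Work.MP_99218a_nt.Interface

/-!
# MP_99218a_nt, blocks KB and J2: kernel integrals, and `J` of a simple pole
-/

set_option autoImplicit false

namespace Pool.Agent.AQ

open Filter Topology MeasureTheory
open scoped ComplexConjugate

namespace KB

/-- The inverse Mellin transform of `1 / ((s - β) s (s + 1))`. -/
noncomputable def fb (β : ℂ) (u : ℝ) : ℂ :=
  (1 / (β * (β + 1))) • Set.indicator (Set.Ioc 0 1) (fun t : ℝ => (t : ℂ) ^ (-β)) u
    - (1 / β) • Set.indicator (Set.Ioc 0 1) (fun _ => (1 : ℂ)) u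
    + (1 / (β + 1)) • Set.indicator (Set.Ioc 0 1) (fun t : ℝ => (t : ℂ) ^ (1 : ℂ)) u

lemma ne_of_re {z : ℂ} (h : 0 < z.re) : z ≠ 0 := by
  intro h0
  rw [h0] at h
  simp at h

lemma hasMellin_fb (β s : ℂ) (h0 : β ≠ 0) (h1 : β ≠ -1) (hs : 0 < s.re) (hβ : β.re < s.re) :
    HasMellin (fb β) s (1 / (s - β) * (1 / (s * (s + 1)))) := by
  have a1 := hasMellin_cpow_Ioc (-β) (s := s) (by simp; linarith)
  have a2 := hasMellin_one_Ioc hs
  have a3 := hasMellin_cpow_Ioc 1 (s := s) (by simp; linarith)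
  have b1 := hasMellin_const_smul a1.1 (1 / (β * (β + 1)))
  have b2 := hasMellin_const_smul a2.1 (1 / β)
  have b3 := hasMellin_const_smul a3.1 (1 / (β + 1))
  have c1 := hasMellin_sub b1.1 b2.1
  have c2 := hasMellin_add c1.1 b3.1
  have hs0 : s ≠ 0 := ne_of_re hs
  have hs1 : s + 1 ≠ 0 := ne_of_re (by simp; linarith)
  have hsβ : s - β ≠ 0 := ne_of_re (by simp; linarith)
  have hb1 : β + 1 ≠ 0 := fun h => h1 (eq_neg_of_add_eq_zero_left h)
  have e : (1 : ℂ) / (s - β) * (1 / (s * (s + 1))) =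
      (1 / (β * (β + 1))) * (1 / (s + -β)) - (1 / β) * (1 / s) + (1 / (β + 1)) * (1 / (s + 1)) := by
    rw [← sub_eq_add_neg]
    field_simp
    ring
  rw [e, ← a1.2, ← a2.2, ← a3.2]
  refine ⟨c2.1, ?_⟩
  have h := c2.2
  rw [c1.2, b1.2, b2.2, b3.2] at h
  exact h

/-- The analytic formula on `(0, 1]`. -/
noncomputable def gg (β : ℂ) (u : ℝ) : ℂ :=
  1 / (β * (β + 1)) * (u : ℂ) ^ (-β) - 1 / β + 1 / (β + 1) * (u : ℂ)

lemma fb_eq_gg (β : ℂ) (u : ℝ) (hu : 0 < u) (hu1 : u ≤ 1) : fb β u = gg β u := by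
  unfold fb gg
  have hm : u ∈ Set.Ioc (0 : ℝ) 1 := ⟨hu, hu1⟩
  rw [Set.indicator_of_mem hm, Set.indicator_of_mem hm, Set.indicator_of_mem hm]
  simp

lemma gg_one (β : ℂ) (h0 : β ≠ 0) (h1 : β ≠ -1) : gg β 1 = 0 := by
  unfold gg
  have hb1 : β + 1 ≠ 0 := fun h => h1 (eq_neg_of_add_eq_zero_left h)
  simp only [Complex.ofReal_one, Complex.one_cpow]
  field_simp
  ring

lemma fb_eq_min (β : ℂ) (h0 : β ≠ 0) (h1 : β ≠ -1) (u : ℝ) (hu : 0 < u) :
    fb β u = gg β (min u 1) := by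
  rcases le_or_gt u 1 with h | h
  · rw [min_eq_left h, fb_eq_gg β u hu h]
  · rw [min_eq_right h.le, gg_one β h0 h1]
    have hm : u ∉ Set.Ioc (0 : ℝ) 1 := fun h' => absurd h'.2 (not_le.mpr h)
    unfold fb
    rw [Set.indicator_of_notMem hm, Set.indicator_of_notMem hm, Set.indicator_of_notMem hm]
    simp

lemma continuousAt_fb (β : ℂ) (h0 : β ≠ 0) (h1 : β ≠ -1) (u : ℝ) (hu : 0 < u) :
    ContinuousAt (fb β) u := by
  have hc : ContinuousAt (fun v : ℝ => gg β (min v 1)) u := by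
    have hm : ContinuousAt (fun v : ℝ => ((min v 1 : ℝ) : ℂ)) u := by fun_prop
    have hp : 0 < min u 1 := lt_min hu one_pos
    have hcp : ContinuousAt (fun v : ℝ => ((min v 1 : ℝ) : ℂ) ^ (-β)) u := by
      refine hm.cpow continuousAt_const (Or.inl ?_)
      rw [Complex.ofReal_re]
      exact hp
    unfold gg
    exact ((continuousAt_const.mul hcp).sub continuousAt_const).add (continuousAt_const.mul hm)
  refine hc.congr ?_
  filter_upwards [lt_mem_nhds hu] with v hv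
  exact (fb_eq_min β h0 h1 v hv).symm

lemma vl_re (σ y : ℝ) : (vl σ y).re = σ := by simp [vl]

lemma vl_sub_ne {β : ℂ} (hβ : β.re < 2) (y : ℝ) : vl 2 y - β ≠ 0 :=
  ne_of_re (by rw [Complex.sub_re, vl_re]; linarith)

lemma norm_inv_le {β : ℂ} (hβ : β.re < 2) (y : ℝ) : ‖1 / (vl 2 y - β)‖ ≤ 1 / (2 - β.re) := by
  rw [norm_div, norm_one]
  apply one_div_le_one_div_of_le (by linarith)
  have h := Complex.re_le_norm (vl 2 y - β)
  rw [Complex.sub_re, vl_re] at h
  exact h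

lemma continuous_vl (σ : ℝ) : Continuous (vl σ) := by
  unfold vl
  fun_prop

lemma continuous_inv {β : ℂ} (hβ : β.re < 2) : Continuous fun y : ℝ => 1 / (vl 2 y - β) :=
  continuous_const.div ((continuous_vl 2).sub continuous_const) (vl_sub_ne hβ)

lemma integrable_gk {β : ℂ} (hβ : β.re < 2) :
    Integrable fun y : ℝ => 1 / (vl 2 y - β) * SW.ker 2 y := by
  refine Integrable.mono' ((SW.integrable_ker 2 (by norm_num)).norm.const_mul (1 / (2 - β.re)))
    ((continuous_inv hβ).mul (SW.continuous_ker 2 (by norm_num))).aestronglyMeasurable ?_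
  filter_upwards with y
  rw [norm_mul]
  exact mul_le_mul_of_nonneg_right (norm_inv_le hβ y) (norm_nonneg _)

lemma inv_cpow_neg {x : ℝ} (hx : 0 < x) (s : ℂ) : ((1 / x : ℝ) : ℂ) ^ (-s) = (x : ℂ) ^ s := by
  rw [one_div, Complex.ofReal_inv, Complex.inv_cpow _ _ (by
    rw [Complex.arg_ofReal_of_nonneg hx.le]
    exact Real.pi_pos.ne), Complex.cpow_neg, inv_inv]

lemma pole (x : ℝ) (hx : 1 ≤ x) (β : ℂ) (hβ : β.re < 2) (h0 : β ≠ 0) (h1 : β ≠ -1) :
    ((1 / (2 * Real.pi) : ℝ) : ℂ) *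
        (∫ y : ℝ, (1 / (vl 2 y - β)) * ((x : ℂ) ^ (vl 2 y) * SW.ker 2 y))
      = (x : ℂ) ^ β / (β * (β + 1)) - 1 / β + 1 / ((β + 1) * x) := by
  have hx0 : 0 < x := by linarith
  have hmel : ∀ y : ℝ, mellin (fb β) (((2 : ℝ) : ℂ) + y * Complex.I)
      = 1 / (vl 2 y - β) * SW.ker 2 y := by
    intro y
    exact (hasMellin_fb β (((2 : ℝ) : ℂ) + y * Complex.I) h0 h1 (by simp) (by simpa using hβ)).2
  have h := mellinInv_mellin_eq 2 (fb β) (x := 1 / x) (by positivity)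
    (hasMellin_fb β ((2 : ℝ) : ℂ) h0 h1 (by simp) (by simpa using hβ)).1 ?_
    (continuousAt_fb β h0 h1 (1 / x) (by positivity))
  · rw [fb_eq_gg β (1 / x) (by positivity) ((div_le_one hx0).mpr hx), mellinInv] at h
    simp only [hmel] at h
    have e : ∀ y : ℝ, ((1 / x : ℝ) : ℂ) ^ (-(((2 : ℝ) : ℂ) + y * Complex.I)) •
        (1 / (vl 2 y - β) * SW.ker 2 y)
        = (1 / (vl 2 y - β)) * ((x : ℂ) ^ (vl 2 y) * SW.ker 2 y) := by
      intro y
      rw [inv_cpow_neg hx0, smul_eq_mul]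
      change (x : ℂ) ^ (vl 2 y) * _ = _
      ring
    simp only [e] at h
    rw [← Complex.real_smul, h, gg, inv_cpow_neg hx0]
    have hb1 : β + 1 ≠ 0 := fun h => h1 (eq_neg_of_add_eq_zero_left h)
    have hxc : (x : ℂ) ≠ 0 := by exact_mod_cast hx0.ne'
    push_cast
    field_simp
  · have hi : Integrable fun y : ℝ => mellin (fb β) (((2 : ℝ) : ℂ) + y * Complex.I) := by
      have e : (fun y : ℝ => mellin (fb β) (((2 : ℝ) : ℂ) + y * Complex.I))
          = fun y : ℝ => 1 / (vl 2 y - β) * SW.ker 2 y := funext hmel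
      rw [e]
      exact integrable_gk hβ
    exact hi

lemma unit (x : ℝ) (hx : 1 ≤ x) :
    ((1 / (2 * Real.pi) : ℝ) : ℂ) * (∫ y : ℝ, ((x : ℂ) ^ (vl 2 y) * SW.ker 2 y)) = 1 - 1 / x := by
  have hx0 : 0 < x := by linarith
  have h := SW.kernel_formula 2 (by norm_num) (1 / x) (by positivity)
  have e : ∀ y : ℝ, ((1 / x : ℝ) : ℂ) ^ (-(((2 : ℝ) : ℂ) + y * Complex.I)) * SW.ker 2 y
      = (x : ℂ) ^ (vl 2 y) * SW.ker 2 y := by
    intro y
    rw [inv_cpow_neg hx0]
    rfl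
  simp only [e] at h
  rw [← Complex.real_smul, ← h, max_eq_right]
  · push_cast
    ring
  · rw [sub_nonneg]
    exact (div_le_one hx0).mpr hx

lemma continuous_xk {x : ℝ} (hx : 0 < x) :
    Continuous fun y : ℝ => (x : ℂ) ^ (vl 2 y) * SW.ker 2 y := by
  have hxc : (x : ℂ) ≠ 0 := by exact_mod_cast hx.ne'
  exact (Continuous.const_cpow (continuous_vl 2) (Or.inl hxc)).mul
    (SW.continuous_ker 2 (by norm_num))

lemma norm_xk {x : ℝ} (hx : 0 < x) (y : ℝ) :
    ‖(x : ℂ) ^ (vl 2 y) * SW.ker 2 y‖ = x ^ (2 : ℝ) * ‖SW.ker 2 y‖ := by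
  rw [norm_mul, Complex.norm_cpow_eq_rpow_re_of_pos hx, vl_re]

lemma log_case (x : ℝ) (hx : 1 ≤ x) :
    ((1 / (2 * Real.pi) : ℝ) : ℂ) * (∫ y : ℝ, (1 / vl 2 y) * ((x : ℂ) ^ (vl 2 y) * SW.ker 2 y))
      = ((Real.log x - 1 + 1 / x : ℝ) : ℂ) := by
  have hx0 : 0 < x := by linarith
  -- the left side is the limit of the pole case
  set F : ℝ → ℝ → ℂ := fun b y =>
    (1 / (vl 2 y - (b : ℂ))) * ((x : ℂ) ^ (vl 2 y) * SW.ker 2 y) with hF
  have hcont : ContinuousAt (fun b : ℝ => ∫ y : ℝ, F b y) 0 := by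
    refine continuousAt_of_dominated (bound := fun y => x ^ (2 : ℝ) * ‖SW.ker 2 y‖) ?_ ?_ ?_ ?_
    · filter_upwards [Iio_mem_nhds (show (0 : ℝ) < 1 by norm_num)] with b hb
      have hb' : ((b : ℂ)).re < 2 := by
        rw [Complex.ofReal_re]
        have : b < 1 := hb
        linarith
      exact ((continuous_inv hb').mul (continuous_xk hx0)).aestronglyMeasurable
    · filter_upwards [Iio_mem_nhds (show (0 : ℝ) < 1 by norm_num)] with b hb
      have hb1 : b < 1 := hb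
      have hb' : ((b : ℂ)).re < 2 := by
        rw [Complex.ofReal_re]
        linarith
      filter_upwards with y
      simp only [hF]
      rw [norm_mul, norm_xk hx0]
      have h1 := norm_inv_le hb' y
      have h2 : 1 / (2 - ((b : ℂ)).re) ≤ 1 := by
        rw [Complex.ofReal_re, div_le_one (by linarith)]
        linarith
      have h3 : 0 ≤ x ^ (2 : ℝ) * ‖SW.ker 2 y‖ := by positivity
      calc ‖1 / (vl 2 y - (b : ℂ))‖ * (x ^ (2 : ℝ) * ‖SW.ker 2 y‖)
          ≤ 1 * (x ^ (2 : ℝ) * ‖SW.ker 2 y‖) := mul_le_mul_of_nonneg_right (h1.trans h2) h3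
        _ = _ := one_mul _
    · exact (SW.integrable_ker 2 (by norm_num)).norm.const_mul _
    · filter_upwards with y
      simp only [hF]
      apply ContinuousAt.mul _ continuousAt_const
      apply ContinuousAt.div continuousAt_const
      · fun_prop
      · exact vl_sub_ne (by simp) y
  have hlim1 : Tendsto (fun b : ℝ => ((1 / (2 * Real.pi) : ℝ) : ℂ) * ∫ y : ℝ, F b y) (𝓝[≠] 0)
      (𝓝 (((1 / (2 * Real.pi) : ℝ) : ℂ) * ∫ y : ℝ, F 0 y)) :=
    (hcont.tendsto.const_mul _).mono_left nhdsWithin_le_nhds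
  have hF0 : ∫ y : ℝ, F 0 y = ∫ y : ℝ, (1 / vl 2 y) * ((x : ℂ) ^ (vl 2 y) * SW.ker 2 y) := by
    simp only [hF, Complex.ofReal_zero, sub_zero]
  rw [hF0] at hlim1
  refine tendsto_nhds_unique hlim1 ?_
  -- the right side
  have hd : HasDerivAt (fun b : ℝ => x ^ b) (Real.log x) 0 := by
    have h := (Real.hasStrictDerivAt_const_rpow hx0 0).hasDerivAt
    simpa using h
  have hslope := hasDerivAt_iff_tendsto_slope.mp hd
  have hr : Tendsto (fun b : ℝ => (x ^ b - 1) / b * (1 / (b + 1)) - 1 / (b + 1)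
      + 1 / ((b + 1) * x)) (𝓝[≠] 0) (𝓝 (Real.log x * (1 / (0 + 1)) - 1 / (0 + 1)
        + 1 / ((0 + 1) * x))) := by
    have h1 : Tendsto (fun b : ℝ => 1 / (b + 1)) (𝓝[≠] 0) (𝓝 (1 / (0 + 1))) := by
      have : ContinuousAt (fun b : ℝ => 1 / (b + 1)) 0 := by
        apply ContinuousAt.div continuousAt_const (by fun_prop)
        norm_num
      exact this.tendsto.mono_left nhdsWithin_le_nhds
    have h2 : Tendsto (fun b : ℝ => 1 / ((b + 1) * x)) (𝓝[≠] 0) (𝓝 (1 / ((0 + 1) * x))) := by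
      have : ContinuousAt (fun b : ℝ => 1 / ((b + 1) * x)) 0 := by
        apply ContinuousAt.div continuousAt_const (by fun_prop)
        simpa using hx0.ne'
      exact this.tendsto.mono_left nhdsWithin_le_nhds
    have h3 : Tendsto (fun b : ℝ => (x ^ b - 1) / b) (𝓝[≠] 0) (𝓝 (Real.log x)) := by
      refine hslope.congr fun b => ?_
      rw [slope_def_field]
      simp
    exact ((h3.mul h1).sub h1).add h2
  have hrc : Tendsto (fun b : ℝ => (((x ^ b - 1) / b * (1 / (b + 1)) - 1 / (b + 1)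
      + 1 / ((b + 1) * x) : ℝ) : ℂ)) (𝓝[≠] 0) (𝓝 ((Real.log x - 1 + 1 / x : ℝ) : ℂ)) := by
    have h := (Complex.continuous_ofReal.tendsto _).comp hr
    have e : Real.log x * (1 / (0 + 1)) - 1 / (0 + 1) + 1 / ((0 + 1) * x)
        = Real.log x - 1 + 1 / x := by
      simp
    rw [e] at h
    exact h
  refine hrc.congr' ?_
  have hmem : Set.Ioo (-1 : ℝ) 1 ∈ 𝓝[≠] (0 : ℝ) :=
    mem_nhdsWithin_of_mem_nhds (Ioo_mem_nhds (by norm_num) (by norm_num))
  filter_upwards [hmem, self_mem_nhdsWithin] with b hb hb0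
  have hb0' : b ≠ 0 := hb0
  have hbc : (b : ℂ) ≠ 0 := by exact_mod_cast hb0'
  have hb1 : (b : ℂ) ≠ -1 := by
    intro h
    have h' := congrArg Complex.re h
    simp at h'
    rw [h'] at hb
    exact lt_irrefl _ hb.1
  have hb1' : b + 1 ≠ 0 := by
    have := hb.1
    intro h
    linarith
  have hb1c : (b : ℂ) + 1 ≠ 0 := by exact_mod_cast hb1'
  have hxc : (x : ℂ) ≠ 0 := by exact_mod_cast hx0.ne'
  have h := pole x hx (b : ℂ) (by rw [Complex.ofReal_re]; linarith [hb.2]) hbc hb1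
  simp only [hF]
  rw [h, ← Complex.ofReal_cpow hx0.le]
  push_cast
  field_simp
  ring

end KB

theorem stmt_KB : Stmt_KB := fun x hx =>
  ⟨KB.unit x hx, KB.log_case x hx, fun β hβ h0 h1 => KB.pole x hx β hβ h0 h1⟩

theorem stmt_J2 : Stmt_J2 := by
  intro γ x hx
  have hx0 : 0 < x := by linarith
  have hxc : (x : ℂ) ≠ 0 := by exact_mod_cast hx0.ne'
  have hre : (rho γ).re = 1 / 2 := by simp [rho]
  have h0 : rho γ ≠ 0 := KB.ne_of_re (by rw [hre]; norm_num)
  have h1' : rho γ + 1 ≠ 0 := KB.ne_of_re (by rw [Complex.add_re, hre]; norm_num)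
  have h1 : rho γ ≠ -1 := fun h => h1' (by rw [h]; ring)
  have hp := KB.pole x hx (rho γ) (by rw [hre]; norm_num) h0 h1
  have c1 : conj ((1 : ℂ) / (1 - rho γ)) = 1 / rho γ := by
    rw [map_div₀, map_one, map_sub, map_one]
    congr 1
    apply Complex.ext
    · simp [rho]
      norm_num
    · simp [rho]
  have c2 : conj ((1 : ℂ) / (2 - rho γ)) = 1 / (rho γ + 1) := by
    rw [map_div₀, map_one, map_sub, Complex.conj_ofNat]
    congr 1
    apply Complex.ext
    · simp [rho]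
      norm_num
    · simp [rho]
  unfold J
  rw [hp, c1, c2]
  field_simp
  ring

end Pool.Agent.AQ
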