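import Pool.Agent.Work.MP_99218a_nt.MAIN1
import Pool.Agent.Work.MP_99218a_nt.KB

/-!
# MP_99218a_nt: all blocks together
-/
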