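import Mathlib
import Pool.Agent.Work.SW.Perron

/-!
# MP_99218a_nt: definitions and block statements

See `BLUEPRINT.md` in this folder for the proofs. Every block is `def Stmt_X : Prop`; the block file
`Work/MP_99218a_nt/X.lean` proves `theorem stmt_X : Stmt_X`, and may take other statements as
hypotheses (`theorem stmt_X (h : Stmt_Y) : Stmt_X`).
-/

set_option autoImplicit false

namespace Pool.Agent.AQ

open Filter Topology MeasureTheory ArithmeticFunction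
open scoped ComplexConjugate Classical

/-! ## The problem -/

/-- The generalized Riemann hypothesis for Dirichlet `L`-functions. -/
def GRH : Prop := ∀ (q : ℕ) [NeZero q] (χ : DirichletCharacter ℂ q) (s : ℂ),
  χ.LFunction s = 0 → 0 < s.re → s.re < 1 → s.re = 1 / 2

/-- The logarithmic integral: principal value of `∫_0^t du / log u`. -/
noncomputable def li (t : ℝ) : ℝ :=
  limUnder (𝓝[>] (0 : ℝ)) fun ε => ∫ u in Set.Icc 0 t \ Set.Ioo (1 - ε) (1 + ε), (Real.log u)⁻¹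

/-- The number of primes `p ≤ t` with `p ≡ a mod q`. -/
noncomputable def ppi (q : ℕ) (a : ℤ) (t : ℝ) : ℕ :=
  Nat.card {p : ℕ // p.Prime ∧ (p : ℝ) ≤ t ∧ (p : ℤ) ≡ a [ZMOD q]}

/-- The integrated error. -/
noncomputable def A1 (q : ℕ) (a : ℤ) (x : ℝ) : ℝ :=
  ∫ t in (0 : ℝ)..x, ((q.totient : ℝ) * ppi q a t - li t)

/-- The integrated error is eventually negative. -/
def InSet (q : ℕ) (a : ℤ) : Prop := ∃ x0 : ℝ, ∀ x : ℝ, x0 ≤ x → A1 q a x < 0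

/-! ## Arithmetic objects -/

/-- `∑_{n ≤ x, n ≡ a mod q} Λ(n) (x - n)`. -/
noncomputable def psi1 (q : ℕ) (a : ℤ) (x : ℝ) : ℝ :=
  ∑ n ∈ (Finset.Ioc 0 ⌊x⌋₊).filter (fun n : ℕ => (n : ZMod q) = (a : ZMod q)), Λ n * (x - n)

/-- The normalized error `(φ(q) ψ₁(x; q, a) - x² / 2) / x^{3/2}`. -/
noncomputable def EE (q : ℕ) (a : ℤ) (x : ℝ) : ℝ :=
  ((q.totient : ℝ) * psi1 q a x - x ^ 2 / 2) / x ^ (3 / 2 : ℝ)

/-- The number of square roots of `a` modulo `q`. -/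
noncomputable def rt (q : ℕ) (a : ℤ) : ℕ := Nat.card {b : ZMod q // b ^ 2 = (a : ZMod q)}

/-- The completed `L`-function of the primitive character inducing `χ` (times `s (s - 1)` if `χ` is
principal): an entire function. -/
noncomputable def PhiC {q : ℕ} [NeZero q] (χ : DirichletCharacter ℂ q) : ℂ → ℂ :=
  haveI : NeZero χ.conductor := ⟨χ.conductor_ne_zero⟩
  if χ = 1 then fun s => s * (s - 1) * completedRiemannZeta₀ s + 1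
  else fun s => (χ.conductor : ℂ) ^ (s / 2) * χ.primitiveCharacter.completedLFunction s

/-- Its logarithmic derivative. -/
noncomputable def Hc {q : ℕ} [NeZero q] (χ : DirichletCharacter ℂ q) : ℂ → ℂ := logDeriv (PhiC χ)

/-- `0` for even, `1` for odd characters. -/
noncomputable def kap {q : ℕ} (χ : DirichletCharacter ℂ q) : ℝ := if χ.Even then 0 else 1

/-- `∑_χ χ⁻¹(a) χ*(n)`, where `χ*` is the primitive character inducing `χ`. -/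
noncomputable def ca (q : ℕ) [NeZero q] (a : ℤ) (n : ℕ) : ℂ :=
  ∑ χ : DirichletCharacter ℂ q, χ⁻¹ (a : ZMod q) * χ.primitiveCharacter (n : ZMod χ.conductor)

/-! ## Analytic objects -/

/-- The line `re s = σ`. -/
noncomputable def vl (σ y : ℝ) : ℂ := (σ : ℂ) + y * Complex.I

/-- The zero `1/2 + i γ`. -/
noncomputable def rho (γ : ℝ) : ℂ := 1 / 2 + γ * Complex.I

/-- Entire functions with the symmetry of a completed `L`-function, zeros on `re s = 1/2`. -/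
structure Xi (Φ : ℂ → ℂ) : Prop where
  diff : Differentiable ℂ Φ
  symm : ∀ s : ℂ, ‖Φ (1 - conj s)‖ = ‖Φ s‖
  ne : ∀ s : ℂ, 1 / 2 < s.re → Φ s ≠ 0
  upper : ∃ C : ℝ, ∀ s : ℂ, 1 / 4 ≤ s.re → ‖Φ s‖ ≤ Real.exp (C * (1 + ‖s‖) ^ (3 / 2 : ℝ))
  gr : ∃ C : ℝ, ∀ s : ℂ, 2 ≤ s.re → ‖logDeriv Φ s‖ ≤ C * (1 + ‖s‖) ^ (1 / 2 : ℝ)
  rb : ∃ C : ℝ, ∀ σ : ℝ, 2 ≤ σ → -C ≤ (logDeriv Φ (σ : ℂ)).re

/-- Analytic functions with nonnegative real part on `re s > 1/2`, of moderate growth. -/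
structure Hg (H : ℂ → ℂ) : Prop where
  diff : DifferentiableOn ℂ H {s | 1 / 2 < s.re}
  pos : ∀ s : ℂ, 1 / 2 < s.re → 0 ≤ (H s).re
  gr : ∀ δ : ℝ, 0 < δ → ∃ C : ℝ, ∀ s : ℂ, 1 / 2 + δ ≤ s.re → ‖H s‖ ≤ C * (1 + ‖s‖) ^ (1 / 2 : ℝ)

/-- The functional `J`. -/
noncomputable def J (H : ℂ → ℂ) (x : ℝ) : ℂ :=
  ((1 / (2 * Real.pi) : ℝ) : ℂ) * (∫ y : ℝ, H (vl 2 y) * ((x : ℂ) ^ (vl 2 y) * SW.ker 2 y))
    + conj (H 1) - conj (H 2) / x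

/-- The digamma part of `J`. -/
noncomputable def Dg (κ x : ℝ) : ℂ :=
  ((1 / (2 * Real.pi) : ℝ) : ℂ) *
    (∫ y : ℝ, (1 / 2 * Complex.digamma ((vl 2 y + κ) / 2)) * ((x : ℂ) ^ (vl 2 y) * SW.ker 2 y))

/-- Order of vanishing at `1/2 + i γ`. -/
noncomputable def mult (Φ : ℂ → ℂ) (γ : ℝ) : ℕ := analyticOrderNatAt Φ (rho γ)

/-- The logarithmic derivative after removal of the zeros in `F`. -/
noncomputable def HF (Φ : ℂ → ℂ) (F : Finset ℝ) (s : ℂ) : ℂ :=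
  logDeriv Φ s - ∑ γ ∈ F, (mult Φ γ : ℂ) / (s - rho γ)

/-- `G` is, on `[0, ∞)`, a uniform limit of the trigonometric polynomials with coefficients `c`. -/
def UAP (G : ℝ → ℂ) (c : ℝ → ℂ) : Prop := ∀ ε : ℝ, 0 < ε → ∃ F0 : Finset ℝ, ∀ F : Finset ℝ,
  F0 ⊆ F → ∀ u : ℝ, 0 ≤ u →
    ‖G u - ∑ γ ∈ F, c γ * Complex.exp ((γ * u : ℝ) * Complex.I)‖ ≤ ε

/-- The almost periodic function of the class `a`. -/
noncomputable def Gc (q : ℕ) [NeZero q] (a : ℤ) (u : ℝ) : ℂ :=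
  -(∑ χ : DirichletCharacter ℂ q, χ⁻¹ (a : ZMod q) * J (Hc χ) (Real.exp u)) / (Real.exp (u / 2) : ℂ)

/-! ## Blocks: complex analysis -/

/-- SHL: shift between two vertical lines. -/
def Stmt_SHL : Prop := ∀ (g : ℂ → ℂ) (a b C : ℝ), a ≤ b →
  (∀ s : ℂ, a ≤ s.re → s.re ≤ b → DifferentiableAt ℂ g s) →
  (∀ s : ℂ, a ≤ s.re → s.re ≤ b → ‖g s‖ ≤ C * (1 + ‖s‖) ^ (-(3 / 2) : ℝ)) →
  ∫ y : ℝ, g (vl a y) = ∫ y : ℝ, g (vl b y)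

/-- SHR: shift to `+∞`. -/
def Stmt_SHR : Prop := ∀ (g : ℂ → ℂ) (a C : ℝ),
  (∀ s : ℂ, a ≤ s.re → DifferentiableAt ℂ g s) →
  (∀ s : ℂ, a ≤ s.re → ‖g s‖ ≤ C * (1 + ‖s‖) ^ (-(3 / 2) : ℝ)) →
  ∫ y : ℝ, g (vl a y) = 0

/-- HPC: Cauchy's formula for a half-plane (real poles `p`, `w`). -/
def Stmt_HPC : Prop := ∀ (F : ℂ → ℂ) (σ p w C : ℝ), σ < p → w < σ →
  (∀ s : ℂ, σ ≤ s.re → DifferentiableAt ℂ F s) →
  (∀ s : ℂ, σ ≤ s.re → ‖F s‖ ≤ C * (1 + ‖s‖) ^ (1 / 2 : ℝ)) →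
  ∫ y : ℝ, F (vl σ y) * (((p : ℂ) - w) / (((p : ℂ) - vl σ y) * (vl σ y - w))) = 2 * Real.pi * F p

/-- J1: the bound for `J`. -/
def Stmt_J1 : Prop := ∀ H : ℂ → ℂ, Hg H → ∀ x A : ℝ, 1 ≤ x → 0 < A → A ^ 2 ≤ 3 / 4 →
  ‖J H x‖ ≤ √x * ((H ((1 / 2 + A : ℝ) : ℂ)).re / A)

/-- J0: the value at `x = 1`. -/
def Stmt_J0 : Prop := ∀ H : ℂ → ℂ, Hg H → J H 1 = conj (H 1) - conj (H 2)

/-- KB: kernel integrals of `1`, `1/s` and `1 / (s - β)`. -/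
def Stmt_KB : Prop := ∀ x : ℝ, 1 ≤ x →
  (((1 / (2 * Real.pi) : ℝ) : ℂ) * (∫ y : ℝ, ((x : ℂ) ^ (vl 2 y) * SW.ker 2 y)) = 1 - 1 / x) ∧
  (((1 / (2 * Real.pi) : ℝ) : ℂ) * (∫ y : ℝ, (1 / vl 2 y) * ((x : ℂ) ^ (vl 2 y) * SW.ker 2 y))
    = ((Real.log x - 1 + 1 / x : ℝ) : ℂ)) ∧
  (∀ β : ℂ, β.re < 2 → β ≠ 0 → β ≠ -1 →
    ((1 / (2 * Real.pi) : ℝ) : ℂ) *
        (∫ y : ℝ, (1 / (vl 2 y - β)) * ((x : ℂ) ^ (vl 2 y) * SW.ker 2 y))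
      = (x : ℂ) ^ β / (β * (β + 1)) - 1 / β + 1 / ((β + 1) * x))

/-- J2: `J` of a simple pole on the critical line. -/
def Stmt_J2 : Prop := ∀ γ x : ℝ, 1 ≤ x →
  J (fun s => 1 / (s - rho γ)) x = (x : ℂ) ^ (rho γ) / (rho γ * (rho γ + 1))

/-- HER: Schwarz–Pick / Borel–Carathéodory in the half-plane `re s > 1/2`. -/
def Stmt_HER : Prop := ∀ H : ℂ → ℂ, DifferentiableOn ℂ H {s | 1 / 2 < s.re} →
  (∀ s : ℂ, 1 / 2 < s.re → 0 ≤ (H s).re) → ∀ s z : ℂ, 1 / 2 < s.re → 1 / 2 < z.re →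
  ‖H z - H s‖ ≤ 2 * (H s).re * (‖(z - s) / (z + conj s - 1)‖ / (1 - ‖(z - s) / (z + conj s - 1)‖))

/-- LOWB: lower bound for `Xi` functions. -/
def Stmt_LOWB : Prop := ∀ Φ : ℂ → ℂ, Xi Φ → ∀ δ : ℝ, 0 < δ → ∃ C : ℝ, ∀ s : ℂ, 1 / 2 + δ ≤ s.re →
  Real.exp (-(C * (1 + ‖s‖) ^ (3 / 2 : ℝ))) ≤ ‖Φ s‖

/-- POS: the logarithmic derivative has nonnegative real part. -/
def Stmt_POS : Prop := ∀ Φ : ℂ → ℂ, Xi Φ → ∀ s : ℂ, 1 / 2 < s.re → 0 ≤ (logDeriv Φ s).re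

/-- GRO: growth of the logarithmic derivative. -/
def Stmt_GRO : Prop := ∀ Φ : ℂ → ℂ, Xi Φ → Hg (logDeriv Φ)

/-- REM: removal of zeros. -/
def Stmt_REM : Prop := ∀ Φ : ℂ → ℂ, Xi Φ → ∀ F : Finset ℝ, ∃ Ψ : ℂ → ℂ, Xi Ψ ∧
  (∀ s : ℂ, 1 / 2 < s.re → logDeriv Ψ s = HF Φ F s) ∧ (∀ γ ∈ F, Ψ (rho γ) ≠ 0) ∧
  (∀ s : ℂ, Ψ s = 0 → Φ s = 0)

/-- COM: completeness. -/
def Stmt_COM : Prop := ∀ Φ : ℂ → ℂ, Xi Φ → ∀ ε : ℝ, 0 < ε → ∃ F0 : Finset ℝ, ∀ F : Finset ℝ,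
  F0 ⊆ F → (HF Φ F 1).re ≤ ε

/-- JAP: `J` of the logarithmic derivative is almost periodic. -/
def Stmt_JAP : Prop := ∀ Φ : ℂ → ℂ, Xi Φ → ∀ ε : ℝ, 0 < ε → ∃ F0 : Finset ℝ, ∀ F : Finset ℝ,
  F0 ⊆ F → ∀ x : ℝ, 1 ≤ x →
    ‖J (logDeriv Φ) x - ∑ γ ∈ F, (mult Φ γ : ℂ) * ((x : ℂ) ^ (rho γ) / (rho γ * (rho γ + 1)))‖
      ≤ ε * √x

/-- HCON: a combination of logarithmic derivatives without poles is constant. -/
def Stmt_HCON : Prop := ∀ (ι : Type) [Fintype ι] (Φ : ι → ℂ → ℂ) (w : ι → ℂ), (∀ i, Xi (Φ i)) →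
  (∀ γ : ℝ, ∑ i, w i * (mult (Φ i) γ : ℂ) = 0) → ∀ s : ℂ, 1 / 2 < s.re →
  ∑ i, w i * logDeriv (Φ i) s = ∑ i, w i * logDeriv (Φ i) 1

/-- UAP1: recurrence. -/
def Stmt_UAP1 : Prop := ∀ (G c : ℝ → ℂ) (B : ℝ), UAP G c →
  (∀ η : ℝ, 0 < η → ∀ᶠ u in atTop, (G u).re ≤ B + η) → ∀ u : ℝ, 0 ≤ u → (G u).re ≤ B

/-- UAP2: mean values. -/
def Stmt_UAP2 : Prop := ∀ (G c : ℝ → ℂ), UAP G c → c 0 = 0 →
  Tendsto (fun u => (G u).im) atTop (𝓝 0) →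
  (∀ η : ℝ, 0 < η → ∀ᶠ u in atTop, (G u).re ≤ η) → ∀ γ : ℝ, c γ = 0

/-! ## Blocks: digamma, completed `L`-functions, characters -/

/-- DIG: bounds for the digamma function. -/
def Stmt_DIG : Prop :=
  (∀ z : ℂ, 0 < z.re → DifferentiableAt ℂ Complex.digamma z) ∧
  (∀ δ : ℝ, 0 < δ → ∃ C : ℝ, ∀ z : ℂ, δ ≤ z.re → ‖Complex.digamma z‖ ≤ C * (1 + ‖z‖) ^ (1 / 2 : ℝ)) ∧
  (∀ x : ℝ, 0 < x → (Complex.digamma (x : ℂ)).im = 0 ∧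
    Real.log x - 1 / x ≤ (Complex.digamma (x : ℂ)).re ∧
    (Complex.digamma (x : ℂ)).re ≤ Real.log x - 1 / (2 * x))

/-- XID: the completed functions are entire, with the symmetry. -/
def Stmt_XID : Prop := ∀ (q : ℕ) [NeZero q] (χ : DirichletCharacter ℂ q),
  Differentiable ℂ (PhiC χ) ∧ ∀ s : ℂ, ‖PhiC χ (1 - conj s)‖ = ‖PhiC χ s‖

/-- XIN: nonvanishing. -/
def Stmt_XIN : Prop := ∀ (q : ℕ) [NeZero q] (χ : DirichletCharacter ℂ q),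
  (GRH → ∀ s : ℂ, 1 / 2 < s.re → PhiC χ s ≠ 0) ∧ (χ.LFunction (1 / 2) ≠ 0 → PhiC χ (1 / 2) ≠ 0)

/-- XIU: upper bound. -/
def Stmt_XIU : Prop := ∀ (q : ℕ) [NeZero q] (χ : DirichletCharacter ℂ q), ∃ C : ℝ, ∀ s : ℂ,
  1 / 4 ≤ s.re → ‖PhiC χ s‖ ≤ Real.exp (C * (1 + ‖s‖) ^ (3 / 2 : ℝ))

/-- EXPL: the logarithmic derivative on `re s > 1`. -/
def Stmt_EXPL : Prop := ∀ (q : ℕ) [NeZero q] (χ : DirichletCharacter ℂ q) (s : ℂ), 1 < s.re →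
  Hc χ s = (if χ = 1 then 1 / s + 1 / (s - 1) else 0)
    + 1 / 2 * (Real.log (χ.conductor / Real.pi) : ℂ)
    + 1 / 2 * Complex.digamma ((s + kap χ) / 2)
    - LSeries (fun n => (Λ n : ℂ) * χ.primitiveCharacter (n : ZMod χ.conductor)) s

/-- XI: the completed functions are `Xi`. -/
def Stmt_XI : Prop := GRH → ∀ (q : ℕ) [NeZero q] (χ : DirichletCharacter ℂ q), Xi (PhiC χ)

/-- JX: evaluation of `J (Hc χ)`. -/
def Stmt_JX : Prop := ∀ (q : ℕ) [NeZero q] (χ : DirichletCharacter ℂ q) (x : ℝ), 1 ≤ x →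
  J (Hc χ) x = -(∑ n ∈ Finset.Ioc 0 ⌊x⌋₊,
        (Λ n : ℂ) * χ.primitiveCharacter (n : ZMod χ.conductor) * ((1 - n / x : ℝ) : ℂ))
    + (if χ = 1 then ((x / 2 + Real.log x - 2 + 3 / (2 * x) : ℝ) : ℂ) else 0)
    + 1 / 2 * (Real.log (χ.conductor / Real.pi) : ℂ) * (1 - 1 / x)
    + Dg (kap χ) x + conj (Hc χ 1) - conj (Hc χ 2) / x

/-- DGB: the digamma part is small. -/
def Stmt_DGB : Prop := ∀ κ : ℝ, 0 ≤ κ → ∃ C : ℝ, ∀ x : ℝ, 1 ≤ x → ‖Dg κ x‖ ≤ C * x ^ (1 / 4 : ℝ)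

/-- CHR: the character sum `ca`. -/
def Stmt_CHR : Prop := ∀ (q : ℕ) [NeZero q] (a : ℤ), IsUnit (a : ZMod q) → ∀ n : ℕ, 0 < n →
  (ca q a n).im = 0 ∧ 0 ≤ (ca q a n).re ∧ (ca q a n).re ≤ q.totient ∧
  (n.Coprime q → ca q a n = if (n : ZMod q) = (a : ZMod q) then (q.totient : ℂ) else 0)

/-- CHP: the character sum at the powers of the primes dividing `q`. -/
def Stmt_CHP : Prop := ∀ (q : ℕ) [NeZero q] (p k : ℕ), p.Prime → p ∣ q → 0 < k →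
  ca q 1 (p ^ k) = if ((p ^ k : ℕ) : ZMod (ordCompl[p] q)) = 1
    then ((ordCompl[p] q).totient : ℂ) else 0

/-- CHS: parity sums. -/
def Stmt_CHS : Prop := ∀ (q : ℕ) [NeZero q] (a : ℤ), IsUnit (a : ZMod q) →
  (∑ χ : DirichletCharacter ℂ q, (if χ.Even then χ⁻¹ (a : ZMod q) else 0)
    = (q.totient / 2 : ℂ) * ((if (a : ZMod q) = 1 then 1 else 0) + (if (a : ZMod q) = -1 then 1 else 0))) ∧
  (∑ χ : DirichletCharacter ℂ q, (if χ.Even then 0 else χ⁻¹ (a : ZMod q))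
    = (q.totient / 2 : ℂ) * ((if (a : ZMod q) = 1 then 1 else 0) - (if (a : ZMod q) = -1 then 1 else 0)))

/-- CND: conductors. The sum of `f(conductor)` over the characters; the number of primitive
characters; sign of the twisted sum of `log conductor`. -/
def Stmt_CND : Prop :=
  (∀ (q : ℕ) [NeZero q] (f : ℕ → ℝ), ∑ χ : DirichletCharacter ℂ q, f χ.conductor
    = ∑ d ∈ q.divisors, f d * (Nat.card {χ : DirichletCharacter ℂ d // χ.IsPrimitive} : ℝ)) ∧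
  (∀ q : ℕ, 0 < q → ∑ d ∈ q.divisors, Nat.card {χ : DirichletCharacter ℂ d // χ.IsPrimitive}
    = q.totient) ∧
  (∀ (q : ℕ) [NeZero q] (a : ℤ), IsUnit (a : ZMod q) → (a : ZMod q) ≠ 1 →
    (∑ χ : DirichletCharacter ℂ q, χ⁻¹ (a : ZMod q) * (Real.log χ.conductor : ℂ)).re ≤ 0)

/-! ## Blocks: from the integrated error to `EE` -/

/-- LI: the logarithmic integral is integrable near `1` and smooth after `2`. -/
def Stmt_LI : Prop := (∀ x : ℝ, 0 ≤ x → IntervalIntegrable li volume 0 x) ∧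
  ∀ t : ℝ, 2 ≤ t → li t = li 2 + ∫ u in (2 : ℝ)..t, (Real.log u)⁻¹

/-- SQ: contribution of the prime powers. -/
def Stmt_SQ : Prop := ∀ (q : ℕ) [NeZero q] (a : ℤ), IsUnit (a : ZMod q) →
  Tendsto (fun x : ℝ => ((q.totient : ℝ) *
    (psi1 q a x - ∑ n ∈ (Finset.Ioc 0 ⌊x⌋₊).filter
      (fun n : ℕ => n.Prime ∧ (n : ZMod q) = (a : ZMod q)), Real.log n * (x - n))) / x ^ (3 / 2 : ℝ))
    atTop (𝓝 (2 / 3 * rt q a))

/-- TRA: the integrated error in terms of `EE`. -/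
def Stmt_TRA : Prop := ∀ (q : ℕ) [NeZero q] (a : ℤ), IsUnit (a : ZMod q) →
  (∃ C : ℝ, ∀ x : ℝ, 1 ≤ x → |EE q a x| ≤ C) →
  Tendsto (fun x : ℝ => A1 q a x * Real.log x / x ^ (3 / 2 : ℝ) - (EE q a x - 2 / 3 * rt q a))
    atTop (𝓝 0)

/-! ## Blocks: assembly -/

/-- GE: `Gc` and `EE`. -/
def Stmt_GE : Prop := ∀ (q : ℕ) [NeZero q] (a : ℤ), IsUnit (a : ZMod q) →
  Tendsto (fun x : ℝ => Gc q a (Real.log x) - (EE q a x : ℂ)) atTop (𝓝 0)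

/-- GAP: `Gc` is almost periodic (under GRH). -/
def Stmt_GAP : Prop := GRH → ∀ (q : ℕ) [NeZero q] (a : ℤ), UAP (Gc q a) fun γ => -(∑ χ : DirichletCharacter ℂ q, χ⁻¹ (a : ZMod q) * (mult (PhiC χ) γ : ℂ))
    / (rho γ * (rho γ + 1))

/-- BRI: the bridge. -/
def Stmt_BRI : Prop := GRH → ∀ (q : ℕ) [NeZero q] (a : ℤ), IsUnit (a : ZMod q) →
  (InSet q a → ∀ u : ℝ, 0 ≤ u → (Gc q a u).re ≤ 2 / 3 * rt q a) ∧
  (∀ η : ℝ, 0 < η → (∀ u : ℝ, 0 ≤ u → (Gc q a u).re ≤ 2 / 3 * rt q a - η) → InSet q a) ∧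
  Tendsto (fun u => (Gc q a u).im) atTop (𝓝 0)

/-- The numerical inequality. -/
def NumOK (q : ℕ) [NeZero q] : Prop :=
  (∑ χ : DirichletCharacter ℂ q, (Hc χ (34 / 25)).re) / (43 / 50) < 2 / 3 * rt q 1

/-- INS: squares are inside. -/
def Stmt_INS : Prop := GRH → ∀ (q : ℕ) [NeZero q], NumOK q → ∀ a : ℤ, IsUnit (a : ZMod q) →
  IsSquare (a : ZMod q) → InSet q a

/-- END: the twisted sum of the logarithmic derivatives is not constant. -/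
def Stmt_END : Prop := ∀ (q : ℕ) [NeZero q] (a : ℤ), IsUnit (a : ZMod q) → (a : ZMod q) ≠ 1 →
  ∀ K : ℂ, ¬ ∀ s : ℝ, 1 < s → ∑ χ : DirichletCharacter ℂ q, χ⁻¹ (a : ZMod q) * Hc χ s = K

/-- NSQ: non-squares are outside. -/
def Stmt_NSQ : Prop := GRH → ∀ (q : ℕ) [NeZero q],
  (∀ χ : DirichletCharacter ℂ q, χ.LFunction (1 / 2) ≠ 0) → ∀ a : ℤ, IsUnit (a : ZMod q) →
  ¬ IsSquare (a : ZMod q) → ¬ InSet q a

/-- NUMF: the formula behind the numerical inequalities (`q ≥ 3`, real `s > 1`). -/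
def Stmt_NUMF : Prop := ∀ (q : ℕ) [NeZero q], 3 ≤ q → ∀ (s : ℝ), 1 < s → ∀ S : Finset ℕ,
  (∑ χ : DirichletCharacter ℂ q, (Hc χ s).re) ≤ 1 / s + 1 / (s - 1)
    + 1 / 2 * (∑ d ∈ q.divisors,
        Real.log d * (Nat.card {χ : DirichletCharacter ℂ d // χ.IsPrimitive} : ℝ)
      - q.totient * Real.log Real.pi)
    + q.totient / 4 * ((Complex.digamma ((s / 2 : ℝ) : ℂ)).re
      + (Complex.digamma (((s + 1) / 2 : ℝ) : ℂ)).re)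
    - ∑ n ∈ S, Λ n * (ca q 1 n).re * (n : ℝ) ^ (-s)

/-- NUMA. -/
def Stmt_NUMA : Prop := NumOK 8 ∧ NumOK 12 ∧ NumOK 24

/-- NUMB. -/
def Stmt_NUMB : Prop := NumOK 3 ∧ NumOK 4

/-- NUMC. -/
def Stmt_NUMC : Prop := NumOK 5 ∧ NumOK 15

/-- NUMD. -/
def Stmt_NUMD : Prop := NumOK 20

/-- CEN: central values. -/
def Stmt_CEN : Prop := ∀ q ∈ ({3, 4, 5, 6, 8, 10, 12, 15, 20, 24, 30} : Finset ℕ), ∀ [NeZero q],
  ∀ χ : DirichletCharacter ℂ q, χ.LFunction (1 / 2) ≠ 0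

/-- DBL: reduction of the modulus `2 q`, `q` odd. -/
def Stmt_DBL : Prop := ∀ q : ℕ, Odd q → ∀ a : ℤ, IsCoprime a (2 * q : ℤ) → InSet q a →
  InSet (2 * q) a

/-- RQ: the number of square roots is small. -/
def Stmt_RQ : Prop := ∀ ε : ℝ, 0 < ε → ∃ C : ℝ, ∀ (q : ℕ) (a : ℤ), 0 < q → IsUnit (a : ZMod q) →
  (rt q a : ℝ) ≤ C * (q.totient : ℝ) ^ ε

/-- H2: the total mass. -/
def Stmt_H2 : Prop := ∃ C : ℝ, 0 < C ∧ ∀ (q : ℕ) [NeZero q], 3 ≤ q →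
  ∑ χ : DirichletCharacter ℂ q, |(Hc χ 2).re| ≤ C * q.totient * Real.log q

/-- CRI: the criterion for large moduli. -/
def Stmt_CRI : Prop := GRH → ∃ C : ℝ, 0 < C ∧ ∀ (q : ℕ) [NeZero q], 3 ≤ q →
  ∀ a : ℤ, IsUnit (a : ZMod q) → (a : ZMod q) ≠ 1 → (a : ZMod q) ≠ -1 → InSet q a →
  (∀ x : ℝ, 1 ≤ x → q.totient * psi1 q a x / x
    ≤ x / 2 + Real.log x + 2 / 3 * √x * rt q a + C * √(q.totient * Real.log q)) ∧
  (∀ m : ℕ, 0 < m → (m : ZMod q) * a = 1 → Λ m * q.totient * (1 / m - 1 / m ^ 2)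
      ≤ 2 / 3 * rt q a + C * √(q.totient * Real.log q))

/-- ONE: the classes `1` and `-1`. -/
def Stmt_ONE : Prop := GRH → ∃ q0 : ℕ, ∀ (q : ℕ) [NeZero q], q0 ≤ q → ∀ a : ℤ,
  ((a : ZMod q) = 1 ∨ (a : ZMod q) = -1) → ¬ InSet q a

/-- LRG: large moduli. -/
def Stmt_LRG : Prop := GRH → ∃ c : ℝ, 0 < c ∧ ∃ q0 : ℕ, ∀ (q : ℕ) [NeZero q], q0 ≤ q → ∀ a : ℤ,
  IsUnit (a : ZMod q) →
  ((a : ZMod q) = 1 ∨ (a : ZMod q) = -1 ∨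
    (∃ m : ℕ, (m : ZMod q) = a ∧ (m : ℝ) ≤ c * Λ m * q.totient) ∨
    (∃ m : ℕ, (m : ZMod q) * a = 1 ∧ m * √(Real.log q) ≤ c * Λ m * √(q.totient : ℝ))) →
  ¬ InSet q a

end Pool.Agent.AQ
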