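import Mathlib
import Pool.Agent.Work.MP_99218a_nt.Interface

/-!
# MP_99218a_nt: additional block statements (sharper constants for large moduli)
-/

set_option autoImplicit false

namespace Pool.Agent.AQ

open Filter Topology MeasureTheory ArithmeticFunction
open scoped ComplexConjugate Classical

/-- LRG2: large moduli, with any constant `c < 1/2` for the classes of prime powers. -/
def Stmt_LRG2 : Prop := GRH → ∃ c' : ℝ, 0 < c' ∧ ∀ c : ℝ, c < 1 / 2 → ∃ q0 : ℕ,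
  ∀ (q : ℕ) [NeZero q], q0 ≤ q → ∀ a : ℤ, IsUnit (a : ZMod q) →
  ((a : ZMod q) = 1 ∨ (a : ZMod q) = -1 ∨
    (∃ m : ℕ, (m : ZMod q) = a ∧ (m : ℝ) ≤ c * Λ m * q.totient) ∨
    (∃ m : ℕ, (m : ZMod q) * a = 1 ∧ m * √(Real.log q) ≤ c' * Λ m * √(q.totient : ℝ))) →
  ¬ InSet q a

/-- PRP: a positive proportion of the classes contains a small prime. -/
def Stmt_PRP : Prop := ∀ κ : ℝ, 0 < κ → ∃ c : ℝ, 0 < c ∧ ∃ q0 : ℕ, ∀ q : ℕ, q0 ≤ q →
  c * (q.totient : ℝ) ≤ (Nat.card {a : ZMod q // IsUnit a ∧ ∃ p : ℕ, p.Prime ∧ (p : ZMod q) = a ∧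
    (p : ℝ) ≤ κ * Real.log p * q.totient} : ℝ)

end Pool.Agent.AQ
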