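import Mathlib
import Pool.Agent.Work.MP_99218a_nt.InterfaceB

/-!
# MP_99218a_nt: block statements for the square classes
-/

set_option autoImplicit false

namespace Pool.Agent.AQ

open Filter Topology MeasureTheory ArithmeticFunction
open scoped ComplexConjugate Classical

/-- PSI: the smoothed prime number theorem for characters, under GRH. -/
def Stmt_PSI : Prop := GRH → ∃ C : ℝ, 0 < C ∧ ∀ (q : ℕ) [NeZero q], 3 ≤ q →
  ∀ χ : DirichletCharacter ℂ q, ∀ x : ℝ, 1 ≤ x →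
  ‖(∑ n ∈ Finset.Ioc 0 ⌊x⌋₊,
        (Λ n : ℂ) * χ.primitiveCharacter (n : ZMod χ.conductor) * ((1 - n / x : ℝ) : ℂ))
    - (if χ = 1 then ((x / 2 : ℝ) : ℂ) else 0)‖ ≤ C * √x * Real.log q

/-- PSQ: many primes in the classes of squares, under GRH. -/
def Stmt_PSQ : Prop := GRH → ∃ C : ℝ, 0 < C ∧ ∀ (q : ℕ) [NeZero q], 3 ≤ q → ∀ x : ℝ, 1 ≤ x →
  x / (2 * rt q 1) - C * √x * (1 + Real.log x) * Real.log q
    ≤ ∑ p ∈ (Finset.Ioc 0 ⌊x⌋₊).filter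
      (fun p : ℕ => p.Prime ∧ IsUnit (p : ZMod q) ∧ IsSquare (p : ZMod q)), Real.log p

/-- PRS: many square classes contain a small prime, under GRH. -/
def Stmt_PRS : Prop := GRH → ∀ κ : ℝ, 0 < κ → ∃ c : ℝ, 0 < c ∧ ∃ q0 : ℕ, ∀ q : ℕ, q0 ≤ q →
  c * (q.totient : ℝ) / (rt q 1 : ℝ) ^ 2 ≤ (Nat.card {a : ZMod q // IsUnit a ∧ IsSquare a ∧
    ∃ p : ℕ, p.Prime ∧ (p : ZMod q) = a ∧ (p : ℝ) ≤ κ * Real.log p * q.totient} : ℝ)

end Pool.Agent.AQ
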