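import Mathlib
import Pool.Agent.Work.MP_99218a_nt.InterfaceC

/-!
# MP_99218a_nt: final assembly
-/

set_option autoImplicit false

namespace Pool.Agent.AQ

open Filter Topology MeasureTheory ArithmeticFunction
open scoped ComplexConjugate Classical

theorem isUnit_iff (q : ℕ) (a : ℤ) : IsUnit (a : ZMod q) ↔ IsCoprime a (q : ℤ) := by
  rw [ZMod.coe_int_isUnit_iff_isCoprime, isCoprime_comm]

theorem isSquare_iff (q : ℕ) (a : ℤ) : IsSquare (a : ZMod q) ↔ ∃ b : ℤ, b ^ 2 ≡ a [ZMOD q] := by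
  constructor
  · rintro ⟨b, hb⟩
    obtain ⟨b', rfl⟩ := ZMod.intCast_surjective b
    refine ⟨b', ?_⟩
    rw [← ZMod.intCast_eq_intCast_iff]
    push_cast
    rw [hb]
    ring
  · rintro ⟨b, hb⟩
    rw [← ZMod.intCast_eq_intCast_iff] at hb
    refine ⟨(b : ZMod q), ?_⟩
    rw [← hb]
    push_cast
    ring

theorem small_inside (h : GRH) (hINS : Stmt_INS) (hA : Stmt_NUMA) (hB : Stmt_NUMB) (hC : Stmt_NUMC)
    (hD : Stmt_NUMD) (hDBL : Stmt_DBL) (q : ℕ)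
    (hq : q ∈ ({3, 4, 5, 6, 8, 10, 12, 15, 20, 24, 30} : Finset ℕ)) (a : ℤ)
    (ha : IsCoprime a (q : ℤ)) (hsq : ∃ b : ℤ, b ^ 2 ≡ a [ZMOD q]) : InSet q a := by
  have key : ∀ (m : ℕ) [NeZero m], NumOK m → ∀ a : ℤ, IsCoprime a (m : ℤ) →
      (∃ b : ℤ, b ^ 2 ≡ a [ZMOD m]) → InSet m a := by
    intro m _ hm a ha hsq
    exact hINS h m hm a ((isUnit_iff m a).mpr ha) ((isSquare_iff m a).mpr hsq)
  have dbl : ∀ (m : ℕ) [NeZero m], NumOK m → Odd m → ∀ a : ℤ, IsCoprime a ((2 * m : ℕ) : ℤ) →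
      (∃ b : ℤ, b ^ 2 ≡ a [ZMOD ((2 * m : ℕ) : ℤ)]) → InSet (2 * m) a := by
    intro m _ hm hodd a ha hsq
    push_cast at ha hsq
    refine hDBL m hodd a ha (key m hm a (IsCoprime.of_mul_right_right ha) ?_)
    obtain ⟨b, hb⟩ := hsq
    exact ⟨b, Int.ModEq.of_mul_left 2 hb⟩
  obtain ⟨h8, h12, h24⟩ := hA
  obtain ⟨h3, h4⟩ := hB
  obtain ⟨h5, h15⟩ := hC
  simp only [Finset.mem_insert, Finset.mem_singleton] at hq
  rcases hq with rfl | rfl | rfl | rfl | rfl | rfl | rfl | rfl | rfl | rfl | rfl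
  · exact key 3 h3 a ha hsq
  · exact key 4 h4 a ha hsq
  · exact key 5 h5 a ha hsq
  · exact dbl 3 h3 (by decide) a ha hsq
  · exact key 8 h8 a ha hsq
  · exact dbl 5 h5 (by decide) a ha hsq
  · exact key 12 h12 a ha hsq
  · exact key 15 h15 a ha hsq
  · exact key 20 hD a ha hsq
  · exact key 24 h24 a ha hsq
  · exact dbl 15 h15 (by decide) a ha hsq

theorem small_iff (h : GRH) (hINS : Stmt_INS) (hA : Stmt_NUMA) (hB : Stmt_NUMB) (hC : Stmt_NUMC)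
    (hD : Stmt_NUMD) (hDBL : Stmt_DBL) (hNSQ : Stmt_NSQ) (hCEN : Stmt_CEN) (q : ℕ)
    (hq : q ∈ ({3, 4, 5, 6, 8, 10, 12, 15, 20, 24, 30} : Finset ℕ)) (a : ℤ)
    (ha : IsCoprime a (q : ℤ)) : InSet q a ↔ ∃ b : ℤ, b ^ 2 ≡ a [ZMOD q] := by
  refine ⟨fun hin => ?_, small_inside h hINS hA hB hC hD hDBL q hq a ha⟩
  by_contra hns
  have : NeZero q := ⟨by rintro rfl; simp at hq⟩
  exact hNSQ h q (hCEN q hq) a ((isUnit_iff q a).mpr ha) (fun hs => hns ((isSquare_iff q a).mp hs)) hin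

theorem nonsquare_outside (h : GRH) (hNSQ : Stmt_NSQ) (q : ℕ) [NeZero q]
    (hc : ∀ χ : DirichletCharacter ℂ q, χ.LFunction (1 / 2) ≠ 0) (a : ℤ)
    (ha : IsCoprime a (q : ℤ)) (hns : ¬ ∃ b : ℤ, b ^ 2 ≡ a [ZMOD q]) : ¬ InSet q a :=
  hNSQ h q hc a ((isUnit_iff q a).mpr ha) fun hs => hns ((isSquare_iff q a).mp hs)

theorem large_outside (h : GRH) (hL : Stmt_LRG2) : ∃ c' : ℝ, 0 < c' ∧ ∀ c : ℝ, c < 1 / 2 →
    ∃ q0 : ℕ, ∀ q : ℕ, q0 ≤ q → ∀ a : ℤ, IsCoprime a (q : ℤ) →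
    (a ≡ 1 [ZMOD q] ∨ a ≡ -1 [ZMOD q] ∨
      (∃ p k : ℕ, p.Prime ∧ a ≡ (p : ℤ) ^ k [ZMOD q] ∧
        (p : ℝ) ^ k ≤ c * Real.log p * q.totient) ∨
      (∃ p k : ℕ, p.Prime ∧ (p : ℤ) ^ k * a ≡ 1 [ZMOD q] ∧
        (p : ℝ) ^ k * √(Real.log q) ≤ c' * Real.log p * √(q.totient : ℝ))) →
    ¬ InSet q a := by
  obtain ⟨c', hc', H⟩ := hL h
  refine ⟨c', hc', fun c hc => ?_⟩
  obtain ⟨q0, hq0⟩ := H c hc
  refine ⟨max q0 3, fun q hq a ha hor => ?_⟩
  have : NeZero q := ⟨by omega⟩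
  have hu : IsUnit (a : ZMod q) := (isUnit_iff q a).mpr ha
  have cast : ∀ x y : ℤ, x ≡ y [ZMOD q] → (x : ZMod q) = (y : ZMod q) := fun x y hxy =>
    (ZMod.intCast_eq_intCast_iff x y q).mpr hxy
  by_cases h1 : (a : ZMod q) = 1
  · exact hq0 q (by omega) a hu (Or.inl h1)
  refine hq0 q (by omega) a hu ?_
  rcases hor with h2 | h2 | ⟨p, k, hp, hk, hle⟩ | ⟨p, k, hp, hk, hle⟩
  · exact Or.inl (by simpa using cast _ _ h2)
  · exact Or.inr (Or.inl (by simpa using cast _ _ h2))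
  · have hk' : ((p ^ k : ℕ) : ZMod q) = (a : ZMod q) := by
      have := cast _ _ hk
      push_cast at this ⊢
      exact this.symm
    have hk0 : k ≠ 0 := by
      rintro rfl
      apply h1
      rw [← hk']
      simp
    refine Or.inr (Or.inr (Or.inl ⟨p ^ k, hk', ?_⟩))
    rw [vonMangoldt_apply_pow hk0, vonMangoldt_apply_prime hp]
    push_cast
    exact hle
  · have hk' : ((p ^ k : ℕ) : ZMod q) * (a : ZMod q) = 1 := by
      have := cast _ _ hk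
      push_cast at this ⊢
      exact this
    have hk0 : k ≠ 0 := by
      rintro rfl
      apply h1
      simpa using hk'
    refine Or.inr (Or.inr (Or.inr ⟨p ^ k, hk', ?_⟩))
    rw [vonMangoldt_apply_pow hk0, vonMangoldt_apply_prime hp]
    push_cast
    exact hle

theorem proportion_outside (h : GRH) (hL : Stmt_LRG2) (hP : Stmt_PRP) : ∃ c : ℝ, 0 < c ∧
    ∃ q0 : ℕ, ∀ q : ℕ, q0 ≤ q → c * (q.totient : ℝ) ≤
      (((Finset.range q).filter fun a : ℕ => a.Coprime q ∧ ¬ InSet q (a : ℤ)).card : ℝ) := by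
  obtain ⟨c', hc', H⟩ := hL h
  obtain ⟨q1, hq1⟩ := H (1 / 4) (by norm_num)
  obtain ⟨c, hc, q2, hq2⟩ := hP (1 / 4) (by norm_num)
  refine ⟨c, hc, max (max q1 q2) 3, fun q hq => ?_⟩
  have : NeZero q := ⟨by omega⟩
  refine (hq2 q (by omega)).trans ?_
  norm_cast
  have hmem : ∀ x : {a : ZMod q // IsUnit a ∧ ∃ p : ℕ, p.Prime ∧ (p : ZMod q) = a ∧
      (p : ℝ) ≤ 1 / 4 * Real.log p * q.totient}, x.1.val ∈
      (Finset.range q).filter fun a : ℕ => a.Coprime q ∧ ¬ InSet q (a : ℤ) := by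
    rintro ⟨a, hu, p, hp, hpa, hle⟩
    have hval : ((a.val : ℤ) : ZMod q) = a := by simp
    rw [Finset.mem_filter, Finset.mem_range]
    refine ⟨ZMod.val_lt a, ?_, ?_⟩
    · rw [← ZMod.isUnit_iff_coprime]
      simpa using hu
    · refine hq1 q (by omega) (a.val : ℤ) (by rw [hval]; exact hu) (Or.inr (Or.inr (Or.inl ⟨p, ?_, ?_⟩)))
      · rw [hval, hpa]
      · rw [vonMangoldt_apply_prime hp]
        exact hle
  have hinj : Function.Injective (fun x : {a : ZMod q // IsUnit a ∧ ∃ p : ℕ, p.Prime ∧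
      (p : ZMod q) = a ∧ (p : ℝ) ≤ 1 / 4 * Real.log p * q.totient} =>
      (⟨x.1.val, hmem x⟩ : {n // n ∈ (Finset.range q).filter
        fun a : ℕ => a.Coprime q ∧ ¬ InSet q (a : ℤ)})) := by
    intro x y hxy
    apply Subtype.ext
    apply ZMod.val_injective q
    exact congrArg Subtype.val hxy
  have h1 := Nat.card_le_card_of_injective _ hinj
  rw [Nat.card_eq_fintype_card (α := {n // n ∈ (Finset.range q).filter
        fun a : ℕ => a.Coprime q ∧ ¬ InSet q (a : ℤ)}), Fintype.card_coe] at h1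
  exact h1

theorem proportion_squares_outside (h : GRH) (hL : Stmt_LRG2) (hP : Stmt_PRS) : ∃ c : ℝ, 0 < c ∧
    ∃ q0 : ℕ, ∀ q : ℕ, q0 ≤ q → c * (q.totient : ℝ) / (rt q 1 : ℝ) ^ 2 ≤
      (((Finset.range q).filter fun a : ℕ => a.Coprime q ∧ (∃ b : ℤ, b ^ 2 ≡ a [ZMOD q]) ∧
        ¬ InSet q (a : ℤ)).card : ℝ) := by
  obtain ⟨c', hc', H⟩ := hL h
  obtain ⟨q1, hq1⟩ := H (1 / 4) (by norm_num)
  obtain ⟨c, hc, q2, hq2⟩ := hP h (1 / 4) (by norm_num)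
  refine ⟨c, hc, max (max q1 q2) 3, fun q hq => ?_⟩
  have : NeZero q := ⟨by omega⟩
  refine (hq2 q (by omega)).trans ?_
  set T : Finset ℕ := (Finset.range q).filter fun a : ℕ => a.Coprime q ∧
    (∃ b : ℤ, b ^ 2 ≡ a [ZMOD q]) ∧ ¬ InSet q (a : ℤ) with hT
  norm_cast
  have hmem : ∀ x : {a : ZMod q // IsUnit a ∧ IsSquare a ∧ ∃ p : ℕ, p.Prime ∧ (p : ZMod q) = a ∧
      (p : ℝ) ≤ 1 / 4 * Real.log p * q.totient}, x.1.val ∈ T := by
    rintro ⟨a, hu, hs, p, hp, hpa, hle⟩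
    have hval : ((a.val : ℤ) : ZMod q) = a := by simp
    rw [hT, Finset.mem_filter, Finset.mem_range]
    refine ⟨ZMod.val_lt a, ?_, ?_, ?_⟩
    · rw [← ZMod.isUnit_iff_coprime]
      simpa using hu
    · rw [← isSquare_iff, hval]
      exact hs
    · refine hq1 q (by omega) (a.val : ℤ) (by rw [hval]; exact hu) (Or.inr (Or.inr (Or.inl ⟨p, ?_, ?_⟩)))
      · rw [hval, hpa]
      · rw [vonMangoldt_apply_prime hp]
        exact hle
  have hinj : Function.Injective (fun x : {a : ZMod q // IsUnit a ∧ IsSquare a ∧ ∃ p : ℕ, p.Prime ∧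
      (p : ZMod q) = a ∧ (p : ℝ) ≤ 1 / 4 * Real.log p * q.totient} =>
      (⟨x.1.val, hmem x⟩ : {n // n ∈ T})) := by
    intro x y hxy
    apply Subtype.ext
    apply ZMod.val_injective q
    exact congrArg Subtype.val hxy
  have h1 := Nat.card_le_card_of_injective _ hinj
  rw [Nat.card_eq_fintype_card (α := {n // n ∈ T}), Fintype.card_coe] at h1
  exact h1

end Pool.Agent.AQ
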