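import Pool.Agent.Work.MP_99218a_nt.NSC
import Pool.Agent.Work.MP_99218a_nt.FINAL

/-! # Every modulus `q ≥ 3` has a class outside -/

set_option autoImplicit false

namespace Pool.Agent.AQ

open scoped Classical

theorem exists_subgroup (q : ℕ) [NeZero q] (hq : 3 ≤ q) :
    ∃ (H : Subgroup (ZMod q)ˣ) (b : (ZMod q)ˣ), (∀ x ∈ H, ¬ IsSquare (b * x)) ∧
      ∀ χ : DirichletCharacter ℂ q, χ ≠ 1 → (∀ x ∈ H, χ x = 1) → ¬ 0 < (χ b).re := by
  have hne : (-1 : (ZMod q)ˣ) ≠ 1 := by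
    have : Fact (2 < q) := ⟨by omega⟩
    intro h
    have h1 : ((-1 : (ZMod q)ˣ) : ZMod q) = ((1 : (ZMod q)ˣ) : ZMod q) := by rw [h]
    rw [Units.val_neg, Units.val_one] at h1
    exact ZMod.neg_one_ne_one h1
  obtain ⟨b, hb⟩ : ∃ b : (ZMod q)ˣ, ∀ c : (ZMod q)ˣ, c ^ 2 ≠ b := by
    by_contra hcon
    push Not at hcon
    have hsur : Function.Surjective (fun c : (ZMod q)ˣ => c ^ 2) := hcon
    have hinj := Finite.injective_iff_surjective.mpr hsur
    exact hne (hinj (by simp))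
  set S : Subgroup (ZMod q)ˣ := (powMonoidHom 2 : (ZMod q)ˣ →* (ZMod q)ˣ).range with hS
  have hmemS : ∀ c : (ZMod q)ˣ, c ^ 2 ∈ S := fun c => ⟨c, rfl⟩
  have hbS : (QuotientGroup.mk b : (ZMod q)ˣ ⧸ S) ≠ 1 := by
    intro h
    rw [QuotientGroup.eq_one_iff] at h
    obtain ⟨c, hc⟩ := h
    exact hb c hc
  have hexp : NeZero (Monoid.exponent ((ZMod q)ˣ ⧸ S)) :=
    ⟨Monoid.exponent_ne_zero.mpr ⟨Nat.card ((ZMod q)ˣ ⧸ S), Nat.card_pos, fun g => pow_card_eq_one'⟩⟩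
  obtain ⟨φ, hφ⟩ := CommGroup.exists_apply_ne_one_of_hasEnoughRootsOfUnity
    ((ZMod q)ˣ ⧸ S) ℂ hbS
  set ψ : (ZMod q)ˣ →* ℂˣ := φ.comp (QuotientGroup.mk' S) with hψ
  have hψS : ∀ x ∈ S, ψ x = 1 := by
    intro x hx
    rw [hψ, MonoidHom.comp_apply]
    have : (QuotientGroup.mk' S) x = 1 := (QuotientGroup.eq_one_iff x).mpr hx
    rw [this, map_one]
  have hψb : ψ b ≠ 1 := hφ
  have hpm : ∀ y : (ZMod q)ˣ, ψ y = 1 ∨ ψ y = -1 := by
    intro y
    have h1 : ψ y * ψ y = 1 := by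
      rw [← map_mul, ← sq]
      exact hψS _ (hmemS y)
    have h2 : (ψ y : ℂ) * (ψ y : ℂ) = 1 := by
      rw [← Units.val_mul, h1, Units.val_one]
    rcases mul_self_eq_one_iff.mp h2 with h3 | h3
    · exact Or.inl (Units.ext h3)
    · exact Or.inr (Units.ext (by rw [h3]; simp))
  have hψb1 : ψ b = -1 := (hpm b).resolve_left hψb
  refine ⟨ψ.ker, b, ?_, ?_⟩
  · rintro x hx ⟨c, hc⟩
    have h1 : ψ (b * x) = 1 := by
      rw [hc, ← sq]
      exact hψS _ (hmemS c)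
    rw [map_mul, MonoidHom.mem_ker.mp hx, mul_one] at h1
    exact hψb h1
  · intro χ hχ hker hpos
    have h1 : χ (b : ZMod q) * χ (b : ZMod q) = 1 := by
      rw [← map_mul, ← Units.val_mul]
      exact hker _ (MonoidHom.mem_ker.mpr (by rw [← sq]; exact hψS _ (hmemS b)))
    have h2 : χ (b : ZMod q) = 1 := by
      rcases mul_self_eq_one_iff.mp h1 with h3 | h3
      · exact h3
      · rw [h3] at hpos
        norm_num at hpos
    apply hχ
    refine MulChar.ext fun y => ?_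
    rw [MulChar.one_apply_coe]
    rcases hpm y with h3 | h3
    · exact hker y (MonoidHom.mem_ker.mpr h3)
    · have h4 : ψ (b⁻¹ * y) = 1 := by
        rw [map_mul, map_inv, hψb1, h3]
        simp
      have h5 := hker _ (MonoidHom.mem_ker.mpr h4)
      have h6 : (y : ZMod q) = (b : ZMod q) * ((b⁻¹ * y : (ZMod q)ˣ) : ZMod q) := by
        rw [← Units.val_mul]
        congr 1
        group
      rw [h6, map_mul, h2, h5, one_mul]

theorem every_modulus (hB : Stmt_BRI) (hGAP : Stmt_GAP) (hH : Stmt_HCON) (hN : Stmt_XIN)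
    (hX : Stmt_XI) (hE : Stmt_END) (hGRH : GRH) (q : ℕ) (hq : 3 ≤ q) :
    ∃ a : ℤ, IsCoprime a (q : ℤ) ∧ (¬ ∃ b : ℤ, b ^ 2 ≡ a [ZMOD q]) ∧ ¬ InSet q a := by
  have : NeZero q := ⟨by omega⟩
  obtain ⟨H, b, hb, hc⟩ := exists_subgroup q hq
  obtain ⟨a, ⟨x, hx, hax⟩, hout⟩ := coset_outside hB hGAP hH hN hX hE hGRH q H b hb
    (fun χ h1 h2 h3 => absurd h3 (hc χ h1 h2))
  have hax' : (a : ZMod q) = ((b * x : (ZMod q)ˣ) : ZMod q) := by
    rw [hax, Units.val_mul]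
  refine ⟨a, ?_, ?_, hout⟩
  · rw [← isUnit_iff, hax']
    exact Units.isUnit _
  · rw [← isSquare_iff, hax']
    rintro ⟨c, hc'⟩
    have hcu : IsUnit c := by
      have h3 : IsUnit (c * c) := by rw [← hc']; exact Units.isUnit _
      exact isUnit_of_mul_isUnit_left h3
    obtain ⟨w, rfl⟩ := hcu
    exact hb x hx ⟨w, Units.ext (by rw [hc']; rfl)⟩

end Pool.Agent.AQ
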