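import Pool.Agent.Work.MP_99218a_nt.MAIN
import Pool.Agent.Work.MP_99218a_nt.NSE

/-!
# MP_99218a_nt: cosets of non-squares
-/

set_option autoImplicit false

namespace Pool.Agent.AQ.Main

open Pool.Agent.AQ

theorem cosets (h : GRH) (q : ℕ) [NeZero q] (H : Subgroup (ZMod q)ˣ) (b : (ZMod q)ˣ)
    (hb : ∀ x ∈ H, ¬ IsSquare (b * x))
    (hc : ∀ χ : DirichletCharacter ℂ q, χ ≠ 1 → (∀ x ∈ H, χ x = 1) → 0 < (χ b).re →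
      χ.LFunction (1 / 2) ≠ 0) :
    ∃ a : ℤ, (∃ x ∈ H, (a : ZMod q) = b * x) ∧ ¬ InSet q a :=
  coset_outside (hBRI stmt_KB (J2_of_KB stmt_KB) stmt_LOWB) (hGAP (J2_of_KB stmt_KB) stmt_LOWB)
    (hHCON stmt_LOWB) stmt_XIN hXI (stmt_END stmt_EXPL stmt_CHS) h q H b hb hc

theorem every (h : GRH) (q : ℕ) (hq : 3 ≤ q) :
    ∃ a : ℤ, IsCoprime a (q : ℤ) ∧ (¬ ∃ b : ℤ, b ^ 2 ≡ a [ZMOD q]) ∧ ¬ InSet q a :=
  every_modulus (hBRI stmt_KB (J2_of_KB stmt_KB) stmt_LOWB)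
    (hGAP (J2_of_KB stmt_KB) stmt_LOWB)
    (hHCON stmt_LOWB) stmt_XIN hXI (stmt_END stmt_EXPL stmt_CHS) h q hq

end Pool.Agent.AQ.Main
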