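import Mathlib
import Pool.Agent.Work.MP_99218a_nt.Interface

/-!
# Block BRI: the bridge between the integrated error and the almost periodic function
-/

set_option autoImplicit false

namespace Pool.Agent.AQ

open Filter Topology MeasureTheory ArithmeticFunction
open scoped ComplexConjugate Classical

namespace BRI

/-- A uniformly almost periodic function is bounded on the half line. -/
theorem bdd_of_uap {G c : ℝ → ℂ} (h : UAP G c) : ∃ C : ℝ, ∀ u : ℝ, 0 ≤ u → ‖G u‖ ≤ C := by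
  obtain ⟨F0, hF0⟩ := h 1 one_pos
  refine ⟨1 + ∑ γ ∈ F0, ‖c γ‖, fun u hu => ?_⟩
  have h1 := hF0 F0 (Finset.Subset.refl _) u hu
  have h2 : ‖∑ γ ∈ F0, c γ * Complex.exp ((γ * u : ℝ) * Complex.I)‖ ≤ ∑ γ ∈ F0, ‖c γ‖ := by
    refine (norm_sum_le _ _).trans (Finset.sum_le_sum fun γ _ => ?_)
    rw [norm_mul, Complex.norm_exp_ofReal_mul_I, mul_one]
  have h3 := norm_sub_norm_le (G u) (∑ γ ∈ F0, c γ * Complex.exp ((γ * u : ℝ) * Complex.I))
  linarith

/-- Trivial bounds for `psi1`. -/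
theorem psi1_bounds (q : ℕ) (a : ℤ) {x X : ℝ} (hx : 0 ≤ x) (hxX : x ≤ X) :
    0 ≤ psi1 q a x ∧ psi1 q a x ≤ ∑ n ∈ Finset.Ioc 0 ⌊X⌋₊, Λ n * X := by
  constructor
  · unfold psi1
    refine Finset.sum_nonneg fun n hn => ?_
    rw [Finset.mem_filter, Finset.mem_Ioc] at hn
    have h1 : (n : ℝ) ≤ x := (Nat.le_floor_iff hx).1 hn.1.2
    exact mul_nonneg vonMangoldt_nonneg (by linarith)
  · unfold psi1
    have hsub : (Finset.Ioc 0 ⌊x⌋₊).filter (fun n : ℕ => (n : ZMod q) = (a : ZMod q)) ⊆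
        Finset.Ioc 0 ⌊X⌋₊ := by
      intro n hn
      rw [Finset.mem_filter, Finset.mem_Ioc] at hn
      rw [Finset.mem_Ioc]
      exact ⟨hn.1.1, hn.1.2.trans (Nat.floor_le_floor hxX)⟩
    refine (Finset.sum_le_sum (g := fun n => Λ n * X) fun n _ => ?_).trans
      (Finset.sum_le_sum_of_subset_of_nonneg hsub fun n _ _ => ?_)
    · have h0 : (0 : ℝ) ≤ (n : ℝ) := Nat.cast_nonneg n
      exact mul_le_mul_of_nonneg_left (by linarith) vonMangoldt_nonneg
    · exact mul_nonneg vonMangoldt_nonneg (hx.trans hxX)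

/-- `EE` is bounded on bounded parts of `[1, ∞)`. -/
theorem EE_bdd_compact (q : ℕ) (a : ℤ) (X : ℝ) :
    ∃ C : ℝ, ∀ x : ℝ, 1 ≤ x → x ≤ X → |EE q a x| ≤ C := by
  refine ⟨(q.totient : ℝ) * (∑ n ∈ Finset.Ioc 0 ⌊X⌋₊, Λ n * X) + X ^ 2 / 2, fun x hx hxX => ?_⟩
  obtain ⟨h0, h1⟩ := psi1_bounds q a (by linarith : (0 : ℝ) ≤ x) hxX
  have hq : (0 : ℝ) ≤ (q.totient : ℝ) := Nat.cast_nonneg _
  have h2 : (1 : ℝ) ≤ x ^ (3 / 2 : ℝ) := Real.one_le_rpow hx (by norm_num)
  have h3 : |(q.totient : ℝ) * psi1 q a x - x ^ 2 / 2| ≤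
      (q.totient : ℝ) * (∑ n ∈ Finset.Ioc 0 ⌊X⌋₊, Λ n * X) + X ^ 2 / 2 := by
    have h4 : (q.totient : ℝ) * psi1 q a x ≤ (q.totient : ℝ) * (∑ n ∈ Finset.Ioc 0 ⌊X⌋₊, Λ n * X) :=
      mul_le_mul_of_nonneg_left h1 hq
    have h5 : 0 ≤ (q.totient : ℝ) * psi1 q a x := mul_nonneg hq h0
    have h6 : x ^ 2 ≤ X ^ 2 := by nlinarith
    have h7 : 0 ≤ x ^ 2 := sq_nonneg x
    rw [abs_le]
    constructor <;> linarith
  unfold EE
  rw [abs_div, abs_of_pos (by linarith : (0 : ℝ) < x ^ (3 / 2 : ℝ))]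
  refine (div_le_self (abs_nonneg _) h2).trans h3

end BRI

theorem stmt_BRI (hGE : Stmt_GE) (hGAP : Stmt_GAP) (hTRA : Stmt_TRA) (hUAP1 : Stmt_UAP1) :
    Stmt_BRI := by
  intro hG q _ a ha
  have hU := hGAP hG q a
  have hge := hGE q a ha
  -- the difference of the real parts
  have hgeR : Tendsto (fun x : ℝ => (Gc q a (Real.log x)).re - EE q a x) atTop (𝓝 0) := by
    have h1 := (Complex.continuous_re.tendsto 0).comp hge
    refine (h1.congr fun x => ?_)
    simp
  have hgeI : Tendsto (fun x : ℝ => (Gc q a (Real.log x)).im) atTop (𝓝 0) := by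
    have h1 := (Complex.continuous_im.tendsto 0).comp hge
    refine (h1.congr fun x => ?_)
    simp
  -- boundedness of `EE`
  obtain ⟨C1, hC1⟩ := BRI.bdd_of_uap hU
  have hE : ∃ C : ℝ, ∀ x : ℝ, 1 ≤ x → |EE q a x| ≤ C := by
    have h1 : ∀ᶠ x : ℝ in atTop, |(Gc q a (Real.log x)).re - EE q a x| < 1 := by
      have := hgeR.abs
      rw [abs_zero] at this
      exact this.eventually_lt_const one_pos
    obtain ⟨X, hX⟩ := eventually_atTop.1 h1
    obtain ⟨C2, hC2⟩ := BRI.EE_bdd_compact q a X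
    refine ⟨max (C1 + 1) C2, fun x hx => ?_⟩
    by_cases hxX : x ≤ X
    · exact (hC2 x hx hxX).trans (le_max_right _ _)
    · have h2 := hX x (not_le.1 hxX).le
      have h3 := (Complex.abs_re_le_norm (Gc q a (Real.log x))).trans
        (hC1 (Real.log x) (Real.log_nonneg hx))
      have h4 := abs_sub_abs_le_abs_sub (EE q a x) ((Gc q a (Real.log x)).re)
      rw [abs_sub_comm] at h2
      refine le_trans ?_ (le_max_left _ _)
      linarith
  have htra := hTRA q a ha hE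
  have hpos : ∀ x : ℝ, 1 < x → 0 < Real.log x / x ^ (3 / 2 : ℝ) := fun x hx =>
    div_pos (Real.log_pos hx) (Real.rpow_pos_of_pos (by linarith) _)
  refine ⟨?_, ?_, ?_⟩
  · rintro ⟨x0, hx0⟩
    refine hUAP1 (Gc q a) _ _ hU fun η hη => ?_
    have e1 : ∀ᶠ x : ℝ in atTop, (Gc q a (Real.log x)).re - EE q a x < η / 2 :=
      hgeR.eventually_lt_const (by linarith)
    have e2 : ∀ᶠ x : ℝ in atTop,
        -(η / 2) < A1 q a x * Real.log x / x ^ (3 / 2 : ℝ) - (EE q a x - 2 / 3 * rt q a) :=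
      htra.eventually_const_lt (by linarith)
    have e3 : ∀ᶠ x : ℝ in atTop, (Gc q a (Real.log x)).re ≤ 2 / 3 * rt q a + η := by
      filter_upwards [e1, e2, eventually_ge_atTop x0, eventually_gt_atTop 1] with x h1 h2 h3 h4
      have h5 := hx0 x h3
      have h6 := hpos x h4
      have h7 : A1 q a x * Real.log x / x ^ (3 / 2 : ℝ) < 0 := by
        rw [mul_div_assoc]
        exact mul_neg_of_neg_of_pos h5 h6
      linarith
    have e4 := Real.tendsto_exp_atTop.eventually e3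
    filter_upwards [e4] with u hu
    rwa [Real.log_exp] at hu
  · intro η hη hGle
    have e1 : ∀ᶠ x : ℝ in atTop, -(η / 4) < (Gc q a (Real.log x)).re - EE q a x :=
      hgeR.eventually_const_lt (by linarith)
    have e2 : ∀ᶠ x : ℝ in atTop,
        A1 q a x * Real.log x / x ^ (3 / 2 : ℝ) - (EE q a x - 2 / 3 * rt q a) < η / 4 :=
      htra.eventually_lt_const (by linarith)
    have e3 : ∀ᶠ x : ℝ in atTop, A1 q a x < 0 := by
      filter_upwards [e1, e2, eventually_gt_atTop 1] with x h1 h2 h4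
      have h5 := hGle (Real.log x) (Real.log_nonneg h4.le)
      have h6 := hpos x h4
      have h7 : A1 q a x * (Real.log x / x ^ (3 / 2 : ℝ)) < 0 := by
        rw [← mul_div_assoc]
        linarith
      by_contra hcon
      exact absurd (mul_nonneg (not_lt.1 hcon) h6.le) (not_le.2 h7)
    exact eventually_atTop.1 e3
  · have h1 := hgeI.comp Real.tendsto_exp_atTop
    refine h1.congr fun u => ?_
    simp [Function.comp, Real.log_exp]

end Pool.Agent.AQ
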