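import Pool.Agent.Work.MP_99218a_nt.Interface
import Pool.Agent.Work.MP_b0c12c_nt_helper6.LBound
import Pool.Agent.Work.MP_852da8_nt.ZetaApprox

/-!
# MP_99218a_nt, block CEN: central values for the small moduli
-/

set_option autoImplicit false

namespace Pool.Agent.AQ

open Filter Topology MeasureTheory Finset

namespace CEN

/-! ## The zeta function -/

lemma cpow_half (n : ℕ) : ((n : ℂ)) ^ (1 / 2 : ℂ) = ((√(n : ℝ) : ℝ) : ℂ) := by
  rw [Real.sqrt_eq_rpow, Complex.ofReal_cpow (Nat.cast_nonneg _)]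
  push_cast
  rfl

lemma cpow_neg_half (n : ℕ) : ((n : ℂ)) ^ (-(1 / 2) : ℂ) = (((√(n : ℝ))⁻¹ : ℝ) : ℂ) := by
  rw [Complex.cpow_neg, cpow_half, Complex.ofReal_inv]

lemma defect_re (n : ℕ) : 0 ≤ (Pool.Agent.Work.MP_852da8_nt.defect n (1 / 2)).re := by
  unfold Pool.Agent.Work.MP_852da8_nt.defect
  have e1 : ((n : ℂ) + 1) = ((n + 1 : ℕ) : ℂ) := by push_cast; rfl
  have e2 : (1 - 1 / 2 : ℂ) = (1 / 2 : ℂ) := by norm_num
  rw [e1, e2, cpow_half, cpow_half, cpow_neg_half]
  have e3 : ((1 / 2 - 1 : ℂ)) = ((-(1 / 2) : ℝ) : ℂ) := by push_cast; norm_num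
  rw [e3, ← Complex.ofReal_mul, ← Complex.ofReal_add, ← Complex.ofReal_sub, Complex.ofReal_re]
  set a := √((n + 1 : ℕ) : ℝ) with ha
  set b := √(n : ℝ) with hb
  have ha0 : 0 < a := Real.sqrt_pos.mpr (by positivity)
  have hb0 : 0 ≤ b := Real.sqrt_nonneg _
  have ha2 : a ^ 2 = n + 1 := by
    rw [ha, Real.sq_sqrt (by positivity)]; push_cast; rfl
  have hb2 : b ^ 2 = n := by rw [hb, Real.sq_sqrt (by positivity)]
  have h : 0 ≤ (a - b) ^ 2 := sq_nonneg _
  have e4 : -(1 / 2) * a⁻¹ + a - b = (-(1 / 2) + a ^ 2 - a * b) / a := by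
    field_simp
  rw [e4]
  apply div_nonneg _ ha0.le
  nlinarith

lemma zeta_ne : riemannZeta (1 / 2) ≠ 0 := by
  intro h0
  have hs0 : (0 : ℝ) < (1 / 2 : ℂ).re := by norm_num
  have h := Pool.Agent.Work.MP_852da8_nt.zeta_one_formula hs0 0
  have hs := Pool.Agent.Work.MP_852da8_nt.summable_defect hs0 0
  have h1 : riemannZeta (1 / 2) = (1 / 2 - 1)⁻¹ * riemannZeta₁ (1 / 2) :=
    riemannZeta_eq_inv_sub_mul (by norm_num)
  rw [h0] at h1
  have h2 : riemannZeta₁ (1 / 2) = 0 := by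
    rcases mul_eq_zero.mp h1.symm with h3 | h3
    · exfalso
      rw [inv_eq_zero] at h3
      norm_num at h3
    · exact h3
  rw [h2] at h
  have h3 := congrArg Complex.re h
  rw [Complex.add_re, Complex.re_tsum hs] at h3
  have h4 : 0 ≤ ∑' n : ℕ, (Pool.Agent.Work.MP_852da8_nt.defect (0 + 1 + n) (1 / 2)).re :=
    tsum_nonneg fun n => defect_re _
  have h5 : ((1 / 2 - 1 : ℂ) * ∑ n ∈ range (0 + 1), ((n : ℂ) + 1) ^ (-(1 / 2) : ℂ)
        + ((0 + 1 : ℕ) : ℂ) ^ (1 - 1 / 2 : ℂ)).re = 1 / 2 := by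
    norm_num
  rw [h5, Complex.zero_re] at h3
  linarith

lemma triv (q : ℕ) [NeZero q] : (1 : DirichletCharacter ℂ q).LFunction (1 / 2) ≠ 0 := by
  have h := DirichletCharacter.LFunctionTrivChar_eq_mul_riemannZeta (N := q) (s := (1 / 2 : ℂ))
    (by norm_num)
  unfold DirichletCharacter.LFunctionTrivChar at h
  rw [h]
  refine mul_ne_zero ?_ zeta_ne
  rw [Finset.prod_ne_zero_iff]
  intro p hp h1
  have hp' : p.Prime := Nat.prime_of_mem_primeFactors hp
  rw [cpow_neg_half, sub_eq_zero] at h1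
  have h2 : (1 : ℝ) = (√(p : ℝ))⁻¹ := by exact_mod_cast h1
  have h3 : (1 : ℝ) < √(p : ℝ) := by
    rw [Real.lt_sqrt (by norm_num)]
    have := hp'.one_lt
    have : (1 : ℝ) < p := by exact_mod_cast this
    linarith
  have h4 : (√(p : ℝ))⁻¹ < 1 := inv_lt_one_of_one_lt₀ h3
  linarith

/-! ## Positivity -/

/-- The weights. -/
noncomputable def w (n : ℕ) : ℝ := 2 * ((√(n : ℝ))⁻¹ - (√((n : ℝ) + 1))⁻¹)

lemma int_w {n : ℕ} (hn : 1 ≤ n) :
    ∫ t in (n : ℝ)..((n + 1 : ℕ) : ℝ), t ^ (-(3 / 2) : ℝ) = w n := by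
  have h1 : (0 : ℝ) < n := by exact_mod_cast hn
  rw [integral_rpow (Or.inr ⟨by norm_num, by
    rw [Set.uIcc_of_le (by push_cast; linarith)]
    intro h
    linarith [h.1]⟩)]
  have e : (-(3 / 2) + 1 : ℝ) = -(1 / 2) := by norm_num
  rw [e, Real.rpow_neg (by positivity), Real.rpow_neg h1.le, ← Real.sqrt_eq_rpow,
    ← Real.sqrt_eq_rpow]
  unfold w
  push_cast
  ring

/-- convexity of `n ↦ w n`. -/
lemma w_anti {n : ℕ} (hn : 1 ≤ n) : w (n + 1) ≤ w n := by
  have hn' : (0 : ℝ) < n := by exact_mod_cast hn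
  rw [← int_w hn, ← int_w (n := n + 1) (by omega)]
  have h1 : ∫ t in ((n + 1 : ℕ) : ℝ)..((n + 1 + 1 : ℕ) : ℝ), t ^ (-(3 / 2) : ℝ) =
      ∫ t in (n : ℝ)..((n + 1 : ℕ) : ℝ), (t + 1) ^ (-(3 / 2) : ℝ) := by
    rw [intervalIntegral.integral_comp_add_right (fun t : ℝ => t ^ (-(3 / 2) : ℝ)) 1]
    push_cast
    rfl
  rw [h1]
  apply intervalIntegral.integral_mono_on (by push_cast; linarith)
  · apply ContinuousOn.intervalIntegrable
    apply ContinuousOn.rpow_const (by fun_prop)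
    intro x hx
    left
    rw [Set.uIcc_of_le (by push_cast; linarith)] at hx
    linarith [hx.1]
  · apply ContinuousOn.intervalIntegrable
    apply ContinuousOn.rpow_const (by fun_prop)
    intro x hx
    left
    rw [Set.uIcc_of_le (by push_cast; linarith)] at hx
    linarith [hx.1]
  · intro x hx
    apply Real.rpow_le_rpow_of_nonpos (by linarith [hx.1]) (by linarith) (by norm_num)

lemma w_nonneg {n : ℕ} (hn : 1 ≤ n) : 0 ≤ w n := by
  have hn' : (0 : ℝ) < n := by exact_mod_cast hn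
  unfold w
  have h1 : √(n : ℝ) ≤ √((n : ℝ) + 1) := Real.sqrt_le_sqrt (by linarith)
  have h2 : (√((n : ℝ) + 1))⁻¹ ≤ (√(n : ℝ))⁻¹ := inv_anti₀ (Real.sqrt_pos.mpr hn') h1
  linarith

/-- Abel summation. -/
lemma abel (S T : ℕ → ℝ) (hT0 : T 0 = 0) (hT : ∀ n, T (n + 1) = T n + S (n + 1)) (N : ℕ) :
    ∑ n ∈ range N, S (n + 1) * w (n + 1) =
      T N * w (N + 1) + ∑ n ∈ range N, T (n + 1) * (w (n + 1) - w (n + 2)) := by
  induction N with
  | zero => simp [hT0]
  | succ N ih =>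
    rw [sum_range_succ, ih, sum_range_succ, hT N]
    ring

lemma num : 6 * w 11 < w 1 - w 2 := by
  unfold w
  have h2 : √(2 : ℝ) < 1.4143 := by
    rw [Real.sqrt_lt' (by norm_num)]; norm_num
  have h2' : (0 : ℝ) < √2 := Real.sqrt_pos.mpr (by norm_num)
  have h3 : √(3 : ℝ) < 1.7321 := by
    rw [Real.sqrt_lt' (by norm_num)]; norm_num
  have h3' : (0 : ℝ) < √3 := Real.sqrt_pos.mpr (by norm_num)
  have h11 : 3.316 < √(11 : ℝ) := by
    rw [Real.lt_sqrt (by norm_num)]; norm_num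
  have h12 : √(12 : ℝ) < 3.465 := by
    rw [Real.sqrt_lt' (by norm_num)]; norm_num
  have h12' : (0 : ℝ) < √12 := Real.sqrt_pos.mpr (by norm_num)
  have i2 : (√(2 : ℝ))⁻¹ = √2 / 2 := by
    rw [inv_eq_one_div, div_eq_div_iff h2'.ne' (by norm_num)]
    rw [Real.mul_self_sqrt (by norm_num)]
    norm_num
  have i3 : (1.7321 : ℝ)⁻¹ < (√(3 : ℝ))⁻¹ := inv_strictAnti₀ h3' h3
  have i11 : (√(11 : ℝ))⁻¹ < (3.316 : ℝ)⁻¹ := inv_strictAnti₀ (by norm_num) h11
  have i12 : (3.465 : ℝ)⁻¹ < (√(12 : ℝ))⁻¹ := inv_strictAnti₀ h12' h12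
  have e1 : ((1 : ℕ) : ℝ) + 1 = 2 := by norm_num
  have e2 : ((2 : ℕ) : ℝ) + 1 = 3 := by norm_num
  have e11 : ((11 : ℕ) : ℝ) + 1 = 12 := by norm_num
  rw [e1, e2, e11]
  have e0 : √((1 : ℕ) : ℝ) = 1 := by simp
  rw [e0]
  push_cast
  rw [i2]
  have j3 : (0.5773 : ℝ) < (1.7321 : ℝ)⁻¹ := by norm_num
  have j11 : (3.316 : ℝ)⁻¹ < (0.3016 : ℝ) := by norm_num
  have j12 : (0.2885 : ℝ) < (3.465 : ℝ)⁻¹ := by norm_num
  linarith

/-- The lower bound of the partial sums. -/
lemma lower (S T : ℕ → ℝ) (hT0 : T 0 = 0) (hT : ∀ n, T (n + 1) = T n + S (n + 1))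
    (hS1 : S 1 = 1) (h10 : ∀ n ≤ 10, 0 ≤ T n) (h6 : ∀ n, -6 ≤ T n) (N : ℕ) (hN : 12 ≤ N) :
    w 1 - w 2 - 6 * w 11 ≤ ∑ n ∈ range N, S (n + 1) * w (n + 1) := by
  rw [abel S T hT0 hT]
  have hT1 : T 1 = 1 := by rw [hT 0, hT0, hS1, zero_add]
  have key : ∀ N : ℕ, w 1 - w 2 - 6 * w 11 + 6 * w (10 + N + 1) ≤
      ∑ n ∈ range (10 + N), T (n + 1) * (w (n + 1) - w (n + 2)) := by
    intro N
    induction N with
    | zero =>
      have e : w 1 - w 2 - 6 * w 11 + 6 * w (10 + 0 + 1) = T 1 * (w 1 - w 2) := by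
        rw [hT1]; norm_num
      rw [e, add_zero, sum_range_succ']
      have : 0 ≤ ∑ k ∈ range 9, T (k + 1 + 1) * (w (k + 1 + 1) - w (k + 1 + 2)) := by
        apply sum_nonneg
        intro k hk
        rw [mem_range] at hk
        apply mul_nonneg (h10 _ (by omega))
        have := w_anti (n := k + 1 + 1) (by omega)
        linarith
      simpa using this
    | succ N ih =>
      rw [show 10 + (N + 1) = 10 + N + 1 by ring, sum_range_succ]
      have h1 := w_anti (n := 10 + N + 1) (by omega)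
      have h2 := h6 (10 + N + 1)
      have h3 : -6 * (w (10 + N + 1) - w (10 + N + 2)) ≤
          T (10 + N + 1) * (w (10 + N + 1) - w (10 + N + 2)) := by
        apply mul_le_mul_of_nonneg_right h2
        linarith
      have e : w (10 + N + 1 + 1) = w (10 + N + 2) := rfl
      rw [e]
      linarith
  obtain ⟨M, rfl⟩ : ∃ M, N = 10 + M := ⟨N - 10, by omega⟩
  have h1 := key M
  have h2 : -6 * w (10 + M + 1) ≤ T (10 + M) * w (10 + M + 1) :=
    mul_le_mul_of_nonneg_right (h6 _) (w_nonneg (by omega))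
  linarith

open Pool.Agent.Work.MP_b0c12c_nt_helper6 in
/-- Nonvanishing from positivity of the sums of the summatory function. -/
lemma L_ne {q : ℕ} [NeZero q] {χ : DirichletCharacter ℂ q} (hχ : χ ≠ 1) (S T : ℕ → ℝ)
    (hS : ∀ n, S n = (∑ k ∈ Icc 1 n, χ (k : ZMod q)).re) (hT0 : T 0 = 0)
    (hT : ∀ n, T (n + 1) = T n + S (n + 1)) (h10 : ∀ n ≤ 10, 0 ≤ T n) (h6 : ∀ n, -6 ≤ T n) :
    χ.LFunction (1 / 2) ≠ 0 := by
  have hS1 : S 1 = 1 := by rw [hS]; simp
  have hs : (0 : ℝ) < (1 / 2 : ℂ).re := by norm_num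
  have h1 := LFunction_eq_mellin hχ hs
  rw [mellin_Sf] at h1
  intro h0
  rw [h0] at h1
  have h2 : ∫ t in Set.Ioi (1 : ℝ), Sf χ t * (t : ℂ) ^ (-(1 / 2 + 1) : ℂ) = 0 := by
    rcases mul_eq_zero.mp h1.symm with h | h
    · norm_num at h
    · exact h
  set F : ℝ → ℂ := fun t => Sf χ t * (t : ℂ) ^ (-(1 / 2 + 1) : ℂ) with hF
  have hFm : AEStronglyMeasurable F (volume.restrict (Set.Ioi (1 : ℝ))) := by
    apply Measurable.aestronglyMeasurable
    exact measurable_Sf.mul (Complex.measurable_ofReal.pow_const _)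
  have hFi : IntegrableOn F (Set.Ioi 1) := by
    have hi : IntegrableOn (fun t : ℝ => (q : ℝ) * t ^ (-(3 / 2) : ℝ)) (Set.Ioi 1) :=
      (integrableOn_Ioi_rpow_of_lt (by norm_num) one_pos).const_mul _
    refine Integrable.mono' hi hFm ?_
    refine (ae_restrict_iff' measurableSet_Ioi).mpr (Eventually.of_forall fun t ht => ?_)
    have ht0 : (0 : ℝ) < t := lt_trans one_pos ht
    rw [hF]
    simp only
    rw [norm_mul, Complex.norm_cpow_eq_rpow_re_of_pos ht0]
    have e : (-(1 / 2 + 1) : ℂ).re = (-(3 / 2) : ℝ) := by norm_num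
    rw [e]
    exact mul_le_mul_of_nonneg_right (norm_Sf_le hχ t) (Real.rpow_nonneg ht0.le _)
  have hR : ∫ t in Set.Ioi (1 : ℝ), (F t).re = 0 := by
    have := integral_re (𝕜 := ℂ) hFi
    have h3 : ∫ t in Set.Ioi (1 : ℝ), (F t).re = (∫ t in Set.Ioi (1 : ℝ), F t).re := this
    rw [h3, h2, Complex.zero_re]
  have hRi : IntegrableOn (fun t => (F t).re) (Set.Ioi 1) := hFi.re
  have ht := intervalIntegral_tendsto_integral_Ioi (f := fun t => (F t).re) (1 : ℝ) hRi
    (b := fun N : ℕ => (((N + 1 : ℕ) : ℝ))) (l := atTop)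
    (tendsto_natCast_atTop_atTop.comp (tendsto_add_atTop_nat 1))
  rw [hR] at ht
  -- the integral over a unit interval
  have hunit : ∀ n : ℕ, 1 ≤ n → ∫ t in (n : ℝ)..((n + 1 : ℕ) : ℝ), (F t).re = S n * w n := by
    intro n hn
    rw [← int_w hn, ← intervalIntegral.integral_const_mul]
    apply intervalIntegral.integral_congr_ae
    have hne : ∀ᵐ t : ℝ, t ≠ ((n + 1 : ℕ) : ℝ) := by
      rw [ae_iff]
      simp
    filter_upwards [hne] with t ht1 ht2
    rw [Set.uIoc_of_le (by push_cast; linarith)] at ht2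
    have hlt : t < ((n + 1 : ℕ) : ℝ) := lt_of_le_of_ne ht2.2 ht1
    have hn0 : (0 : ℝ) < n := by exact_mod_cast hn
    have ht0 : 0 < t := hn0.trans ht2.1
    have hfl : ⌊t⌋₊ = n := by
      rw [Nat.floor_eq_iff ht0.le]
      exact ⟨ht2.1.le, by push_cast at hlt; exact hlt⟩
    rw [hF]
    simp only
    unfold Sf
    rw [hfl]
    have e : ((t : ℂ) ^ (-(1 / 2 + 1) : ℂ)) = ((t ^ (-(3 / 2) : ℝ) : ℝ) : ℂ) := by
      rw [Complex.ofReal_cpow ht0.le]
      congr 1
      push_cast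
      norm_num
    rw [e, mul_comm, Complex.re_ofReal_mul, hS, mul_comm]
  have hsum : ∀ N : ℕ, ∫ t in (1 : ℝ)..((N + 1 : ℕ) : ℝ), (F t).re =
      ∑ n ∈ range N, S (n + 1) * w (n + 1) := by
    intro N
    have hint : ∀ k < N, IntervalIntegrable (fun t => (F t).re) volume
        (((k + 1 : ℕ) : ℝ)) (((k + 1 + 1 : ℕ) : ℝ)) := by
      intro k _
      rw [intervalIntegrable_iff_integrableOn_Ioc_of_le (by push_cast; linarith)]
      refine hRi.mono_set ?_
      intro x hx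
      have : (1 : ℝ) ≤ ((k + 1 : ℕ) : ℝ) := by push_cast; linarith [Nat.cast_nonneg (α := ℝ) k]
      exact lt_of_le_of_lt this hx.1
    have h5 := intervalIntegral.sum_integral_adjacent_intervals (n := N)
      (a := fun k : ℕ => ((k + 1 : ℕ) : ℝ)) hint
    have e : ((0 + 1 : ℕ) : ℝ) = 1 := by norm_num
    rw [e] at h5
    rw [← h5]
    apply sum_congr rfl
    intro k _
    rw [hunit (k + 1) (by omega)]
  have hlow : w 1 - w 2 - 6 * w 11 ≤ 0 := by
    apply ge_of_tendsto ht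
    filter_upwards [eventually_ge_atTop 12] with N hN
    rw [hsum N]
    exact lower S T hT0 hT hS1 h10 h6 N hN
  linarith [num]

/-! ## The finite check -/

/-- The real part of `I ^ k`. -/
def rho4 (k : ℕ) : ℤ := if k % 4 = 0 then 1 else if k % 4 = 2 then -1 else 0

lemma rho4_eq (k : ℕ) : (Complex.I ^ k).re = (rho4 k : ℝ) := by
  have h1 : Complex.I ^ k = Complex.I ^ (k % 4) := by
    conv_lhs => rw [← Nat.div_add_mod k 4, pow_add, pow_mul, Complex.I_pow_four, one_pow, one_mul]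
  have h2 : k % 4 < 4 := Nat.mod_lt _ (by norm_num)
  rw [h1]
  unfold rho4
  interval_cases h : k % 4 <;> simp [pow_succ]

/-- exponents -/
def trip : List (ℕ × ℕ × ℕ) :=
  (List.range 4).flatMap fun a => (List.range 4).flatMap fun b =>
    (List.range 4).map fun c => (a, b, c)

/-- product of powers of the generators -/
def pw (g t : ℕ × ℕ × ℕ) : ℕ := g.1 ^ t.1 * g.2.1 ^ t.2.1 * g.2.2 ^ t.2.2

/-- the exponents of a residue -/
def expo (q : ℕ) (g : ℕ × ℕ × ℕ) (r : ℕ) : Option (ℕ × ℕ × ℕ) :=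
  trip.find? fun t => decide (pw g t % q = r % q)

/-- the real part of the value of the character with exponents `e` -/
def val (q : ℕ) (g e : ℕ × ℕ × ℕ) (r : ℕ) : ℤ :=
  if Nat.gcd r q = 1 then
    match expo q g r with
    | none => 0
    | some t => rho4 (e.1 * t.1 + e.2.1 * t.2.1 + e.2.2 * t.2.2)
  else 0

lemma val_add (q : ℕ) (g e : ℕ × ℕ × ℕ) (r : ℕ) : val q g e (r + q) = val q g e r := by
  unfold val expo
  simp only [Nat.gcd_add_self_left, Nat.add_mod_right]

/-- summatory function and its summatory function -/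
def ST (f : ℕ → ℤ) : ℕ → ℤ × ℤ
  | 0 => (0, 0)
  | n + 1 => ((ST f n).1 + f (n + 1), (ST f n).2 + ((ST f n).1 + f (n + 1)))

lemma ST_add {f : ℕ → ℤ} {q : ℕ} (hf : ∀ r, f (r + q) = f r) (h0 : (ST f q).1 = 0) (n : ℕ) :
    (ST f (n + q)).1 = (ST f n).1 ∧ (ST f (n + q)).2 = (ST f n).2 + (ST f q).2 := by
  induction n with
  | zero => simp [ST, h0]
  | succ n ih =>
    rw [show n + 1 + q = (n + q) + 1 by ring]
    simp only [ST]
    rw [ih.1, ih.2, show n + q + 1 = n + 1 + q by ring, hf]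
    refine ⟨rfl, by ring⟩

/-- the condition checked for every character -/
def chk (q : ℕ) (f : ℕ → ℤ) : Bool :=
  decide ((ST f q).1 = 0) && decide (0 ≤ (ST f q).2) &&
    (List.range 11).all (fun n => decide (0 ≤ (ST f n).2)) &&
    (List.range q).all (fun n => decide (-6 ≤ (ST f n).2))

lemma chk_lower {f : ℕ → ℤ} {q : ℕ} (hq : 0 < q) (hf : ∀ r, f (r + q) = f r)
    (h : chk q f = true) : (∀ n ≤ 10, 0 ≤ (ST f n).2) ∧ ∀ n, -6 ≤ (ST f n).2 := by
  unfold chk at h
  simp only [Bool.and_eq_true, decide_eq_true_eq, List.all_eq_true, List.mem_range] at h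
  obtain ⟨⟨⟨h1, h2⟩, h3⟩, h4⟩ := h
  refine ⟨fun n hn => h3 n (by omega), fun n => ?_⟩
  induction n using Nat.strong_induction_on with
  | _ n ih =>
    rcases Nat.lt_or_ge n q with h | h
    · exact h4 n h
    · obtain ⟨m, rfl⟩ : ∃ m, n = m + q := ⟨n - q, by omega⟩
      rw [(ST_add hf h1 m).2]
      have := ih m (by omega)
      linarith

lemma unit_pow {x : ℂ} {o : ℕ} (ho : o = 1 ∨ o = 2 ∨ o = 4) (hx : x ^ o = 1) :
    ∃ e < 4, o * e % 4 = 0 ∧ x = Complex.I ^ e := by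
  rcases ho with rfl | rfl | rfl
  · exact ⟨0, by norm_num, by norm_num, by simpa using hx⟩
  · have : (x - 1) * (x + 1) = 0 := by linear_combination hx
    rcases mul_eq_zero.mp this with h | h
    · exact ⟨0, by norm_num, by norm_num, by rw [pow_zero]; linear_combination h⟩
    · exact ⟨2, by norm_num, by norm_num, by rw [Complex.I_sq]; linear_combination h⟩
  · have : (x - 1) * (x + 1) * ((x - Complex.I) * (x + Complex.I)) = 0 := by
      linear_combination hx + (1 - x ^ 2) * Complex.I_sq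
    rcases mul_eq_zero.mp this with h | h
    · rcases mul_eq_zero.mp h with h | h
      · exact ⟨0, by norm_num, by norm_num, by rw [pow_zero]; linear_combination h⟩
      · exact ⟨2, by norm_num, by norm_num, by rw [Complex.I_sq]; linear_combination h⟩
    · rcases mul_eq_zero.mp h with h | h
      · exact ⟨1, by norm_num, by norm_num, by rw [pow_one]; linear_combination h⟩
      · exact ⟨3, by norm_num, by norm_num, by
          rw [Complex.I_pow_three]; linear_combination h⟩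

/-- the test for one modulus -/
def test (q : ℕ) (g o : ℕ × ℕ × ℕ) : Bool :=
  decide (g.1 ^ o.1 % q = 1 % q) && decide (g.2.1 ^ o.2.1 % q = 1 % q) &&
  decide (g.2.2 ^ o.2.2 % q = 1 % q) &&
  (List.range q).all (fun r => !decide (Nat.gcd r q = 1) || (expo q g r).isSome) &&
  (List.range 4).all fun a => (List.range 4).all fun b => (List.range 4).all fun c =>
    !decide (o.1 * a % 4 = 0) || !decide (o.2.1 * b % 4 = 0) || !decide (o.2.2 * c % 4 = 0) ||
      decide (a = 0 ∧ b = 0 ∧ c = 0) || chk q (val q g (a, b, c))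

lemma char_pow {q : ℕ} (χ : DirichletCharacter ℂ q) {g o : ℕ} (h : g ^ o % q = 1 % q) :
    (χ (g : ZMod q)) ^ o = 1 := by
  rw [← map_pow]
  have h1 : ((g ^ o : ℕ) : ZMod q) = ((1 : ℕ) : ZMod q) := (ZMod.natCast_eq_natCast_iff' _ _ _).mpr h
  push_cast at h1
  rw [h1, map_one]

theorem main {q : ℕ} [NeZero q] (g o : ℕ × ℕ × ℕ) (h1 : o.1 = 1 ∨ o.1 = 2 ∨ o.1 = 4)
    (h2 : o.2.1 = 1 ∨ o.2.1 = 2 ∨ o.2.1 = 4) (h3 : o.2.2 = 1 ∨ o.2.2 = 2 ∨ o.2.2 = 4)
    (ht : test q g o = true) (χ : DirichletCharacter ℂ q) : χ.LFunction (1 / 2) ≠ 0 := by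
  have hq : 0 < q := Nat.pos_of_ne_zero (NeZero.ne q)
  by_cases hχ : χ = 1
  · rw [hχ]; exact triv q
  unfold test at ht
  simp only [Bool.and_eq_true, decide_eq_true_eq, List.all_eq_true, List.mem_range,
    Bool.or_eq_true, Bool.not_eq_true', decide_eq_false_iff_not] at ht
  obtain ⟨⟨⟨⟨t1, t2⟩, t3⟩, t4⟩, t5⟩ := ht
  obtain ⟨a, ha, ha', xa⟩ := unit_pow h1 (char_pow χ t1)
  obtain ⟨b, hb, hb', xb⟩ := unit_pow h2 (char_pow χ t2)
  obtain ⟨c, hc, hc', xc⟩ := unit_pow h3 (char_pow χ t3)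
  -- the values
  have hval : ∀ r t, expo q g r = some t →
      χ (r : ZMod q) = Complex.I ^ (a * t.1 + b * t.2.1 + c * t.2.2) := by
    intro r t hr
    have h5 := List.find?_some hr
    simp only [decide_eq_true_eq] at h5
    have h6 : ((pw g t : ℕ) : ZMod q) = (r : ZMod q) := (ZMod.natCast_eq_natCast_iff' _ _ _).mpr h5
    rw [← h6]
    unfold pw
    push_cast
    rw [map_mul, map_mul, map_pow, map_pow, map_pow, xa, xb, xc, ← pow_mul, ← pow_mul, ← pow_mul,
      ← pow_add, ← pow_add]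
  have hsome : ∀ r, Nat.gcd r q = 1 → ∃ t, expo q g r = some t := by
    intro r hr
    have h5 := t4 (r % q) (Nat.mod_lt _ hq)
    have h6 : Nat.gcd (r % q) q = 1 := by
      rw [← Nat.gcd_rec, Nat.gcd_comm]; exact hr
    rcases h5 with h5 | h5
    · exact absurd h6 h5
    · have h7 : expo q g (r % q) = expo q g r := by
        unfold expo
        simp only [Nat.mod_mod]
      rw [h7] at h5
      exact Option.isSome_iff_exists.mp h5
  have hne : ¬ (a = 0 ∧ b = 0 ∧ c = 0) := by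
    rintro ⟨rfl, rfl, rfl⟩
    apply hχ
    apply MulChar.ext
    intro u
    rw [MulChar.one_apply_coe]
    have hu : Nat.gcd (u : ZMod q).val q = 1 := ZMod.val_coe_unit_coprime u
    obtain ⟨t, ht⟩ := hsome _ hu
    have := hval _ _ ht
    rw [ZMod.natCast_zmod_val] at this
    rw [this]
    simp
  have hchk : chk q (val q g (a, b, c)) = true := by
    rcases t5 a ha b hb c hc with (((h | h) | h) | h) | h
    · exact absurd ha' h
    · exact absurd hb' h
    · exact absurd hc' h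
    · exact absurd h hne
    · exact h
  have hre : ∀ r : ℕ, (χ (r : ZMod q)).re = (val q g (a, b, c) r : ℝ) := by
    intro r
    unfold val
    by_cases hr : Nat.gcd r q = 1
    · rw [if_pos hr]
      obtain ⟨t, ht⟩ := hsome r hr
      rw [ht, hval r t ht]
      exact rho4_eq _
    · rw [if_neg hr]
      have : ¬ IsUnit (r : ZMod q) := by
        intro h
        exact hr ((ZMod.isUnit_iff_coprime r q).mp h)
      rw [MulChar.map_nonunit _ this]
      simp
  obtain ⟨k1, k2⟩ := chk_lower hq (val_add q g (a, b, c)) hchk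
  refine L_ne hχ (fun n => ((ST (val q g (a, b, c)) n).1 : ℝ))
    (fun n => ((ST (val q g (a, b, c)) n).2 : ℝ)) ?_ ?_ ?_ ?_ ?_
  · intro n
    induction n with
    | zero => simp [ST]
    | succ n ih =>
      rw [Finset.sum_Icc_succ_top (by omega), Complex.add_re, ← ih, hre (n + 1)]
      simp only [ST]
      push_cast
      ring
  · simp [ST]
  · intro n
    simp only [ST]
    push_cast
    ring
  · intro n hn
    exact_mod_cast k1 n hn
  · intro n
    exact_mod_cast k2 n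

end CEN

theorem stmt_CEN : Stmt_CEN := by
  intro q hq inst χ
  simp only [Finset.mem_insert, Finset.mem_singleton] at hq
  rcases hq with rfl | rfl | rfl | rfl | rfl | rfl | rfl | rfl | rfl | rfl | rfl
  · exact CEN.main (2, 1, 1) (2, 1, 1) (by norm_num) (by norm_num) (by norm_num)
      (by decide +kernel) χ
  · exact CEN.main (3, 1, 1) (2, 1, 1) (by norm_num) (by norm_num) (by norm_num)
      (by decide +kernel) χ
  · exact CEN.main (2, 1, 1) (4, 1, 1) (by norm_num) (by norm_num) (by norm_num)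
      (by decide +kernel) χ
  · exact CEN.main (5, 1, 1) (2, 1, 1) (by norm_num) (by norm_num) (by norm_num)
      (by decide +kernel) χ
  · exact CEN.main (3, 5, 1) (2, 2, 1) (by norm_num) (by norm_num) (by norm_num)
      (by decide +kernel) χ
  · exact CEN.main (3, 1, 1) (4, 1, 1) (by norm_num) (by norm_num) (by norm_num)
      (by decide +kernel) χ
  · exact CEN.main (5, 7, 1) (2, 2, 1) (by norm_num) (by norm_num) (by norm_num)
      (by decide +kernel) χ
  · exact CEN.main (2, 14, 1) (4, 2, 1) (by norm_num) (by norm_num) (by norm_num)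
      (by decide +kernel) χ
  · exact CEN.main (3, 19, 1) (4, 2, 1) (by norm_num) (by norm_num) (by norm_num)
      (by decide +kernel) χ
  · exact CEN.main (5, 7, 13) (2, 2, 2) (by norm_num) (by norm_num) (by norm_num)
      (by decide +kernel) χ
  · exact CEN.main (7, 29, 1) (4, 2, 1) (by norm_num) (by norm_num) (by norm_num)
      (by decide +kernel) χ

end Pool.Agent.AQ
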