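import Pool.Agent.Work.MP_99218a_nt.Interface

/-!
# Blocks CHR and CHP: the character sum `ca`
-/

set_option autoImplicit false

namespace Pool.Agent.AQ

open Filter Topology MeasureTheory ArithmeticFunction DirichletCharacter
open scoped ComplexConjugate Classical

namespace CHRaux

theorem inv_changeLevel {d q : ℕ} (h : d ∣ q) (χ : DirichletCharacter ℂ d) {a : ℤ}
    (ha : IsCoprime a (q : ℤ)) : (changeLevel h χ)⁻¹ (a : ZMod q) = χ⁻¹ (a : ZMod d) := by
  rw [← map_inv (changeLevel h) χ, changeLevel_eq_cast_of_dvd' _ h ha]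

theorem inv_apply_unit {q : ℕ} (χ : DirichletCharacter ℂ q) {b : ZMod q} (hb : IsUnit b) :
    χ⁻¹ b = χ b⁻¹ := by
  rw [MulChar.inv_apply_eq_inv']
  have h : χ b⁻¹ * χ b = 1 := by
    rw [← map_mul, ZMod.inv_mul_of_unit _ hb, map_one]
  exact (eq_inv_of_mul_eq_one_left h).symm

theorem key {q q1 q2 : ℕ} [NeZero q] [NeZero q1] (hq : q = q1 * q2) (n : ℕ) (hn : q1.Coprime n)
    (h2 : ∀ p : ℕ, p.Prime → p ∣ q2 → p ∣ n) {a : ℤ} (ha : IsUnit (a : ZMod q)) :
    ca q a n = if (a : ZMod q1) = (n : ZMod q1) then (q1.totient : ℂ) else 0 := by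
  have hd : q1 ∣ q := ⟨q2, hq⟩
  have hac : IsCoprime a (q : ℤ) := ((ZMod.coe_int_isUnit_iff_isCoprime a q).1 ha).symm
  have hac1 : IsCoprime a (q1 : ℤ) := hac.of_isCoprime_of_dvd_right (by exact_mod_cast hd)
  have ha1 : IsUnit (a : ZMod q1) := (ZMod.coe_int_isUnit_iff_isCoprime a q1).2 hac1.symm
  have hnc : IsCoprime (n : ℤ) (q1 : ℤ) := Nat.isCoprime_iff_coprime.2 hn.symm
  have h1 : ∑ χ : DirichletCharacter ℂ q1, χ⁻¹ (a : ZMod q1) * χ (n : ZMod q1) =
      ∑ χ : DirichletCharacter ℂ q,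
        χ⁻¹ (a : ZMod q) * χ.primitiveCharacter (n : ZMod χ.conductor) := by
    refine Finset.sum_of_injOn (fun χ => changeLevel hd χ) ?_ ?_ ?_ ?_
    · exact (changeLevel_injective hd).injOn
    · intro χ _
      simp
    · intro χ _ hχ
      have h3 : χ.primitiveCharacter (n : ZMod χ.conductor) = 0 := by
        by_contra h
        apply hχ
        have h4 : IsCoprime (n : ℤ) (χ.conductor : ℤ) := by
          rw [← DirichletCharacter.apply_ne_zero_iff (χ := χ.primitiveCharacter)]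
          rwa [Int.cast_natCast]
        have h5 : Nat.Coprime n χ.conductor := Nat.isCoprime_iff_coprime.1 h4
        have h6 : Nat.Coprime χ.conductor q2 := by
          rw [Nat.coprime_iff_gcd_eq_one]
          by_contra hne
          obtain ⟨p, hp, hpd⟩ := Nat.exists_prime_and_dvd hne
          have h7 : p ∣ χ.conductor := hpd.trans (Nat.gcd_dvd_left _ _)
          have h8 : p ∣ n := h2 p hp (hpd.trans (Nat.gcd_dvd_right _ _))
          exact Nat.not_coprime_of_dvd_of_dvd hp.one_lt h8 h7 h5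
        have h9 : χ.conductor ∣ q1 := by
          have : χ.conductor ∣ q1 * q2 := hq ▸ χ.conductor_dvd_level
          exact h6.dvd_of_dvd_mul_right this
        have h10 : q1 ∈ χ.conductorSet := (mem_conductorSet_iff_conductor_dvd χ hd).2 h9
        obtain ⟨_, χ0, h11⟩ := h10
        exact ⟨χ0, by simp, h11.symm⟩
      rw [h3, mul_zero]
    · intro χ _
      have h3 : (changeLevel hd χ).primitiveCharacter
          (n : ZMod (changeLevel hd χ).conductor) = χ (n : ZMod q1) := by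
        have h4 := primitiveCharacter_changeLevel_apply hd χ (n : ℤ)
        rw [Int.cast_natCast, Int.cast_natCast] at h4
        rw [h4]
        have h5 := primitiveCharacter_apply_of_isCoprime χ hnc
        rw [Int.cast_natCast, Int.cast_natCast] at h5
        exact h5
      show χ⁻¹ (a : ZMod q1) * χ (n : ZMod q1) = (changeLevel hd χ)⁻¹ (a : ZMod q) *
        (changeLevel hd χ).primitiveCharacter (n : ZMod (changeLevel hd χ).conductor)
      rw [h3, inv_changeLevel hd χ hac]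
  unfold ca
  rw [← h1, ← sum_char_inv_mul_char_eq ℂ ha1]
  refine Finset.sum_congr rfl fun χ _ => ?_
  rw [inv_apply_unit χ ha1]

theorem decomp (n : ℕ) : ∀ q : ℕ, 0 < q → ∃ q1 q2 : ℕ, q = q1 * q2 ∧ q1.Coprime n ∧
    ∀ p : ℕ, p.Prime → p ∣ q2 → p ∣ n := by
  intro q
  induction q using Nat.strong_induction_on with
  | _ q ih =>
    intro hq
    by_cases h : q.Coprime n
    · exact ⟨q, 1, (mul_one q).symm, h, fun p hp hp1 => absurd (Nat.dvd_one.1 hp1) hp.ne_one⟩
    · obtain ⟨p, hp, hpd⟩ := Nat.exists_prime_and_dvd (mt Nat.coprime_iff_gcd_eq_one.2 h)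
      have h1 : p ∣ q := hpd.trans (Nat.gcd_dvd_left _ _)
      have h2 : p ∣ n := hpd.trans (Nat.gcd_dvd_right _ _)
      obtain ⟨c, rfl⟩ := h1
      have hc : 0 < c := Nat.pos_of_mul_pos_left hq
      obtain ⟨q1, q2, h3, h4, h5⟩ := ih c (by
        have := hp.two_le
        nlinarith) hc
      refine ⟨q1, p * q2, by rw [h3]; ring, h4, fun r hr hrd => ?_⟩
      rcases (Nat.Prime.dvd_mul hr).1 hrd with h6 | h6
      · rw [(Nat.prime_dvd_prime_iff_eq hr hp).1 h6]
        exact h2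
      · exact h5 r hr h6

end CHRaux

/-- Block CHR. -/
theorem stmt_CHR : Stmt_CHR := by
  intro q _ a ha n hn
  obtain ⟨q1, q2, hq, h1, h2⟩ := CHRaux.decomp n q (NeZero.pos q)
  have hq1 : q1 ≠ 0 := by
    rintro rfl
    exact NeZero.ne q (by rw [hq, zero_mul])
  haveI : NeZero q1 := ⟨hq1⟩
  have hk := CHRaux.key hq n h1 h2 ha
  have hle : q1.totient ≤ q.totient :=
    Nat.le_of_dvd (Nat.totient_pos.2 (NeZero.pos q)) (Nat.totient_dvd_of_dvd ⟨q2, hq⟩)
  refine ⟨?_, ?_, ?_, fun hc => ?_⟩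
  · rw [hk]
    split_ifs <;> simp
  · rw [hk]
    split_ifs <;> simp
  · rw [hk]
    split_ifs
    · simpa using hle
    · simp
  · have h3 := CHRaux.key (q := q) (q1 := q) (q2 := 1) (mul_one q).symm n hc.symm
      (fun p hp hp1 => absurd (Nat.dvd_one.1 hp1) hp.ne_one) ha
    rw [h3]
    by_cases h4 : (n : ZMod q) = (a : ZMod q)
    · rw [if_pos h4, if_pos h4.symm]
    · rw [if_neg h4, if_neg (fun h => h4 h.symm)]

/-- Block CHP. -/
theorem stmt_CHP : Stmt_CHP := by
  intro q _ p k hp hpq hk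
  have hq0 : q ≠ 0 := NeZero.ne q
  haveI : NeZero (ordCompl[p] q) := ⟨(Nat.ordCompl_pos p hq0).ne'⟩
  have h1 : q = ordCompl[p] q * p ^ q.factorization p := by
    rw [mul_comm]
    exact (Nat.ordProj_mul_ordCompl_eq_self q p).symm
  have h2 : (ordCompl[p] q).Coprime (p ^ k) :=
    (Nat.coprime_ordCompl hp hq0).symm.pow_right k
  have h3 := CHRaux.key (a := 1) h1 (p ^ k) h2 (fun r hr hrd => by
    have h4 := (Nat.prime_dvd_prime_iff_eq hr hp).1 (hr.dvd_of_dvd_pow hrd)
    rw [h4]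
    exact dvd_pow_self p hk.ne') (by simp)
  rw [h3]
  by_cases h4 : ((p ^ k : ℕ) : ZMod (ordCompl[p] q)) = 1
  · rw [if_pos h4, if_pos (by rw [h4]; simp)]
  · rw [if_neg h4, if_neg (fun h => h4 (by rw [← h]; simp))]

end Pool.Agent.AQ
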