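import Pool.Agent.Work.MP_99218a_nt.Interface

/-!
# Block CHS: parity sums
-/

set_option autoImplicit false

namespace Pool.Agent.AQ

open Filter Topology MeasureTheory ArithmeticFunction DirichletCharacter
open scoped ComplexConjugate Classical

namespace CHSaux

theorem sum_inv {q : ℕ} [NeZero q] (b : ZMod q) :
    ∑ χ : DirichletCharacter ℂ q, χ⁻¹ b = if b = 1 then (q.totient : ℂ) else 0 := by
  rw [← DirichletCharacter.sum_characters_eq ℂ b]
  exact Equiv.sum_comp (Equiv.inv (DirichletCharacter ℂ q)) (fun χ : DirichletCharacter ℂ q => χ b)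

theorem neg_one {q : ℕ} (χ : DirichletCharacter ℂ q) (b : ZMod q) :
    χ⁻¹ (-b) = (if χ.Even then 1 else -1) * χ⁻¹ b := by
  have h1 : χ⁻¹ (-b) = χ⁻¹ (-1) * χ⁻¹ b := by
    rw [← map_mul, neg_one_mul]
  rw [h1, MulChar.inv_apply_eq_inv' χ (-1)]
  by_cases h : χ.Even
  · rw [if_pos h, show χ (-1) = 1 from h, inv_one]
  · rw [if_neg h, show χ (-1) = -1 from (χ.even_or_odd).resolve_left h, inv_neg, inv_one]

end CHSaux

/-- Block CHS. -/
theorem stmt_CHS : Stmt_CHS := by
  intro q _ a ha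
  have h1 := CHSaux.sum_inv (a : ZMod q)
  have h2 := CHSaux.sum_inv (-(a : ZMod q))
  have h3 : (if -(a : ZMod q) = 1 then (q.totient : ℂ) else 0) =
      q.totient * (if (a : ZMod q) = -1 then 1 else 0) := by
    by_cases h : (a : ZMod q) = -1
    · rw [if_pos h, if_pos (by rw [h, neg_neg]), mul_one]
    · rw [if_neg h, if_neg (fun h' => h (by rw [← h', neg_neg])), mul_zero]
  have h4 : (if (a : ZMod q) = 1 then (q.totient : ℂ) else 0) =
      q.totient * (if (a : ZMod q) = 1 then 1 else 0) := by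
    split_ifs <;> simp
  rw [h3] at h2
  rw [h4] at h1
  constructor
  · have h5 : ∀ χ : DirichletCharacter ℂ q, (if χ.Even then χ⁻¹ (a : ZMod q) else 0) =
        (χ⁻¹ (a : ZMod q) + χ⁻¹ (-(a : ZMod q))) / 2 := by
      intro χ
      rw [CHSaux.neg_one]
      split_ifs <;> ring
    rw [Finset.sum_congr rfl fun χ _ => h5 χ, ← Finset.sum_div, Finset.sum_add_distrib, h1, h2]
    ring
  · have h5 : ∀ χ : DirichletCharacter ℂ q, (if χ.Even then 0 else χ⁻¹ (a : ZMod q)) =
        (χ⁻¹ (a : ZMod q) - χ⁻¹ (-(a : ZMod q))) / 2 := by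
      intro χ
      rw [CHSaux.neg_one]
      split_ifs <;> ring
    rw [Finset.sum_congr rfl fun χ _ => h5 χ, ← Finset.sum_div, Finset.sum_sub_distrib, h1, h2]
    ring

end Pool.Agent.AQ
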