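import Pool.Agent.Work.MP_99218a_nt.Interface

set_option autoImplicit false

namespace Pool.Agent.AQ.CNDp

open ArithmeticFunction DirichletCharacter
open scoped Classical

/-- Sum over the characters which factor through `d`. -/
lemma sum_factors {q d : ℕ} [NeZero q] (hd : d ∣ q) (g : DirichletCharacter ℂ q → ℂ) :
    ∑ χ : DirichletCharacter ℂ q, (if χ.conductor ∣ d then g χ else 0)
      = ∑ ψ : DirichletCharacter ℂ d, g (changeLevel hd ψ) := by
  haveI : NeZero d := ⟨fun h => NeZero.ne q (Nat.eq_zero_of_zero_dvd (h ▸ hd))⟩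
  rw [← Finset.sum_filter]
  symm
  refine Finset.sum_bij (fun ψ _ => changeLevel hd ψ) ?_ ?_ ?_ ?_
  · intro ψ _
    refine Finset.mem_filter.2 ⟨Finset.mem_univ _, ?_⟩
    rw [conductor_changeLevel]
    exact conductor_dvd_level ψ
  · intro a _ b _ h
    exact changeLevel_injective hd h
  · intro χ hχ
    have h1 : χ.conductor ∣ d := (Finset.mem_filter.1 hχ).2
    have h2 : d ∈ χ.conductorSet := (mem_conductorSet_iff_conductor_dvd χ hd).2 h1
    obtain ⟨h3, ψ, h4⟩ := h2
    exact ⟨ψ, Finset.mem_univ _, h4.symm⟩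
  · intro ψ _
    rfl

/-- The number of characters with conductor `d`. -/
lemma card_conductor {q d : ℕ} [NeZero q] (hd : d ∣ q) :
    (Finset.univ.filter (fun χ : DirichletCharacter ℂ q => χ.conductor = d)).card
      = Nat.card {χ : DirichletCharacter ℂ d // χ.IsPrimitive} := by
  haveI : NeZero d := ⟨fun h => NeZero.ne q (Nat.eq_zero_of_zero_dvd (h ▸ hd))⟩
  rw [Nat.card_eq_fintype_card, Fintype.card_subtype]
  symm
  refine Finset.card_bij (fun ψ _ => changeLevel hd ψ) ?_ ?_ ?_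
  · intro ψ hψ
    refine Finset.mem_filter.2 ⟨Finset.mem_univ _, ?_⟩
    rw [conductor_changeLevel]
    exact (Finset.mem_filter.1 hψ).2
  · intro a _ b _ h
    exact changeLevel_injective hd h
  · intro χ hχ
    have h1 : χ.conductor = d := (Finset.mem_filter.1 hχ).2
    have h2 : d ∈ χ.conductorSet :=
      (mem_conductorSet_iff_conductor_dvd χ hd).2 (by rw [h1])
    obtain ⟨h3, ψ, h4⟩ := h2
    refine ⟨ψ, Finset.mem_filter.2 ⟨Finset.mem_univ _, ?_⟩, h4.symm⟩
    have h5 : (changeLevel h3 ψ).conductor = ψ.conductor := conductor_changeLevel ψ h3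
    rw [← h4, h1] at h5
    exact h5.symm

lemma part1 (q : ℕ) [NeZero q] (f : ℕ → ℝ) : ∑ χ : DirichletCharacter ℂ q, f χ.conductor
    = ∑ d ∈ q.divisors, f d * (Nat.card {χ : DirichletCharacter ℂ d // χ.IsPrimitive} : ℝ) := by
  have h1 : ∀ χ ∈ (Finset.univ : Finset (DirichletCharacter ℂ q)), χ.conductor ∈ q.divisors :=
    fun χ _ => Nat.mem_divisors.2 ⟨conductor_dvd_level χ, NeZero.ne q⟩
  rw [← Finset.sum_fiberwise_of_maps_to h1]
  refine Finset.sum_congr rfl fun d hd => ?_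
  rw [← card_conductor (Nat.dvd_of_mem_divisors hd)]
  rw [Finset.sum_congr rfl (fun χ hχ => by
    show f χ.conductor = f d
    rw [(Finset.mem_filter.1 hχ).2])]
  rw [Finset.sum_const, nsmul_eq_mul, mul_comm]

lemma part2 (q : ℕ) (hq : 0 < q) :
    ∑ d ∈ q.divisors, Nat.card {χ : DirichletCharacter ℂ d // χ.IsPrimitive} = q.totient := by
  haveI : NeZero q := ⟨hq.ne'⟩
  have h := part1 q (fun _ => 1)
  simp only [one_mul, Finset.sum_const, Finset.card_univ, nsmul_eq_mul, mul_one] at h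
  have h2 : Nat.card (DirichletCharacter ℂ q) = q.totient :=
    card_eq_totient_of_hasEnoughRootsOfUnity ℂ q
  rw [← Nat.card_eq_fintype_card, h2] at h
  exact_mod_cast h.symm

/-- Sum of the inverse characters at `a`. -/
lemma sum_inv (q : ℕ) [NeZero q] (a : ℤ) (ha : IsUnit (a : ZMod q)) :
    ∑ χ : DirichletCharacter ℂ q, χ⁻¹ (a : ZMod q)
      = if (a : ZMod q) = 1 then (q.totient : ℂ) else 0 := by
  rw [← sum_characters_eq ℂ (a : ZMod q)]
  exact Fintype.sum_equiv (Equiv.inv _) _ _ fun χ => rfl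

lemma sum_not_dvd (q p j : ℕ) [NeZero q] (hp : p.Prime) (hj : 0 < j) (hpj : p ^ j ∣ q) (a : ℤ)
    (ha : IsUnit (a : ZMod q)) :
    0 ≤ (∑ χ : DirichletCharacter ℂ q,
      (if p ^ j ∣ χ.conductor then 0 else χ⁻¹ (a : ZMod q))).re := by
  set d : ℕ := p ^ (j - 1) * (ordCompl[p] q) with hd
  have hq0 : q ≠ 0 := NeZero.ne q
  have hjv : j ≤ q.factorization p := (hp.pow_dvd_iff_le_factorization hq0).1 hpj
  have hdq : d ∣ q := by
    have h1 : p ^ (j - 1) ∣ p ^ (q.factorization p) := pow_dvd_pow p (by omega)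
    calc d ∣ p ^ (q.factorization p) * (ordCompl[p] q) := Nat.mul_dvd_mul_right h1 _
      _ = q := Nat.ordProj_mul_ordCompl_eq_self q p
  haveI : NeZero d := ⟨fun h => hq0 (Nat.eq_zero_of_zero_dvd (h ▸ hdq))⟩
  have key : ∀ χ : DirichletCharacter ℂ q, ¬ p ^ j ∣ χ.conductor ↔ χ.conductor ∣ d := by
    intro χ
    have hc0 : χ.conductor ≠ 0 := conductor_ne_zero χ
    have hcq : χ.conductor ∣ q := conductor_dvd_level χ
    constructor
    · intro h
      have h1 : ¬ j ≤ χ.conductor.factorization p := fun h' =>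
        h ((hp.pow_dvd_iff_le_factorization hc0).2 h')
      have h2 : χ.conductor = p ^ (χ.conductor.factorization p) * (ordCompl[p] χ.conductor) :=
        (Nat.ordProj_mul_ordCompl_eq_self _ p).symm
      rw [h2]
      exact Nat.mul_dvd_mul (pow_dvd_pow p (by omega))
        (Nat.ordCompl_dvd_ordCompl_of_dvd hcq p)
    · intro h h'
      have h3 : p ^ j ∣ p ^ (j - 1) * (ordCompl[p] q) := h'.trans h
      have h4 : (p ^ j).Coprime (ordCompl[p] q) :=
        Nat.Coprime.pow_left _ (Nat.coprime_ordCompl hp hq0)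
      have h5 : p ^ j ∣ p ^ (j - 1) := h4.dvd_of_dvd_mul_right h3
      have h6 : j ≤ j - 1 := (Nat.pow_dvd_pow_iff_le_right hp.one_lt).1 h5
      omega
  have h7 : (∑ χ : DirichletCharacter ℂ q,
      (if p ^ j ∣ χ.conductor then 0 else χ⁻¹ (a : ZMod q)))
      = ∑ χ : DirichletCharacter ℂ q, (if χ.conductor ∣ d then χ⁻¹ (a : ZMod q) else 0) := by
    refine Finset.sum_congr rfl fun χ _ => ?_
    by_cases h : p ^ j ∣ χ.conductor
    · rw [if_pos h, if_neg (fun h' => (key χ).2 h' h)]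
    · rw [if_neg h, if_pos ((key χ).1 h)]
  have hcop : IsCoprime a (q : ℤ) := by
    have := (ZMod.coe_int_isUnit_iff_isCoprime a q).1 ha
    exact this.symm
  have had : IsUnit (a : ZMod d) := by
    have h8 : IsCoprime a (d : ℤ) := by
      obtain ⟨k, hk⟩ := hdq
      have : IsCoprime a ((d : ℤ) * k) := by rw [← Nat.cast_mul, ← hk]; exact hcop
      exact this.of_mul_right_left
    exact (ZMod.coe_int_isUnit_iff_isCoprime a d).2 h8.symm
  rw [h7, sum_factors hdq]
  have h9 : ∀ ψ : DirichletCharacter ℂ d, (changeLevel hdq ψ)⁻¹ (a : ZMod q)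
      = ψ⁻¹ (a : ZMod d) := by
    intro ψ
    rw [← map_inv, changeLevel_eq_cast_of_dvd' _ hdq hcop]
  simp_rw [h9]
  rw [sum_inv d a had]
  split_ifs
  · simp
  · simp

lemma part3 (q : ℕ) [NeZero q] (a : ℤ) (ha : IsUnit (a : ZMod q)) (ha1 : (a : ZMod q) ≠ 1) :
    (∑ χ : DirichletCharacter ℂ q, χ⁻¹ (a : ZMod q) * (Real.log χ.conductor : ℂ)).re ≤ 0 := by
  have h0 : ∀ χ : DirichletCharacter ℂ q, (Real.log χ.conductor : ℂ)
      = ∑ e ∈ q.divisors, (if e ∣ χ.conductor then ((Λ e : ℝ) : ℂ) else 0) := by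
    intro χ
    rw [← Finset.sum_filter]
    have h1 : q.divisors.filter (fun e => e ∣ χ.conductor) = χ.conductor.divisors := by
      ext e
      simp only [Finset.mem_filter, Nat.mem_divisors]
      exact ⟨fun h => ⟨h.2, conductor_ne_zero χ⟩,
        fun h => ⟨⟨h.1.trans (conductor_dvd_level χ), NeZero.ne q⟩, h.1⟩⟩
    rw [h1, ← vonMangoldt_sum]
    push_cast
    rfl
  have h2 : ∑ χ : DirichletCharacter ℂ q, χ⁻¹ (a : ZMod q) * (Real.log χ.conductor : ℂ)
      = ∑ e ∈ q.divisors, ((Λ e : ℝ) : ℂ) *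
        ∑ χ : DirichletCharacter ℂ q, (if e ∣ χ.conductor then χ⁻¹ (a : ZMod q) else 0) := by
    simp_rw [h0, Finset.mul_sum]
    rw [Finset.sum_comm]
    refine Finset.sum_congr rfl fun e _ => Finset.sum_congr rfl fun χ _ => ?_
    split_ifs <;> ring
  rw [h2, Complex.re_sum]
  refine Finset.sum_nonpos fun e he => ?_
  rw [Complex.re_ofReal_mul]
  by_cases hL : (Λ e : ℝ) = 0
  · rw [hL, zero_mul]
  · have hpp : IsPrimePow e := vonMangoldt_ne_zero_iff.1 hL
    obtain ⟨p, j, hp, hj, rfl⟩ := (isPrimePow_nat_iff e).1 hpp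
    have h3 := sum_not_dvd q p j hp hj (Nat.dvd_of_mem_divisors he) a ha
    have h4 : (∑ χ : DirichletCharacter ℂ q,
        (if p ^ j ∣ χ.conductor then χ⁻¹ (a : ZMod q) else 0))
        + (∑ χ : DirichletCharacter ℂ q,
        (if p ^ j ∣ χ.conductor then 0 else χ⁻¹ (a : ZMod q))) = 0 := by
      rw [← Finset.sum_add_distrib]
      have : ∀ χ : DirichletCharacter ℂ q,
          (if p ^ j ∣ χ.conductor then χ⁻¹ (a : ZMod q) else 0)
          + (if p ^ j ∣ χ.conductor then 0 else χ⁻¹ (a : ZMod q)) = χ⁻¹ (a : ZMod q) := by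
        intro χ
        split_ifs <;> simp
      simp_rw [this]
      rw [sum_inv q a ha, if_neg ha1]
    have h5 : (∑ χ : DirichletCharacter ℂ q,
        (if p ^ j ∣ χ.conductor then χ⁻¹ (a : ZMod q) else 0)).re ≤ 0 := by
      have := congrArg Complex.re h4
      rw [Complex.add_re, Complex.zero_re] at this
      linarith
    exact mul_nonpos_of_nonneg_of_nonpos vonMangoldt_nonneg h5

end CNDp

/-- CND. -/
theorem stmt_CND : Stmt_CND :=
  ⟨fun q _ f => CNDp.part1 q f, fun q hq => CNDp.part2 q hq,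
    fun q _ a ha ha1 => CNDp.part3 q a ha ha1⟩

end Pool.Agent.AQ
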