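import Mathlib
import Pool.Agent.Work.MP_99218a_nt.Interface

set_option autoImplicit false

namespace Pool.Agent.AQ

open Filter Topology Metric
open scoped ComplexConjugate

/-- Zeros lie on the critical line. -/
theorem com_zero {Φ : ℂ → ℂ} (h : Xi Φ) {s : ℂ} (hs : Φ s = 0) : s = rho s.im := by
  have hre : s.re = 1 / 2 := by
    by_contra hne
    rcases lt_or_gt_of_ne hne with h1 | h1
    · have h2 : Φ (1 - conj s) = 0 := by
        rw [← norm_eq_zero, h.symm s, hs, norm_zero]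
      refine h.ne (1 - conj s) ?_ h2
      simp only [Complex.sub_re, Complex.one_re, Complex.conj_re]
      linarith
    · exact h.ne s h1 hs
  apply Complex.ext
  · simp [rho, hre]
  · simp [rho]

/-- Finitely many zeros in a ball. -/
theorem com_fin {Φ : ℂ → ℂ} (h : Xi Φ) (R : ℝ) :
    ∃ F0 : Finset ℝ, ∀ s : ℂ, s ∈ closedBall (1 / 2 : ℂ) R → Φ s = 0 → s.im ∈ F0 := by
  have hfin : (closedBall (1 / 2 : ℂ) R ∩ {s | Φ s = 0}).Finite := by
    by_contra hinf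
    obtain ⟨x, -, hx⟩ := Set.Infinite.exists_accPt_of_subset_isCompact
      (K := closedBall (1 / 2 : ℂ) R) hinf (isCompact_closedBall _ _) Set.inter_subset_left
    have hfreq : ∃ᶠ z in 𝓝[≠] x, Φ z = 0 := by
      rw [accPt_iff_frequently_nhdsNE] at hx
      exact hx.mono fun z hz => hz.2
    have han : AnalyticOnNhd ℂ Φ Set.univ := fun z _ => h.diff.analyticAt z
    have := han.eqOn_zero_of_preconnected_of_frequently_eq_zero isPreconnected_univ
      (Set.mem_univ x) hfreq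
    refine h.ne 1 (by norm_num) ?_
    exact this (Set.mem_univ (1 : ℂ))
  refine ⟨(hfin.image Complex.im).toFinset, fun s hs h0 => ?_⟩
  rw [Set.Finite.mem_toFinset]
  exact ⟨s, ⟨hs, h0⟩, rfl⟩

/-- Antisymmetry of the logarithmic derivative on a zero free ball. -/
theorem com_anti {Ψ : ℂ → ℂ} (h : Xi Ψ) (R : ℝ)
    (h0 : ∀ s ∈ ball (1 / 2 : ℂ) R, Ψ s ≠ 0) :
    ∀ s ∈ ball (1 / 2 : ℂ) R, logDeriv Ψ (1 - conj s) = -conj (logDeriv Ψ s) := by
  set G : ℂ → ℂ := fun s => conj (Ψ (conj (1 - s))) with hG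
  have hGd : ∀ s, HasDerivAt G (-conj (deriv Ψ (conj (1 - s)))) s := by
    intro s
    have h1 : HasDerivAt Ψ (deriv Ψ (conj (1 - s))) (conj (1 - s)) := (h.diff _).hasDerivAt
    have h2 := h1.conj_conj
    rw [Complex.conj_conj] at h2
    have h3 : HasDerivAt (fun s : ℂ => 1 - s) (-1) s := by
      simpa using (hasDerivAt_id s).const_sub 1
    have h4 := h2.comp s h3
    have h6 : ((conj : ℂ → ℂ) ∘ Ψ ∘ (conj : ℂ → ℂ)) ∘ (fun s : ℂ => 1 - s) = G := by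
      funext t
      simp [hG, Function.comp]
    rw [h6] at h4
    rw [mul_neg_one] at h4
    exact h4
  intro s hs
  have hU : IsOpen (ball (1 / 2 : ℂ) R) := isOpen_ball
  have hfd : DifferentiableOn ℂ (fun s => G s / Ψ s) (ball (1 / 2 : ℂ) R) := fun t ht =>
    ((hGd t).differentiableAt.div (h.diff t) (h0 t ht)).differentiableWithinAt
  have hnorm : ∀ t ∈ ball (1 / 2 : ℂ) R, ‖G t / Ψ t‖ = 1 := by
    intro t ht
    have h1 : ‖G t‖ = ‖Ψ t‖ := by
      rw [hG]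
      simp only [RCLike.norm_conj]
      rw [map_sub, map_one]
      exact h.symm t
    rw [norm_div, h1, div_self (norm_ne_zero_iff.2 (h0 t ht))]
  have hmax : IsMaxOn (norm ∘ fun s => G s / Ψ s) (ball (1 / 2 : ℂ) R) s := by
    intro t ht
    change ‖G t / Ψ t‖ ≤ ‖G s / Ψ s‖
    rw [hnorm t ht, hnorm s hs]
  have hconst := Complex.eqOn_of_isPreconnected_of_isMaxOn_norm
    (convex_ball (1 / 2 : ℂ) R).isPreconnected hU hfd hs hmax
  set u : ℂ := G s / Ψ s with hu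
  have hu0 : u ≠ 0 := by
    rw [← norm_ne_zero_iff, hu, hnorm s hs]
    exact one_ne_zero
  have hev : G =ᶠ[𝓝 s] fun t => u * Ψ t := by
    filter_upwards [hU.mem_nhds hs] with t ht
    have := hconst ht
    simp only [Function.const] at this
    rw [div_eq_iff (h0 t ht)] at this
    exact this
  have hd1 : deriv G s = u * deriv Ψ s := by
    rw [hev.deriv_eq, deriv_const_mul _ (h.diff s)]
  have hGs : G s = u * Ψ s := by
    rw [hu, div_mul_cancel₀ _ (h0 s hs)]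
  have hd2 := (hGd s).deriv
  have e1 : (1 : ℂ) - conj s = conj (1 - s) := by rw [map_sub, map_one]
  rw [e1]
  have k1 : deriv Ψ (conj (1 - s)) = -conj (u * deriv Ψ s) := by
    rw [← hd1, hd2, map_neg, Complex.conj_conj, neg_neg]
  have k2 : Ψ (conj (1 - s)) = conj (u * Ψ s) := by
    rw [← hGs, hG]
    simp
  have hu0' : conj u ≠ 0 := by simpa using hu0
  clear_value u
  rw [logDeriv_apply, logDeriv_apply, k1, k2, map_mul, map_mul, map_div₀, neg_div,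
    mul_div_mul_left _ _ hu0']

theorem com_gap (z : ℂ) (hz : 0 < z.re) :
    ‖(z - 1 / 2) / (z + 1 / 2)‖ / (1 - ‖(z - 1 / 2) / (z + 1 / 2)‖) ≤ (1 + ‖z‖) ^ 2 / z.re := by
  set w := ‖(z - 1 / 2) / (z + 1 / 2)‖ with hw
  have hne : z + 1 / 2 ≠ 0 := by
    intro h
    have := congrArg Complex.re h
    simp at this
    linarith
  have hN : 0 < ‖z + 1 / 2‖ := norm_pos_iff.2 hne
  have hw0 : 0 ≤ w := norm_nonneg _
  have hsq : w ^ 2 * ‖z + 1 / 2‖ ^ 2 = ‖z + 1 / 2‖ ^ 2 - 2 * z.re := by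
    rw [hw, norm_div, div_pow, div_mul_cancel₀ _ (by positivity)]
    rw [← Complex.normSq_eq_norm_sq, ← Complex.normSq_eq_norm_sq, Complex.normSq_apply,
      Complex.normSq_apply]
    simp
    ring
  have hN1 : ‖z + 1 / 2‖ ≤ 1 + ‖z‖ := by
    calc ‖z + 1 / 2‖ ≤ ‖z‖ + ‖(1 / 2 : ℂ)‖ := norm_add_le _ _
      _ ≤ 1 + ‖z‖ := by
        rw [show ‖(1 / 2 : ℂ)‖ = 1 / 2 by simp]
        linarith
  have hw1 : w < 1 := by
    by_contra hcon
    push Not at hcon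
    have h1 : 1 ≤ w ^ 2 := by nlinarith
    nlinarith [sq_nonneg ‖z + 1 / 2‖, pow_pos hN 2]
  have h1w : 0 < 1 - w := by linarith
  rw [div_le_div_iff₀ h1w hz]
  -- w * re z ≤ (1+|z|)^2 (1 - w)
  have h2 : z.re ≤ ‖z + 1 / 2‖ ^ 2 * (1 - w) := by
    have : 2 * z.re = ‖z + 1 / 2‖ ^ 2 * ((1 - w) * (1 + w)) := by nlinarith
    have h3 : ‖z + 1 / 2‖ ^ 2 * ((1 - w) * (1 + w)) ≤ ‖z + 1 / 2‖ ^ 2 * ((1 - w) * 2) := by
      apply mul_le_mul_of_nonneg_left _ (by positivity)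
      apply mul_le_mul_of_nonneg_left _ h1w.le
      linarith
    nlinarith
  have h4 : ‖z + 1 / 2‖ ^ 2 * (1 - w) ≤ (1 + ‖z‖) ^ 2 * (1 - w) := by
    apply mul_le_mul_of_nonneg_right _ h1w.le
    exact pow_le_pow_left₀ hN.le hN1 2
  nlinarith

theorem com_hf {Φ : ℂ → ℂ} (F : Finset ℝ) (s : ℂ) (hs : 1 / 2 < s.re) :
    (HF Φ F s).re ≤ (logDeriv Φ s).re := by
  rw [HF, Complex.sub_re, Complex.re_sum]
  have : 0 ≤ ∑ γ ∈ F, ((mult Φ γ : ℂ) / (s - rho γ)).re := by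
    refine Finset.sum_nonneg fun γ _ => ?_
    rw [Complex.div_re]
    simp only [Complex.natCast_re, Complex.natCast_im, zero_mul, zero_div, add_zero]
    have h1 : (s - rho γ).re = s.re - 1 / 2 := by simp [rho]
    rw [h1]
    have h2 : 0 ≤ s.re - 1 / 2 := by linarith
    have h3 := Complex.normSq_nonneg (s - rho γ)
    positivity
  linarith

/-- The function `D`. -/
noncomputable def comD (Ψ : ℂ → ℂ) (z : ℂ) : ℂ :=
  logDeriv Ψ (1 / 2 + z) - ((logDeriv Ψ 1).im : ℂ) * Complex.I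

theorem comD_re (Ψ : ℂ → ℂ) (z : ℂ) : (comD Ψ z).re = (logDeriv Ψ (1 / 2 + z)).re := by
  simp [comD]

theorem comD_anti {Ψ : ℂ → ℂ} (h : Xi Ψ) (R : ℝ) (h0 : ∀ s ∈ ball (1 / 2 : ℂ) R, Ψ s ≠ 0)
    (z : ℂ) (hz : ‖z‖ < R) : comD Ψ z = -conj (comD Ψ (-conj z)) := by
  have h1 : (1 / 2 + -conj z : ℂ) ∈ ball (1 / 2 : ℂ) R := by
    rw [mem_ball, dist_eq_norm]
    simpa using hz
  have h2 := com_anti h R h0 _ h1
  have h3 : (1 : ℂ) - conj (1 / 2 + -conj z) = 1 / 2 + z := by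
    rw [map_add, map_neg, Complex.conj_conj, map_div₀, map_one, map_ofNat]
    ring
  rw [h3] at h2
  rw [comD, comD, h2, map_sub, map_mul, Complex.conj_ofReal, Complex.conj_I]
  ring

theorem comD_right (hHER : Stmt_HER) {Ψ : ℂ → ℂ} (h : Xi Ψ)
    (pos : ∀ s : ℂ, 1 / 2 < s.re → 0 ≤ (logDeriv Ψ s).re) (M : ℝ) (hM : (logDeriv Ψ 1).re ≤ M)
    (z : ℂ) (hz : 0 < z.re) : ‖comD Ψ z‖ ≤ 3 * M * ((1 + ‖z‖) ^ 2 / z.re) := by
  have hdiff : DifferentiableOn ℂ (logDeriv Ψ) {s | 1 / 2 < s.re} := by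
    intro s hs
    have h1 : DifferentiableAt ℂ (deriv Ψ) s := (h.diff.analyticAt s).deriv.differentiableAt
    exact (h1.div (h.diff s) (h.ne s hs)).differentiableWithinAt
  have key := hHER (logDeriv Ψ) hdiff pos 1 (1 / 2 + z) (by norm_num) (by simp; exact hz)
  have e1 : (1 / 2 + z - 1 : ℂ) = z - 1 / 2 := by ring
  have e2 : (1 / 2 + z + conj 1 - 1 : ℂ) = z + 1 / 2 := by rw [map_one]; ring
  rw [e1, e2] at key
  have hg := com_gap z hz
  have hH0 : 0 ≤ (logDeriv Ψ 1).re := pos 1 (by norm_num)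
  have hM0 : 0 ≤ M := hH0.trans hM
  have hg1 : 1 ≤ (1 + ‖z‖) ^ 2 / z.re := by
    rw [le_div_iff₀ hz]
    have := Complex.re_le_norm z
    nlinarith [norm_nonneg z]
  have h2 : comD Ψ z = (logDeriv Ψ (1 / 2 + z) - logDeriv Ψ 1) + ((logDeriv Ψ 1).re : ℂ) := by
    rw [comD]
    have := Complex.re_add_im (logDeriv Ψ 1)
    linear_combination -this
  rw [h2]
  calc ‖(logDeriv Ψ (1 / 2 + z) - logDeriv Ψ 1) + ((logDeriv Ψ 1).re : ℂ)‖
      ≤ ‖logDeriv Ψ (1 / 2 + z) - logDeriv Ψ 1‖ + ‖((logDeriv Ψ 1).re : ℂ)‖ := norm_add_le _ _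
    _ ≤ 2 * (logDeriv Ψ 1).re * ((1 + ‖z‖) ^ 2 / z.re) + (logDeriv Ψ 1).re := by
        refine add_le_add (key.trans ?_) ?_
        · exact mul_le_mul_of_nonneg_left hg (by positivity)
        · rw [Complex.norm_real, Real.norm_of_nonneg hH0]
    _ ≤ 2 * M * ((1 + ‖z‖) ^ 2 / z.re) + M * ((1 + ‖z‖) ^ 2 / z.re) := by
        refine add_le_add ?_ ?_
        · apply mul_le_mul_of_nonneg_right _ (by positivity)
          linarith
        · calc (logDeriv Ψ 1).re ≤ M := hM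
            _ = M * 1 := (mul_one _).symm
            _ ≤ _ := mul_le_mul_of_nonneg_left hg1 hM0
    _ = _ := by ring

theorem comD_bound (hHER : Stmt_HER) {Ψ : ℂ → ℂ} (h : Xi Ψ)
    (pos : ∀ s : ℂ, 1 / 2 < s.re → 0 ≤ (logDeriv Ψ s).re) (M : ℝ) (hM : (logDeriv Ψ 1).re ≤ M)
    (R : ℝ) (h0 : ∀ s ∈ ball (1 / 2 : ℂ) R, Ψ s ≠ 0)
    (z : ℂ) (hzR : ‖z‖ < R) (hz : z.re ≠ 0) :
    ‖comD Ψ z‖ ≤ 3 * M * ((1 + ‖z‖) ^ 2 / |z.re|) := by
  rcases lt_or_gt_of_ne hz with h1 | h1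
  · rw [comD_anti h R h0 z hzR, norm_neg, RCLike.norm_conj]
    have h2 : 0 < (-conj z).re := by simp; exact h1
    have := comD_right hHER h pos M hM (-conj z) h2
    have h3 : ‖-conj z‖ = ‖z‖ := by rw [norm_neg, RCLike.norm_conj]
    have h4 : (-conj z).re = |z.re| := by
      rw [abs_of_neg h1]
      simp
    rw [h3, h4] at this
    exact this
  · have := comD_right hHER h pos M hM z h1
    rw [abs_of_pos h1]
    exact this

theorem comD_diff {Ψ : ℂ → ℂ} (h : Xi Ψ) (R : ℝ) (h0 : ∀ s ∈ ball (1 / 2 : ℂ) R, Ψ s ≠ 0)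
    (z : ℂ) (hz : ‖z‖ < R) : DifferentiableAt ℂ (comD Ψ) z := by
  have h1 : (1 / 2 + z : ℂ) ∈ ball (1 / 2 : ℂ) R := by
    rw [mem_ball, dist_eq_norm]
    simpa using hz
  have h2 : DifferentiableAt ℂ (logDeriv Ψ) (1 / 2 + z) :=
    ((h.diff.analyticAt _).deriv.differentiableAt).div (h.diff _) (h0 _ h1)
  have h3 : DifferentiableAt ℂ (fun z : ℂ => 1 / 2 + z) z := by fun_prop
  exact (DifferentiableAt.comp z h2 h3).sub_const _

/-- The bound for `D` on the half ball. -/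
theorem comD_ball (hHER : Stmt_HER) {Ψ : ℂ → ℂ} (h : Xi Ψ)
    (pos : ∀ s : ℂ, 1 / 2 < s.re → 0 ≤ (logDeriv Ψ s).re) (M : ℝ) (hM : (logDeriv Ψ 1).re ≤ M)
    (r : ℝ) (hr : 1 ≤ r) (h0 : ∀ s ∈ ball (1 / 2 : ℂ) (2 * r), Ψ s ≠ 0)
    (z : ℂ) (hz : ‖z‖ ≤ r / 2) : ‖comD Ψ z‖ ≤ 32 * M * r := by
  have hM0 : 0 ≤ M := (pos 1 (by norm_num)).trans hM
  have hd : DifferentiableOn ℂ (fun z => (z ^ 2 + (r : ℂ) ^ 2) * comD Ψ z) (ball 0 (2 * r)) := by
    intro z hz
    rw [mem_ball_zero_iff] at hz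
    have h1 := comD_diff h (2 * r) h0 z hz
    have h2 : DifferentiableAt ℂ (fun z : ℂ => z ^ 2 + (r : ℂ) ^ 2) z := by fun_prop
    exact (h2.mul h1).differentiableWithinAt
  have hdc : DiffContOnCl ℂ (fun z => (z ^ 2 + (r : ℂ) ^ 2) * comD Ψ z) (ball 0 r) := by
    apply DifferentiableOn.diffContOnCl
    apply hd.mono
    rw [closure_ball _ (by linarith : r ≠ 0)]
    exact closedBall_subset_ball (by linarith)
  have hfr : ∀ z ∈ frontier (ball (0 : ℂ) r), ‖(z ^ 2 + (r : ℂ) ^ 2) * comD Ψ z‖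
      ≤ 6 * M * r * (1 + r) ^ 2 := by
    intro z hz
    rw [frontier_ball _ (by linarith : r ≠ 0), mem_sphere_zero_iff_norm] at hz
    have h1 : z ^ 2 + (r : ℂ) ^ 2 = z * (2 * z.re : ℝ) := by
      have : (r : ℂ) ^ 2 = z * conj z := by
        rw [Complex.mul_conj, Complex.normSq_eq_norm_sq, hz]
        push_cast
        rfl
      rw [this, sq, ← mul_add, Complex.add_conj]
    rw [norm_mul, h1, norm_mul, hz, Complex.norm_real, Real.norm_eq_abs, abs_mul,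
      abs_of_pos (by norm_num : (0 : ℝ) < 2)]
    by_cases hre : z.re = 0
    · rw [hre]
      simp
      positivity
    · have h2 := comD_bound hHER h pos M hM (2 * r) h0 z (by rw [hz]; linarith) hre
      rw [hz] at h2
      have hpos : 0 < |z.re| := abs_pos.2 hre
      calc r * (2 * |z.re|) * ‖comD Ψ z‖
          ≤ r * (2 * |z.re|) * (3 * M * ((1 + r) ^ 2 / |z.re|)) :=
            mul_le_mul_of_nonneg_left h2 (by positivity)
        _ = 6 * M * r * (1 + r) ^ 2 := by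
            field_simp
            ring
  have hmain := Complex.norm_le_of_forall_mem_frontier_norm_le isBounded_ball hdc hfr (z := z) (by
    rw [closure_ball _ (by linarith : r ≠ 0), mem_closedBall_zero_iff]
    linarith)
  rw [norm_mul] at hmain
  have hlow : 3 / 4 * r ^ 2 ≤ ‖z ^ 2 + (r : ℂ) ^ 2‖ := by
    have h1 : ‖(r : ℂ) ^ 2‖ ≤ ‖z ^ 2 + (r : ℂ) ^ 2‖ + ‖z ^ 2‖ := by
      calc ‖(r : ℂ) ^ 2‖ = ‖(z ^ 2 + (r : ℂ) ^ 2) - z ^ 2‖ := by ring_nf
        _ ≤ _ := norm_sub_le _ _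
    rw [norm_pow, norm_pow, Complex.norm_real, Real.norm_of_nonneg (by linarith)] at h1
    have h2 : ‖z‖ ^ 2 ≤ (r / 2) ^ 2 := pow_le_pow_left₀ (norm_nonneg _) hz 2
    nlinarith
  have h3 : 3 / 4 * r ^ 2 * ‖comD Ψ z‖ ≤ 6 * M * r * (1 + r) ^ 2 :=
    (mul_le_mul_of_nonneg_right hlow (norm_nonneg _)).trans hmain
  have h4 : 6 * M * r * (1 + r) ^ 2 ≤ 3 / 4 * r ^ 2 * (32 * M * r) := by
    have h5 : (1 + r) ^ 2 ≤ 4 * r ^ 2 := by nlinarith
    calc 6 * M * r * (1 + r) ^ 2 ≤ 6 * M * r * (4 * r ^ 2) :=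
          mul_le_mul_of_nonneg_left h5 (by positivity)
      _ = _ := by ring
  have h6 : 0 < 3 / 4 * r ^ 2 := by positivity
  exact le_of_mul_le_mul_left (h3.trans h4) h6

/-- The comparison of the values at `1` and at `1/2 + X`. -/
theorem com_compare (hHER : Stmt_HER) {Ψ : ℂ → ℂ} (h : Xi Ψ)
    (pos : ∀ s : ℂ, 1 / 2 < s.re → 0 ≤ (logDeriv Ψ s).re) (M : ℝ) (hM : (logDeriv Ψ 1).re ≤ M)
    (r : ℝ) (hr : 1 < r) (h0 : ∀ s ∈ ball (1 / 2 : ℂ) (2 * r), Ψ s ≠ 0)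
    (X : ℝ) (hX : 0 < X) (hXr : X < r / 2) :
    2 * (logDeriv Ψ 1).re ≤ (logDeriv Ψ (1 / 2 + (X : ℂ))).re / X + 512 * M * (1 / 2 + X) / r := by
  have hM0 : 0 ≤ M := (pos 1 (by norm_num)).trans hM
  have hr0 : 0 < r := by linarith
  have hdD : DifferentiableOn ℂ (comD Ψ) (ball 0 (r / 2)) := fun z hz => by
    rw [mem_ball_zero_iff] at hz
    exact (comD_diff h (2 * r) h0 z (by linarith)).differentiableWithinAt
  have hb := comD_ball hHER h pos M hM r hr.le h0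
  have hmaps : Set.MapsTo (comD Ψ) (ball 0 (r / 2)) (closedBall (comD Ψ 0) (64 * M * r)) := by
    intro z hz
    rw [mem_ball_zero_iff] at hz
    rw [mem_closedBall, dist_eq_norm]
    calc ‖comD Ψ z - comD Ψ 0‖ ≤ ‖comD Ψ z‖ + ‖comD Ψ 0‖ := norm_sub_le _ _
      _ ≤ 32 * M * r + 32 * M * r := add_le_add (hb z hz.le) (hb 0 (by simp; linarith))
      _ = _ := by ring
  set Q := dslope (comD Ψ) 0 with hQ
  have hQd : DifferentiableOn ℂ Q (ball 0 (r / 2)) := by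
    rw [hQ, Complex.differentiableOn_dslope (ball_mem_nhds _ (by linarith))]
    exact hdD
  have hQb : ∀ z ∈ ball (0 : ℂ) (r / 2), ‖Q z‖ ≤ 128 * M := by
    intro z hz
    have := Complex.norm_dslope_le_div_of_mapsTo_ball hdD hmaps hz
    refine this.trans (le_of_eq ?_)
    field_simp
    ring
  have h00 : (0 : ℂ) ∈ ball (0 : ℂ) (r / 2) := mem_ball_self (by linarith)
  have hQmaps : Set.MapsTo Q (ball 0 (r / 2)) (closedBall (Q 0) (256 * M)) := by
    intro z hz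
    rw [mem_closedBall, dist_eq_norm]
    calc ‖Q z - Q 0‖ ≤ ‖Q z‖ + ‖Q 0‖ := norm_sub_le _ _
      _ ≤ 128 * M + 128 * M := add_le_add (hQb z hz) (hQb 0 h00)
      _ = _ := by ring
  have hre0 : (comD Ψ 0).re = 0 := by
    have := comD_anti h (2 * r) h0 0 (by simp; linarith)
    have h1 := congrArg Complex.re this
    simp only [map_zero, neg_zero, Complex.neg_re, Complex.conj_re] at h1
    linarith
  have hval : ∀ x : ℝ, 0 < x → (Q x).re = (logDeriv Ψ (1 / 2 + (x : ℂ))).re / x := by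
    intro x hx
    have hne : (x : ℂ) ≠ 0 := by exact_mod_cast hx.ne'
    rw [hQ, dslope_of_ne _ hne, slope_def_field, sub_zero, Complex.div_ofReal_re, Complex.sub_re,
      hre0, sub_zero, comD_re]
  have hdist : ∀ x : ℝ, 0 < x → x < r / 2 → ‖Q x - Q 0‖ ≤ 512 * M * x / r := by
    intro x hx hxr
    have hmem : (x : ℂ) ∈ ball (0 : ℂ) (r / 2) := by
      rw [mem_ball_zero_iff, Complex.norm_real, Real.norm_of_nonneg hx.le]
      exact hxr
    have := Complex.dist_le_div_mul_dist_of_mapsTo_ball hQd hQmaps hmem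
    rw [dist_eq_norm, dist_zero_right, Complex.norm_real, Real.norm_of_nonneg hx.le] at this
    refine this.trans (le_of_eq ?_)
    field_simp
    ring
  have e1 := hval (1 / 2) (by norm_num)
  have e2 := hval X hX
  have d1 := hdist (1 / 2) (by norm_num) (by linarith)
  have d2 := hdist X hX hXr
  have e3 : (1 / 2 + ((1 / 2 : ℝ) : ℂ)) = 1 := by push_cast; ring
  rw [e3] at e1
  have k1 : (Q (1 / 2 : ℝ)).re - (Q 0).re ≤ 512 * M * (1 / 2) / r := by
    rw [← Complex.sub_re]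
    exact (Complex.re_le_norm _).trans d1
  have k2 : (Q 0).re - (Q X).re ≤ 512 * M * X / r := by
    rw [← Complex.sub_re]
    refine (Complex.re_le_norm _).trans ?_
    rw [norm_sub_rev]
    exact d2
  have k3 : 512 * M * (1 / 2) / r + 512 * M * X / r = 512 * M * (1 / 2 + X) / r := by ring
  have k4 : (logDeriv Ψ 1).re / (1 / 2) = 2 * (logDeriv Ψ 1).re := by ring
  rw [k4] at e1
  linarith

theorem stmt_COM (hREM : Stmt_REM) (hPOS : Stmt_POS) (hHER : Stmt_HER) : Stmt_COM := by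
  intro Φ hΦ ε hε
  obtain ⟨C, hC⟩ := hΦ.gr
  set M : ℝ := (logDeriv Φ 1).re with hMdef
  have hM0 : 0 ≤ M := hPOS Φ hΦ 1 (by norm_num)
  set X : ℝ := 3 / 2 + 2 * C ^ 2 / ε ^ 2 with hX
  have hX1 : 3 / 2 ≤ X := by
    rw [hX]
    have : 0 ≤ 2 * C ^ 2 / ε ^ 2 := by positivity
    linarith
  have hX0 : 0 < X := by linarith
  set r : ℝ := 2 * X + 2 + 512 * M * (1 / 2 + X) / ε with hr
  have hrX : 2 * X + 2 ≤ r := by
    rw [hr]
    have : 0 ≤ 512 * M * (1 / 2 + X) / ε := by positivity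
    linarith
  have hr0 : 0 < r := by linarith
  obtain ⟨F0, hF0⟩ := com_fin hΦ (2 * r)
  refine ⟨F0, fun F hF => ?_⟩
  obtain ⟨Ψ, hΨ, hΨF, hΨne, hΨ0⟩ := hREM Φ hΦ F
  have hnz : ∀ s ∈ ball (1 / 2 : ℂ) (2 * r), Ψ s ≠ 0 := by
    intro s hs h0
    have h1 := hΨ0 s h0
    have h2 := hF (hF0 s (ball_subset_closedBall hs) h1)
    refine hΨne _ h2 ?_
    rw [← com_zero hΦ h1]
    exact h0
  have h1 : (1 / 2 : ℝ) < (1 : ℂ).re := by norm_num
  have hXre : (1 / 2 : ℝ) < (1 / 2 + (X : ℂ)).re := by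
    simp
    exact hX0
  have hM1 : (logDeriv Ψ 1).re ≤ M := by
    rw [hΨF 1 h1]
    exact com_hf F 1 h1
  have key := com_compare hHER hΨ (fun s hs => hPOS Ψ hΨ s hs) M hM1 r (by linarith) hnz X hX0
    (by linarith)
  have hup : (logDeriv Ψ (1 / 2 + (X : ℂ))).re ≤ ε * X := by
    rw [hΨF _ hXre]
    refine (com_hf F _ hXre).trans ?_
    refine (Complex.re_le_norm _).trans ?_
    have h2 : (2 : ℝ) ≤ (1 / 2 + (X : ℂ)).re := by
      simp
      linarith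
    refine (hC _ h2).trans ?_
    have h3 : ‖(1 / 2 + (X : ℂ))‖ = 1 / 2 + X := by
      have : (1 / 2 + (X : ℂ)) = ((1 / 2 + X : ℝ) : ℂ) := by push_cast; ring
      rw [this, Complex.norm_real, Real.norm_of_nonneg (by linarith)]
    rw [h3]
    have h4 : (1 + (1 / 2 + X)) ^ (1 / 2 : ℝ) ≤ √(2 * X) := by
      rw [← Real.sqrt_eq_rpow]
      apply Real.sqrt_le_sqrt
      linarith
    have h5 : C * (1 + (1 / 2 + X)) ^ (1 / 2 : ℝ) ≤ |C| * √(2 * X) := by
      calc C * (1 + (1 / 2 + X)) ^ (1 / 2 : ℝ) ≤ |C| * (1 + (1 / 2 + X)) ^ (1 / 2 : ℝ) :=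
            mul_le_mul_of_nonneg_right (le_abs_self C) (by positivity)
        _ ≤ _ := mul_le_mul_of_nonneg_left h4 (abs_nonneg _)
    refine h5.trans ?_
    have h6 : 2 * C ^ 2 ≤ ε ^ 2 * X := by
      rw [hX]
      have h7 : ε ^ 2 * (2 * C ^ 2 / ε ^ 2) = 2 * C ^ 2 := by field_simp
      nlinarith [sq_nonneg ε]
    have h8 : (|C| * √(2 * X)) ^ 2 ≤ (ε * X) ^ 2 := by
      rw [mul_pow, sq_abs, Real.sq_sqrt (by linarith), mul_pow]
      nlinarith
    exact (sq_le_sq₀ (by positivity) (by positivity)).1 h8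
  have hk1 : (logDeriv Ψ (1 / 2 + (X : ℂ))).re / X ≤ ε := by
    rw [div_le_iff₀ hX0]
    exact hup
  have hk2 : 512 * M * (1 / 2 + X) / r ≤ ε := by
    rw [div_le_iff₀ hr0]
    have : 512 * M * (1 / 2 + X) / ε ≤ r := by
      rw [hr]
      linarith
    rw [div_le_iff₀ hε] at this
    linarith
  rw [← hΨF 1 h1]
  linarith

end Pool.Agent.AQ
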