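import Mathlib
import Pool.Agent.Work.MP_99218a_nt.Interface

/-!
# MP_99218a_nt: lemmas for CRI (twisted sums of the logarithmic derivatives at real points)
-/

set_option autoImplicit false

namespace Pool.Agent.AQ

open Filter Topology MeasureTheory ArithmeticFunction
open scoped ComplexConjugate Classical

set_option linter.unusedSectionVars false

variable {q : ℕ} [NeZero q]

theorem norm_w_le (χ : DirichletCharacter ℂ q) (a : ZMod q) : ‖χ⁻¹ a‖ ≤ 1 :=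
  DirichletCharacter.norm_le_one χ⁻¹ a

/-- An inverse of `a` modulo `q`, as an integer. -/
theorem exists_inv (a : ℤ) (ha : IsUnit (a : ZMod q)) :
    ∃ a' : ℤ, (a' : ZMod q) * (a : ZMod q) = 1 ∧ IsUnit (a' : ZMod q) := by
  obtain ⟨u, hu⟩ := ha
  obtain ⟨b, hb⟩ := ZMod.intCast_surjective ((u⁻¹ : (ZMod q)ˣ) : ZMod q)
  refine ⟨b, ?_, ?_⟩
  · rw [hb, ← hu, Units.inv_mul]
  · rw [hb]
    exact Units.isUnit _

theorem conj_w (χ : DirichletCharacter ℂ q) (a a' : ZMod q) (h : a' * a = 1) :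
    conj (χ⁻¹ a) = χ⁻¹ a' := by
  have hu : IsUnit a := IsUnit.of_mul_eq_one_right a' h
  have h1 : ‖χ⁻¹ a‖ = 1 := by
    have := DirichletCharacter.unit_norm_eq_one χ⁻¹ hu.unit
    simpa using this
  have h2 : χ⁻¹ a' * χ⁻¹ a = 1 := by rw [← map_mul, h, map_one]
  have h3 : conj (χ⁻¹ a) * χ⁻¹ a = 1 := by
    rw [mul_comm, Complex.mul_conj, Complex.normSq_eq_norm_sq, h1]
    norm_num
  have h0 : χ⁻¹ a ≠ 0 := by
    intro h0
    rw [h0] at h1
    norm_num at h1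
  exact mul_right_cancel₀ h0 (h3.trans h2.symm)

theorem sum_w (hCHS : Stmt_CHS) (a : ℤ) (ha : IsUnit (a : ZMod q)) (h1 : (a : ZMod q) ≠ 1) :
    ∑ χ : DirichletCharacter ℂ q, χ⁻¹ (a : ZMod q) = 0 := by
  obtain ⟨hE, hO⟩ := hCHS q a ha
  have : ∑ χ : DirichletCharacter ℂ q, χ⁻¹ (a : ZMod q)
      = (∑ χ : DirichletCharacter ℂ q, (if χ.Even then χ⁻¹ (a : ZMod q) else 0))
        + ∑ χ : DirichletCharacter ℂ q, (if χ.Even then 0 else χ⁻¹ (a : ZMod q)) := by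
    rw [← Finset.sum_add_distrib]
    refine Finset.sum_congr rfl fun χ _ => ?_
    split_ifs <;> simp
  rw [this, hE, hO]
  simp only [h1, if_false]
  ring

/-- Sums with a weight depending on the parity only. -/
theorem sum_w_kap (hCHS : Stmt_CHS) (a : ℤ) (ha : IsUnit (a : ZMod q)) (h1 : (a : ZMod q) ≠ 1)
    (hm : (a : ZMod q) ≠ -1) (f : ℝ → ℂ) :
    ∑ χ : DirichletCharacter ℂ q, χ⁻¹ (a : ZMod q) * f (kap χ) = 0 := by
  obtain ⟨hE, hO⟩ := hCHS q a ha
  have : ∑ χ : DirichletCharacter ℂ q, χ⁻¹ (a : ZMod q) * f (kap χ)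
      = (∑ χ : DirichletCharacter ℂ q, (if χ.Even then χ⁻¹ (a : ZMod q) else 0)) * f 0
        + (∑ χ : DirichletCharacter ℂ q, (if χ.Even then 0 else χ⁻¹ (a : ZMod q))) * f 1 := by
    rw [Finset.sum_mul, Finset.sum_mul, ← Finset.sum_add_distrib]
    refine Finset.sum_congr rfl fun χ _ => ?_
    unfold kap
    split_ifs <;> simp
  rw [this, hE, hO]
  simp only [h1, hm, if_false]
  ring

/-- The coefficients of the Dirichlet series of `χ*`. -/
noncomputable def fL (χ : DirichletCharacter ℂ q) (n : ℕ) : ℂ :=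
  (Λ n : ℂ) * χ.primitiveCharacter (n : ZMod χ.conductor)

theorem summable_fL (χ : DirichletCharacter ℂ q) (s : ℂ) (hs : 1 < s.re) :
    LSeriesSummable (fL χ) s := by
  have h := DirichletCharacter.LSeriesSummable_twist_vonMangoldt χ.primitiveCharacter hs
  refine (LSeriesSummable_congr s fun {n} _ => ?_).mp h
  simp only [fL, Pi.mul_apply]
  ring

/-- The twisted Dirichlet series at real points. -/
theorem hasSum_Dr (a a' : ℤ) (h : (a' : ZMod q) * (a : ZMod q) = 1) (s : ℝ) (hs : 1 < s) :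
    HasSum (fun n : ℕ => Λ n * (ca q a' n).re * (n : ℝ) ^ (-s))
      (∑ χ : DirichletCharacter ℂ q, χ⁻¹ (a : ZMod q) * conj (LSeries (fL χ) (s : ℂ))).re := by
  have h1 : ∀ χ : DirichletCharacter ℂ q,
      HasSum (fun n => χ⁻¹ (a : ZMod q) * conj (LSeries.term (fL χ) (s : ℂ) n))
        (χ⁻¹ (a : ZMod q) * conj (LSeries (fL χ) (s : ℂ))) := by
    intro χ
    have := (summable_fL χ (s : ℂ) (by simpa using hs)).hasSum
    exact (Complex.hasSum_conj'.mpr this).mul_left _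
  have h2 := hasSum_sum fun χ (_ : χ ∈ (Finset.univ : Finset (DirichletCharacter ℂ q))) => h1 χ
  have h3 := Complex.reCLM.hasSum h2
  simp only [Complex.reCLM_apply] at h3
  convert h3 using 1
  funext n
  symm
  rcases Nat.eq_zero_or_pos n with rfl | hn
  · simp
  have hn' : (0 : ℝ) < n := by exact_mod_cast hn
  have h4 : ∀ χ : DirichletCharacter ℂ q,
      χ⁻¹ (a : ZMod q) * conj (LSeries.term (fL χ) (s : ℂ) n)
        = ((Λ n * (n : ℝ) ^ (-s) : ℝ) : ℂ) *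
          conj (χ⁻¹ (a' : ZMod q) * χ.primitiveCharacter (n : ZMod χ.conductor)) := by
    intro χ
    have e1 : conj (χ⁻¹ (a' : ZMod q)) = χ⁻¹ (a : ZMod q) := conj_w χ _ _ (by rw [mul_comm]; exact h)
    have e2 : ((n : ℂ) ^ (s : ℂ)) = (((n : ℝ) ^ s : ℝ) : ℂ) := by
      rw [Complex.ofReal_cpow hn'.le]
      simp
    rw [LSeries.term_of_ne_zero hn.ne', fL, e2, map_div₀, map_mul, map_mul, e1, Complex.conj_ofReal,
      Complex.conj_ofReal, Real.rpow_neg hn'.le]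
    push_cast
    ring
  rw [Finset.sum_congr rfl fun χ _ => h4 χ, ← Finset.mul_sum, ← map_sum, Complex.re_ofReal_mul,
    Complex.conj_re]
  change _ * (ca q a' n).re = _
  ring

/-- The twisted sum of the conjugated logarithmic derivatives at a real point. -/
theorem sum_w_conj_H (hEXPL : Stmt_EXPL) (hCHS : Stmt_CHS) (a : ℤ) (ha : IsUnit (a : ZMod q))
    (h1 : (a : ZMod q) ≠ 1) (hm : (a : ZMod q) ≠ -1) (s : ℝ) (hs : 1 < s) :
    ∑ χ : DirichletCharacter ℂ q, χ⁻¹ (a : ZMod q) * conj (Hc χ (s : ℂ))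
      = ((1 / s + 1 / (s - 1) : ℝ) : ℂ)
        + 1 / 2 * ∑ χ : DirichletCharacter ℂ q, χ⁻¹ (a : ZMod q) * (Real.log χ.conductor : ℂ)
        - ∑ χ : DirichletCharacter ℂ q, χ⁻¹ (a : ZMod q) * conj (LSeries (fL χ) (s : ℂ)) := by
  have hS := sum_w hCHS a ha h1
  have hK := sum_w_kap hCHS a ha h1 hm
    (fun κ => 1 / 2 * conj (Complex.digamma (((s : ℂ) + (κ : ℂ)) / 2)))
  have h0 : ∀ χ : DirichletCharacter ℂ q, χ⁻¹ (a : ZMod q) * conj (Hc χ (s : ℂ))
      = (if χ = 1 then ((1 / s + 1 / (s - 1) : ℝ) : ℂ) else 0)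
        + 1 / 2 * (χ⁻¹ (a : ZMod q) * (Real.log χ.conductor : ℂ))
        - 1 / 2 * (Real.log Real.pi : ℂ) * χ⁻¹ (a : ZMod q)
        + χ⁻¹ (a : ZMod q) * (1 / 2 * conj (Complex.digamma (((s : ℂ) + (kap χ : ℂ)) / 2)))
        - χ⁻¹ (a : ZMod q) * conj (LSeries (fL χ) (s : ℂ)) := by
    intro χ
    have hc : (0 : ℝ) < χ.conductor := by
      exact_mod_cast Nat.pos_of_ne_zero χ.conductor_ne_zero
    have hlog : Real.log (χ.conductor / Real.pi) = Real.log χ.conductor - Real.log Real.pi :=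
      Real.log_div hc.ne' Real.pi_pos.ne'
    rw [hEXPL q χ (s : ℂ) (by simpa using hs), hlog]
    change _ * conj (_ + _ + _ - LSeries (fL χ) (s : ℂ)) = _
    have hif : χ⁻¹ (a : ZMod q) * conj (if χ = 1 then 1 / (s : ℂ) + 1 / ((s : ℂ) - 1) else 0)
        = (if χ = 1 then ((1 / s + 1 / (s - 1) : ℝ) : ℂ) else 0) := by
      split_ifs with hχ
      · subst hχ
        rw [inv_one, MulChar.one_apply ha, one_mul]
        simp only [map_add, map_div₀, map_sub, map_one, Complex.conj_ofReal]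
        push_cast
        ring
      · simp
    rw [map_sub, map_add, map_add, mul_sub, mul_add, mul_add, hif]
    simp only [map_mul, map_div₀, map_one, map_ofNat, Complex.conj_ofReal]
    push_cast
    ring
  rw [Finset.sum_congr rfl fun χ _ => h0 χ, Finset.sum_sub_distrib, Finset.sum_add_distrib,
    Finset.sum_sub_distrib, Finset.sum_add_distrib, hK, ← Finset.mul_sum, ← Finset.mul_sum, hS,
    Finset.sum_ite_eq' Finset.univ (1 : DirichletCharacter ℂ q)]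
  simp

/-- The twisted sum of `J (Hc χ)`. -/
theorem sum_w_J (hJX : Stmt_JX) (hCHS : Stmt_CHS) (a : ℤ) (ha : IsUnit (a : ZMod q))
    (h1 : (a : ZMod q) ≠ 1) (hm : (a : ZMod q) ≠ -1) (x : ℝ) (hx : 1 ≤ x) :
    ∑ χ : DirichletCharacter ℂ q, χ⁻¹ (a : ZMod q) * J (Hc χ) x
      = -(∑ n ∈ Finset.Ioc 0 ⌊x⌋₊, ((Λ n * (1 - n / x) : ℝ) : ℂ) * ca q a n)
        + ((x / 2 + Real.log x - 2 + 3 / (2 * x) : ℝ) : ℂ)
        + 1 / 2 * (1 - 1 / x) *
          ∑ χ : DirichletCharacter ℂ q, χ⁻¹ (a : ZMod q) * (Real.log χ.conductor : ℂ)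
        + ∑ χ : DirichletCharacter ℂ q, χ⁻¹ (a : ZMod q) * conj (Hc χ 1)
        - (∑ χ : DirichletCharacter ℂ q, χ⁻¹ (a : ZMod q) * conj (Hc χ 2)) / x := by
  have hS := sum_w hCHS a ha h1
  have hK := sum_w_kap hCHS a ha h1 hm (fun κ => Dg κ x)
  have h0 : ∀ χ : DirichletCharacter ℂ q, χ⁻¹ (a : ZMod q) * J (Hc χ) x
      = -(∑ n ∈ Finset.Ioc 0 ⌊x⌋₊, ((Λ n * (1 - n / x) : ℝ) : ℂ) *
            (χ⁻¹ (a : ZMod q) * χ.primitiveCharacter (n : ZMod χ.conductor)))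
        + (if χ = 1 then ((x / 2 + Real.log x - 2 + 3 / (2 * x) : ℝ) : ℂ) else 0)
        + 1 / 2 * (1 - 1 / x) * (χ⁻¹ (a : ZMod q) * (Real.log χ.conductor : ℂ))
        - 1 / 2 * (1 - 1 / x) * (Real.log Real.pi : ℂ) * χ⁻¹ (a : ZMod q)
        + χ⁻¹ (a : ZMod q) * Dg (kap χ) x
        + χ⁻¹ (a : ZMod q) * conj (Hc χ 1)
        - (χ⁻¹ (a : ZMod q) * conj (Hc χ 2)) / x := by
    intro χ
    have hc : (0 : ℝ) < χ.conductor := by
      exact_mod_cast Nat.pos_of_ne_zero χ.conductor_ne_zero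
    have hlog : Real.log (χ.conductor / Real.pi) = Real.log χ.conductor - Real.log Real.pi :=
      Real.log_div hc.ne' Real.pi_pos.ne'
    rw [hJX q χ x hx, hlog]
    have hif : χ⁻¹ (a : ZMod q) *
        (if χ = 1 then ((x / 2 + Real.log x - 2 + 3 / (2 * x) : ℝ) : ℂ) else 0)
        = (if χ = 1 then ((x / 2 + Real.log x - 2 + 3 / (2 * x) : ℝ) : ℂ) else 0) := by
      split_ifs with hχ
      · subst hχ
        rw [inv_one, MulChar.one_apply ha, one_mul]
      · simp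
    have hsum : χ⁻¹ (a : ZMod q) * ∑ n ∈ Finset.Ioc 0 ⌊x⌋₊,
          (Λ n : ℂ) * χ.primitiveCharacter (n : ZMod χ.conductor) * ((1 - n / x : ℝ) : ℂ)
        = ∑ n ∈ Finset.Ioc 0 ⌊x⌋₊, ((Λ n * (1 - n / x) : ℝ) : ℂ) *
            (χ⁻¹ (a : ZMod q) * χ.primitiveCharacter (n : ZMod χ.conductor)) := by
      rw [Finset.mul_sum]
      refine Finset.sum_congr rfl fun n _ => ?_
      push_cast
      ring
    rw [Complex.ofReal_sub]
    linear_combination hif - hsum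
  rw [Finset.sum_congr rfl fun χ _ => h0 χ]
  simp only [Finset.sum_sub_distrib, Finset.sum_add_distrib, Finset.sum_neg_distrib]
  rw [hK, ← Finset.mul_sum, ← Finset.mul_sum, hS, ← Finset.sum_div,
    Finset.sum_ite_eq' Finset.univ (1 : DirichletCharacter ℂ q), Finset.sum_comm]
  have h2 : ∑ n ∈ Finset.Ioc 0 ⌊x⌋₊, ∑ χ : DirichletCharacter ℂ q,
      ((Λ n * (1 - n / x) : ℝ) : ℂ) *
            (χ⁻¹ (a : ZMod q) * χ.primitiveCharacter (n : ZMod χ.conductor))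
      = ∑ n ∈ Finset.Ioc 0 ⌊x⌋₊, ((Λ n * (1 - n / x) : ℝ) : ℂ) * ca q a n := by
    refine Finset.sum_congr rfl fun n _ => ?_
    rw [← Finset.mul_sum]
    rfl
  rw [h2]
  simp

end Pool.Agent.AQ
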