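import Mathlib
import Pool.Agent.Work.MP_99218a_nt.CRIL

/-!
# MP_99218a_nt: block CRI (criterion for large moduli)
-/

set_option autoImplicit false

namespace Pool.Agent.AQ

open Filter Topology MeasureTheory ArithmeticFunction
open scoped ComplexConjugate Classical

set_option linter.unusedSectionVars false

/-- Moving from `1` to `1 + δ`. -/
theorem her_step (hHER : Stmt_HER) (H : ℂ → ℂ) (hH : Hg H) (δ : ℝ) (hδ : 0 < δ) :
    ‖H 1 - H ((1 + δ : ℝ) : ℂ)‖ ≤ 6 * δ * |(H 2).re| := by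
  have h1 := hHER H hH.diff hH.pos 1 ((1 + δ : ℝ) : ℂ) (by norm_num) (by simp; linarith)
  have h2 := hHER H hH.diff hH.pos 2 1 (by norm_num) (by norm_num)
  have e1 : ‖(((1 + δ : ℝ) : ℂ) - 1) / (((1 + δ : ℝ) : ℂ) + conj (1 : ℂ) - 1)‖ = δ / (1 + δ) := by
    have : (((1 + δ : ℝ) : ℂ) - 1) / (((1 + δ : ℝ) : ℂ) + conj (1 : ℂ) - 1) = ((δ / (1 + δ) : ℝ) : ℂ) := by
      rw [map_one]
      push_cast
      ring
    rw [this, Complex.norm_real, Real.norm_eq_abs, abs_of_nonneg (by positivity)]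
  have e2 : ‖((1 : ℂ) - 2) / ((1 : ℂ) + conj (2 : ℂ) - 1)‖ = 1 / 2 := by
    have : ((1 : ℂ) - 2) / ((1 : ℂ) + conj (2 : ℂ) - 1) = ((-(1 / 2) : ℝ) : ℂ) := by
      rw [map_ofNat]
      push_cast
      norm_num
    rw [this, Complex.norm_real]
    norm_num
  rw [e1] at h1
  rw [e2] at h2
  have e3 : δ / (1 + δ) / (1 - δ / (1 + δ)) = δ := by
    field_simp
    ring
  rw [e3] at h1
  have h3 : (H 1).re ≤ 3 * (H 2).re := by
    have h4 : (H 1 - H 2).re ≤ ‖H 1 - H 2‖ := Complex.re_le_norm _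
    rw [Complex.sub_re] at h4
    norm_num at h2
    linarith
  have h5 : (H 2).re ≤ |(H 2).re| := le_abs_self _
  rw [norm_sub_rev]
  calc ‖H ((1 + δ : ℝ) : ℂ) - H 1‖ ≤ 2 * (H 1).re * δ := h1
    _ ≤ 2 * (3 * |(H 2).re|) * δ := by
        have : (H 1).re ≤ 3 * |(H 2).re| := by linarith
        gcongr
    _ = _ := by ring

variable {q : ℕ} [NeZero q]

theorem key_ineq (hG : GRH) (hBRI : Stmt_BRI) (hJX : Stmt_JX) (hEXPL : Stmt_EXPL)
    (hCHS : Stmt_CHS) (hCND : Stmt_CND) (hHER : Stmt_HER) (hXI : Stmt_XI) (hGRO : Stmt_GRO)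
    (a : ℤ) (ha : IsUnit (a : ZMod q)) (h1 : (a : ZMod q) ≠ 1) (hm : (a : ZMod q) ≠ -1)
    (hin : InSet q a) (x δ : ℝ) (hx : 1 ≤ x) (hδ : 0 < δ) :
    (∑ n ∈ Finset.Ioc 0 ⌊x⌋₊, Λ n * (1 - n / x) * (ca q a n).re)
      + ((∑ χ : DirichletCharacter ℂ q,
            χ⁻¹ (a : ZMod q) * conj (LSeries (fL χ) ((1 + δ : ℝ) : ℂ))).re
        - (∑ χ : DirichletCharacter ℂ q,
            χ⁻¹ (a : ZMod q) * conj (LSeries (fL χ) ((2 : ℝ) : ℂ))).re / x)
      ≤ 2 / 3 * √x * rt q a + x / 2 + Real.log x - 2 + 1 / (1 + δ) + 1 / δ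
        + 6 * δ * ∑ χ : DirichletCharacter ℂ q, |(Hc χ 2).re| := by
  have hx0 : 0 < x := by linarith
  have hu : 0 ≤ Real.log x := Real.log_nonneg hx
  have hg := (hBRI hG q a ha).1 hin (Real.log x) hu
  have hexp2 : Real.exp (Real.log x / 2) = √x := by
    rw [Real.sqrt_eq_rpow, Real.rpow_def_of_pos hx0]
    congr 1
    ring
  unfold Gc at hg
  rw [Real.exp_log hx0, hexp2] at hg
  have hsx : 0 < √x := Real.sqrt_pos.mpr hx0
  set SJ := ∑ χ : DirichletCharacter ℂ q, χ⁻¹ (a : ZMod q) * J (Hc χ) x with hSJ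
  have hg2 : -SJ.re ≤ 2 / 3 * √x * rt q a := by
    rw [Complex.div_ofReal_re, Complex.neg_re, div_le_iff₀ hsx] at hg
    linarith
  have hJ := sum_w_J hJX hCHS a ha h1 hm x hx
  have hD := sum_w_conj_H hEXPL hCHS a ha h1 hm (1 + δ) (by linarith)
  have h2 := sum_w_conj_H hEXPL hCHS a ha h1 hm 2 (by norm_num)
  rw [← hSJ] at hJ
  set L1 := ∑ χ : DirichletCharacter ℂ q, χ⁻¹ (a : ZMod q) * (Real.log χ.conductor : ℂ) with hL1
  have hL1re : L1.re ≤ 0 := hCND.2.2 q a ha h1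
  set B1 := ∑ χ : DirichletCharacter ℂ q, χ⁻¹ (a : ZMod q) * conj (Hc χ 1) with hB1
  set B2 := ∑ χ : DirichletCharacter ℂ q, χ⁻¹ (a : ZMod q) * conj (Hc χ 2) with hB2
  set Bd := ∑ χ : DirichletCharacter ℂ q, χ⁻¹ (a : ZMod q) * conj (Hc χ ((1 + δ : ℝ) : ℂ)) with hBd
  set Dd := ∑ χ : DirichletCharacter ℂ q,
            χ⁻¹ (a : ZMod q) * conj (LSeries (fL χ) ((1 + δ : ℝ) : ℂ)) with hDd
  set D2 := ∑ χ : DirichletCharacter ℂ q,
            χ⁻¹ (a : ZMod q) * conj (LSeries (fL χ) ((2 : ℝ) : ℂ)) with hD2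
  have h2' : B2 = ((1 / 2 + 1 / (2 - 1) : ℝ) : ℂ) + 1 / 2 * L1 - D2 := by
    rw [← h2, hB2]
    norm_num
  have hdiff : ‖B1 - Bd‖ ≤ 6 * δ * ∑ χ : DirichletCharacter ℂ q, |(Hc χ 2).re| := by
    rw [hB1, hBd, ← Finset.sum_sub_distrib, Finset.mul_sum]
    refine (norm_sum_le _ _).trans (Finset.sum_le_sum fun χ _ => ?_)
    rw [← mul_sub, ← map_sub, norm_mul, RCLike.norm_conj]
    have hH : Hg (Hc χ) := hGRO _ (hXI hG q χ)
    have h3 := her_step hHER (Hc χ) hH δ hδ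
    calc ‖χ⁻¹ (a : ZMod q)‖ * ‖Hc χ 1 - Hc χ ((1 + δ : ℝ) : ℂ)‖
        ≤ 1 * ‖Hc χ 1 - Hc χ ((1 + δ : ℝ) : ℂ)‖ := by
          gcongr
          exact norm_w_le χ _
      _ ≤ _ := by rw [one_mul]; exact h3
  have hre1 : B1.re ≤ Bd.re + 6 * δ * ∑ χ : DirichletCharacter ℂ q, |(Hc χ 2).re| := by
    have : (B1 - Bd).re ≤ ‖B1 - Bd‖ := Complex.re_le_norm _
    rw [Complex.sub_re] at this
    linarith
  have hreJ := congrArg Complex.re hJ
  have hreD := congrArg Complex.re hD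
  have hre2 := congrArg Complex.re h2'
  have hS : (∑ n ∈ Finset.Ioc 0 ⌊x⌋₊, ((Λ n * (1 - n / x) : ℝ) : ℂ) * ca q a n).re
      = ∑ n ∈ Finset.Ioc 0 ⌊x⌋₊, Λ n * (1 - n / x) * (ca q a n).re := by
    rw [Complex.re_sum]
    refine Finset.sum_congr rfl fun n _ => ?_
    rw [Complex.re_ofReal_mul]
  have hq1 : (1 / 2 * (1 - 1 / (x : ℂ)) * L1).re = 1 / 2 * (1 - 1 / x) * L1.re := by
    have : (1 / 2 * (1 - 1 / (x : ℂ)) : ℂ) = ((1 / 2 * (1 - 1 / x) : ℝ) : ℂ) := by push_cast; ring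
    rw [this, Complex.re_ofReal_mul]
  have hq2 : (1 / 2 * L1 : ℂ).re = 1 / 2 * L1.re := by
    have : (1 / 2 : ℂ) = ((1 / 2 : ℝ) : ℂ) := by push_cast; ring
    rw [this, Complex.re_ofReal_mul]
  simp only [Complex.add_re, Complex.sub_re, Complex.neg_re, Complex.ofReal_re,
    Complex.div_ofReal_re, hS, hq1, hq2] at hreJ hreD hre2
  set S := ∑ n ∈ Finset.Ioc 0 ⌊x⌋₊, Λ n * (1 - n / x) * (ca q a n).re with hSdef
  have hx1 : 0 ≤ 1 - 1 / x := by
    rw [sub_nonneg, div_le_one hx0]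
    exact hx
  have hL2 : (1 - 1 / x) * L1.re ≤ 0 := mul_nonpos_of_nonneg_of_nonpos hx1 hL1re
  rw [hreD] at hre1
  rw [hreJ, hre2] at hg2
  have e1 : 3 / (2 * x) = 3 / 2 * (1 / x) := by field_simp
  have e2 : (1 / 2 + 1 / (2 - 1) + 1 / 2 * L1.re - D2.re) / x
      = 3 / 2 * (1 / x) + 1 / 2 * (1 / x) * L1.re - D2.re / x := by
    field_simp
    ring
  have e3 : 1 / (1 + δ - 1) = 1 / δ := by
    congr 1
    ring
  rw [e1, e2] at hg2
  rw [e3] at hre1
  nlinarith [hg2, hre1, hL2]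

/-- The Dirichlet series part is at least any of its terms. -/
theorem D_ge (hCHR : Stmt_CHR) (a a' : ℤ) (h : (a' : ZMod q) * (a : ZMod q) = 1)
    (ha' : IsUnit (a' : ZMod q)) (x δ : ℝ) (hx : 1 ≤ x) (hδ : 0 < δ) (hδ1 : δ ≤ 1) (m : ℕ) :
    Λ m * (ca q a' m).re * ((m : ℝ) ^ (-(1 + δ)) - (m : ℝ) ^ (-(2 : ℝ)))
      ≤ (∑ χ : DirichletCharacter ℂ q,
            χ⁻¹ (a : ZMod q) * conj (LSeries (fL χ) ((1 + δ : ℝ) : ℂ))).re
        - (∑ χ : DirichletCharacter ℂ q,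
            χ⁻¹ (a : ZMod q) * conj (LSeries (fL χ) ((2 : ℝ) : ℂ))).re / x := by
  have hx0 : 0 < x := by linarith
  have hs := (hasSum_Dr a a' h (1 + δ) (by linarith)).sub
    ((hasSum_Dr a a' h 2 (by norm_num)).div_const x)
  have hc : ∀ n : ℕ, 0 ≤ Λ n * (ca q a' n).re := by
    intro n
    rcases Nat.eq_zero_or_pos n with rfl | hn
    · simp
    · exact mul_nonneg vonMangoldt_nonneg (hCHR q a' ha' n hn).2.1
  have hp : ∀ n : ℕ, 0 < n → (n : ℝ) ^ (-(2 : ℝ)) ≤ (n : ℝ) ^ (-(1 + δ)) := by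
    intro n hn
    exact Real.rpow_le_rpow_of_exponent_le (by exact_mod_cast hn) (by linarith)
  have hd : ∀ n : ℕ, (n : ℝ) ^ (-(2 : ℝ)) / x ≤ (n : ℝ) ^ (-(2 : ℝ)) := by
    intro n
    exact div_le_self (by positivity) hx
  have hnn : ∀ n : ℕ, 0 ≤ Λ n * (ca q a' n).re * (n : ℝ) ^ (-(1 + δ))
      - Λ n * (ca q a' n).re * (n : ℝ) ^ (-(2 : ℝ)) / x := by
    intro n
    rcases Nat.eq_zero_or_pos n with rfl | hn
    · simp
    · have h1 := mul_le_mul_of_nonneg_left ((hd n).trans (hp n hn)) (hc n)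
      have h2 : Λ n * (ca q a' n).re * ((n : ℝ) ^ (-(2 : ℝ)) / x)
          = Λ n * (ca q a' n).re * (n : ℝ) ^ (-(2 : ℝ)) / x := by ring
      linarith
  refine le_trans ?_ (le_hasSum hs m fun n _ => hnn n)
  have h1 := mul_le_mul_of_nonneg_left (hd m) (hc m)
  have h2 : Λ m * (ca q a' m).re * ((m : ℝ) ^ (-(2 : ℝ)) / x)
      = Λ m * (ca q a' m).re * (m : ℝ) ^ (-(2 : ℝ)) / x := by ring
  rw [mul_sub]
  linarith

theorem sum_ge (hCHR : Stmt_CHR) (a : ℤ) (ha : IsUnit (a : ZMod q)) (x : ℝ) (hx : 1 ≤ x) :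
    q.totient * psi1 q a x / x ≤ ∑ n ∈ Finset.Ioc 0 ⌊x⌋₊, Λ n * (1 - n / x) * (ca q a n).re := by
  have hx0 : 0 < x := by linarith
  unfold psi1
  rw [mul_div_assoc, Finset.sum_div, Finset.mul_sum, Finset.sum_filter]
  refine Finset.sum_le_sum fun n hn => ?_
  rw [Finset.mem_Ioc] at hn
  have hnx : (n : ℝ) ≤ x := (Nat.le_floor_iff hx0.le).mp hn.2
  have h1 : 0 ≤ 1 - (n : ℝ) / x := by
    rw [sub_nonneg, div_le_one hx0]
    exact hnx
  obtain ⟨_, hc0, _, hc⟩ := hCHR q a ha n hn.1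
  split_ifs with h
  · have hcop : n.Coprime q := by
      rw [← ZMod.isUnit_iff_coprime, h]
      exact ha
    rw [hc hcop, if_pos h]
    have : ((q.totient : ℂ)).re = (q.totient : ℝ) := Complex.natCast_re _
    rw [this]
    apply le_of_eq
    field_simp
  · exact mul_nonneg (mul_nonneg vonMangoldt_nonneg h1) hc0

theorem stmt_CRI (hBRI : Stmt_BRI) (hJX : Stmt_JX) (hEXPL : Stmt_EXPL) (hCHR : Stmt_CHR)
    (hCHS : Stmt_CHS) (hCND : Stmt_CND) (hHER : Stmt_HER) (hXI : Stmt_XI) (hGRO : Stmt_GRO)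
    (hH2 : Stmt_H2) : Stmt_CRI := by
  intro hG
  obtain ⟨C2, hC2, hH⟩ := hH2
  refine ⟨5 + 6 * C2, by positivity, ?_⟩
  intro q _ hq a ha h1 hm hin
  have hφ : (1 : ℝ) ≤ q.totient := by
    exact_mod_cast Nat.totient_pos.mpr (by omega)
  have hlog : 1 < Real.log q := by
    have h3 : (3 : ℝ) ≤ q := by exact_mod_cast hq
    have : Real.exp 1 < q := lt_of_lt_of_le Real.exp_one_lt_d9 (by linarith)
    rwa [Real.lt_log_iff_exp_lt (by linarith)]
  set R := √(q.totient * Real.log q) with hR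
  have hR2 : R ^ 2 = q.totient * Real.log q := Real.sq_sqrt (by positivity)
  have hR1 : 1 ≤ R := by
    rw [hR]
    exact Real.one_le_sqrt.mpr (by nlinarith)
  have hR0 : 0 < R := by linarith
  set δ := 1 / R with hδd
  have hδ : 0 < δ := by positivity
  have hδ1 : δ ≤ 1 := by
    rw [hδd, div_le_one hR0]
    exact hR1
  have hδR : 1 / δ = R := by rw [hδd, one_div_one_div]
  have hHq := hH q hq
  have hE : 6 * δ * ∑ χ : DirichletCharacter ℂ q, |(Hc χ 2).re| ≤ 6 * C2 * R := by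
    calc 6 * δ * ∑ χ : DirichletCharacter ℂ q, |(Hc χ 2).re|
        ≤ 6 * δ * (C2 * q.totient * Real.log q) := by gcongr
      _ = 6 * C2 * (δ * (q.totient * Real.log q)) := by ring
      _ = 6 * C2 * R := by
        rw [← hR2, hδd]
        field_simp
  have hbound : ∀ x : ℝ, 1 ≤ x →
      2 / 3 * √x * rt q a + x / 2 + Real.log x - 2 + 1 / (1 + δ) + 1 / δ
        + 6 * δ * ∑ χ : DirichletCharacter ℂ q, |(Hc χ 2).re|
      ≤ x / 2 + Real.log x + 2 / 3 * √x * rt q a + (1 + 6 * C2) * R - 1 := by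
    intro x _
    have : 1 / (1 + δ) ≤ 1 := by
      rw [div_le_one (by linarith)]
      linarith
    rw [hδR]
    linarith
  refine ⟨?_, ?_⟩
  · intro x hx
    obtain ⟨a', ha', hu'⟩ := exists_inv a ha
    have hk := key_ineq hG hBRI hJX hEXPL hCHS hCND hHER hXI hGRO a ha h1 hm hin x δ hx hδ
    have hD := D_ge hCHR a a' ha' hu' x δ hx hδ hδ1 0
    have h0 : Λ 0 * (ca q a' 0).re * (((0 : ℕ) : ℝ) ^ (-(1 + δ)) - ((0 : ℕ) : ℝ) ^ (-(2 : ℝ))) = 0 := by
      simp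
    rw [h0] at hD
    have hs := sum_ge hCHR a ha x hx
    have hb := hbound x hx
    nlinarith [hk, hD, hs, hb, hR0]
  · intro m hm0 hma
    have hma' : ((m : ℤ) : ZMod q) * (a : ZMod q) = 1 := by
      rw [Int.cast_natCast]
      exact hma
    have hum : IsUnit ((m : ℤ) : ZMod q) := IsUnit.of_mul_eq_one _ hma'
    have hk := key_ineq hG hBRI hJX hEXPL hCHS hCND hHER hXI hGRO a ha h1 hm hin 1 δ le_rfl hδ
    have hD := D_ge hCHR a (m : ℤ) hma' hum 1 δ le_rfl hδ hδ1 m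
    have hs : 0 ≤ ∑ n ∈ Finset.Ioc 0 ⌊(1 : ℝ)⌋₊, Λ n * (1 - n / (1 : ℝ)) * (ca q a n).re := by
      apply Finset.sum_nonneg
      intro n hn
      rw [Finset.mem_Ioc] at hn
      have hnx : (n : ℝ) ≤ 1 := (Nat.le_floor_iff (by norm_num)).mp hn.2
      exact mul_nonneg (mul_nonneg vonMangoldt_nonneg (by rw [div_one]; linarith))
        (hCHR q a ha n hn.1).2.1
    have hb := hbound 1 le_rfl
    have hcop : m.Coprime q := by
      rw [← ZMod.isUnit_iff_coprime]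
      simpa using hum
    have hcm : (ca q (m : ℤ) m).re = q.totient := by
      rw [(hCHR q (m : ℤ) hum m hm0).2.2.2 hcop, if_pos (by simp)]
      exact Complex.natCast_re _
    rw [hcm] at hD
    have hm1 : (1 : ℝ) ≤ m := by exact_mod_cast hm0
    have hmpos : (0 : ℝ) < m := by linarith
    have hlm : 0 ≤ Real.log m := Real.log_nonneg hm1
    -- comparison of `m^(-(1+δ))` with `1/m`
    have hpw : (1 : ℝ) / m * (1 - δ * Real.log m) ≤ (m : ℝ) ^ (-(1 + δ)) := by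
      have e1 : (m : ℝ) ^ (-(1 + δ)) = 1 / m * Real.exp (-(δ * Real.log m)) := by
        rw [neg_add, Real.rpow_add hmpos, Real.rpow_neg_one, Real.rpow_def_of_pos hmpos, one_div]
        congr 2
        ring
      rw [e1]
      have := Real.add_one_le_exp (-(δ * Real.log m))
      gcongr
      linarith
    have hp2 : (m : ℝ) ^ (-(2 : ℝ)) = 1 / (m : ℝ) ^ 2 := by
      rw [Real.rpow_neg hmpos.le]
      norm_num
    have hlog2 : Real.log m ^ 2 ≤ 4 * m := by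
      have h5 : Real.log m ≤ (m : ℝ) ^ (1 / 2 : ℝ) / (1 / 2) := Real.log_le_rpow_div hmpos.le (by norm_num)
      have h6 : ((m : ℝ) ^ (1 / 2 : ℝ)) ^ 2 = m := by
        rw [← Real.rpow_natCast, ← Real.rpow_mul hmpos.le]
        norm_num
      have h7 : 0 ≤ (m : ℝ) ^ (1 / 2 : ℝ) := by positivity
      nlinarith
    have hΛ : Λ m ≤ Real.log m := vonMangoldt_le_log
    have hΛ0 : 0 ≤ Λ m := vonMangoldt_nonneg
    have hδφ : δ * q.totient ≤ R := by
      rw [hδd, one_div_mul_eq_div, div_le_iff₀ hR0, ← sq, hR2]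
      nlinarith
    have hlast : Λ m * q.totient * (1 / m * (δ * Real.log m)) ≤ 4 * R := by
      have e2 : Λ m * q.totient * (1 / m * (δ * Real.log m))
          = (δ * q.totient) * (Λ m * Real.log m / m) := by ring
      have e3 : Λ m * Real.log m / m ≤ 4 := by
        rw [div_le_iff₀ hmpos]
        nlinarith
      have e4 : 0 ≤ Λ m * Real.log m / m := by positivity
      rw [e2]
      calc (δ * q.totient) * (Λ m * Real.log m / m) ≤ R * 4 := by
            apply mul_le_mul hδφ e3 e4 hR0.le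
        _ = _ := by ring
    have hpow := mul_le_mul_of_nonneg_left hpw (mul_nonneg hΛ0 (by linarith : (0 : ℝ) ≤ q.totient))
    rw [hp2] at hD
    have hx1 : √(1 : ℝ) = 1 := Real.sqrt_one
    rw [hx1] at hk hb
    rw [Real.log_one] at hk hb
    have : Λ m * q.totient * (1 / m - 1 / m ^ 2)
        = Λ m * q.totient * (1 / m * (1 - δ * Real.log m))
          + Λ m * q.totient * (1 / m * (δ * Real.log m)) - Λ m * q.totient * (1 / m ^ 2) := by ring
    rw [this]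
    nlinarith [hk, hD, hs, hb, hpow, hlast, hR0]

end Pool.Agent.AQ
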