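import Mathlib
import Pool.Agent.Work.MP_99218a_nt.Interface

set_option autoImplicit false

namespace Pool.Agent.AQ

open MeasureTheory

theorem dbl_finite (q : ℕ) (a : ℤ) (t : ℝ) :
    {p : ℕ | p.Prime ∧ (p : ℝ) ≤ t ∧ (p : ℤ) ≡ a [ZMOD q]}.Finite :=
  (Set.finite_Iic ⌊t⌋₊).subset fun _ hp => Nat.le_floor hp.2.1

theorem dbl_ppi_eq (q : ℕ) (a : ℤ) (t : ℝ) :
    ppi q a t = {p : ℕ | p.Prime ∧ (p : ℝ) ≤ t ∧ (p : ℤ) ≡ a [ZMOD q]}.ncard := rfl

theorem dbl_mono (q : ℕ) (a : ℤ) : Monotone fun t : ℝ => (ppi q a t : ℝ) := by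
  intro s t hst
  simp only [dbl_ppi_eq]
  have hsub : {p : ℕ | p.Prime ∧ (p : ℝ) ≤ s ∧ (p : ℤ) ≡ a [ZMOD q]}
      ⊆ {p : ℕ | p.Prime ∧ (p : ℝ) ≤ t ∧ (p : ℤ) ≡ a [ZMOD q]} :=
    fun p hp => ⟨hp.1, hp.2.1.trans hst, hp.2.2⟩
  exact_mod_cast Set.ncard_le_ncard hsub (dbl_finite q a t)

theorem dbl_le (q : ℕ) (a : ℤ) (t : ℝ) : ppi (2 * q) a t ≤ ppi q a t := by
  simp only [dbl_ppi_eq]
  refine Set.ncard_le_ncard (fun p hp => ⟨hp.1, hp.2.1, ?_⟩) (dbl_finite q a t)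
  have h := hp.2.2
  push_cast at h
  exact h.of_mul_left 2

theorem dbl_tot (q : ℕ) (hq : Odd q) : (2 * q).totient = q.totient := by
  rw [Nat.totient_mul (Nat.coprime_two_left.2 hq), Nat.totient_two, one_mul]

theorem stmt_DBL : Stmt_DBL := by
  intro q hq a _ h
  obtain ⟨x0, hx0⟩ := h
  refine ⟨max x0 0, fun x hx => ?_⟩
  have h0 : 0 ≤ x := (le_max_right _ _).trans hx
  have h1 : A1 q a x < 0 := hx0 x ((le_max_left _ _).trans hx)
  have hI1 : IntervalIntegrable (fun t : ℝ => (q.totient : ℝ) * ppi q a t - li t) volume 0 x := by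
    by_contra hn
    rw [A1, intervalIntegral.integral_undef hn] at h1
    exact lt_irrefl _ h1
  have hm : ∀ r : ℕ, IntervalIntegrable (fun t : ℝ => (q.totient : ℝ) * ppi r a t) volume 0 x :=
    fun r => ((dbl_mono r a).intervalIntegrable).const_mul _
  have hli : IntervalIntegrable li volume 0 x := by
    have := (hm q).sub hI1
    refine this.congr ?_
    intro t _
    simp
  have hI2 : IntervalIntegrable (fun t : ℝ => ((2 * q).totient : ℝ) * ppi (2 * q) a t - li t)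
      volume 0 x := by
    rw [dbl_tot q hq]
    exact (hm (2 * q)).sub hli
  refine lt_of_le_of_lt ?_ h1
  refine intervalIntegral.integral_mono_on h0 hI2 hI1 fun t _ => ?_
  rw [dbl_tot q hq]
  have h2 : (ppi (2 * q) a t : ℝ) ≤ ppi q a t := by exact_mod_cast dbl_le q a t
  have h3 : (0 : ℝ) ≤ q.totient := Nat.cast_nonneg _
  nlinarith [mul_le_mul_of_nonneg_left h2 h3]

end Pool.Agent.AQ
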