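import Pool.Agent.Work.MP_99218a_nt.Interface

set_option autoImplicit false

namespace Pool.Agent.AQ

open Filter Topology MeasureTheory

/-- DGB: the digamma part is small. -/
theorem stmt_DGB (hSHL : Stmt_SHL) (hDIG : Stmt_DIG) : Stmt_DGB := by
  intro κ hκ
  obtain ⟨hd, hb, -⟩ := hDIG
  obtain ⟨C, hC⟩ := hb (1 / 8) (by norm_num)
  have hC0 : 0 ≤ C := by
    have h1 := hC ((1 : ℝ) : ℂ) (by norm_num)
    have h2 : (0 : ℝ) < (1 + ‖((1 : ℝ) : ℂ)‖) ^ (1 / 2 : ℝ) := by positivity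
    by_contra hneg
    push Not at hneg
    have h3 := mul_neg_of_neg_of_pos hneg h2
    have h4 := norm_nonneg (Complex.digamma ((1 : ℝ) : ℂ))
    linarith
  set D : ℝ := 25 / 2 * C * (1 + κ) ^ (1 / 2 : ℝ) with hD
  have hD0 : 0 ≤ D := by positivity
  -- pointwise bound
  have key : ∀ (x : ℝ) (s : ℂ), 1 ≤ x → 1 / 4 ≤ s.re →
      ‖(1 / 2 * Complex.digamma ((s + κ) / 2)) * ((x : ℂ) ^ s * (1 / (s * (s + 1))))‖
        ≤ D * x ^ s.re * (1 + ‖s‖) ^ (-(3 / 2) : ℝ) := by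
    intro x s hx hs
    have hx0 : 0 < x := by linarith
    have hn : 1 / 4 ≤ ‖s‖ := hs.trans ((le_abs_self _).trans (Complex.abs_re_le_norm s))
    have h1 : ‖Complex.digamma ((s + κ) / 2)‖ ≤ C * ((1 + κ) ^ (1 / 2 : ℝ) * (1 + ‖s‖) ^ (1 / 2 : ℝ)) := by
      have hre : 1 / 8 ≤ ((s + κ) / 2).re := by
        have : ((s + κ) / 2).re = (s.re + κ) / 2 := by simp
        rw [this]; linarith
      refine (hC _ hre).trans ?_
      apply mul_le_mul_of_nonneg_left _ hC0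
      rw [← Real.mul_rpow (by linarith) (by positivity)]
      apply Real.rpow_le_rpow (by positivity) _ (by norm_num)
      have h2 : ‖(s + κ) / 2‖ ≤ (‖s‖ + κ) / 2 := by
        rw [norm_div, Complex.norm_ofNat]
        have h3 : ‖s + (κ : ℂ)‖ ≤ ‖s‖ + κ := by
          refine (norm_add_le _ _).trans ?_
          rw [Complex.norm_real, Real.norm_of_nonneg hκ]
        linarith
      nlinarith [norm_nonneg s, mul_nonneg hκ (norm_nonneg s)]
    have h2 : ‖(x : ℂ) ^ s‖ = x ^ s.re := Complex.norm_cpow_eq_rpow_re_of_pos hx0 s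
    have h3 : ‖(1 / (s * (s + 1)) : ℂ)‖ ≤ 25 * (1 + ‖s‖) ^ (-2 : ℝ) := by
      rw [norm_div, norm_one, norm_mul]
      have h4 : (1 + ‖s‖) / 5 ≤ ‖s‖ := by linarith
      have h5 : ‖s‖ ≤ ‖s + 1‖ := by
        rw [← sq_le_sq₀ (norm_nonneg _) (norm_nonneg _), ← Complex.normSq_eq_norm_sq,
          ← Complex.normSq_eq_norm_sq, Complex.normSq_apply, Complex.normSq_apply]
        simp
        nlinarith
      have h6 : (1 + ‖s‖) / 5 ≤ ‖s + 1‖ := h4.trans h5
      have h7 : (1 + ‖s‖) ^ (-2 : ℝ) = 1 / (1 + ‖s‖) ^ 2 := by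
        rw [Real.rpow_neg (by positivity), one_div]
        norm_num
      rw [h7]
      have h8 : (0 : ℝ) < (1 + ‖s‖) / 5 := by positivity
      have h9 : ((1 + ‖s‖) / 5) * ((1 + ‖s‖) / 5) ≤ ‖s‖ * ‖s + 1‖ :=
        mul_le_mul h4 h6 h8.le (norm_nonneg _)
      calc 1 / (‖s‖ * ‖s + 1‖) ≤ 1 / (((1 + ‖s‖) / 5) * ((1 + ‖s‖) / 5)) :=
            one_div_le_one_div_of_le (by positivity) h9
        _ = 25 * (1 / (1 + ‖s‖) ^ 2) := by
            have : (1 + ‖s‖) ≠ 0 := by positivity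
            field_simp
            norm_num
    have h10 : (1 + ‖s‖) ^ (-(3 / 2) : ℝ) = (1 + ‖s‖) ^ (1 / 2 : ℝ) * (1 + ‖s‖) ^ (-2 : ℝ) := by
      rw [← Real.rpow_add (by positivity)]
      norm_num
    rw [norm_mul, norm_mul, norm_mul, h2, h10]
    have h11 : ‖(1 / 2 : ℂ)‖ = 1 / 2 := by norm_num
    rw [h11]
    have hxp : 0 ≤ x ^ s.re := (Real.rpow_pos_of_pos hx0 _).le
    calc 1 / 2 * ‖Complex.digamma ((s + κ) / 2)‖ * (x ^ s.re * ‖(1 / (s * (s + 1)) : ℂ)‖)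
        ≤ 1 / 2 * (C * ((1 + κ) ^ (1 / 2 : ℝ) * (1 + ‖s‖) ^ (1 / 2 : ℝ))) *
            (x ^ s.re * (25 * (1 + ‖s‖) ^ (-2 : ℝ))) := by gcongr
      _ = D * x ^ s.re * ((1 + ‖s‖) ^ (1 / 2 : ℝ) * (1 + ‖s‖) ^ (-2 : ℝ)) := by rw [hD]; ring
  set K : ℝ := ∫ y : ℝ, (1 + ‖y‖) ^ (-(3 / 2) : ℝ) with hK
  have hint : Integrable (fun y : ℝ => (1 + ‖y‖) ^ (-(3 / 2) : ℝ)) :=
    integrable_one_add_norm (E := ℝ) (μ := volume) (r := 3 / 2) (by norm_num)
  refine ⟨1 / (2 * Real.pi) * (D * K), fun x hx => ?_⟩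
  have hx0 : 0 < x := by linarith
  set g : ℂ → ℂ := fun s => (1 / 2 * Complex.digamma ((s + κ) / 2)) *
    ((x : ℂ) ^ s * (1 / (s * (s + 1)))) with hg
  have hshift : ∫ y : ℝ, g (vl (1 / 4) y) = ∫ y : ℝ, g (vl 2 y) := by
    refine hSHL g (1 / 4) 2 (D * x ^ (2 : ℝ)) (by norm_num) ?_ ?_
    · intro s h1 _
      have hxc : (x : ℂ) ≠ 0 := by exact_mod_cast hx0.ne'
      have hs0 : s ≠ 0 := by
        intro h; rw [h] at h1; norm_num at h1
      have hs1 : s + 1 ≠ 0 := by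
        intro h
        have := congrArg Complex.re h
        simp at this
        linarith
      have hdig : DifferentiableAt ℂ (fun s : ℂ => Complex.digamma ((s + κ) / 2)) s := by
        apply DifferentiableAt.comp s (hd _ _) (by fun_prop)
        have : ((s + κ) / 2).re = (s.re + κ) / 2 := by simp
        rw [this]; linarith
      refine DifferentiableAt.mul (DifferentiableAt.mul (differentiableAt_const _) hdig) ?_
      refine DifferentiableAt.mul ?_ ?_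
      · exact (differentiableAt_id.const_cpow (Or.inl hxc))
      · refine DifferentiableAt.div (differentiableAt_const _) (by fun_prop) (mul_ne_zero hs0 hs1)
    · intro s h1 h2
      refine (key x s hx h1).trans ?_
      have : x ^ s.re ≤ x ^ (2 : ℝ) := Real.rpow_le_rpow_of_exponent_le hx h2
      gcongr
  have hDg : Dg κ x = ((1 / (2 * Real.pi) : ℝ) : ℂ) * ∫ y : ℝ, g (vl (1 / 4) y) := by
    rw [hshift]
    rfl
  rw [hDg, norm_mul, Complex.norm_real, Real.norm_of_nonneg (by positivity), mul_assoc]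
  have hbound : ‖∫ y : ℝ, g (vl (1 / 4) y)‖ ≤ ∫ y : ℝ, D * x ^ (1 / 4 : ℝ) * (1 + ‖y‖) ^ (-(3 / 2) : ℝ) := by
    refine norm_integral_le_of_norm_le (hint.const_mul _) ?_
    filter_upwards with y
    have hre : (vl (1 / 4) y).re = 1 / 4 := by simp [vl]
    have him : (vl (1 / 4) y).im = y := by simp [vl]
    have h1 := key x (vl (1 / 4) y) hx hre.ge
    rw [hre] at h1
    refine h1.trans ?_
    have h2 : ‖y‖ ≤ ‖vl (1 / 4) y‖ := by
      have := Complex.abs_im_le_norm (vl (1 / 4) y)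
      rwa [him] at this
    have h3 : (1 + ‖vl (1 / 4) y‖) ^ (-(3 / 2) : ℝ) ≤ (1 + ‖y‖) ^ (-(3 / 2) : ℝ) :=
      Real.rpow_le_rpow_of_nonpos (by positivity) (by linarith) (by norm_num)
    have h4 : 0 ≤ x ^ (1 / 4 : ℝ) := (Real.rpow_pos_of_pos hx0 _).le
    gcongr
  rw [integral_const_mul, ← hK] at hbound
  calc 1 / (2 * Real.pi) * ‖∫ y : ℝ, g (vl (1 / 4) y)‖
      ≤ 1 / (2 * Real.pi) * (D * x ^ (1 / 4 : ℝ) * K) := by gcongr
    _ = 1 / (2 * Real.pi) * (D * K * x ^ (1 / 4 : ℝ)) := by ring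

end Pool.Agent.AQ
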