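import Pool.Agent.Work.MP_99218a_nt.Interface

/-!
# MP_99218a_nt, block DIG

helper17
-/

set_option autoImplicit false

namespace Pool.Agent.AQ

open Filter Topology Complex
open scoped ComplexConjugate

lemma ne_neg_nat {z : ℂ} (hz : 0 < z.re) (m : ℕ) : z ≠ -(m : ℂ) := by
  intro h
  have := congrArg Complex.re h
  rw [neg_re, natCast_re] at this
  have h2 : (0 : ℝ) ≤ m := Nat.cast_nonneg m
  linarith

lemma digamma_ofReal_im (x : ℝ) : (Complex.digamma (x : ℂ)).im = 0 := by
  have h1 : deriv Complex.Gamma (x : ℂ) = conj (deriv Complex.Gamma (x : ℂ)) := by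
    by_cases hd : DifferentiableAt ℂ Complex.Gamma (x : ℂ)
    · have h2 := hd.hasDerivAt.conj_conj
      rw [Complex.conj_ofReal] at h2
      have e : (conj ∘ Complex.Gamma ∘ conj : ℂ → ℂ) = Complex.Gamma := by
        funext z
        show conj (Complex.Gamma (conj z)) = Complex.Gamma z
        rw [Complex.Gamma_conj, Complex.conj_conj]
      rw [e] at h2
      exact hd.hasDerivAt.unique h2
    · rw [deriv_zero_of_not_differentiableAt hd, map_zero]
  rw [Complex.digamma_def, logDeriv_apply, Complex.Gamma_ofReal]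
  have h3 : (deriv Complex.Gamma (x : ℂ)).im = 0 := Complex.conj_eq_iff_im.1 h1.symm
  rw [Complex.div_ofReal_im, h3, zero_div]

/-- real digamma -/
noncomputable def pr (x : ℝ) : ℝ := (Complex.digamma (x : ℂ)).re

lemma digamma_ofReal (x : ℝ) : Complex.digamma (x : ℂ) = (pr x : ℂ) := by
  apply Complex.ext
  · rw [Complex.ofReal_re]; rfl
  · rw [Complex.ofReal_im]; exact digamma_ofReal_im x

lemma hasDeriv_logGamma {x : ℝ} (hx : 0 < x) :
    HasDerivAt (Real.log ∘ Real.Gamma) (pr x) x := by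
  have hd : DifferentiableAt ℂ Complex.Gamma (x : ℂ) :=
    Complex.differentiableAt_Gamma _ (ne_neg_nat (by rwa [ofReal_re]))
  have h1 := hd.hasDerivAt.real_of_complex
  have e : (fun t : ℝ => (Complex.Gamma (t : ℂ)).re) = Real.Gamma := by
    funext t; rfl
  rw [e] at h1
  have h2 := h1.log (Real.Gamma_pos_of_pos hx).ne'
  have e2 : pr x = (deriv Complex.Gamma (x : ℂ)).re / Real.Gamma x := by
    unfold pr
    rw [Complex.digamma_def, logDeriv_apply, Complex.Gamma_ofReal, Complex.div_ofReal_re]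
  rw [e2]
  exact h2

lemma slope_logGamma {x : ℝ} (hx : 0 < x) :
    slope (Real.log ∘ Real.Gamma) x (x + 1) = Real.log x := by
  rw [slope_def_field]
  show (Real.log (Real.Gamma (x + 1)) - Real.log (Real.Gamma x)) / (x + 1 - x) = _
  rw [Real.Gamma_add_one hx.ne', Real.log_mul hx.ne' (Real.Gamma_pos_of_pos hx).ne']
  rw [show x + 1 - x = 1 by ring, div_one]
  ring

lemma pr_le_log {x : ℝ} (hx : 0 < x) : pr x ≤ Real.log x := by
  rw [← slope_logGamma hx]
  exact Real.convexOn_log_Gamma.le_slope_of_hasDerivAt hx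
    (show 0 < x + 1 by linarith) (by linarith) (hasDeriv_logGamma hx)

lemma log_le_pr {x : ℝ} (hx : 0 < x) : Real.log x ≤ pr (x + 1) := by
  rw [← slope_logGamma hx]
  exact Real.convexOn_log_Gamma.slope_le_of_hasDerivAt hx
    (show 0 < x + 1 by linarith) (by linarith) (hasDeriv_logGamma (show 0 < x + 1 by linarith))

lemma pr_add_one {x : ℝ} (hx : 0 < x) : pr (x + 1) = pr x + 1 / x := by
  have h := Complex.digamma_apply_add_one (x : ℂ) (ne_neg_nat (by rwa [ofReal_re]))
  have h2 := congrArg Complex.re h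
  rw [Complex.add_re, ← Complex.ofReal_inv, Complex.ofReal_re] at h2
  unfold pr
  push_cast
  rw [h2, one_div]

lemma pr_ge {x : ℝ} (hx : 0 < x) : Real.log x - 1 / x ≤ pr x := by
  have h1 := log_le_pr hx
  rw [pr_add_one hx] at h1
  linarith

lemma log_trap {x : ℝ} (hx : 0 < x) :
    Real.log (x + 1) - Real.log x ≤ 1 / 2 * (1 / x + 1 / (x + 1)) := by
  have hx1 : 0 < x + 1 := by linarith
  rw [← Real.log_div hx1.ne' hx.ne']
  have hy : 0 < (x + 1) / x := div_pos hx1 hx
  have h0 : 0 ≤ Real.log ((x + 1) / x) := by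
    apply Real.log_nonneg
    rw [le_div_iff₀ hx]; linarith
  have h1 := Real.self_le_sinh_iff.2 h0
  rw [Real.sinh_log hy] at h1
  refine h1.trans (le_of_eq ?_)
  rw [inv_div]
  field_simp
  ring

lemma pr_shift {x : ℝ} (hx : 0 < x) (n : ℕ) :
    pr x - Real.log x + 1 / (2 * x) ≤ pr (x + n) - Real.log (x + n) + 1 / (2 * (x + n)) := by
  induction n with
  | zero => simp
  | succ n ih =>
    have hn : (0 : ℝ) ≤ n := Nat.cast_nonneg n
    have hxn : 0 < x + n := by linarith
    have h1 := log_trap hxn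
    have h2 := pr_add_one hxn
    have e : x + ((n + 1 : ℕ) : ℝ) = x + n + 1 := by push_cast; ring
    rw [e, h2]
    have hxn1 : 0 < x + n + 1 := by linarith
    have e1 : 1 / (2 * (x + n)) = 1 / 2 * (1 / (x + n)) := by rw [one_div_mul_one_div]
    have e2 : 1 / (2 * (x + n + 1)) = 1 / 2 * (1 / (x + n + 1)) := by rw [one_div_mul_one_div]
    rw [e1] at ih
    rw [e2]
    linarith

lemma pr_upper {x : ℝ} (hx : 0 < x) : pr x ≤ Real.log x - 1 / (2 * x) := by
  have h : ∀ n : ℕ, pr x - Real.log x + 1 / (2 * x) ≤ 1 / ((n : ℝ) + 1) := by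
    intro n
    have hn : (0 : ℝ) ≤ n := Nat.cast_nonneg n
    have h1 := pr_shift hx (n + 1)
    push_cast at h1
    have hxn : 0 < x + (n + 1) := by linarith
    have h2 := pr_le_log hxn
    have h3 : 1 / (2 * (x + (n + 1))) ≤ 1 / ((n : ℝ) + 1) := by
      apply one_div_le_one_div_of_le (by linarith)
      nlinarith
    linarith
  have h4 := ge_of_tendsto' tendsto_one_div_add_atTop_nhds_zero_nat h
  linarith

/-! ### the series -/

/-- terms -/
noncomputable def tm (n : ℕ) (z : ℂ) : ℂ := 1 / ((n : ℂ) + 1) - 1 / ((n : ℂ) + z)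

lemma tm_bound {δ : ℝ} (hδ : 0 < δ) {z : ℂ} (hz : δ ≤ z.re) (n : ℕ) :
    ‖tm n z‖ ≤ 2 * (1 + δ) / δ * √(1 + ‖z‖) * (1 / (((n : ℝ) + 1) * √((n : ℝ) + 1))) := by
  have hn : (0 : ℝ) ≤ n := Nat.cast_nonneg n
  have hz0 : 0 ≤ ‖z‖ := norm_nonneg z
  have hzδ : δ ≤ ‖z‖ := hz.trans (Complex.re_le_norm z)
  set N := ‖(n : ℂ) + z‖ with hN
  have h1 : (n : ℝ) + δ ≤ N := by
    refine le_trans ?_ (Complex.re_le_norm _)
    rw [add_re, natCast_re]; linarith
  have h2 : ‖z‖ ≤ N := by
    rw [hN, Complex.norm_def, Complex.norm_def]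
    apply Real.sqrt_le_sqrt
    rw [Complex.normSq_apply, Complex.normSq_apply, add_re, natCast_re, add_im, natCast_im, zero_add]
    nlinarith
  have hNpos : 0 < N := by linarith
  have hne : (n : ℂ) + z ≠ 0 := by
    intro h; rw [h, norm_zero] at hN; linarith
  have hne1 : (n : ℂ) + 1 ≠ 0 := Nat.cast_add_one_ne_zero n
  have e : tm n z = (z - 1) / (((n : ℂ) + 1) * ((n : ℂ) + z)) := by
    unfold tm; field_simp; ring
  have e3 : ‖((n : ℂ) + 1)‖ = (n : ℝ) + 1 := by
    have : ((n : ℂ) + 1) = ((n + 1 : ℕ) : ℂ) := by push_cast; ring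
    rw [this, Complex.norm_natCast]; push_cast; ring
  rw [e, norm_div, norm_mul, e3]
  have h4 : ‖z - 1‖ ≤ 1 + ‖z‖ := by
    have := norm_sub_le z 1
    rw [norm_one] at this; linarith
  set a := √((n : ℝ) + 1) with ha
  set b := √(1 + ‖z‖) with hb
  have ha2 : a * a = (n : ℝ) + 1 := Real.mul_self_sqrt (by linarith)
  have hb2 : b * b = 1 + ‖z‖ := Real.mul_self_sqrt (by linarith)
  have ha0 : 0 < a := Real.sqrt_pos.2 (by linarith)
  have hb0 : 0 < b := Real.sqrt_pos.2 (by linarith)
  have hab : a * b * δ ≤ 2 * (1 + δ) * N := by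
    have h5 : a * b ≤ (n : ℝ) + 1 + ‖z‖ := by nlinarith [sq_nonneg (a - b)]
    have h6 : ((n : ℝ) + 1 + ‖z‖) * δ ≤ (1 + δ) * ((n : ℝ) + ‖z‖) := by nlinarith
    have h7 : (n : ℝ) + ‖z‖ ≤ 2 * N := by linarith
    have h8 := mul_le_mul_of_nonneg_right h5 hδ.le
    have h9 := mul_le_mul_of_nonneg_left h7 (show 0 ≤ 1 + δ by linarith)
    linarith
  have hn1 : 0 < (n : ℝ) + 1 := by linarith
  calc ‖z - 1‖ / (((n : ℝ) + 1) * N) ≤ (b * b) / (((n : ℝ) + 1) * N) := by
        rw [hb2]; gcongr
    _ ≤ 2 * (1 + δ) / δ * b * (1 / (((n : ℝ) + 1) * a)) := by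
        rw [div_le_iff₀ (by positivity)]
        have e5 : 2 * (1 + δ) / δ * b * (1 / (((n : ℝ) + 1) * a)) * (((n : ℝ) + 1) * N) =
          b * (2 * (1 + δ) * N) / (δ * a) := by field_simp
        rw [e5, le_div_iff₀ (by positivity)]
        have := mul_le_mul_of_nonneg_left hab hb0.le
        calc b * b * (δ * a) = b * (a * b * δ) := by ring
          _ ≤ _ := this

lemma sum_three_halves : Summable (fun n : ℕ => 1 / (((n : ℝ) + 1) * √((n : ℝ) + 1))) := by
  have h := (summable_nat_add_iff 1).2 (Real.summable_one_div_nat_rpow.2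
    (show (1 : ℝ) < 3 / 2 by norm_num))
  refine h.congr fun n => ?_
  have hn : (0 : ℝ) < (n : ℝ) + 1 := by positivity
  push_cast
  rw [show (3 / 2 : ℝ) = 1 + 1 / 2 by norm_num, Real.rpow_add hn, Real.rpow_one, Real.sqrt_eq_rpow]

lemma tm_summable {z : ℂ} (hz : 0 < z.re) : Summable (fun n => tm n z) := by
  apply Summable.of_norm_bounded (sum_three_halves.mul_left
    (2 * (1 + z.re) / z.re * √(1 + ‖z‖)))
  exact fun n => tm_bound hz le_rfl n

lemma diff_tsum {z : ℂ} (hz : 0 < z.re) : DifferentiableAt ℂ (fun w => ∑' n, tm n w) z := by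
  set δ := z.re / 2 with hδ
  have hδ0 : 0 < δ := by rw [hδ]; linarith
  set R := ‖z‖ + 1 with hR
  set U : Set ℂ := {w | δ < w.re} ∩ {w | ‖w‖ < R} with hU
  have hUo : IsOpen U :=
    (isOpen_lt continuous_const Complex.continuous_re).inter (isOpen_lt continuous_norm continuous_const)
  have hzU : z ∈ U := ⟨by show δ < z.re; rw [hδ]; linarith, by show ‖z‖ < R; rw [hR]; linarith⟩
  have h := differentiableOn_tsum_of_summable_norm (F := tm)
    (sum_three_halves.mul_left (2 * (1 + δ) / δ * √(1 + R))) (fun n => ?_) hUo ?_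
  · exact h.differentiableAt (hUo.mem_nhds hzU)
  · intro w hw
    have hw' : δ < w.re := hw.1
    have hn : (0 : ℝ) ≤ n := Nat.cast_nonneg n
    have hne : (n : ℂ) + w ≠ 0 := by
      intro h
      have := congrArg Complex.re h
      rw [add_re, natCast_re, zero_re] at this
      linarith
    apply DifferentiableAt.differentiableWithinAt
    unfold tm
    refine (differentiableAt_const _).sub ((differentiableAt_const _).div ?_ hne)
    exact (differentiableAt_const _).add differentiableAt_id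
  · intro n w hw
    refine (tm_bound hδ0 (le_of_lt hw.1) n).trans ?_
    have hw2 : ‖w‖ < R := hw.2
    gcongr

lemma pr_sub {x : ℝ} (hx : 0 < x) (n : ℕ) :
    pr (x + n) = pr x + ∑ k ∈ Finset.range n, 1 / ((k : ℝ) + x) := by
  induction n with
  | zero => simp
  | succ n ih =>
    have hn : (0 : ℝ) ≤ n := Nat.cast_nonneg n
    have e : x + ((n + 1 : ℕ) : ℝ) = x + n + 1 := by push_cast; ring
    rw [e, pr_add_one (show 0 < x + n by linarith), ih, Finset.sum_range_succ, add_comm (n : ℝ) x]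
    ring

lemma tendsto_log_sub (x : ℝ) (hx : 0 < x) :
    Tendsto (fun n : ℕ => pr (x + n) - Real.log n) atTop (𝓝 0) := by
  have h1 : Tendsto (fun n : ℕ => Real.log (x + n) - Real.log n) atTop (𝓝 0) := by
    have h2 : Tendsto (fun n : ℕ => Real.log (1 + x / n)) atTop (𝓝 (Real.log (1 + 0))) := by
      refine (Real.continuousAt_log (by norm_num)).tendsto.comp ?_
      exact tendsto_const_nhds.add (tendsto_const_div_atTop_nhds_zero_nat x)
    rw [add_zero, Real.log_one] at h2
    refine h2.congr' ?_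
    filter_upwards [eventually_gt_atTop 0] with n hn
    have hn' : (0 : ℝ) < n := Nat.cast_pos.2 hn
    rw [← Real.log_div (by positivity) hn'.ne']
    congr 1
    field_simp
    ring
  have h3 : Tendsto (fun n : ℕ => pr (x + n) - Real.log (x + n)) atTop (𝓝 0) := by
    have h4 : Tendsto (fun n : ℕ => -(1 / (x + (n : ℝ)))) atTop (𝓝 (-0)) := by
      apply Tendsto.neg
      have h5 : Tendsto (fun n : ℕ => x + (n : ℝ)) atTop atTop :=
        tendsto_atTop_add_const_left _ _ tendsto_natCast_atTop_atTop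
      refine h5.inv_tendsto_atTop.congr fun n => ?_
      rw [Pi.inv_apply, one_div]
    rw [neg_zero] at h4
    refine tendsto_of_tendsto_of_tendsto_of_le_of_le h4 tendsto_const_nhds (fun n => ?_)
      (fun n => ?_)
    · have hn : (0 : ℝ) ≤ n := Nat.cast_nonneg n
      have := pr_ge (show 0 < x + n by linarith)
      show -(1 / (x + (n : ℝ))) ≤ _
      linarith
    · have hn : (0 : ℝ) ≤ n := Nat.cast_nonneg n
      have := pr_le_log (show 0 < x + n by linarith)
      show pr (x + n) - Real.log (x + n) ≤ 0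
      linarith
  have := h3.add h1
  rw [add_zero] at this
  refine this.congr fun n => ?_
  ring

lemma series_real {x : ℝ} (hx : 0 < x) :
    Complex.digamma (x : ℂ) = Complex.digamma 1 + ∑' n, tm n (x : ℂ) := by
  have hs : Summable (fun n => tm n (x : ℂ)) := tm_summable (by rwa [ofReal_re])
  have h1 := hs.hasSum.tendsto_sum_nat
  have h2 : Tendsto (fun n : ℕ => ((pr x - pr 1 + (pr (1 + n) - Real.log n) -
      (pr (x + n) - Real.log n) : ℝ) : ℂ)) atTop (𝓝 ((pr x - pr 1 + 0 - 0 : ℝ) : ℂ)) := by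
    refine (Complex.continuous_ofReal.tendsto _).comp ?_
    exact (tendsto_const_nhds.add (tendsto_log_sub 1 one_pos)).sub (tendsto_log_sub x hx)
  have h3 : (fun n : ℕ => ((pr x - pr 1 + (pr (1 + n) - Real.log n) -
      (pr (x + n) - Real.log n) : ℝ) : ℂ)) = fun n => ∑ k ∈ Finset.range n, tm k (x : ℂ) := by
    funext n
    rw [pr_sub one_pos, pr_sub hx]
    have : ∀ k ∈ Finset.range n, tm k (x : ℂ) =
        ((1 / ((k : ℝ) + 1) - 1 / ((k : ℝ) + x) : ℝ) : ℂ) := by
      intro k _
      unfold tm; push_cast; ring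
    rw [Finset.sum_congr rfl this, ← Complex.ofReal_sum, Finset.sum_sub_distrib]
    congr 1
    ring
  rw [h3] at h2
  have h4 := tendsto_nhds_unique h1 h2
  rw [h4, digamma_ofReal]
  have e1 : Complex.digamma 1 = (pr 1 : ℂ) := by
    have := digamma_ofReal 1
    rwa [ofReal_one] at this
  rw [e1]
  push_cast
  ring

lemma diff_digamma {z : ℂ} (hz : 0 < z.re) : DifferentiableAt ℂ Complex.digamma z := by
  have hU : IsOpen {w : ℂ | 0 < w.re} := isOpen_lt continuous_const Complex.continuous_re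
  have hd : DifferentiableOn ℂ Complex.Gamma {w : ℂ | 0 < w.re} := fun w hw =>
    (Complex.differentiableAt_Gamma w (ne_neg_nat hw)).differentiableWithinAt
  have hd2 := hd.deriv hU
  have e : Complex.digamma = fun w => deriv Complex.Gamma w / Complex.Gamma w := by
    funext w; rw [Complex.digamma_def, logDeriv_apply]
  rw [e]
  have h1 := (hd2 z hz).differentiableAt (hU.mem_nhds hz)
  have h2 := Complex.differentiableAt_Gamma z (ne_neg_nat hz)
  exact h1.div h2 (Complex.Gamma_ne_zero (ne_neg_nat hz))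

lemma series {z : ℂ} (hz : 0 < z.re) :
    Complex.digamma z = Complex.digamma 1 + ∑' n, tm n z := by
  have hU : IsOpen {w : ℂ | 0 < w.re} := isOpen_lt continuous_const Complex.continuous_re
  have hc : IsPreconnected {w : ℂ | 0 < w.re} := (convex_halfSpace_re_gt 0).isPreconnected
  have hf : AnalyticOnNhd ℂ Complex.digamma {w : ℂ | 0 < w.re} :=
    DifferentiableOn.analyticOnNhd (fun w hw => (diff_digamma hw).differentiableWithinAt) hU
  have hg : AnalyticOnNhd ℂ (fun w => Complex.digamma 1 + ∑' n, tm n w) {w : ℂ | 0 < w.re} :=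
    DifferentiableOn.analyticOnNhd (fun w hw =>
      ((differentiableAt_const _).add (diff_tsum hw)).differentiableWithinAt) hU
  have h1 : (1 : ℂ) ∈ {w : ℂ | 0 < w.re} := by show (0 : ℝ) < (1 : ℂ).re; simp
  have hev : ∃ᶠ w in 𝓝[≠] (1 : ℂ), Complex.digamma w = Complex.digamma 1 + ∑' n, tm n w := by
    have ht : Tendsto (fun n : ℕ => ((1 + 1 / ((n : ℝ) + 1) : ℝ) : ℂ)) atTop (𝓝[≠] (1 : ℂ)) := by
      rw [tendsto_nhdsWithin_iff]
      constructor
      · have := (Complex.continuous_ofReal.tendsto (1 + 0 : ℝ)).comp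
          ((tendsto_const_nhds (x := (1 : ℝ)) (f := atTop (α := ℕ))).add
            tendsto_one_div_add_atTop_nhds_zero_nat)
        rw [add_zero, Complex.ofReal_one] at this
        exact this
      · filter_upwards with n
        intro h
        have h2 : ((1 + 1 / ((n : ℝ) + 1) : ℝ) : ℂ) = ((1 : ℝ) : ℂ) := by
          rw [h, Complex.ofReal_one]
        have h3 := Complex.ofReal_injective h2
        have h4 : 0 < 1 / ((n : ℝ) + 1) := by positivity
        linarith
    refine ht.frequently (Eventually.frequently ?_)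
    filter_upwards with n
    exact series_real (by positivity)
  exact hf.eqOn_of_preconnected_of_frequently_eq hg hc h1 hev hz

theorem stmt_DIG : Stmt_DIG := by
  refine ⟨fun z hz => diff_digamma hz, ?_, ?_⟩
  · intro δ hδ
    set S := ∑' n : ℕ, 1 / (((n : ℝ) + 1) * √((n : ℝ) + 1)) with hS
    refine ⟨‖Complex.digamma 1‖ + 2 * (1 + δ) / δ * S, fun z hz => ?_⟩
    have hz0 : 0 < z.re := by linarith
    rw [series hz0, ← Real.sqrt_eq_rpow]
    have h1 : ‖∑' n, tm n z‖ ≤ 2 * (1 + δ) / δ * √(1 + ‖z‖) * S := by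
      rw [hS, ← tsum_mul_left]
      exact tsum_of_norm_bounded (sum_three_halves.mul_left _).hasSum (fun n => tm_bound hδ hz n)
    have h2 : 1 ≤ √(1 + ‖z‖) := by
      rw [Real.one_le_sqrt]
      linarith [norm_nonneg z]
    have h3 := norm_add_le (Complex.digamma 1) (∑' n, tm n z)
    have h4 : ‖Complex.digamma 1‖ ≤ ‖Complex.digamma 1‖ * √(1 + ‖z‖) :=
      le_mul_of_one_le_right (norm_nonneg _) h2
    calc _ ≤ ‖Complex.digamma 1‖ * √(1 + ‖z‖) + 2 * (1 + δ) / δ * √(1 + ‖z‖) * S := by linarith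
      _ = _ := by ring
  · intro x hx
    exact ⟨digamma_ofReal_im x, pr_ge hx, pr_upper hx⟩

end Pool.Agent.AQ
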