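import Mathlib
import Pool.Agent.Work.MP_99218a_nt.Interface

/-!
# MP_99218a_nt, block END: the twisted sum of the logarithmic derivatives is not constant
-/

set_option autoImplicit false

namespace Pool.Agent.AQ

open Filter Topology ArithmeticFunction
open scoped ComplexConjugate Classical

/-- Decay of the Dirichlet series of a bounded multiple of `Λ`. -/
theorem end_LSeries {f : ℕ → ℂ} (hf : ∀ n, ‖f n‖ ≤ 1) {s : ℝ} (hs : 2 ≤ s) :
    ‖LSeries (fun n => (Λ n : ℂ) * f n) (s : ℂ)‖ ≤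
      (∑' n : ℕ, ‖LSeries.term (fun n => (Λ n : ℂ)) 2 n‖) * (2 : ℝ) ^ (2 - s) := by
  have hsum : Summable fun n : ℕ => ‖LSeries.term (fun n => (Λ n : ℂ)) 2 n‖ :=
    (ArithmeticFunction.LSeriesSummable_vonMangoldt (s := 2) (by norm_num)).norm
  refine tsum_of_norm_bounded (hsum.hasSum.mul_right _) fun n => ?_
  rcases Nat.lt_or_ge n 2 with hn | hn
  · interval_cases n
    · simp
    · simp [LSeries.term]
  · have hn0 : n ≠ 0 := by omega
    have hn1 : (0 : ℝ) < n := by positivity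
    rw [LSeries.norm_term_eq, LSeries.norm_term_eq, if_neg hn0, if_neg hn0, norm_mul]
    have h2 : (2 : ℂ).re = 2 := rfl
    rw [Complex.ofReal_re, h2]
    have e1 : (n : ℝ) ^ s = (n : ℝ) ^ (2 : ℝ) * (n : ℝ) ^ (s - 2) := by
      rw [← Real.rpow_add hn1]; congr 1; ring
    have e2 : (2 : ℝ) ^ (s - 2) ≤ (n : ℝ) ^ (s - 2) :=
      Real.rpow_le_rpow (by norm_num) (by exact_mod_cast hn) (by linarith)
    have e3 : (2 : ℝ) ^ (2 - s) = ((2 : ℝ) ^ (s - 2))⁻¹ := by
      rw [← Real.rpow_neg (by norm_num)]; congr 1; ring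
    have e4 : ((n : ℝ) ^ (s - 2))⁻¹ ≤ ((2 : ℝ) ^ (s - 2))⁻¹ :=
      inv_anti₀ (by positivity) e2
    rw [e1, e3, div_eq_mul_inv, mul_inv, ← mul_assoc, div_eq_mul_inv]
    refine mul_le_mul (mul_le_mul_of_nonneg_right
      (mul_le_of_le_one_right (norm_nonneg _) (hf n)) (by positivity)) e4 (by positivity) (by positivity)

/-- A cubic polynomial which tends to `0` at infinity. -/
theorem end_poly {a b c d : ℂ}
    (h : Tendsto (fun s : ℝ => a * (s : ℂ) ^ 3 + b * (s : ℂ) ^ 2 + c * (s : ℂ) + d) atTop (𝓝 0)) :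
    a = 0 ∧ b = 0 ∧ c = 0 ∧ d = 0 := by
  have inv : Tendsto (fun s : ℝ => ((s : ℂ))⁻¹) atTop (𝓝 0) := by
    have := (Complex.continuous_ofReal.tendsto 0).comp tendsto_inv_atTop_zero
    simpa [Function.comp_def] using this
  have hne : ∀ᶠ s : ℝ in atTop, (s : ℂ) ≠ 0 := by
    filter_upwards [eventually_gt_atTop (0 : ℝ)] with s hs
    exact_mod_cast hs.ne'
  have inv2 : Tendsto (fun s : ℝ => ((s : ℂ))⁻¹ ^ 2) atTop (𝓝 0) := by simpa using inv.pow 2
  have inv3 : Tendsto (fun s : ℝ => ((s : ℂ))⁻¹ ^ 3) atTop (𝓝 0) := by simpa using inv.pow 3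
  have ha : a = 0 := by
    have h1 : Tendsto (fun s : ℝ => (a * (s : ℂ) ^ 3 + b * (s : ℂ) ^ 2 + c * (s : ℂ) + d)
        * ((s : ℂ))⁻¹ ^ 3) atTop (𝓝 0) := by simpa using h.mul inv3
    have h2 : Tendsto (fun s : ℝ => a + b * ((s : ℂ))⁻¹ + c * ((s : ℂ))⁻¹ ^ 2
        + d * ((s : ℂ))⁻¹ ^ 3) atTop (𝓝 (a + b * 0 + c * 0 + d * 0)) :=
      (((tendsto_const_nhds.add (inv.const_mul b)).add (inv2.const_mul c)).add (inv3.const_mul d))
    have h3 := h1.congr' (f₂ := fun s : ℝ => a + b * ((s : ℂ))⁻¹ + c * ((s : ℂ))⁻¹ ^ 2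
        + d * ((s : ℂ))⁻¹ ^ 3) (by
      filter_upwards [hne] with s hs
      field_simp)
    simpa using (tendsto_nhds_unique h3 h2).symm
  subst ha
  have hb : b = 0 := by
    have h1 : Tendsto (fun s : ℝ => (0 * (s : ℂ) ^ 3 + b * (s : ℂ) ^ 2 + c * (s : ℂ) + d)
        * ((s : ℂ))⁻¹ ^ 2) atTop (𝓝 0) := by simpa using h.mul inv2
    have h2 : Tendsto (fun s : ℝ => b + c * ((s : ℂ))⁻¹ + d * ((s : ℂ))⁻¹ ^ 2)
        atTop (𝓝 (b + c * 0 + d * 0)) :=
      ((tendsto_const_nhds.add (inv.const_mul c)).add (inv2.const_mul d))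
    have h3 := h1.congr' (f₂ := fun s : ℝ => b + c * ((s : ℂ))⁻¹ + d * ((s : ℂ))⁻¹ ^ 2) (by
      filter_upwards [hne] with s hs
      field_simp
      ring)
    simpa using (tendsto_nhds_unique h3 h2).symm
  subst hb
  have hc : c = 0 := by
    have h1 : Tendsto (fun s : ℝ => (0 * (s : ℂ) ^ 3 + 0 * (s : ℂ) ^ 2 + c * (s : ℂ) + d)
        * ((s : ℂ))⁻¹) atTop (𝓝 0) := by simpa using h.mul inv
    have h2 : Tendsto (fun s : ℝ => c + d * ((s : ℂ))⁻¹) atTop (𝓝 (c + d * 0)) :=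
      (tendsto_const_nhds.add (inv.const_mul d))
    have h3 := h1.congr' (f₂ := fun s : ℝ => c + d * ((s : ℂ))⁻¹) (by
      filter_upwards [hne] with s hs
      field_simp
      ring)
    simpa using (tendsto_nhds_unique h3 h2).symm
  subst hc
  refine ⟨rfl, rfl, rfl, ?_⟩
  have h3 := h.congr (f₂ := fun _ : ℝ => d) (by intro s; ring)
  exact tendsto_nhds_unique tendsto_const_nhds h3

theorem end_pow_decay (k : ℕ) : Tendsto (fun s : ℝ => s ^ k * (2 : ℝ) ^ (2 - s)) atTop (𝓝 0) := by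
  have h := tendsto_rpow_mul_exp_neg_mul_atTop_nhds_zero (k : ℝ) (Real.log 2) (Real.log_pos (by norm_num))
  have h4 : Tendsto (fun s : ℝ => 4 * (s ^ (k : ℝ) * Real.exp (-Real.log 2 * s))) atTop (𝓝 0) := by
    simpa using h.const_mul 4
  refine h4.congr fun s => ?_
  rw [Real.rpow_natCast, Real.rpow_sub (by norm_num), Real.rpow_def_of_pos (by norm_num) s]
  rw [show -Real.log 2 * s = -(Real.log 2 * s) by ring, Real.exp_neg]
  norm_num
  ring

theorem stmt_END (hE : Stmt_EXPL) (hS : Stmt_CHS) : Stmt_END := by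
  intro q _ a ha ha1 K hK
  set D : ℝ → ℂ := fun s => ∑ χ : DirichletCharacter ℂ q, χ⁻¹ (a : ZMod q) *
    LSeries (fun n => (Λ n : ℂ) * χ.primitiveCharacter (n : ZMod χ.conductor)) (s : ℂ) with hD
  set K1 : ℂ := ∑ χ : DirichletCharacter ℂ q, χ⁻¹ (a : ZMod q) *
    (1 / 2 * (Real.log (χ.conductor / Real.pi) : ℂ)) with hK1
  set e : ℂ := (q.totient / 2 : ℂ) * (if (a : ZMod q) = -1 then 1 else 0) with he
  obtain ⟨hS1, hS2⟩ := hS q a ha
  rw [if_neg ha1] at hS1 hS2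
  have key : ∀ s : ℝ, 1 < s → D s = 1 / (s : ℂ) + 1 / ((s : ℂ) - 1) + K1 - K
      + e / 2 * (Complex.digamma ((s : ℂ) / 2) - Complex.digamma (((s : ℂ) + 1) / 2)) := by
    intro s hs
    have h0 := hK s hs
    have hterm : ∀ χ : DirichletCharacter ℂ q, χ⁻¹ (a : ZMod q) * Hc χ (s : ℂ)
        = (if χ = 1 then (1 / (s : ℂ) + 1 / ((s : ℂ) - 1)) else 0)
          + χ⁻¹ (a : ZMod q) * (1 / 2 * (Real.log (χ.conductor / Real.pi) : ℂ))
          + (1 / 2 * Complex.digamma ((s : ℂ) / 2)) * (if χ.Even then χ⁻¹ (a : ZMod q) else 0)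
          + (1 / 2 * Complex.digamma (((s : ℂ) + 1) / 2)) * (if χ.Even then 0 else χ⁻¹ (a : ZMod q))
          - χ⁻¹ (a : ZMod q) *
            LSeries (fun n => (Λ n : ℂ) * χ.primitiveCharacter (n : ZMod χ.conductor)) (s : ℂ) := by
      intro χ
      rw [hE q χ (s : ℂ) (by simpa using hs)]
      have hpr : χ⁻¹ (a : ZMod q) * (if χ = 1 then (1 / (s : ℂ) + 1 / ((s : ℂ) - 1)) else 0)
          = (if χ = 1 then (1 / (s : ℂ) + 1 / ((s : ℂ) - 1)) else 0) := by
        split_ifs with h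
        · subst h
          rw [inv_one, MulChar.one_apply ha, one_mul]
        · simp
      have hev : χ⁻¹ (a : ZMod q) * (1 / 2 * Complex.digamma (((s : ℂ) + kap χ) / 2))
          = (1 / 2 * Complex.digamma ((s : ℂ) / 2)) * (if χ.Even then χ⁻¹ (a : ZMod q) else 0)
          + (1 / 2 * Complex.digamma (((s : ℂ) + 1) / 2))
            * (if χ.Even then 0 else χ⁻¹ (a : ZMod q)) := by
        unfold kap
        split_ifs <;> simp <;> ring
      rw [mul_sub, mul_add, mul_add, hpr, hev]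
      ring
    simp only [hterm] at h0
    rw [Finset.sum_sub_distrib, Finset.sum_add_distrib, Finset.sum_add_distrib,
      Finset.sum_add_distrib, ← Finset.mul_sum, ← Finset.mul_sum, hS1, hS2,
      Finset.sum_ite_eq' Finset.univ (1 : DirichletCharacter ℂ q) (fun _ => (1 / (s : ℂ) + 1 / ((s : ℂ) - 1))),
      if_pos (Finset.mem_univ _)] at h0
    have h1 : D s = (1 / (s : ℂ) + 1 / ((s : ℂ) - 1)) + K1
        + 1 / 2 * Complex.digamma ((s : ℂ) / 2) *
          ((q.totient / 2 : ℂ) * (0 + (if (a : ZMod q) = -1 then 1 else 0)))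
        + 1 / 2 * Complex.digamma (((s : ℂ) + 1) / 2) *
          ((q.totient / 2 : ℂ) * (0 - (if (a : ZMod q) = -1 then 1 else 0))) - K := by
      rw [← h0, hD, hK1]
      ring
    rw [h1, he]
    ring
  -- the sum of the values at `s` and `s + 1`
  have key2 : ∀ s : ℝ, 1 < s → (D s + D (s + 1)) * ((s : ℂ) * ((s : ℂ) ^ 2 - 1))
      = (2 * (K1 - K)) * (s : ℂ) ^ 3 + (4 - e) * (s : ℂ) ^ 2 + (-(2 * (K1 - K))) * (s : ℂ)
        + (e - 2) := by
    intro s hs
    rw [key s hs, key (s + 1) (by linarith)]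
    have hs0 : (s : ℂ) ≠ 0 := by
      have : s ≠ 0 := by linarith
      exact_mod_cast this
    have hs1 : (s : ℂ) - 1 ≠ 0 := by
      have : s - 1 ≠ 0 := by linarith
      exact_mod_cast this
    have hs2 : (s : ℂ) + 1 ≠ 0 := by
      have : s + 1 ≠ 0 := by linarith
      exact_mod_cast this
    have hdig : Complex.digamma ((((s + 1 : ℝ) : ℂ) + 1) / 2)
        = Complex.digamma ((s : ℂ) / 2) + ((s : ℂ) / 2)⁻¹ := by
      rw [← Complex.digamma_apply_add_one]
      · congr 1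
        push_cast
        ring
      · intro m hm
        have h5 := congrArg Complex.re hm
        have h6 : ((s : ℂ) / 2).re = s / 2 := by
          rw [show (s : ℂ) / 2 = ((s / 2 : ℝ) : ℂ) by push_cast; ring, Complex.ofReal_re]
        rw [h6] at h5
        simp at h5
        have : (0 : ℝ) ≤ m := Nat.cast_nonneg m
        linarith
    rw [hdig]
    push_cast
    have hs3 : (s : ℂ) + 1 - 1 ≠ 0 := by simpa using hs0
    field_simp
    ring
  -- decay
  set M0 : ℝ := ∑' n : ℕ, ‖LSeries.term (fun n => (Λ n : ℂ)) 2 n‖ with hM0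
  set N : ℝ := (Fintype.card (DirichletCharacter ℂ q) : ℝ) with hN
  have hM0n : 0 ≤ M0 := tsum_nonneg fun n => norm_nonneg _
  have hDb : ∀ s : ℝ, 2 ≤ s → ‖D s‖ ≤ N * (M0 * (2 : ℝ) ^ (2 - s)) := by
    intro s hs
    refine (norm_sum_le _ _).trans ?_
    refine (Finset.sum_le_sum (g := fun _ => M0 * (2 : ℝ) ^ (2 - s)) fun χ _ => ?_).trans ?_
    · rw [norm_mul]
      refine (mul_le_of_le_one_left (norm_nonneg _) (DirichletCharacter.norm_le_one _ _)).trans ?_
      exact end_LSeries (fun n => DirichletCharacter.norm_le_one _ _) hs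
    · rw [Finset.sum_const, nsmul_eq_mul]
      simp [hN]
  have hlim : Tendsto (fun s : ℝ => (D s + D (s + 1)) * ((s : ℂ) * ((s : ℂ) ^ 2 - 1)))
      atTop (𝓝 0) := by
    have hz : Tendsto (fun s : ℝ => (2 * N * M0) * (s ^ 3 * (2 : ℝ) ^ (2 - s))) atTop (𝓝 0) := by
      simpa using (end_pow_decay 3).const_mul (2 * N * M0)
    refine squeeze_zero_norm' ?_ hz
    filter_upwards [eventually_ge_atTop (2 : ℝ)] with s hs
    have b1 := hDb s hs
    have b2 := hDb (s + 1) (by linarith)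
    have b3 : (2 : ℝ) ^ (2 - (s + 1)) ≤ (2 : ℝ) ^ (2 - s) :=
      Real.rpow_le_rpow_of_exponent_le (by norm_num) (by linarith)
    have hN0 : 0 ≤ N := by positivity
    have b4 : ‖D s + D (s + 1)‖ ≤ 2 * N * M0 * (2 : ℝ) ^ (2 - s) := by
      refine (norm_add_le _ _).trans ?_
      have := mul_le_mul_of_nonneg_left (mul_le_mul_of_nonneg_left b3 hM0n) hN0
      nlinarith [this]
    have b5 : ‖(s : ℂ) * ((s : ℂ) ^ 2 - 1)‖ ≤ s ^ 3 := by
      rw [show (s : ℂ) * ((s : ℂ) ^ 2 - 1) = ((s * (s ^ 2 - 1) : ℝ) : ℂ) by push_cast; ring,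
        Complex.norm_real, Real.norm_eq_abs, abs_of_nonneg (by nlinarith [hs])]
      nlinarith [hs]
    rw [norm_mul]
    calc ‖D s + D (s + 1)‖ * ‖(s : ℂ) * ((s : ℂ) ^ 2 - 1)‖
        ≤ (2 * N * M0 * (2 : ℝ) ^ (2 - s)) * s ^ 3 :=
          mul_le_mul b4 b5 (norm_nonneg _) (by positivity)
      _ = (2 * N * M0) * (s ^ 3 * (2 : ℝ) ^ (2 - s)) := by ring
  have hpoly := end_poly (hlim.congr' (f₂ := fun s : ℝ => (2 * (K1 - K)) * (s : ℂ) ^ 3
      + (4 - e) * (s : ℂ) ^ 2 + (-(2 * (K1 - K))) * (s : ℂ) + (e - 2)) (by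
    filter_upwards [eventually_gt_atTop (1 : ℝ)] with s hs
    exact key2 s hs))
  obtain ⟨_, h4, _, h2⟩ := hpoly
  have : (2 : ℂ) = 0 := by linear_combination h4 + h2
  norm_num at this

end Pool.Agent.AQ
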