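import Mathlib
import Pool.Agent.Work.MP_99218a_nt.Interface

/-!
# MP_99218a_nt, block EXPL: the logarithmic derivative of the completed `L`-function on `re s > 1`
-/

set_option autoImplicit false

namespace Pool.Agent.AQ

open Filter Topology ArithmeticFunction
open scoped ComplexConjugate Classical

/-- Derivative of `Gammaℝ`. -/
theorem expl_hasDerivAt_Gammaℝ {s : ℂ} (hs : 0 < s.re) :
    HasDerivAt Complex.Gammaℝ
      (Complex.Gammaℝ s * (-(1 / 2) * (Real.log Real.pi : ℂ) + 1 / 2 * Complex.digamma (s / 2))) s := by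
  have hpi : (Real.pi : ℂ) ≠ 0 := by exact_mod_cast Real.pi_ne_zero
  have h2 : 0 < (s / 2).re := by
    have : (s / 2).re = s.re / 2 := by simp
    rw [this]; positivity
  have hG : Complex.Gamma (s / 2) ≠ 0 := Complex.Gamma_ne_zero_of_re_pos h2
  have hd : DifferentiableAt ℂ Complex.Gamma (s / 2) := by
    refine Complex.differentiableAt_Gamma _ fun m h => ?_
    have := congrArg Complex.re h
    simp at this
    have h3 : (0 : ℝ) ≤ (m : ℝ) := Nat.cast_nonneg m
    have h4 : (s / 2).re = s.re / 2 := by simp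
    linarith
  have e1 : HasDerivAt (fun z : ℂ => -z / 2) (-1 / 2) s := by
    simpa using ((hasDerivAt_id s).neg.div_const 2)
  have e2 : HasDerivAt (fun z : ℂ => z / 2) (1 / 2) s := by
    simpa using ((hasDerivAt_id s).div_const 2)
  have h1 : HasDerivAt (fun z : ℂ => (Real.pi : ℂ) ^ (-z / 2))
      ((Real.pi : ℂ) ^ (-s / 2) * Complex.log Real.pi * (-1 / 2)) s :=
    e1.const_cpow (Or.inl hpi)
  have h3 : HasDerivAt (fun z : ℂ => Complex.Gamma (z / 2)) (deriv Complex.Gamma (s / 2) * (1 / 2)) s :=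
    (hd.hasDerivAt (x := s / 2)).comp s e2
  have h4 := h1.mul h3
  have h5 : Complex.digamma (s / 2) = deriv Complex.Gamma (s / 2) / Complex.Gamma (s / 2) := by
    rw [Complex.digamma_def, logDeriv_apply]
  have hlog : Complex.log (Real.pi : ℂ) = (Real.log Real.pi : ℂ) :=
    (Complex.ofReal_log Real.pi_pos.le).symm
  refine h4.congr_deriv ?_
  rw [h5, Complex.Gammaℝ_def, hlog]
  field_simp

/-- Derivative of the archimedean factor. -/
theorem expl_gammaFactor {N : ℕ} (ψ : DirichletCharacter ℂ N) (κ : ℝ)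
    (hκ : κ = if ψ.Even then 0 else 1) {s : ℂ} (hs : 0 < s.re) :
    HasDerivAt ψ.gammaFactor
      (ψ.gammaFactor s * (-(1 / 2) * (Real.log Real.pi : ℂ)
        + 1 / 2 * Complex.digamma ((s + κ) / 2))) s ∧ ψ.gammaFactor s ≠ 0 := by
  by_cases h : ψ.Even
  · have hf : ψ.gammaFactor = Complex.Gammaℝ := by
      ext z; exact h.gammaFactor_def z
    have hk : κ = 0 := by rw [hκ, if_pos h]
    rw [hf, hk]
    refine ⟨?_, Complex.Gammaℝ_ne_zero_of_re_pos hs⟩
    simpa using expl_hasDerivAt_Gammaℝ hs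
  · have ho : ψ.Odd := ψ.even_or_odd.resolve_left h
    have hf : ψ.gammaFactor = fun z => Complex.Gammaℝ (z + 1) := by
      ext z; exact ho.gammaFactor_def z
    have hk : κ = 1 := by rw [hκ, if_neg h]
    have hs1 : 0 < (s + 1).re := by simp; linarith
    rw [hf, hk]
    refine ⟨?_, Complex.Gammaℝ_ne_zero_of_re_pos hs1⟩
    have h1 := (expl_hasDerivAt_Gammaℝ hs1).comp_add_const s 1
    simpa using h1

/-- The primitive character has the same parity. -/
theorem expl_even {q : ℕ} [NeZero q] (χ : DirichletCharacter ℂ q) :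
    χ.primitiveCharacter.Even ↔ χ.Even := by
  have h := χ.primitiveCharacter_apply_of_isCoprime (a := -1) (isCoprime_one_left.neg_left)
  push_cast at h
  unfold DirichletCharacter.Even
  rw [h]

/-- The logarithmic derivative of an `L`-function. -/
theorem expl_LFunction {N : ℕ} [NeZero N] (ψ : DirichletCharacter ℂ N) {s : ℂ} (hs : 1 < s.re) :
    HasDerivAt ψ.LFunction
      (ψ.LFunction s * (-LSeries (fun n => (Λ n : ℂ) * ψ (n : ZMod N)) s)) s ∧
    ψ.LFunction s ≠ 0 := by
  have hne : ψ.LFunction s ≠ 0 := by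
    rw [ψ.LFunction_eq_LSeries hs]
    exact DirichletCharacter.LSeries_ne_zero_of_one_lt_re ψ hs
  have hs1 : s ≠ 1 := by
    rintro rfl
    simp at hs
  have hd := (ψ.differentiableAt_LFunction s (Or.inl hs1)).hasDerivAt
  refine ⟨hd.congr_deriv ?_, hne⟩
  have h1 := DirichletCharacter.LSeries_twist_vonMangoldt_eq ψ hs
  have h2 : (fun n : ℕ => (Λ n : ℂ) * ψ (n : ZMod N))
      = ((fun n : ℕ => ψ (n : ZMod N)) * (fun n : ℕ => (Λ n : ℂ))) := by
    ext n
    simp [mul_comm]
  rw [h2, h1, ψ.deriv_LFunction_eq_deriv_LSeries hs, ← ψ.LFunction_eq_LSeries hs]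
  field_simp

/-- The logarithmic derivative of a product. -/
theorem expl_logDeriv {A G L f : ℂ → ℂ} {a g l s : ℂ} (hA : HasDerivAt A (A s * a) s)
    (hG : HasDerivAt G (G s * g) s) (hL : HasDerivAt L (L s * l) s)
    (hA0 : A s ≠ 0) (hG0 : G s ≠ 0) (hL0 : L s ≠ 0) (hf : f =ᶠ[𝓝 s] fun z => A z * (G z * L z)) :
    logDeriv f s = a + g + l := by
  have h1 : HasDerivAt (fun z => A z * (G z * L z)) _ s := hA.mul (hG.mul hL)
  rw [logDeriv_apply, hf.deriv_eq, h1.deriv, hf.self_of_nhds]
  field_simp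
  ring

theorem expl_nhds {s : ℂ} (hs : 1 < s.re) : ∀ᶠ z in 𝓝 s, 1 < z.re :=
  (isOpen_lt continuous_const Complex.continuous_re).mem_nhds hs

theorem expl_principal {q : ℕ} [NeZero q] {s : ℂ} (hs : 1 < s.re) :
    Hc (1 : DirichletCharacter ℂ q) s = (1 / s + 1 / (s - 1))
      + (-(1 / 2) * (Real.log Real.pi : ℂ) + 1 / 2 * Complex.digamma (s / 2))
      + (-LSeries (fun n => (Λ n : ℂ)) s) := by
  have hs0 : s ≠ 0 := by
    rintro rfl
    simp at hs
    linarith
  have hs1 : s - 1 ≠ 0 := by
    intro h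
    have : s = 1 := by linear_combination h
    rw [this] at hs
    simp at hs
  have hL : HasDerivAt riemannZeta (riemannZeta s * (-LSeries (fun n => (Λ n : ℂ)) s)) s := by
    have hd := (differentiableAt_riemannZeta (s := s) (by
      rintro rfl
      simp at hs)).hasDerivAt
    refine hd.congr_deriv ?_
    have h1 := ArithmeticFunction.LSeries_vonMangoldt_eq_deriv_riemannZeta_div hs
    have h0 := riemannZeta_ne_zero_of_one_lt_re hs
    rw [h1]
    field_simp
  have hA : HasDerivAt (fun z : ℂ => z * (z - 1)) (s * (s - 1) * (1 / s + 1 / (s - 1))) s := by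
    have h := (hasDerivAt_id s).mul ((hasDerivAt_id s).sub_const 1)
    refine h.congr_deriv ?_
    simp only [id]
    field_simp
  refine expl_logDeriv hA (expl_hasDerivAt_Gammaℝ (by linarith)) hL (mul_ne_zero hs0 hs1)
    (Complex.Gammaℝ_ne_zero_of_re_pos (by linarith)) (riemannZeta_ne_zero_of_one_lt_re hs) ?_
  filter_upwards [expl_nhds hs] with z hz
  have hz0 : z ≠ 0 := by
    rintro rfl
    simp at hz
    linarith
  have hz1 : 1 - z ≠ 0 := by
    intro h
    have : z = 1 := by linear_combination -h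
    rw [this] at hz
    simp at hz
  have hG0 : Complex.Gammaℝ z ≠ 0 := Complex.Gammaℝ_ne_zero_of_re_pos (by linarith)
  have h1 : riemannZeta z = completedRiemannZeta z / Complex.Gammaℝ z :=
    riemannZeta_def_of_ne_zero hz0
  have h2 := completedRiemannZeta_eq z
  unfold PhiC
  rw [if_pos rfl, h1, h2]
  field_simp
  ring

theorem expl_nonprincipal {q : ℕ} [NeZero q] (χ : DirichletCharacter ℂ q) (hχ : χ ≠ 1) {s : ℂ}
    (hs : 1 < s.re) :
    Hc χ s = 1 / 2 * (Real.log χ.conductor : ℂ)
      + (-(1 / 2) * (Real.log Real.pi : ℂ) + 1 / 2 * Complex.digamma ((s + kap χ) / 2))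
      + (-LSeries (fun n => (Λ n : ℂ) * χ.primitiveCharacter (n : ZMod χ.conductor)) s) := by
  have : NeZero χ.conductor := ⟨χ.conductor_ne_zero⟩
  have hκ : kap χ = if χ.primitiveCharacter.Even then 0 else 1 := by
    unfold kap
    simp only [expl_even]
  obtain ⟨hG, hG0⟩ := expl_gammaFactor χ.primitiveCharacter (kap χ) hκ (s := s) (by linarith)
  obtain ⟨hL, hL0⟩ := expl_LFunction χ.primitiveCharacter hs
  have hN : (χ.conductor : ℂ) ≠ 0 := by exact_mod_cast χ.conductor_ne_zero
  have hA : HasDerivAt (fun z : ℂ => (χ.conductor : ℂ) ^ (z / 2))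
      ((χ.conductor : ℂ) ^ (s / 2) * (1 / 2 * (Real.log χ.conductor : ℂ))) s := by
    have e2 : HasDerivAt (fun z : ℂ => z / 2) (1 / 2) s := by
      simpa using ((hasDerivAt_id s).div_const 2)
    have h := e2.const_cpow (c := (χ.conductor : ℂ)) (Or.inl hN)
    refine h.congr_deriv ?_
    have hl : Complex.log (χ.conductor : ℂ) = (Real.log χ.conductor : ℂ) := by
      rw [Complex.ofReal_log (Nat.cast_nonneg _)]
      simp
    rw [hl]
    ring
  have hA0 : (χ.conductor : ℂ) ^ (s / 2) ≠ 0 := by
    rw [Ne, Complex.cpow_eq_zero_iff]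
    tauto
  refine expl_logDeriv hA hG hL hA0 hG0 hL0 ?_
  filter_upwards [expl_nhds hs] with z hz
  have hz0 : z ≠ 0 := by
    rintro rfl
    simp at hz
    linarith
  have h1 := χ.primitiveCharacter.LFunction_eq_completed_div_gammaFactor z (Or.inl hz0)
  have hG1 := (expl_gammaFactor χ.primitiveCharacter (kap χ) hκ (s := z) (by linarith)).2
  unfold PhiC
  rw [if_neg hχ, h1]
  field_simp

theorem stmt_EXPL : Stmt_EXPL := by
  intro q _ χ s hs
  have hN0 : (0 : ℝ) < χ.conductor := by
    exact_mod_cast Nat.pos_of_ne_zero χ.conductor_ne_zero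
  have hlog : Real.log (χ.conductor / Real.pi) = Real.log χ.conductor - Real.log Real.pi :=
    Real.log_div hN0.ne' Real.pi_ne_zero
  by_cases hχ : χ = 1
  · subst hχ
    have h1 : (1 : DirichletCharacter ℂ q).conductor = 1 := DirichletCharacter.conductor_one
    have h2 : kap (1 : DirichletCharacter ℂ q) = 0 := by
      have h : (1 : DirichletCharacter ℂ q).Even := by
        change (1 : DirichletCharacter ℂ q) (-1) = 1
        exact MulChar.one_apply isUnit_neg_one
      unfold kap
      rw [if_pos h]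
    have h3 : (fun n : ℕ => (Λ n : ℂ) * (1 : DirichletCharacter ℂ q).primitiveCharacter
        (n : ZMod (1 : DirichletCharacter ℂ q).conductor)) = fun n : ℕ => (Λ n : ℂ) := by
      ext n
      rw [DirichletCharacter.primitiveCharacter_one]
      have hu : IsUnit (n : ZMod (1 : DirichletCharacter ℂ q).conductor) := by
        have : Subsingleton (ZMod (1 : DirichletCharacter ℂ q).conductor) := by
          rw [h1]
          exact inferInstanceAs (Subsingleton (Fin 1))
        exact isUnit_of_subsingleton _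
      rw [MulChar.one_apply hu, mul_one]
    rw [if_pos rfl, h3, h2, expl_principal hs, hlog, h1]
    simp
    ring
  · rw [if_neg hχ, expl_nonprincipal χ hχ hs, hlog]
    push_cast
    ring

end Pool.Agent.AQ
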