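import Mathlib
import Pool.Agent.Work.MP_99218a_nt.Interface

set_option autoImplicit false

namespace Pool.Agent.AQ

open Filter Topology

theorem gap_cpow (γ u : ℝ) :
    ((Real.exp u : ℝ) : ℂ) ^ (rho γ)
      = (Real.exp (u / 2) : ℂ) * Complex.exp ((γ * u : ℝ) * Complex.I) := by
  have h0 : ((Real.exp u : ℝ) : ℂ) ≠ 0 := by
    exact_mod_cast (Real.exp_pos u).ne'
  rw [Complex.cpow_def_of_ne_zero h0, ← Complex.ofReal_log (Real.exp_pos u).le, Real.log_exp,
    Complex.ofReal_exp, ← Complex.exp_add]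
  congr 1
  unfold rho
  push_cast
  ring

/-- The identity behind GAP (for one character). -/
theorem gap_one (F : Finset ℝ) (w J e : ℂ) (he : e ≠ 0) (m E r : ℝ → ℂ) :
    -(w * J) / e - ∑ γ ∈ F, -(w * m γ) / r γ * E γ
      = -(w * (J - ∑ γ ∈ F, m γ * (e * E γ / r γ))) / e := by
  rw [mul_sub, neg_sub, sub_div, Finset.mul_sum, Finset.sum_div, neg_div, sub_eq_add_neg,
    ← Finset.sum_neg_distrib, sub_eq_add_neg, add_comm]
  congr 1
  refine Finset.sum_congr rfl fun γ _ => ?_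
  rw [eq_div_iff he]
  ring

theorem stmt_GAP (hJ : Stmt_JAP) (hX : Stmt_XI) : Stmt_GAP := by
  intro hG q _ a ε hε
  set N : ℝ := (Fintype.card (DirichletCharacter ℂ q) : ℝ) with hN
  have hN0 : 0 ≤ N := by positivity
  have hε' : 0 < ε / (N + 1) := by positivity
  choose F0 hF0 using fun χ : DirichletCharacter ℂ q => hJ (PhiC χ) (hX hG q χ) (ε / (N + 1)) hε'
  refine ⟨Finset.univ.biUnion F0, fun F hF u hu => ?_⟩
  have hx : 1 ≤ Real.exp u := Real.one_le_exp hu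
  have he : 0 < Real.exp (u / 2) := Real.exp_pos _
  have hec : ((Real.exp (u / 2) : ℝ) : ℂ) ≠ 0 := by exact_mod_cast he.ne'
  have hsq : √(Real.exp u) = Real.exp (u / 2) := by
    rw [Real.exp_half]
  have key : Gc q a u - ∑ γ ∈ F, (-(∑ χ : DirichletCharacter ℂ q,
        χ⁻¹ (a : ZMod q) * (mult (PhiC χ) γ : ℂ)) / (rho γ * (rho γ + 1)))
        * Complex.exp ((γ * u : ℝ) * Complex.I)
      = ∑ χ : DirichletCharacter ℂ q, -(χ⁻¹ (a : ZMod q) * (J (logDeriv (PhiC χ)) (Real.exp u)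
          - ∑ γ ∈ F, (mult (PhiC χ) γ : ℂ)
            * (((Real.exp u : ℝ) : ℂ) ^ (rho γ) / (rho γ * (rho γ + 1)))))
          / (Real.exp (u / 2) : ℂ) := by
    have h1 : Gc q a u = ∑ χ : DirichletCharacter ℂ q,
        -(χ⁻¹ (a : ZMod q) * J (logDeriv (PhiC χ)) (Real.exp u)) / (Real.exp (u / 2) : ℂ) := by
      unfold Gc Hc
      rw [← Finset.sum_neg_distrib, Finset.sum_div]
    have h2 : ∑ γ ∈ F, (-(∑ χ : DirichletCharacter ℂ q,
        χ⁻¹ (a : ZMod q) * (mult (PhiC χ) γ : ℂ)) / (rho γ * (rho γ + 1)))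
        * Complex.exp ((γ * u : ℝ) * Complex.I)
        = ∑ χ : DirichletCharacter ℂ q, ∑ γ ∈ F,
          -(χ⁻¹ (a : ZMod q) * (mult (PhiC χ) γ : ℂ)) / (rho γ * (rho γ + 1))
            * Complex.exp ((γ * u : ℝ) * Complex.I) := by
      rw [Finset.sum_comm]
      refine Finset.sum_congr rfl fun γ _ => ?_
      rw [← Finset.sum_neg_distrib, Finset.sum_div, Finset.sum_mul]
    rw [h1, h2, ← Finset.sum_sub_distrib]
    refine Finset.sum_congr rfl fun χ _ => ?_
    simp only [gap_cpow]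
    exact gap_one F _ _ _ hec _ _ _
  rw [key]
  refine (norm_sum_le _ _).trans ?_
  have h3 : ∀ χ ∈ (Finset.univ : Finset (DirichletCharacter ℂ q)),
      ‖-(χ⁻¹ (a : ZMod q) * (J (logDeriv (PhiC χ)) (Real.exp u)
          - ∑ γ ∈ F, (mult (PhiC χ) γ : ℂ)
            * (((Real.exp u : ℝ) : ℂ) ^ (rho γ) / (rho γ * (rho γ + 1)))))
          / (Real.exp (u / 2) : ℂ)‖ ≤ ε / (N + 1) := by
    intro χ _
    have h4 := hF0 χ F ((Finset.subset_biUnion_of_mem F0 (Finset.mem_univ χ)).trans hF)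
      (Real.exp u) hx
    rw [norm_div, norm_neg, norm_mul, Complex.norm_real, Real.norm_of_nonneg he.le,
      div_le_iff₀ he]
    rw [hsq] at h4
    have h5 : ‖χ⁻¹ (a : ZMod q)‖ ≤ 1 := DirichletCharacter.norm_le_one _ _
    calc _ ≤ 1 * (ε / (N + 1) * Real.exp (u / 2)) :=
          mul_le_mul h5 h4 (norm_nonneg _) zero_le_one
      _ = _ := one_mul _
  refine (Finset.sum_le_sum h3).trans ?_
  rw [Finset.sum_const, nsmul_eq_mul, Finset.card_univ, ← hN, mul_div_assoc', div_le_iff₀ (by positivity)]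
  nlinarith

end Pool.Agent.AQ
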