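import Pool.Agent.Work.MP_99218a_nt.Interface

/-!
# MP_99218a_nt, block GE: the almost periodic function and the normalized error
-/

set_option autoImplicit false

namespace Pool.Agent.AQ

open Filter Topology MeasureTheory ArithmeticFunction
open scoped ComplexConjugate Classical

namespace GE_

/-- The bad set: prime powers up to `N` which are not coprime to `q`. -/
noncomputable def bad (q N : ℕ) : Finset ℕ :=
  (Finset.Ioc 0 N).filter (fun n => Λ n ≠ 0 ∧ ¬ n.Coprime q)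

lemma card_bad (q N : ℕ) (hq : q ≠ 0) :
    (bad q N).card ≤ q.primeFactors.card * (Nat.log 2 N + 1) := by
  have hsub : bad q N ⊆ (q.primeFactors ×ˢ Finset.range (Nat.log 2 N + 1)).image
      (fun pk : ℕ × ℕ => pk.1 ^ pk.2) := by
    intro n hn
    simp only [bad, Finset.mem_filter, Finset.mem_Ioc] at hn
    obtain ⟨⟨hn0, hnN⟩, hL, hc⟩ := hn
    obtain ⟨p, k, hp, hk, hpk⟩ := (isPrimePow_nat_iff n).1 (vonMangoldt_ne_zero_iff.1 hL)
    refine Finset.mem_image.2 ⟨(p, k), ?_, hpk⟩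
    rw [Finset.mem_product, Nat.mem_primeFactors, Finset.mem_range]
    refine ⟨⟨hp, ?_, hq⟩, ?_⟩
    · by_contra hnd
      apply hc
      rw [← hpk]
      exact Nat.Coprime.pow_left k ((Nat.Prime.coprime_iff_not_dvd hp).2 hnd)
    · have h2 : 2 ^ k ≤ N := le_trans (Nat.pow_le_pow_left hp.two_le k) (by rw [hpk]; exact hnN)
      have h3 : k ≤ Nat.log 2 N := Nat.le_log_of_pow_le (by norm_num) h2
      show k < Nat.log 2 N + 1
      omega
  calc (bad q N).card ≤ _ := Finset.card_le_card hsub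
    _ ≤ (q.primeFactors ×ˢ Finset.range (Nat.log 2 N + 1)).card := Finset.card_image_le
    _ = _ := by rw [Finset.card_product, Finset.card_range]

lemma log_le8 {x : ℝ} (hx : 1 ≤ x) : Real.log x ≤ 8 * x ^ (1 / 8 : ℝ) := by
  have h := Real.log_le_rpow_div (by linarith : 0 ≤ x) (by norm_num : (0 : ℝ) < 1 / 8)
  linarith

lemma natlog_le {x : ℝ} (hx : 1 ≤ x) : ((Nat.log 2 ⌊x⌋₊ : ℕ) : ℝ) ≤ 2 * Real.log x := by
  have h1 : 2 ^ Nat.log 2 ⌊x⌋₊ ≤ ⌊x⌋₊ :=
    Nat.pow_log_le_self 2 (by have := (Nat.one_le_floor_iff x).2 hx; omega)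
  have h2 : (2 : ℝ) ^ Nat.log 2 ⌊x⌋₊ ≤ x := by
    have h3 : ((2 ^ Nat.log 2 ⌊x⌋₊ : ℕ) : ℝ) ≤ (⌊x⌋₊ : ℝ) := by exact_mod_cast h1
    have h4 : (⌊x⌋₊ : ℝ) ≤ x := Nat.floor_le (by linarith)
    push_cast at h3
    linarith
  have h5 := Real.log_le_log (by positivity) h2
  rw [Real.log_pow] at h5
  have h6 : (0.6931471803 : ℝ) < Real.log 2 := Real.log_two_gt_d9
  have h7 : (0 : ℝ) ≤ ((Nat.log 2 ⌊x⌋₊ : ℕ) : ℝ) := Nat.cast_nonneg _
  nlinarith

/-- The bound of the sum over the bad set. -/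
lemma delta_bound (hCHR : Stmt_CHR) (q : ℕ) [NeZero q] (a : ℤ) (ha : IsUnit (a : ZMod q)) (x : ℝ)
    (hx : 1 ≤ x) :
    ‖∑ n ∈ Finset.Ioc 0 ⌊x⌋₊, ((Λ n : ℂ) * ((1 - n / x : ℝ) : ℂ)) *
      (ca q a n - if (n : ZMod q) = (a : ZMod q) then (q.totient : ℂ) else 0)‖
      ≤ (136 * q.primeFactors.card * q.totient : ℝ) * x ^ (1 / 4 : ℝ) := by
  have hx0 : 0 < x := by linarith
  have hlog : 0 ≤ Real.log x := Real.log_nonneg hx
  have hterm : ∀ n ∈ Finset.Ioc 0 ⌊x⌋₊,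
      ‖((Λ n : ℂ) * ((1 - n / x : ℝ) : ℂ)) *
        (ca q a n - if (n : ZMod q) = (a : ZMod q) then (q.totient : ℂ) else 0)‖
      ≤ if (Λ n ≠ 0 ∧ ¬ n.Coprime q) then Real.log x * q.totient else 0 := by
    intro n hn
    rw [Finset.mem_Ioc] at hn
    obtain ⟨h1, h2, h3, h4⟩ := hCHR q a ha n hn.1
    by_cases hL : Λ n = 0
    · simp [hL]
    by_cases hc : n.Coprime q
    · rw [h4 hc]
      simp [hc]
    have hne : ¬ ((n : ZMod q) = (a : ZMod q)) := by
      intro h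
      apply hc
      rw [← h] at ha
      exact (ZMod.isUnit_iff_coprime n q).1 ha
    rw [if_neg hne, if_pos (show Λ n ≠ 0 ∧ ¬ n.Coprime q from ⟨hL, hc⟩), sub_zero, norm_mul,
      norm_mul, Complex.norm_real, Complex.norm_real]
    have hnx : (n : ℝ) ≤ x := le_trans (by exact_mod_cast hn.2) (Nat.floor_le hx0.le)
    have hn1 : (1 : ℝ) ≤ n := by exact_mod_cast hn.1
    have e1 : ‖Λ n‖ ≤ Real.log x := by
      rw [Real.norm_of_nonneg vonMangoldt_nonneg]
      exact le_trans vonMangoldt_le_log (Real.log_le_log (by linarith) hnx)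
    have e2 : ‖(1 - n / x : ℝ)‖ ≤ 1 := by
      have h5 : (n : ℝ) / x ≤ 1 := (div_le_one hx0).2 hnx
      have h6 : 0 ≤ (n : ℝ) / x := by positivity
      rw [Real.norm_eq_abs, abs_le]
      constructor <;> linarith
    have e3 : ‖ca q a n‖ ≤ q.totient := by
      have : ca q a n = ((ca q a n).re : ℂ) := by
        apply Complex.ext <;> simp [h1]
      rw [this, Complex.norm_real, Real.norm_of_nonneg h2]
      exact h3
    calc ‖Λ n‖ * ‖(1 - n / x : ℝ)‖ * ‖ca q a n‖ ≤ Real.log x * 1 * q.totient := by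
          gcongr
      _ = Real.log x * q.totient := by ring
  refine le_trans (norm_sum_le _ _) (le_trans (Finset.sum_le_sum hterm) ?_)
  rw [← Finset.sum_filter, Finset.sum_const, nsmul_eq_mul]
  have hcard := card_bad q ⌊x⌋₊ (NeZero.ne q)
  have hcard' : (((Finset.Ioc 0 ⌊x⌋₊).filter (fun n => Λ n ≠ 0 ∧ ¬ n.Coprime q)).card : ℝ) ≤
      q.primeFactors.card * (2 * Real.log x + 1) := by
    have h1 : ((bad q ⌊x⌋₊).card : ℝ) ≤ ((q.primeFactors.card * (Nat.log 2 ⌊x⌋₊ + 1) : ℕ) : ℝ) := by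
      exact_mod_cast hcard
    push_cast at h1
    have h2 := natlog_le hx
    have h3 : (q.primeFactors.card : ℝ) * ((Nat.log 2 ⌊x⌋₊ : ℕ) + 1 : ℝ) ≤
        q.primeFactors.card * (2 * Real.log x + 1) := by gcongr
    exact le_trans h1 h3
  have hl8 := log_le8 hx
  have hy1 : 1 ≤ x ^ (1 / 8 : ℝ) := Real.one_le_rpow hx (by norm_num)
  have hyy : x ^ (1 / 8 : ℝ) * x ^ (1 / 8 : ℝ) = x ^ (1 / 4 : ℝ) := by
    rw [← Real.rpow_add hx0]; norm_num
  calc (((Finset.Ioc 0 ⌊x⌋₊).filter (fun n => Λ n ≠ 0 ∧ ¬ n.Coprime q)).card : ℝ) *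
        (Real.log x * q.totient)
      ≤ (q.primeFactors.card * (2 * Real.log x + 1)) * (Real.log x * q.totient) := by gcongr
    _ ≤ (q.primeFactors.card * (17 * x ^ (1 / 8 : ℝ))) * (8 * x ^ (1 / 8 : ℝ) * q.totient) := by
        gcongr
        linarith
    _ = (136 * q.primeFactors.card * q.totient : ℝ) * (x ^ (1 / 8 : ℝ) * x ^ (1 / 8 : ℝ)) := by ring
    _ = _ := by rw [hyy]

end GE_

open GE_

theorem stmt_GE (hJX : Stmt_JX) (hDGB : Stmt_DGB) (hCHR : Stmt_CHR) : Stmt_GE := by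
  intro q _ a ha
  -- constants
  have hkap : ∀ χ : DirichletCharacter ℂ q, 0 ≤ kap χ := by
    intro χ
    unfold kap
    split_ifs <;> norm_num
  choose Cd hCd using fun χ : DirichletCharacter ℂ q => hDGB (kap χ) (hkap χ)
  set K1 : ℂ := ∑ χ : DirichletCharacter ℂ q, χ⁻¹ (a : ZMod q) *
    (1 / 2 * (Real.log (χ.conductor / Real.pi) : ℂ)) with hK1
  set K2 : ℂ := ∑ χ : DirichletCharacter ℂ q, χ⁻¹ (a : ZMod q) * conj (Hc χ 1) with hK2
  set K3 : ℂ := ∑ χ : DirichletCharacter ℂ q, χ⁻¹ (a : ZMod q) * conj (Hc χ 2) with hK3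
  -- the decomposition of the sum
  have hsum : ∀ x : ℝ, 1 ≤ x →
      ∑ χ : DirichletCharacter ℂ q, χ⁻¹ (a : ZMod q) * J (Hc χ) x =
      -(∑ n ∈ Finset.Ioc 0 ⌊x⌋₊, ((Λ n : ℂ) * ((1 - n / x : ℝ) : ℂ)) * ca q a n)
      + ((x / 2 + Real.log x - 2 + 3 / (2 * x) : ℝ) : ℂ) + K1 * (1 - 1 / x)
      + (∑ χ : DirichletCharacter ℂ q, χ⁻¹ (a : ZMod q) * Dg (kap χ) x) + K2 - K3 / x := by
    intro x hx
    have h1 : ∀ χ : DirichletCharacter ℂ q, χ⁻¹ (a : ZMod q) * J (Hc χ) x =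
        -(∑ n ∈ Finset.Ioc 0 ⌊x⌋₊, ((Λ n : ℂ) * ((1 - n / x : ℝ) : ℂ)) *
          (χ⁻¹ (a : ZMod q) * χ.primitiveCharacter (n : ZMod χ.conductor)))
        + (if χ = 1 then ((x / 2 + Real.log x - 2 + 3 / (2 * x) : ℝ) : ℂ) else 0)
        + (χ⁻¹ (a : ZMod q) * (1 / 2 * (Real.log (χ.conductor / Real.pi) : ℂ))) * (1 - 1 / x)
        + χ⁻¹ (a : ZMod q) * Dg (kap χ) x + χ⁻¹ (a : ZMod q) * conj (Hc χ 1)
        - (χ⁻¹ (a : ZMod q) * conj (Hc χ 2)) / x := by
      intro χ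
      rw [hJX q χ x hx]
      have h2 : χ⁻¹ (a : ZMod q) * (if χ = 1 then
          ((x / 2 + Real.log x - 2 + 3 / (2 * x) : ℝ) : ℂ) else 0) =
          (if χ = 1 then ((x / 2 + Real.log x - 2 + 3 / (2 * x) : ℝ) : ℂ) else 0) := by
        by_cases h : χ = 1
        · subst h
          rw [if_pos rfl, inv_one, MulChar.one_apply ha, one_mul]
        · rw [if_neg h, mul_zero]
      have h3 : ∑ n ∈ Finset.Ioc 0 ⌊x⌋₊, ((Λ n : ℂ) * ((1 - n / x : ℝ) : ℂ)) *
          (χ⁻¹ (a : ZMod q) * χ.primitiveCharacter (n : ZMod χ.conductor)) =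
          χ⁻¹ (a : ZMod q) * ∑ n ∈ Finset.Ioc 0 ⌊x⌋₊,
          (Λ n : ℂ) * χ.primitiveCharacter (n : ZMod χ.conductor) * ((1 - n / x : ℝ) : ℂ) := by
        rw [Finset.mul_sum]
        refine Finset.sum_congr rfl (fun n _ => ?_)
        ring
      rw [h3]
      linear_combination h2
    rw [Finset.sum_congr rfl (fun χ _ => h1 χ)]
    rw [Finset.sum_sub_distrib, Finset.sum_add_distrib, Finset.sum_add_distrib,
      Finset.sum_add_distrib, Finset.sum_add_distrib, Finset.sum_neg_distrib,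
      Finset.sum_comm, ← Finset.sum_mul, ← Finset.sum_div, Finset.sum_ite_eq']
    simp only [Finset.mem_univ, if_true, ← Finset.mul_sum]
    rfl
  -- the main identity
  have hmain : ∀ x : ℝ, 1 ≤ x → Gc q a (Real.log x) - (EE q a x : ℂ) =
      ((∑ n ∈ Finset.Ioc 0 ⌊x⌋₊, ((Λ n : ℂ) * ((1 - n / x : ℝ) : ℂ)) *
        (ca q a n - if (n : ZMod q) = (a : ZMod q) then (q.totient : ℂ) else 0))
      - ((Real.log x - 2 + 3 / (2 * x) : ℝ) : ℂ) - K1 * (1 - 1 / x)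
      - (∑ χ : DirichletCharacter ℂ q, χ⁻¹ (a : ZMod q) * Dg (kap χ) x) - K2 + K3 / x)
        / (Real.exp (Real.log x / 2) : ℂ) := by
    intro x hx
    have hx0 : 0 < x := by linarith
    have hxc : (x : ℂ) ≠ 0 := by exact_mod_cast hx0.ne'
    set w : ℝ := Real.exp (Real.log x / 2) with hw
    have hw0 : 0 < w := Real.exp_pos _
    have hwc : (w : ℂ) ≠ 0 := by exact_mod_cast hw0.ne'
    have hw2 : w ^ 2 = x := by
      rw [hw, ← Real.exp_nat_mul]
      push_cast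
      rw [show 2 * (Real.log x / 2) = Real.log x by ring, Real.exp_log hx0]
    have hw3 : x ^ (3 / 2 : ℝ) = x * w := by
      rw [Real.rpow_def_of_pos hx0, show Real.log x * (3 / 2) = Real.log x + Real.log x / 2 by ring,
        Real.exp_add, Real.exp_log hx0]
    have hpsi : ((q.totient : ℝ) * psi1 q a x / x : ℝ) =
        ∑ n ∈ Finset.Ioc 0 ⌊x⌋₊, (Λ n * (1 - n / x)) *
          (if (n : ZMod q) = (a : ZMod q) then (q.totient : ℝ) else 0) := by
      unfold psi1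
      rw [Finset.sum_filter, Finset.mul_sum, Finset.sum_div]
      refine Finset.sum_congr rfl (fun n _ => ?_)
      split_ifs
      · field_simp
      · simp
    have hEE : (EE q a x : ℂ) = ((∑ n ∈ Finset.Ioc 0 ⌊x⌋₊, ((Λ n : ℂ) * ((1 - n / x : ℝ) : ℂ)) *
          (if (n : ZMod q) = (a : ZMod q) then (q.totient : ℂ) else 0)) - x / 2) / (w : ℂ) := by
      have h1 : EE q a x = ((q.totient : ℝ) * psi1 q a x / x - x / 2) / w := by
        unfold EE
        rw [hw3]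
        field_simp
      rw [h1, hpsi]
      push_cast
      congr 2
      refine Finset.sum_congr rfl (fun n _ => ?_)
      split_ifs <;> simp
    unfold Gc
    rw [Real.exp_log hx0, hsum x hx, hEE, ← sub_div]
    congr 1
    simp only [mul_sub, Finset.sum_sub_distrib]
    push_cast
    ring
  -- the bound
  set C : ℝ := 136 * q.primeFactors.card * q.totient + 8 + 2 + 3 / 2 + ‖K1‖ + (∑ χ, |Cd χ|) + ‖K2‖
    + ‖K3‖ with hC
  have hbound : ∀ x : ℝ, 1 ≤ x → ‖Gc q a (Real.log x) - (EE q a x : ℂ)‖ ≤ C * x ^ (-(1 / 4) : ℝ) := by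
    intro x hx
    have hx0 : 0 < x := by linarith
    rw [hmain x hx, norm_div, Complex.norm_real, Real.norm_of_nonneg (Real.exp_pos _).le]
    have hexp : Real.exp (Real.log x / 2) = x ^ (1 / 2 : ℝ) := by
      rw [Real.rpow_def_of_pos hx0]
      congr 1
      ring
    have hy : 1 ≤ x ^ (1 / 4 : ℝ) := Real.one_le_rpow hx (by norm_num)
    have hy8 : x ^ (1 / 8 : ℝ) ≤ x ^ (1 / 4 : ℝ) :=
      Real.rpow_le_rpow_of_exponent_le hx (by norm_num)
    have b1 := delta_bound hCHR q a ha x hx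
    have b2 : ‖((Real.log x - 2 + 3 / (2 * x) : ℝ) : ℂ)‖ ≤ (8 + 2 + 3 / 2) * x ^ (1 / 4 : ℝ) := by
      rw [Complex.norm_real, Real.norm_eq_abs]
      have hl := log_le8 hx
      have hl0 : 0 ≤ Real.log x := Real.log_nonneg hx
      have h3 : 3 / (2 * x) ≤ 3 / 2 := by
        rw [div_le_div_iff₀ (by positivity) (by norm_num)]
        linarith
      have h4 : 0 ≤ 3 / (2 * x) := by positivity
      rw [abs_le]
      constructor <;> linarith
    have hinv : 1 / x ≤ 1 := by rw [div_le_one hx0]; exact hx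
    have hinv0 : 0 ≤ 1 / x := by positivity
    have b3 : ‖K1 * (1 - 1 / x)‖ ≤ ‖K1‖ * x ^ (1 / 4 : ℝ) := by
      rw [norm_mul]
      refine mul_le_mul_of_nonneg_left ?_ (norm_nonneg _)
      have : (1 - 1 / (x : ℂ)) = ((1 - 1 / x : ℝ) : ℂ) := by push_cast; ring
      rw [this, Complex.norm_real, Real.norm_eq_abs, abs_le]
      constructor <;> linarith
    have b4 : ‖∑ χ : DirichletCharacter ℂ q, χ⁻¹ (a : ZMod q) * Dg (kap χ) x‖ ≤
        (∑ χ, |Cd χ|) * x ^ (1 / 4 : ℝ) := by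
      refine le_trans (norm_sum_le _ _) ?_
      rw [Finset.sum_mul]
      refine Finset.sum_le_sum (fun χ _ => ?_)
      rw [norm_mul]
      have h1 : ‖χ⁻¹ (a : ZMod q)‖ ≤ 1 := DirichletCharacter.norm_le_one _ _
      have h2 : ‖Dg (kap χ) x‖ ≤ |Cd χ| * x ^ (1 / 4 : ℝ) :=
        le_trans (hCd χ x hx) (mul_le_mul_of_nonneg_right (le_abs_self _) (by linarith))
      calc ‖χ⁻¹ (a : ZMod q)‖ * ‖Dg (kap χ) x‖ ≤ 1 * (|Cd χ| * x ^ (1 / 4 : ℝ)) :=
            mul_le_mul h1 h2 (norm_nonneg _) (by norm_num)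
        _ = _ := one_mul _
    have b5 : ‖K2‖ ≤ ‖K2‖ * x ^ (1 / 4 : ℝ) := le_mul_of_one_le_right (norm_nonneg _) hy
    have b6 : ‖K3 / (x : ℂ)‖ ≤ ‖K3‖ * x ^ (1 / 4 : ℝ) := by
      rw [norm_div, Complex.norm_real, Real.norm_of_nonneg hx0.le]
      have : ‖K3‖ / x ≤ ‖K3‖ := div_le_self (norm_nonneg _) hx
      exact le_trans this (le_mul_of_one_le_right (norm_nonneg _) hy)
    have htot : ∀ A B D E F G : ℂ, ‖A - B - D - E - F + G‖ ≤ ‖A‖ + ‖B‖ + ‖D‖ + ‖E‖ + ‖F‖ + ‖G‖ := by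
      intro A B D E F G
      refine le_trans (norm_add_le _ _) (add_le_add ?_ le_rfl)
      refine le_trans (norm_sub_le _ _) (add_le_add ?_ le_rfl)
      refine le_trans (norm_sub_le _ _) (add_le_add ?_ le_rfl)
      refine le_trans (norm_sub_le _ _) (add_le_add ?_ le_rfl)
      exact norm_sub_le _ _
    rw [hexp, div_le_iff₀ (by positivity)]
    have hr : C * x ^ (-(1 / 4) : ℝ) * x ^ (1 / 2 : ℝ) = C * x ^ (1 / 4 : ℝ) := by
      rw [mul_assoc, ← Real.rpow_add hx0]; norm_num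
    rw [hr]
    refine le_trans (htot _ _ _ _ _ _) ?_
    rw [hC]
    linarith
  have hlim : Tendsto (fun x : ℝ => C * x ^ (-(1 / 4) : ℝ)) atTop (𝓝 0) := by
    have := (tendsto_rpow_neg_atTop (by norm_num : (0 : ℝ) < 1 / 4)).const_mul C
    simpa using this
  refine squeeze_zero_norm' ?_ hlim
  filter_upwards [eventually_ge_atTop (1 : ℝ)] with x hx
  exact hbound x hx

end Pool.Agent.AQ
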