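import Pool.Agent.Work.MP_99218a_nt.Interface

/-!
# MP_99218a_nt, block GRO: growth of the logarithmic derivative
-/

set_option autoImplicit false

namespace Pool.Agent.AQ

open scoped ComplexConjugate

theorem stmt_GRO (hPOS : Stmt_POS) (hHER : Stmt_HER) : Stmt_GRO := by
  intro Φ hΦ
  have hdiff : DifferentiableOn ℂ (logDeriv Φ) {s | 1 / 2 < s.re} := by
    have h1 : Differentiable ℂ (deriv Φ) := hΦ.diff.deriv
    intro s hs
    exact ((h1 s).div (hΦ.diff s) (hΦ.ne s hs)).differentiableWithinAt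
  refine ⟨hdiff, fun s hs => hPOS Φ hΦ s hs, ?_⟩
  intro δ hδ
  obtain ⟨C, hC⟩ := hΦ.gr
  have hC0 : 0 ≤ C := by
    have h := hC 2 (by norm_num)
    have h1 : (0 : ℝ) < (1 + ‖(2 : ℂ)‖) ^ (1 / 2 : ℝ) := by positivity
    have h2 : 0 ≤ C * (1 + ‖(2 : ℂ)‖) ^ (1 / 2 : ℝ) := le_trans (norm_nonneg _) h
    by_contra hneg
    push Not at hneg
    have := mul_neg_of_neg_of_pos hneg h1
    linarith
  refine ⟨2 * C * (1 + 3 / (2 * δ)), ?_⟩
  intro s hs
  have hX : (0 : ℝ) ≤ (1 + ‖s‖) ^ (1 / 2 : ℝ) := by positivity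
  have hfac : (1 : ℝ) ≤ 1 + 3 / (2 * δ) := by
    have : 0 < 3 / (2 * δ) := by positivity
    linarith
  rcases le_or_gt 2 s.re with h2 | h2
  · refine (hC s h2).trans ?_
    have : C ≤ 2 * C * (1 + 3 / (2 * δ)) := by nlinarith
    exact mul_le_mul_of_nonneg_right this hX
  · -- base point
    set s0 : ℂ := (2 : ℝ) + s.im * Complex.I with hs0
    have hs0re : s0.re = 2 := by simp [hs0]
    have hs0im : s0.im = s.im := by simp [hs0]
    have hsre : 1 / 2 < s.re := by linarith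
    have hH := hHER (logDeriv Φ) hdiff (fun z hz => hPOS Φ hΦ z hz) s0 s
      (by rw [hs0re]; norm_num) hsre
    have hsub : s - s0 = ((s.re - 2 : ℝ) : ℂ) := by
      apply Complex.ext
      · simp [hs0re]
      · simp [hs0im]
    have hadd : s + conj s0 - 1 = ((s.re + 1 : ℝ) : ℂ) := by
      apply Complex.ext
      · simp only [Complex.sub_re, Complex.add_re, Complex.conj_re, hs0re, Complex.one_re,
          Complex.ofReal_re]
        ring
      · simp only [Complex.sub_im, Complex.add_im, Complex.conj_im, hs0im, Complex.one_im,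
          Complex.ofReal_im]
        ring
    have hw : ‖(s - s0) / (s + conj s0 - 1)‖ = (2 - s.re) / (s.re + 1) := by
      rw [hsub, hadd, norm_div, Complex.norm_real, Complex.norm_real, Real.norm_eq_abs,
        Real.norm_eq_abs, abs_of_neg (by linarith : s.re - 2 < 0),
        abs_of_pos (by linarith : 0 < s.re + 1)]
      ring
    rw [hw] at hH
    have hratio : (2 - s.re) / (s.re + 1) / (1 - (2 - s.re) / (s.re + 1)) ≤ 3 / (4 * δ) := by
      have h1 : 0 < s.re + 1 := by linarith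
      have h3 : 0 < 2 * s.re - 1 := by linarith
      have h4 : (2 - s.re) / (s.re + 1) / (1 - (2 - s.re) / (s.re + 1))
          = (2 - s.re) / (2 * s.re - 1) := by
        have h5 : 1 - (2 - s.re) / (s.re + 1) = (2 * s.re - 1) / (s.re + 1) := by
          field_simp
          ring
        rw [h5, div_div_div_cancel_right₀ (ne_of_gt h1)]
      rw [h4, div_le_div_iff₀ h3 (by positivity)]
      nlinarith
    have hre : (logDeriv Φ s0).re ≤ ‖logDeriv Φ s0‖ := Complex.re_le_norm _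
    have hre0 : 0 ≤ (logDeriv Φ s0).re := hPOS Φ hΦ s0 (by rw [hs0re]; norm_num)
    have hs0n : ‖logDeriv Φ s0‖ ≤ C * (1 + ‖s0‖) ^ (1 / 2 : ℝ) := hC s0 (by rw [hs0re])
    have hns0 : 1 + ‖s0‖ ≤ 4 * (1 + ‖s‖) := by
      have h1 : ‖s0‖ ≤ ‖s‖ + 2 := by
        have : s0 = s - ((s.re - 2 : ℝ) : ℂ) := by rw [← hsub]; ring
        rw [this]
        refine (norm_sub_le _ _).trans ?_
        rw [Complex.norm_real, Real.norm_eq_abs, abs_of_neg (by linarith : s.re - 2 < 0)]
        linarith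
      have := norm_nonneg s
      linarith
    have hpow : (1 + ‖s0‖) ^ (1 / 2 : ℝ) ≤ 2 * (1 + ‖s‖) ^ (1 / 2 : ℝ) := by
      calc (1 + ‖s0‖) ^ (1 / 2 : ℝ) ≤ (4 * (1 + ‖s‖)) ^ (1 / 2 : ℝ) :=
            Real.rpow_le_rpow (by positivity) hns0 (by norm_num)
        _ = 4 ^ (1 / 2 : ℝ) * (1 + ‖s‖) ^ (1 / 2 : ℝ) :=
            Real.mul_rpow (by norm_num) (by positivity)
        _ = 2 * (1 + ‖s‖) ^ (1 / 2 : ℝ) := by
            congr 1
            rw [← Real.sqrt_eq_rpow, show (4 : ℝ) = 2 ^ 2 by norm_num, Real.sqrt_sq (by norm_num)]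
    have hd : ‖logDeriv Φ s - logDeriv Φ s0‖ ≤ ‖logDeriv Φ s0‖ * (3 / (2 * δ)) := by
      refine hH.trans ?_
      calc 2 * (logDeriv Φ s0).re * ((2 - s.re) / (s.re + 1) / (1 - (2 - s.re) / (s.re + 1)))
          ≤ 2 * (logDeriv Φ s0).re * (3 / (4 * δ)) :=
            mul_le_mul_of_nonneg_left hratio (by linarith)
        _ = (logDeriv Φ s0).re * (3 / (2 * δ)) := by
            field_simp
            ring
        _ ≤ ‖logDeriv Φ s0‖ * (3 / (2 * δ)) :=
            mul_le_mul_of_nonneg_right hre (by positivity)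
    calc ‖logDeriv Φ s‖ ≤ ‖logDeriv Φ s0‖ + ‖logDeriv Φ s - logDeriv Φ s0‖ := by
          have := norm_add_le (logDeriv Φ s0) (logDeriv Φ s - logDeriv Φ s0)
          simpa using this
      _ ≤ ‖logDeriv Φ s0‖ + ‖logDeriv Φ s0‖ * (3 / (2 * δ)) := by linarith
      _ = ‖logDeriv Φ s0‖ * (1 + 3 / (2 * δ)) := by ring
      _ ≤ (C * (2 * (1 + ‖s‖) ^ (1 / 2 : ℝ))) * (1 + 3 / (2 * δ)) := by
          refine mul_le_mul_of_nonneg_right ?_ (by linarith)
          exact hs0n.trans (mul_le_mul_of_nonneg_left hpow hC0)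
      _ = 2 * C * (1 + 3 / (2 * δ)) * (1 + ‖s‖) ^ (1 / 2 : ℝ) := by ring

end Pool.Agent.AQ
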