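import Pool.Agent.Work.MP_99218a_nt.Interface

/-!
# Block H2: the total mass at `s = 2`
-/

set_option autoImplicit false

namespace Pool.Agent.AQ

open ArithmeticFunction
open scoped Classical

namespace H2

/-- The value `∑ Λ(n) / n²`. -/
noncomputable def K0 : ℝ := ∑' n : ℕ, ‖LSeries.term (fun n => (Λ n : ℂ)) 2 n‖

lemma norm_LSeries_le {q : ℕ} [NeZero q] (χ : DirichletCharacter ℂ q) :
    ‖LSeries (fun n => (Λ n : ℂ) * χ.primitiveCharacter (n : ZMod χ.conductor)) 2‖ ≤ K0 := by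
  have hs : Summable fun n : ℕ => ‖LSeries.term (fun n => (Λ n : ℂ)) 2 n‖ := by
    have := LSeriesSummable_vonMangoldt (s := 2) (by norm_num)
    exact this.norm
  have hle : ∀ n : ℕ, ‖LSeries.term (fun n => (Λ n : ℂ) *
      χ.primitiveCharacter (n : ZMod χ.conductor)) 2 n‖ ≤
      ‖LSeries.term (fun n => (Λ n : ℂ)) 2 n‖ := by
    intro n
    refine LSeries.norm_term_le 2 ?_
    rw [norm_mul]
    exact mul_le_of_le_one_right (norm_nonneg _) (DirichletCharacter.norm_le_one _ _)
  have hs' : Summable fun n : ℕ => ‖LSeries.term (fun n => (Λ n : ℂ) *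
      χ.primitiveCharacter (n : ZMod χ.conductor)) 2 n‖ :=
    Summable.of_nonneg_of_le (fun n => norm_nonneg _) hle hs
  unfold LSeries K0
  exact (norm_tsum_le_tsum_norm hs').trans (hs'.tsum_le_tsum hle hs)

/-- The constant. -/
noncomputable def D0 : ℝ :=
  2 + Real.log Real.pi + ‖Complex.digamma 1‖ + ‖Complex.digamma (3 / 2)‖ + K0

lemma K0_nonneg : 0 ≤ K0 := tsum_nonneg fun _ => norm_nonneg _

lemma logpi_nonneg : 0 ≤ Real.log Real.pi := Real.log_nonneg (by linarith [Real.pi_gt_three])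

lemma D0_ge : 2 ≤ D0 := by
  unfold D0
  have := K0_nonneg
  have := logpi_nonneg
  have := norm_nonneg (Complex.digamma 1)
  have := norm_nonneg (Complex.digamma (3 / 2))
  linarith

lemma term_le (h1 : Stmt_EXPL) (q : ℕ) [NeZero q] (χ : DirichletCharacter ℂ q) :
    |(Hc χ 2).re| ≤ Real.log q + D0 := by
  have h := h1 q χ 2 (by norm_num)
  have hA : ‖(if χ = 1 then 1 / (2 : ℂ) + 1 / (2 - 1) else 0)‖ ≤ 2 := by
    split_ifs
    · norm_num
    · norm_num
  have hq0 : 0 < q := Nat.pos_of_ne_zero (NeZero.ne q)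
  have hc0 : 0 < χ.conductor := Nat.pos_of_ne_zero χ.conductor_ne_zero
  have hc : χ.conductor ≤ q := Nat.le_of_dvd hq0 χ.conductor_dvd_level
  have hcR : (0 : ℝ) < χ.conductor := by exact_mod_cast hc0
  have hB : ‖(1 / 2 : ℂ) * (Real.log (χ.conductor / Real.pi) : ℂ)‖
      ≤ Real.log q + Real.log Real.pi := by
    rw [norm_mul, Complex.norm_real, Real.norm_eq_abs,
      Real.log_div (by positivity) Real.pi_ne_zero]
    have h3 : 0 ≤ Real.log χ.conductor := Real.log_nonneg (by exact_mod_cast hc0)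
    have h4 : Real.log χ.conductor ≤ Real.log q :=
      Real.log_le_log hcR (by exact_mod_cast hc)
    have h5 := logpi_nonneg
    have h6 : |Real.log χ.conductor - Real.log Real.pi| ≤ Real.log q + Real.log Real.pi := by
      rw [abs_le]
      constructor <;> linarith
    have h7 : ‖(1 / 2 : ℂ)‖ = 1 / 2 := by norm_num
    rw [h7]
    have h8 : 0 ≤ |Real.log χ.conductor - Real.log Real.pi| := abs_nonneg _
    linarith
  have hC : ‖(1 / 2 : ℂ) * Complex.digamma ((2 + kap χ) / 2)‖
      ≤ ‖Complex.digamma 1‖ + ‖Complex.digamma (3 / 2)‖ := by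
    rw [norm_mul]
    have h7 : ‖(1 / 2 : ℂ)‖ = 1 / 2 := by norm_num
    rw [h7]
    have h8 := norm_nonneg (Complex.digamma 1)
    have h9 := norm_nonneg (Complex.digamma (3 / 2))
    unfold kap
    split_ifs
    · have : ((2 : ℂ) + ((0 : ℝ) : ℂ)) / 2 = 1 := by push_cast; norm_num
      rw [this]
      linarith
    · have : ((2 : ℂ) + ((1 : ℝ) : ℂ)) / 2 = 3 / 2 := by push_cast; norm_num
      rw [this]
      linarith
  have hD := norm_LSeries_le χ
  have h0 : |(Hc χ 2).re| ≤ ‖Hc χ 2‖ := Complex.abs_re_le_norm _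
  rw [h] at h0 ⊢
  refine h0.trans ?_
  refine (norm_sub_le _ _).trans ?_
  have h9 := (norm_add_le ((if χ = 1 then 1 / (2 : ℂ) + 1 / (2 - 1) else 0)
    + 1 / 2 * (Real.log (χ.conductor / Real.pi) : ℂ))
    (1 / 2 * Complex.digamma ((2 + kap χ) / 2)))
  have h10 := norm_add_le (if χ = 1 then 1 / (2 : ℂ) + 1 / (2 - 1) else 0)
    (1 / 2 * (Real.log (χ.conductor / Real.pi) : ℂ))
  unfold D0
  linarith

end H2

/-- H2. -/
theorem stmt_H2 (h1 : Stmt_EXPL) (_h2 : Stmt_DIG) : Stmt_H2 := by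
  refine ⟨1 + H2.D0, by linarith [H2.D0_ge], fun q _ hq => ?_⟩
  have hl : 1 ≤ Real.log q := by
    rw [Real.le_log_iff_exp_le (by positivity)]
    have : (3 : ℝ) ≤ q := by exact_mod_cast hq
    linarith [Real.exp_one_lt_d9]
  have hcard : (Finset.univ : Finset (DirichletCharacter ℂ q)).card = q.totient := by
    rw [Finset.card_univ, ← Nat.card_eq_fintype_card]
    exact DirichletCharacter.card_eq_totient_of_hasEnoughRootsOfUnity ℂ q
  calc ∑ χ : DirichletCharacter ℂ q, |(Hc χ 2).re|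
      ≤ ∑ _χ : DirichletCharacter ℂ q, (Real.log q + H2.D0) :=
        Finset.sum_le_sum fun χ _ => H2.term_le h1 q χ
    _ = q.totient * (Real.log q + H2.D0) := by
        rw [Finset.sum_const, hcard, nsmul_eq_mul]
    _ ≤ (1 + H2.D0) * q.totient * Real.log q := by
        have h0 : (0 : ℝ) ≤ q.totient := by positivity
        have hD := H2.D0_ge
        have h2 : H2.D0 ≤ H2.D0 * Real.log q := le_mul_of_one_le_right (by linarith) hl
        nlinarith [mul_le_mul_of_nonneg_left h2 h0]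

end Pool.Agent.AQ
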