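import Mathlib
import Pool.Agent.Work.MP_99218a_nt.Interface

set_option autoImplicit false

namespace Pool.Agent.AQ

open Filter Topology

theorem hcon_diff {Ψ : ℂ → ℂ} (h : Xi Ψ) :
    DifferentiableOn ℂ (logDeriv Ψ) {s | 1 / 2 < s.re} := by
  intro s hs
  have h1 : DifferentiableAt ℂ (deriv Ψ) s := (h.diff.analyticAt s).deriv.differentiableAt
  exact (h1.div (h.diff s) (h.ne s hs)).differentiableWithinAt

/-- The two sides, after removal of the zeros in `F`. -/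
theorem hcon_bound (hREM : Stmt_REM) (hPOS : Stmt_POS) (hHER : Stmt_HER) {Φ : ℂ → ℂ} (h : Xi Φ)
    (F : Finset ℝ) (ε : ℝ) (hε : (HF Φ F 1).re ≤ ε) (s : ℂ) (hs : 1 / 2 < s.re) :
    ‖HF Φ F s - HF Φ F 1‖ ≤ ε * (2 * (‖(s - 1) / s‖ / (1 - ‖(s - 1) / s‖))) := by
  obtain ⟨Ψ, hΨ, hΨF, -, -⟩ := hREM Φ h F
  have h1 : (1 / 2 : ℝ) < (1 : ℂ).re := by norm_num
  have key := hHER (logDeriv Ψ) (hcon_diff hΨ) (fun z hz => hPOS Ψ hΨ z hz) 1 s h1 hs
  rw [hΨF 1 h1, hΨF s hs] at key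
  have h2 : s + (starRingEnd ℂ) 1 - 1 = s := by rw [map_one]; ring
  rw [h2] at key
  have hlt : ‖(s - 1) / s‖ < 1 := by
    have hs0 : s ≠ 0 := by
      rintro rfl
      norm_num at hs
    rw [norm_div, div_lt_one (norm_pos_iff.2 hs0)]
    apply (sq_lt_sq₀ (norm_nonneg _) (norm_nonneg _)).1
    rw [← Complex.normSq_eq_norm_sq, ← Complex.normSq_eq_norm_sq, Complex.normSq_apply,
      Complex.normSq_apply]
    simp only [Complex.sub_re, Complex.one_re, Complex.sub_im, Complex.one_im]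
    nlinarith
  have hK : 0 ≤ ‖(s - 1) / s‖ / (1 - ‖(s - 1) / s‖) :=
    div_nonneg (norm_nonneg _) (by linarith)
  calc ‖HF Φ F s - HF Φ F 1‖ ≤ _ := key
    _ = (HF Φ F 1).re * (2 * (‖(s - 1) / s‖ / (1 - ‖(s - 1) / s‖))) := by ring
    _ ≤ _ := mul_le_mul_of_nonneg_right hε (by positivity)

theorem hcon_comb {ι : Type} [Fintype ι] (Φ : ι → ℂ → ℂ) (w : ι → ℂ)
    (hw : ∀ γ : ℝ, ∑ i, w i * (mult (Φ i) γ : ℂ) = 0) (F : Finset ℝ) (s : ℂ) :
    ∑ i, w i * HF (Φ i) F s = ∑ i, w i * logDeriv (Φ i) s := by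
  have h1 : ∑ i, w i * ∑ γ ∈ F, (mult (Φ i) γ : ℂ) / (s - rho γ) = 0 := by
    calc ∑ i, w i * ∑ γ ∈ F, (mult (Φ i) γ : ℂ) / (s - rho γ)
        = ∑ i, ∑ γ ∈ F, w i * (mult (Φ i) γ : ℂ) / (s - rho γ) := by
          refine Finset.sum_congr rfl fun i _ => ?_
          rw [Finset.mul_sum]
          refine Finset.sum_congr rfl fun γ _ => ?_
          ring
      _ = ∑ γ ∈ F, ∑ i, w i * (mult (Φ i) γ : ℂ) / (s - rho γ) := Finset.sum_comm
      _ = ∑ γ ∈ F, 0 := by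
          refine Finset.sum_congr rfl fun γ _ => ?_
          rw [← Finset.sum_div, hw γ, zero_div]
      _ = 0 := Finset.sum_const_zero
  have h2 : ∑ i, w i * HF (Φ i) F s
      = ∑ i, w i * logDeriv (Φ i) s - ∑ i, w i * ∑ γ ∈ F, (mult (Φ i) γ : ℂ) / (s - rho γ) := by
    rw [← Finset.sum_sub_distrib]
    refine Finset.sum_congr rfl fun i _ => ?_
    rw [HF, mul_sub]
  rw [h2, h1, sub_zero]

theorem stmt_HCON (hCOM : Stmt_COM) (hREM : Stmt_REM) (hPOS : Stmt_POS) (hHER : Stmt_HER) :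
    Stmt_HCON := by
  intro ι _ Φ w hΦ hw s hs
  rw [← sub_eq_zero, ← norm_eq_zero]
  refine le_antisymm (le_of_forall_pos_le_add fun δ hδ => ?_) (norm_nonneg _)
  rw [zero_add]
  set K : ℝ := 2 * (‖(s - 1) / s‖ / (1 - ‖(s - 1) / s‖)) with hK
  set W : ℝ := ∑ i, ‖w i‖ with hW
  have hW0 : 0 ≤ W := Finset.sum_nonneg fun _ _ => norm_nonneg _
  have hKa := le_abs_self K
  have hKb := abs_nonneg K
  set ε : ℝ := δ / ((W + 1) * (|K| + 1)) with hεd
  have hε : 0 < ε := by positivity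
  choose F0 hF0 using fun i => hCOM (Φ i) (hΦ i) ε hε
  set F : Finset ℝ := Finset.univ.biUnion F0 with hF
  have hsub : ∀ i, F0 i ⊆ F := fun i => Finset.subset_biUnion_of_mem F0 (Finset.mem_univ i)
  have hb : ∀ i, ‖HF (Φ i) F s - HF (Φ i) F 1‖ ≤ ε * K := fun i =>
    hcon_bound hREM hPOS hHER (hΦ i) F ε (hF0 i F (hsub i)) s hs
  rw [← hcon_comb Φ w hw F s, ← hcon_comb Φ w hw F 1, ← Finset.sum_sub_distrib]
  calc ‖∑ i, (w i * HF (Φ i) F s - w i * HF (Φ i) F 1)‖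
      ≤ ∑ i, ‖w i‖ * (ε * K) := by
        refine norm_sum_le_of_le _ fun i _ => ?_
        rw [← mul_sub, norm_mul]
        exact mul_le_mul_of_nonneg_left (hb i) (norm_nonneg _)
    _ = W * (ε * K) := by rw [← Finset.sum_mul]
    _ ≤ W * (ε * |K|) := mul_le_mul_of_nonneg_left (mul_le_mul_of_nonneg_left hKa hε.le) hW0
    _ ≤ δ := by
        rw [hεd]
        rw [div_mul_eq_mul_div, mul_div_assoc', div_le_iff₀ (by positivity)]
        nlinarith [mul_nonneg hW0 hKb, mul_pos hδ (show (0 : ℝ) < 1 by norm_num),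
          mul_nonneg hδ.le hW0, mul_nonneg hδ.le hKb]

end Pool.Agent.AQ
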