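import Pool.Agent.Work.MP_99218a_nt.Interface

set_option autoImplicit false

namespace Pool.Agent.AQ

open Filter Topology MeasureTheory
open scoped ComplexConjugate

/-- HER: Schwarz–Pick / Borel–Carathéodory in the half-plane `re s > 1/2`. -/
theorem stmt_HER : Stmt_HER := by
  intro H hd hpos s z hs hz
  -- the Cayley transform
  set w : ℂ := (z - s) / (z + conj s - 1) with hw
  have hden : z + conj s - 1 ≠ 0 := by
    intro h
    have := congrArg Complex.re h
    simp at this
    linarith
  have hw1 : ‖w‖ < 1 := by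
    rw [hw, norm_div, div_lt_one (norm_pos_iff.mpr hden),
      ← sq_lt_sq₀ (norm_nonneg _) (norm_nonneg _), ← Complex.normSq_eq_norm_sq,
      ← Complex.normSq_eq_norm_sq, Complex.normSq_apply, Complex.normSq_apply]
    simp only [Complex.sub_re, Complex.add_re, Complex.conj_re, Complex.one_re, Complex.sub_im,
      Complex.add_im, Complex.conj_im, Complex.one_im]
    nlinarith [mul_pos (sub_pos.mpr hs) (sub_pos.mpr hz)]
  set φ : ℂ → ℂ := fun v => (s + v * (conj s - 1)) / (1 - v) with hφ
  have hne : ∀ v : ℂ, v ∈ Metric.ball (0 : ℂ) 1 → 1 - v ≠ 0 := by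
    intro v hv h
    rw [mem_ball_zero_iff] at hv
    have : v = 1 := (sub_eq_zero.mp h).symm
    rw [this, norm_one] at hv
    exact lt_irrefl _ hv
  have hφw : φ w = z := by
    have h1 : 1 - w ≠ 0 := hne w (by rwa [mem_ball_zero_iff])
    have h2 : w * (z + conj s - 1) = z - s := by rw [hw]; field_simp
    simp only [hφ]
    rw [div_eq_iff h1]
    linear_combination h2
  have hφre : ∀ v : ℂ, v ∈ Metric.ball (0 : ℂ) 1 → 1 / 2 < (φ v).re := by
    intro v hv
    have h1 := hne v hv
    rw [mem_ball_zero_iff] at hv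
    have hn : 0 < Complex.normSq (1 - v) := Complex.normSq_pos.mpr h1
    have hv2 : v.re * v.re + v.im * v.im < 1 := by
      have : Complex.normSq v < 1 := by
        rw [Complex.normSq_eq_norm_sq]
        nlinarith [norm_nonneg v]
      rwa [Complex.normSq_apply] at this
    have h3 : (φ v).re - 1 / 2 = (s.re - 1 / 2) * (1 - (v.re * v.re + v.im * v.im)) /
        Complex.normSq (1 - v) := by
      simp only [hφ]
      rw [Complex.div_re, eq_div_iff hn.ne']
      have h4 : Complex.normSq (1 - v) = (1 - v.re) * (1 - v.re) + v.im * v.im := by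
        rw [Complex.normSq_apply]; simp
      rw [sub_mul, add_mul, div_mul_cancel₀ _ hn.ne', div_mul_cancel₀ _ hn.ne', h4]
      simp
      ring
    have h5 : 0 < (φ v).re - 1 / 2 := by
      rw [h3]
      apply div_pos (mul_pos (by linarith) (by linarith)) hn
    linarith
  set f : ℂ → ℂ := fun v => H s - H (φ v) with hf
  have hfd : DifferentiableOn ℂ f (Metric.ball 0 1) := by
    apply DifferentiableOn.sub (differentiableOn_const _)
    apply hd.comp
    · apply DifferentiableOn.div (by fun_prop) (by fun_prop) hne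
    · intro v hv
      exact hφre v hv
  have hf0 : f 0 = 0 := by
    simp [hf, hφ]
  have hwb : w ∈ Metric.ball (0 : ℂ) 1 := by rwa [mem_ball_zero_iff]
  have key : ∀ ε : ℝ, 0 < ε → ‖f w‖ ≤ 2 * ((H s).re + ε) * ‖w‖ / (1 - ‖w‖) := by
    intro ε hε
    refine Complex.borelCaratheodory_zero (by have := hpos s hs; linarith) hfd ?_ one_pos hwb hf0
    intro v hv
    have := hpos _ (hφre v hv)
    simp only [hf, Set.mem_ofPred_eq, Complex.sub_re]
    linarith
  have hfw : ‖H z - H s‖ = ‖f w‖ := by
    simp only [hf]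
    rw [hφw, norm_sub_rev]
  rw [hfw]
  set t : ℝ := ‖w‖ / (1 - ‖w‖) with ht
  have ht0 : 0 ≤ t := div_nonneg (norm_nonneg _) (by linarith)
  apply le_of_forall_pos_le_add
  intro ε hε
  have h1 := key (ε / (2 * t + 1)) (by positivity)
  rw [mul_div_assoc, ← ht] at h1
  have h2 : ε / (2 * t + 1) * (2 * t) ≤ ε := by
    rw [div_mul_eq_mul_div, div_le_iff₀ (by positivity)]
    nlinarith
  nlinarith

end Pool.Agent.AQ
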