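import Pool.Agent.Work.MP_99218a_nt.Interface

/-! Block HPC: Cauchy's formula for a half-plane. -/

namespace Pool.Agent.AQ

open Filter Topology MeasureTheory ArithmeticFunction
open scoped ComplexConjugate Classical

namespace HPCaux

theorem int_poisson (A : ℝ) (hA : 0 < A) :
    Integrable (fun y : ℝ => A / (A ^ 2 + y ^ 2)) ∧ ∫ y : ℝ, A / (A ^ 2 + y ^ 2) = Real.pi := by
  have hfun : (fun y : ℝ => A / (A ^ 2 + y ^ 2)) = fun y : ℝ => A⁻¹ * (1 + (A⁻¹ * y) ^ 2)⁻¹ := by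
    funext y
    have h1 : (0 : ℝ) < A ^ 2 + y ^ 2 := by positivity
    have h2 : (0 : ℝ) < 1 + (A⁻¹ * y) ^ 2 := by positivity
    field_simp
  have hi : Integrable (fun y : ℝ => (1 + y ^ 2)⁻¹) := integrable_inv_one_add_sq
  have hne : A⁻¹ ≠ 0 := inv_ne_zero hA.ne'
  constructor
  · rw [hfun]
    exact (hi.comp_mul_left' hne).const_mul _
  · rw [hfun, integral_const_mul]
    have := Measure.integral_comp_mul_left (fun y : ℝ => (1 + y ^ 2)⁻¹) A⁻¹
    rw [this, integral_univ_inv_one_add_sq, inv_inv, abs_of_pos hA, smul_eq_mul]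
    field_simp

theorem int_odd (A B : ℝ) (hA : 0 < A) (hB : 0 < B) :
    Integrable (fun y : ℝ => y * (B ^ 2 - A ^ 2) / ((A ^ 2 + y ^ 2) * (B ^ 2 + y ^ 2))) ∧
      ∫ y : ℝ, y * (B ^ 2 - A ^ 2) / ((A ^ 2 + y ^ 2) * (B ^ 2 + y ^ 2)) = 0 := by
  constructor
  · have h0 := ((int_poisson A hA).1).const_mul ((|B ^ 2 - A ^ 2| / (2 * B)) / A)
    refine h0.mono' ?_ (Eventually.of_forall fun y => ?_)
    · apply Continuous.aestronglyMeasurable
      apply Continuous.div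
      · fun_prop
      · fun_prop
      · intro y
        have : (0 : ℝ) < (A ^ 2 + y ^ 2) * (B ^ 2 + y ^ 2) := by positivity
        exact this.ne'
    · have h1 : (0 : ℝ) < A ^ 2 + y ^ 2 := by positivity
      have h2 : (0 : ℝ) < B ^ 2 + y ^ 2 := by positivity
      rw [Real.norm_eq_abs, abs_div, abs_mul, abs_of_pos (mul_pos h1 h2)]
      have h3 : |y| * (2 * B) ≤ B ^ 2 + y ^ 2 := by
        have := two_mul_le_add_sq B |y|
        rw [sq_abs] at this
        linarith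
      have h4 : |B ^ 2 - A ^ 2| / (2 * B) / A * (A / (A ^ 2 + y ^ 2)) =
          |B ^ 2 - A ^ 2| / (2 * B * (A ^ 2 + y ^ 2)) := by
        field_simp
      rw [h4, div_le_div_iff₀ (mul_pos h1 h2) (by positivity)]
      have h5 : 0 ≤ |B ^ 2 - A ^ 2| := abs_nonneg _
      nlinarith [mul_le_mul_of_nonneg_left h3 (mul_nonneg h5 h1.le)]
  · have h := integral_neg_eq_self
      (fun y : ℝ => y * (B ^ 2 - A ^ 2) / ((A ^ 2 + y ^ 2) * (B ^ 2 + y ^ 2))) volume
    have h2 : (fun y : ℝ => (-y) * (B ^ 2 - A ^ 2) / ((A ^ 2 + (-y) ^ 2) * (B ^ 2 + (-y) ^ 2))) =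
        fun y : ℝ => -(y * (B ^ 2 - A ^ 2) / ((A ^ 2 + y ^ 2) * (B ^ 2 + y ^ 2))) := by
      funext y
      rw [neg_sq]
      ring
    simp only [h2, integral_neg] at h
    linarith

theorem kernel_eq (σ p w : ℝ) (hp : σ < p) (hw : w < σ) (y : ℝ) :
    ((p : ℂ) - w) / (((p : ℂ) - vl σ y) * (vl σ y - w)) =
      (((p - σ) / ((p - σ) ^ 2 + y ^ 2) + (σ - w) / ((σ - w) ^ 2 + y ^ 2) : ℝ) : ℂ) +
      ((y * ((σ - w) ^ 2 - (p - σ) ^ 2) / (((p - σ) ^ 2 + y ^ 2) * ((σ - w) ^ 2 + y ^ 2)) : ℝ) : ℂ)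
        * Complex.I := by
  have hA : 0 < p - σ := by linarith
  have hB : 0 < σ - w := by linarith
  have h1 : (0 : ℝ) < (p - σ) ^ 2 + y ^ 2 := by positivity
  have h2 : (0 : ℝ) < (σ - w) ^ 2 + y ^ 2 := by positivity
  have e1 : (((p : ℂ) - vl σ y) * (vl σ y - w)) ≠ 0 := by
    apply mul_ne_zero
    · intro h
      have := congrArg Complex.re h
      simp [vl] at this
      linarith
    · intro h
      have := congrArg Complex.re h
      simp [vl] at this
      linarith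
  have c1 : (((p : ℂ) - σ) ^ 2 + (y : ℂ) ^ 2) ≠ 0 := by exact_mod_cast h1.ne'
  have c2 : (((σ : ℂ) - w) ^ 2 + (y : ℂ) ^ 2) ≠ 0 := by exact_mod_cast h2.ne'
  have hI : Complex.I ^ 2 = -1 := Complex.I_sq
  have f1 : (((p : ℂ) - σ) ^ 2 + (y : ℂ) ^ 2) =
      (((p : ℂ) - σ) - y * Complex.I) * (((p : ℂ) - σ) + y * Complex.I) := by
    linear_combination ((y : ℂ) ^ 2) * hI
  have f2 : (((σ : ℂ) - w) ^ 2 + (y : ℂ) ^ 2) =
      (((σ : ℂ) - w) - y * Complex.I) * (((σ : ℂ) - w) + y * Complex.I) := by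
    linear_combination ((y : ℂ) ^ 2) * hI
  push_cast
  rw [div_add_div _ _ c1 c2, div_mul_eq_mul_div, ← add_div, div_eq_div_iff e1 (mul_ne_zero c1 c2)]
  rw [f1, f2]
  simp only [vl]
  ring

theorem kernel_int (σ p w : ℝ) (hp : σ < p) (hw : w < σ) :
    Integrable (fun y : ℝ => ((p : ℂ) - w) / (((p : ℂ) - vl σ y) * (vl σ y - w))) ∧
      ∫ y : ℝ, ((p : ℂ) - w) / (((p : ℂ) - vl σ y) * (vl σ y - w)) = 2 * Real.pi := by
  have hA : 0 < p - σ := by linarith
  have hB : 0 < σ - w := by linarith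
  simp only [kernel_eq σ p w hp hw]
  have i1 : Integrable (fun y : ℝ => (((p - σ) / ((p - σ) ^ 2 + y ^ 2) +
      (σ - w) / ((σ - w) ^ 2 + y ^ 2) : ℝ) : ℂ)) :=
    ((int_poisson _ hA).1.add (int_poisson _ hB).1).ofReal (𝕜 := ℂ)
  have i2 : Integrable (fun y : ℝ => ((y * ((σ - w) ^ 2 - (p - σ) ^ 2) /
      (((p - σ) ^ 2 + y ^ 2) * ((σ - w) ^ 2 + y ^ 2)) : ℝ) : ℂ) * Complex.I) :=
    ((int_odd _ _ hA hB).1.ofReal (𝕜 := ℂ)).mul_const Complex.I
  constructor
  · exact i1.add i2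
  · rw [integral_add i1 i2]
    have j1 : ∫ y : ℝ, (((p - σ) / ((p - σ) ^ 2 + y ^ 2) +
        (σ - w) / ((σ - w) ^ 2 + y ^ 2) : ℝ) : ℂ) = ((2 * Real.pi : ℝ) : ℂ) := by
      rw [integral_complex_ofReal, integral_add (int_poisson _ hA).1 (int_poisson _ hB).1,
        (int_poisson _ hA).2, (int_poisson _ hB).2]
      congr 1
      ring
    have j2 : ∫ y : ℝ, ((y * ((σ - w) ^ 2 - (p - σ) ^ 2) /
        (((p - σ) ^ 2 + y ^ 2) * ((σ - w) ^ 2 + y ^ 2)) : ℝ) : ℂ) * Complex.I = 0 := by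
      rw [integral_mul_const, integral_complex_ofReal, (int_odd _ _ hA hB).2]
      simp
    rw [j2, add_zero, j1]
    push_cast
    ring

end HPCaux

open HPCaux in
theorem stmt_HPC (hSHR : Stmt_SHR) : Stmt_HPC := by
  intro F σ p w C hp hw hd hF
  have hC : 0 ≤ C := by
    have h := hF (p : ℂ) (by simpa using hp.le)
    have h2 : 0 < (1 + ‖(p : ℂ)‖) ^ (1 / 2 : ℝ) := by positivity
    by_contra hneg
    push Not at hneg
    have := mul_neg_of_neg_of_pos hneg h2
    linarith [norm_nonneg (F (p : ℂ))]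
  set g : ℂ → ℂ := fun s => -(dslope F (p : ℂ) s * (((p : ℂ) - w) / (s - w))) with hg
  have hnw : ∀ s : ℂ, σ ≤ s.re → s - (w : ℂ) ≠ 0 := by
    intro s hs h
    have := congrArg Complex.re h
    simp at this
    linarith
  have hds : ∀ s : ℂ, σ ≤ s.re → DifferentiableAt ℂ (dslope F (p : ℂ)) s := by
    intro s hs
    by_cases hsp : s = (p : ℂ)
    · subst hsp
      have hopen : IsOpen {s : ℂ | σ < s.re} := isOpen_lt continuous_const Complex.continuous_re
      have hmem : {s : ℂ | σ < s.re} ∈ 𝓝 (p : ℂ) := hopen.mem_nhds (by simpa using hp)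
      have h1 : DifferentiableOn ℂ F {s : ℂ | σ < s.re} := fun z hz =>
        (hd z (le_of_lt hz)).differentiableWithinAt
      exact ((Complex.differentiableOn_dslope hmem).2 h1).differentiableAt hmem
    · exact (differentiableAt_dslope_of_ne hsp).2 (hd s hs)
  have hgd : ∀ s : ℂ, σ ≤ s.re → DifferentiableAt ℂ g s := by
    intro s hs
    have h1 : DifferentiableAt ℂ (fun s : ℂ => ((p : ℂ) - w) / (s - w)) s :=
      (differentiableAt_const _).div (differentiableAt_id.sub_const _) (hnw s hs)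
    exact ((hds s hs).mul h1).neg
  -- growth
  set R : ℝ := 2 * (|p| + |w| + 1) with hR
  have hRpos : 0 < R := by positivity
  have hgc : ContinuousOn g (Metric.closedBall 0 R ∩ {s : ℂ | σ ≤ s.re}) := fun s hs =>
    (hgd s hs.2).continuousAt.continuousWithinAt
  have hcpt : IsCompact (Metric.closedBall (0 : ℂ) R ∩ {s : ℂ | σ ≤ s.re}) :=
    (isCompact_closedBall 0 R).inter_right (isClosed_le continuous_const Complex.continuous_re)
  obtain ⟨M, hM⟩ := hcpt.exists_bound_of_continuousOn hgc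
  have hM0 : 0 ≤ |M| := abs_nonneg _
  set C1 : ℝ := |M| * (1 + R) ^ (3 / 2 : ℝ) with hC1
  set C2 : ℝ := 16 * (C + ‖F (p : ℂ)‖) * |p - w| with hC2
  have hC10 : 0 ≤ C1 := by positivity
  have hC20 : 0 ≤ C2 := by positivity
  have hgb : ∀ s : ℂ, σ ≤ s.re → ‖g s‖ ≤ (C1 + C2) * (1 + ‖s‖) ^ (-(3 / 2) : ℝ) := by
    intro s hs
    have hx : 0 < 1 + ‖s‖ := by positivity
    have hxn : 0 < (1 + ‖s‖) ^ (-(3 / 2) : ℝ) := by positivity
    by_cases hsR : ‖s‖ ≤ R
    · have h1 : ‖g s‖ ≤ M := hM s ⟨by simpa using hsR, hs⟩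
      have h2 : (1 + R) ^ (-(3 / 2) : ℝ) ≤ (1 + ‖s‖) ^ (-(3 / 2) : ℝ) :=
        Real.rpow_le_rpow_of_nonpos hx (by linarith) (by norm_num)
      have h3 : |M| = C1 * (1 + R) ^ (-(3 / 2) : ℝ) := by
        rw [hC1, mul_assoc, ← Real.rpow_add (by positivity)]
        norm_num
      calc ‖g s‖ ≤ |M| := h1.trans (le_abs_self _)
        _ = C1 * (1 + R) ^ (-(3 / 2) : ℝ) := h3
        _ ≤ C1 * (1 + ‖s‖) ^ (-(3 / 2) : ℝ) := mul_le_mul_of_nonneg_left h2 hC10
        _ ≤ (C1 + C2) * (1 + ‖s‖) ^ (-(3 / 2) : ℝ) :=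
            mul_le_mul_of_nonneg_right (by linarith) hxn.le
    · push Not at hsR
      have hsp : s ≠ (p : ℂ) := by
        rintro rfl
        have : ‖(p : ℂ)‖ = |p| := by simp
        rw [this] at hsR
        have := abs_nonneg w
        have := abs_nonneg p
        linarith
      have n1 : (1 + ‖s‖) / 4 ≤ ‖s - p‖ := by
        have h1 : ‖s‖ - ‖(p : ℂ)‖ ≤ ‖s - p‖ := norm_sub_norm_le _ _
        have : ‖(p : ℂ)‖ = |p| := by simp
        rw [this] at h1
        have := abs_nonneg w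
        have := abs_nonneg p
        linarith
      have n2 : (1 + ‖s‖) / 4 ≤ ‖s - w‖ := by
        have h1 : ‖s‖ - ‖(w : ℂ)‖ ≤ ‖s - w‖ := norm_sub_norm_le _ _
        have : ‖(w : ℂ)‖ = |w| := by simp
        rw [this] at h1
        have := abs_nonneg w
        have := abs_nonneg p
        linarith
      have n3 : ‖F s - F p‖ ≤ (C + ‖F (p : ℂ)‖) * (1 + ‖s‖) ^ (1 / 2 : ℝ) := by
        have h1 : (1 : ℝ) ≤ (1 + ‖s‖) ^ (1 / 2 : ℝ) :=
          Real.one_le_rpow (by linarith [norm_nonneg s]) (by norm_num)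
        calc ‖F s - F p‖ ≤ ‖F s‖ + ‖F (p : ℂ)‖ := norm_sub_le _ _
          _ ≤ C * (1 + ‖s‖) ^ (1 / 2 : ℝ) + ‖F (p : ℂ)‖ * (1 + ‖s‖) ^ (1 / 2 : ℝ) := by
              have := hF s hs
              have := mul_le_mul_of_nonneg_left h1 (norm_nonneg (F (p : ℂ)))
              linarith
          _ = _ := by ring
      have hval : ‖g s‖ = ‖F s - F p‖ * |p - w| / (‖s - p‖ * ‖s - w‖) := by
        rw [hg]
        simp only [norm_neg, norm_mul, norm_div]
        rw [dslope_of_ne _ hsp, slope_def_field, norm_div]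
        have : ‖(p : ℂ) - w‖ = |p - w| := by
          rw [← Complex.ofReal_sub, Complex.norm_real, Real.norm_eq_abs]
        rw [this]
        field_simp
      have hpow : (1 + ‖s‖) ^ (1 / 2 : ℝ) = (1 + ‖s‖) ^ (-(3 / 2) : ℝ) * (1 + ‖s‖) ^ 2 := by
        rw [← Real.rpow_natCast, ← Real.rpow_add hx]
        norm_num
      rw [hval]
      have d1 : 0 < ‖s - p‖ := lt_of_lt_of_le (by positivity) n1
      have d2 : 0 < ‖s - w‖ := lt_of_lt_of_le (by positivity) n2
      rw [div_le_iff₀ (mul_pos d1 d2)]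
      have n4 : (1 + ‖s‖) ^ 2 / 16 ≤ ‖s - p‖ * ‖s - w‖ := by
        have := mul_le_mul n1 n2 (by positivity) d1.le
        calc (1 + ‖s‖) ^ 2 / 16 = (1 + ‖s‖) / 4 * ((1 + ‖s‖) / 4) := by ring
          _ ≤ _ := this
      calc ‖F s - F p‖ * |p - w| ≤
            ((C + ‖F (p : ℂ)‖) * (1 + ‖s‖) ^ (1 / 2 : ℝ)) * |p - w| :=
            mul_le_mul_of_nonneg_right n3 (abs_nonneg _)
        _ = C2 * (1 + ‖s‖) ^ (-(3 / 2) : ℝ) * ((1 + ‖s‖) ^ 2 / 16) := by
            rw [hC2, hpow]; ring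
        _ ≤ C2 * (1 + ‖s‖) ^ (-(3 / 2) : ℝ) * (‖s - p‖ * ‖s - w‖) :=
            mul_le_mul_of_nonneg_left n4 (by positivity)
        _ ≤ (C1 + C2) * (1 + ‖s‖) ^ (-(3 / 2) : ℝ) * (‖s - p‖ * ‖s - w‖) := by
            apply mul_le_mul_of_nonneg_right _ (mul_pos d1 d2).le
            exact mul_le_mul_of_nonneg_right (by linarith) hxn.le
  have hzero := hSHR g σ (C1 + C2) hgd hgb
  have hvc : Continuous (fun y : ℝ => vl σ y) := by
    unfold vl
    fun_prop
  have hvre : ∀ y : ℝ, (vl σ y).re = σ := by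
    intro y; simp [vl]
  have hgi : Integrable (fun y : ℝ => g (vl σ y)) := by
    have hb : Integrable (fun y : ℝ => (C1 + C2) * (1 + ‖y‖) ^ (-(3 / 2) : ℝ)) := by
      have := integrable_one_add_norm (E := ℝ) (μ := volume) (r := 3 / 2) (by norm_num)
      exact this.const_mul _
    refine hb.mono' ?_ (Eventually.of_forall fun y => ?_)
    · apply Continuous.aestronglyMeasurable
      rw [continuous_iff_continuousAt]
      intro y
      exact ((hgd (vl σ y) (hvre y).ge).continuousAt).comp hvc.continuousAt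
    · refine (hgb (vl σ y) (hvre y).ge).trans ?_
      apply mul_le_mul_of_nonneg_left _ (by positivity)
      apply Real.rpow_le_rpow_of_nonpos (by positivity) _ (by norm_num)
      have h1 : |(vl σ y).im| ≤ ‖vl σ y‖ := Complex.abs_im_le_norm _
      have h2 : (vl σ y).im = y := by simp [vl]
      rw [h2] at h1
      rw [Real.norm_eq_abs]
      linarith
  obtain ⟨hki, hkv⟩ := kernel_int σ p w hp hw
  have hpt : (fun y : ℝ => F (vl σ y) * (((p : ℂ) - w) / (((p : ℂ) - vl σ y) * (vl σ y - w)))) =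
      fun y : ℝ => g (vl σ y) +
        F p * (((p : ℂ) - w) / (((p : ℂ) - vl σ y) * (vl σ y - w))) := by
    funext y
    have hs : vl σ y ≠ (p : ℂ) := by
      intro h
      have := congrArg Complex.re h
      rw [hvre] at this
      simp at this
      linarith
    have e1 : (p : ℂ) - vl σ y ≠ 0 := sub_ne_zero.2 hs.symm
    have e2 : vl σ y - (p : ℂ) ≠ 0 := sub_ne_zero.2 hs
    have e3 : vl σ y - (w : ℂ) ≠ 0 := hnw _ (hvre y).ge
    simp only [hg]
    rw [dslope_of_ne _ hs, slope_def_field]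
    field_simp
    ring
  rw [hpt, integral_add hgi (hki.const_mul _), hzero, integral_const_mul, hkv]
  ring

end Pool.Agent.AQ
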