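import Pool.Agent.Work.MP_99218a_nt.Interface

/-! # Block INS: squares are inside -/

set_option autoImplicit false

namespace Pool.Agent.AQ

open Filter Topology MeasureTheory ArithmeticFunction
open scoped ComplexConjugate Classical

namespace INSaux

/-- the number of square roots of a square unit -/
theorem rt_eq (q : ℕ) (a : ℤ) (ha : IsUnit (a : ZMod q)) (hs : IsSquare (a : ZMod q)) :
    rt q a = rt q 1 := by
  obtain ⟨c, hc⟩ := hs
  have hcu : IsUnit c := by
    rw [hc] at ha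
    exact isUnit_of_mul_isUnit_left ha
  obtain ⟨w, hw⟩ := hcu
  unfold rt
  refine Nat.card_congr (Equiv.symm ⟨fun b => ⟨c * b.1, ?_⟩, fun b => ⟨(↑(w⁻¹) : ZMod q) * b.1, ?_⟩,
    ?_, ?_⟩)
  · have h := b.2
    rw [mul_pow, h, hc]
    push_cast
    ring
  · have h := b.2
    rw [mul_pow, h, hc, ← hw]
    have h1 : (↑(w⁻¹) : ZMod q) * (w : ZMod q) = 1 := Units.inv_mul w
    push_cast
    calc (↑(w⁻¹) : ZMod q) ^ 2 * ((w : ZMod q) * (w : ZMod q)) =
        ((↑(w⁻¹) : ZMod q) * (w : ZMod q)) ^ 2 := by ring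
      _ = 1 := by rw [h1, one_pow]
  · intro b
    apply Subtype.ext
    change (↑(w⁻¹) : ZMod q) * (c * b.1) = b.1
    rw [← hw, ← mul_assoc, Units.inv_mul, one_mul]
  · intro b
    apply Subtype.ext
    change c * ((↑(w⁻¹) : ZMod q) * b.1) = b.1
    rw [← hw, ← mul_assoc, Units.mul_inv, one_mul]

end INSaux

open INSaux in
theorem stmt_INS (hB : Stmt_BRI) (hJ : Stmt_J1) (hX : Stmt_XI) (hG : Stmt_GRO) : Stmt_INS := by
  intro hGRH q _ hN a ha hs
  obtain ⟨-, h2, -⟩ := hB hGRH q a ha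
  unfold NumOK at hN
  set M : ℝ := (∑ χ : DirichletCharacter ℂ q, (Hc χ (34 / 25)).re) / (43 / 50) with hM
  refine h2 (2 / 3 * rt q 1 - M) (by linarith) ?_
  intro u _
  rw [rt_eq q a ha hs]
  have hexp : (0 : ℝ) < Real.exp (u / 2) := Real.exp_pos _
  have hsq : √(Real.exp u) = Real.exp (u / 2) := by
    rw [Real.sqrt_eq_iff_mul_self_eq_of_pos hexp, ← Real.exp_add]
    ring_nf
  have key : ‖Gc q a u‖ ≤ M := by
    unfold Gc
    rw [norm_div, norm_neg, Complex.norm_real, Real.norm_of_nonneg hexp.le, div_le_iff₀ hexp]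
    refine (norm_sum_le _ _).trans ?_
    have hterm : ∀ χ : DirichletCharacter ℂ q,
        ‖χ⁻¹ (a : ZMod q) * J (Hc χ) (Real.exp u)‖ ≤
          (Hc χ (34 / 25)).re / (43 / 50) * Real.exp (u / 2) := by
      intro χ
      have hHg : Hg (Hc χ) := hG (PhiC χ) (hX hGRH q χ)
      by_cases hu : 1 ≤ Real.exp u
      · have h1 := hJ (Hc χ) hHg (Real.exp u) (43 / 50) hu (by norm_num) (by norm_num)
        have e1 : (((1 / 2 + 43 / 50 : ℝ)) : ℂ) = 34 / 25 := by
          push_cast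
          norm_num
        rw [e1, hsq] at h1
        rw [norm_mul]
        calc ‖χ⁻¹ (a : ZMod q)‖ * ‖J (Hc χ) (Real.exp u)‖ ≤ 1 * ‖J (Hc χ) (Real.exp u)‖ :=
              mul_le_mul_of_nonneg_right (DirichletCharacter.norm_le_one _ _) (norm_nonneg _)
          _ = ‖J (Hc χ) (Real.exp u)‖ := one_mul _
          _ ≤ _ := h1
          _ = _ := by ring
      · exact absurd (Real.one_le_exp ‹0 ≤ u›) hu
    refine (Finset.sum_le_sum fun χ _ => hterm χ).trans (le_of_eq ?_)
    rw [hM, Finset.sum_div, Finset.sum_mul]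
  have h3 := (Complex.re_le_norm (Gc q a u)).trans key
  linarith

end Pool.Agent.AQ
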