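import Pool.Agent.Work.MP_99218a_nt.Interface

/-! Blocks J1 and J0: the bound for the functional `J` and its value at `x = 1`. -/

set_option autoImplicit false

namespace Pool.Agent.AQ

open Filter Topology MeasureTheory
open scoped ComplexConjugate Classical

namespace J1h

lemma vl_re (σ y : ℝ) : (vl σ y).re = σ := by simp [vl]

lemma vl_im (σ y : ℝ) : (vl σ y).im = y := by simp [vl]

lemma continuous_vl (σ : ℝ) : Continuous (vl σ) := by
  unfold vl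
  fun_prop

lemma integrable_line {g : ℂ → ℂ} {C σ : ℝ}
    (hd : ∀ y : ℝ, DifferentiableAt ℂ g (vl σ y))
    (hb : ∀ y : ℝ, ‖g (vl σ y)‖ ≤ C * (1 + ‖vl σ y‖) ^ (-(3 / 2) : ℝ)) :
    Integrable fun y : ℝ => g (vl σ y) := by
  have hC : 0 ≤ C := by
    by_contra hC
    push Not at hC
    have h1 : 0 < (1 + ‖vl σ 0‖) ^ (-(3 / 2) : ℝ) := by positivity
    have h2 : C * (1 + ‖vl σ 0‖) ^ (-(3 / 2) : ℝ) < 0 := mul_neg_of_neg_of_pos hC h1
    linarith [norm_nonneg (g (vl σ 0)), hb 0]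
  have hcont : Continuous fun y : ℝ => g (vl σ y) := by
    rw [continuous_iff_continuousAt]
    intro y
    exact ContinuousAt.comp (f := vl σ) (hd y).continuousAt (continuous_vl σ).continuousAt
  have hdom : Integrable fun y : ℝ => C * (1 + ‖y‖) ^ (-(3 / 2) : ℝ) := by
    refine Integrable.const_mul ?_ C
    exact integrable_one_add_norm (E := ℝ) (μ := volume) (r := 3 / 2)
      (by rw [Module.finrank_self]; norm_num)
  refine hdom.mono' hcont.aestronglyMeasurable (Eventually.of_forall fun y => ?_)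
  refine (hb y).trans (mul_le_mul_of_nonneg_left ?_ hC)
  apply Real.rpow_le_rpow_of_nonpos
  · positivity
  · have := Complex.abs_im_le_norm (vl σ y)
    rw [vl_im] at this
    rw [Real.norm_eq_abs]
    linarith
  · norm_num

lemma ker_eq (σ y : ℝ) : SW.ker σ y = 1 / (vl σ y * (vl σ y + 1)) := rfl

lemma ne_zero_of_re {s : ℂ} (h : 0 < s.re) : s ≠ 0 := by
  intro h0
  rw [h0, Complex.zero_re] at h
  exact lt_irrefl _ h

/-- `‖s‖ ≥ (1 + ‖s‖) / 3` for `re s ≥ 1/2`. -/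
lemma norm_ge_third {s : ℂ} (hs : 1 / 2 ≤ s.re) : (1 + ‖s‖) / 3 ≤ ‖s‖ := by
  have := Complex.re_le_norm s
  linarith

/-- `‖s + c‖ ≥ ‖s‖` for `re s ≥ 0`, `c ≥ 0`. -/
lemma norm_add_ge {s : ℂ} (hs : 0 ≤ s.re) : ‖s‖ ≤ ‖s + 1‖ := by
  rw [← sq_le_sq₀ (norm_nonneg _) (norm_nonneg _), ← Complex.normSq_eq_norm_sq,
    ← Complex.normSq_eq_norm_sq, Complex.normSq_apply, Complex.normSq_apply]
  simp only [Complex.add_re, Complex.one_re, Complex.add_im, Complex.one_im, add_zero]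
  nlinarith

lemma norm_mul_ge {s : ℂ} (hs : 1 / 2 ≤ s.re) : (1 + ‖s‖) ^ 2 / 9 ≤ ‖s * (s + 1)‖ := by
  rw [norm_mul]
  have h1 := norm_ge_third hs
  have h2 := norm_add_ge (s := s) (by linarith)
  have h3 := norm_nonneg s
  nlinarith

/-- The bound for a quotient by a quadratic factor. -/
lemma quot_bound {f d C c : ℝ} {r : ℝ} (hr : 0 ≤ r) (hf : f ≤ C * (1 + r) ^ (1 / 2 : ℝ))
    (hf0 : 0 ≤ f) (hc : 0 < c) (hd : c * (1 + r) ^ 2 ≤ d) :
    f / d ≤ C / c * (1 + r) ^ (-(3 / 2) : ℝ) := by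
  have h1 : 0 < 1 + r := by linarith
  have h2 : (1 + r) ^ (-(3 / 2) : ℝ) = (1 + r) ^ (1 / 2 : ℝ) / (1 + r) ^ 2 := by
    rw [← Real.rpow_natCast (1 + r) 2, ← Real.rpow_sub h1]
    norm_num
  have h3 : 0 < c * (1 + r) ^ 2 := by positivity
  calc f / d ≤ f / (c * (1 + r) ^ 2) := div_le_div_of_nonneg_left hf0 h3 hd
    _ ≤ (C * (1 + r) ^ (1 / 2 : ℝ)) / (c * (1 + r) ^ 2) :=
        div_le_div_of_nonneg_right hf h3.le
    _ = C / c * (1 + r) ^ (-(3 / 2) : ℝ) := by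
        rw [h2]
        field_simp

lemma diffAt {H : ℂ → ℂ} (hH : Hg H) {s : ℂ} (hs : 1 / 2 < s.re) : DifferentiableAt ℂ H s := by
  have hop : IsOpen {z : ℂ | 1 / 2 < z.re} := isOpen_lt continuous_const Complex.continuous_re
  exact (hH.diff s hs).differentiableAt (hop.mem_nhds hs)

lemma norm_xpow {x : ℝ} (hx : 1 ≤ x) (s : ℂ) : ‖(x : ℂ) ^ s‖ = x ^ s.re :=
  Complex.norm_cpow_eq_rpow_re_of_pos (by linarith) s

lemma diff_xpow {x : ℝ} (hx : 1 ≤ x) (s : ℂ) : DifferentiableAt ℂ (fun z : ℂ => (x : ℂ) ^ z) s := by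
  have : (x : ℂ) ≠ 0 := by
    rw [Complex.ofReal_ne_zero]
    linarith
  exact DifferentiableAt.const_cpow differentiableAt_id (Or.inl this)

/-- The reflected function. -/
noncomputable def Hs (H : ℂ → ℂ) (s : ℂ) : ℂ := conj (H (conj s))

lemma diffAt_Hs {H : ℂ → ℂ} (hH : Hg H) {s : ℂ} (hs : 1 / 2 < s.re) :
    DifferentiableAt ℂ (Hs H) s := by
  have h1 : DifferentiableAt ℂ H (conj s) := diffAt hH (by rwa [Complex.conj_re])
  have h2 := h1.conj_conj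
  rw [Complex.conj_conj] at h2
  exact h2

/-- (a) The line integral does not depend on the line. -/
lemma shift (hSHL : Stmt_SHL) {H : ℂ → ℂ} (hH : Hg H) {x σ : ℝ} (hx : 1 ≤ x) (hσ : 1 / 2 < σ)
    (hσ2 : σ ≤ 2) :
    (∫ y : ℝ, H (vl σ y) * ((x : ℂ) ^ (vl σ y) * SW.ker σ y))
      = ∫ y : ℝ, H (vl 2 y) * ((x : ℂ) ^ (vl 2 y) * SW.ker 2 y) := by
  obtain ⟨C, hC⟩ := hH.gr (σ - 1 / 2) (by linarith)
  have h := hSHL (fun s => H s * ((x : ℂ) ^ s * (1 / (s * (s + 1))))) σ 2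
    (|C| * x ^ (2 : ℝ) / (1 / 9)) hσ2 ?_ ?_
  · exact h
  · intro s h1 _
    have h2 : 1 / 2 < s.re := by linarith
    have h3 : s ≠ 0 := ne_zero_of_re (by linarith)
    have h4 : s + 1 ≠ 0 := ne_zero_of_re (by
      rw [Complex.add_re, Complex.one_re]
      linarith)
    refine (diffAt hH h2).mul ((diff_xpow hx s).mul ?_)
    exact DifferentiableAt.div (differentiableAt_const 1)
      (differentiableAt_id.mul (differentiableAt_id.add_const 1)) (mul_ne_zero h3 h4)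
  · intro s h1 h2
    have h3 : 1 / 2 ≤ s.re := by linarith
    have h4 := norm_mul_ge h3
    have h5 : ‖H s * ((x : ℂ) ^ s * (1 / (s * (s + 1))))‖
        = (‖H s‖ * x ^ s.re) / ‖s * (s + 1)‖ := by
      rw [norm_mul, norm_mul, norm_xpow hx, norm_div, norm_one]
      ring
    rw [h5]
    have h6 : x ^ s.re ≤ x ^ (2 : ℝ) := Real.rpow_le_rpow_of_exponent_le hx h2
    have h7 := hC s (by linarith)
    have h8 : C * (1 + ‖s‖) ^ (1 / 2 : ℝ) ≤ |C| * (1 + ‖s‖) ^ (1 / 2 : ℝ) :=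
      mul_le_mul_of_nonneg_right (le_abs_self C) (by positivity)
    have h9 : ‖H s‖ * x ^ s.re ≤ |C| * x ^ (2 : ℝ) * (1 + ‖s‖) ^ (1 / 2 : ℝ) := by
      calc ‖H s‖ * x ^ s.re ≤ (|C| * (1 + ‖s‖) ^ (1 / 2 : ℝ)) * x ^ (2 : ℝ) :=
            mul_le_mul (h7.trans h8) h6 (by positivity) (by positivity)
        _ = _ := by ring
    exact quot_bound (norm_nonneg s) h9 (by positivity) (by norm_num) (by linarith)

/-- Distance of a real point to the line. -/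
lemma dist_line {σ t : ℝ} (ht : t ≠ σ) (y : ℝ) :
    (|t - σ| / (|t - σ| + |t| + 1)) * (1 + ‖vl σ y‖) ≤ ‖(t : ℂ) - vl σ y‖ := by
  have ha : 0 < |t - σ| := abs_pos.2 (sub_ne_zero.2 ht)
  have h1 : |t - σ| ≤ ‖(t : ℂ) - vl σ y‖ := by
    have := Complex.abs_re_le_norm ((t : ℂ) - vl σ y)
    rwa [Complex.sub_re, Complex.ofReal_re, vl_re] at this
  have h2 : ‖vl σ y‖ ≤ ‖(t : ℂ) - vl σ y‖ + |t| := by
    have h3 : vl σ y = (t : ℂ) - ((t : ℂ) - vl σ y) := by ring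
    have h4 : ‖vl σ y‖ ≤ ‖(t : ℂ)‖ + ‖(t : ℂ) - vl σ y‖ := by
      conv_lhs => rw [h3]
      exact norm_sub_le _ _
    rw [Complex.norm_real, Real.norm_eq_abs] at h4
    linarith
  have h5 : 0 ≤ |t| := abs_nonneg t
  rw [div_mul_eq_mul_div, div_le_iff₀ (by positivity)]
  nlinarith

/-- Lower bound for the denominator of Cauchy's kernel on the line. -/
lemma den_ge {σ p w : ℝ} (hp : σ < p) (hw : w < σ) (y : ℝ) :
    ((|p - σ| / (|p - σ| + |p| + 1)) * (|w - σ| / (|w - σ| + |w| + 1))) * (1 + ‖vl σ y‖) ^ 2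
      ≤ ‖((p : ℂ) - vl σ y) * (vl σ y - w)‖ := by
  have h1 := dist_line (ne_of_gt hp) y
  have h2 := dist_line (ne_of_lt hw) y
  rw [norm_mul, norm_sub_rev (vl σ y) (w : ℂ)]
  have h3 : 0 ≤ (|w - σ| / (|w - σ| + |w| + 1)) * (1 + ‖vl σ y‖) := by positivity
  calc _ = ((|p - σ| / (|p - σ| + |p| + 1)) * (1 + ‖vl σ y‖))
        * ((|w - σ| / (|w - σ| + |w| + 1)) * (1 + ‖vl σ y‖)) := by ring
    _ ≤ _ := mul_le_mul h1 h2 h3 (norm_nonneg _)

/-- Integrability against Cauchy's kernel. -/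
lemma int_ker {F : ℂ → ℂ} {σ p w C : ℝ} (hp : σ < p) (hw : w < σ)
    (hd : ∀ s : ℂ, σ ≤ s.re → DifferentiableAt ℂ F s)
    (hb : ∀ s : ℂ, σ ≤ s.re → ‖F s‖ ≤ C * (1 + ‖s‖) ^ (1 / 2 : ℝ)) :
    Integrable fun y : ℝ => F (vl σ y) * (((p : ℂ) - w) / (((p : ℂ) - vl σ y) * (vl σ y - w))) := by
  set c : ℝ := (|p - σ| / (|p - σ| + |p| + 1)) * (|w - σ| / (|w - σ| + |w| + 1)) with hc
  have hc0 : 0 < c := by
    have h1 : 0 < |p - σ| := abs_pos.2 (by linarith)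
    have h2 : 0 < |w - σ| := abs_pos.2 (by linarith)
    have h3 : 0 ≤ |p| := abs_nonneg p
    have h4 : 0 ≤ |w| := abs_nonneg w
    positivity
  have hre : ∀ y : ℝ, σ ≤ (vl σ y).re := fun y => (vl_re σ y).ge
  have hne1 : ∀ y : ℝ, (p : ℂ) - vl σ y ≠ 0 := by
    intro y h
    have := congrArg Complex.re h
    rw [Complex.sub_re, Complex.ofReal_re, vl_re, Complex.zero_re] at this
    linarith
  have hne2 : ∀ y : ℝ, vl σ y - (w : ℂ) ≠ 0 := by
    intro y h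
    have := congrArg Complex.re h
    rw [Complex.sub_re, Complex.ofReal_re, vl_re, Complex.zero_re] at this
    linarith
  refine integrable_line (g := fun s => F s * (((p : ℂ) - w) / (((p : ℂ) - s) * (s - w))))
    (σ := σ) (C := C * |p - w| / c) (fun y => ?_) (fun y => ?_)
  · refine (hd _ (hre y)).mul (DifferentiableAt.div (differentiableAt_const _) ?_
      (mul_ne_zero (hne1 y) (hne2 y)))
    exact ((differentiableAt_const _).sub differentiableAt_id).mul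
      (differentiableAt_id.sub_const _)
  · have h5 : ‖F (vl σ y) * (((p : ℂ) - w) / (((p : ℂ) - vl σ y) * (vl σ y - w)))‖
        = (‖F (vl σ y)‖ * |p - w|) / ‖((p : ℂ) - vl σ y) * (vl σ y - w)‖ := by
      rw [norm_mul, norm_div, ← Complex.ofReal_sub, Complex.norm_real, Real.norm_eq_abs]
      ring
    rw [h5]
    have h6 : ‖F (vl σ y)‖ * |p - w| ≤ C * |p - w| * (1 + ‖vl σ y‖) ^ (1 / 2 : ℝ) := by
      calc ‖F (vl σ y)‖ * |p - w| ≤ (C * (1 + ‖vl σ y‖) ^ (1 / 2 : ℝ)) * |p - w| :=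
            mul_le_mul_of_nonneg_right (hb _ (hre y)) (abs_nonneg _)
        _ = _ := by ring
    exact quot_bound (norm_nonneg _) h6 (by positivity) hc0 (den_ge hp hw y)

lemma vl_neg (σ y : ℝ) : vl σ (-y) = conj (vl σ y) := by
  apply Complex.ext <;> simp [vl]

lemma vl_neg' (σ y : ℝ) : vl σ (-y) = ((2 * σ : ℝ) : ℂ) - vl σ y := by
  apply Complex.ext <;> simp [vl]
  ring

/-- (b) The integral of the conjugate. -/
lemma conj_int (hHPC : Stmt_HPC) {H : ℂ → ℂ} (hH : Hg H) {x σ : ℝ} (hx : 1 ≤ x)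
    (hσ : 1 / 2 < σ) :
    (∫ y : ℝ, conj (H (vl σ y)) * ((x : ℂ) ^ (vl σ y) * SW.ker σ y))
      = 2 * Real.pi * (Hs H ((2 * σ : ℝ) : ℂ) - Hs H ((2 * σ + 1 : ℝ) : ℂ) / x) := by
  obtain ⟨C, hC⟩ := hH.gr (σ - 1 / 2) (by linarith)
  have hx0 : (x : ℂ) ≠ 0 := by
    rw [Complex.ofReal_ne_zero]
    linarith
  set F : ℂ → ℂ := fun s => Hs H s * (x : ℂ) ^ (((2 * σ : ℝ) : ℂ) - s) with hF
  have hd : ∀ s : ℂ, σ ≤ s.re → DifferentiableAt ℂ F s := by
    intro s hs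
    refine (diffAt_Hs hH (by linarith)).mul ?_
    exact DifferentiableAt.const_cpow ((differentiableAt_const _).sub differentiableAt_id)
      (Or.inl hx0)
  have hb : ∀ s : ℂ, σ ≤ s.re → ‖F s‖ ≤ (|C| * x ^ σ) * (1 + ‖s‖) ^ (1 / 2 : ℝ) := by
    intro s hs
    have h1 : ‖F s‖ = ‖H (conj s)‖ * x ^ (2 * σ - s.re) := by
      rw [hF]
      simp only
      rw [norm_mul, norm_xpow hx, Hs, Complex.norm_conj, Complex.sub_re, Complex.ofReal_re]
    have h2 := hC (conj s) (by rw [Complex.conj_re]; linarith)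
    rw [Complex.norm_conj] at h2
    have h3 : x ^ (2 * σ - s.re) ≤ x ^ σ := Real.rpow_le_rpow_of_exponent_le hx (by linarith)
    have h4 : C * (1 + ‖s‖) ^ (1 / 2 : ℝ) ≤ |C| * (1 + ‖s‖) ^ (1 / 2 : ℝ) :=
      mul_le_mul_of_nonneg_right (le_abs_self C) (by positivity)
    rw [h1]
    calc ‖H (conj s)‖ * x ^ (2 * σ - s.re) ≤ (|C| * (1 + ‖s‖) ^ (1 / 2 : ℝ)) * x ^ σ :=
          mul_le_mul (h2.trans h4) h3 (by positivity) (by positivity)
      _ = _ := by ring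
  have hp1 : σ < 2 * σ := by linarith
  have hp2 : σ < 2 * σ + 1 := by linarith
  have hw : (0 : ℝ) < σ := by linarith
  have e1 := hHPC F σ (2 * σ) 0 _ hp1 hw hd hb
  have e2 := hHPC F σ (2 * σ + 1) 0 _ hp2 hw hd hb
  have i1 := int_ker hp1 hw hd hb
  have i2 := int_ker hp2 hw hd hb
  have hne1 : ∀ y : ℝ, ((2 * σ : ℝ) : ℂ) - vl σ y ≠ 0 := by
    intro y
    apply ne_zero_of_re
    rw [Complex.sub_re, Complex.ofReal_re, vl_re]
    linarith
  have hne2 : ∀ y : ℝ, ((2 * σ + 1 : ℝ) : ℂ) - vl σ y ≠ 0 := by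
    intro y
    apply ne_zero_of_re
    rw [Complex.sub_re, Complex.ofReal_re, vl_re]
    linarith
  have hne3 : ∀ y : ℝ, vl σ y ≠ 0 := by
    intro y
    apply ne_zero_of_re
    rw [vl_re]
    linarith
  rw [← integral_neg_eq_self (fun y : ℝ => conj (H (vl σ y)) * ((x : ℂ) ^ (vl σ y) * SW.ker σ y))]
  have hpt : ∀ y : ℝ, conj (H (vl σ (-y))) * ((x : ℂ) ^ (vl σ (-y)) * SW.ker σ (-y))
      = F (vl σ y) * ((((2 * σ : ℝ) : ℂ) - (0 : ℝ))
          / ((((2 * σ : ℝ) : ℂ) - vl σ y) * (vl σ y - (0 : ℝ))))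
        - F (vl σ y) * ((((2 * σ + 1 : ℝ) : ℂ) - (0 : ℝ))
          / ((((2 * σ + 1 : ℝ) : ℂ) - vl σ y) * (vl σ y - (0 : ℝ)))) := by
    intro y
    have h1 : conj (H (vl σ (-y))) = Hs H (vl σ y) := by
      rw [vl_neg, Hs]
    have h2 : SW.ker σ (-y) = 1 / ((((2 * σ : ℝ) : ℂ) - vl σ y)
        * (((2 * σ + 1 : ℝ) : ℂ) - vl σ y)) := by
      rw [ker_eq, vl_neg']
      congr 2
      push_cast
      ring
    rw [h1, h2, vl_neg', hF]
    simp only
    have a1 := hne1 y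
    have a2 := hne2 y
    have a3 := hne3 y
    rw [Complex.ofReal_zero, sub_zero, sub_zero, sub_zero]
    have key : (1 : ℂ) / ((((2 * σ : ℝ) : ℂ) - vl σ y) * (((2 * σ + 1 : ℝ) : ℂ) - vl σ y))
        = ((2 * σ : ℝ) : ℂ) / ((((2 * σ : ℝ) : ℂ) - vl σ y) * vl σ y)
          - ((2 * σ + 1 : ℝ) : ℂ) / ((((2 * σ + 1 : ℝ) : ℂ) - vl σ y) * vl σ y) := by
      rw [div_sub_div _ _ (mul_ne_zero a1 a3) (mul_ne_zero a2 a3),
        div_eq_div_iff (mul_ne_zero a1 a2) (mul_ne_zero (mul_ne_zero a1 a3) (mul_ne_zero a2 a3))]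
      push_cast
      ring
    rw [key]
    ring
  rw [integral_congr_ae (Eventually.of_forall hpt), integral_sub i1 i2, e1, e2]
  rw [hF]
  simp only
  rw [sub_self, Complex.cpow_zero, mul_one]
  have h3 : ((2 * σ : ℝ) : ℂ) - ((2 * σ + 1 : ℝ) : ℂ) = -1 := by
    push_cast
    ring
  rw [h3, Complex.cpow_neg_one]
  ring

/-- Integrability of the main integrand. -/
lemma int_main {H : ℂ → ℂ} (hH : Hg H) {x σ : ℝ} (hx : 1 ≤ x) (hσ : 1 / 2 < σ) :
    Integrable fun y : ℝ => H (vl σ y) * ((x : ℂ) ^ (vl σ y) * SW.ker σ y) := by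
  obtain ⟨C, hC⟩ := hH.gr (σ - 1 / 2) (by linarith)
  refine integrable_line (g := fun s => H s * ((x : ℂ) ^ s * (1 / (s * (s + 1)))))
    (C := |C| * x ^ σ / (1 / 9)) (fun y => ?_) (fun y => ?_)
  · have h2 : 1 / 2 < (vl σ y).re := by rwa [vl_re]
    have h3 : vl σ y ≠ 0 := ne_zero_of_re (by linarith)
    have h4 : vl σ y + 1 ≠ 0 := ne_zero_of_re (by
      rw [Complex.add_re, Complex.one_re]
      linarith)
    refine (diffAt hH h2).mul ((diff_xpow hx _).mul ?_)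
    exact DifferentiableAt.div (differentiableAt_const 1)
      (differentiableAt_id.mul (differentiableAt_id.add_const 1)) (mul_ne_zero h3 h4)
  · have h2 : 1 / 2 ≤ (vl σ y).re := by
      rw [vl_re]
      exact hσ.le
    have h4 := norm_mul_ge h2
    have h5 : ‖H (vl σ y) * ((x : ℂ) ^ (vl σ y) * (1 / (vl σ y * (vl σ y + 1))))‖
        = (‖H (vl σ y)‖ * x ^ σ) / ‖vl σ y * (vl σ y + 1)‖ := by
      rw [norm_mul, norm_mul, norm_xpow hx, norm_div, norm_one, vl_re]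
      ring
    rw [h5]
    have h7 := hC (vl σ y) (by rw [vl_re]; linarith)
    have h8 : C * (1 + ‖vl σ y‖) ^ (1 / 2 : ℝ) ≤ |C| * (1 + ‖vl σ y‖) ^ (1 / 2 : ℝ) :=
      mul_le_mul_of_nonneg_right (le_abs_self C) (by positivity)
    have h9 : ‖H (vl σ y)‖ * x ^ σ ≤ |C| * x ^ σ * (1 + ‖vl σ y‖) ^ (1 / 2 : ℝ) := by
      calc ‖H (vl σ y)‖ * x ^ σ ≤ (|C| * (1 + ‖vl σ y‖) ^ (1 / 2 : ℝ)) * x ^ σ :=
            mul_le_mul_of_nonneg_right (h7.trans h8) (by positivity)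
        _ = _ := by ring
    exact quot_bound (norm_nonneg _) h9 (by positivity) (by norm_num) (by linarith)

lemma int_conj {H : ℂ → ℂ} (hH : Hg H) {x σ : ℝ} (hx : 1 ≤ x) (hσ : 1 / 2 < σ) :
    Integrable fun y : ℝ => conj (H (vl σ y)) * ((x : ℂ) ^ (vl σ y) * SW.ker σ y) := by
  refine (int_main hH hx hσ).mono ?_ (Eventually.of_forall fun y => ?_)
  · apply Continuous.aestronglyMeasurable
    have h1 : Continuous fun y : ℝ => H (vl σ y) := by
      rw [continuous_iff_continuousAt]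
      intro y
      exact ContinuousAt.comp (f := vl σ) (diffAt hH (by rwa [vl_re])).continuousAt
        (continuous_vl σ).continuousAt
    have h2 : Continuous fun y : ℝ => (x : ℂ) ^ (vl σ y) := by
      rw [continuous_iff_continuousAt]
      intro y
      exact ContinuousAt.comp (f := vl σ) (diff_xpow hx _).continuousAt
        (continuous_vl σ).continuousAt
    exact (Complex.continuous_conj.comp h1).mul (h2.mul (SW.continuous_ker σ (by linarith)))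
  · rw [norm_mul, Complex.norm_conj, ← norm_mul]

/-- (c) The integral of the real part. -/
lemma int_re (hHPC : Stmt_HPC) {H : ℂ → ℂ} (hH : Hg H) {x σ A : ℝ} (hx : 1 ≤ x)
    (hσ : 1 / 2 < σ) (hA : 0 < A) (hA2 : A ^ 2 ≤ 3 / 4) (hσA : σ < 1 / 2 + A) :
    ‖∫ y : ℝ, ((H (vl σ y)).re : ℂ) * ((x : ℂ) ^ (vl σ y) * SW.ker σ y)‖
      ≤ Real.pi * (x ^ σ * ((H ((1 / 2 + A : ℝ) : ℂ)).re / (A + 1 / 2 - σ))) := by
  obtain ⟨C, hC⟩ := hH.gr (σ - 1 / 2) (by linarith)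
  set a : ℝ := A + 1 / 2 - σ with ha
  have ha0 : 0 < a := by linarith
  have haA : a ≤ A := by linarith
  have ha2 : a ^ 2 ≤ σ * (σ + 1) := by nlinarith
  have hp : σ < σ + a := by linarith
  have hw : σ - a < σ := by linarith
  have hd : ∀ s : ℂ, σ ≤ s.re → DifferentiableAt ℂ H s := fun s hs => diffAt hH (by linarith)
  have hb : ∀ s : ℂ, σ ≤ s.re → ‖H s‖ ≤ C * (1 + ‖s‖) ^ (1 / 2 : ℝ) := fun s hs =>
    hC s (by linarith)
  have e1 := hHPC H σ (σ + a) (σ - a) C hp hw hd hb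
  have i1 := int_ker hp hw hd hb
  have hK : ∀ y : ℝ, (((σ + a : ℝ) : ℂ) - ((σ - a : ℝ) : ℂ))
      / ((((σ + a : ℝ) : ℂ) - vl σ y) * (vl σ y - ((σ - a : ℝ) : ℂ)))
      = ((2 * a / (a ^ 2 + y ^ 2) : ℝ) : ℂ) := by
    intro y
    have h1 : (((σ + a : ℝ) : ℂ) - vl σ y) * (vl σ y - ((σ - a : ℝ) : ℂ))
        = ((a ^ 2 + y ^ 2 : ℝ) : ℂ) := by
      have hI : Complex.I * Complex.I = -1 := Complex.I_mul_I
      unfold vl
      push_cast
      linear_combination (-(y : ℂ) ^ 2) * hI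
    rw [h1]
    push_cast
    ring
  have hsum : σ + a = 1 / 2 + A := by
    rw [ha]
    ring
  have hint : Integrable fun y : ℝ => (H (vl σ y)).re * (2 * a / (a ^ 2 + y ^ 2)) := by
    have h2 := i1.re
    refine h2.congr (Eventually.of_forall fun y => ?_)
    simp only
    rw [hK y]
    exact Complex.re_mul_ofReal _ _
  have hval : ∫ y : ℝ, (H (vl σ y)).re * (2 * a / (a ^ 2 + y ^ 2))
      = 2 * Real.pi * (H ((1 / 2 + A : ℝ) : ℂ)).re := by
    have h2 := integral_re i1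
    rw [e1] at h2
    have h3 : ∫ y : ℝ, (H (vl σ y)).re * (2 * a / (a ^ 2 + y ^ 2))
        = ∫ y : ℝ, RCLike.re (H (vl σ y) * ((((σ + a : ℝ) : ℂ) - ((σ - a : ℝ) : ℂ))
          / ((((σ + a : ℝ) : ℂ) - vl σ y) * (vl σ y - ((σ - a : ℝ) : ℂ))))) := by
      refine integral_congr_ae (Eventually.of_forall fun y => ?_)
      simp only
      rw [hK y]
      exact (Complex.re_mul_ofReal _ _).symm
    rw [h3, h2, hsum]
    have h4 : (2 * (Real.pi : ℂ) * H ((1 / 2 + A : ℝ) : ℂ))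
        = ((2 * Real.pi : ℝ) : ℂ) * H ((1 / 2 + A : ℝ) : ℂ) := by
      push_cast
      ring
    rw [h4]
    exact Complex.re_ofReal_mul _ _
  have hbd : ∀ y : ℝ, ‖((H (vl σ y)).re : ℂ) * ((x : ℂ) ^ (vl σ y) * SW.ker σ y)‖
      ≤ x ^ σ / (2 * a) * ((H (vl σ y)).re * (2 * a / (a ^ 2 + y ^ 2))) := by
    intro y
    have hpos := hH.pos (vl σ y) (by rwa [vl_re])
    have h1 : ‖SW.ker σ y‖ ≤ 1 / (a ^ 2 + y ^ 2) := by
      rw [ker_eq, norm_div, norm_one]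
      apply one_div_le_one_div_of_le (by positivity)
      rw [norm_mul, ← sq_le_sq₀ (by positivity) (by positivity), mul_pow,
        ← Complex.normSq_eq_norm_sq, ← Complex.normSq_eq_norm_sq, Complex.normSq_apply,
        Complex.normSq_apply]
      simp only [Complex.add_re, Complex.one_re, Complex.add_im, Complex.one_im, add_zero,
        vl_re, vl_im]
      have h5 : (σ * σ + y * y) * ((σ + 1) * (σ + 1) + y * y)
          = (σ * (σ + 1) + y ^ 2) ^ 2 + y ^ 2 := by ring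
      rw [h5]
      have h6 : (a ^ 2 + y ^ 2) ^ 2 ≤ (σ * (σ + 1) + y ^ 2) ^ 2 :=
        pow_le_pow_left₀ (by positivity) (by linarith) 2
      nlinarith [sq_nonneg y]
    rw [norm_mul, norm_mul, norm_xpow hx, vl_re, Complex.norm_real, Real.norm_eq_abs,
      abs_of_nonneg hpos]
    have hx0 : 0 < x := by linarith
    have h2 : 0 < x ^ σ := Real.rpow_pos_of_pos hx0 σ
    calc (H (vl σ y)).re * (x ^ σ * ‖SW.ker σ y‖)
        ≤ (H (vl σ y)).re * (x ^ σ * (1 / (a ^ 2 + y ^ 2))) :=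
          mul_le_mul_of_nonneg_left (mul_le_mul_of_nonneg_left h1 h2.le) hpos
      _ = x ^ σ / (2 * a) * ((H (vl σ y)).re * (2 * a / (a ^ 2 + y ^ 2))) := by
          field_simp
  have h9 := norm_integral_le_of_norm_le (hint.const_mul (x ^ σ / (2 * a)))
    (Eventually.of_forall hbd)
  rw [integral_const_mul, hval] at h9
  refine h9.trans (le_of_eq ?_)
  field_simp

/-- The bound on one line. -/
lemma bound (hSHL : Stmt_SHL) (hHPC : Stmt_HPC) {H : ℂ → ℂ} (hH : Hg H) {x σ A : ℝ} (hx : 1 ≤ x)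
    (hσ : 1 / 2 < σ) (hσ2 : σ ≤ 2) (hA : 0 < A) (hA2 : A ^ 2 ≤ 3 / 4) (hσA : σ < 1 / 2 + A) :
    ‖J H x‖ ≤ x ^ σ * ((H ((1 / 2 + A : ℝ) : ℂ)).re / (A + 1 / 2 - σ))
      + ‖Hs H 1 - Hs H ((2 * σ : ℝ) : ℂ)‖ + ‖Hs H 2 - Hs H ((2 * σ + 1 : ℝ) : ℂ)‖ := by
  have hx0 : 0 < x := by linarith
  have hpi := Real.pi_pos
  set IR : ℂ := ∫ y : ℝ, ((H (vl σ y)).re : ℂ) * ((x : ℂ) ^ (vl σ y) * SW.ker σ y) with hIR
  have h1 := shift hSHL hH hx hσ hσ2
  have h2 := conj_int hHPC hH hx hσ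
  have h3 := int_re hHPC hH hx hσ hA hA2 hσA
  rw [← hIR] at h3
  have h4 : (∫ y : ℝ, H (vl σ y) * ((x : ℂ) ^ (vl σ y) * SW.ker σ y))
      + (∫ y : ℝ, conj (H (vl σ y)) * ((x : ℂ) ^ (vl σ y) * SW.ker σ y)) = 2 * IR := by
    rw [← integral_add (int_main hH hx hσ) (int_conj hH hx hσ), hIR, ← integral_const_mul]
    refine integral_congr_ae (Eventually.of_forall fun y => ?_)
    simp only
    rw [← add_mul, Complex.add_conj]
    push_cast
    ring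
  have h5 : J H x = ((1 / Real.pi : ℝ) : ℂ) * IR + (Hs H 1 - Hs H ((2 * σ : ℝ) : ℂ))
      - (Hs H 2 - Hs H ((2 * σ + 1 : ℝ) : ℂ)) / x := by
    have e1 : Hs H 1 = conj (H 1) := by rw [Hs, map_one]
    have e2 : Hs H 2 = conj (H 2) := by
      rw [Hs]
      congr 2
      exact Complex.conj_ofNat 2
    have hpc : (Real.pi : ℂ) ≠ 0 := by exact_mod_cast hpi.ne'
    unfold J
    rw [← h1, e1, e2]
    have h6 : (∫ y : ℝ, H (vl σ y) * ((x : ℂ) ^ (vl σ y) * SW.ker σ y))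
        = 2 * IR - 2 * Real.pi * (Hs H ((2 * σ : ℝ) : ℂ) - Hs H ((2 * σ + 1 : ℝ) : ℂ) / x) := by
      rw [← h4, h2]
      ring
    rw [h6]
    push_cast
    field_simp
    ring
  rw [h5]
  have h7 : ‖((1 / Real.pi : ℝ) : ℂ) * IR‖
      ≤ x ^ σ * ((H ((1 / 2 + A : ℝ) : ℂ)).re / (A + 1 / 2 - σ)) := by
    rw [norm_mul, Complex.norm_real, Real.norm_eq_abs, abs_of_pos (by positivity)]
    calc 1 / Real.pi * ‖IR‖
        ≤ 1 / Real.pi * (Real.pi * (x ^ σ * ((H ((1 / 2 + A : ℝ) : ℂ)).re / (A + 1 / 2 - σ)))) :=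
          mul_le_mul_of_nonneg_left h3 (by positivity)
      _ = _ := by
          field_simp
  have h8 : ‖(Hs H 2 - Hs H ((2 * σ + 1 : ℝ) : ℂ)) / x‖
      ≤ ‖Hs H 2 - Hs H ((2 * σ + 1 : ℝ) : ℂ)‖ := by
    rw [norm_div, Complex.norm_real, Real.norm_eq_abs, abs_of_pos hx0]
    exact div_le_self (norm_nonneg _) hx
  calc ‖((1 / Real.pi : ℝ) : ℂ) * IR + (Hs H 1 - Hs H ((2 * σ : ℝ) : ℂ))
        - (Hs H 2 - Hs H ((2 * σ + 1 : ℝ) : ℂ)) / x‖
      ≤ ‖((1 / Real.pi : ℝ) : ℂ) * IR + (Hs H 1 - Hs H ((2 * σ : ℝ) : ℂ))‖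
        + ‖(Hs H 2 - Hs H ((2 * σ + 1 : ℝ) : ℂ)) / x‖ := norm_sub_le _ _
    _ ≤ (‖((1 / Real.pi : ℝ) : ℂ) * IR‖ + ‖Hs H 1 - Hs H ((2 * σ : ℝ) : ℂ)‖)
        + ‖Hs H 2 - Hs H ((2 * σ + 1 : ℝ) : ℂ)‖ := add_le_add (norm_add_le _ _) h8
    _ ≤ _ := by linarith

end J1h

open J1h in
theorem stmt_J1 (hSHL : Stmt_SHL) (hHPC : Stmt_HPC) : Stmt_J1 := by
  intro H hH x A hx hA hA2
  have hx0 : 0 < x := by linarith
  have hev : ∀ᶠ σ : ℝ in 𝓝[>] (1 / 2 : ℝ),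
      ‖J H x‖ ≤ x ^ σ * ((H ((1 / 2 + A : ℝ) : ℂ)).re / (A + 1 / 2 - σ))
      + ‖Hs H 1 - Hs H ((2 * σ : ℝ) : ℂ)‖ + ‖Hs H 2 - Hs H ((2 * σ + 1 : ℝ) : ℂ)‖ := by
    have h1 : Set.Ioo (1 / 2 : ℝ) (min 2 (1 / 2 + A)) ∈ 𝓝[>] (1 / 2 : ℝ) :=
      Ioo_mem_nhdsGT (lt_min (by norm_num) (by linarith))
    filter_upwards [h1] with σ hσ
    have h2 := lt_min_iff.1 hσ.2
    exact bound hSHL hHPC hH hx hσ.1 h2.1.le hA hA2 h2.2
  have hlim : Tendsto (fun σ : ℝ => x ^ σ * ((H ((1 / 2 + A : ℝ) : ℂ)).re / (A + 1 / 2 - σ))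
      + ‖Hs H 1 - Hs H ((2 * σ : ℝ) : ℂ)‖ + ‖Hs H 2 - Hs H ((2 * σ + 1 : ℝ) : ℂ)‖)
      (𝓝[>] (1 / 2 : ℝ)) (𝓝 (√x * ((H ((1 / 2 + A : ℝ) : ℂ)).re / A))) := by
    have hc1 : ContinuousAt (fun σ : ℝ => x ^ σ) (1 / 2) :=
      (Real.continuous_const_rpow hx0.ne').continuousAt
    have hc2 : ContinuousAt (fun σ : ℝ => (H ((1 / 2 + A : ℝ) : ℂ)).re / (A + 1 / 2 - σ))
        (1 / 2) := by
      apply ContinuousAt.div continuousAt_const (by fun_prop)
      linarith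
    have hc3 : ContinuousAt (fun σ : ℝ => ‖Hs H 1 - Hs H ((2 * σ : ℝ) : ℂ)‖) (1 / 2) := by
      apply ContinuousAt.norm
      apply ContinuousAt.sub continuousAt_const
      have h1 : ContinuousAt (Hs H) ((2 * (1 / 2) : ℝ) : ℂ) :=
        (diffAt_Hs hH (by rw [Complex.ofReal_re]; norm_num)).continuousAt
      exact ContinuousAt.comp (f := fun σ : ℝ => ((2 * σ : ℝ) : ℂ)) h1 (by fun_prop)
    have hc4 : ContinuousAt (fun σ : ℝ => ‖Hs H 2 - Hs H ((2 * σ + 1 : ℝ) : ℂ)‖) (1 / 2) := by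
      apply ContinuousAt.norm
      apply ContinuousAt.sub continuousAt_const
      have h1 : ContinuousAt (Hs H) ((2 * (1 / 2) + 1 : ℝ) : ℂ) :=
        (diffAt_Hs hH (by rw [Complex.ofReal_re]; norm_num)).continuousAt
      exact ContinuousAt.comp (f := fun σ : ℝ => ((2 * σ + 1 : ℝ) : ℂ)) h1 (by fun_prop)
    have h := ((hc1.mul hc2).add hc3).add hc4
    have hval : (fun σ : ℝ => x ^ σ * ((H ((1 / 2 + A : ℝ) : ℂ)).re / (A + 1 / 2 - σ))
      + ‖Hs H 1 - Hs H ((2 * σ : ℝ) : ℂ)‖ + ‖Hs H 2 - Hs H ((2 * σ + 1 : ℝ) : ℂ)‖) (1 / 2)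
        = √x * ((H ((1 / 2 + A : ℝ) : ℂ)).re / A) := by
      simp only
      have g1 : ((2 * (1 / 2) : ℝ) : ℂ) = 1 := by norm_num
      have g2 : ((2 * (1 / 2) + 1 : ℝ) : ℂ) = 2 := by norm_num
      rw [g1, g2, sub_self, sub_self, norm_zero, add_zero, add_zero, Real.sqrt_eq_rpow,
        add_sub_cancel_right]
    have h' := h.tendsto
    rw [← hval]
    exact h'.mono_left nhdsWithin_le_nhds
  exact ge_of_tendsto hlim hev

open J1h in
theorem stmt_J0 (hSHR : Stmt_SHR) : Stmt_J0 := by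
  intro H hH
  obtain ⟨C, hC⟩ := hH.gr (3 / 2) (by norm_num)
  have h := hSHR (fun s => H s * (1 / (s * (s + 1)))) 2 (C / (1 / 9)) ?_ ?_
  · unfold J
    have h1 : (∫ y : ℝ, H (vl 2 y) * (((1 : ℝ) : ℂ) ^ (vl 2 y) * SW.ker 2 y)) = 0 := by
      rw [← h]
      refine integral_congr_ae (Eventually.of_forall fun y => ?_)
      simp only
      rw [Complex.ofReal_one, Complex.one_cpow, one_mul, ker_eq]
    rw [h1, mul_zero, zero_add, Complex.ofReal_one, div_one]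
  · intro s hs
    have h2 : 1 / 2 < s.re := by linarith
    have h3 : s ≠ 0 := ne_zero_of_re (by linarith)
    have h4 : s + 1 ≠ 0 := ne_zero_of_re (by
      rw [Complex.add_re, Complex.one_re]
      linarith)
    refine (diffAt hH h2).mul ?_
    exact DifferentiableAt.div (differentiableAt_const 1)
      (differentiableAt_id.mul (differentiableAt_id.add_const 1)) (mul_ne_zero h3 h4)
  · intro s hs
    have h4 := norm_mul_ge (s := s) (by linarith)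
    have h5 : ‖H s * (1 / (s * (s + 1)))‖ = ‖H s‖ / ‖s * (s + 1)‖ := by
      rw [norm_mul, norm_div, norm_one]
      ring
    rw [h5]
    exact quot_bound (norm_nonneg s) (hC s (by linarith)) (norm_nonneg _) (by norm_num)
      (by linarith)

end Pool.Agent.AQ
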