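import Pool.Agent.Work.MP_99218a_nt.Interface

/-! # Block J2: `J` of a simple pole on the critical line -/

set_option autoImplicit false

namespace Pool.Agent.AQ

open Filter Topology MeasureTheory ArithmeticFunction
open scoped ComplexConjugate Classical

theorem J2_of_KB (hK : Stmt_KB) : Stmt_J2 := by
  intro γ x hx
  have hre : (rho γ).re = 1 / 2 := by simp [rho]
  have h0 : rho γ ≠ 0 := by
    intro h
    rw [h] at hre
    norm_num at hre
  have h1 : rho γ ≠ -1 := by
    intro h
    rw [h] at hre
    norm_num at hre
  have h1' : rho γ + 1 ≠ 0 := by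
    intro h
    exact h1 (by linear_combination h)
  have hx0 : (x : ℂ) ≠ 0 := by
    have : (0 : ℝ) < x := by linarith
    exact_mod_cast this.ne'
  have h := (hK x hx).2.2 (rho γ) (by rw [hre]; norm_num) h0 h1
  have hc : conj (rho γ) = 1 - rho γ := by
    unfold rho
    apply Complex.ext <;> simp
    norm_num
  unfold J
  rw [h, map_div₀, map_div₀, map_sub, map_sub, map_one, hc, map_ofNat]
  have e1 : (1 : ℂ) - (1 - rho γ) = rho γ := by ring
  have e2 : (2 : ℂ) - (1 - rho γ) = rho γ + 1 := by ring
  rw [e1, e2]
  field_simp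
  ring

end Pool.Agent.AQ
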