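import Pool.Agent.Work.MP_99218a_nt.Interface

/-!
MP_99218a_nt, block JAP: `J` of the logarithmic derivative is almost periodic.
-/

set_option autoImplicit false

namespace Pool.Agent.AQ.JAP

open MeasureTheory Filter Topology
open scoped ComplexConjugate

theorem vl_re (σ y : ℝ) : (vl σ y).re = σ := by simp [vl]

theorem norm_vl_le (y : ℝ) : ‖vl 2 y‖ ≤ 2 + |y| := by
  unfold vl
  refine (norm_add_le _ _).trans ?_
  simp

theorem continuous_vl (σ : ℝ) : Continuous (vl σ) := by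
  unfold vl
  fun_prop

theorem norm_vl_sub_rho (γ y : ℝ) : 1 ≤ ‖vl 2 y - rho γ‖ := by
  have h := Complex.abs_re_le_norm (vl 2 y - rho γ)
  have h2 : (vl 2 y - rho γ).re = 3 / 2 := by
    simp [vl, rho]
    norm_num
  rw [h2] at h
  have : |(3 / 2 : ℝ)| = 3 / 2 := by norm_num
  linarith

/-- Integrability against the kernel. -/
theorem integrable_mul (f : ℝ → ℂ) (hf : Continuous f) (C : ℝ)
    (hC : ∀ y, ‖f y‖ ≤ C * (1 + |y|) ^ (1 / 2 : ℝ)) (x : ℝ) (hx : 0 < x) :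
    Integrable fun y : ℝ => f y * ((x : ℂ) ^ (vl 2 y) * SW.ker 2 y) := by
  have hC0 : 0 ≤ C := by
    have h := (norm_nonneg _).trans (hC 0)
    simpa using h
  have hint : Integrable fun y : ℝ => (2 * C * x ^ 2) * (1 + ‖y‖) ^ (-(3 / 2) : ℝ) := by
    refine Integrable.const_mul (integrable_one_add_norm ?_) _
    simp
    norm_num
  refine Integrable.mono' hint ?_ ?_
  · refine Continuous.aestronglyMeasurable ?_
    have hx' : (x : ℂ) ≠ 0 := by exact_mod_cast hx.ne'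
    have h1 : Continuous fun y : ℝ => (x : ℂ) ^ (vl 2 y) :=
      Continuous.const_cpow (continuous_vl 2) (Or.inl hx')
    exact hf.mul (h1.mul (SW.continuous_ker 2 (by norm_num)))
  · filter_upwards with y
    rw [norm_mul, norm_mul, Complex.norm_cpow_eq_rpow_re_of_pos hx, vl_re]
    have hk := SW.norm_ker_le 2 y (by norm_num)
    have h1 : (1 + y ^ 2)⁻¹ ≤ 2 * ((1 + |y|) ^ 2)⁻¹ := by
      rw [← div_eq_mul_inv, inv_eq_one_div, div_le_div_iff₀ (by positivity) (by positivity)]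
      nlinarith [sq_nonneg (1 - |y|), sq_abs y]
    have hy : 0 < 1 + |y| := by positivity
    have h2 : (1 + |y|) ^ (1 / 2 : ℝ) * ((1 + |y|) ^ 2)⁻¹ = (1 + |y|) ^ (-(3 / 2) : ℝ) := by
      rw [← Real.rpow_natCast, ← Real.rpow_neg hy.le, ← Real.rpow_add hy]
      norm_num
    have hx2 : x ^ (2 : ℝ) = x ^ 2 := by norm_cast
    rw [hx2, Real.norm_eq_abs]
    calc ‖f y‖ * (x ^ 2 * ‖SW.ker 2 y‖)
        ≤ (C * (1 + |y|) ^ (1 / 2 : ℝ)) * (x ^ 2 * (2 * ((1 + |y|) ^ 2)⁻¹)) := by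
          gcongr
          · exact hC y
          · exact hk.trans h1
      _ = 2 * C * x ^ 2 * ((1 + |y|) ^ (1 / 2 : ℝ) * ((1 + |y|) ^ 2)⁻¹) := by ring
      _ = 2 * C * x ^ 2 * (1 + |y|) ^ (-(3 / 2) : ℝ) := by rw [h2]

theorem integrable_logDeriv (Φ : ℂ → ℂ) (h : Xi Φ) (x : ℝ) (hx : 0 < x) :
    Integrable fun y : ℝ => logDeriv Φ (vl 2 y) * ((x : ℂ) ^ (vl 2 y) * SW.ker 2 y) := by
  obtain ⟨C, hC⟩ := h.gr
  have hC0 : 0 ≤ C := by
    have h1 := (norm_nonneg _).trans (hC 2 (by simp))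
    have h2 : (0 : ℝ) < (1 + ‖(2 : ℂ)‖) ^ (1 / 2 : ℝ) := by positivity
    by_contra hn
    push Not at hn
    nlinarith
  refine integrable_mul _ ?_ (2 * C) ?_ x hx
  · have hd : Continuous (deriv Φ) := by
      have h3 : ContDiff ℂ 1 Φ := h.diff.contDiff
      exact h3.continuous_deriv (le_refl _)
    have h4 : Continuous fun y : ℝ => deriv Φ (vl 2 y) / Φ (vl 2 y) := by
      refine (hd.comp (continuous_vl 2)).div (h.diff.continuous.comp (continuous_vl 2)) ?_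
      intro y
      exact h.ne _ (by rw [vl_re]; norm_num)
    exact h4
  · intro y
    refine (hC (vl 2 y) (by rw [vl_re])).trans ?_
    have h5 : (1 + ‖vl 2 y‖) ≤ 4 * (1 + |y|) := by
      have := norm_vl_le y
      have := abs_nonneg y
      linarith
    have h6 : (1 + ‖vl 2 y‖) ^ (1 / 2 : ℝ) ≤ (4 * (1 + |y|)) ^ (1 / 2 : ℝ) := by
      apply Real.rpow_le_rpow (by positivity) h5 (by norm_num)
    have h7 : (4 * (1 + |y|)) ^ (1 / 2 : ℝ) = 2 * (1 + |y|) ^ (1 / 2 : ℝ) := by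
      rw [Real.mul_rpow (by norm_num) (by positivity)]
      congr 1
      rw [← Real.sqrt_eq_rpow]
      rw [show (4 : ℝ) = 2 ^ 2 by norm_num]
      exact Real.sqrt_sq (by norm_num)
    calc C * (1 + ‖vl 2 y‖) ^ (1 / 2 : ℝ) ≤ C * (2 * (1 + |y|) ^ (1 / 2 : ℝ)) := by
          rw [← h7]
          exact mul_le_mul_of_nonneg_left h6 hC0
      _ = 2 * C * (1 + |y|) ^ (1 / 2 : ℝ) := by ring

theorem integrable_pole (γ x : ℝ) (hx : 0 < x) :
    Integrable fun y : ℝ => (1 / (vl 2 y - rho γ)) * ((x : ℂ) ^ (vl 2 y) * SW.ker 2 y) := by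
  refine integrable_mul _ ?_ 1 ?_ x hx
  · refine Continuous.div continuous_const ((continuous_vl 2).sub continuous_const) ?_
    intro y hy
    have := norm_vl_sub_rho γ y
    rw [hy] at this
    simp at this
    linarith
  · intro y
    rw [norm_div, norm_one]
    have h1 := norm_vl_sub_rho γ y
    have h2 : 1 / ‖vl 2 y - rho γ‖ ≤ 1 := by
      rw [div_le_one (by linarith)]
      exact h1
    have h3 : (1 : ℝ) ≤ (1 + |y|) ^ (1 / 2 : ℝ) := by
      apply Real.one_le_rpow _ (by norm_num)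
      have := abs_nonneg y
      linarith
    linarith

theorem J_HF (Φ : ℂ → ℂ) (h : Xi Φ) (F : Finset ℝ) (x : ℝ) (hx : 0 < x) :
    J (HF Φ F) x = J (logDeriv Φ) x
      - ∑ γ ∈ F, (mult Φ γ : ℂ) * J (fun s => 1 / (s - rho γ)) x := by
  have hi : ∫ y : ℝ, HF Φ F (vl 2 y) * ((x : ℂ) ^ (vl 2 y) * SW.ker 2 y)
      = (∫ y : ℝ, logDeriv Φ (vl 2 y) * ((x : ℂ) ^ (vl 2 y) * SW.ker 2 y))
        - ∑ γ ∈ F, (mult Φ γ : ℂ) *
          ∫ y : ℝ, (1 / (vl 2 y - rho γ)) * ((x : ℂ) ^ (vl 2 y) * SW.ker 2 y) := by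
    have h1 : (fun y : ℝ => HF Φ F (vl 2 y) * ((x : ℂ) ^ (vl 2 y) * SW.ker 2 y))
        = fun y : ℝ => logDeriv Φ (vl 2 y) * ((x : ℂ) ^ (vl 2 y) * SW.ker 2 y)
          - ∑ γ ∈ F, (mult Φ γ : ℂ) *
            ((1 / (vl 2 y - rho γ)) * ((x : ℂ) ^ (vl 2 y) * SW.ker 2 y)) := by
      funext y
      unfold HF
      rw [sub_mul, Finset.sum_mul]
      congr 1
      apply Finset.sum_congr rfl
      intro γ _
      ring
    rw [h1, integral_sub (integrable_logDeriv Φ h x hx)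
      (integrable_finset_sum _ fun γ _ => (integrable_pole γ x hx).const_mul _),
      integral_finset_sum _ fun γ _ => (integrable_pole γ x hx).const_mul _]
    congr 1
    apply Finset.sum_congr rfl
    intro γ _
    rw [integral_const_mul]
  unfold J
  rw [hi]
  have hc : ∀ z : ℂ, conj (HF Φ F z) = conj (logDeriv Φ z)
      - ∑ γ ∈ F, (mult Φ γ : ℂ) * conj (1 / (z - rho γ)) := by
    intro z
    unfold HF
    rw [map_sub, map_sum]
    congr 1
    apply Finset.sum_congr rfl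
    intro γ _
    rw [map_div₀, map_div₀]
    simp
    ring
  rw [hc 1, hc 2]
  simp only [mul_add, mul_sub, Finset.sum_add_distrib, Finset.sum_sub_distrib, sub_div,
    Finset.mul_sum, Finset.sum_div]
  have e1 : ∀ γ : ℝ, ((1 / (2 * Real.pi) : ℝ) : ℂ) * ((mult Φ γ : ℂ) *
        ∫ y : ℝ, (1 / (vl 2 y - rho γ)) * ((x : ℂ) ^ (vl 2 y) * SW.ker 2 y))
      = (mult Φ γ : ℂ) * (((1 / (2 * Real.pi) : ℝ) : ℂ) *
        ∫ y : ℝ, (1 / (vl 2 y - rho γ)) * ((x : ℂ) ^ (vl 2 y) * SW.ker 2 y)) := by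
    intro γ
    ring
  have e2 : ∀ γ : ℝ, (mult Φ γ : ℂ) * conj (1 / (2 - rho γ)) / (x : ℂ)
      = (mult Φ γ : ℂ) * (conj (1 / (2 - rho γ)) / x) := by
    intro γ
    ring
  simp only [e1, e2]
  ring

theorem stmt_JAP (hCOM : Stmt_COM) (hJ1 : Stmt_J1) (hJ2 : Stmt_J2) (hREM : Stmt_REM)
    (hGRO : Stmt_GRO) : Stmt_JAP := by
  intro Φ hΦ ε hε
  obtain ⟨F0, hF0⟩ := hCOM Φ hΦ (ε / 2) (by positivity)
  refine ⟨F0, fun F hF x hx => ?_⟩
  have hx0 : 0 < x := by linarith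
  obtain ⟨Ψ, hΨ, hlog, -, -⟩ := hREM Φ hΦ F
  have hg := hGRO Ψ hΨ
  have h1 := hJ1 (logDeriv Ψ) hg x (1 / 2) hx (by norm_num) (by norm_num)
  have hone : ((1 / 2 + 1 / 2 : ℝ) : ℂ) = 1 := by norm_num
  rw [hone] at h1
  have hv : (logDeriv Ψ 1) = HF Φ F 1 := hlog 1 (by norm_num)
  rw [hv] at h1
  have h2 := hF0 F hF
  have hJ : J (logDeriv Ψ) x = J (HF Φ F) x := by
    unfold J
    have e1 : logDeriv Ψ 2 = HF Φ F 2 := hlog 2 (by norm_num)
    have e2 : (fun y : ℝ => logDeriv Ψ (vl 2 y) * ((x : ℂ) ^ (vl 2 y) * SW.ker 2 y))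
        = fun y : ℝ => HF Φ F (vl 2 y) * ((x : ℂ) ^ (vl 2 y) * SW.ker 2 y) := by
      funext y
      rw [hlog (vl 2 y) (by rw [vl_re]; norm_num)]
    rw [e1, e2, hv]
  rw [hJ, J_HF Φ hΦ F x hx0] at h1
  have h3 : ∑ γ ∈ F, (mult Φ γ : ℂ) * J (fun s => 1 / (s - rho γ)) x
      = ∑ γ ∈ F, (mult Φ γ : ℂ) * ((x : ℂ) ^ (rho γ) / (rho γ * (rho γ + 1))) := by
    apply Finset.sum_congr rfl
    intro γ _
    rw [hJ2 γ x hx]
  rw [h3] at h1
  refine h1.trans ?_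
  rw [mul_comm ε]
  apply mul_le_mul_of_nonneg_left _ (Real.sqrt_nonneg x)
  rw [div_le_iff₀ (by norm_num)]
  linarith

end Pool.Agent.AQ.JAP
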