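import Pool.Agent.Work.MP_99218a_nt.Interface

/-! Block JX: evaluation of `J (Hc χ)`. -/

set_option autoImplicit false

namespace Pool.Agent.AQ

open Filter Topology MeasureTheory ArithmeticFunction
open scoped ComplexConjugate Classical

namespace JXh

open Finset SW

/-- Perron's formula on the line `re s = 2`. -/
lemma perron (a : ℕ → ℂ) (σ : ℝ) (hσ : 1 < σ) (ha : LSeriesSummable a σ) (X : ℝ) (hX : 0 < X) :
    ((1 / (2 * Real.pi) : ℝ) : ℂ) * (∫ y : ℝ, LSeries a ((σ : ℂ) + y * Complex.I) *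
      ((X : ℂ) ^ ((σ : ℂ) + y * Complex.I) * ker σ y))
      = ∑ n ∈ Finset.Ioc 0 ⌊X⌋₊, a n * ((1 - n / X : ℝ) : ℂ) := by
  have hXc : (X : ℂ) ≠ 0 := by exact_mod_cast hX.ne'
  set F : ℕ → ℝ → ℂ := fun n y => LSeries.term a ((σ : ℂ) + y * Complex.I) n
    * ((X : ℂ) ^ ((σ : ℂ) + y * Complex.I) * ker σ y) with hF
  have hnormX : ∀ y : ℝ, ‖(X : ℂ) ^ ((σ : ℂ) + y * Complex.I)‖ = X ^ σ := by
    intro y
    rw [Complex.norm_cpow_eq_rpow_re_of_pos hX]
    simp
  have hterm : ∀ n (y : ℝ), ‖LSeries.term a ((σ : ℂ) + y * Complex.I) n‖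
      = ‖LSeries.term a (σ : ℂ) n‖ := by
    intro n y
    rcases eq_or_ne n 0 with rfl | hn
    · simp
    · rw [LSeries.term_of_ne_zero hn, LSeries.term_of_ne_zero hn, norm_div, norm_div]
      have hn' : (0 : ℝ) < n := by exact_mod_cast Nat.pos_of_ne_zero hn
      rw [← Complex.ofReal_natCast, Complex.norm_cpow_eq_rpow_re_of_pos hn',
        Complex.norm_cpow_eq_rpow_re_of_pos hn']
      simp
  have hFnorm : ∀ n y, ‖F n y‖ = ‖LSeries.term a (σ : ℂ) n‖ * X ^ σ * ‖ker σ y‖ := by
    intro n y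
    simp only [hF]
    rw [norm_mul, norm_mul, hterm, hnormX]
    ring
  have hFcont : ∀ n, Continuous (F n) := by
    intro n
    simp only [hF]
    have h1 : Continuous fun y : ℝ => LSeries.term a ((σ : ℂ) + y * Complex.I) n := by
      rcases eq_or_ne n 0 with rfl | hn
      · simp only [LSeries.term_zero]
        exact continuous_const
      · have hn' : (n : ℂ) ≠ 0 := by exact_mod_cast hn
        have : (fun y : ℝ => LSeries.term a ((σ : ℂ) + y * Complex.I) n)
            = fun y : ℝ => a n / (n : ℂ) ^ ((σ : ℂ) + y * Complex.I) := by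
          funext y
          rw [LSeries.term_of_ne_zero hn]
        rw [this]
        apply Continuous.div continuous_const
        · exact Continuous.const_cpow (by fun_prop) (Or.inl hn')
        · intro y
          exact (Complex.cpow_ne_zero_iff_of_exponent_ne_zero (by
            intro h
            have := congrArg Complex.re h
            simp at this
            linarith)).mpr hn'
    have h2 : Continuous fun y : ℝ => (X : ℂ) ^ ((σ : ℂ) + y * Complex.I) :=
      Continuous.const_cpow (by fun_prop) (Or.inl hXc)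
    exact h1.mul (h2.mul (continuous_ker σ (by linarith)))
  have hFint : ∀ n, Integrable (F n) := by
    intro n
    refine Integrable.mono' ((integrable_ker σ hσ.le).norm.const_mul
      (‖LSeries.term a (σ : ℂ) n‖ * X ^ σ)) (hFcont n).aestronglyMeasurable ?_
    filter_upwards with y
    rw [hFnorm]
  have hFsum : Summable fun n => ∫ y, ‖F n y‖ := by
    simp only [hFnorm]
    simp only [integral_const_mul]
    exact (ha.norm.mul_right _).mul_right _
  have hsum : HasSum (fun n => ∫ y, F n y) (∫ y, ∑' n, F n y) :=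
    hasSum_integral_of_summable_integral_norm hFint hFsum
  -- identify the integrals of `F n`
  have hker : ∀ n, (1 / (2 * Real.pi) : ℝ) • ∫ y, F n y
      = if n ∈ Ioc 0 ⌊X⌋₊ then a n * ((1 - n / X : ℝ) : ℂ) else 0 := by
    intro n
    rcases eq_or_ne n 0 with rfl | hn
    · simp [hF]
    · have hn' : (0 : ℝ) < n := by exact_mod_cast Nat.pos_of_ne_zero hn
      have hnc : (n : ℂ) ≠ 0 := by exact_mod_cast hn
      have h1 : ∀ y : ℝ, F n y = a n * (((n / X : ℝ) : ℂ) ^ (-((σ : ℂ) + y * Complex.I))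
          * ker σ y) := by
        intro y
        simp only [hF]
        rw [LSeries.term_of_ne_zero hn]
        have h2 : ((n / X : ℝ) : ℂ) ^ (-((σ : ℂ) + y * Complex.I))
            = (X : ℂ) ^ ((σ : ℂ) + y * Complex.I) / (n : ℂ) ^ ((σ : ℂ) + y * Complex.I) := by
          rw [div_eq_mul_inv (n : ℝ) X, Complex.ofReal_mul,
            Complex.mul_cpow_ofReal_nonneg hn'.le (by positivity), Complex.ofReal_inv,
            Complex.inv_cpow _ _ (by
              rw [Complex.arg_ofReal_of_nonneg hX.le]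
              exact Real.pi_pos.ne), Complex.cpow_neg, Complex.cpow_neg, inv_inv,
            Complex.ofReal_natCast, div_eq_mul_inv, mul_comm]
        rw [h2]
        ring
      simp only [h1]
      rw [integral_const_mul, ← mul_smul_comm, ← kernel_formula σ hσ.le (n / X) (by positivity)]
      split_ifs with h
      · rw [mem_Ioc] at h
        have h3 : (n : ℝ) ≤ X := (Nat.le_floor_iff hX.le).mp h.2
        rw [max_eq_right]
        rw [sub_nonneg, div_le_one hX]
        exact h3
      · have h3 : X < n := by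
          rw [mem_Ioc] at h
          by_contra h4
          push Not at h4
          exact h ⟨Nat.pos_of_ne_zero hn, Nat.le_floor h4⟩
        rw [max_eq_left, Complex.ofReal_zero, mul_zero]
        rw [sub_nonpos, one_le_div hX]
        exact h3.le
  have hsum2 : HasSum (fun n => (1 / (2 * Real.pi) : ℝ) • ∫ y, F n y)
      ((1 / (2 * Real.pi) : ℝ) • ∫ y, ∑' n, F n y) := hsum.const_smul (1 / (2 * Real.pi) : ℝ)
  simp only [hker] at hsum2
  have hfin : HasSum (fun n => if n ∈ Ioc 0 ⌊X⌋₊ then a n * ((1 - n / X : ℝ) : ℂ) else 0)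
      (∑ n ∈ Ioc 0 ⌊X⌋₊, a n * ((1 - n / X : ℝ) : ℂ)) := by
    have h6 : HasSum (fun n => if n ∈ Ioc 0 ⌊X⌋₊ then a n * ((1 - n / X : ℝ) : ℂ) else 0)
        (∑ n ∈ Ioc 0 ⌊X⌋₊, if n ∈ Ioc 0 ⌊X⌋₊ then a n * ((1 - n / X : ℝ) : ℂ) else 0) :=
      hasSum_sum_of_ne_finset_zero fun n hn => if_neg hn
    rwa [sum_congr rfl (fun n hn => if_pos hn)] at h6
  rw [hfin.unique hsum2]
  have h1 : ∀ y, ∑' n, F n y = LSeries a ((σ : ℂ) + y * Complex.I)
      * ((X : ℂ) ^ ((σ : ℂ) + y * Complex.I) * ker σ y) := by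
    intro y
    simp only [hF]
    rw [tsum_mul_right]
    rfl
  simp only [h1]
  rw [Complex.real_smul]


/-- The kernel with the power. -/
noncomputable def KK (x y : ℝ) : ℂ := (x : ℂ) ^ (vl 2 y) * ker 2 y

lemma continuous_vl : Continuous (vl 2) := by
  unfold vl
  fun_prop

lemma continuous_KK {x : ℝ} (hx : 0 < x) : Continuous (KK x) := by
  have hXc : (x : ℂ) ≠ 0 := by exact_mod_cast hx.ne'
  exact (Continuous.const_cpow continuous_vl (Or.inl hXc)).mul (continuous_ker 2 (by norm_num))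

lemma norm_KK_le {x : ℝ} (hx : 0 < x) (y : ℝ) : ‖KK x y‖ ≤ x ^ (2 : ℝ) * (1 + y ^ 2)⁻¹ := by
  unfold KK
  rw [norm_mul]
  have h1 : ‖(x : ℂ) ^ (vl 2 y)‖ = x ^ (2 : ℝ) := by
    rw [Complex.norm_cpow_eq_rpow_re_of_pos hx]
    congr 1
    simp [vl]
  rw [h1]
  exact mul_le_mul_of_nonneg_left (norm_ker_le 2 y (by norm_num)) (by positivity)

lemma integrable_mul {x : ℝ} (hx : 0 < x) {f : ℝ → ℂ} (hf : Continuous f) {M : ℝ}
    (hM : 0 ≤ M) (h : ∀ y, ‖f y‖ ≤ M * √(|y| + 3)) : Integrable (fun y => f y * KK x y) := by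
  refine Integrable.mono' (integrable_KP.const_mul (M * x ^ (2 : ℝ)))
    (hf.mul (continuous_KK hx)).aestronglyMeasurable ?_
  filter_upwards with y
  rw [norm_mul]
  have h2 := norm_KK_le hx y
  have h3 := sqrt_le_rpow y
  have h4 : (1 + y ^ 2)⁻¹ * (1 + y ^ 2) ^ ((1 : ℝ) / 4) = (1 + ‖y‖ ^ 2) ^ (-(3 / 2 : ℝ) / 2) := by
    have h0 : 0 < 1 + y ^ 2 := by positivity
    rw [← Real.rpow_neg_one, ← Real.rpow_add h0, Real.norm_eq_abs, sq_abs]
    norm_num
  calc ‖f y‖ * ‖KK x y‖
      ≤ (M * (2 * (1 + y ^ 2) ^ ((1 : ℝ) / 4))) * (x ^ (2 : ℝ) * (1 + y ^ 2)⁻¹) := by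
        gcongr
        exact (h y).trans (by gcongr)
    _ = (M * x ^ (2 : ℝ)) * (2 * ((1 + y ^ 2)⁻¹ * (1 + y ^ 2) ^ ((1 : ℝ) / 4))) := by ring
    _ = _ := by rw [h4]

lemma one_le_sq (y : ℝ) : 1 ≤ √(|y| + 3) := by
  rw [Real.one_le_sqrt]
  have := abs_nonneg y
  linarith

lemma integrable_bdd {x : ℝ} (hx : 0 < x) {f : ℝ → ℂ} (hf : Continuous f) {M : ℝ}
    (h : ∀ y, ‖f y‖ ≤ M) : Integrable (fun y => f y * KK x y) := by
  have hM : 0 ≤ M := (norm_nonneg _).trans (h 0)
  refine integrable_mul hx hf hM (fun y => (h y).trans ?_)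
  have := one_le_sq y
  nlinarith

lemma vl_re (y : ℝ) : (vl 2 y).re = 2 := by simp [vl]

lemma vl_im (y : ℝ) : (vl 2 y).im = y := by simp [vl]

lemma norm_inv_le {y b : ℝ} (hb : b ≤ 1) : ‖1 / (vl 2 y - (b : ℂ))‖ ≤ 1 := by
  rw [norm_div, norm_one, div_le_one]
  · have h1 := Complex.abs_re_le_norm (vl 2 y - (b : ℂ))
    rw [Complex.sub_re, vl_re, Complex.ofReal_re] at h1
    have h2 := le_abs_self (2 - b)
    linarith
  · rw [norm_pos_iff]
    intro h
    have := congrArg Complex.re h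
    rw [Complex.sub_re, vl_re, Complex.ofReal_re] at this
    simp at this
    linarith

lemma continuous_inv {b : ℝ} (hb : b ≤ 1) : Continuous (fun y => 1 / (vl 2 y - (b : ℂ))) := by
  refine Continuous.div continuous_const (continuous_vl.sub continuous_const) (fun y h => ?_)
  have := congrArg Complex.re h
  rw [Complex.sub_re, vl_re, Complex.ofReal_re] at this
  simp at this
  linarith

lemma lseries_bdd (a : ℕ → ℂ) (ha : LSeriesSummable a (2 : ℝ)) (y : ℝ) :
    ‖LSeries a (vl 2 y)‖ ≤ ∑' n, ‖LSeries.term a ((2 : ℝ) : ℂ) n‖ := by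
  have hterm : ∀ n, ‖LSeries.term a (vl 2 y) n‖ = ‖LSeries.term a ((2 : ℝ) : ℂ) n‖ := by
    intro n
    rcases eq_or_ne n 0 with rfl | hn
    · simp
    · rw [LSeries.term_of_ne_zero hn, LSeries.term_of_ne_zero hn, norm_div, norm_div]
      have hn' : (0 : ℝ) < n := by exact_mod_cast Nat.pos_of_ne_zero hn
      rw [← Complex.ofReal_natCast, Complex.norm_cpow_eq_rpow_re_of_pos hn',
        Complex.norm_cpow_eq_rpow_re_of_pos hn', vl_re, Complex.ofReal_re]
  have h1 : Summable (fun n => ‖LSeries.term a (vl 2 y) n‖) := by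
    simp only [hterm]
    exact ha.norm
  calc ‖LSeries a (vl 2 y)‖ ≤ ∑' n, ‖LSeries.term a (vl 2 y) n‖ := norm_tsum_le_tsum_norm h1
    _ = _ := by simp only [hterm]

lemma lseries_cont (a : ℕ → ℂ) (ha : LSeriesSummable a (2 : ℝ)) :
    Continuous (fun y => LSeries a (vl 2 y)) := by
  have hterm : ∀ n (y : ℝ), ‖LSeries.term a (vl 2 y) n‖ ≤ ‖LSeries.term a ((2 : ℝ) : ℂ) n‖ := by
    intro n y
    rcases eq_or_ne n 0 with rfl | hn
    · simp
    · rw [LSeries.term_of_ne_zero hn, LSeries.term_of_ne_zero hn, norm_div, norm_div]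
      have hn' : (0 : ℝ) < n := by exact_mod_cast Nat.pos_of_ne_zero hn
      rw [← Complex.ofReal_natCast, Complex.norm_cpow_eq_rpow_re_of_pos hn',
        Complex.norm_cpow_eq_rpow_re_of_pos hn', vl_re, Complex.ofReal_re]
  refine continuous_tsum (fun n => ?_) ha.norm hterm
  rcases eq_or_ne n 0 with rfl | hn
  · simp only [LSeries.term_zero]
    exact continuous_const
  · have hn' : (n : ℂ) ≠ 0 := by exact_mod_cast hn
    have : (fun y : ℝ => LSeries.term a (vl 2 y) n) = fun y : ℝ => a n / (n : ℂ) ^ (vl 2 y) := by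
      funext y
      rw [LSeries.term_of_ne_zero hn]
    rw [this]
    refine Continuous.div continuous_const (Continuous.const_cpow continuous_vl (Or.inl hn')) ?_
    intro y
    exact (Complex.cpow_ne_zero_iff_of_exponent_ne_zero (by
      intro h
      have := congrArg Complex.re h
      rw [vl_re] at this
      simp at this)).mpr hn'

end JXh

open JXh

theorem stmt_JX (hE : Stmt_EXPL) (hK : Stmt_KB) (hD : Stmt_DIG) : Stmt_JX := by
  intro q _ χ x hx
  have hx0 : 0 < x := by linarith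
  have : NeZero χ.conductor := ⟨χ.conductor_ne_zero⟩
  set a : ℕ → ℂ := fun n => (Λ n : ℂ) * χ.primitiveCharacter (n : ZMod χ.conductor) with ha
  have hsum : LSeriesSummable a (2 : ℝ) := by
    have h1 := DirichletCharacter.LSeriesSummable_twist_vonMangoldt χ.primitiveCharacter
      (s := ((2 : ℝ) : ℂ)) (by simp)
    have h2 : ((fun n : ℕ => χ.primitiveCharacter (n : ZMod χ.conductor)) * fun n : ℕ =>
        (Λ n : ℂ)) = a := by
      funext n
      simp [ha, mul_comm]
    rwa [h2] at h1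
  have hκ : 0 ≤ kap χ := by
    unfold kap
    split_ifs <;> norm_num
  have hκ1 : kap χ ≤ 1 := by
    unfold kap
    split_ifs <;> norm_num
  -- the digamma part
  set g : ℝ → ℂ := fun y => 1 / 2 * Complex.digamma ((vl 2 y + kap χ) / 2) with hg
  have hre : ∀ y, ((vl 2 y + kap χ) / 2).re = (2 + kap χ) / 2 := by
    intro y
    simp [vl]
  have hgc : Continuous g := by
    rw [continuous_iff_continuousAt]
    intro y
    have h1 : ContinuousAt Complex.digamma ((vl 2 y + kap χ) / 2) :=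
      (hD.1 _ (by rw [hre]; linarith)).continuousAt
    have h2 : ContinuousAt (fun y : ℝ => (vl 2 y + kap χ) / 2) y :=
      ((continuous_vl.add continuous_const).div_const 2).continuousAt
    exact continuousAt_const.mul (ContinuousAt.comp (f := fun y : ℝ => (vl 2 y + kap χ) / 2) h1 h2)
  obtain ⟨C, hC⟩ := hD.2.1 1 (by norm_num)
  have hgb : ∀ y, ‖g y‖ ≤ (|C| / 2) * √(|y| + 3) := by
    intro y
    have h1 := hC ((vl 2 y + kap χ) / 2) (by rw [hre]; linarith)
    have h2 : ‖(vl 2 y + kap χ) / 2‖ ≤ (|y| + 3) / 2 := by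
      rw [norm_div]
      have h3 : ‖vl 2 y + kap χ‖ ≤ |y| + 3 := by
        have e : vl 2 y + (kap χ : ℂ) = ((2 + kap χ : ℝ) : ℂ) + y * Complex.I := by
          unfold vl
          push_cast
          ring
        rw [e]
        refine (norm_add_le _ _).trans ?_
        rw [norm_mul, Complex.norm_I, mul_one, Complex.norm_real, Complex.norm_real,
          Real.norm_eq_abs, Real.norm_eq_abs, abs_of_nonneg (by linarith : 0 ≤ 2 + kap χ)]
        linarith
      have h4 : ‖(2 : ℂ)‖ = 2 := by norm_num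
      rw [h4]
      linarith
    have h5 : (1 + ‖(vl 2 y + kap χ) / 2‖) ^ (1 / 2 : ℝ) ≤ √(|y| + 3) := by
      rw [← Real.sqrt_eq_rpow]
      refine Real.sqrt_le_sqrt ?_
      have := abs_nonneg y
      linarith
    have h6 : ‖g y‖ = 1 / 2 * ‖Complex.digamma ((vl 2 y + kap χ) / 2)‖ := by
      simp only [hg, norm_mul]
      congr 1
      norm_num
    rw [h6]
    have h7 : C * (1 + ‖(vl 2 y + kap χ) / 2‖) ^ (1 / 2 : ℝ) ≤ |C| * √(|y| + 3) :=
      mul_le_mul (le_abs_self C) h5 (by positivity) (abs_nonneg C)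
    linarith
  have ig : Integrable (fun y => g y * KK x y) := integrable_mul hx0 hgc (by positivity) hgb
  -- the Dirichlet series
  have iL : Integrable (fun y => LSeries a (vl 2 y) * KK x y) :=
    integrable_bdd hx0 (lseries_cont a hsum) (lseries_bdd a hsum)
  have eL : ((1 / (2 * Real.pi) : ℝ) : ℂ) * (∫ y : ℝ, LSeries a (vl 2 y) * KK x y)
      = ∑ n ∈ Finset.Ioc 0 ⌊x⌋₊, a n * ((1 - n / x : ℝ) : ℂ) :=
    perron a 2 (by norm_num) hsum x hx0
  -- the constant
  set c : ℂ := 1 / 2 * (Real.log (χ.conductor / Real.pi) : ℂ) with hc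
  have i1 : Integrable (KK x) := by
    have := integrable_bdd hx0 (f := fun _ => (1 : ℂ)) continuous_const (M := 1) (by simp)
    simpa using this
  obtain ⟨k1, k2, k3⟩ := hK x hx
  have k3' := k3 1 (by norm_num) (by norm_num) (by norm_num)
  -- the polar part
  set p : ℝ → ℂ := fun y => if χ = 1 then 1 / vl 2 y + 1 / (vl 2 y - 1) else 0 with hp
  have j0 : Integrable (fun y => 1 / vl 2 y * KK x y) := by
    have := integrable_bdd hx0 (continuous_inv (b := 0) (by norm_num))
      (fun y => norm_inv_le (y := y) (b := 0) (by norm_num))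
    simpa using this
  have j1 : Integrable (fun y => 1 / (vl 2 y - 1) * KK x y) := by
    have := integrable_bdd hx0 (continuous_inv (b := 1) (by norm_num))
      (fun y => norm_inv_le (y := y) (b := 1) (by norm_num))
    simpa using this
  have ip : Integrable (fun y => p y * KK x y) := by
    by_cases h : χ = 1
    · simp only [hp, if_pos h, add_mul]
      exact j0.add j1
    · simp only [hp, if_neg h, zero_mul]
      exact integrable_zero _ _ _
  have ep : ((1 / (2 * Real.pi) : ℝ) : ℂ) * (∫ y : ℝ, p y * KK x y)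
      = if χ = 1 then ((x / 2 + Real.log x - 2 + 3 / (2 * x) : ℝ) : ℂ) else 0 := by
    by_cases h : χ = 1
    · simp only [hp, if_pos h, add_mul]
      rw [integral_add j0 j1, mul_add]
      have e1 : ((1 / (2 * Real.pi) : ℝ) : ℂ) * (∫ y : ℝ, 1 / vl 2 y * KK x y)
          = ((Real.log x - 1 + 1 / x : ℝ) : ℂ) := k2
      have e2 : ((1 / (2 * Real.pi) : ℝ) : ℂ) * (∫ y : ℝ, 1 / (vl 2 y - 1) * KK x y)
          = (x : ℂ) ^ (1 : ℂ) / (1 * (1 + 1)) - 1 / 1 + 1 / ((1 + 1) * x) := k3'
      rw [e1, e2, Complex.cpow_one]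
      push_cast
      have hxc : (x : ℂ) ≠ 0 := by exact_mod_cast hx0.ne'
      field_simp
      ring
    · simp only [hp, if_neg h, zero_mul, integral_zero, mul_zero]
  have key : ∀ y, Hc χ (vl 2 y) * ((x : ℂ) ^ (vl 2 y) * SW.ker 2 y)
      = p y * KK x y + c * KK x y + g y * KK x y - LSeries a (vl 2 y) * KK x y := by
    intro y
    rw [hE q χ (vl 2 y) (by rw [vl_re]; norm_num)]
    simp only [hp, hc, hg, ha, KK]
    ring
  unfold J
  simp only [key]
  have s1 : Integrable (fun y => p y * KK x y + c * KK x y) := ip.add (i1.const_mul c)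
  have s2 : Integrable (fun y => p y * KK x y + c * KK x y + g y * KK x y) := s1.add ig
  rw [integral_sub s2 iL, integral_add s1 ig, integral_add ip (i1.const_mul c),
    integral_const_mul]
  have k1' : ((1 / (2 * Real.pi) : ℝ) : ℂ) * (∫ y : ℝ, KK x y) = 1 - 1 / x := k1
  have eg : ((1 / (2 * Real.pi) : ℝ) : ℂ) * (∫ y : ℝ, g y * KK x y) = Dg (kap χ) x := rfl
  have e0 : ((1 / (2 * Real.pi) : ℝ) : ℂ) * ((∫ y : ℝ, p y * KK x y) + c * (∫ y : ℝ, KK x y)
      + (∫ y : ℝ, g y * KK x y) - (∫ y : ℝ, LSeries a (vl 2 y) * KK x y))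
      = (if χ = 1 then ((x / 2 + Real.log x - 2 + 3 / (2 * x) : ℝ) : ℂ) else 0) + c * (1 - 1 / x)
        + Dg (kap χ) x - ∑ n ∈ Finset.Ioc 0 ⌊x⌋₊, a n * ((1 - n / x : ℝ) : ℂ) := by
    rw [← ep, ← k1', ← eg, ← eL]
    ring
  rw [e0]
  ring

end Pool.Agent.AQ
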