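import Mathlib
import Pool.Agent.Work.MP_99218a_nt.Interface

/-!
# MP_99218a_nt, block LI: the logarithmic integral

`1 / log u = h u + 1 / (u - 1)` with `0 ≤ h ≤ 1`, so `li t = ∫_0^t h + log |t - 1|` for `t ≠ 1`.
-/

set_option autoImplicit false

namespace Pool.Agent.AQ

open Filter Topology MeasureTheory

namespace LIx

/-- The regular part of `1 / log u` (extended by `0` to the negative axis). -/
noncomputable def hh (u : ℝ) : ℝ := if 0 ≤ u then (Real.log u)⁻¹ - (u - 1)⁻¹ else 0

theorem hh_bd (u : ℝ) : |hh u| ≤ 1 := by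
  unfold hh
  split_ifs with h0
  · rcases eq_or_lt_of_le h0 with h0 | h0
    · rw [← h0]; norm_num
    rcases lt_trichotomy u 1 with h1 | h1 | h1
    · have a := Real.log_le_sub_one_of_pos h0
      have b := Real.one_sub_inv_le_log_of_pos h0
      have c : Real.log u < 0 := Real.log_neg h0 h1
      have d : u - 1 < 0 := by linarith
      have e : (u - 1)⁻¹ ≤ (Real.log u)⁻¹ := (inv_le_inv_of_neg d c).2 a
      have f : 1 - u⁻¹ = (u - 1) / u := by field_simp
      have g : (u - 1) / u < 0 := div_neg_of_neg_of_pos d h0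
      have i : (Real.log u)⁻¹ ≤ ((u - 1) / u)⁻¹ := (inv_le_inv_of_neg c g).2 (f ▸ b)
      have j : ((u - 1) / u)⁻¹ = 1 + (u - 1)⁻¹ := by
        have : u - 1 ≠ 0 := d.ne
        field_simp
        ring
      rw [abs_le]
      constructor <;> linarith
    · rw [h1]; norm_num
    · have a := Real.log_le_sub_one_of_pos h0
      have b := Real.one_sub_inv_le_log_of_pos h0
      have c : 0 < Real.log u := Real.log_pos h1
      have d : 0 < u - 1 := by linarith
      have e : (u - 1)⁻¹ ≤ (Real.log u)⁻¹ := (inv_le_inv₀ d c).2 a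
      have f : 1 - u⁻¹ = (u - 1) / u := by field_simp
      have g : 0 < (u - 1) / u := div_pos d h0
      have i : (Real.log u)⁻¹ ≤ ((u - 1) / u)⁻¹ := (inv_le_inv₀ c g).2 (f ▸ b)
      have j : ((u - 1) / u)⁻¹ = 1 + (u - 1)⁻¹ := by
        have : u - 1 ≠ 0 := d.ne'
        field_simp
        ring
      rw [abs_le]
      constructor <;> linarith
  · simp

theorem hh_meas : Measurable hh :=
  Measurable.ite measurableSet_Ici ((Real.measurable_log.inv).sub ((measurable_id.sub_const 1).inv))
    measurable_const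

theorem hh_int (a b : ℝ) : IntervalIntegrable hh volume a b := by
  have h : IntervalIntegrable (fun _ : ℝ => (1 : ℝ)) volume a b := intervalIntegrable_const
  refine h.mono_fun hh_meas.aestronglyMeasurable (Eventually.of_forall fun u => ?_)
  simp only [Real.norm_eq_abs, abs_one]
  exact hh_bd u

/-- The primitive of `hh`. -/
noncomputable def HH (t : ℝ) : ℝ := ∫ u in (0 : ℝ)..t, hh u

theorem HH_cont : Continuous HH := intervalIntegral.continuous_primitive hh_int 0

theorem inv_int (a b : ℝ) (h : (1 : ℝ) ∉ Set.uIcc a b) :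
    IntervalIntegrable (fun u : ℝ => (u - 1)⁻¹) volume a b ∧
    (∫ u in a..b, (u - 1)⁻¹) = Real.log (b - 1) - Real.log (a - 1) := by
  have h0 : (0 : ℝ) ∉ Set.uIcc (a - 1) (b - 1) := by
    intro h1
    apply h
    rw [Set.mem_uIcc] at h1 ⊢
    rcases h1 with h1 | h1
    · left; constructor <;> linarith [h1.1, h1.2]
    · right; constructor <;> linarith [h1.1, h1.2]
  have ha : a - 1 ≠ 0 := fun h1 => h0 (h1 ▸ Set.left_mem_uIcc)
  have hb : b - 1 ≠ 0 := fun h1 => h0 (h1 ▸ Set.right_mem_uIcc)
  constructor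
  · apply ContinuousOn.intervalIntegrable
    intro u hu
    refine ContinuousAt.continuousWithinAt ?_
    have : u - 1 ≠ 0 := fun h1 => h (by rw [sub_eq_zero.1 h1] at hu; exact hu)
    exact (continuousAt_id.sub continuousAt_const).inv₀ this
  · rw [intervalIntegral.integral_comp_sub_right (fun u : ℝ => u⁻¹) 1, integral_inv h0,
      Real.log_div hb ha]

theorem log_int (a b : ℝ) (ha : 0 ≤ a) (hb : 0 ≤ b) (h : (1 : ℝ) ∉ Set.uIcc a b) :
    IntervalIntegrable (fun u : ℝ => (Real.log u)⁻¹) volume a b ∧
    (∫ u in a..b, (Real.log u)⁻¹)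
      = HH b - HH a + (Real.log (b - 1) - Real.log (a - 1)) := by
  have he : ∀ u ∈ Set.uIcc a b, hh u + (u - 1)⁻¹ = (Real.log u)⁻¹ := by
    intro u hu
    have h0 : 0 ≤ u := by
      rw [Set.mem_uIcc] at hu
      rcases hu with hu | hu <;> linarith [hu.1]
    unfold hh
    rw [if_pos h0]
    ring
  obtain ⟨i1, i2⟩ := inv_int a b h
  constructor
  · refine ((hh_int a b).add i1).congr_ae ?_
    filter_upwards [ae_restrict_mem measurableSet_uIoc] with u hu
    exact he u (Set.uIoc_subset_uIcc hu)
  · rw [← intervalIntegral.integral_congr he, intervalIntegral.integral_add (hh_int a b) i1, i2]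
    unfold HH
    rw [intervalIntegral.integral_interval_sub_left (hh_int 0 b) (hh_int 0 a)]

theorem li_eq (t : ℝ) (ht : 0 ≤ t) (h1 : t ≠ 1) : li t = HH t + Real.log (t - 1) := by
  unfold li
  apply Tendsto.limUnder_eq
  rcases lt_or_gt_of_ne h1 with h1 | h1
  · -- `t < 1`
    have he : ∀ᶠ ε in 𝓝[>] (0 : ℝ), HH t + Real.log (t - 1)
        = ∫ u in Set.Icc 0 t \ Set.Ioo (1 - ε) (1 + ε), (Real.log u)⁻¹ := by
      filter_upwards [Ioo_mem_nhdsGT (show (0 : ℝ) < 1 - t by linarith)] with ε hε
      have hs : Set.Icc 0 t \ Set.Ioo (1 - ε) (1 + ε) = Set.Icc 0 t := by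
        ext u
        simp only [Set.mem_diff, Set.mem_Icc, Set.mem_Ioo, not_and, not_lt]
        constructor
        · exact fun h => h.1
        · intro h
          refine ⟨h, fun h2 => ?_⟩
          linarith [h.2, hε.2]
      rw [hs, integral_Icc_eq_integral_Ioc, ← intervalIntegral.integral_of_le ht,
        (log_int 0 t le_rfl ht ?_).2]
      · simp [HH]
      · rw [Set.uIcc_of_le ht]
        intro h; linarith [h.2]
    exact tendsto_const_nhds.congr' he
  · -- `t > 1`
    have he : ∀ᶠ ε in 𝓝[>] (0 : ℝ), HH t + Real.log (t - 1) + (HH (1 - ε) - HH (1 + ε))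
        = ∫ u in Set.Icc 0 t \ Set.Ioo (1 - ε) (1 + ε), (Real.log u)⁻¹ := by
      filter_upwards [Ioo_mem_nhdsGT (show (0 : ℝ) < min 1 (t - 1) from
        lt_min one_pos (by linarith))] with ε hε
      have e1 : ε < 1 := lt_of_lt_of_le hε.2 (min_le_left _ _)
      have e2 : ε < t - 1 := lt_of_lt_of_le hε.2 (min_le_right _ _)
      have e0 : 0 < ε := hε.1
      have hs : Set.Icc 0 t \ Set.Ioo (1 - ε) (1 + ε)
          = Set.Icc 0 (1 - ε) ∪ Set.Icc (1 + ε) t := by
        ext u
        simp only [Set.mem_diff, Set.mem_Icc, Set.mem_Ioo, not_and, not_lt, Set.mem_union]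
        constructor
        · rintro ⟨h, h2⟩
          rcases le_or_gt u (1 - ε) with h3 | h3
          · exact Or.inl ⟨h.1, h3⟩
          · exact Or.inr ⟨h2 h3, h.2⟩
        · rintro (h | h)
          · exact ⟨⟨h.1, by linarith [h.2]⟩, fun h3 => by linarith [h.2]⟩
          · exact ⟨⟨by linarith [h.1], h.2⟩, fun _ => h.1⟩
      have n1 : (1 : ℝ) ∉ Set.uIcc 0 (1 - ε) := by
        rw [Set.uIcc_of_le (by linarith)]
        intro h; linarith [h.2]
      have n2 : (1 : ℝ) ∉ Set.uIcc (1 + ε) t := by
        rw [Set.uIcc_of_le (by linarith)]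
        intro h; linarith [h.1]
      obtain ⟨i1, j1⟩ := log_int 0 (1 - ε) le_rfl (by linarith) n1
      obtain ⟨i2, j2⟩ := log_int (1 + ε) t (by linarith) ht n2
      have k1 : IntegrableOn (fun u : ℝ => (Real.log u)⁻¹) (Set.Icc 0 (1 - ε)) := by
        rw [integrableOn_Icc_iff_integrableOn_Ioc,
          ← intervalIntegrable_iff_integrableOn_Ioc_of_le (by linarith)]
        exact i1
      have k2 : IntegrableOn (fun u : ℝ => (Real.log u)⁻¹) (Set.Icc (1 + ε) t) := by
        rw [integrableOn_Icc_iff_integrableOn_Ioc,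
          ← intervalIntegrable_iff_integrableOn_Ioc_of_le (by linarith)]
        exact i2
      have hd : Disjoint (Set.Icc 0 (1 - ε)) (Set.Icc (1 + ε) t) := by
        rw [Set.disjoint_left]
        intro u hu hv
        linarith [hu.2, hv.1]
      rw [hs, setIntegral_union hd measurableSet_Icc k1 k2, integral_Icc_eq_integral_Ioc,
        integral_Icc_eq_integral_Ioc, ← intervalIntegral.integral_of_le (by linarith),
        ← intervalIntegral.integral_of_le (by linarith), j1, j2]
      have l1 : Real.log (1 - ε - 1) = Real.log (1 + ε - 1) := by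
        rw [show 1 - ε - 1 = -ε by ring, show 1 + ε - 1 = ε by ring, Real.log_neg_eq_log]
      have l2 : Real.log (0 - 1) = 0 := by simp
      have l3 : HH 0 = 0 := by simp [HH]
      rw [l1, l2, l3]
      ring
    refine Tendsto.congr' he ?_
    have hc : ContinuousAt (fun ε : ℝ => HH t + Real.log (t - 1) + (HH (1 - ε) - HH (1 + ε))) 0 := by
      have := HH_cont
      fun_prop
    have h2 := hc.tendsto.mono_left (nhdsWithin_le_nhds (s := Set.Ioi (0 : ℝ)))
    simpa using h2

end LIx

open LIx in
theorem stmt_LI : Stmt_LI := by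
  constructor
  · intro x hx
    have h1 : IntervalIntegrable (fun t : ℝ => HH t + Real.log (t - 1)) volume 0 x := by
      refine (HH_cont.intervalIntegrable 0 x).add ?_
      have h2 : IntervalIntegrable Real.log volume (0 - 1) (x - 1) :=
        intervalIntegral.intervalIntegrable_log'
      have h3 := h2.comp_sub_right 1
      simpa using h3
    refine h1.congr_ae ?_
    have h4 : ∀ᵐ t : ℝ ∂volume.restrict (Set.uIoc 0 x), t ≠ 1 :=
      ae_restrict_of_ae (by simp [ae_iff])
    filter_upwards [ae_restrict_mem measurableSet_uIoc, h4] with t ht ht1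
    rw [Set.uIoc_of_le hx] at ht
    exact (li_eq t ht.1.le ht1).symm
  · intro t ht
    rw [li_eq t (by linarith) (by linarith), li_eq 2 (by norm_num) (by norm_num),
      (log_int 2 t (by norm_num) (by linarith) ?_).2]
    · ring
    · rw [Set.uIcc_of_le ht]
      intro h; linarith [h.1]

end Pool.Agent.AQ
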