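import Mathlib
import Pool.Agent.Work.MP_99218a_nt.Interface

/-!
# MP_99218a_nt, block LOWB: lower bound for `Xi` functions
-/

set_option autoImplicit false

namespace Pool.Agent.AQ

open Filter Topology Set Metric

namespace LowB

/-- Scaling of the bound `(1 + x) ^ (3/2)`. -/
lemma scale {x y K : ℝ} (hx : 0 ≤ x) (hK : 0 ≤ K) (hy : 0 ≤ y) (h : 1 + x ≤ K * (1 + y)) :
    (1 + x) ^ (3 / 2 : ℝ) ≤ K ^ (3 / 2 : ℝ) * (1 + y) ^ (3 / 2 : ℝ) := by
  rw [← Real.mul_rpow hK (by linarith)]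
  exact Real.rpow_le_rpow (by linarith) h (by norm_num)

lemma one_le_b (y : ℝ) (hy : 0 ≤ y) : 1 ≤ (1 + y) ^ (3 / 2 : ℝ) :=
  Real.one_le_rpow (by linarith) (by norm_num)

/-- The lower bound in the half-plane `re s ≥ 2`. -/
lemma lower_two {Φ : ℂ → ℂ} (hΦ : Xi Φ) : ∃ C : ℝ, 0 ≤ C ∧ ∀ s : ℂ, 2 ≤ s.re →
    Real.exp (-(C * (1 + ‖s‖) ^ (3 / 2 : ℝ))) ≤ ‖Φ s‖ := by
  obtain ⟨C0, hC0⟩ := hΦ.gr
  set C1 : ℝ := max C0 0 with hC1
  have hC1' : 0 ≤ C1 := le_max_right _ _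
  have hgr : ∀ s : ℂ, 2 ≤ s.re → ‖logDeriv Φ s‖ ≤ C1 * (1 + ‖s‖) ^ (1 / 2 : ℝ) := fun s hs =>
    (hC0 s hs).trans (mul_le_mul_of_nonneg_right (le_max_left _ _) (by positivity))
  have h2 : Φ 2 ≠ 0 := hΦ.ne 2 (by norm_num)
  have h2' : 0 < ‖Φ 2‖ := norm_pos_iff.mpr h2
  refine ⟨C1 * (3 : ℝ) ^ (3 / 2 : ℝ) + |Real.log ‖Φ 2‖|, by positivity, fun s hs => ?_⟩
  have hsn : 0 ≤ ‖s‖ := norm_nonneg s
  have hs0 : Φ s ≠ 0 := hΦ.ne s (by linarith)
  -- the path
  set w : ℝ → ℂ := fun t => 2 + (t : ℂ) * (s - 2) with hw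
  have hwre : ∀ t ∈ Icc (0 : ℝ) 1, 2 ≤ (w t).re := by
    intro t ht
    have : (w t).re = 2 + t * (s.re - 2) := by simp [hw]
    rw [this]
    nlinarith [ht.1, ht.2]
  have hwn : ∀ t ∈ Icc (0 : ℝ) 1, ‖w t‖ ≤ 2 + ‖s‖ := by
    intro t ht
    have e : w t = ((1 - t : ℝ) : ℂ) * 2 + (t : ℂ) * s := by simp [hw]; ring
    rw [e]
    refine (norm_add_le _ _).trans ?_
    rw [norm_mul, norm_mul, Complex.norm_real, Complex.norm_real, Real.norm_of_nonneg ht.1,
      Real.norm_of_nonneg (by linarith [ht.2])]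
    have : ‖(2 : ℂ)‖ = 2 := by norm_num
    rw [this]
    nlinarith [ht.1, ht.2]
  have hwd : ∀ t : ℝ, HasDerivAt w (s - 2) t := by
    intro t
    have h1 : HasDerivAt (fun x : ℝ => (x : ℂ)) 1 t := Complex.ofRealCLM.hasDerivAt
    have h2 := (h1.mul_const (s - 2)).const_add (2 : ℂ)
    simpa [hw] using h2
  have hne : ∀ t ∈ Icc (0 : ℝ) 1, Φ (w t) ≠ 0 := fun t ht => hΦ.ne _ (by linarith [hwre t ht])
  have hΦd : ∀ t : ℝ, HasDerivAt (fun x : ℝ => Φ (w x)) (deriv Φ (w t) * (s - 2)) t := by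
    intro t
    have h1 : HasDerivAt Φ (deriv Φ (w t)) (w t) := (hΦ.diff (w t)).hasDerivAt
    exact h1.comp t (hwd t)
  set K : ℝ := ‖s - 2‖ * (C1 * (3 + ‖s‖) ^ (1 / 2 : ℝ)) with hK
  have hfd : ∀ t ∈ Icc (0 : ℝ) 1, HasDerivAt (fun x : ℝ => (Φ (w x))⁻¹)
      (-(deriv Φ (w t) * (s - 2)) / (Φ (w t)) ^ 2) t := fun t ht => (hΦd t).fun_inv (hne t ht)
  have hgron := norm_le_gronwallBound_of_norm_deriv_right_le (f := fun x : ℝ => (Φ (w x))⁻¹)
    (f' := fun t => -(deriv Φ (w t) * (s - 2)) / (Φ (w t)) ^ 2) (δ := ‖(Φ 2)⁻¹‖) (K := K) (ε := 0)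
    (a := 0) (b := 1)
    (fun t ht => (hfd t ht).continuousAt.continuousWithinAt)
    (fun t ht => (hfd t ⟨ht.1, ht.2.le⟩).hasDerivWithinAt)
    (by simp [hw])
    (by
      intro t ht
      have ht' : t ∈ Icc (0 : ℝ) 1 := ⟨ht.1, ht.2.le⟩
      have hn := hne t ht'
      have e : -(deriv Φ (w t) * (s - 2)) / (Φ (w t)) ^ 2
          = -((s - 2) * logDeriv Φ (w t) * (Φ (w t))⁻¹) := by
        rw [logDeriv_apply]; field_simp
      rw [e, norm_neg, norm_mul, norm_mul, add_zero]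
      refine mul_le_mul_of_nonneg_right ?_ (norm_nonneg _)
      refine mul_le_mul_of_nonneg_left ?_ (norm_nonneg _)
      refine (hgr _ (hwre t ht')).trans (mul_le_mul_of_nonneg_left ?_ hC1')
      refine Real.rpow_le_rpow (by positivity) ?_ (by norm_num)
      linarith [hwn t ht'])
    1 ⟨zero_le_one, le_rfl⟩
  rw [gronwallBound_ε0] at hgron
  have hw1 : w 1 = s := by simp [hw]
  rw [hw1, norm_inv, norm_inv, sub_zero, mul_one] at hgron
  have hsp : 0 < ‖Φ s‖ := norm_pos_iff.mpr hs0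
  have h3 : ‖Φ 2‖ * Real.exp (-K) ≤ ‖Φ s‖ := by
    rw [Real.exp_neg]
    have : ‖Φ s‖⁻¹ ≤ (‖Φ 2‖ * (Real.exp K)⁻¹)⁻¹ := by
      rw [mul_inv, inv_inv]; exact hgron
    exact (inv_le_inv₀ hsp (by positivity)).mp this
  refine le_trans ?_ h3
  have hexp : ‖Φ 2‖ = Real.exp (Real.log ‖Φ 2‖) := (Real.exp_log h2').symm
  rw [hexp, ← Real.exp_add]
  refine Real.exp_le_exp.mpr ?_
  rw [Real.log_exp]
  have hb := one_le_b ‖s‖ hsn
  have hKle : K ≤ C1 * (3 : ℝ) ^ (3 / 2 : ℝ) * (1 + ‖s‖) ^ (3 / 2 : ℝ) := by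
    have h4 : ‖s - 2‖ ≤ 3 + ‖s‖ := by
      refine (norm_sub_le _ _).trans ?_
      have : ‖(2 : ℂ)‖ = 2 := by norm_num
      rw [this]; linarith
    have h5 : (3 + ‖s‖) * (3 + ‖s‖) ^ (1 / 2 : ℝ) = (3 + ‖s‖) ^ (3 / 2 : ℝ) := by
      have h6 : (0 : ℝ) < 3 + ‖s‖ := by linarith
      rw [show (3 / 2 : ℝ) = 1 + 1 / 2 by norm_num, Real.rpow_add h6, Real.rpow_one]
    have h7 : (3 + ‖s‖) ^ (3 / 2 : ℝ) ≤ (3 : ℝ) ^ (3 / 2 : ℝ) * (1 + ‖s‖) ^ (3 / 2 : ℝ) := by
      rw [← Real.mul_rpow (by norm_num) (by linarith)]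
      exact Real.rpow_le_rpow (by linarith) (by linarith) (by norm_num)
    calc K = C1 * (‖s - 2‖ * (3 + ‖s‖) ^ (1 / 2 : ℝ)) := by rw [hK]; ring
      _ ≤ C1 * ((3 + ‖s‖) * (3 + ‖s‖) ^ (1 / 2 : ℝ)) := by gcongr
      _ = C1 * (3 + ‖s‖) ^ (3 / 2 : ℝ) := by rw [h5]
      _ ≤ C1 * ((3 : ℝ) ^ (3 / 2 : ℝ) * (1 + ‖s‖) ^ (3 / 2 : ℝ)) := by gcongr
      _ = _ := by ring
  have h8 : -Real.log ‖Φ 2‖ ≤ |Real.log ‖Φ 2‖| * (1 + ‖s‖) ^ (3 / 2 : ℝ) := by
    have := neg_le_abs (Real.log ‖Φ 2‖)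
    have h9 := abs_nonneg (Real.log ‖Φ 2‖)
    nlinarith
  nlinarith [hKle, h8]

end LowB

/-- **LOWB.** -/
theorem stmt_LOWB : Stmt_LOWB := by
  intro Φ hΦ δ hδ
  obtain ⟨CA, hCA0, hCA⟩ := LowB.lower_two hΦ
  obtain ⟨CU0, hCU0⟩ := hΦ.upper
  set CU : ℝ := max CU0 1 with hCU
  have hCU1 : 1 ≤ CU := le_max_right _ _
  have hupp : ∀ s : ℂ, 1 / 4 ≤ s.re → ‖Φ s‖ ≤ Real.exp (CU * (1 + ‖s‖) ^ (3 / 2 : ℝ)) := fun s hs =>
    (hCU0 s hs).trans (Real.exp_le_exp.mpr
      (mul_le_mul_of_nonneg_right (le_max_left _ _) (by positivity)))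
  set K : ℝ := 5 + δ / 2 with hK
  have hK0 : 0 ≤ K := by positivity
  set B : ℝ := K ^ (3 / 2 : ℝ) with hB
  have hB0 : 0 < B := by positivity
  set D : ℝ := (CU + CA) * B with hD
  have hD0 : 0 < D := by positivity
  refine ⟨max CA (CA * B + 8 * D / δ), fun s hs => ?_⟩
  have hsn : 0 ≤ ‖s‖ := norm_nonneg s
  have hb := LowB.one_le_b ‖s‖ hsn
  have hb0 : 0 < (1 + ‖s‖) ^ (3 / 2 : ℝ) := by linarith
  rcases le_or_gt 2 s.re with h2 | h2
  · refine le_trans (Real.exp_le_exp.mpr ?_) (hCA s h2)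
    exact neg_le_neg (mul_le_mul_of_nonneg_right (le_max_left _ _) hb0.le)
  · -- the ball
    set c : ℂ := s + 2 with hc
    set R : ℝ := 2 + δ / 2 with hR
    have hR0 : 0 < R := by positivity
    have hcn : ‖c‖ ≤ ‖s‖ + 2 := by
      refine (norm_add_le _ _).trans ?_
      have : ‖(2 : ℂ)‖ = 2 := by norm_num
      rw [this]
    have hcre : c.re = s.re + 2 := by simp [hc]
    have hbre : ∀ w ∈ ball c R, 1 / 2 < w.re := by
      intro w hw
      have h1 : ‖w - c‖ < R := mem_ball_iff_norm.mp hw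
      have h3 : |(w - c).re| ≤ ‖w - c‖ := Complex.abs_re_le_norm _
      have h4 : -(‖w - c‖) ≤ (w - c).re := by
        have := neg_abs_le (w - c).re
        linarith
      rw [Complex.sub_re, hcre] at h4
      linarith
    have hbn : ∀ w ∈ ball c R, 1 + ‖w‖ ≤ K * (1 + ‖s‖) := by
      intro w hw
      have h1 : ‖w - c‖ < R := mem_ball_iff_norm.mp hw
      have h3 : ‖w‖ ≤ ‖w - c‖ + ‖c‖ := by
        have := norm_add_le (w - c) c
        simpa using this
      nlinarith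
    have hne : ∀ w ∈ ball c R, Φ w ≠ 0 := fun w hw => hΦ.ne w (hbre w hw)
    have hcb : c ∈ ball c R := mem_ball_self hR0
    have hld : DifferentiableOn ℂ (logDeriv Φ) (ball c R) := by
      intro w hw
      have h1 : DifferentiableAt ℂ (deriv Φ) w :=
        ((hΦ.diff.contDiff (n := 2)).differentiable_deriv_two) w
      have h3 : DifferentiableAt ℂ (fun z => deriv Φ z / Φ z) w := h1.div (hΦ.diff w) (hne w hw)
      have h4 : (logDeriv Φ) = fun z => deriv Φ z / Φ z := by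
        funext z; exact logDeriv_apply Φ z
      rw [h4]
      exact h3.differentiableWithinAt
    obtain ⟨g, hgc, hg⟩ := hld.isExactOn_ball.with_val_at c 0
    -- `Φ = Φ c * exp g`
    have hrep : ∀ w ∈ ball c R, Φ w = Φ c * Complex.exp (g w) := by
      have hdz : ∀ z ∈ ball c R, HasDerivAt (fun w => Φ w * Complex.exp (-g w)) 0 z := by
        intro z hz
        have h1 : HasDerivAt Φ (deriv Φ z) z := (hΦ.diff z).hasDerivAt
        have h3 : HasDerivAt (fun w => Complex.exp (-g w)) (Complex.exp (-g z) * (-(logDeriv Φ z))) z :=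
          (hg z hz).neg.cexp
        have h4 := h1.mul h3
        refine h4.congr_deriv ?_
        rw [logDeriv_apply]
        have := hne z hz
        field_simp
        ring
      intro w hw
      have hconv : Convex ℝ (ball c R) := convex_ball c R
      have hcst : Φ w * Complex.exp (-g w) = Φ c * Complex.exp (-g c) := by
        apply (convex_ball c R).is_const_of_fderivWithin_eq_zero (𝕜 := ℂ)
          (f := fun w => Φ w * Complex.exp (-g w)) ?_ ?_ hw hcb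
        · intro z hz
          exact (hdz z hz).differentiableAt.differentiableWithinAt
        · intro z hz
          have h5 := (hdz z hz).hasFDerivAt.hasFDerivWithinAt (s := ball c R)
          rw [h5.fderivWithin (isOpen_ball.uniqueDiffWithinAt hz)]
          ext; simp
      rw [hgc, neg_zero, Complex.exp_zero, mul_one] at hcst
      rw [← hcst, mul_assoc, ← Complex.exp_add]
      simp
    -- the value at `c`
    have hcl : Real.exp (-(CA * B * (1 + ‖s‖) ^ (3 / 2 : ℝ))) ≤ ‖Φ c‖ := by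
      refine le_trans (Real.exp_le_exp.mpr ?_) (hCA c (by rw [hcre]; linarith))
      refine neg_le_neg ?_
      rw [mul_assoc]
      exact mul_le_mul_of_nonneg_left (LowB.scale (norm_nonneg _) hK0 hsn (hbn c hcb)) hCA0
    have hcp : 0 < ‖Φ c‖ := lt_of_lt_of_le (Real.exp_pos _) hcl
    -- the upper bound for `re g`
    set M : ℝ := D * (1 + ‖s‖) ^ (3 / 2 : ℝ) with hM
    have hM0 : 0 < M := by positivity
    have hre : ∀ w ∈ ball c R, (g w).re ≤ M := by
      intro w hw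
      have h1 : ‖Φ w‖ = ‖Φ c‖ * Real.exp (g w).re := by
        rw [hrep w hw, norm_mul, Complex.norm_exp]
      have h3 : ‖Φ w‖ ≤ Real.exp (CU * B * (1 + ‖s‖) ^ (3 / 2 : ℝ)) := by
        refine (hupp w (by linarith [hbre w hw])).trans (Real.exp_le_exp.mpr ?_)
        rw [mul_assoc]
        exact mul_le_mul_of_nonneg_left (LowB.scale (norm_nonneg _) hK0 hsn (hbn w hw))
          (by linarith)
      have h4 : Real.exp (-(CA * B * (1 + ‖s‖) ^ (3 / 2 : ℝ))) * Real.exp (g w).re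
          ≤ Real.exp (CU * B * (1 + ‖s‖) ^ (3 / 2 : ℝ)) := by
        refine le_trans ?_ h3
        rw [h1]
        exact mul_le_mul_of_nonneg_right hcl (Real.exp_pos _).le
      rw [← Real.exp_add] at h4
      have h5 := Real.exp_le_exp.mp h4
      rw [hM, hD]
      nlinarith
    -- Borel-Carathéodory
    have hbc := Complex.borelCaratheodory_zero (f := fun z => g (c + z)) (R := R) (z := -2) (M := M)
      hM0 (by
        intro z hz
        have hz' : c + z ∈ ball c R := by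
          rw [mem_ball_iff_norm]; simpa using hz
        have h1 : DifferentiableAt ℂ g (c + z) := (hg _ hz').differentiableAt
        exact (h1.comp z ((differentiableAt_const c).add differentiableAt_id)).differentiableWithinAt)
      (by
        intro z hz
        have hz' : c + z ∈ ball c R := by
          rw [mem_ball_iff_norm]; simpa using hz
        exact hre _ hz') hR0 (by
        have : ‖(2 : ℂ)‖ = 2 := by norm_num
        rw [mem_ball_zero_iff, norm_neg, this]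
        linarith) (by simpa using hgc)
    have hcs : c + -2 = s := by rw [hc]; ring
    have h2n : ‖(-2 : ℂ)‖ = 2 := by norm_num
    simp only [hcs, h2n] at hbc
    have hgs : ‖g s‖ ≤ 8 * M / δ := by
      refine hbc.trans (le_of_eq ?_)
      have e : R - 2 = δ / 2 := by rw [hR]; ring
      rw [e]
      field_simp
      ring
    have hsb : s ∈ ball c R := by
      have : ‖(2 : ℂ)‖ = 2 := by norm_num
      rw [mem_ball_iff_norm, hc]
      have e : s - (s + 2) = -2 := by ring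
      rw [e, norm_neg, this]
      linarith
    have h1 : ‖Φ s‖ = ‖Φ c‖ * Real.exp (g s).re := by
      rw [hrep s hsb, norm_mul, Complex.norm_exp]
    have h3 : -(8 * M / δ) ≤ (g s).re := by
      have h4 := Complex.abs_re_le_norm (g s)
      have h5 := neg_abs_le (g s).re
      linarith
    rw [h1]
    refine le_trans ?_ (mul_le_mul hcl (Real.exp_le_exp.mpr h3) (Real.exp_pos _).le hcp.le)
    rw [← Real.exp_add]
    refine Real.exp_le_exp.mpr ?_
    have h6 : (CA * B + 8 * D / δ) * (1 + ‖s‖) ^ (3 / 2 : ℝ)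
        ≤ max CA (CA * B + 8 * D / δ) * (1 + ‖s‖) ^ (3 / 2 : ℝ) :=
      mul_le_mul_of_nonneg_right (le_max_right _ _) hb0.le
    have h7 : (CA * B + 8 * D / δ) * (1 + ‖s‖) ^ (3 / 2 : ℝ)
        = CA * B * (1 + ‖s‖) ^ (3 / 2 : ℝ) + 8 * M / δ := by
      rw [hM]; ring
    linarith

end Pool.Agent.AQ
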