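import Pool.Agent.Work.MP_99218a_nt.Interface

/-!
# Block LRG: large moduli
-/

set_option autoImplicit false

namespace Pool.Agent.AQ

open ArithmeticFunction Filter Topology
open scoped Classical

namespace LRG

/-! ### lower bound for the totient -/

lemma prod_sq_le (s : Finset ℕ) (hs : ∀ p ∈ s, p.Prime) :
    (∏ p ∈ s, p) ≤ (if 2 ∈ s then 2 else 1) * (∏ p ∈ s, (p - 1)) ^ 2 := by
  induction s using Finset.induction_on with
  | empty => simp
  | insert p s hps ih =>
    have ih' := ih fun p' hp' => hs p' (Finset.mem_insert_of_mem hp')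
    rw [Finset.prod_insert hps, Finset.prod_insert hps]
    have hpp := (hs p (Finset.mem_insert_self p s)).two_le
    rcases Nat.eq_or_lt_of_le hpp with h5 | h5
    · subst h5
      rw [if_neg hps] at ih'
      rw [if_pos (Finset.mem_insert_self 2 s)]
      calc 2 * ∏ p ∈ s, p ≤ 2 * (1 * (∏ p ∈ s, (p - 1)) ^ 2) := Nat.mul_le_mul_left 2 ih'
        _ = _ := by norm_num
    · have h6 : (if 2 ∈ insert p s then 2 else 1) = (if 2 ∈ s then 2 else 1) := by
        have : 2 ∈ insert p s ↔ 2 ∈ s := by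
          rw [Finset.mem_insert]
          constructor
          · rintro (h | h)
            · omega
            · exact h
          · exact Or.inr
        simp only [this]
      rw [h6]
      have h7 : p ≤ (p - 1) ^ 2 := by
        obtain ⟨k, rfl⟩ : ∃ k, p = k + 3 := ⟨p - 3, by omega⟩
        have : k + 3 - 1 = k + 2 := by omega
        rw [this]
        nlinarith [Nat.zero_le k, Nat.zero_le (k ^ 2)]
      calc p * ∏ p ∈ s, p ≤ (p - 1) ^ 2 * ((if 2 ∈ s then 2 else 1)
            * (∏ p ∈ s, (p - 1)) ^ 2) := Nat.mul_le_mul h7 ih'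
        _ = _ := by ring

lemma le_totient (r : ℕ) (hr : 0 < r) : r ≤ 2 * r.totient ^ 2 := by
  have h1 := Nat.totient_mul_prod_primeFactors r
  have h2 := prod_sq_le r.primeFactors fun p hp => Nat.prime_of_mem_primeFactors hp
  set A := ∏ p ∈ r.primeFactors, p with hA
  set B := ∏ p ∈ r.primeFactors, (p - 1) with hB
  have hAr : A ≤ r := Nat.le_of_dvd hr (Nat.prod_primeFactors_dvd r)
  have hA0 : 0 < A := Finset.prod_pos fun p hp => (Nat.prime_of_mem_primeFactors hp).pos
  have h3 : A ≤ 2 * B ^ 2 := by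
    refine h2.trans (Nat.mul_le_mul_right _ ?_)
    split_ifs <;> norm_num
  have h4 : r * A ^ 2 ≤ 2 * r.totient ^ 2 * A ^ 2 := by
    calc r * A ^ 2 = r * (A * A) := by ring
      _ ≤ r * (r * (2 * B ^ 2)) := Nat.mul_le_mul_left _ (Nat.mul_le_mul hAr h3)
      _ = 2 * (r * B) ^ 2 := by ring
      _ = 2 * (r.totient * A) ^ 2 := by rw [h1]
      _ = _ := by ring
  exact Nat.le_of_mul_le_mul_right h4 (by positivity)

/-- `log q ≤ 5 √φ(q)` for `q ≥ 1`. -/
lemma log_le (q : ℕ) (hq : 0 < q) : Real.log q ≤ 5 * √(q.totient : ℝ) := by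
  have h1 : (q : ℝ) ≤ 2 * (q.totient : ℝ) ^ 2 := by exact_mod_cast le_totient q hq
  have hφ : (1 : ℝ) ≤ q.totient := by exact_mod_cast Nat.totient_pos.2 hq
  have hs : 1 ≤ √(q.totient : ℝ) := by
    rw [Real.one_le_sqrt]; exact hφ
  have h2 : Real.log q ≤ Real.log (2 * (q.totient : ℝ) ^ 2) :=
    Real.log_le_log (by exact_mod_cast hq) h1
  rw [Real.log_mul (by norm_num) (by positivity), Real.log_pow] at h2
  have h3 : Real.log (q.totient : ℝ) = 2 * Real.log √(q.totient : ℝ) := by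
    rw [Real.log_sqrt (by positivity)]; ring
  have h4 : Real.log √(q.totient : ℝ) ≤ √(q.totient : ℝ) - 1 :=
    Real.log_le_sub_one_of_pos (by positivity)
  have h5 : Real.log 2 ≤ 1 := by linarith [Real.log_two_lt_d9]
  rw [h3] at h2
  push_cast at h2
  nlinarith

/-- The contribution of one prime power to `psi1`. -/
lemma psi1_ge (q : ℕ) (a : ℤ) (m : ℕ) (hm : 0 < m) (h : (m : ZMod q) = (a : ZMod q)) (x : ℝ)
    (hx : (m : ℝ) ≤ x) : Λ m * (x - m) ≤ psi1 q a x := by
  unfold psi1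
  have hmem : m ∈ (Finset.Ioc 0 ⌊x⌋₊).filter (fun n : ℕ => (n : ZMod q) = (a : ZMod q)) := by
    rw [Finset.mem_filter, Finset.mem_Ioc]
    exact ⟨⟨hm, Nat.le_floor hx⟩, h⟩
  refine Finset.single_le_sum (f := fun n : ℕ => Λ n * (x - n)) (fun n hn => ?_) hmem
  rw [Finset.mem_filter, Finset.mem_Ioc] at hn
  have h1 : (n : ℝ) ≤ x := (Nat.le_floor_iff' (by omega)).1 hn.1.2
  exact mul_nonneg vonMangoldt_nonneg (by linarith)

/-- `Λ n > 0` implies `Λ n ≥ log 2 ≥ 1 / 2`. -/
lemma half_le (m : ℕ) (h : Λ m ≠ 0) : 1 / 2 ≤ Λ m := by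
  rw [vonMangoldt_apply] at h ⊢
  split_ifs at h ⊢ with h1
  · have h2 : 2 ≤ m.minFac := (Nat.minFac_prime (by
      rintro rfl
      exact h (by simp))).two_le
    have h3 : Real.log 2 ≤ Real.log m.minFac :=
      Real.log_le_log (by norm_num) (by exact_mod_cast h2)
    linarith [Real.log_two_gt_d9]
  · exact absurd rfl h

end LRG

/-- LRG. -/
theorem stmt_LRG (h1 : Stmt_CRI) (h2 : Stmt_ONE) (h3 : Stmt_RQ) : Stmt_LRG := by
  intro hG
  obtain ⟨C, hC, hcri⟩ := h1 hG
  obtain ⟨q1, hone⟩ := h2 hG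
  obtain ⟨C', hrq⟩ := h3 (1 / 4) (by norm_num)
  set B : ℝ := |C'| + 1 with hB
  have hB1 : 1 ≤ B := by rw [hB]; linarith [abs_nonneg C']
  set M : ℝ := 8 * B + 36 * C with hM
  have hM0 : 0 < M := by rw [hM]; linarith
  refine ⟨min (1 / 27) (1 / (4 * (B + C))), by positivity, max (max q1 3) ⌈2 * M ^ 8⌉₊, ?_⟩
  intro q _ hq a ha hcase hin
  have hqq1 : q1 ≤ q := (le_max_left _ _).trans ((le_max_left _ _).trans hq)
  have hq3 : 3 ≤ q := (le_max_right _ _).trans ((le_max_left _ _).trans hq)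
  have hqM : 2 * M ^ 8 ≤ q := (Nat.le_ceil _).trans (by exact_mod_cast (le_max_right _ _).trans hq)
  by_cases ha1 : (a : ZMod q) = 1
  · exact hone q hqq1 a (Or.inl ha1) hin
  by_cases ha2 : (a : ZMod q) = -1
  · exact hone q hqq1 a (Or.inr ha2) hin
  obtain ⟨hc1, hc2⟩ := hcri q hq3 a ha ha1 ha2 hin
  -- the parameter `t = φ(q)^{1/4}`
  set φ : ℝ := (q.totient : ℝ) with hφ
  have hφ1 : 1 ≤ φ := by rw [hφ]; exact_mod_cast Nat.totient_pos.2 (by omega)
  set t : ℝ := √√φ with ht
  have ht2 : t ^ 2 = √φ := Real.sq_sqrt (Real.sqrt_nonneg _)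
  have ht4 : t ^ 4 = φ := by
    calc t ^ 4 = (t ^ 2) ^ 2 := by ring
      _ = φ := by rw [ht2, Real.sq_sqrt (by linarith)]
  have ht0 : 0 ≤ t := Real.sqrt_nonneg _
  have hφM : M ^ 4 ≤ φ := by
    have h5 : (q : ℝ) ≤ 2 * φ ^ 2 := by
      rw [hφ]; exact_mod_cast LRG.le_totient q (by omega)
    have h6 : (M ^ 4) ^ 2 ≤ φ ^ 2 := by
      calc (M ^ 4) ^ 2 = M ^ 8 := by ring
        _ ≤ φ ^ 2 := by linarith
    exact le_of_sq_le_sq h6 (by linarith)
  have htM : M ≤ t := by
    refine le_of_pow_le_pow_left₀ (n := 4) (by norm_num) ht0 ?_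
    rw [ht4]; exact hφM
  have ht1 : 1 ≤ t := by linarith
  have hrt : (rt q a : ℝ) ≤ B * t := by
    have h5 := hrq q a (by omega) ha
    have h6 : φ ^ (1 / 4 : ℝ) = t := by
      rw [← ht4, ← Real.rpow_natCast t 4, ← Real.rpow_mul ht0]
      norm_num
    rw [← hφ, h6] at h5
    refine h5.trans (mul_le_mul_of_nonneg_right ?_ ht0)
    rw [hB]; linarith [le_abs_self C']
  have hL1 : 1 ≤ Real.log q := by
    rw [Real.le_log_iff_exp_le (by positivity)]
    have : (3 : ℝ) ≤ q := by exact_mod_cast hq3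
    linarith [Real.exp_one_lt_d9]
  have hne : ∀ m : ℕ, m ≠ 0 → 0 < m := fun m hm => Nat.pos_of_ne_zero hm
  have hfact : Fact (1 < q) := ⟨by omega⟩
  rcases hcase with hc | hc | ⟨m, hm1, hm2⟩ | ⟨m, hm1, hm2⟩
  · exact ha1 hc
  · exact ha2 hc
  · -- a prime power in the class
    have hm0 : m ≠ 0 := by
      rintro rfl
      rw [Nat.cast_zero] at hm1
      rw [← hm1] at ha
      exact not_isUnit_zero ha
    have hmpos : (0 : ℝ) < m := by exact_mod_cast hne m hm0
    have hΛ0 : Λ m ≠ 0 := by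
      intro h0
      rw [h0] at hm2
      simp only [mul_zero, zero_mul] at hm2
      linarith
    have hΛ := LRG.half_le m hΛ0
    set P : ℝ := φ * Λ m with hP
    have hP1 : t ^ 4 ≤ 2 * P := by
      rw [ht4, hP]; nlinarith
    have hP0 : 0 < P := by nlinarith [pow_pos (by linarith : (0 : ℝ) < t) 4]
    have hmP : (m : ℝ) ≤ P / 27 := by
      calc (m : ℝ) ≤ min (1 / 27) (1 / (4 * (B + C))) * Λ m * φ := hm2
        _ = min (1 / 27) (1 / (4 * (B + C))) * P := by rw [hP]; ring
        _ ≤ 1 / 27 * P := mul_le_mul_of_nonneg_right (min_le_left _ _) hP0.le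
        _ = P / 27 := by ring
    have hm1' : (1 : ℝ) ≤ m := by exact_mod_cast hne m hm0
    have hx := hc1 (3 * m) (by linarith)
    have hpsi := LRG.psi1_ge q a m (hne m hm0) hm1 (3 * m) (by linarith)
    have hlow : 2 / 3 * P ≤ φ * psi1 q a (3 * m) / (3 * m) := by
      rw [le_div_iff₀ (by linarith)]
      have h5 : φ * (Λ m * (3 * m - m)) ≤ φ * psi1 q a (3 * m) :=
        mul_le_mul_of_nonneg_left hpsi (by linarith)
      have h6 : 2 / 3 * P * (3 * m) = φ * (Λ m * (3 * m - m)) := by rw [hP]; ring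
      linarith
    have hlog : Real.log (3 * m) ≤ 3 * m := by
      have := Real.log_le_sub_one_of_pos (show (0 : ℝ) < 3 * m by linarith)
      linarith
    -- the square root term
    have hsP : √(3 * (m : ℝ)) ≤ √P := Real.sqrt_le_sqrt (by linarith)
    have hsP0 : 0 ≤ √P := Real.sqrt_nonneg _
    have hsq : √P ^ 2 = P := Real.sq_sqrt hP0.le
    have ht2P : t ^ 2 ≤ 3 / 2 * √P := by
      refine abs_le_of_sq_le_sq' ?_ (by positivity) |>.2
      calc (t ^ 2) ^ 2 = t ^ 4 := by ring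
        _ ≤ 2 * P := hP1
        _ ≤ (3 / 2 * √P) ^ 2 := by rw [mul_pow, hsq]; linarith
    have hBt : B * t ≤ t ^ 2 / 8 := by
      have : 8 * B ≤ t := by linarith
      nlinarith
    have hterm : 2 / 3 * √(3 * (m : ℝ)) * rt q a ≤ P / 6 := by
      have hr0 : (0 : ℝ) ≤ rt q a := by positivity
      calc 2 / 3 * √(3 * (m : ℝ)) * rt q a ≤ 2 / 3 * √P * (3 / 2 * √P / 8) := by
            refine mul_le_mul (by linarith) ?_ hr0 (by positivity)
            linarith
        _ = √P ^ 2 / 8 := by ring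
        _ ≤ P / 6 := by rw [hsq]; linarith
    have hterm2 : C * √(φ * Real.log q) ≤ P / 6 := by
      have h5 : Real.log q ≤ 5 * t ^ 2 := by
        rw [ht2, hφ]; exact LRG.log_le q (by omega)
      have h6 : √(φ * Real.log q) ≤ 3 * t ^ 3 := by
        rw [Real.sqrt_le_left (by positivity)]
        calc φ * Real.log q ≤ φ * (5 * t ^ 2) := mul_le_mul_of_nonneg_left h5 (by linarith)
          _ = 5 * t ^ 6 := by rw [← ht4]; ring
          _ ≤ (3 * t ^ 3) ^ 2 := by nlinarith [pow_nonneg ht0 6]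
      have h7 : 36 * C ≤ t := by linarith
      calc C * √(φ * Real.log q) ≤ C * (3 * t ^ 3) := mul_le_mul_of_nonneg_left h6 hC.le
        _ = 36 * C * t ^ 3 / 12 := by ring
        _ ≤ t * t ^ 3 / 12 := by
            have := mul_le_mul_of_nonneg_right h7 (pow_nonneg ht0 3)
            linarith
        _ = t ^ 4 / 12 := by ring
        _ ≤ P / 6 := by linarith
    linarith
  · -- a prime power in the inverse class
    have hm0 : m ≠ 0 := by
      rintro rfl
      rw [Nat.cast_zero, zero_mul] at hm1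
      exact zero_ne_one hm1
    have hmpos : (0 : ℝ) < m := by exact_mod_cast hne m hm0
    have hLs : 1 ≤ √(Real.log q) := by rw [Real.one_le_sqrt]; exact hL1
    have hΛ0 : Λ m ≠ 0 := by
      intro h0
      rw [h0] at hm2
      simp only [mul_zero, zero_mul] at hm2
      nlinarith
    have hΛ := LRG.half_le m hΛ0
    have hm2' : 2 ≤ m := by
      by_contra h5
      have : m = 1 := by omega
      rw [this] at hΛ0
      exact hΛ0 (by simp)
    have hmR : (2 : ℝ) ≤ m := by exact_mod_cast hm2'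
    have hx := hc2 m (hne m hm0) hm1
    rw [← ht2] at hm2
    set L : ℝ := √(Real.log q) with hL
    have hsL : √(φ * Real.log q) = t ^ 2 * L := by
      rw [Real.sqrt_mul (by linarith), ht2]
    rw [hsL] at hx
    -- `m L ≤ c Λ t²`, `c ≤ 1 / (4 (B + C))`
    have hBC : 0 < B + C := by linarith
    have h5 : 4 * (B + C) * (m * L) ≤ Λ m * t ^ 2 := by
      calc 4 * (B + C) * (m * L)
          ≤ 4 * (B + C) * (min (1 / 27) (1 / (4 * (B + C))) * Λ m * t ^ 2) :=
            mul_le_mul_of_nonneg_left hm2 (by positivity)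
        _ ≤ 4 * (B + C) * (1 / (4 * (B + C)) * Λ m * t ^ 2) := by
            refine mul_le_mul_of_nonneg_left ?_ (by positivity)
            refine mul_le_mul_of_nonneg_right ?_ (by positivity)
            exact mul_le_mul_of_nonneg_right (min_le_right _ _) (by linarith)
        _ = Λ m * t ^ 2 := by field_simp
    have h6 : (1 : ℝ) / (2 * m) ≤ 1 / m - 1 / m ^ 2 := by
      have h12 : (1 : ℝ) / m - 1 / m ^ 2 - 1 / (2 * m) = (m - 2) / (2 * m ^ 2) := by
        field_simp
        ring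
      have h13 : 0 ≤ ((m : ℝ) - 2) / (2 * m ^ 2) := div_nonneg (by linarith) (by positivity)
      linarith
    have h7 : Λ m * φ * (1 / (2 * m)) ≤ Λ m * φ * (1 / m - 1 / m ^ 2) :=
      mul_le_mul_of_nonneg_left h6 (by positivity)
    have h8 : 2 * (B + C) * (t ^ 2 * L) ≤ Λ m * φ * (1 / (2 * m)) := by
      rw [mul_one_div, le_div_iff₀ (by positivity), ← ht4]
      have := mul_le_mul_of_nonneg_left h5 (pow_nonneg ht0 2)
      nlinarith
    have h9 : 2 / 3 * (rt q a : ℝ) ≤ B * (t ^ 2 * L) := by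
      have h10 : B * t ≤ B * (t ^ 2 * L) := by
        refine mul_le_mul_of_nonneg_left ?_ (by linarith)
        nlinarith
      have : (0 : ℝ) ≤ rt q a := by positivity
      linarith
    have h11 : 0 < t ^ 2 * L := by positivity
    nlinarith

end Pool.Agent.AQ
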