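import Pool.Agent.Work.MP_99218a_nt.InterfaceB
import Pool.Agent.Work.MP_99218a_nt.LRG

/-!
# Block LRG2: large moduli, any constant below `1 / 2`
-/

set_option autoImplicit false

namespace Pool.Agent.AQ

open ArithmeticFunction Filter Topology
open scoped Classical

/-- LRG2. -/
theorem stmt_LRG2 (h1 : Stmt_CRI) (h2 : Stmt_ONE) (h3 : Stmt_RQ) : Stmt_LRG2 := by
  intro hG
  obtain ⟨C, hC, hcri⟩ := h1 hG
  obtain ⟨q1, hone⟩ := h2 hG
  obtain ⟨C', hrq⟩ := h3 (1 / 4) (by norm_num)
  set B : ℝ := |C'| + 1 with hB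
  have hB1 : 1 ≤ B := by rw [hB]; linarith [abs_nonneg C']
  refine ⟨1 / (4 * (B + C)), by positivity, fun c hc => ?_⟩
  set g : ℝ := 1 / 2 - c with hg
  have hg0 : 0 < g := by rw [hg]; linarith
  set M : ℝ := (3 * (2 + B) + 24 * C) / g with hM
  have hM0 : 0 < M := by rw [hM]; positivity
  have hMg : M * g = 3 * (2 + B) + 24 * C := by rw [hM]; field_simp
  refine ⟨max (max q1 3) ⌈2 * M ^ 8⌉₊, ?_⟩
  intro q _ hq a ha hcase hin
  have hqq1 : q1 ≤ q := (le_max_left _ _).trans ((le_max_left _ _).trans hq)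
  have hq3 : 3 ≤ q := (le_max_right _ _).trans ((le_max_left _ _).trans hq)
  have hqM : 2 * M ^ 8 ≤ q := (Nat.le_ceil _).trans (by exact_mod_cast (le_max_right _ _).trans hq)
  by_cases ha1 : (a : ZMod q) = 1
  · exact hone q hqq1 a (Or.inl ha1) hin
  by_cases ha2 : (a : ZMod q) = -1
  · exact hone q hqq1 a (Or.inr ha2) hin
  obtain ⟨hc1, hc2⟩ := hcri q hq3 a ha ha1 ha2 hin
  -- the parameter `t = φ(q)^{1/4}`
  set φ : ℝ := (q.totient : ℝ) with hφ
  have hφ1 : 1 ≤ φ := by rw [hφ]; exact_mod_cast Nat.totient_pos.2 (by omega)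
  set t : ℝ := √√φ with ht
  have ht2 : t ^ 2 = √φ := Real.sq_sqrt (Real.sqrt_nonneg _)
  have ht4 : t ^ 4 = φ := by
    calc t ^ 4 = (t ^ 2) ^ 2 := by ring
      _ = φ := by rw [ht2, Real.sq_sqrt (by linarith)]
  have ht0 : 0 ≤ t := Real.sqrt_nonneg _
  have hφM : M ^ 4 ≤ φ := by
    have h5 : (q : ℝ) ≤ 2 * φ ^ 2 := by
      rw [hφ]; exact_mod_cast LRG.le_totient q (by omega)
    have h6 : (M ^ 4) ^ 2 ≤ φ ^ 2 := by
      calc (M ^ 4) ^ 2 = M ^ 8 := by ring
        _ ≤ φ ^ 2 := by linarith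
    exact le_of_sq_le_sq h6 (by linarith)
  have htM : M ≤ t := by
    refine le_of_pow_le_pow_left₀ (n := 4) (by norm_num) ht0 ?_
    rw [ht4]; exact hφM
  have ht1 : 1 ≤ t := by
    refine le_of_pow_le_pow_left₀ (n := 4) (by norm_num) ht0 ?_
    rw [ht4, one_pow]; exact hφ1
  have htg : 3 * (2 + B) + 24 * C ≤ t * g := by
    rw [← hMg]; exact mul_le_mul_of_nonneg_right htM hg0.le
  have hrt : (rt q a : ℝ) ≤ B * t := by
    have h5 := hrq q a (by omega) ha
    have h6 : φ ^ (1 / 4 : ℝ) = t := by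
      rw [← ht4, ← Real.rpow_natCast t 4, ← Real.rpow_mul ht0]
      norm_num
    rw [← hφ, h6] at h5
    refine h5.trans (mul_le_mul_of_nonneg_right ?_ ht0)
    rw [hB]; linarith [le_abs_self C']
  have hL1 : 1 ≤ Real.log q := by
    rw [Real.le_log_iff_exp_le (by positivity)]
    have : (3 : ℝ) ≤ q := by exact_mod_cast hq3
    linarith [Real.exp_one_lt_d9]
  have hne : ∀ m : ℕ, m ≠ 0 → 0 < m := fun m hm => Nat.pos_of_ne_zero hm
  have hfact : Fact (1 < q) := ⟨by omega⟩
  rcases hcase with hca | hca | ⟨m, hm1, hm2⟩ | ⟨m, hm1, hm2⟩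
  · exact ha1 hca
  · exact ha2 hca
  · -- a prime power in the class
    have hm0 : m ≠ 0 := by
      rintro rfl
      rw [Nat.cast_zero] at hm1
      rw [← hm1] at ha
      exact not_isUnit_zero ha
    have hmpos : (0 : ℝ) < m := by exact_mod_cast hne m hm0
    have hΛ0 : Λ m ≠ 0 := by
      intro h0
      rw [h0] at hm2
      simp only [mul_zero, zero_mul] at hm2
      linarith
    have hΛ := LRG.half_le m hΛ0
    set P : ℝ := φ * Λ m with hP
    have hP1 : t ^ 4 ≤ 2 * P := by
      rw [ht4, hP]; nlinarith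
    have hP0 : 0 < P := by nlinarith [pow_pos (by linarith : (0 : ℝ) < t) 4]
    have hmP : (m : ℝ) ≤ c * P := by
      calc (m : ℝ) ≤ c * Λ m * φ := hm2
        _ = c * P := by rw [hP]; ring
    have hmP2 : 2 * (m : ℝ) ≤ P := by
      have : c * P ≤ 1 / 2 * P := mul_le_mul_of_nonneg_right hc.le hP0.le
      linarith
    have hm1' : (1 : ℝ) ≤ m := by exact_mod_cast hne m hm0
    have hx := hc1 (2 * m) (by linarith)
    have hpsi := LRG.psi1_ge q a m (hne m hm0) hm1 (2 * m) (by linarith)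
    have hlow : 1 / 2 * P ≤ φ * psi1 q a (2 * m) / (2 * m) := by
      rw [le_div_iff₀ (by linarith)]
      have h5 : φ * (Λ m * (2 * m - m)) ≤ φ * psi1 q a (2 * m) :=
        mul_le_mul_of_nonneg_left hpsi (by linarith)
      have h6 : 1 / 2 * P * (2 * m) = φ * (Λ m * (2 * m - m)) := by rw [hP]; ring
      linarith
    have hsP : √(2 * (m : ℝ)) ≤ √P := Real.sqrt_le_sqrt hmP2
    have hsP0 : 0 < √P := Real.sqrt_pos.2 hP0
    have hsq : √P ^ 2 = P := Real.sq_sqrt hP0.le
    have hlog : Real.log (2 * m) ≤ 2 * √P := by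
      have h5 : Real.log (2 * m) ≤ Real.log P := Real.log_le_log (by linarith) hmP2
      have h6 : Real.log P = 2 * Real.log √P := by
        rw [Real.log_sqrt hP0.le]; ring
      have h7 := Real.log_le_sub_one_of_pos hsP0
      linarith
    have ht2P : 2 / 3 * t ^ 2 ≤ √P := by
      have : t ^ 2 ≤ 3 / 2 * √P := by
        refine abs_le_of_sq_le_sq' ?_ (by positivity) |>.2
        calc (t ^ 2) ^ 2 = t ^ 4 := by ring
          _ ≤ 2 * P := hP1
          _ ≤ (3 / 2 * √P) ^ 2 := by rw [mul_pow, hsq]; linarith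
      linarith
    -- the terms of order `√P t`
    have hterm : 2 * √P + 2 / 3 * √(2 * (m : ℝ)) * rt q a ≤ g * P / 2 := by
      have hr0 : (0 : ℝ) ≤ rt q a := by positivity
      have h5 : 2 / 3 * √(2 * (m : ℝ)) * rt q a ≤ √P * (B * t) := by
        refine mul_le_mul ?_ hrt hr0 hsP0.le
        have := Real.sqrt_nonneg (2 * (m : ℝ))
        linarith
      have h6 : 2 * √P ≤ √P * (2 * t) := by nlinarith
      have h7 : (2 + B) * t ≤ g * √P / 2 := by
        have h8 : 3 * (2 + B) ≤ t * g := by linarith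
        have h9 : 3 * (2 + B) * t ≤ t * g * t := mul_le_mul_of_nonneg_right h8 ht0
        have h10 : g * (2 / 3 * t ^ 2) ≤ g * √P := mul_le_mul_of_nonneg_left ht2P hg0.le
        nlinarith
      calc 2 * √P + 2 / 3 * √(2 * (m : ℝ)) * rt q a ≤ √P * ((2 + B) * t) := by nlinarith
        _ ≤ √P * (g * √P / 2) := mul_le_mul_of_nonneg_left h7 hsP0.le
        _ = g * √P ^ 2 / 2 := by ring
        _ = g * P / 2 := by rw [hsq]
    have hterm2 : C * √(φ * Real.log q) ≤ g * P / 4 := by
      have h5 : Real.log q ≤ 5 * t ^ 2 := by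
        rw [ht2, hφ]; exact LRG.log_le q (by omega)
      have h6 : √(φ * Real.log q) ≤ 3 * t ^ 3 := by
        rw [Real.sqrt_le_left (by positivity)]
        calc φ * Real.log q ≤ φ * (5 * t ^ 2) := mul_le_mul_of_nonneg_left h5 (by linarith)
          _ = 5 * t ^ 6 := by rw [← ht4]; ring
          _ ≤ (3 * t ^ 3) ^ 2 := by
              have := pow_nonneg ht0 6
              have h8 : (3 * t ^ 3) ^ 2 = 9 * t ^ 6 := by ring
              rw [h8]; linarith
      have h7 : 24 * C ≤ t * g := by linarith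
      calc C * √(φ * Real.log q) ≤ C * (3 * t ^ 3) := mul_le_mul_of_nonneg_left h6 hC.le
        _ = 24 * C * t ^ 3 / 8 := by ring
        _ ≤ t * g * t ^ 3 / 8 := by
            have := mul_le_mul_of_nonneg_right h7 (pow_nonneg ht0 3)
            linarith
        _ = g * t ^ 4 / 8 := by ring
        _ ≤ g * P / 4 := by
            have := mul_le_mul_of_nonneg_left hP1 hg0.le
            linarith
    have hfin : 1 / 2 * P ≤ c * P + g * P / 2 + g * P / 4 := by linarith
    have hgP : g * P = 1 / 2 * P - c * P := by rw [hg]; ring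
    have hgP0 : 0 < g * P := mul_pos hg0 hP0
    linarith
  · -- a prime power in the inverse class
    have hm0 : m ≠ 0 := by
      rintro rfl
      rw [Nat.cast_zero, zero_mul] at hm1
      exact zero_ne_one hm1
    have hmpos : (0 : ℝ) < m := by exact_mod_cast hne m hm0
    have hLs : 1 ≤ √(Real.log q) := by rw [Real.one_le_sqrt]; exact hL1
    have hΛ0 : Λ m ≠ 0 := by
      intro h0
      rw [h0] at hm2
      simp only [mul_zero, zero_mul] at hm2
      nlinarith
    have hΛ := LRG.half_le m hΛ0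
    have hm2' : 2 ≤ m := by
      by_contra h5
      have : m = 1 := by omega
      rw [this] at hΛ0
      exact hΛ0 (by simp)
    have hmR : (2 : ℝ) ≤ m := by exact_mod_cast hm2'
    have hx := hc2 m (hne m hm0) hm1
    rw [← ht2] at hm2
    set L : ℝ := √(Real.log q) with hL
    have hsL : √(φ * Real.log q) = t ^ 2 * L := by
      rw [Real.sqrt_mul (by linarith), ht2]
    rw [hsL] at hx
    -- `m L ≤ c Λ t²`, `c ≤ 1 / (4 (B + C))`
    have hBC : 0 < B + C := by linarith
    have h5 : 4 * (B + C) * (m * L) ≤ Λ m * t ^ 2 := by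
      calc 4 * (B + C) * (m * L)
          ≤ 4 * (B + C) * (1 / (4 * (B + C)) * Λ m * t ^ 2) :=
            mul_le_mul_of_nonneg_left hm2 (by positivity)
        _ = Λ m * t ^ 2 := by field_simp
    have h6 : (1 : ℝ) / (2 * m) ≤ 1 / m - 1 / m ^ 2 := by
      have h12 : (1 : ℝ) / m - 1 / m ^ 2 - 1 / (2 * m) = (m - 2) / (2 * m ^ 2) := by
        field_simp
        ring
      have h13 : 0 ≤ ((m : ℝ) - 2) / (2 * m ^ 2) := div_nonneg (by linarith) (by positivity)
      linarith
    have h7 : Λ m * φ * (1 / (2 * m)) ≤ Λ m * φ * (1 / m - 1 / m ^ 2) :=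
      mul_le_mul_of_nonneg_left h6 (by positivity)
    have h8 : 2 * (B + C) * (t ^ 2 * L) ≤ Λ m * φ * (1 / (2 * m)) := by
      rw [mul_one_div, le_div_iff₀ (by positivity), ← ht4]
      have := mul_le_mul_of_nonneg_left h5 (pow_nonneg ht0 2)
      nlinarith
    have h9 : 2 / 3 * (rt q a : ℝ) ≤ B * (t ^ 2 * L) := by
      have h10 : B * t ≤ B * (t ^ 2 * L) := by
        refine mul_le_mul_of_nonneg_left ?_ (by linarith)
        nlinarith
      have : (0 : ℝ) ≤ rt q a := by positivity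
      linarith
    have h11 : 0 < t ^ 2 * L := by positivity
    nlinarith

end Pool.Agent.AQ
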