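import Pool.Agent.Work.MP_99218a_nt.Interface

/-! # Block NSQ: non-squares are outside -/

set_option autoImplicit false

namespace Pool.Agent.AQ

open Filter Topology MeasureTheory ArithmeticFunction
open scoped ComplexConjugate Classical

theorem stmt_NSQ (hB : Stmt_BRI) (hGAP : Stmt_GAP) (hU : Stmt_UAP2) (hH : Stmt_HCON)
    (hN : Stmt_XIN) (hX : Stmt_XI) (hE : Stmt_END) : Stmt_NSQ := by
  intro hGRH q _ hL a ha hs hin
  obtain ⟨h1, -, h3⟩ := hB hGRH q a ha
  have hrt : rt q a = 0 := by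
    unfold rt
    have : IsEmpty {b : ZMod q // b ^ 2 = (a : ZMod q)} :=
      ⟨fun b => hs ⟨b.1, by
        have h := b.2
        rw [sq] at h
        exact h.symm⟩⟩
    exact Nat.card_of_isEmpty
  have h4 := h1 hin
  rw [hrt] at h4
  have hne : ∀ γ : ℝ, rho γ * (rho γ + 1) ≠ 0 := by
    intro γ
    have e1 : (rho γ).re = 1 / 2 := by
      unfold rho
      simp
    apply mul_ne_zero
    · intro h
      rw [h] at e1
      norm_num at e1
    · intro h
      have e2 : (rho γ + 1).re = 3 / 2 := by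
        rw [Complex.add_re, e1, Complex.one_re]
        norm_num
      rw [h] at e2
      norm_num at e2
  have hmult0 : ∀ χ : DirichletCharacter ℂ q, mult (PhiC χ) 0 = 0 := by
    intro χ
    have e1 : rho 0 = 1 / 2 := by
      unfold rho
      simp
    have hne0 : PhiC χ (1 / 2) ≠ 0 := (hN q χ).2 (hL χ)
    have han : AnalyticAt ℂ (PhiC χ) (1 / 2) :=
      ((hX hGRH q χ).diff).analyticAt _
    unfold mult analyticOrderNatAt
    rw [e1, (han.analyticOrderAt_eq_zero).2 hne0]
    rfl
  have h5 := hU (Gc q a) _ (hGAP hGRH q a) (by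
    simp only [hmult0]
    simp) h3 (fun η hη => by
      filter_upwards [eventually_ge_atTop (0 : ℝ)] with u hu
      have := h4 u hu
      norm_num at this
      linarith)
  have h6 : ∀ γ : ℝ, ∑ χ : DirichletCharacter ℂ q,
      χ⁻¹ (a : ZMod q) * (mult (PhiC χ) γ : ℂ) = 0 := by
    intro γ
    have h7 := h5 γ
    rcases div_eq_zero_iff.1 h7 with h8 | h8
    · exact neg_eq_zero.1 h8
    · exact absurd h8 (hne γ)
  have h7 := hH (DirichletCharacter ℂ q) (fun χ => PhiC χ) (fun χ => χ⁻¹ (a : ZMod q))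
    (fun χ => hX hGRH q χ) h6
  have hane : (a : ZMod q) ≠ 1 := by
    intro h
    apply hs
    rw [h]
    exact ⟨1, by ring⟩
  refine hE q a ha hane (∑ χ : DirichletCharacter ℂ q, χ⁻¹ (a : ZMod q) * logDeriv (PhiC χ) 1) ?_
  intro s hs1
  have h8 := h7 (s : ℂ) (by
    rw [Complex.ofReal_re]
    linarith)
  exact h8

end Pool.Agent.AQ
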