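import Mathlib
import Pool.Agent.Work.MP_99218a_nt.Interface

/-!
# MP_99218a_nt, block NUMC: the numerical inequality for the moduli `5` and `15`
-/

set_option autoImplicit false

namespace Pool.Agent.AQ

open ArithmeticFunction

namespace NUMCx

/-! ### Generic bounds -/

theorem pow_lb (n : ℕ) (r : ℝ) (hn : 0 < n) (hr : 0 ≤ r) (h : r ^ 25 * (n : ℝ) ^ 34 ≤ 1) :
    r ≤ (n : ℝ) ^ (-(34 / 25) : ℝ) := by
  have hn' : (0 : ℝ) < n := by exact_mod_cast hn
  have h0 : (0 : ℝ) ≤ (n : ℝ) ^ (-(34 / 25) : ℝ) := Real.rpow_nonneg hn'.le _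
  rw [← pow_le_pow_iff_left₀ hr h0 (by norm_num : (25 : ℕ) ≠ 0), ← Real.rpow_natCast
    ((n : ℝ) ^ (-(34 / 25) : ℝ)), ← Real.rpow_mul hn'.le]
  rw [show (-(34 / 25) : ℝ) * ((25 : ℕ) : ℝ) = -((34 : ℕ) : ℝ) by norm_num,
    Real.rpow_neg hn'.le, Real.rpow_natCast, ← one_div, le_div_iff₀ (by positivity)]
  exact h

theorem log_lb (x : ℝ) (p q : ℕ) (hx : 0 < x) (hq : 0 < q)
    (h : (2.7182818286 : ℝ) ^ p ≤ x ^ q) : (p / q : ℝ) ≤ Real.log x := by
  have hq' : (0 : ℝ) < q := by exact_mod_cast hq
  have h1 : Real.exp 1 ^ p ≤ x ^ q :=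
    (pow_le_pow_left₀ (Real.exp_pos 1).le Real.exp_one_lt_d9.le p).trans h
  have h2 := Real.log_le_log (by positivity) h1
  rw [Real.log_pow, Real.log_pow, Real.log_exp, mul_one] at h2
  rw [div_le_iff₀ hq']
  linarith

theorem log_ub (x : ℝ) (p q : ℕ) (hx : 0 < x) (hq : 0 < q)
    (h : x ^ q ≤ (2.7182818283 : ℝ) ^ p) : Real.log x ≤ (p / q : ℝ) := by
  have hq' : (0 : ℝ) < q := by exact_mod_cast hq
  have h1 : x ^ q ≤ Real.exp 1 ^ p :=
    h.trans (pow_le_pow_left₀ (by norm_num) Real.exp_one_gt_d9.le p)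
  have h2 := Real.log_le_log (by positivity) h1
  rw [Real.log_pow, Real.log_pow, Real.log_exp, mul_one] at h2
  rw [le_div_iff₀ hq']
  linarith

theorem term_lb {L P a r : ℝ} (c : ℝ) (h1 : a ≤ L) (h2 : r ≤ P) (ha : 0 ≤ a) (hr : 0 ≤ r)
    (hc : 0 ≤ c) : c * (a * r) ≤ L * c * P := by
  have h3 : a * r ≤ L * P := mul_le_mul h1 h2 hr (ha.trans h1)
  calc c * (a * r) ≤ c * (L * P) := mul_le_mul_of_nonneg_left h3 hc
    _ = L * c * P := by ring

/-! ### Digamma -/

theorem dg_step (x : ℝ) (hx : 0 < x) :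
    (Complex.digamma (x : ℂ)).re = (Complex.digamma ((x + 1 : ℝ) : ℂ)).re - 1 / x := by
  have h := Complex.digamma_apply_add_one (x : ℂ) (by
    intro m hm
    have h1 : (x : ℂ).re = (-(m : ℂ)).re := by rw [hm]
    simp at h1
    have : (0 : ℝ) ≤ m := Nat.cast_nonneg m
    linarith)
  have h2 : ((x + 1 : ℝ) : ℂ) = (x : ℂ) + 1 := by push_cast; ring
  rw [h2, h, Complex.add_re]
  have h3 : ((x : ℂ)⁻¹).re = x⁻¹ := by rw [← Complex.ofReal_inv, Complex.ofReal_re]
  simp [h3]

theorem dg_a (hD : Stmt_DIG) : (Complex.digamma ((34 / 25 / 2 : ℝ) : ℂ)).re ≤ - 1.2736 := by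
  have l := log_ub (142 / 25) 73 42 (by norm_num) (by norm_num) (by norm_num)
  have h5 := (hD.2.2 (142 / 25) (by norm_num)).2.2
  rw [dg_step _ (by norm_num), dg_step _ (by norm_num), dg_step _ (by norm_num),
    dg_step _ (by norm_num), dg_step _ (by norm_num),
    show (34 / 25 / 2 + 1 + 1 + 1 + 1 + 1 : ℝ) = 142 / 25 by norm_num]
  norm_num at l h5 ⊢
  linarith

theorem dg_b (hD : Stmt_DIG) : (Complex.digamma (((34 / 25 + 1) / 2 : ℝ) : ℂ)).re ≤ - 0.3123 := by
  have l := log_ub (309 / 50) 51 28 (by norm_num) (by norm_num) (by norm_num)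
  have h5 := (hD.2.2 (309 / 50) (by norm_num)).2.2
  rw [dg_step _ (by norm_num), dg_step _ (by norm_num), dg_step _ (by norm_num),
    dg_step _ (by norm_num), dg_step _ (by norm_num),
    show ((34 / 25 + 1) / 2 + 1 + 1 + 1 + 1 + 1 : ℝ) = 309 / 50 by norm_num]
  norm_num at l h5 ⊢
  linarith

/-! ### Conductors -/

theorem N_one (h : Stmt_CND) : Nat.card {χ : DirichletCharacter ℂ 1 // χ.IsPrimitive} = 1 := by
  have := h.2.1 1 one_pos
  simpa using this

theorem N_three (h : Stmt_CND) : Nat.card {χ : DirichletCharacter ℂ 3 // χ.IsPrimitive} = 1 := by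
  have h3 := h.2.1 3 (by norm_num)
  rw [show (3 : ℕ).divisors = {1, 3} by decide, Finset.sum_pair (by norm_num), N_one h,
    show Nat.totient 3 = 2 by decide] at h3
  omega

theorem N_five (h : Stmt_CND) : Nat.card {χ : DirichletCharacter ℂ 5 // χ.IsPrimitive} = 3 := by
  have h3 := h.2.1 5 (by norm_num)
  rw [show (5 : ℕ).divisors = {1, 5} by decide, Finset.sum_pair (by norm_num), N_one h,
    show Nat.totient 5 = 4 by decide] at h3
  omega

theorem N_fifteen (h : Stmt_CND) :
    Nat.card {χ : DirichletCharacter ℂ 15 // χ.IsPrimitive} = 3 := by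
  have h3 := h.2.1 15 (by norm_num)
  rw [show (15 : ℕ).divisors = {1, 3, 5, 15} by decide, Finset.sum_insert (by decide),
    Finset.sum_insert (by decide), Finset.sum_pair (by norm_num), N_one h, N_three h, N_five h,
    show Nat.totient 15 = 8 by decide] at h3
  omega

/-! ### The character sums -/

theorem ca_cop (hC : Stmt_CHR) (q : ℕ) [NeZero q] (n : ℕ) (hn : 0 < n) (h1 : n.Coprime q)
    (h2 : (n : ZMod q) = 1) : (ca q 1 n).re = q.totient := by
  have h := (hC q 1 (by simp) n hn).2.2.2 h1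
  rw [h, if_pos (by rw [h2]; simp)]
  simp

theorem ca_pp (hP : Stmt_CHP) (q : ℕ) [NeZero q] (p k m : ℕ) (hp : p.Prime) (hk : 0 < k)
    (hq : q = p * m) (hm : ¬ p ∣ m) (h1 : ((p ^ k : ℕ) : ZMod m) = 1) :
    (ca q 1 (p ^ k)).re = m.totient := by
  have h := hP q p k hp (hq ▸ dvd_mul_right p m) hk
  have hm0 : m ≠ 0 := fun h0 => hm (h0 ▸ dvd_zero p)
  have h3 : ordCompl[p] q = m := by
    rw [hq, Nat.factorization_mul hp.ne_zero hm0]
    simp [hp.factorization_self, Nat.factorization_eq_zero_of_not_dvd hm, hp.pos]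
  rw [h3] at h
  rw [h, if_pos h1]
  simp

theorem rt_five : rt 5 1 = 2 := by
  unfold rt
  rw [Nat.card_eq_fintype_card]
  decide

theorem rt_fifteen : rt 15 1 = 4 := by
  unfold rt
  rw [Nat.card_eq_fintype_card]
  decide

theorem vm_prime (p : ℕ) (hp : p.Prime) : Λ p = Real.log p := vonMangoldt_apply_prime hp

theorem vm_pow (p k : ℕ) (hp : p.Prime) (hk : k ≠ 0) : Λ (p ^ k) = Real.log p := by
  rw [vonMangoldt_apply_pow hk, vonMangoldt_apply_prime hp]

end NUMCx

open NUMCx

theorem num_five (hF : Stmt_NUMF) (hD : Stmt_DIG) (hC : Stmt_CHR) (hP : Stmt_CHP)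
    (hN : Stmt_CND) : NumOK 5 := by
  have h := hF 5 (by norm_num) (34 / 25) (by norm_num) {5, 11, 16, 25, 31, 41, 61, 71}
  have e0 : (((34 / 25 : ℝ)) : ℂ) = 34 / 25 := by push_cast; rfl
  rw [e0] at h
  rw [show (5 : ℕ).divisors = {1, 5} by decide, Finset.sum_pair (by norm_num), N_one hN,
    N_five hN, show Nat.totient 5 = 4 by decide] at h
  have c5 : (ca 5 1 5).re = 1 := by
    have := ca_pp hP 5 5 1 1 (by norm_num) one_pos (by norm_num) (by norm_num) (by decide)
    simpa using this
  have c25 : (ca 5 1 25).re = 1 := by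
    have := ca_pp hP 5 5 2 1 (by norm_num) two_pos (by norm_num) (by norm_num) (by decide)
    simpa using this
  have c11 : (ca 5 1 11).re = 4 := by
    have := ca_cop hC 5 11 (by norm_num) (by decide) (by decide)
    simpa [show Nat.totient 5 = 4 by decide] using this
  have c16 : (ca 5 1 16).re = 4 := by
    have := ca_cop hC 5 16 (by norm_num) (by decide) (by decide)
    simpa [show Nat.totient 5 = 4 by decide] using this
  have c31 : (ca 5 1 31).re = 4 := by
    have := ca_cop hC 5 31 (by norm_num) (by decide) (by decide)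
    simpa [show Nat.totient 5 = 4 by decide] using this
  have c41 : (ca 5 1 41).re = 4 := by
    have := ca_cop hC 5 41 (by norm_num) (by decide) (by decide)
    simpa [show Nat.totient 5 = 4 by decide] using this
  have c61 : (ca 5 1 61).re = 4 := by
    have := ca_cop hC 5 61 (by norm_num) (by decide) (by decide)
    simpa [show Nat.totient 5 = 4 by decide] using this
  have c71 : (ca 5 1 71).re = 4 := by
    have := ca_cop hC 5 71 (by norm_num) (by decide) (by decide)
    simpa [show Nat.totient 5 = 4 by decide] using this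
  have v5 := vm_prime 5 (by norm_num)
  have v11 := vm_prime 11 (by norm_num)
  have v31 := vm_prime 31 (by norm_num)
  have v41 := vm_prime 41 (by norm_num)
  have v61 := vm_prime 61 (by norm_num)
  have v71 := vm_prime 71 (by norm_num)
  have v16 : Λ 16 = Real.log (2 : ℕ) := by
    have := vm_pow 2 4 (by norm_num) (by norm_num)
    norm_num at this ⊢
    exact this
  have v25 : Λ 25 = Real.log (5 : ℕ) := by
    have := vm_pow 5 2 (by norm_num) (by norm_num)
    norm_num at this ⊢
    exact this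
  repeat rw [Finset.sum_insert (by decide)] at h
  rw [Finset.sum_singleton, c5, c11, c16, c25, c31, c41, c61, c71, v5, v11, v16, v25, v31, v41,
    v61, v71] at h
  have l5 := log_lb (5 : ℕ) 37 23 (by norm_num) (by norm_num) (by norm_num)
  have l11 := log_lb (11 : ℕ) 139 58 (by norm_num) (by norm_num) (by norm_num)
  have l2 : (0.693 : ℝ) ≤ Real.log (2 : ℕ) := by
    have := Real.log_two_gt_d9
    norm_num at this ⊢
    linarith
  have l31 := log_lb (31 : ℕ) 182 53 (by norm_num) (by norm_num) (by norm_num)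
  have l41 := log_lb (41 : ℕ) 219 59 (by norm_num) (by norm_num) (by norm_num)
  have l61 := log_lb (61 : ℕ) 226 55 (by norm_num) (by norm_num) (by norm_num)
  have l71 := log_lb (71 : ℕ) 179 42 (by norm_num) (by norm_num) (by norm_num)
  have p5 := pow_lb 5 0.11204 (by norm_num) (by norm_num) (by norm_num)
  have p11 := pow_lb 11 0.03834 (by norm_num) (by norm_num) (by norm_num)
  have p16 := pow_lb 16 0.02303 (by norm_num) (by norm_num) (by norm_num)
  have p25 := pow_lb 25 0.01255 (by norm_num) (by norm_num) (by norm_num)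
  have p31 := pow_lb 31 0.00937 (by norm_num) (by norm_num) (by norm_num)
  have p41 := pow_lb 41 0.0064 (by norm_num) (by norm_num) (by norm_num)
  have p61 := pow_lb 61 0.00373 (by norm_num) (by norm_num) (by norm_num)
  have p71 := pow_lb 71 0.00303 (by norm_num) (by norm_num) (by norm_num)
  have t5 := term_lb 1 l5 p5 (by positivity) (by norm_num) (by norm_num)
  have t11 := term_lb 4 l11 p11 (by positivity) (by norm_num) (by norm_num)
  have t16 := term_lb 4 l2 p16 (by positivity) (by norm_num) (by norm_num)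
  have t25 := term_lb 1 l5 p25 (by positivity) (by norm_num) (by norm_num)
  have t31 := term_lb 4 l31 p31 (by positivity) (by norm_num) (by norm_num)
  have t41 := term_lb 4 l41 p41 (by positivity) (by norm_num) (by norm_num)
  have t61 := term_lb 4 l61 p61 (by positivity) (by norm_num) (by norm_num)
  have t71 := term_lb 4 l71 p71 (by positivity) (by norm_num) (by norm_num)
  have u5 := log_ub (5 : ℕ) 66 41 (by norm_num) (by norm_num) (by norm_num)
  have lpi : (8 / 7 : ℝ) ≤ Real.log Real.pi := by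
    have h1 := log_lb 3.1415 8 7 (by norm_num) (by norm_num) (by norm_num)
    have h2 := Real.log_le_log (by norm_num) Real.pi_gt_d4.le
    norm_num at h1 h2 ⊢
    linarith
  have da := dg_a hD
  have db := dg_b hD
  have d1 : Real.log ((1 : ℕ) : ℝ) = 0 := by simp
  rw [d1] at h
  unfold NumOK
  rw [rt_five]
  rw [div_lt_iff₀ (by norm_num)]
  refine lt_of_le_of_lt h ?_
  push_cast at h t5 t11 t16 t25 t31 t41 t61 t71 u5 da db ⊢
  linarith

theorem num_fifteen (hF : Stmt_NUMF) (hD : Stmt_DIG) (hC : Stmt_CHR) (hP : Stmt_CHP)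
    (hN : Stmt_CND) : NumOK 15 := by
  have h := hF 15 (by norm_num) (34 / 25) (by norm_num) {16, 25, 31, 61}
  have e0 : (((34 / 25 : ℝ)) : ℂ) = 34 / 25 := by push_cast; rfl
  rw [e0] at h
  rw [show (15 : ℕ).divisors = {1, 3, 5, 15} by decide, Finset.sum_insert (by decide),
    Finset.sum_insert (by decide), Finset.sum_pair (by norm_num), N_one hN,
    N_three hN, N_five hN, N_fifteen hN, show Nat.totient 15 = 8 by decide] at h
  have c25 : (ca 15 1 25).re = 2 := by
    have := ca_pp hP 15 5 2 3 (by norm_num) two_pos (by norm_num) (by norm_num) (by decide)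
    simpa [show Nat.totient 3 = 2 by decide] using this
  have c16 : (ca 15 1 16).re = 8 := by
    have := ca_cop hC 15 16 (by norm_num) (by decide) (by decide)
    simpa [show Nat.totient 15 = 8 by decide] using this
  have c31 : (ca 15 1 31).re = 8 := by
    have := ca_cop hC 15 31 (by norm_num) (by decide) (by decide)
    simpa [show Nat.totient 15 = 8 by decide] using this
  have c61 : (ca 15 1 61).re = 8 := by
    have := ca_cop hC 15 61 (by norm_num) (by decide) (by decide)
    simpa [show Nat.totient 15 = 8 by decide] using this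
  have v31 := vm_prime 31 (by norm_num)
  have v61 := vm_prime 61 (by norm_num)
  have v16 : Λ 16 = Real.log (2 : ℕ) := by
    have := vm_pow 2 4 (by norm_num) (by norm_num)
    norm_num at this ⊢
    exact this
  have v25 : Λ 25 = Real.log (5 : ℕ) := by
    have := vm_pow 5 2 (by norm_num) (by norm_num)
    norm_num at this ⊢
    exact this
  repeat rw [Finset.sum_insert (by decide)] at h
  rw [Finset.sum_singleton, c16, c25, c31, c61, v16, v25, v31, v61] at h
  have l5 := log_lb (5 : ℕ) 37 23 (by norm_num) (by norm_num) (by norm_num)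
  have l2 : (0.693 : ℝ) ≤ Real.log (2 : ℕ) := by
    have := Real.log_two_gt_d9
    norm_num at this ⊢
    linarith
  have l31 := log_lb (31 : ℕ) 182 53 (by norm_num) (by norm_num) (by norm_num)
  have l61 := log_lb (61 : ℕ) 226 55 (by norm_num) (by norm_num) (by norm_num)
  have p16 := pow_lb 16 0.02303 (by norm_num) (by norm_num) (by norm_num)
  have p25 := pow_lb 25 0.01255 (by norm_num) (by norm_num) (by norm_num)
  have p31 := pow_lb 31 0.00937 (by norm_num) (by norm_num) (by norm_num)
  have p61 := pow_lb 61 0.00373 (by norm_num) (by norm_num) (by norm_num)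
  have t16 := term_lb 8 l2 p16 (by positivity) (by norm_num) (by norm_num)
  have t25 := term_lb 2 l5 p25 (by positivity) (by norm_num) (by norm_num)
  have t31 := term_lb 8 l31 p31 (by positivity) (by norm_num) (by norm_num)
  have t61 := term_lb 8 l61 p61 (by positivity) (by norm_num) (by norm_num)
  have u5 := log_ub (5 : ℕ) 66 41 (by norm_num) (by norm_num) (by norm_num)
  have u3 := log_ub (3 : ℕ) 11 10 (by norm_num) (by norm_num) (by norm_num)
  have u15 : Real.log ((15 : ℕ) : ℝ) = Real.log ((3 : ℕ) : ℝ) + Real.log ((5 : ℕ) : ℝ) := by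
    rw [← Real.log_mul (by norm_num) (by norm_num)]
    norm_num
  have lpi : (8 / 7 : ℝ) ≤ Real.log Real.pi := by
    have h1 := log_lb 3.1415 8 7 (by norm_num) (by norm_num) (by norm_num)
    have h2 := Real.log_le_log (by norm_num) Real.pi_gt_d4.le
    norm_num at h1 h2 ⊢
    linarith
  have da := dg_a hD
  have db := dg_b hD
  have d1 : Real.log ((1 : ℕ) : ℝ) = 0 := by simp
  rw [d1, u15] at h
  unfold NumOK
  rw [rt_fifteen]
  rw [div_lt_iff₀ (by norm_num)]
  refine lt_of_le_of_lt h ?_
  push_cast at h t16 t25 t31 t61 u5 u3 da db ⊢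
  linarith

theorem stmt_NUMC (hF : Stmt_NUMF) (hD : Stmt_DIG) (hC : Stmt_CHR) (hP : Stmt_CHP)
    (hN : Stmt_CND) : Stmt_NUMC :=
  ⟨num_five hF hD hC hP hN, num_fifteen hF hD hC hP hN⟩

end Pool.Agent.AQ
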