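import Mathlib
import Pool.Agent.Work.MP_99218a_nt.Interface
import Pool.Agent.Work.MP_99218a_nt.NUMC

/-!
# MP_99218a_nt, block NUMA: the numerical inequality for the moduli `8`, `12` and `24`
-/

set_option autoImplicit false

namespace Pool.Agent.AQ

open ArithmeticFunction

namespace NUMAx

open NUMCx

theorem N_two (h : Stmt_CND) : Nat.card {χ : DirichletCharacter ℂ 2 // χ.IsPrimitive} = 0 := by
  have h3 := h.2.1 2 (by norm_num)
  rw [show (2 : ℕ).divisors = {1, 2} by decide, Finset.sum_pair (by norm_num), N_one h,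
    show Nat.totient 2 = 1 by decide] at h3
  omega

theorem N_four (h : Stmt_CND) : Nat.card {χ : DirichletCharacter ℂ 4 // χ.IsPrimitive} = 1 := by
  have h3 := h.2.1 4 (by norm_num)
  rw [show (4 : ℕ).divisors = {1, 2, 4} by decide, Finset.sum_insert (by decide),
    Finset.sum_pair (by norm_num), N_one h, N_two h, show Nat.totient 4 = 2 by decide] at h3
  omega

theorem N_eight (h : Stmt_CND) : Nat.card {χ : DirichletCharacter ℂ 8 // χ.IsPrimitive} = 2 := by
  have h3 := h.2.1 8 (by norm_num)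
  rw [show (8 : ℕ).divisors = {1, 2, 4, 8} by decide, Finset.sum_insert (by decide),
    Finset.sum_insert (by decide), Finset.sum_pair (by norm_num), N_one h, N_two h, N_four h,
    show Nat.totient 8 = 4 by decide] at h3
  omega

theorem N_six (h : Stmt_CND) : Nat.card {χ : DirichletCharacter ℂ 6 // χ.IsPrimitive} = 0 := by
  have h3 := h.2.1 6 (by norm_num)
  rw [show (6 : ℕ).divisors = {1, 2, 3, 6} by decide, Finset.sum_insert (by decide),
    Finset.sum_insert (by decide), Finset.sum_pair (by norm_num), N_one h, N_two h, N_three h,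
    show Nat.totient 6 = 2 by decide] at h3
  omega

theorem N_twelve (h : Stmt_CND) :
    Nat.card {χ : DirichletCharacter ℂ 12 // χ.IsPrimitive} = 1 := by
  have h3 := h.2.1 12 (by norm_num)
  rw [show (12 : ℕ).divisors = {1, 2, 3, 4, 6, 12} by decide, Finset.sum_insert (by decide),
    Finset.sum_insert (by decide), Finset.sum_insert (by decide), Finset.sum_insert (by decide),
    Finset.sum_pair (by norm_num), N_one h, N_two h, N_three h, N_four h, N_six h,
    show Nat.totient 12 = 4 by decide] at h3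
  omega

theorem N_24 (h : Stmt_CND) :
    Nat.card {χ : DirichletCharacter ℂ 24 // χ.IsPrimitive} = 2 := by
  have h3 := h.2.1 24 (by norm_num)
  rw [show (24 : ℕ).divisors = {1, 2, 3, 4, 6, 8, 12, 24} by decide,
    Finset.sum_insert (by decide),
    Finset.sum_insert (by decide), Finset.sum_insert (by decide), Finset.sum_insert (by decide),
    Finset.sum_insert (by decide), Finset.sum_insert (by decide),
    Finset.sum_pair (by norm_num), N_one h, N_two h, N_three h, N_four h, N_six h, N_eight h,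
    N_twelve h, show Nat.totient 24 = 8 by decide] at h3
  omega

theorem ca_ppow (hP : Stmt_CHP) (q : ℕ) [NeZero q] (p j k m : ℕ) (hp : p.Prime) (hj : 0 < j)
    (hk : 0 < k) (hq : q = p ^ j * m) (hm : ¬ p ∣ m) (h1 : ((p ^ k : ℕ) : ZMod m) = 1) :
    (ca q 1 (p ^ k)).re = m.totient := by
  have h := hP q p k hp (hq ▸ dvd_mul_of_dvd_left (dvd_pow_self p hj.ne') m) hk
  have hm0 : m ≠ 0 := fun h0 => hm (h0 ▸ dvd_zero p)
  have h3 : ordCompl[p] q = m := by
    rw [hq, Nat.factorization_mul (pow_ne_zero _ hp.ne_zero) hm0]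
    simp [hp.factorization_self, Nat.factorization_eq_zero_of_not_dvd hm, hp.pos]
  rw [h3] at h
  rw [h, if_pos h1]
  simp

theorem rt_8 : rt 8 1 = 4 := by
  unfold rt
  rw [Nat.card_eq_fintype_card]
  decide

theorem rt_12 : rt 12 1 = 4 := by
  unfold rt
  rw [Nat.card_eq_fintype_card]
  decide

theorem rt_24 : rt 24 1 = 8 := by
  unfold rt
  rw [Nat.card_eq_fintype_card]
  decide

theorem lpi : (8 / 7 : ℝ) ≤ Real.log Real.pi := by
  have h1 := log_lb 3.1415 8 7 (by norm_num) (by norm_num) (by norm_num)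
  have h2 := Real.log_le_log (by norm_num) Real.pi_gt_d4.le
  norm_num at h1 h2 ⊢
  linarith

theorem l4 : Real.log ((4 : ℕ) : ℝ) = 2 * Real.log 2 := by
  rw [show (((4 : ℕ)) : ℝ) = (2 : ℝ) ^ 2 by norm_num, Real.log_pow]
  norm_num

theorem l8 : Real.log ((8 : ℕ) : ℝ) = 3 * Real.log 2 := by
  rw [show (((8 : ℕ)) : ℝ) = (2 : ℝ) ^ 3 by norm_num, Real.log_pow]
  norm_num

theorem l12 : Real.log ((12 : ℕ) : ℝ) = Real.log 3 + 2 * Real.log 2 := by
  rw [show (((12 : ℕ)) : ℝ) = 3 * (2 : ℝ) ^ 2 by norm_num, Real.log_mul (by norm_num) (by norm_num),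
    Real.log_pow]
  norm_num

theorem l24 : Real.log ((24 : ℕ) : ℝ) = Real.log 3 + 3 * Real.log 2 := by
  rw [show (((24 : ℕ)) : ℝ) = 3 * (2 : ℝ) ^ 3 by norm_num, Real.log_mul (by norm_num) (by norm_num),
    Real.log_pow]
  norm_num

end NUMAx

open NUMCx NUMAx

theorem num_8 (hF : Stmt_NUMF) (hD : Stmt_DIG) (hP : Stmt_CHP)
    (hN : Stmt_CND) : NumOK 8 := by
  have h := hF 8 (by norm_num) (34 / 25) (by norm_num) {2}
  have e0 : (((34 / 25 : ℝ)) : ℂ) = 34 / 25 := by push_cast; rfl
  rw [e0] at h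
  rw [show (8 : ℕ).divisors = {1, 2, 4, 8} by decide, Finset.sum_insert (by decide),
    Finset.sum_insert (by decide), Finset.sum_pair (by norm_num), N_one hN,
    N_two hN, N_four hN, N_eight hN, show Nat.totient 8 = 4 by decide, Finset.sum_singleton,
    l4, l8] at h
  have c2 : (ca 8 1 2).re = 1 := by
    have := ca_ppow hP 8 2 3 1 1 (by norm_num) (by norm_num) one_pos (by norm_num) (by norm_num)
      (by decide)
    simpa using this
  have v2 := vm_prime 2 (by norm_num)
  rw [c2, v2] at h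
  have l2 : (0.693 : ℝ) ≤ Real.log (2 : ℕ) := by
    have := Real.log_two_gt_d9
    norm_num at this ⊢
    linarith
  have p2 := pow_lb 2 0.38 (by norm_num) (by norm_num) (by norm_num)
  have t2 := term_lb 1 l2 p2 (by positivity) (by norm_num) (by norm_num)
  have u2 := Real.log_two_lt_d9
  have lp := lpi
  have da := dg_a hD
  have db := dg_b hD
  have d1 : Real.log ((1 : ℕ) : ℝ) = 0 := by simp
  rw [d1] at h
  unfold NumOK
  rw [rt_8]
  rw [div_lt_iff₀ (by norm_num)]
  refine lt_of_le_of_lt h ?_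
  push_cast at h t2 u2 da db ⊢
  linarith

theorem num_12 (hF : Stmt_NUMF) (hD : Stmt_DIG) (hN : Stmt_CND) : NumOK 12 := by
  have h := hF 12 (by norm_num) (34 / 25) (by norm_num) ∅
  have e0 : (((34 / 25 : ℝ)) : ℂ) = 34 / 25 := by push_cast; rfl
  rw [e0] at h
  rw [show (12 : ℕ).divisors = {1, 2, 3, 4, 6, 12} by decide, Finset.sum_insert (by decide),
    Finset.sum_insert (by decide), Finset.sum_insert (by decide), Finset.sum_insert (by decide),
    Finset.sum_pair (by norm_num), N_one hN,
    N_two hN, N_three hN, N_four hN, N_six hN, N_twelve hN, show Nat.totient 12 = 4 by decide,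
    Finset.sum_empty, l4, l12] at h
  have u2 := Real.log_two_lt_d9
  have u3 := log_ub (3 : ℕ) 11 10 (by norm_num) (by norm_num) (by norm_num)
  have lp := lpi
  have da := dg_a hD
  have db := dg_b hD
  have d1 : Real.log ((1 : ℕ) : ℝ) = 0 := by simp
  rw [d1] at h
  unfold NumOK
  rw [rt_12]
  rw [div_lt_iff₀ (by norm_num)]
  refine lt_of_le_of_lt h ?_
  push_cast at h u2 u3 da db ⊢
  linarith

theorem num_24 (hF : Stmt_NUMF) (hD : Stmt_DIG) (hN : Stmt_CND) : NumOK 24 := by
  have h := hF 24 (by norm_num) (34 / 25) (by norm_num) ∅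
  have e0 : (((34 / 25 : ℝ)) : ℂ) = 34 / 25 := by push_cast; rfl
  rw [e0] at h
  rw [show (24 : ℕ).divisors = {1, 2, 3, 4, 6, 8, 12, 24} by decide,
    Finset.sum_insert (by decide),
    Finset.sum_insert (by decide), Finset.sum_insert (by decide), Finset.sum_insert (by decide),
    Finset.sum_insert (by decide), Finset.sum_insert (by decide),
    Finset.sum_pair (by norm_num), N_one hN,
    N_two hN, N_three hN, N_four hN, N_six hN, N_eight hN, N_twelve hN, N_24 hN,
    show Nat.totient 24 = 8 by decide,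
    Finset.sum_empty, l4, l8, l12, l24] at h
  have u2 := Real.log_two_lt_d9
  have u3 := log_ub (3 : ℕ) 11 10 (by norm_num) (by norm_num) (by norm_num)
  have lp := lpi
  have da := dg_a hD
  have db := dg_b hD
  have d1 : Real.log ((1 : ℕ) : ℝ) = 0 := by simp
  rw [d1] at h
  unfold NumOK
  rw [rt_24]
  rw [div_lt_iff₀ (by norm_num)]
  refine lt_of_le_of_lt h ?_
  push_cast at h u2 u3 da db ⊢
  linarith

theorem stmt_NUMA (hF : Stmt_NUMF) (hD : Stmt_DIG) (hP : Stmt_CHP)
    (hN : Stmt_CND) : Stmt_NUMA :=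
  ⟨num_8 hF hD hP hN, num_12 hF hD hN, num_24 hF hD hN⟩

end Pool.Agent.AQ
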