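import Mathlib
import Pool.Agent.Work.MP_99218a_nt.NUMC

/-!
# MP_99218a_nt, block NUMB: the numerical inequality for the moduli `3` and `4`
-/

set_option autoImplicit false

namespace Pool.Agent.AQ

open ArithmeticFunction

namespace NUMBx

open NUMCx

theorem ca_two_four (hP : Stmt_CHP) (k : ℕ) (hk : 0 < k) : (ca 4 1 (2 ^ k)).re = 1 := by
  have h := hP 4 2 k (by norm_num) (by norm_num) hk
  have h3 : ordCompl[2] 4 = 1 := by
    have e : (4 : ℕ).factorization 2 = 2 := by
      rw [show (4 : ℕ) = 2 ^ 2 by norm_num, Nat.Prime.factorization_pow (by norm_num)]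
      simp
    rw [e]
    norm_num
  rw [h3] at h
  rw [h, if_pos (Subsingleton.elim _ _)]
  simp

theorem rt_three : rt 3 1 = 2 := by
  unfold rt
  rw [Nat.card_eq_fintype_card]
  decide

theorem rt_four : rt 4 1 = 2 := by
  unfold rt
  rw [Nat.card_eq_fintype_card]
  decide

theorem N_two (h : Stmt_CND) : Nat.card {χ : DirichletCharacter ℂ 2 // χ.IsPrimitive} = 0 := by
  have h3 := h.2.1 2 (by norm_num)
  rw [show (2 : ℕ).divisors = {1, 2} by decide, Finset.sum_pair (by norm_num), N_one h,
    show Nat.totient 2 = 1 by decide] at h3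
  omega

theorem N_four (h : Stmt_CND) : Nat.card {χ : DirichletCharacter ℂ 4 // χ.IsPrimitive} = 1 := by
  have h3 := h.2.1 4 (by norm_num)
  rw [show (4 : ℕ).divisors = {1, 2, 4} by decide, Finset.sum_insert (by decide),
    Finset.sum_pair (by norm_num), N_one h, N_two h, show Nat.totient 4 = 2 by decide] at h3
  omega

theorem l2 : (0.693 : ℝ) ≤ Real.log (2 : ℕ) := by
  have := Real.log_two_gt_d9
  norm_num at this ⊢
  linarith

theorem lpi : (8 / 7 : ℝ) ≤ Real.log Real.pi := by
  have h1 := log_lb 3.1415 8 7 (by norm_num) (by norm_num) (by norm_num)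
  have h2 := Real.log_le_log (by norm_num) Real.pi_gt_d4.le
  norm_num at h1 h2 ⊢
  linarith

end NUMBx

open NUMCx NUMBx

theorem num_three (hF : Stmt_NUMF) (hD : Stmt_DIG) (hC : Stmt_CHR) (hP : Stmt_CHP)
    (hN : Stmt_CND) : NumOK 3 := by
  have h := hF 3 (by norm_num) (34 / 25) (by norm_num) {3, 4, 7, 9, 13, 19}
  have e0 : (((34 / 25 : ℝ)) : ℂ) = 34 / 25 := by push_cast; rfl
  rw [e0] at h
  rw [show (3 : ℕ).divisors = {1, 3} by decide, Finset.sum_pair (by norm_num), N_one hN,
    N_three hN, show Nat.totient 3 = 2 by decide] at h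
  have c3 : (ca 3 1 3).re = 1 := by
    have := ca_pp hP 3 3 1 1 (by norm_num) one_pos (by norm_num) (by norm_num) (by decide)
    simpa using this
  have c9 : (ca 3 1 9).re = 1 := by
    have := ca_pp hP 3 3 2 1 (by norm_num) two_pos (by norm_num) (by norm_num) (by decide)
    simpa using this
  have c4 : (ca 3 1 4).re = 2 := by
    have := ca_cop hC 3 4 (by norm_num) (by decide) (by decide)
    simpa [show Nat.totient 3 = 2 by decide] using this
  have c7 : (ca 3 1 7).re = 2 := by
    have := ca_cop hC 3 7 (by norm_num) (by decide) (by decide)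
    simpa [show Nat.totient 3 = 2 by decide] using this
  have c13 : (ca 3 1 13).re = 2 := by
    have := ca_cop hC 3 13 (by norm_num) (by decide) (by decide)
    simpa [show Nat.totient 3 = 2 by decide] using this
  have c19 : (ca 3 1 19).re = 2 := by
    have := ca_cop hC 3 19 (by norm_num) (by decide) (by decide)
    simpa [show Nat.totient 3 = 2 by decide] using this
  have v3 := vm_prime 3 (by norm_num)
  have v7 := vm_prime 7 (by norm_num)
  have v13 := vm_prime 13 (by norm_num)
  have v19 := vm_prime 19 (by norm_num)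
  have v4 : Λ 4 = Real.log (2 : ℕ) := by
    have := vm_pow 2 2 (by norm_num) (by norm_num)
    norm_num at this ⊢
    exact this
  have v9 : Λ 9 = Real.log (3 : ℕ) := by
    have := vm_pow 3 2 (by norm_num) (by norm_num)
    norm_num at this ⊢
    exact this
  repeat rw [Finset.sum_insert (by decide)] at h
  rw [Finset.sum_singleton, c3, c4, c7, c9, c13, c19, v3, v4, v7, v9, v13, v19] at h
  have l2 := l2
  have l3 := log_lb (3 : ℕ) 12 11 (by norm_num) (by norm_num) (by norm_num)
  have l7 := log_lb (7 : ℕ) 35 18 (by norm_num) (by norm_num) (by norm_num)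
  have l13 := log_lb (13 : ℕ) 41 16 (by norm_num) (by norm_num) (by norm_num)
  have l19 := log_lb (19 : ℕ) 50 17 (by norm_num) (by norm_num) (by norm_num)
  have p3 := pow_lb 3 0.22444 (by norm_num) (by norm_num) (by norm_num)
  have p4 := pow_lb 4 0.15177 (by norm_num) (by norm_num) (by norm_num)
  have p7 := pow_lb 7 0.0709 (by norm_num) (by norm_num) (by norm_num)
  have p9 := pow_lb 9 0.05037 (by norm_num) (by norm_num) (by norm_num)
  have p13 := pow_lb 13 0.03055 (by norm_num) (by norm_num) (by norm_num)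
  have p19 := pow_lb 19 0.01823 (by norm_num) (by norm_num) (by norm_num)
  have t3 := term_lb 1 l3 p3 (by positivity) (by norm_num) (by norm_num)
  have t4 := term_lb 2 l2 p4 (by positivity) (by norm_num) (by norm_num)
  have t7 := term_lb 2 l7 p7 (by positivity) (by norm_num) (by norm_num)
  have t9 := term_lb 1 l3 p9 (by positivity) (by norm_num) (by norm_num)
  have t13 := term_lb 2 l13 p13 (by positivity) (by norm_num) (by norm_num)
  have t19 := term_lb 2 l19 p19 (by positivity) (by norm_num) (by norm_num)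
  have u3 := log_ub (3 : ℕ) 11 10 (by norm_num) (by norm_num) (by norm_num)
  have lpi := lpi
  have da := dg_a hD
  have db := dg_b hD
  have d1 : Real.log ((1 : ℕ) : ℝ) = 0 := by simp
  rw [d1] at h
  unfold NumOK
  rw [rt_three]
  rw [div_lt_iff₀ (by norm_num)]
  refine lt_of_le_of_lt h ?_
  push_cast at h t3 t4 t7 t9 t13 t19 u3 da db ⊢
  linarith

theorem num_four (hF : Stmt_NUMF) (hD : Stmt_DIG) (hC : Stmt_CHR) (hP : Stmt_CHP)
    (hN : Stmt_CND) : NumOK 4 := by
  have h := hF 4 (by norm_num) (34 / 25) (by norm_num) {2, 4, 5, 8, 9, 13, 17, 29}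
  have e0 : (((34 / 25 : ℝ)) : ℂ) = 34 / 25 := by push_cast; rfl
  rw [e0] at h
  rw [show (4 : ℕ).divisors = {1, 2, 4} by decide, Finset.sum_insert (by decide),
    Finset.sum_pair (by norm_num), N_one hN, N_two hN,
    N_four hN, show Nat.totient 4 = 2 by decide] at h
  have c2 : (ca 4 1 2).re = 1 := by
    have := ca_two_four hP 1 one_pos
    simpa using this
  have c4 : (ca 4 1 4).re = 1 := by
    have := ca_two_four hP 2 two_pos
    norm_num at this ⊢
    exact this
  have c8 : (ca 4 1 8).re = 1 := by
    have := ca_two_four hP 3 (by norm_num)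
    norm_num at this ⊢
    exact this
  have c5 : (ca 4 1 5).re = 2 := by
    have := ca_cop hC 4 5 (by norm_num) (by decide) (by decide)
    simpa [show Nat.totient 4 = 2 by decide] using this
  have c9 : (ca 4 1 9).re = 2 := by
    have := ca_cop hC 4 9 (by norm_num) (by decide) (by decide)
    simpa [show Nat.totient 4 = 2 by decide] using this
  have c13 : (ca 4 1 13).re = 2 := by
    have := ca_cop hC 4 13 (by norm_num) (by decide) (by decide)
    simpa [show Nat.totient 4 = 2 by decide] using this
  have c17 : (ca 4 1 17).re = 2 := by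
    have := ca_cop hC 4 17 (by norm_num) (by decide) (by decide)
    simpa [show Nat.totient 4 = 2 by decide] using this
  have c29 : (ca 4 1 29).re = 2 := by
    have := ca_cop hC 4 29 (by norm_num) (by decide) (by decide)
    simpa [show Nat.totient 4 = 2 by decide] using this
  have v2 := vm_prime 2 (by norm_num)
  have v5 := vm_prime 5 (by norm_num)
  have v13 := vm_prime 13 (by norm_num)
  have v17 := vm_prime 17 (by norm_num)
  have v29 := vm_prime 29 (by norm_num)
  have v4 : Λ 4 = Real.log (2 : ℕ) := by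
    have := vm_pow 2 2 (by norm_num) (by norm_num)
    norm_num at this ⊢
    exact this
  have v8 : Λ 8 = Real.log (2 : ℕ) := by
    have := vm_pow 2 3 (by norm_num) (by norm_num)
    norm_num at this ⊢
    exact this
  have v9 : Λ 9 = Real.log (3 : ℕ) := by
    have := vm_pow 3 2 (by norm_num) (by norm_num)
    norm_num at this ⊢
    exact this
  repeat rw [Finset.sum_insert (by decide)] at h
  rw [Finset.sum_singleton, c2, c4, c5, c8, c9, c13, c17, c29, v2, v4, v5, v8, v9, v13, v17,
    v29] at h
  have l2 := l2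
  have l3 := log_lb (3 : ℕ) 12 11 (by norm_num) (by norm_num) (by norm_num)
  have l5 := log_lb (5 : ℕ) 37 23 (by norm_num) (by norm_num) (by norm_num)
  have l13 := log_lb (13 : ℕ) 41 16 (by norm_num) (by norm_num) (by norm_num)
  have l17 := log_lb (17 : ℕ) 48 17 (by norm_num) (by norm_num) (by norm_num)
  have l29 := log_lb (29 : ℕ) 37 11 (by norm_num) (by norm_num) (by norm_num)
  have p2 := pow_lb 2 0.38957 (by norm_num) (by norm_num) (by norm_num)
  have p4 := pow_lb 4 0.15177 (by norm_num) (by norm_num) (by norm_num)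
  have p5 := pow_lb 5 0.11204 (by norm_num) (by norm_num) (by norm_num)
  have p8 := pow_lb 8 0.05912 (by norm_num) (by norm_num) (by norm_num)
  have p9 := pow_lb 9 0.05037 (by norm_num) (by norm_num) (by norm_num)
  have p13 := pow_lb 13 0.03055 (by norm_num) (by norm_num) (by norm_num)
  have p17 := pow_lb 17 0.0212 (by norm_num) (by norm_num) (by norm_num)
  have p29 := pow_lb 29 0.01025 (by norm_num) (by norm_num) (by norm_num)
  have t2 := term_lb 1 l2 p2 (by positivity) (by norm_num) (by norm_num)
  have t4 := term_lb 1 l2 p4 (by positivity) (by norm_num) (by norm_num)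
  have t5 := term_lb 2 l5 p5 (by positivity) (by norm_num) (by norm_num)
  have t8 := term_lb 1 l2 p8 (by positivity) (by norm_num) (by norm_num)
  have t9 := term_lb 2 l3 p9 (by positivity) (by norm_num) (by norm_num)
  have t13 := term_lb 2 l13 p13 (by positivity) (by norm_num) (by norm_num)
  have t17 := term_lb 2 l17 p17 (by positivity) (by norm_num) (by norm_num)
  have t29 := term_lb 2 l29 p29 (by positivity) (by norm_num) (by norm_num)
  have u4 : Real.log ((4 : ℕ) : ℝ) ≤ 1.3863 := by
    have h1 := Real.log_two_lt_d9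
    have h2 : Real.log ((4 : ℕ) : ℝ) = 2 * Real.log 2 := by
      rw [show ((4 : ℕ) : ℝ) = 2 ^ 2 by norm_num, Real.log_pow]
      norm_num
    rw [h2]
    linarith
  have lpi := lpi
  have da := dg_a hD
  have db := dg_b hD
  have d1 : Real.log ((1 : ℕ) : ℝ) = 0 := by simp
  rw [d1] at h
  unfold NumOK
  rw [rt_four]
  rw [div_lt_iff₀ (by norm_num)]
  refine lt_of_le_of_lt h ?_
  push_cast at h t2 t4 t5 t8 t9 t13 t17 t29 u4 da db ⊢
  linarith

theorem stmt_NUMB (hF : Stmt_NUMF) (hD : Stmt_DIG) (hC : Stmt_CHR) (hP : Stmt_CHP)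
    (hN : Stmt_CND) : Stmt_NUMB :=
  ⟨num_three hF hD hC hP hN, num_four hF hD hC hP hN⟩

end Pool.Agent.AQ
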