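import Pool.Agent.Work.MP_99218a_nt.Interface

/-! Block NUMD: the numerical inequality for the modulus 20. -/

set_option autoImplicit false

namespace Pool.Agent.AQ

open Filter Topology MeasureTheory ArithmeticFunction
open scoped ComplexConjugate Classical

namespace NDh

lemma pow_lb {r : ℝ} (hr : 0 ≤ r) {n : ℕ} (hn : 0 < n) (h : r ^ 25 * (n : ℝ) ^ 34 ≤ 1) :
    r ≤ (n : ℝ) ^ (-(34 / 25 : ℝ)) := by
  have hn0 : (0 : ℝ) < n := by exact_mod_cast hn
  have h1 : ((n : ℝ) ^ (-(34 / 25 : ℝ))) ^ 25 = ((n : ℝ) ^ 34)⁻¹ := by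
    rw [← Real.rpow_natCast, ← Real.rpow_mul hn0.le, ← Real.rpow_natCast, ← Real.rpow_neg hn0.le]
    norm_num
  have h2 : r ^ 25 ≤ ((n : ℝ) ^ (-(34 / 25 : ℝ))) ^ 25 := by
    rw [h1, ← one_div, le_div_iff₀ (by positivity)]
    exact h
  exact (pow_le_pow_iff_left₀ hr (by positivity) (by norm_num)).1 h2

lemma log_lb {p b c : ℕ} (hp : 0 < p) (hb : 0 < b) (h : 2 ^ c ≤ p ^ b) :
    (c : ℝ) / b * (6931471803 / 10000000000) ≤ Real.log p := by
  have hp0 : (0 : ℝ) < p := by exact_mod_cast hp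
  have hb0 : (0 : ℝ) < b := by exact_mod_cast hb
  have h1 : ((2 : ℝ)) ^ c ≤ (p : ℝ) ^ b := by exact_mod_cast h
  have h2 := Real.log_le_log (by positivity) h1
  rw [Real.log_pow, Real.log_pow] at h2
  have h3 := Real.log_two_gt_d9
  have h4 : (c : ℝ) * (6931471803 / 10000000000) ≤ b * Real.log p := by
    refine le_trans ?_ h2
    refine mul_le_mul_of_nonneg_left ?_ (Nat.cast_nonneg c)
    norm_num at h3 ⊢
    linarith
  rw [div_mul_eq_mul_div, div_le_iff₀ hb0]
  linarith

lemma term_lb {p k b c : ℕ} {C r : ℝ} (n : ℕ) (hn : n = p ^ k) (hp : p.Prime) (hk : k ≠ 0)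
    (hca : (ca 20 1 n).re = C) (hC : 0 ≤ C) (hb : 0 < b) (h : 2 ^ c ≤ p ^ b) (hr : 0 ≤ r)
    (hr2 : r ^ 25 * (n : ℝ) ^ 34 ≤ 1) :
    (c : ℝ) / b * (6931471803 / 10000000000) * C * r
      ≤ Λ n * (ca 20 1 n).re * (n : ℝ) ^ (-(34 / 25 : ℝ)) := by
  have h1 : Λ n = Real.log p := by
    rw [hn, vonMangoldt_apply_pow hk, vonMangoldt_apply_prime hp]
  have hn0 : 0 < n := by rw [hn]; exact pow_pos hp.pos k
  rw [h1, hca]
  have h2 := log_lb hp.pos hb h
  have h3 := pow_lb hr hn0 hr2
  have h4 : 0 ≤ Real.log p := Real.log_natCast_nonneg p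
  gcongr

lemma ca1 (hR : Stmt_CHR) (n : ℕ) (hn : 0 < n) (h1 : n.Coprime 20)
    (h2 : (n : ZMod 20) = ((1 : ℤ) : ZMod 20)) : (ca 20 1 n).re = 8 := by
  have h := (hR 20 1 (by simp) n hn).2.2.2 h1
  rw [h, if_pos h2]
  have : Nat.totient 20 = 8 := by decide
  rw [this]
  norm_num

lemma oc2 : ordCompl[2] 20 = 5 := by
  have h : Nat.factorization 20 2 = 2 := by
    have h1 : 2 ≤ Nat.factorization 20 2 :=
      (Nat.prime_two.pow_dvd_iff_le_factorization (by norm_num)).1 (by norm_num)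
    have h2 : ¬ 3 ≤ Nat.factorization 20 2 := fun h =>
      absurd ((Nat.prime_two.pow_dvd_iff_le_factorization (by norm_num)).2 h) (by norm_num)
    omega
  rw [h]
  norm_num

lemma oc5 : ordCompl[5] 20 = 4 := by
  have h : Nat.factorization 20 5 = 1 := by
    have h1 : 1 ≤ Nat.factorization 20 5 :=
      (Nat.prime_five.pow_dvd_iff_le_factorization (by norm_num)).1 (by norm_num)
    have h2 : ¬ 2 ≤ Nat.factorization 20 5 := fun h =>
      absurd ((Nat.prime_five.pow_dvd_iff_le_factorization (by norm_num)).2 h) (by norm_num)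
    omega
  rw [h]
  norm_num

lemma ca16 (hC : Stmt_CHP) : (ca 20 1 16).re = 4 := by
  have h := hC 20 2 4 Nat.prime_two (by norm_num) (by norm_num)
  rw [oc2] at h
  have e : ((2 ^ 4 : ℕ) : ZMod 5) = 1 := by decide
  rw [if_pos e] at h
  have h4 : Nat.totient 5 = 4 := by decide
  rw [h4] at h
  have h5 : (2 ^ 4 : ℕ) = 16 := by norm_num
  rw [h5] at h
  rw [h]
  norm_num

lemma ca5 (hC : Stmt_CHP) (k : ℕ) (hk : 0 < k) : (ca 20 1 (5 ^ k)).re = 2 := by
  have h := hC 20 5 k Nat.prime_five (by norm_num) hk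
  rw [oc5] at h
  have e : ((5 ^ k : ℕ) : ZMod 4) = 1 := by
    have h5 : ((5 : ℕ) : ZMod 4) = 1 := by decide
    rw [Nat.cast_pow, h5, one_pow]
  rw [if_pos e] at h
  have h4 : Nat.totient 4 = 2 := by decide
  rw [h4] at h
  rw [h]
  norm_num

lemma t5 (hC : Stmt_CHP) :
    (89983 / 250000 : ℝ) ≤ Λ 5 * (ca 20 1 5).re * ((5 : ℕ) : ℝ) ^ (-(34 / 25 : ℝ)) := by
  have h := term_lb (p := 5) (k := 1) (b := 22) (c := 51) (C := 2) (r := 1120 / 10 ^ 4) 5
    (by norm_num) (by norm_num) (by norm_num) (by have := ca5 hC 1 (by norm_num); norm_num at this; exact this)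
    (by norm_num) (by norm_num) (by norm_num) (by positivity) (by norm_num)
  refine le_trans ?_ h
  norm_num

lemma t16 (hC : Stmt_CHP) :
    (15963 / 250000 : ℝ) ≤ Λ 16 * (ca 20 1 16).re * ((16 : ℕ) : ℝ) ^ (-(34 / 25 : ℝ)) := by
  have h := term_lb (p := 2) (k := 4) (b := 1) (c := 1) (C := 4) (r := 2303 / 10 ^ 5) 16
    (by norm_num) (by norm_num) (by norm_num) (ca16 hC)
    (by norm_num) (by norm_num) (by norm_num) (by positivity) (by norm_num)
  refine le_trans ?_ h
  norm_num

lemma t25 (hC : Stmt_CHP) :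
    (40331 / 1000000 : ℝ) ≤ Λ 25 * (ca 20 1 25).re * ((25 : ℕ) : ℝ) ^ (-(34 / 25 : ℝ)) := by
  have h := term_lb (p := 5) (k := 2) (b := 22) (c := 51) (C := 2) (r := 1255 / 10 ^ 5) 25
    (by norm_num) (by norm_num) (by norm_num) (by have := ca5 hC 2 (by norm_num); norm_num at this; exact this)
    (by norm_num) (by norm_num) (by norm_num) (by positivity) (by norm_num)
  refine le_trans ?_ h
  norm_num

lemma t41 (hR : Stmt_CHR) :
    (95149 / 500000 : ℝ) ≤ Λ 41 * (ca 20 1 41).re * ((41 : ℕ) : ℝ) ^ (-(34 / 25 : ℝ)) := by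
  have h := term_lb (p := 41) (k := 1) (b := 14) (c := 75) (C := 8) (r := 6406 / 10 ^ 6) 41
    (by norm_num) (by norm_num) (by norm_num) (ca1 hR 41 (by norm_num) (by norm_num) (by decide))
    (by norm_num) (by norm_num) (by norm_num) (by positivity) (by norm_num)
  refine le_trans ?_ h
  norm_num

lemma t61 (hR : Stmt_CHR) :
    (122689 / 1000000 : ℝ) ≤ Λ 61 * (ca 20 1 61).re * ((61 : ℕ) : ℝ) ^ (-(34 / 25 : ℝ)) := by
  have h := term_lb (p := 61) (k := 1) (b := 14) (c := 83) (C := 8) (r := 3732 / 10 ^ 6) 61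
    (by norm_num) (by norm_num) (by norm_num) (ca1 hR 61 (by norm_num) (by norm_num) (by decide))
    (by norm_num) (by norm_num) (by norm_num) (by positivity) (by norm_num)
  refine le_trans ?_ h
  norm_num

lemma t81 (hR : Stmt_CHR) :
    (11137 / 500000 : ℝ) ≤ Λ 81 * (ca 20 1 81).re * ((81 : ℕ) : ℝ) ^ (-(34 / 25 : ℝ)) := by
  have h := term_lb (p := 3) (k := 4) (b := 12) (c := 19) (C := 8) (r := 2537 / 10 ^ 6) 81
    (by norm_num) (by norm_num) (by norm_num) (ca1 hR 81 (by norm_num) (by norm_num) (by decide))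
    (by norm_num) (by norm_num) (by norm_num) (by positivity) (by norm_num)
  refine le_trans ?_ h
  norm_num

lemma t101 (hR : Stmt_CHR) :
    (69311 / 1000000 : ℝ) ≤ Λ 101 * (ca 20 1 101).re * ((101 : ℕ) : ℝ) ^ (-(34 / 25 : ℝ)) := by
  have h := term_lb (p := 101) (k := 1) (b := 23) (c := 153) (C := 8) (r := 1879 / 10 ^ 6) 101
    (by norm_num) (by norm_num) (by norm_num) (ca1 hR 101 (by norm_num) (by norm_num) (by decide))
    (by norm_num) (by norm_num) (by norm_num) (by positivity) (by norm_num)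
  refine le_trans ?_ h
  norm_num

lemma t121 (hR : Stmt_CHR) :
    (28159 / 1000000 : ℝ) ≤ Λ 121 * (ca 20 1 121).re * ((121 : ℕ) : ℝ) ^ (-(34 / 25 : ℝ)) := by
  have h := term_lb (p := 11) (k := 2) (b := 11) (c := 38) (C := 8) (r := 1470 / 10 ^ 6) 121
    (by norm_num) (by norm_num) (by norm_num) (ca1 hR 121 (by norm_num) (by norm_num) (by decide))
    (by norm_num) (by norm_num) (by norm_num) (by positivity) (by norm_num)
  refine le_trans ?_ h
  norm_num

lemma t125 (hC : Stmt_CHP) :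
    (2259 / 500000 : ℝ) ≤ Λ 125 * (ca 20 1 125).re * ((125 : ℕ) : ℝ) ^ (-(34 / 25 : ℝ)) := by
  have h := term_lb (p := 5) (k := 3) (b := 22) (c := 51) (C := 2) (r := 1406 / 10 ^ 6) 125
    (by norm_num) (by norm_num) (by norm_num) (by have := ca5 hC 3 (by norm_num); norm_num at this; exact this)
    (by norm_num) (by norm_num) (by norm_num) (by positivity) (by norm_num)
  refine le_trans ?_ h
  norm_num

lemma t181 (hR : Stmt_CHR) :
    (4407 / 125000 : ℝ) ≤ Λ 181 * (ca 20 1 181).re * ((181 : ℕ) : ℝ) ^ (-(34 / 25 : ℝ)) := by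
  have h := term_lb (p := 181) (k := 1) (b := 23) (c := 172) (C := 8) (r := 8502 / 10 ^ 7) 181
    (by norm_num) (by norm_num) (by norm_num) (ca1 hR 181 (by norm_num) (by norm_num) (by decide))
    (by norm_num) (by norm_num) (by norm_num) (by positivity) (by norm_num)
  refine le_trans ?_ h
  norm_num

lemma t241 (hR : Stmt_CHR) :
    (25261 / 1000000 : ℝ) ≤ Λ 241 * (ca 20 1 241).re * ((241 : ℕ) : ℝ) ^ (-(34 / 25 : ℝ)) := by
  have h := term_lb (p := 241) (k := 1) (b := 11) (c := 87) (C := 8) (r := 5760 / 10 ^ 7) 241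
    (by norm_num) (by norm_num) (by norm_num) (ca1 hR 241 (by norm_num) (by norm_num) (by decide))
    (by norm_num) (by norm_num) (by norm_num) (by positivity) (by norm_num)
  refine le_trans ?_ h
  norm_num

lemma t281 (hR : Stmt_CHR) :
    (527 / 25000 : ℝ) ≤ Λ 281 * (ca 20 1 281).re * ((281 : ℕ) : ℝ) ^ (-(34 / 25 : ℝ)) := by
  have h := term_lb (p := 281) (k := 1) (b := 15) (c := 122) (C := 8) (r := 4674 / 10 ^ 7) 281
    (by norm_num) (by norm_num) (by norm_num) (ca1 hR 281 (by norm_num) (by norm_num) (by decide))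
    (by norm_num) (by norm_num) (by norm_num) (by positivity) (by norm_num)
  refine le_trans ?_ h
  norm_num

lemma t361 (hR : Stmt_CHR) :
    (3903 / 500000 : ℝ) ≤ Λ 361 * (ca 20 1 361).re * ((361 : ℕ) : ℝ) ^ (-(34 / 25 : ℝ)) := by
  have h := term_lb (p := 19) (k := 2) (b := 17) (c := 72) (C := 8) (r := 3324 / 10 ^ 7) 361
    (by norm_num) (by norm_num) (by norm_num) (ca1 hR 361 (by norm_num) (by norm_num) (by decide))
    (by norm_num) (by norm_num) (by norm_num) (by positivity) (by norm_num)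
  refine le_trans ?_ h
  norm_num

lemma t401 (hR : Stmt_CHR) :
    (13819 / 1000000 : ℝ) ≤ Λ 401 * (ca 20 1 401).re * ((401 : ℕ) : ℝ) ^ (-(34 / 25 : ℝ)) := by
  have h := term_lb (p := 401) (k := 1) (b := 17) (c := 147) (C := 8) (r := 2882 / 10 ^ 7) 401
    (by norm_num) (by norm_num) (by norm_num) (ca1 hR 401 (by norm_num) (by norm_num) (by decide))
    (by norm_num) (by norm_num) (by norm_num) (by positivity) (by norm_num)
  refine le_trans ?_ h
  norm_num

lemma t421 (hR : Stmt_CHR) :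
    (1629 / 125000 : ℝ) ≤ Λ 421 * (ca 20 1 421).re * ((421 : ℕ) : ℝ) ^ (-(34 / 25 : ℝ)) := by
  have h := term_lb (p := 421) (k := 1) (b := 7) (c := 61) (C := 8) (r := 2697 / 10 ^ 7) 421
    (by norm_num) (by norm_num) (by norm_num) (ca1 hR 421 (by norm_num) (by norm_num) (by decide))
    (by norm_num) (by norm_num) (by norm_num) (by positivity) (by norm_num)
  refine le_trans ?_ h
  norm_num

lemma t461 (hR : Stmt_CHR) :
    (5847 / 500000 : ℝ) ≤ Λ 461 * (ca 20 1 461).re * ((461 : ℕ) : ℝ) ^ (-(34 / 25 : ℝ)) := by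
  have h := term_lb (p := 461) (k := 1) (b := 13) (c := 115) (C := 8) (r := 2384 / 10 ^ 7) 461
    (by norm_num) (by norm_num) (by norm_num) (ca1 hR 461 (by norm_num) (by norm_num) (by decide))
    (by norm_num) (by norm_num) (by norm_num) (by positivity) (by norm_num)
  refine le_trans ?_ h
  norm_num

lemma t521 (hR : Stmt_CHR) :
    (10071 / 1000000 : ℝ) ≤ Λ 521 * (ca 20 1 521).re * ((521 : ℕ) : ℝ) ^ (-(34 / 25 : ℝ)) := by
  have h := term_lb (p := 521) (k := 1) (b := 1) (c := 9) (C := 8) (r := 2018 / 10 ^ 7) 521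
    (by norm_num) (by norm_num) (by norm_num) (ca1 hR 521 (by norm_num) (by norm_num) (by decide))
    (by norm_num) (by norm_num) (by norm_num) (by positivity) (by norm_num)
  refine le_trans ?_ h
  norm_num

lemma t541 (hR : Stmt_CHR) :
    (9653 / 1000000 : ℝ) ≤ Λ 541 * (ca 20 1 541).re * ((541 : ℕ) : ℝ) ^ (-(34 / 25 : ℝ)) := by
  have h := term_lb (p := 541) (k := 1) (b := 13) (c := 118) (C := 8) (r := 1918 / 10 ^ 7) 541
    (by norm_num) (by norm_num) (by norm_num) (ca1 hR 541 (by norm_num) (by norm_num) (by decide))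
    (by norm_num) (by norm_num) (by norm_num) (by positivity) (by norm_num)
  refine le_trans ?_ h
  norm_num

lemma t601 (hR : Stmt_CHR) :
    (8507 / 1000000 : ℝ) ≤ Λ 601 * (ca 20 1 601).re * ((601 : ℕ) : ℝ) ^ (-(34 / 25 : ℝ)) := by
  have h := term_lb (p := 601) (k := 1) (b := 13) (c := 120) (C := 8) (r := 1662 / 10 ^ 7) 601
    (by norm_num) (by norm_num) (by norm_num) (ca1 hR 601 (by norm_num) (by norm_num) (by decide))
    (by norm_num) (by norm_num) (by norm_num) (by positivity) (by norm_num)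
  refine le_trans ?_ h
  norm_num

lemma t641 (hR : Stmt_CHR) :
    (983 / 125000 : ℝ) ≤ Λ 641 * (ca 20 1 641).re * ((641 : ℕ) : ℝ) ^ (-(34 / 25 : ℝ)) := by
  have h := term_lb (p := 641) (k := 1) (b := 22) (c := 205) (C := 8) (r := 1522 / 10 ^ 7) 641
    (by norm_num) (by norm_num) (by norm_num) (ca1 hR 641 (by norm_num) (by norm_num) (by decide))
    (by norm_num) (by norm_num) (by norm_num) (by positivity) (by norm_num)
  refine le_trans ?_ h
  norm_num

lemma t661 (hR : Stmt_CHR) :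
    (237 / 31250 : ℝ) ≤ Λ 661 * (ca 20 1 661).re * ((661 : ℕ) : ℝ) ^ (-(34 / 25 : ℝ)) := by
  have h := term_lb (p := 661) (k := 1) (b := 19) (c := 178) (C := 8) (r := 1460 / 10 ^ 7) 661
    (by norm_num) (by norm_num) (by norm_num) (ca1 hR 661 (by norm_num) (by norm_num) (by decide))
    (by norm_num) (by norm_num) (by norm_num) (by positivity) (by norm_num)
  refine le_trans ?_ h
  norm_num

lemma t701 (hR : Stmt_CHR) :
    (7063 / 1000000 : ℝ) ≤ Λ 701 * (ca 20 1 701).re * ((701 : ℕ) : ℝ) ^ (-(34 / 25 : ℝ)) := by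
  have h := term_lb (p := 701) (k := 1) (b := 20) (c := 189) (C := 8) (r := 1348 / 10 ^ 7) 701
    (by norm_num) (by norm_num) (by norm_num) (ca1 hR 701 (by norm_num) (by norm_num) (by decide))
    (by norm_num) (by norm_num) (by norm_num) (by positivity) (by norm_num)
  refine le_trans ?_ h
  norm_num

lemma t761 (hR : Stmt_CHR) :
    (1279 / 200000 : ℝ) ≤ Λ 761 * (ca 20 1 761).re * ((761 : ℕ) : ℝ) ^ (-(34 / 25 : ℝ)) := by
  have h := term_lb (p := 761) (k := 1) (b := 7) (c := 67) (C := 8) (r := 1205 / 10 ^ 7) 761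
    (by norm_num) (by norm_num) (by norm_num) (ca1 hR 761 (by norm_num) (by norm_num) (by decide))
    (by norm_num) (by norm_num) (by norm_num) (by positivity) (by norm_num)
  refine le_trans ?_ h
  norm_num

/-- The set of the prime powers used. -/
def SS : Finset ℕ := {5, 16, 25, 41, 61, 81, 101, 121, 125, 181, 241, 281, 361, 401, 421, 461, 521, 541, 601, 641, 661, 701, 761}

lemma sum_SS (hR : Stmt_CHR) (hC : Stmt_CHP) :
    (1086449 / 1000000 : ℝ) ≤ ∑ n ∈ SS, Λ n * (ca 20 1 n).re * (n : ℝ) ^ (-(34 / 25 : ℝ)) := by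
  unfold SS
  rw [Finset.sum_insert (by decide)]
  rw [Finset.sum_insert (by decide)]
  rw [Finset.sum_insert (by decide)]
  rw [Finset.sum_insert (by decide)]
  rw [Finset.sum_insert (by decide)]
  rw [Finset.sum_insert (by decide)]
  rw [Finset.sum_insert (by decide)]
  rw [Finset.sum_insert (by decide)]
  rw [Finset.sum_insert (by decide)]
  rw [Finset.sum_insert (by decide)]
  rw [Finset.sum_insert (by decide)]
  rw [Finset.sum_insert (by decide)]
  rw [Finset.sum_insert (by decide)]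
  rw [Finset.sum_insert (by decide)]
  rw [Finset.sum_insert (by decide)]
  rw [Finset.sum_insert (by decide)]
  rw [Finset.sum_insert (by decide)]
  rw [Finset.sum_insert (by decide)]
  rw [Finset.sum_insert (by decide)]
  rw [Finset.sum_insert (by decide)]
  rw [Finset.sum_insert (by decide)]
  rw [Finset.sum_insert (by decide)]
  rw [Finset.sum_singleton]
  have u5 := t5 hC
  have u16 := t16 hC
  have u25 := t25 hC
  have u41 := t41 hR
  have u61 := t61 hR
  have u81 := t81 hR
  have u101 := t101 hR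
  have u121 := t121 hR
  have u125 := t125 hC
  have u181 := t181 hR
  have u241 := t241 hR
  have u281 := t281 hR
  have u361 := t361 hR
  have u401 := t401 hR
  have u421 := t421 hR
  have u461 := t461 hR
  have u521 := t521 hR
  have u541 := t541 hR
  have u601 := t601 hR
  have u641 := t641 hR
  have u661 := t661 hR
  have u701 := t701 hR
  have u761 := t761 hR
  linarith

lemma psi_rec {x : ℝ} (hx : 0 < x) :
    (Complex.digamma (x : ℂ)).re = (Complex.digamma ((x + 1 : ℝ) : ℂ)).re - 1 / x := by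
  have h := Complex.digamma_apply_add_one (x : ℂ) (by
    intro m hm
    have := congrArg Complex.re hm
    rw [Complex.ofReal_re, Complex.neg_re, Complex.natCast_re] at this
    have h2 : (0 : ℝ) ≤ m := Nat.cast_nonneg m
    linarith)
  have e : ((x + 1 : ℝ) : ℂ) = (x : ℂ) + 1 := by push_cast; ring
  rw [e, h]
  have e2 : ((x : ℂ)⁻¹).re = x⁻¹ := by rw [← Complex.ofReal_inv, Complex.ofReal_re]
  simp only [Complex.add_re, one_div, e2]
  ring

lemma psi_ub (hD : Stmt_DIG) {x : ℝ} (hx : 0 < x) :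
    (Complex.digamma (x : ℂ)).re ≤ Real.log (x + 5) - 1 / (2 * (x + 5))
      - (1 / x + 1 / (x + 1) + 1 / (x + 2) + 1 / (x + 3) + 1 / (x + 4)) := by
  have h1 := psi_rec hx
  have h2 := psi_rec (show 0 < x + 1 by linarith)
  have h3 := psi_rec (show 0 < x + 2 by linarith)
  have h4 := psi_rec (show 0 < x + 3 by linarith)
  have h5 := psi_rec (show 0 < x + 4 by linarith)
  have h6 := (hD.2.2 (x + 5) (by linarith)).2.2
  rw [show x + 1 + 1 = x + 2 by ring] at h2
  rw [show x + 2 + 1 = x + 3 by ring] at h3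
  rw [show x + 3 + 1 = x + 4 by ring] at h4
  rw [show x + 4 + 1 = x + 5 by ring] at h5
  linarith

lemma log_ub : 2 * Real.log 2 - 5 * Real.log 5 + 2 * Real.log 142 + 2 * Real.log 309
    - 4 * Real.log Real.pi ≤ 71 / 7 := by
  have hpi : (3.1415 : ℝ) ≤ Real.pi := Real.pi_gt_d4.le
  have he : (2.7182818283 : ℝ) ≤ Real.exp 1 := Real.exp_one_gt_d9.le
  have h1 : (2 : ℝ) ^ 14 * 142 ^ 14 * 309 ^ 14 ≤ 2.7182818283 ^ 71 * 5 ^ 35 * 3.1415 ^ 28 := by
    norm_num
  have h2 : (2.7182818283 : ℝ) ^ 71 * 5 ^ 35 * 3.1415 ^ 28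
      ≤ Real.exp 1 ^ 71 * 5 ^ 35 * Real.pi ^ 28 := by gcongr
  have h3 := Real.log_le_log (by positivity) (h1.trans h2)
  have hp := Real.pi_pos
  rw [Real.log_mul (by positivity) (by positivity), Real.log_mul (by positivity) (by positivity),
    Real.log_mul (by positivity) (by positivity), Real.log_mul (by positivity) (by positivity),
    Real.log_pow, Real.log_pow, Real.log_pow, Real.log_pow, Real.log_pow, Real.log_pow,
    Real.log_exp] at h3
  push_cast at h3
  linarith

/-- The number of primitive characters. -/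
noncomputable def NP (d : ℕ) : ℕ := Nat.card {χ : DirichletCharacter ℂ d // χ.IsPrimitive}

lemma np (hN : Stmt_CND) : NP 1 = 1 ∧ NP 2 = 0 ∧ NP 4 = 1 ∧ NP 5 = 3 ∧ NP 10 = 0 ∧ NP 20 = 3 := by
  have h := hN.2.1
  have h1 : ∑ d ∈ Nat.divisors 1, NP d = Nat.totient 1 := h 1 (by norm_num)
  have h2 : ∑ d ∈ Nat.divisors 2, NP d = Nat.totient 2 := h 2 (by norm_num)
  have h4 : ∑ d ∈ Nat.divisors 4, NP d = Nat.totient 4 := h 4 (by norm_num)
  have h5 : ∑ d ∈ Nat.divisors 5, NP d = Nat.totient 5 := h 5 (by norm_num)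
  have h10 : ∑ d ∈ Nat.divisors 10, NP d = Nat.totient 10 := h 10 (by norm_num)
  have h20 : ∑ d ∈ Nat.divisors 20, NP d = Nat.totient 20 := h 20 (by norm_num)
  rw [show Nat.divisors 1 = {1} by decide, show Nat.totient 1 = 1 by decide,
    Finset.sum_singleton] at h1
  rw [show Nat.divisors 2 = {1, 2} by decide, show Nat.totient 2 = 1 by decide,
    Finset.sum_insert (by decide), Finset.sum_singleton] at h2
  rw [show Nat.divisors 4 = {1, 2, 4} by decide, show Nat.totient 4 = 2 by decide,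
    Finset.sum_insert (by decide), Finset.sum_insert (by decide), Finset.sum_singleton] at h4
  rw [show Nat.divisors 5 = {1, 5} by decide, show Nat.totient 5 = 4 by decide,
    Finset.sum_insert (by decide), Finset.sum_singleton] at h5
  rw [show Nat.divisors 10 = {1, 2, 5, 10} by decide, show Nat.totient 10 = 4 by decide,
    Finset.sum_insert (by decide), Finset.sum_insert (by decide), Finset.sum_insert (by decide),
    Finset.sum_singleton] at h10
  rw [show Nat.divisors 20 = {1, 2, 4, 5, 10, 20} by decide, show Nat.totient 20 = 8 by decide,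
    Finset.sum_insert (by decide), Finset.sum_insert (by decide), Finset.sum_insert (by decide),
    Finset.sum_insert (by decide), Finset.sum_insert (by decide), Finset.sum_singleton] at h20
  omega

lemma rt20 : rt 20 1 = 4 := by
  unfold rt
  rw [Nat.subtype_card ({1, 9, 11, 19} : Finset (ZMod 20)) (by decide)]
  decide

end NDh

open NDh

theorem stmt_NUMD (hF : Stmt_NUMF) (hD : Stmt_DIG) (hR : Stmt_CHR) (hC : Stmt_CHP)
    (hN : Stmt_CND) : Stmt_NUMD := by
  unfold Stmt_NUMD NumOK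
  have h1 := hF 20 (by norm_num) (34 / 25) (by norm_num) SS
  have h2 := sum_SS hR hC
  have e0 : (((34 / 25 : ℝ)) : ℂ) = 34 / 25 := by push_cast; ring
  rw [e0] at h1
  have h3 := psi_ub hD (show (0 : ℝ) < 34 / 25 / 2 by norm_num)
  have h4 := psi_ub hD (show (0 : ℝ) < (34 / 25 + 1) / 2 by norm_num)
  have h5 : ∑ d ∈ Nat.divisors 20, Real.log d *
      (Nat.card {χ : DirichletCharacter ℂ d // χ.IsPrimitive} : ℝ)
      = 8 * Real.log 2 + 6 * Real.log 5 := by
    obtain ⟨n1, n2, n4, n5, n10, n20⟩ := np hN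
    have e : ∀ d : ℕ, (Nat.card {χ : DirichletCharacter ℂ d // χ.IsPrimitive} : ℝ) = NP d :=
      fun d => rfl
    simp only [e]
    rw [show Nat.divisors 20 = {1, 2, 4, 5, 10, 20} by decide,
      Finset.sum_insert (by decide), Finset.sum_insert (by decide), Finset.sum_insert (by decide),
      Finset.sum_insert (by decide), Finset.sum_insert (by decide), Finset.sum_singleton,
      n1, n2, n4, n5, n10, n20]
    have l4 : Real.log ((4 : ℕ) : ℝ) = 2 * Real.log 2 := by
      rw [show ((4 : ℕ) : ℝ) = (2 : ℝ) ^ 2 by norm_num, Real.log_pow]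
      norm_num
    have l20 : Real.log ((20 : ℕ) : ℝ) = 2 * Real.log 2 + Real.log 5 := by
      rw [show ((20 : ℕ) : ℝ) = (2 : ℝ) ^ 2 * 5 by norm_num,
        Real.log_mul (by norm_num) (by norm_num), Real.log_pow]
      norm_num
    rw [l4, l20]
    push_cast
    rw [Real.log_one]
    ring
  rw [h5] at h1
  have l1 : Real.log (34 / 25 / 2 + 5) = Real.log 142 - 2 * Real.log 5 := by
    rw [show (34 / 25 / 2 + 5 : ℝ) = 142 / 5 ^ 2 by norm_num,
      Real.log_div (by norm_num) (by norm_num), Real.log_pow]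
    norm_num
  have l2 : Real.log ((34 / 25 + 1) / 2 + 5) = Real.log 309 - Real.log 2 - 2 * Real.log 5 := by
    rw [show ((34 / 25 + 1) / 2 + 5 : ℝ) = 309 / (2 * 5 ^ 2) by norm_num,
      Real.log_div (by norm_num) (by norm_num), Real.log_mul (by norm_num) (by norm_num),
      Real.log_pow]
    push_cast
    ring
  rw [l1] at h3
  rw [l2] at h4
  have h6 := log_ub
  have ht : (Nat.totient 20 : ℝ) = 8 := by
    have : Nat.totient 20 = 8 := by decide
    rw [this]; norm_num
  rw [ht] at h1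
  rw [rt20, div_lt_iff₀ (by norm_num)]
  norm_num at h1 h3 h4 ⊢
  linarith

end Pool.Agent.AQ
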