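import Pool.Agent.Work.MP_99218a_nt.Interface

/-!
# Block NUMF: the formula behind the numerical inequalities
-/

set_option autoImplicit false

namespace Pool.Agent.AQ

open ArithmeticFunction
open scoped Classical

namespace NUMF

variable {q : ℕ} [NeZero q]

/-- The coefficients. -/
noncomputable def cf (χ : DirichletCharacter ℂ q) : ℕ → ℂ :=
  fun n => (Λ n : ℂ) * χ.primitiveCharacter (n : ZMod χ.conductor)

lemma summ (χ : DirichletCharacter ℂ q) {s : ℝ} (hs : 1 < s) :
    Summable fun n : ℕ => LSeries.term (cf χ) s n := by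
  have h0 : Summable fun n : ℕ => ‖LSeries.term (fun n => (Λ n : ℂ)) s n‖ := by
    have := LSeriesSummable_vonMangoldt (s := (s : ℂ)) (by simpa using hs)
    exact this.norm
  have hle : ∀ n : ℕ, ‖LSeries.term (cf χ) s n‖ ≤ ‖LSeries.term (fun n => (Λ n : ℂ)) s n‖ := by
    intro n
    refine LSeries.norm_term_le _ ?_
    unfold cf
    rw [norm_mul]
    exact mul_le_of_le_one_right (norm_nonneg _) (DirichletCharacter.norm_le_one _ _)
  exact (Summable.of_nonneg_of_le (fun n => norm_nonneg _) hle h0).of_norm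

lemma ca_one (n : ℕ) : ca q 1 n
    = ∑ χ : DirichletCharacter ℂ q, χ.primitiveCharacter (n : ZMod χ.conductor) := by
  unfold ca
  refine Finset.sum_congr rfl (fun χ _ => ?_)
  rw [Int.cast_one, map_one, one_mul]

lemma term_re {s : ℝ} (n : ℕ) :
    (∑ χ : DirichletCharacter ℂ q, LSeries.term (cf χ) s n).re
      = Λ n * (ca q 1 n).re * (n : ℝ) ^ (-s) := by
  rcases Nat.eq_zero_or_pos n with h | h
  · subst h
    simp
  · have hn : n ≠ 0 := h.ne'
    have hn0 : (0 : ℝ) < n := by exact_mod_cast h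
    have e1 : ∑ χ : DirichletCharacter ℂ q, LSeries.term (cf χ) s n
        = ((Λ n * (n : ℝ) ^ (-s) : ℝ) : ℂ) * ca q 1 n := by
      rw [ca_one, Finset.mul_sum]
      refine Finset.sum_congr rfl (fun χ _ => ?_)
      rw [LSeries.term_of_ne_zero hn]
      unfold cf
      have e2 : ((n : ℂ)) ^ (s : ℂ) = (((n : ℝ) ^ s : ℝ) : ℂ) := by
        rw [Complex.ofReal_cpow hn0.le]
        simp
      rw [e2, Real.rpow_neg hn0.le]
      push_cast
      have : (((n : ℝ) ^ s : ℝ) : ℂ) ≠ 0 := by
        exact_mod_cast (Real.rpow_pos_of_pos hn0 s).ne'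
      field_simp
    rw [e1, Complex.re_ofReal_mul]
    ring

lemma sum_L (hR : Stmt_CHR) {s : ℝ} (hs : 1 < s) (S : Finset ℕ) :
    ∑ n ∈ S, Λ n * (ca q 1 n).re * (n : ℝ) ^ (-s)
      ≤ ∑ χ : DirichletCharacter ℂ q, (LSeries (cf χ) s).re := by
  have h1 : Summable fun n : ℕ => ∑ χ : DirichletCharacter ℂ q, LSeries.term (cf χ) s n :=
    summable_sum (fun χ _ => summ χ hs)
  have e1 : ∑ χ : DirichletCharacter ℂ q, (LSeries (cf χ) s).re
      = (∑' n : ℕ, ∑ χ : DirichletCharacter ℂ q, LSeries.term (cf χ) s n).re := by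
    rw [Summable.tsum_finsetSum (fun χ _ => summ χ hs), Complex.re_sum]
    rfl
  rw [e1, Complex.re_tsum h1]
  have h2 : Summable fun n : ℕ =>
      (∑ χ : DirichletCharacter ℂ q, LSeries.term (cf χ) s n).re :=
    (Complex.reCLM.summable h1)
  have h3 : ∀ n : ℕ, 0 ≤ (∑ χ : DirichletCharacter ℂ q, LSeries.term (cf χ) s n).re := by
    intro n
    rw [term_re]
    rcases Nat.eq_zero_or_pos n with h | h
    · subst h
      simp
    · have := (hR q 1 (by simp) n h).2.1
      have h4 : 0 ≤ Λ n := vonMangoldt_nonneg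
      have h5 : 0 ≤ (n : ℝ) ^ (-s) := Real.rpow_nonneg (Nat.cast_nonneg _) _
      positivity
  calc ∑ n ∈ S, Λ n * (ca q 1 n).re * (n : ℝ) ^ (-s)
      = ∑ n ∈ S, (∑ χ : DirichletCharacter ℂ q, LSeries.term (cf χ) s n).re :=
        Finset.sum_congr rfl (fun n _ => (term_re n).symm)
    _ ≤ _ := h2.sum_le_tsum S (fun n _ => h3 n)

lemma parity (hS : Stmt_CHS) (hq : 3 ≤ q) :
    (∑ χ : DirichletCharacter ℂ q, (if χ.Even then (1 : ℝ) else 0)) = q.totient / 2 ∧
    (∑ χ : DirichletCharacter ℂ q, (if χ.Even then (0 : ℝ) else 1)) = q.totient / 2 := by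
  have h := hS q 1 (by simp)
  haveI : Fact (2 < q) := ⟨by omega⟩
  have hne : ¬ ((1 : ℤ) : ZMod q) = -1 := by
    rw [Int.cast_one]
    exact fun h => ZMod.neg_one_ne_one h.symm
  rw [if_pos (by simp : ((1 : ℤ) : ZMod q) = 1), if_neg hne] at h
  simp only [Int.cast_one, map_one] at h
  constructor
  · have h1 := h.1
    apply Complex.ofReal_injective
    push_cast
    rw [add_zero, mul_one] at h1
    rw [← h1]
    refine Finset.sum_congr rfl (fun χ _ => ?_)
    split_ifs <;> simp
  · have h1 := h.2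
    apply Complex.ofReal_injective
    push_cast
    rw [sub_zero, mul_one] at h1
    rw [← h1]
    refine Finset.sum_congr rfl (fun χ _ => ?_)
    split_ifs <;> simp

lemma re_Hc (hE : Stmt_EXPL) (χ : DirichletCharacter ℂ q) {s : ℝ} (hs : 1 < s) :
    (Hc χ s).re = (if χ = 1 then 1 / s + 1 / (s - 1) else 0)
      + 1 / 2 * (Real.log χ.conductor - Real.log Real.pi)
      + 1 / 2 * ((if χ.Even then (1 : ℝ) else 0) * (Complex.digamma ((s / 2 : ℝ) : ℂ)).re
        + (if χ.Even then (0 : ℝ) else 1) * (Complex.digamma (((s + 1) / 2 : ℝ) : ℂ)).re)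
      - (LSeries (cf χ) s).re := by
  rw [hE q χ s (by simpa using hs), Complex.sub_re, Complex.add_re, Complex.add_re]
  have hc : (χ.conductor : ℝ) ≠ 0 := by
    have := χ.conductor_ne_zero
    exact_mod_cast this
  congr 1
  congr 1
  · congr 1
    · split_ifs
      · have : (1 : ℂ) / (s : ℂ) + 1 / ((s : ℂ) - 1) = ((1 / s + 1 / (s - 1) : ℝ) : ℂ) := by
          push_cast
          ring
        rw [this, Complex.ofReal_re]
      · simp
    · have : (1 : ℂ) / 2 * (Real.log (χ.conductor / Real.pi) : ℂ)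
          = ((1 / 2 * (Real.log χ.conductor - Real.log Real.pi) : ℝ) : ℂ) := by
        rw [Real.log_div hc Real.pi_ne_zero]
        push_cast
        ring
      rw [this, Complex.ofReal_re]
  · have h2 : ∀ w : ℂ, ((1 : ℂ) / 2 * w).re = 1 / 2 * w.re := by
      intro w
      have : (1 : ℂ) / 2 = ((1 / 2 : ℝ) : ℂ) := by push_cast; ring
      rw [this, Complex.re_ofReal_mul]
    rw [h2]
    congr 1
    unfold kap
    by_cases he : χ.Even
    · simp only [if_pos he, one_mul, zero_mul, add_zero]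
      congr 2
      push_cast
      ring
    · simp only [if_neg he, one_mul, zero_mul, zero_add]
      congr 2
      push_cast
      ring

end NUMF

open NUMF in
theorem stmt_NUMF (hE : Stmt_EXPL) (hR : Stmt_CHR) (hS : Stmt_CHS) (hN : Stmt_CND) :
    Stmt_NUMF := by
  intro q _ hq s hs S
  obtain ⟨p1, p2⟩ := parity (q := q) hS hq
  have hL := sum_L (q := q) hR hs S
  have hcard : (∑ χ : DirichletCharacter ℂ q, (1 : ℝ)) = q.totient := by
    have : (∑ χ : DirichletCharacter ℂ q, (1 : ℝ))
        = (∑ χ : DirichletCharacter ℂ q, (if χ.Even then (1 : ℝ) else 0))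
          + ∑ χ : DirichletCharacter ℂ q, (if χ.Even then (0 : ℝ) else 1) := by
      rw [← Finset.sum_add_distrib]
      refine Finset.sum_congr rfl (fun χ _ => ?_)
      split_ifs <;> simp
    rw [this, p1, p2]
    ring
  have hcond := hN.1 q (fun d => Real.log d)
  have e : (∑ χ : DirichletCharacter ℂ q, (Hc χ s).re)
      = (1 / s + 1 / (s - 1))
        + 1 / 2 * ((∑ χ : DirichletCharacter ℂ q, Real.log χ.conductor)
          - (∑ χ : DirichletCharacter ℂ q, (1 : ℝ)) * Real.log Real.pi)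
        + 1 / 2 * ((∑ χ : DirichletCharacter ℂ q, (if χ.Even then (1 : ℝ) else 0)) *
            (Complex.digamma ((s / 2 : ℝ) : ℂ)).re
          + (∑ χ : DirichletCharacter ℂ q, (if χ.Even then (0 : ℝ) else 1)) *
            (Complex.digamma (((s + 1) / 2 : ℝ) : ℂ)).re)
        - ∑ χ : DirichletCharacter ℂ q, (LSeries (cf χ) s).re := by
    rw [Finset.sum_congr rfl (fun χ _ => re_Hc hE χ hs), Finset.sum_sub_distrib,
      Finset.sum_add_distrib, Finset.sum_add_distrib, Finset.sum_ite_eq',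
      if_pos (Finset.mem_univ _), ← Finset.mul_sum, ← Finset.mul_sum, Finset.sum_sub_distrib,
      Finset.sum_add_distrib, Finset.sum_mul, Finset.sum_mul, Finset.sum_mul]
    simp only [one_mul]
  rw [e, hcard, p1, p2, hcond]
  linarith

end Pool.Agent.AQ
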