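import Pool.Agent.Work.MP_99218a_nt.Interface

/-!
# Block ONE: the classes `1` and `-1` for large moduli
-/

set_option autoImplicit false

namespace Pool.Agent.AQ

open Filter Topology MeasureTheory ArithmeticFunction
open scoped ComplexConjugate Classical

namespace ONE

/-! ### the totient is large -/

lemma prod_cube_le (s : Finset ℕ) (hs : ∀ p ∈ s, p.Prime) :
    (∏ p ∈ s, p) ^ 3 ≤ (if 2 ∈ s then 8 else 1) * (if 3 ∈ s then 2 else 1)
      * (∏ p ∈ s, (p - 1)) ^ 4 := by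
  induction s using Finset.induction_on with
  | empty => simp
  | insert p s hps ih =>
    have ih' := ih fun p' hp' => hs p' (Finset.mem_insert_of_mem hp')
    rw [Finset.prod_insert hps, Finset.prod_insert hps]
    have hpp := hs p (Finset.mem_insert_self p s)
    have hp2 := hpp.two_le
    by_cases h2 : p = 2
    · subst h2
      rw [if_neg hps] at ih'
      rw [if_pos (Finset.mem_insert_self 2 s)]
      have h3 : (if 3 ∈ insert 2 s then 2 else 1) = (if 3 ∈ s then 2 else 1) := by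
        have : 3 ∈ insert 2 s ↔ 3 ∈ s := by simp
        simp only [this]
      rw [h3]
      calc (2 * ∏ p ∈ s, p) ^ 3 = 8 * (∏ p ∈ s, p) ^ 3 := by ring
        _ ≤ 8 * (1 * (if 3 ∈ s then 2 else 1) * (∏ p ∈ s, (p - 1)) ^ 4) :=
            Nat.mul_le_mul_left 8 ih'
        _ = _ := by ring
    have h2' : (if 2 ∈ insert p s then 8 else 1) = (if 2 ∈ s then 8 else 1) := by
      have : 2 ∈ insert p s ↔ 2 ∈ s := by
        rw [Finset.mem_insert]
        constructor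
        · rintro (h | h)
          · exact absurd h.symm h2
          · exact h
        · exact Or.inr
      simp only [this]
    rw [h2']
    by_cases h3 : p = 3
    · subst h3
      rw [if_neg hps] at ih'
      rw [if_pos (Finset.mem_insert_self 3 s)]
      calc (3 * ∏ p ∈ s, p) ^ 3 = 27 * (∏ p ∈ s, p) ^ 3 := by ring
        _ ≤ 27 * ((if 2 ∈ s then 8 else 1) * 1 * (∏ p ∈ s, (p - 1)) ^ 4) :=
            Nat.mul_le_mul_left 27 ih'
        _ ≤ 32 * ((if 2 ∈ s then 8 else 1) * 1 * (∏ p ∈ s, (p - 1)) ^ 4) :=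
            Nat.mul_le_mul_right _ (by norm_num)
        _ = _ := by ring
    have h3' : (if 3 ∈ insert p s then 2 else 1) = (if 3 ∈ s then 2 else 1) := by
      have : 3 ∈ insert p s ↔ 3 ∈ s := by
        rw [Finset.mem_insert]
        constructor
        · rintro (h | h)
          · exact absurd h.symm h3
          · exact h
        · exact Or.inr
      simp only [this]
    rw [h3']
    have h4 : p ≠ 4 := by
      rintro rfl
      exact absurd hpp (by norm_num)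
    have h7 : p ^ 3 ≤ (p - 1) ^ 4 := by
      obtain ⟨k, rfl⟩ : ∃ k, p = k + 5 := ⟨p - 5, by omega⟩
      have : k + 5 - 1 = k + 4 := by omega
      rw [this]
      nlinarith [Nat.zero_le k, Nat.zero_le (k ^ 2), Nat.zero_le (k ^ 3), Nat.zero_le (k ^ 4)]
    calc (p * ∏ p ∈ s, p) ^ 3 = p ^ 3 * (∏ p ∈ s, p) ^ 3 := by ring
      _ ≤ (p - 1) ^ 4 * ((if 2 ∈ s then 8 else 1) * (if 3 ∈ s then 2 else 1)
            * (∏ p ∈ s, (p - 1)) ^ 4) := Nat.mul_le_mul h7 ih'
      _ = _ := by ring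

lemma cube_le_totient (r : ℕ) (hr : 0 < r) : r ^ 3 ≤ 16 * r.totient ^ 4 := by
  have h1 := Nat.totient_mul_prod_primeFactors r
  have h2 := prod_cube_le r.primeFactors fun p hp => Nat.prime_of_mem_primeFactors hp
  set A := ∏ p ∈ r.primeFactors, p with hA
  set B := ∏ p ∈ r.primeFactors, (p - 1) with hB
  have hAr : A ≤ r := Nat.le_of_dvd hr (Nat.prod_primeFactors_dvd r)
  have hA0 : 0 < A := Finset.prod_pos fun p hp => (Nat.prime_of_mem_primeFactors hp).pos
  have h3 : A ^ 3 ≤ 16 * B ^ 4 := by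
    refine h2.trans (Nat.mul_le_mul_right _ ?_)
    split_ifs <;> norm_num
  have h4 : r ^ 3 * A ^ 4 ≤ 16 * r.totient ^ 4 * A ^ 4 := by
    calc r ^ 3 * A ^ 4 = r ^ 3 * (A * A ^ 3) := by ring
      _ ≤ r ^ 3 * (r * (16 * B ^ 4)) := Nat.mul_le_mul_left _ (Nat.mul_le_mul hAr h3)
      _ = 16 * (r * B) ^ 4 := by ring
      _ = 16 * (r.totient * A) ^ 4 := by rw [h1]
      _ = _ := by ring
  exact Nat.le_of_mul_le_mul_right h4 (by positivity)

/-- `φ(q) / (log q + 1)` tends to infinity. -/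
lemma tot_large (K : ℝ) : ∃ q0 : ℕ, ∀ q : ℕ, q0 ≤ q →
    K * (Real.log q + 1) ≤ (q.totient : ℝ) := by
  obtain ⟨q0, hq0⟩ := exists_nat_ge ((10 * |K|) ^ 2 + 1)
  refine ⟨q0, fun q hq => ?_⟩
  have hqR : (10 * |K|) ^ 2 + 1 ≤ (q : ℝ) := hq0.trans (by exact_mod_cast hq)
  have hq1 : (1 : ℝ) ≤ q := by nlinarith [sq_nonneg (10 * |K|)]
  have hqpos : 0 < q := by
    have : (0 : ℝ) < q := by linarith
    exact_mod_cast this
  set t : ℝ := (q : ℝ) ^ (1 / 4 : ℝ) with ht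
  have ht1 : 1 ≤ t := Real.one_le_rpow hq1 (by norm_num)
  have ht4 : t ^ 4 = (q : ℝ) := by
    rw [ht, ← Real.rpow_natCast, ← Real.rpow_mul (by positivity)]
    norm_num
  have hlog : Real.log q ≤ 4 * t := by
    have := Real.log_le_rpow_div (x := (q : ℝ)) (by positivity) (ε := 1 / 4) (by norm_num)
    rw [← ht] at this
    linarith
  have h1 : t ^ 12 ≤ (2 * (q.totient : ℝ)) ^ 4 := by
    have h2 : ((q : ℝ)) ^ 3 ≤ 16 * (q.totient : ℝ) ^ 4 := by
      exact_mod_cast cube_le_totient q hqpos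
    calc t ^ 12 = (t ^ 4) ^ 3 := by ring
      _ = (q : ℝ) ^ 3 := by rw [ht4]
      _ ≤ 16 * (q.totient : ℝ) ^ 4 := h2
      _ = _ := by ring
  have h3 : t ^ 3 ≤ 2 * (q.totient : ℝ) := by
    have h4 : (t ^ 3) ^ 4 ≤ (2 * (q.totient : ℝ)) ^ 4 := by
      calc (t ^ 3) ^ 4 = t ^ 12 := by ring
        _ ≤ _ := h1
    exact le_of_pow_le_pow_left₀ (by norm_num) (by positivity) h4
  have h5 : 10 * |K| ≤ t ^ 2 := by
    have : (10 * |K|) ^ 2 ≤ (t ^ 2) ^ 2 := by
      calc (10 * |K|) ^ 2 ≤ (q : ℝ) := by linarith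
        _ = (t ^ 2) ^ 2 := by rw [← ht4]; ring
    exact le_of_pow_le_pow_left₀ (by norm_num) (by positivity) this
  have hlog0 : 0 ≤ Real.log q := Real.log_nonneg hq1
  calc K * (Real.log q + 1) ≤ |K| * (Real.log q + 1) :=
        mul_le_mul_of_nonneg_right (le_abs_self K) (by linarith)
    _ ≤ |K| * (5 * t) := mul_le_mul_of_nonneg_left (by linarith) (abs_nonneg K)
    _ = (10 * |K|) * t / 2 := by ring
    _ ≤ t ^ 2 * t / 2 := by
        have := mul_le_mul_of_nonneg_right h5 (by linarith : (0 : ℝ) ≤ t)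
        linarith
    _ = t ^ 3 / 2 := by ring
    _ ≤ _ := by linarith

/-! ### the value at `x = 1` -/

lemma Gc_zero (hJ0 : Stmt_J0) (hGRO : Stmt_GRO) (hXI : Stmt_XI) (hG : GRH) (q : ℕ) [NeZero q]
    (a : ℤ) : Gc q a 0 = ∑ χ : DirichletCharacter ℂ q,
      χ⁻¹ (a : ZMod q) * (conj (Hc χ 2) - conj (Hc χ 1)) := by
  have h : ∀ χ : DirichletCharacter ℂ q, J (Hc χ) 1 = conj (Hc χ 1) - conj (Hc χ 2) :=
    fun χ => hJ0 _ (hGRO _ (hXI hG q χ))
  unfold Gc
  simp only [zero_div, Real.exp_zero, Complex.ofReal_one, div_one]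
  rw [← Finset.sum_neg_distrib]
  refine Finset.sum_congr rfl fun χ _ => ?_
  rw [h χ]
  ring

/-- Harnack's inequality near `1`. -/
lemma harnack (hHER : Stmt_HER) (H : ℂ → ℂ) (hH : Hg H) (d : ℝ) (hd : 0 < d) :
    ‖H ((1 + d : ℝ) : ℂ) - H 1‖ ≤ 6 * d * (H 2).re := by
  have h1 := hHER H hH.diff hH.pos 1 ((1 + d : ℝ) : ℂ) (by norm_num) (by
    rw [Complex.ofReal_re]; linarith)
  have h2 := hHER H hH.diff hH.pos 2 1 (by norm_num) (by norm_num)
  have e1 : (((1 + d : ℝ) : ℂ) - 1) / (((1 + d : ℝ) : ℂ) + conj (1 : ℂ) - 1)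
      = ((d / (1 + d) : ℝ) : ℂ) := by
    rw [map_one]
    push_cast
    ring
  have e2 : ((1 : ℂ) - 2) / (1 + conj (2 : ℂ) - 1) = ((-(1 / 2) : ℝ) : ℂ) := by
    have : conj (2 : ℂ) = 2 := by
      rw [show (2 : ℂ) = ((2 : ℝ) : ℂ) by norm_num, Complex.conj_ofReal]
    rw [this]
    push_cast
    norm_num
  rw [e1, Complex.norm_real, Real.norm_eq_abs, abs_of_pos (by positivity)] at h1
  rw [e2, Complex.norm_real, Real.norm_eq_abs] at h2
  have e3 : d / (1 + d) / (1 - d / (1 + d)) = d := by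
    have : (1 + d) ≠ 0 := by positivity
    field_simp
    ring
  have e4 : |(-(1 / 2) : ℝ)| / (1 - |(-(1 / 2) : ℝ)|) = 1 := by
    rw [abs_neg, abs_of_pos (by norm_num)]
    norm_num
  rw [e3] at h1
  rw [e4] at h2
  have h3 : (H 1).re - (H 2).re ≤ 2 * (H 2).re := by
    have := Complex.re_le_norm (H 1 - H 2)
    rw [Complex.sub_re] at this
    linarith
  nlinarith

/-! ### the Dirichlet series part -/

lemma summ {q : ℕ} [NeZero q] (χ : DirichletCharacter ℂ q) {s : ℂ} (hs : 1 < s.re) :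
    LSeriesSummable (fun n => (Λ n : ℂ) * χ.primitiveCharacter (n : ZMod χ.conductor)) s := by
  have h := DirichletCharacter.LSeriesSummable_twist_vonMangoldt χ.primitiveCharacter hs
  have e : (fun n : ℕ => (Λ n : ℂ) * χ.primitiveCharacter (n : ZMod χ.conductor))
      = ((fun n : ℕ => χ.primitiveCharacter (n : ZMod χ.conductor)) * fun n : ℕ => (Λ n : ℂ)) := by
    funext n
    simp only [Pi.mul_apply]
    ring
  rw [e]
  exact h

lemma third (hCHR : Stmt_CHR) (q : ℕ) [NeZero q] (a : ℤ) (ha : IsUnit (a : ZMod q)) (s : ℝ)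
    (hs : 1 < s) (hs2 : s ≤ 2) :
    0 ≤ (∑ χ : DirichletCharacter ℂ q, χ⁻¹ (a : ZMod q) *
      (LSeries (fun n => (Λ n : ℂ) * χ.primitiveCharacter (n : ZMod χ.conductor)) s
        - LSeries (fun n => (Λ n : ℂ) * χ.primitiveCharacter (n : ZMod χ.conductor)) 2)).re := by
  have hs' : 1 < ((s : ℂ)).re := by rw [Complex.ofReal_re]; exact hs
  have h2' : 1 < ((2 : ℂ)).re := by norm_num
  set T : DirichletCharacter ℂ q → ℂ → ℕ → ℂ := fun χ z n =>
    LSeries.term (fun n => (Λ n : ℂ) * χ.primitiveCharacter (n : ZMod χ.conductor)) z n with hT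
  have hA : ∀ χ : DirichletCharacter ℂ q, Summable (T χ s) := fun χ => summ χ hs'
  have hB : ∀ χ : DirichletCharacter ℂ q, Summable (T χ 2) := fun χ => summ χ h2'
  have hAB : ∀ χ : DirichletCharacter ℂ q, Summable fun n => T χ s n - T χ 2 n :=
    fun χ => (hA χ).sub (hB χ)
  have hsum : ∀ χ : DirichletCharacter ℂ q, Summable fun n : ℕ => χ⁻¹ (a : ZMod q) *
      (T χ s n - T χ 2 n) := fun χ => (hAB χ).mul_left _
  have e1 : ∀ χ : DirichletCharacter ℂ q, χ⁻¹ (a : ZMod q) *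
      (LSeries (fun n => (Λ n : ℂ) * χ.primitiveCharacter (n : ZMod χ.conductor)) s
        - LSeries (fun n => (Λ n : ℂ) * χ.primitiveCharacter (n : ZMod χ.conductor)) 2)
      = ∑' n : ℕ, χ⁻¹ (a : ZMod q) * (T χ s n - T χ 2 n) := by
    intro χ
    rw [tsum_mul_left, Summable.tsum_sub (hA χ) (hB χ)]
    rfl
  simp_rw [e1]
  rw [← Summable.tsum_finsetSum fun χ _ => hsum χ]
  rw [Complex.re_tsum (summable_sum fun χ _ => hsum χ)]
  refine tsum_nonneg fun n => ?_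
  rcases Nat.eq_zero_or_pos n with rfl | hn
  · simp [hT]
  have hn0 : n ≠ 0 := hn.ne'
  obtain ⟨hi, hr, -, -⟩ := hCHR q a ha n hn
  have hnR : (0 : ℝ) < n := by exact_mod_cast hn
  have e2 : (∑ χ : DirichletCharacter ℂ q, χ⁻¹ (a : ZMod q) * (T χ s n - T χ 2 n))
      = ((Λ n * (((n : ℝ) ^ s)⁻¹ - ((n : ℝ) ^ (2 : ℝ))⁻¹) : ℝ) : ℂ) * ca q a n := by
    unfold ca
    rw [Finset.mul_sum]
    refine Finset.sum_congr rfl fun χ _ => ?_
    simp only [hT]
    rw [LSeries.term_of_ne_zero hn0, LSeries.term_of_ne_zero hn0]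
    push_cast
    rw [Complex.ofReal_cpow hnR.le, Complex.ofReal_cpow hnR.le]
    push_cast
    ring
  rw [e2, Complex.re_ofReal_mul]
  refine mul_nonneg (mul_nonneg vonMangoldt_nonneg ?_) hr
  rw [sub_nonneg]
  exact inv_anti₀ (by positivity)
    (Real.rpow_le_rpow_of_exponent_le (by exact_mod_cast hn) hs2)

/-! ### the digamma part -/

lemma digamma_three_half : Complex.digamma (3 / 2) = Complex.digamma (1 / 2) + 2 := by
  have h := Complex.digamma_apply_add_one (1 / 2) (fun m hm => by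
    have := congrArg Complex.re hm
    have h2 : ((1 / 2 : ℂ)).re = 1 / 2 := by norm_num
    rw [h2] at this
    simp only [Complex.neg_re, Complex.natCast_re] at this
    have hm0 : (0 : ℝ) ≤ m := Nat.cast_nonneg m
    linarith)
  rw [show (3 / 2 : ℂ) = 1 / 2 + 1 by norm_num, h]
  norm_num

lemma digamma_near (hDIG : Stmt_DIG) : ∃ d0 : ℝ, 0 < d0 ∧ ∀ d : ℝ, 0 < d → d < d0 →
    1 / 2 ≤ ((Complex.digamma 1 - Complex.digamma (((1 + d : ℝ) : ℂ) / 2))
      + (Complex.digamma (3 / 2) - Complex.digamma ((((1 + d : ℝ) : ℂ) + 1) / 2))).re ∧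
    1 / 2 ≤ ((Complex.digamma 1 - Complex.digamma (((1 + d : ℝ) : ℂ) / 2))
      - (Complex.digamma (3 / 2) - Complex.digamma ((((1 + d : ℝ) : ℂ) + 1) / 2))).re := by
  obtain ⟨hdiff, -, -⟩ := hDIG
  have c1 : ContinuousAt Complex.digamma (1 / 2) := (hdiff (1 / 2) (by norm_num)).continuousAt
  have c2 : ContinuousAt Complex.digamma 1 := (hdiff 1 (by norm_num)).continuousAt
  rw [Metric.continuousAt_iff] at c1 c2
  obtain ⟨d1, hd1, h1⟩ := c1 (1 / 20) (by norm_num)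
  obtain ⟨d2, hd2, h2⟩ := c2 (1 / 20) (by norm_num)
  refine ⟨min d1 d2, lt_min hd1 hd2, fun d hd hdd => ?_⟩
  have k1 : dist (((1 + d : ℝ) : ℂ) / 2) (1 / 2) < d1 := by
    rw [dist_eq_norm, show (((1 + d : ℝ) : ℂ) / 2) - 1 / 2 = ((d / 2 : ℝ) : ℂ) by push_cast; ring,
      Complex.norm_real, Real.norm_eq_abs, abs_of_pos (by positivity)]
    have := hdd.trans_le (min_le_left d1 d2)
    linarith
  have k2 : dist ((((1 + d : ℝ) : ℂ) + 1) / 2) 1 < d2 := by
    rw [dist_eq_norm, show ((((1 + d : ℝ) : ℂ) + 1) / 2) - 1 = ((d / 2 : ℝ) : ℂ) by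
      push_cast; ring, Complex.norm_real, Real.norm_eq_abs, abs_of_pos (by positivity)]
    have := hdd.trans_le (min_le_right d1 d2)
    linarith
  have m1 := h1 k1
  have m2 := h2 k2
  rw [dist_eq_norm] at m1 m2
  have n1 := (Complex.abs_re_le_norm _).trans m1.le
  have n2 := (Complex.abs_re_le_norm _).trans m2.le
  rw [Complex.sub_re, abs_le] at n1 n2
  have r1 : (Complex.digamma 1).re = -Real.eulerMascheroniConstant := by
    rw [Complex.digamma_one, ← Complex.ofReal_neg, Complex.ofReal_re]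
  have r2 : (Complex.digamma (1 / 2)).re = -2 * Real.log 2 - Real.eulerMascheroniConstant := by
    rw [Complex.digamma_one_half]
    have : (Complex.log 2) = ((Real.log 2 : ℝ) : ℂ) := by
      rw [Complex.ofReal_log (by norm_num)]
      norm_num
    rw [this, show (-2 * ((Real.log 2 : ℝ) : ℂ) - (Real.eulerMascheroniConstant : ℂ))
      = ((-2 * Real.log 2 - Real.eulerMascheroniConstant : ℝ) : ℂ) by push_cast; ring,
      Complex.ofReal_re]
  have r3 : (Complex.digamma (3 / 2)).re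
      = -2 * Real.log 2 - Real.eulerMascheroniConstant + 2 := by
    rw [digamma_three_half, Complex.add_re, r2]
    norm_num
  have hl := Real.log_two_gt_d9
  have hl' := Real.log_two_lt_d9
  rw [r2] at n1
  rw [r1] at n2
  simp only [Complex.add_re, Complex.sub_re]
  rw [r1, r3]
  constructor <;> linarith [n1.1, n1.2, n2.1, n2.2]

/-- The digamma contribution. -/
lemma second (hCHS : Stmt_CHS) (q : ℕ) [NeZero q] (hq : 3 ≤ q) (a : ℤ)
    (ha : (a : ZMod q) = 1 ∨ (a : ZMod q) = -1) (d : ℝ)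
    (h1 : 1 / 2 ≤ ((Complex.digamma 1 - Complex.digamma (((1 + d : ℝ) : ℂ) / 2))
      + (Complex.digamma (3 / 2) - Complex.digamma ((((1 + d : ℝ) : ℂ) + 1) / 2))).re)
    (h2 : 1 / 2 ≤ ((Complex.digamma 1 - Complex.digamma (((1 + d : ℝ) : ℂ) / 2))
      - (Complex.digamma (3 / 2) - Complex.digamma ((((1 + d : ℝ) : ℂ) + 1) / 2))).re) :
    (q.totient : ℝ) / 8 ≤ (∑ χ : DirichletCharacter ℂ q, χ⁻¹ (a : ZMod q) *
      (1 / 2 * Complex.digamma ((2 + kap χ) / 2)
        - 1 / 2 * Complex.digamma ((((1 + d : ℝ) : ℂ) + kap χ) / 2))).re := by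
  have hau : IsUnit (a : ZMod q) := by
    rcases ha with h | h <;> rw [h]
    · exact isUnit_one
    · exact isUnit_one.neg
  obtain ⟨he, ho⟩ := hCHS q a hau
  set E : ℂ := Complex.digamma 1 - Complex.digamma (((1 + d : ℝ) : ℂ) / 2) with hE
  set O : ℂ := Complex.digamma (3 / 2) - Complex.digamma ((((1 + d : ℝ) : ℂ) + 1) / 2) with hO
  have e1 : ∀ χ : DirichletCharacter ℂ q, χ⁻¹ (a : ZMod q) *
      (1 / 2 * Complex.digamma ((2 + kap χ) / 2)
        - 1 / 2 * Complex.digamma ((((1 + d : ℝ) : ℂ) + kap χ) / 2))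
      = 1 / 2 * E * (if χ.Even then χ⁻¹ (a : ZMod q) else 0)
        + 1 / 2 * O * (if χ.Even then 0 else χ⁻¹ (a : ZMod q)) := by
    intro χ
    unfold kap
    by_cases hχ : χ.Even
    · rw [if_pos hχ, if_pos hχ, if_pos hχ, hE]
      rw [show ((2 : ℂ) + ((0 : ℝ) : ℂ)) / 2 = 1 by push_cast; norm_num,
        show (((1 + d : ℝ) : ℂ) + ((0 : ℝ) : ℂ)) / 2 = ((1 + d : ℝ) : ℂ) / 2 by push_cast; ring]
      ring
    · rw [if_neg hχ, if_neg hχ, if_neg hχ, hO]
      rw [show ((2 : ℂ) + ((1 : ℝ) : ℂ)) / 2 = 3 / 2 by push_cast; norm_num,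
        show (((1 + d : ℝ) : ℂ) + ((1 : ℝ) : ℂ)) / 2 = (((1 + d : ℝ) : ℂ) + 1) / 2 by
          push_cast; ring]
      ring
  simp_rw [e1]
  rw [Finset.sum_add_distrib, ← Finset.mul_sum, ← Finset.mul_sum, he, ho]
  have hne : (1 : ZMod q) ≠ -1 := by
    intro h
    have h3 : ((2 : ℕ) : ZMod q) = 0 := by
      have : (1 : ZMod q) + 1 = 0 := by
        nth_rewrite 1 [h]
        ring
      push_cast
      rw [← this]
      ring
    rw [ZMod.natCast_eq_zero_iff] at h3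
    exact absurd (Nat.le_of_dvd (by norm_num) h3) (by omega)
  have hphi : (0 : ℝ) ≤ q.totient := Nat.cast_nonneg _
  rcases ha with h | h
  · rw [h, if_pos rfl, if_neg hne]
    have e2 : 1 / 2 * E * ((q.totient / 2 : ℂ) * (1 + 0))
        + 1 / 2 * O * ((q.totient / 2 : ℂ) * (1 - 0))
        = (((q.totient : ℝ) / 4 : ℝ) : ℂ) * (E + O) := by
      push_cast
      ring
    rw [e2, Complex.re_ofReal_mul]
    nlinarith
  · rw [h, if_neg (Ne.symm hne), if_pos rfl]
    have e2 : 1 / 2 * E * ((q.totient / 2 : ℂ) * (0 + 1))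
        + 1 / 2 * O * ((q.totient / 2 : ℂ) * (0 - 1))
        = (((q.totient : ℝ) / 4 : ℝ) : ℂ) * (E - O) := by
      push_cast
      ring
    rw [e2, Complex.re_ofReal_mul]
    nlinarith

/-- The values of the characters at `±1` are real. -/
lemma conj_val {q : ℕ} (a : ℤ) (ha : (a : ZMod q) = 1 ∨ (a : ZMod q) = -1)
    (χ : DirichletCharacter ℂ q) : conj (χ (a : ZMod q)) = χ (a : ZMod q) := by
  rcases ha with h | h
  · rw [h, map_one, map_one]
  · rw [h]
    rcases χ.even_or_odd with h1 | h1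
    · rw [show χ (-1) = 1 from h1, map_one]
    · rw [show χ (-1) = -1 from h1, map_neg, map_one]

/-- The lower bound for `Gc` at `0`. -/
lemma lower (hEXPL : Stmt_EXPL) (hCHR : Stmt_CHR) (hCHS : Stmt_CHS) (q : ℕ) [NeZero q]
    (hq : 3 ≤ q) (a : ℤ) (ha : (a : ZMod q) = 1 ∨ (a : ZMod q) = -1) (d : ℝ) (hd : 0 < d)
    (hd1 : d ≤ 1)
    (h1 : 1 / 2 ≤ ((Complex.digamma 1 - Complex.digamma (((1 + d : ℝ) : ℂ) / 2))
      + (Complex.digamma (3 / 2) - Complex.digamma ((((1 + d : ℝ) : ℂ) + 1) / 2))).re)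
    (h2 : 1 / 2 ≤ ((Complex.digamma 1 - Complex.digamma (((1 + d : ℝ) : ℂ) / 2))
      - (Complex.digamma (3 / 2) - Complex.digamma ((((1 + d : ℝ) : ℂ) + 1) / 2))).re) :
    (q.totient : ℝ) / 8 - 1 / d ≤ (∑ χ : DirichletCharacter ℂ q, χ⁻¹ (a : ZMod q) *
      (Hc χ 2 - Hc χ ((1 + d : ℝ) : ℂ))).re := by
  have hau : IsUnit (a : ZMod q) := by
    rcases ha with h | h <;> rw [h]
    · exact isUnit_one
    · exact isUnit_one.neg
  have hs2 := second hCHS q hq a ha d h1 h2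
  have hs3 := third hCHR q a hau (1 + d) (by linarith) (by linarith)
  have e1 : ∀ χ : DirichletCharacter ℂ q, χ⁻¹ (a : ZMod q) * (Hc χ 2 - Hc χ ((1 + d : ℝ) : ℂ))
      = (if χ = 1 then ((1 / 2 + 1 - 1 / (1 + d) - 1 / d : ℝ) : ℂ) else 0)
        + χ⁻¹ (a : ZMod q) * (1 / 2 * Complex.digamma ((2 + kap χ) / 2)
          - 1 / 2 * Complex.digamma ((((1 + d : ℝ) : ℂ) + kap χ) / 2))
        + χ⁻¹ (a : ZMod q) *
          (LSeries (fun n => (Λ n : ℂ) * χ.primitiveCharacter (n : ZMod χ.conductor))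
              ((1 + d : ℝ) : ℂ)
            - LSeries (fun n => (Λ n : ℂ) * χ.primitiveCharacter (n : ZMod χ.conductor)) 2) := by
    intro χ
    rw [hEXPL q χ 2 (by norm_num), hEXPL q χ ((1 + d : ℝ) : ℂ) (by
      rw [Complex.ofReal_re]; linarith)]
    by_cases hχ : χ = 1
    · have hone : χ⁻¹ (a : ZMod q) = 1 := by
        rw [hχ, inv_one, MulChar.one_apply hau]
      rw [if_pos hχ, if_pos hχ, if_pos hχ, hone]
      have hd0 : (d : ℂ) ≠ 0 := by exact_mod_cast hd.ne'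
      have e3 : ((1 + d : ℝ) : ℂ) - 1 = (d : ℂ) := by push_cast; ring
      rw [e3]
      push_cast
      norm_num
      ring
    · rw [if_neg hχ, if_neg hχ, if_neg hχ]
      ring
  simp_rw [e1]
  rw [Finset.sum_add_distrib, Finset.sum_add_distrib, Finset.sum_ite_eq' , if_pos
    (Finset.mem_univ _), Complex.add_re, Complex.add_re, Complex.ofReal_re]
  have h3 : 1 / (1 + d) ≤ 1 := by
    rw [div_le_one (by positivity)]
    linarith
  linarith

end ONE

/-- Block ONE. -/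
theorem stmt_ONE (hBRI : Stmt_BRI) (hJ0 : Stmt_J0) (hCHR : Stmt_CHR) (hCHS : Stmt_CHS)
    (hHER : Stmt_HER) (hXI : Stmt_XI) (hGRO : Stmt_GRO) (hH2 : Stmt_H2) (hEXPL : Stmt_EXPL)
    (hDIG : Stmt_DIG) (hRQ : Stmt_RQ) : Stmt_ONE := by
  intro hG
  obtain ⟨C, hC, hH2⟩ := hH2
  obtain ⟨C', hRQ⟩ := hRQ (1 / 2) (by norm_num)
  obtain ⟨d0, hd0, hnear⟩ := ONE.digamma_near hDIG
  set B : ℝ := 1 + 6 * C + |C'| with hB
  have hB1 : 1 ≤ B := by
    rw [hB]
    linarith [abs_nonneg C']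
  obtain ⟨q0, hq0⟩ := ONE.tot_large ((16 * B) ^ 2 + 2 / d0 ^ 2)
  refine ⟨max q0 3, fun q _ hq a ha hin => ?_⟩
  have hq3 : 3 ≤ q := (le_max_right _ _).trans hq
  have hqR : (3 : ℝ) ≤ q := by exact_mod_cast hq3
  have hbig := hq0 q ((le_max_left _ _).trans hq)
  have hau : IsUnit (a : ZMod q) := by
    rcases ha with h | h <;> rw [h]
    · exact isUnit_one
    · exact isUnit_one.neg
  set P : ℝ := (q.totient : ℝ) with hP
  set L : ℝ := Real.log q with hL
  have hL1 : 1 ≤ L := by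
    rw [hL, Real.le_log_iff_exp_le (by linarith)]
    linarith [Real.exp_one_lt_d9]
  have hP0 : 0 < P := by
    rw [hP]
    exact_mod_cast Nat.totient_pos.2 (by omega)
  set R : ℝ := √(P * L) with hR
  have hPL : 0 < P * L := by positivity
  have hR0 : 0 < R := Real.sqrt_pos.2 hPL
  have hRR : R ^ 2 = P * L := Real.sq_sqrt hPL.le
  have hinv : 0 ≤ 2 / d0 ^ 2 := by positivity
  have hPd : 2 / d0 ^ 2 ≤ P := by nlinarith [sq_nonneg (16 * B)]
  have hPB : (16 * B) ^ 2 * (L + 1) ≤ P := by nlinarith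
  -- the choice of `d`
  set d : ℝ := 1 / R with hd
  have hdpos : 0 < d := by positivity
  have hdd0 : d < d0 := by
    rw [hd, div_lt_iff₀ hR0]
    have h1 : (1 : ℝ) < (d0 * R) ^ 2 := by
      rw [mul_pow, hRR]
      have h2 : 2 ≤ d0 ^ 2 * P := by
        have := (div_le_iff₀ (by positivity : (0 : ℝ) < d0 ^ 2)).1 hPd
        linarith
      nlinarith
    by_contra hcon
    push Not at hcon
    have h3 : 0 ≤ d0 * R := by positivity
    nlinarith
  have hP1 : 1 ≤ P := by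
    nlinarith
  have hd1 : d ≤ 1 := by
    rw [hd, div_le_one hR0]
    rw [hR]
    rw [show (1 : ℝ) = √1 by simp]
    exact Real.sqrt_le_sqrt (by nlinarith)
  obtain ⟨hn1, hn2⟩ := hnear d hdpos hdd0
  have hlow := ONE.lower hEXPL hCHR hCHS q hq3 a ha d hdpos hd1 hn1 hn2
  have hup := (hBRI hG q a hau).1 hin 0 le_rfl
  rw [ONE.Gc_zero hJ0 hGRO hXI hG q a] at hup
  have hreal : ∀ χ : DirichletCharacter ℂ q, conj (χ⁻¹ (a : ZMod q)) = χ⁻¹ (a : ZMod q) :=
    fun χ => ONE.conj_val a ha χ⁻¹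
  have e1 : (∑ χ : DirichletCharacter ℂ q,
      χ⁻¹ (a : ZMod q) * (conj (Hc χ 2) - conj (Hc χ 1))).re
      = (∑ χ : DirichletCharacter ℂ q, χ⁻¹ (a : ZMod q) * (Hc χ 2 - Hc χ 1)).re := by
    rw [← Complex.conj_re, map_sum]
    congr 1
    refine Finset.sum_congr rfl fun χ _ => ?_
    rw [map_mul, map_sub, Complex.conj_conj, Complex.conj_conj, hreal χ]
  rw [e1] at hup
  have hH : ∀ χ : DirichletCharacter ℂ q, Hg (Hc χ) := fun χ => hGRO _ (hXI hG q χ)
  have e2 : (∑ χ : DirichletCharacter ℂ q, χ⁻¹ (a : ZMod q) * (Hc χ 2 - Hc χ 1)).re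
      = (∑ χ : DirichletCharacter ℂ q, χ⁻¹ (a : ZMod q) * (Hc χ 2 - Hc χ ((1 + d : ℝ) : ℂ))).re
        + (∑ χ : DirichletCharacter ℂ q, χ⁻¹ (a : ZMod q)
            * (Hc χ ((1 + d : ℝ) : ℂ) - Hc χ 1)).re := by
    rw [← Complex.add_re, ← Finset.sum_add_distrib]
    congr 1
    refine Finset.sum_congr rfl fun χ _ => ?_
    ring
  have herr : |(∑ χ : DirichletCharacter ℂ q, χ⁻¹ (a : ZMod q)
      * (Hc χ ((1 + d : ℝ) : ℂ) - Hc χ 1)).re| ≤ 6 * d * (C * P * L) := by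
    calc _ ≤ ‖∑ χ : DirichletCharacter ℂ q, χ⁻¹ (a : ZMod q)
          * (Hc χ ((1 + d : ℝ) : ℂ) - Hc χ 1)‖ := Complex.abs_re_le_norm _
      _ ≤ ∑ χ : DirichletCharacter ℂ q, ‖χ⁻¹ (a : ZMod q)
          * (Hc χ ((1 + d : ℝ) : ℂ) - Hc χ 1)‖ := norm_sum_le _ _
      _ ≤ ∑ χ : DirichletCharacter ℂ q, 6 * d * |(Hc χ 2).re| := by
          refine Finset.sum_le_sum fun χ _ => ?_
          rw [norm_mul]
          have h1 : ‖χ⁻¹ (a : ZMod q)‖ ≤ 1 := DirichletCharacter.norm_le_one _ _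
          have h2 := ONE.harnack hHER (Hc χ) (hH χ) d hdpos
          have h3 : (Hc χ 2).re ≤ |(Hc χ 2).re| := le_abs_self _
          calc ‖χ⁻¹ (a : ZMod q)‖ * ‖Hc χ ((1 + d : ℝ) : ℂ) - Hc χ 1‖
              ≤ 1 * ‖Hc χ ((1 + d : ℝ) : ℂ) - Hc χ 1‖ :=
                mul_le_mul_of_nonneg_right h1 (norm_nonneg _)
            _ ≤ 6 * d * (Hc χ 2).re := by rw [one_mul]; exact h2
            _ ≤ _ := mul_le_mul_of_nonneg_left h3 (by positivity)
      _ = 6 * d * ∑ χ : DirichletCharacter ℂ q, |(Hc χ 2).re| := by rw [Finset.mul_sum]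
      _ ≤ _ := mul_le_mul_of_nonneg_left (hH2 q hq3) (by positivity)
  have hrt := hRQ q a (by omega) hau
  rw [← Real.sqrt_eq_rpow] at hrt
  -- the final comparison
  have hdR : d * (P * L) = R := by
    rw [hd, ← hRR]
    field_simp
  have h1d : 1 / d = R := by
    rw [hd]
    simp
  have hsqP : √P ≤ R := Real.sqrt_le_sqrt (by nlinarith)
  have hrt' : (rt q a : ℝ) ≤ |C'| * R := by
    calc (rt q a : ℝ) ≤ C' * √P := hrt
      _ ≤ |C'| * √P := mul_le_mul_of_nonneg_right (le_abs_self _) (Real.sqrt_nonneg _)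
      _ ≤ _ := mul_le_mul_of_nonneg_left hsqP (abs_nonneg _)
  have hRP : 16 * B * R ≤ P := by
    have h4 : (16 * B * R) ^ 2 ≤ P ^ 2 := by
      rw [mul_pow, hRR]
      nlinarith
    exact le_of_pow_le_pow_left₀ (by norm_num) hP0.le h4
  rw [e2] at hup
  rw [h1d] at hlow
  have h5 := neg_le_of_abs_le herr
  have h6 : 6 * d * (C * P * L) = 6 * C * R := by
    rw [← hdR]
    ring
  rw [h6] at h5
  have h7 : P / 8 - R - 6 * C * R ≤ 2 / 3 * (|C'| * R) := by
    linarith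
  have h8 : 2 * (1 + 6 * C + |C'|) * R ≤ P / 8 := by
    rw [← hB]
    linarith
  nlinarith [abs_nonneg C', mul_nonneg (abs_nonneg C') hR0.le, mul_pos hC hR0]

end Pool.Agent.AQ
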