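import Pool.Agent.Work.MP_99218a_nt.Interface

set_option autoImplicit false

namespace Pool.Agent.AQ.POSp

open Filter Topology Bornology
open scoped ComplexConjugate

lemma hasDeriv_normSq {Φ : ℂ → ℂ} (hΦ : Differentiable ℂ Φ) (s : ℂ) (t : ℝ)
    (h0 : Φ (s + t) ≠ 0) :
    HasDerivAt (fun t : ℝ => ‖Φ (s + t)‖ ^ 2)
      (2 * ((logDeriv Φ (s + t)).re * ‖Φ (s + t)‖ ^ 2)) t := by
  have h1 : HasDerivAt (fun t : ℝ => s + (t : ℂ)) 1 t := by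
    have := (Complex.ofRealCLM.hasDerivAt (x := t)).const_add s
    simpa using this
  have h2 : HasDerivAt (fun t : ℝ => Φ (s + t)) (deriv Φ (s + t)) t := by
    have := (hΦ (s + t)).hasDerivAt.comp t h1
    simpa [Function.comp_def] using this
  have h3 := h2.norm_sq
  have h4 : inner ℝ (Φ (s + t)) (deriv Φ (s + t))
      = (logDeriv Φ (s + t)).re * ‖Φ (s + t)‖ ^ 2 := by
    have h5 : deriv Φ (s + t) = logDeriv Φ (s + t) * Φ (s + t) := by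
      rw [logDeriv_apply, div_mul_cancel₀ _ h0]
    rw [Complex.inner, h5]
    have h6 : logDeriv Φ (s + t) * Φ (s + t) * conj (Φ (s + t))
        = logDeriv Φ (s + t) * ((‖Φ (s + t)‖ ^ 2 : ℝ) : ℂ) := by
      have h7 : Φ (s + t) * conj (Φ (s + t)) = ((‖Φ (s + t)‖ ^ 2 : ℝ) : ℂ) := by
        rw [Complex.mul_conj, Complex.normSq_eq_norm_sq]
      rw [← h7]
      ring
    rw [h6, Complex.re_mul_ofReal]
  rw [h4] at h3
  exact h3

lemma real_bound {Φ : ℂ → ℂ} (hΦ : Xi Φ) {C : ℝ}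
    (hC : ∀ σ : ℝ, 2 ≤ σ → -C ≤ (logDeriv Φ (σ : ℂ)).re) {a b : ℝ} (ha : 2 ≤ a) (hab : a ≤ b) :
    ‖Φ (a : ℂ)‖ ^ 2 * Real.exp (2 * C * a) ≤ ‖Φ (b : ℂ)‖ ^ 2 * Real.exp (2 * C * b) := by
  have hne : ∀ t : ℝ, 2 ≤ t → Φ ((0 : ℂ) + t) ≠ 0 := fun t ht =>
    hΦ.ne _ (by simp; linarith)
  have hder : ∀ t : ℝ, 2 ≤ t → HasDerivAt (fun t : ℝ => ‖Φ ((0 : ℂ) + t)‖ ^ 2
      * Real.exp (2 * C * t))
      (2 * ((logDeriv Φ ((0 : ℂ) + t)).re * ‖Φ ((0 : ℂ) + t)‖ ^ 2) * Real.exp (2 * C * t)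
        + ‖Φ ((0 : ℂ) + t)‖ ^ 2 * (Real.exp (2 * C * t) * (2 * C))) t := by
    intro t ht
    have h1 := hasDeriv_normSq hΦ.diff 0 t (hne t ht)
    have h2 : HasDerivAt (fun t : ℝ => Real.exp (2 * C * t)) (Real.exp (2 * C * t) * (2 * C)) t := by
      have h3 : HasDerivAt (fun t : ℝ => 2 * C * t) (2 * C) t := by
        simpa using (hasDerivAt_id t).const_mul (2 * C)
      exact h3.exp
    exact h1.mul h2
  have hmono : MonotoneOn (fun t : ℝ => ‖Φ ((0 : ℂ) + t)‖ ^ 2 * Real.exp (2 * C * t))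
      (Set.Ici 2) := by
    refine monotoneOn_of_deriv_nonneg (convex_Ici 2) ?_ ?_ ?_
    · intro t ht
      exact (hder t ht).continuousAt.continuousWithinAt
    · intro t ht
      rw [interior_Ici] at ht
      exact (hder t (le_of_lt ht)).differentiableAt.differentiableWithinAt
    · intro t ht
      rw [interior_Ici] at ht
      have ht' : 2 ≤ t := le_of_lt ht
      rw [(hder t ht').deriv]
      have h1 := hC t ht'
      have h2 : (logDeriv Φ ((0 : ℂ) + t)).re = (logDeriv Φ (t : ℂ)).re := by rw [zero_add]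
      rw [h2]
      have h3 : 0 ≤ ‖Φ ((0 : ℂ) + t)‖ ^ 2 * Real.exp (2 * C * t) := by positivity
      nlinarith [mul_nonneg (by linarith : 0 ≤ (logDeriv Φ (t : ℂ)).re + C) h3]
  have := hmono (Set.mem_Ici.2 ha) (Set.mem_Ici.2 (ha.trans hab)) hab
  simpa using this

lemma shift_le (hL : Stmt_LOWB) {Φ : ℂ → ℂ} (hΦ : Xi Φ) {h : ℝ} (h0 : 0 < h) (h8 : h ≤ 1 / 8)
    {s : ℂ} (hs : 1 / 2 ≤ s.re) : ‖Φ (s - h)‖ ≤ ‖Φ (s + h)‖ := by
  obtain ⟨C1, hC1⟩ := hΦ.upper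
  obtain ⟨C2, hC2⟩ := hL Φ hΦ h h0
  obtain ⟨C3, hC3⟩ := hΦ.rb
  set f : ℂ → ℂ := fun z => Φ (1 / 2 + z - h) / Φ (1 / 2 + z + h) with hf
  have hne : ∀ z : ℂ, 0 ≤ z.re → Φ (1 / 2 + z + h) ≠ 0 := fun z hz =>
    hΦ.ne _ (by simp; norm_num; linarith)
  have hdiff : DiffContOnCl ℂ f {z | 0 < z.re} := by
    apply DifferentiableOn.diffContOnCl
    intro z hz
    have hz' : 0 ≤ z.re := by
      have h1 : closure {z : ℂ | 0 < z.re} ⊆ {z : ℂ | 0 ≤ z.re} :=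
        closure_minimal (fun w (hw : 0 < w.re) => show 0 ≤ w.re from le_of_lt hw)
          (isClosed_le continuous_const Complex.continuous_re)
      exact h1 hz
    have h2 : DifferentiableAt ℂ (fun z : ℂ => Φ (1 / 2 + z - h)) z :=
      (hΦ.diff _).comp z (by fun_prop)
    have h3 : DifferentiableAt ℂ (fun z : ℂ => Φ (1 / 2 + z + h)) z :=
      (hΦ.diff _).comp z (by fun_prop)
    exact (h2.div h3 (hne z hz')).differentiableWithinAt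
  have hnorm1 : ∀ z : ℂ, 1 ≤ ‖z‖ → 1 + ‖1 / 2 + z - h‖ ≤ 3 * ‖z‖ := by
    intro z hz
    have h1 : ‖1 / 2 + z - h‖ ≤ 1 / 2 + ‖z‖ + h := by
      calc ‖1 / 2 + z - h‖ ≤ ‖(1 / 2 : ℂ) + z‖ + ‖(h : ℂ)‖ := norm_sub_le _ _
        _ ≤ ‖(1 / 2 : ℂ)‖ + ‖z‖ + ‖(h : ℂ)‖ := by gcongr; exact norm_add_le _ _
        _ = 1 / 2 + ‖z‖ + h := by
          rw [Complex.norm_real, Real.norm_of_nonneg h0.le]
          norm_num
    linarith
  have hnorm2 : ∀ z : ℂ, 1 ≤ ‖z‖ → 1 + ‖1 / 2 + z + h‖ ≤ 3 * ‖z‖ := by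
    intro z hz
    have h1 : ‖1 / 2 + z + h‖ ≤ 1 / 2 + ‖z‖ + h := by
      calc ‖1 / 2 + z + h‖ ≤ ‖(1 / 2 : ℂ) + z‖ + ‖(h : ℂ)‖ := norm_add_le _ _
        _ ≤ ‖(1 / 2 : ℂ)‖ + ‖z‖ + ‖(h : ℂ)‖ := by gcongr; exact norm_add_le _ _
        _ = 1 / 2 + ‖z‖ + h := by
          rw [Complex.norm_real, Real.norm_of_nonneg h0.le]
          norm_num
    linarith
  have hexp : ∃ c < (2 : ℝ), ∃ B, f =O[cobounded ℂ ⊓ 𝓟 {z | 0 < z.re}]
      fun z => Real.exp (B * ‖z‖ ^ c) := by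
    refine ⟨3 / 2, by norm_num, (|C1| + |C2|) * 3 ^ (3 / 2 : ℝ), ?_⟩
    refine Asymptotics.IsBigO.of_bound 1 ?_
    rw [eventually_inf_principal]
    filter_upwards [tendsto_norm_cobounded_atTop.eventually_ge_atTop (1 : ℝ)] with z hz hz0
    have hz0' : 0 ≤ z.re := le_of_lt hz0
    have h1 : ‖Φ (1 / 2 + z - h)‖ ≤ Real.exp (|C1| * (3 * ‖z‖) ^ (3 / 2 : ℝ)) := by
      refine (hC1 _ (by simp; norm_num; linarith)).trans (Real.exp_le_exp.2 ?_)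
      calc C1 * (1 + ‖1 / 2 + z - h‖) ^ (3 / 2 : ℝ)
          ≤ |C1| * (1 + ‖1 / 2 + z - h‖) ^ (3 / 2 : ℝ) := by
            gcongr; exact le_abs_self _
        _ ≤ |C1| * (3 * ‖z‖) ^ (3 / 2 : ℝ) := by
            gcongr
            exact hnorm1 z hz
    have h2 : Real.exp (-(|C2| * (3 * ‖z‖) ^ (3 / 2 : ℝ))) ≤ ‖Φ (1 / 2 + z + h)‖ := by
      refine (Real.exp_le_exp.2 ?_).trans (hC2 _ (by simp; norm_num; linarith))
      apply neg_le_neg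
      calc C2 * (1 + ‖1 / 2 + z + h‖) ^ (3 / 2 : ℝ)
          ≤ |C2| * (1 + ‖1 / 2 + z + h‖) ^ (3 / 2 : ℝ) := by
            gcongr; exact le_abs_self _
        _ ≤ |C2| * (3 * ‖z‖) ^ (3 / 2 : ℝ) := by
            gcongr
            exact hnorm2 z hz
    rw [one_mul, Real.norm_eq_abs, Real.abs_exp, hf]
    simp only
    rw [norm_div]
    calc ‖Φ (1 / 2 + z - h)‖ / ‖Φ (1 / 2 + z + h)‖
        ≤ Real.exp (|C1| * (3 * ‖z‖) ^ (3 / 2 : ℝ))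
          / Real.exp (-(|C2| * (3 * ‖z‖) ^ (3 / 2 : ℝ))) := by
          gcongr
      _ = Real.exp ((|C1| + |C2|) * 3 ^ (3 / 2 : ℝ) * ‖z‖ ^ (3 / 2 : ℝ)) := by
          rw [← Real.exp_sub, Real.mul_rpow (by norm_num) (norm_nonneg _)]
          congr 1
          ring
  have hre : IsBoundedUnder (· ≤ ·) atTop fun x : ℝ => ‖f x‖ := by
    refine ⟨Real.exp (2 * |C3| * h), ?_⟩
    rw [eventually_map]
    filter_upwards [eventually_ge_atTop (2 : ℝ)] with x hx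
    have hC3' : ∀ σ : ℝ, 2 ≤ σ → -|C3| ≤ (logDeriv Φ (σ : ℂ)).re := fun σ hσ =>
      (neg_le_neg (le_abs_self C3)).trans (hC3 σ hσ)
    have h1 := real_bound hΦ hC3' (a := 1 / 2 + x - h) (b := 1 / 2 + x + h) (by linarith)
      (by linarith)
    have h2 : ‖Φ (1 / 2 + (x : ℂ) - h)‖ ^ 2
        ≤ ‖Φ (1 / 2 + (x : ℂ) + h)‖ ^ 2 * Real.exp (2 * (2 * |C3| * h)) := by
      have e1 : (((1 / 2 + x - h : ℝ)) : ℂ) = 1 / 2 + (x : ℂ) - h := by push_cast; ring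
      have e2 : (((1 / 2 + x + h : ℝ)) : ℂ) = 1 / 2 + (x : ℂ) + h := by push_cast; ring
      rw [e1, e2] at h1
      have e3 : Real.exp (2 * |C3| * (1 / 2 + x + h))
          = Real.exp (2 * |C3| * (1 / 2 + x - h)) * Real.exp (2 * (2 * |C3| * h)) := by
        rw [← Real.exp_add]; congr 1; ring
      rw [e3] at h1
      have e4 : 0 < Real.exp (2 * |C3| * (1 / 2 + x - h)) := Real.exp_pos _
      nlinarith [h1]
    have h3 : ‖Φ (1 / 2 + (x : ℂ) - h)‖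
        ≤ ‖Φ (1 / 2 + (x : ℂ) + h)‖ * Real.exp (2 * |C3| * h) := by
      have e5 : Real.exp (2 * (2 * |C3| * h)) = Real.exp (2 * |C3| * h) ^ 2 := by
        rw [← Real.exp_nat_mul]; norm_num
      rw [e5, ← mul_pow] at h2
      exact le_of_sq_le_sq h2 (by positivity)
    have h4 : 0 < ‖Φ (1 / 2 + (x : ℂ) + h)‖ :=
      norm_pos_iff.2 (hne x (by simp; linarith))
    show ‖f x‖ ≤ Real.exp (2 * |C3| * h)
    rw [hf]
    simp only
    rw [norm_div, div_le_iff₀ h4, mul_comm]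
    exact h3
  have him : ∀ y : ℝ, ‖f (y * Complex.I)‖ ≤ 1 := by
    intro y
    have h1 := hΦ.symm (1 / 2 + y * Complex.I - h)
    have h2 : 1 - conj (1 / 2 + (y : ℂ) * Complex.I - h) = 1 / 2 + y * Complex.I + h := by
      rw [map_sub, map_add, map_mul, Complex.conj_I, Complex.conj_ofReal, Complex.conj_ofReal,
        map_div₀, map_one, map_ofNat]
      ring
    rw [h2] at h1
    have h3 : 0 < ‖Φ (1 / 2 + y * Complex.I + h)‖ :=
      norm_pos_iff.2 (hne _ (by simp))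
    rw [hf]
    simp only
    rw [norm_div, div_le_one h3, h1]
  have hfin := PhragmenLindelof.right_half_plane_of_bounded_on_real hdiff hexp hre him
    (z := s - 1 / 2) (by simp; norm_num; linarith)
  have h1 : 0 < ‖Φ (1 / 2 + (s - 1 / 2) + h)‖ :=
    norm_pos_iff.2 (hne _ (by simp; norm_num; linarith))
  rw [hf] at hfin
  simp only at hfin
  rw [norm_div, div_le_one h1] at hfin
  have e1 : 1 / 2 + (s - 1 / 2) - h = s - h := by ring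
  have e2 : 1 / 2 + (s - 1 / 2) + h = s + h := by ring
  rw [e1, e2] at hfin
  exact hfin

end POSp

/-- POS. -/
theorem stmt_POS (hL : Stmt_LOWB) : Stmt_POS := by
  intro Φ hΦ s hs
  have h0 : Φ (s + (0 : ℝ)) ≠ 0 := by
    rw [Complex.ofReal_zero, add_zero]
    exact hΦ.ne s hs
  have h1 := POSp.hasDeriv_normSq hΦ.diff s 0 h0
  have h2 : HasDerivAt (fun t : ℝ => ‖Φ (s + t)‖ ^ 2 - ‖Φ (s + ((-t : ℝ) : ℂ))‖ ^ 2)
      (2 * ((logDeriv Φ (s + (0 : ℝ))).re * ‖Φ (s + (0 : ℝ))‖ ^ 2)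
        - -(2 * ((logDeriv Φ (s + (0 : ℝ))).re * ‖Φ (s + (0 : ℝ))‖ ^ 2))) 0 := by
    have h3 : HasDerivAt (fun t : ℝ => ‖Φ (s + ((-t : ℝ) : ℂ))‖ ^ 2)
        (-(2 * ((logDeriv Φ (s + (0 : ℝ))).re * ‖Φ (s + (0 : ℝ))‖ ^ 2))) 0 := by
      have h4 : HasDerivAt (fun t : ℝ => -t) (-1) (0 : ℝ) := hasDerivAt_neg 0
      have h5 : HasDerivAt (fun t : ℝ => ‖Φ (s + t)‖ ^ 2)
          (2 * ((logDeriv Φ (s + (0 : ℝ))).re * ‖Φ (s + (0 : ℝ))‖ ^ 2)) (-(0 : ℝ)) := by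
        rw [neg_zero]; exact h1
      have h6 := h5.comp (0 : ℝ) h4
      simpa [Function.comp_def] using h6
    exact h1.sub h3
  have h3 := (hasDerivAt_iff_tendsto_slope_zero.1 h2).mono_left
    (nhdsWithin_mono (0 : ℝ) (fun t (ht : t ∈ Set.Ioi (0 : ℝ)) => ne_of_gt ht))
  have h4 : 0 ≤ 2 * ((logDeriv Φ (s + (0 : ℝ))).re * ‖Φ (s + (0 : ℝ))‖ ^ 2)
        - -(2 * ((logDeriv Φ (s + (0 : ℝ))).re * ‖Φ (s + (0 : ℝ))‖ ^ 2)) := by
    refine ge_of_tendsto h3 ?_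
    filter_upwards [Ioo_mem_nhdsGT (show (0 : ℝ) < 1 / 8 by norm_num)] with t ht
    have h5 := POSp.shift_le hL hΦ ht.1 ht.2.le hs.le
    have h6 : ‖Φ (s + ((-t : ℝ) : ℂ))‖ ^ 2 ≤ ‖Φ (s + t)‖ ^ 2 := by
      have e : s + ((-t : ℝ) : ℂ) = s - t := by push_cast; ring
      rw [e]
      gcongr
    have h7 : 0 < t⁻¹ := inv_pos.2 ht.1
    simp only [zero_add, smul_eq_mul, neg_zero, Complex.ofReal_zero, add_zero, sub_self, sub_zero]
    exact mul_nonneg h7.le (by linarith)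
  rw [Complex.ofReal_zero, add_zero] at h4 h0
  have h5 : 0 < ‖Φ s‖ ^ 2 := by
    have := norm_pos_iff.2 h0
    positivity
  nlinarith [h4, h5]

end Pool.Agent.AQ
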