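import Mathlib
import Pool.Agent.Work.MP_99218a_nt.InterfaceB
import Pool.Agent.Work.PS.PAIR
import Pool.Agent.Work.PS.LOW1

set_option autoImplicit false

namespace Pool.Agent.AQ

open Filter Topology

namespace PRP

/-! ### Divisor sums -/

theorem card_coprime_range (m d : ℕ) :
    ((Finset.range (d * m)).filter fun x => m.Coprime x).card = d * m.totient := by
  induction d with
  | zero => simp
  | succ d ih =>
    have h1 : Finset.range ((d + 1) * m) = Finset.range (d * m) ∪ Finset.Ico (d * m) (d * m + m) := by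
      ext x
      simp only [Finset.mem_range, Finset.mem_union, Finset.mem_Ico]
      constructor
      · intro h
        rcases lt_or_ge x (d * m) with h2 | h2
        · exact Or.inl h2
        · exact Or.inr ⟨h2, by nlinarith⟩
      · rintro (h | ⟨_, h⟩)
        · nlinarith
        · nlinarith
    have h2 : Disjoint ((Finset.range (d * m)).filter fun x => m.Coprime x)
        ((Finset.Ico (d * m) (d * m + m)).filter fun x => m.Coprime x) := by
      refine Finset.disjoint_left.2 fun x hx hx' => ?_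
      simp only [Finset.mem_filter, Finset.mem_range, Finset.mem_Ico] at hx hx'
      omega
    rw [h1, Finset.filter_union, Finset.card_union_of_disjoint h2, ih,
      Nat.filter_coprime_Ico_eq_totient]
    ring

theorem totient_mul_le (d m : ℕ) : (d * m).totient ≤ d * m.totient := by
  rw [← card_coprime_range, Nat.totient_eq_card_coprime]
  refine Finset.card_le_card fun x hx => ?_
  rw [Finset.mem_filter] at hx ⊢
  exact ⟨hx.1, Nat.Coprime.coprime_dvd_left (dvd_mul_left m d) hx.2⟩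

/-- `∑_{d | n} 1/d`. -/
noncomputable def SD (n : ℕ) : ℝ := ∑ d ∈ n.divisors, (1 : ℝ) / d

theorem SD_nonneg (n : ℕ) : 0 ≤ SD n := Finset.sum_nonneg fun _ _ => by positivity

theorem SD_mul_totient_le (n : ℕ) : SD n * n.totient ≤ n := by
  have h1 : ∀ d ∈ n.divisors, (1 : ℝ) / d * n.totient ≤ ((n / d).totient : ℝ) := by
    intro d hd
    obtain ⟨m, hm⟩ := Nat.dvd_of_mem_divisors hd
    have hd0 : 0 < d := Nat.pos_of_mem_divisors hd
    have h2 : n / d = m := by rw [hm, Nat.mul_div_cancel_left _ hd0]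
    rw [h2, hm]
    have h3 : ((d * m).totient : ℝ) ≤ d * m.totient := by exact_mod_cast totient_mul_le d m
    have hd1 : (0 : ℝ) < d := by exact_mod_cast hd0
    rw [div_mul_eq_mul_div, one_mul, div_le_iff₀ hd1]
    linarith
  have h2 : ∑ d ∈ n.divisors, ((n / d).totient : ℝ) = n := by
    have h3 : ∑ d ∈ n.divisors, (n / d).totient = n := by
      rw [Nat.sum_div_divisors n fun x => x.totient]
      exact Nat.sum_totient n
    exact_mod_cast h3
  rw [SD, Finset.sum_mul]
  exact (Finset.sum_le_sum h1).trans h2.le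

theorem SD_mul_le (k q : ℕ) : SD (k * q) ≤ SD k * SD q := by
  rw [SD, SD, SD, Finset.sum_mul_sum, ← Finset.sum_product']
  rcases Nat.eq_zero_or_pos (k * q) with h0 | h0
  · rw [h0]
    simp only [Nat.divisors_zero, Finset.sum_empty]
    exact Finset.sum_nonneg fun _ _ => by positivity
  have hk : k ≠ 0 := by rintro rfl; simp at h0
  have hq : q ≠ 0 := by rintro rfl; simp at h0
  have h1 : (k * q).divisors = (k.divisors ×ˢ q.divisors).image fun x => x.1 * x.2 := by
    ext d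
    simp only [Finset.mem_image, Finset.mem_product, Nat.mem_divisors]
    constructor
    · rintro ⟨hd, -⟩
      obtain ⟨a, b, ha, hb, rfl⟩ := (Nat.dvd_mul).1 hd
      exact ⟨(a, b), ⟨⟨ha, hk⟩, hb, hq⟩, rfl⟩
    · rintro ⟨⟨a, b⟩, ⟨⟨ha, _⟩, hb, _⟩, rfl⟩
      exact ⟨mul_dvd_mul ha hb, h0.ne'⟩
  rw [h1]
  refine (Finset.sum_image_le_of_nonneg ?_).trans (le_of_eq ?_)
  · intro x _
    positivity
  · refine Finset.sum_congr rfl fun x _ => ?_
    push_cast
    rw [div_mul_div_comm, one_mul]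

theorem sum_SD_le (K : ℕ) : ∑ k ∈ Finset.Icc 1 K, SD k ≤ 2 * K := by
  have h1 : ∀ k ∈ Finset.Icc 1 K, SD k
      = ∑ d ∈ Finset.Icc 1 K, if d ∣ k then (1 : ℝ) / d else 0 := by
    intro k hk
    rw [Finset.mem_Icc] at hk
    rw [SD, ← Finset.sum_filter]
    refine Finset.sum_congr ?_ fun _ _ => rfl
    ext d
    simp only [Nat.mem_divisors, Finset.mem_filter, Finset.mem_Icc]
    constructor
    · rintro ⟨h, h'⟩
      exact ⟨⟨Nat.pos_of_dvd_of_pos h (by omega), (Nat.le_of_dvd (by omega) h).trans hk.2⟩, h⟩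
    · rintro ⟨_, h⟩
      exact ⟨h, by omega⟩
  rw [Finset.sum_congr rfl h1, Finset.sum_comm]
  have h2 : ∀ d ∈ Finset.Icc 1 K, ∑ k ∈ Finset.Icc 1 K, (if d ∣ k then (1 : ℝ) / d else 0)
      ≤ K * (1 / (d : ℝ) ^ 2) := by
    intro d hd
    rw [Finset.mem_Icc] at hd
    have hd0 : (0 : ℝ) < d := by exact_mod_cast hd.1
    rw [← Finset.sum_filter, Finset.sum_const, nsmul_eq_mul]
    have h3 : ((Finset.Icc 1 K).filter fun k => d ∣ k).card = K / d := by
      rw [← Nat.Ioc_filter_dvd_card_eq_div]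
      congr 1
    rw [h3]
    have h4 : ((K / d : ℕ) : ℝ) ≤ K / d := Nat.cast_div_le
    calc ((K / d : ℕ) : ℝ) * (1 / d) ≤ (K / d : ℝ) * (1 / d) :=
          mul_le_mul_of_nonneg_right h4 (by positivity)
      _ = K * (1 / (d : ℝ) ^ 2) := by
          field_simp
  refine (Finset.sum_le_sum h2).trans ?_
  rw [← Finset.mul_sum]
  have h3 : ∀ K : ℕ, ∑ d ∈ Finset.Icc 1 (K + 1), 1 / (d : ℝ) ^ 2 ≤ 2 - 1 / (K + 1 : ℝ) := by
    intro K
    induction K with
    | zero => norm_num
    | succ n ih =>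
      rw [Finset.sum_Icc_succ_top (by omega)]
      push_cast
      have hn : (0 : ℝ) ≤ n := Nat.cast_nonneg n
      have h4 : 1 / ((n : ℝ) + 1 + 1) ^ 2 ≤ 1 / ((n : ℝ) + 1) - 1 / ((n : ℝ) + 1 + 1) := by
        rw [div_sub_div _ _ (by positivity) (by positivity), div_le_div_iff₀ (by positivity)
          (by positivity)]
        nlinarith
      linarith
  have hK0 : (0 : ℝ) ≤ K := Nat.cast_nonneg K
  rcases Nat.eq_zero_or_pos K with h0 | h0
  · subst h0
    simp
  · obtain ⟨n, rfl⟩ : ∃ n, K = n + 1 := ⟨K - 1, by omega⟩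
    have h5 := h3 n
    have h6 : (0 : ℝ) ≤ 1 / (n + 1 : ℝ) := by positivity
    have h7 := mul_le_mul_of_nonneg_left (h5.trans (sub_le_self _ h6)) hK0
    linarith

/-! ### Collisions -/

theorem coll_le (q N : ℕ) (hq : 0 < q) (P : Finset ℕ) (hP : ∀ p ∈ P, 0 < p ∧ p ≤ N) :
    (((P ×ˢ P).filter fun x => (x.1 : ZMod q) = (x.2 : ZMod q)).card : ℝ)
      ≤ P.card + 2 * ∑ k ∈ Finset.Icc 1 (N / q), ((P.filter fun p => p + k * q ∈ P).card : ℝ) := by
  classical
  set U := (P ×ˢ P).filter fun x => (x.1 : ZMod q) = (x.2 : ZMod q) ∧ x.1 < x.2 with hU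
  have h1 : ((P ×ˢ P).filter fun x => (x.1 : ZMod q) = (x.2 : ZMod q))
      ⊆ (P.image fun p => (p, p)) ∪ (U ∪ U.image Prod.swap) := by
    rintro ⟨x, y⟩ hx
    rw [Finset.mem_filter, Finset.mem_product] at hx
    obtain ⟨⟨hx1, hy1⟩, he⟩ := hx
    simp only at hx1 hy1 he
    rw [Finset.mem_union, Finset.mem_union]
    rcases lt_trichotomy x y with h | h | h
    · exact Or.inr (Or.inl (Finset.mem_filter.2 ⟨Finset.mem_product.2 ⟨hx1, hy1⟩, he, h⟩))
    · subst h
      exact Or.inl (Finset.mem_image.2 ⟨x, hx1, rfl⟩)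
    · exact Or.inr (Or.inr (Finset.mem_image.2 ⟨(y, x),
        Finset.mem_filter.2 ⟨Finset.mem_product.2 ⟨hy1, hx1⟩, he.symm, h⟩, rfl⟩))
  have h2 : U ⊆ (Finset.Icc 1 (N / q)).biUnion
      fun k => (P.filter fun p => p + k * q ∈ P).image fun p => (p, p + k * q) := by
    rintro ⟨x, y⟩ hx
    rw [hU, Finset.mem_filter, Finset.mem_product] at hx
    obtain ⟨⟨hx1, hy1⟩, he, hlt⟩ := hx
    simp only at hx1 hy1 he hlt
    have h3 : x ≡ y [MOD q] := (ZMod.natCast_eq_natCast_iff x y q).1 he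
    obtain ⟨k, hk⟩ := (Nat.modEq_iff_dvd' hlt.le).1 h3
    have hy : y = x + k * q := by
      have : y = x + (y - x) := by omega
      rw [this, hk, mul_comm]
    have hk1 : 1 ≤ k := by
      rcases Nat.eq_zero_or_pos k with h0 | h0
      · rw [h0] at hy
        omega
      · exact h0
    have hk2 : k ≤ N / q := by
      rw [Nat.le_div_iff_mul_le hq]
      have := (hP y hy1).2
      omega
    rw [Finset.mem_biUnion]
    refine ⟨k, Finset.mem_Icc.2 ⟨hk1, hk2⟩, Finset.mem_image.2 ⟨x, Finset.mem_filter.2 ⟨hx1, ?_⟩, ?_⟩⟩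
    · rw [← hy]
      exact hy1
    · rw [← hy]
  have h3 : U.card ≤ ∑ k ∈ Finset.Icc 1 (N / q), (P.filter fun p => p + k * q ∈ P).card :=
    (Finset.card_le_card h2).trans (Finset.card_biUnion_le.trans
      (Finset.sum_le_sum fun _ _ => Finset.card_image_le))
  have h4 := Finset.card_le_card h1
  have h5 := Finset.card_union_le (P.image fun p => (p, p)) (U ∪ U.image Prod.swap)
  have h6 := Finset.card_union_le U (U.image Prod.swap)
  have h7 : (P.image fun p => (p, p)).card ≤ P.card := Finset.card_image_le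
  have h8 : (U.image Prod.swap).card ≤ U.card := Finset.card_image_le
  have h9 : ((P ×ˢ P).filter fun x => (x.1 : ZMod q) = (x.2 : ZMod q)).card
      ≤ P.card + 2 * ∑ k ∈ Finset.Icc 1 (N / q), (P.filter fun p => p + k * q ∈ P).card := by
    omega
  exact_mod_cast h9

theorem cauchy (q : ℕ) (P : Finset ℕ) :
    (P.card : ℝ) ^ 2 ≤ ((P.image fun p : ℕ => (p : ZMod q)).card : ℝ)
      * (((P ×ˢ P).filter fun x => (x.1 : ZMod q) = (x.2 : ZMod q)).card : ℝ) := by
  classical
  set I := P.image fun p : ℕ => (p : ZMod q) with hI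
  have h1 : P.card = ∑ a ∈ I, (P.filter fun p : ℕ => (p : ZMod q) = a).card :=
    Finset.card_eq_sum_card_image _ _
  have h2 : ((P ×ˢ P).filter fun x => (x.1 : ZMod q) = (x.2 : ZMod q)).card
      = ∑ a ∈ I, (P.filter fun p : ℕ => (p : ZMod q) = a).card ^ 2 := by
    rw [Finset.card_eq_sum_card_fiberwise (f := fun x : ℕ × ℕ => (x.1 : ZMod q)) (t := I)]
    · refine Finset.sum_congr rfl fun a _ => ?_
      rw [sq, ← Finset.card_product]
      congr 1
      ext ⟨x, y⟩
      simp only [Finset.mem_filter, Finset.mem_product]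
      constructor
      · rintro ⟨⟨⟨h1, h2⟩, h3⟩, h4⟩
        exact ⟨⟨h1, h4⟩, h2, h3 ▸ h4⟩
      · rintro ⟨⟨h1, h4⟩, h2, h3⟩
        exact ⟨⟨⟨h1, h2⟩, h4.trans h3.symm⟩, h4⟩
    · rintro ⟨x, y⟩ hx
      rw [Finset.mem_coe, Finset.mem_filter, Finset.mem_product] at hx
      exact Finset.mem_coe.2 (Finset.mem_image.2 ⟨x, hx.1.1, rfl⟩)
  rw [h1, h2]
  push_cast
  exact sq_sum_le_card_mul_sum_sq

theorem pair_le : ∃ C : ℝ, 0 < C ∧ ∀ (N h : ℕ) (P : Finset ℕ), 2 ≤ N → 0 < h →
    (∀ p ∈ P, p.Prime ∧ p ≤ N) →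
    ((P.filter fun p => p + h ∈ P).card : ℝ) ≤ C * (N / (Real.log N) ^ 2) * SD h + 1 := by
  obtain ⟨C, hC, H⟩ := PS.stmt_PAIR
  refine ⟨C, hC, fun N h P hN hh hP => ?_⟩
  have hS := SD_nonneg h
  rcases Nat.even_or_odd h with he | ho
  · have h1 := H 0 N h hN hh he
    have h2 : ((P.filter fun p => p + h ∈ P).card : ℝ)
        ≤ (((Finset.Ioc 0 (0 + N)).filter fun x => x.Prime ∧ (x + h).Prime).card : ℝ) := by
      refine Nat.cast_le.2 (Finset.card_le_card fun p hp => ?_)
      rw [Finset.mem_filter] at hp ⊢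
      exact ⟨Finset.mem_Ioc.2 ⟨(hP p hp.1).1.pos, by simpa using (hP p hp.1).2⟩, (hP p hp.1).1,
        (hP _ hp.2).1⟩
    have h3 := h2.trans h1
    exact h3.trans (le_add_of_nonneg_right zero_le_one)
  · have h2 : (P.filter fun p => p + h ∈ P).card ≤ 1 := by
      refine Finset.card_le_one.2 fun p hp p' hp' => ?_
      have key : ∀ p ∈ P.filter (fun p => p + h ∈ P), p = 2 := by
        intro p hp
        rw [Finset.mem_filter] at hp
        rcases (hP p hp.1).1.eq_two_or_odd' with h2 | h2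
        · exact h2
        · exfalso
          have h3 : Even (p + h) := h2.add_odd ho
          have h4 := ((hP _ hp.2).1.even_iff).1 h3
          have h5 := (hP p hp.1).1.two_le
          omega
      rw [key p hp, key p' hp']
    have h3 : ((P.filter fun p => p + h ∈ P).card : ℝ) ≤ 1 := by exact_mod_cast h2
    have h4 : 0 ≤ C * (N / (Real.log N) ^ 2) * SD h := by positivity
    linarith

/-! ### The parameters -/

theorem params (κ : ℝ) (hκ : 0 < κ) : ∃ q0 : ℕ, ∀ q : ℕ, q0 ≤ q →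
    400 ≤ q ∧ 4 ≤ κ * Real.log q ∧ Real.log q ≤ κ ^ 2 / 2048 * q.totient ∧
    √(q : ℝ) ≤ κ * q.totient * Real.log q / 2 := by
  have h1 : ∀ᶠ x : ℝ in atTop, ‖Real.log x‖ ≤ κ ^ 2 / 4096 * ‖x ^ (1 / 4 : ℝ)‖ :=
    (isLittleO_log_rpow_atTop (by norm_num : (0 : ℝ) < 1 / 4)).def (by positivity)
  have h2 : ∀ᶠ x : ℝ in atTop, 4 / κ ≤ Real.log x := Real.tendsto_log_atTop.eventually_ge_atTop _
  have h3 : ∀ᶠ x : ℝ in atTop, (400 : ℝ) ≤ x := eventually_ge_atTop _
  have h4 := (tendsto_natCast_atTop_atTop (R := ℝ)).eventually ((h1.and h2).and h3)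
  obtain ⟨q0, hq0⟩ := eventually_atTop.1 h4
  refine ⟨q0, fun q hq => ?_⟩
  obtain ⟨⟨a1, a2⟩, a3⟩ := hq0 q hq
  have hq1 : (0 : ℝ) < q := by linarith
  have hqn : 0 < q := by exact_mod_cast hq1
  have hL : 0 ≤ Real.log q := Real.log_nonneg (by linarith)
  set s : ℝ := (q : ℝ) ^ (1 / 4 : ℝ) with hs
  have hs0 : 0 < s := Real.rpow_pos_of_pos hq1 _
  have hs1 : 1 ≤ s := Real.one_le_rpow (by linarith) (by norm_num)
  have hs4 : s ^ 4 = q := by
    rw [hs, ← Real.rpow_natCast, ← Real.rpow_mul hq1.le]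
    norm_num
  rw [Real.norm_of_nonneg hL, Real.norm_of_nonneg hs0.le] at a1
  have hφ0 : (0 : ℝ) ≤ q.totient := Nat.cast_nonneg _
  have b1 : (q : ℝ) ^ 3 ≤ 16 * (q.totient : ℝ) ^ 4 := by
    exact_mod_cast PS.LOW.cube_le_totient q hqn
  have b2 : s ^ 3 ≤ 2 * q.totient := by
    have : (s ^ 3) ^ 4 ≤ (2 * (q.totient : ℝ)) ^ 4 := by
      calc (s ^ 3) ^ 4 = (s ^ 4) ^ 3 := by ring
        _ = (q : ℝ) ^ 3 := by rw [hs4]
        _ ≤ 16 * (q.totient : ℝ) ^ 4 := b1
        _ = _ := by ring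
    exact (pow_le_pow_iff_left₀ (by positivity) (by positivity) (by norm_num)).1 this
  have b3 : s ≤ s ^ 3 := by nlinarith [mul_pos hs0 hs0, sq_nonneg (s - 1)]
  have b4 : s ^ 2 ≤ s ^ 3 := by nlinarith [mul_pos hs0 hs0]
  have b5 : 4 ≤ κ * Real.log q := by
    rw [div_le_iff₀ hκ] at a2
    linarith
  refine ⟨by exact_mod_cast a3, b5, ?_, ?_⟩
  · have : κ ^ 2 / 4096 * s ≤ κ ^ 2 / 4096 * (2 * q.totient) :=
      mul_le_mul_of_nonneg_left (b3.trans b2) (by positivity)
    linarith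
  · have c1 : √(q : ℝ) = s ^ 2 := by
      rw [← hs4, show s ^ 4 = (s ^ 2) ^ 2 by ring, Real.sqrt_sq (by positivity)]
    rw [c1]
    have c2 : (q.totient : ℝ) * 4 ≤ q.totient * (κ * Real.log q) :=
      mul_le_mul_of_nonneg_left b5 hφ0
    nlinarith

theorem omega_le (q : ℕ) (hq : 0 < q) : (q.primeFactors.card : ℝ) ≤ 2 * Real.log q := by
  have h1 : 2 ^ q.primeFactors.card ≤ q := by
    calc 2 ^ q.primeFactors.card ≤ ∏ p ∈ q.primeFactors, p :=
          Finset.pow_card_le_prod _ _ _ fun p hp => (Nat.prime_of_mem_primeFactors hp).two_le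
      _ ≤ q := Nat.le_of_dvd hq (Nat.prod_primeFactors_dvd q)
  have h2 : ((2 : ℝ) ^ q.primeFactors.card) ≤ q := by exact_mod_cast h1
  have h3 := Real.log_le_log (by positivity) h2
  rw [Real.log_pow] at h3
  have h4 := Real.log_two_gt_d9
  have h5 : (0 : ℝ) ≤ q.primeFactors.card := Nat.cast_nonneg _
  nlinarith

theorem pi_lower (N : ℕ) (hN : 20 ≤ N) : (N : ℝ) / (2 * Real.log N) ≤ Nat.primeCounting N := by
  have h1 := Chebyshev.pi_ge N
  have hN' : (20 : ℝ) ≤ N := by exact_mod_cast hN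
  have hl : 0 < Real.log N := Real.log_pos (by linarith)
  refine le_trans ?_ h1
  rw [div_le_div_iff₀ (by positivity) hl]
  have h2 : Real.log (N + 1) ≤ (N + 1) / 16 + 4 * Real.log 2 - 1 := by
    have h3 := Real.log_le_sub_one_of_pos (show (0 : ℝ) < (N + 1) / 16 by positivity)
    rw [Real.log_div (by positivity) (by norm_num),
      show (16 : ℝ) = 2 ^ 4 by norm_num, Real.log_pow] at h3
    push_cast at h3
    linarith
  have h4 := Real.log_two_gt_d9
  have h5 := Real.log_two_lt_d9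
  have h6 : (N : ℝ) / 2 ≤ N * Real.log 2 - Real.log (N + 1) := by nlinarith
  nlinarith

end PRP

open PRP in
theorem stmt_PRP : Stmt_PRP := by
  intro κ hκ
  obtain ⟨C, hC, hpair⟩ := pair_le
  set κ1 : ℝ := min (κ / 4) 1 with hκ1
  have hk0 : 0 < κ1 := lt_min (by positivity) zero_lt_one
  have hk1 : κ1 ≤ 1 := min_le_right _ _
  have hk4 : κ1 ≤ κ / 4 := min_le_left _ _
  obtain ⟨q0, hq0⟩ := params κ1 hk0
  refine ⟨κ1 / (256 * (9 + 64 * C)), by positivity, q0, fun q hq => ?_⟩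
  obtain ⟨hq400, h4, hL, hX⟩ := hq0 q hq
  have hqn : 0 < q := by omega
  have : NeZero q := ⟨hqn.ne'⟩
  have hqr : (400 : ℝ) ≤ q := by exact_mod_cast hq400
  set φ : ℝ := (q.totient : ℝ) with hφ
  set L : ℝ := Real.log q with hLd
  have hφ0 : 0 < φ := by
    rw [hφ]
    exact_mod_cast Nat.totient_pos.2 hqn
  have hφq : φ ≤ q := by
    rw [hφ]
    exact_mod_cast Nat.totient_le q
  have hL4 : 4 ≤ L := by nlinarith [Real.log_nonneg (show (1 : ℝ) ≤ q by linarith)]
  have hLφ : L ≤ κ1 * φ / 2048 := by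
    have : κ1 ^ 2 / 2048 * φ ≤ κ1 * φ / 2048 := by
      have : κ1 ^ 2 ≤ κ1 := by nlinarith
      nlinarith
    linarith
  have hLq : L ≤ q := by
    have : κ1 * φ / 2048 ≤ φ := by nlinarith
    linarith
  set X : ℝ := κ1 * φ * L with hXd
  have hX0 : 0 < X := by positivity
  have hsq : (20 : ℝ) ≤ √(q : ℝ) := by
    rw [show (20 : ℝ) = √400 by rw [show (400 : ℝ) = 20 ^ 2 by norm_num, Real.sqrt_sq (by norm_num)]]
    exact Real.sqrt_le_sqrt hqr
  set N : ℕ := ⌊X⌋₊ with hNd
  have hNX : (N : ℝ) ≤ X := Nat.floor_le hX0.le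
  have hXN : X < N + 1 := Nat.lt_floor_add_one X
  have hN2 : X / 2 ≤ N := by linarith
  have hNs : √(q : ℝ) ≤ N := by linarith
  have hN20 : 20 ≤ N := by exact_mod_cast hsq.trans hNs
  have hN0 : (0 : ℝ) < N := by linarith
  have hlogN : L / 2 ≤ Real.log N := by
    have := Real.log_le_log (by positivity) hNs
    rwa [Real.log_sqrt (by linarith)] at this
  have hlogX : Real.log N ≤ Real.log X := Real.log_le_log hN0 hNX
  have hX2 : X ≤ (q : ℝ) ^ 2 := by
    have h1 : κ1 * φ ≤ q := by nlinarith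
    calc X = κ1 * φ * L := rfl
      _ ≤ q * q := mul_le_mul h1 hLq (by linarith) (by linarith)
      _ = _ := by ring
  have hlogX2 : Real.log X ≤ 2 * L := by
    have := Real.log_le_log hX0 hX2
    rwa [Real.log_pow, Nat.cast_ofNat] at this
  have hsX : √X ≤ κ1 * φ / 45 := by
    rw [show κ1 * φ / 45 = √((κ1 * φ / 45) ^ 2) by rw [Real.sqrt_sq (by positivity)]]
    apply Real.sqrt_le_sqrt
    calc X = κ1 * φ * L := rfl
      _ ≤ κ1 * φ * (κ1 * φ / 2048) := mul_le_mul_of_nonneg_left hLφ (by positivity)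
      _ ≤ _ := by nlinarith [sq_nonneg (κ1 * φ)]
  classical
  set P : Finset ℕ := (Finset.Ioc (Nat.sqrt N) N).filter fun p => p.Prime ∧ ¬ p ∣ q with hP
  -- lower bound
  have hlow : κ1 * φ / 16 ≤ (P.card : ℝ) := by
    have h1 : Nat.primesLE N ⊆ Finset.range (Nat.sqrt N + 1) ∪ (P ∪ q.primeFactors) := by
      intro p hp
      rw [Nat.mem_primesLE] at hp
      rw [Finset.mem_union, Finset.mem_union, Finset.mem_range, hP, Finset.mem_filter,
        Finset.mem_Ioc, Nat.mem_primeFactors]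
      by_cases a1 : p ≤ Nat.sqrt N
      · exact Or.inl (by omega)
      · by_cases a2 : p ∣ q
        · exact Or.inr (Or.inr ⟨hp.2, a2, hqn.ne'⟩)
        · exact Or.inr (Or.inl ⟨⟨by omega, hp.1⟩, hp.2, a2⟩)
    have h2 := Finset.card_le_card h1
    have h3 := Finset.card_union_le (Finset.range (Nat.sqrt N + 1)) (P ∪ q.primeFactors)
    have h4' := Finset.card_union_le P q.primeFactors
    rw [Finset.card_range] at h3
    have h5 : (Nat.primesLE N).card = Nat.primeCounting N := by simp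
    have h6 : (Nat.primeCounting N : ℝ) ≤ (Nat.sqrt N : ℝ) + 1 + (P.card + q.primeFactors.card) := by
      have : Nat.primeCounting N ≤ Nat.sqrt N + 1 + (P.card + q.primeFactors.card) := by omega
      exact_mod_cast this
    have h7 := omega_le q hqn
    have h8 : (Nat.sqrt N : ℝ) ≤ √X := Real.nat_sqrt_le_real_sqrt.trans (Real.sqrt_le_sqrt hNX)
    have h9 := pi_lower N hN20
    have h10 : κ1 * φ / 8 ≤ (N : ℝ) / (2 * Real.log N) := by
      rw [le_div_iff₀ (by linarith)]
      calc κ1 * φ / 8 * (2 * Real.log N) ≤ κ1 * φ / 8 * (2 * (2 * L)) := by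
            apply mul_le_mul_of_nonneg_left _ (by positivity)
            linarith
        _ = X / 2 := by rw [hXd]; ring
        _ ≤ N := hN2
    have h11 : (1 : ℝ) ≤ κ1 * φ / 2048 := by linarith
    linarith
  have hup : (P.card : ℝ) ≤ 6 * (κ1 * φ) := by
    have h1 : P ⊆ Nat.primesLE N := by
      intro p hp
      rw [hP, Finset.mem_filter, Finset.mem_Ioc] at hp
      exact Nat.mem_primesLE.2 ⟨hp.1.2, hp.2.1⟩
    have h2 : P.card ≤ Nat.primeCounting N := by
      have := Finset.card_le_card h1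
      simpa using this
    have h3 := Chebyshev.pi_le_log4_mul_div (x := X) (by linarith)
    rw [← hNd, Real.log_sqrt hX0.le] at h3
    have h5 : Real.log 4 ≤ 1.4 := by
      rw [show (4 : ℝ) = 2 ^ 2 by norm_num, Real.log_pow]
      have := Real.log_two_lt_d9
      push_cast
      linarith
    have h6 : Real.log 4 * X / (Real.log X / 2) ≤ 5.6 * (κ1 * φ) := by
      rw [div_le_iff₀ (by linarith)]
      calc Real.log 4 * X ≤ 1.4 * X := mul_le_mul_of_nonneg_right h5 hX0.le
        _ = 5.6 * (κ1 * φ) * (L / 2 / 2) := by rw [hXd]; ring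
        _ ≤ _ := by
          apply mul_le_mul_of_nonneg_left _ (by positivity)
          linarith
    have h7 : (P.card : ℝ) ≤ Nat.primeCounting N := by exact_mod_cast h2
    have h8 : 0 < κ1 * φ := by positivity
    linarith
  -- collisions
  have hcoll : (((P ×ˢ P).filter fun x => (x.1 : ZMod q) = (x.2 : ZMod q)).card : ℝ)
      ≤ (9 + 64 * C) * (κ1 * φ) := by
    have h1 := coll_le q N hqn P fun p hp => by
      rw [hP, Finset.mem_filter, Finset.mem_Ioc] at hp
      exact ⟨hp.2.1.pos, hp.1.2⟩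
    refine h1.trans ?_
    have hKr : ((N / q : ℕ) : ℝ) ≤ X / q :=
      Nat.cast_div_le.trans (div_le_div_of_nonneg_right hNX (by linarith))
    have h2 : ∑ k ∈ Finset.Icc 1 (N / q), ((P.filter fun p => p + k * q ∈ P).card : ℝ)
        ≤ ∑ k ∈ Finset.Icc 1 (N / q), (C * (4 * X / L ^ 2) * (SD k * (q / φ)) + 1) := by
      refine Finset.sum_le_sum fun k hk => ?_
      rw [Finset.mem_Icc] at hk
      refine (hpair N (k * q) P (by omega) (Nat.mul_pos (by omega) hqn) fun p hp => ?_).trans ?_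
      · rw [hP, Finset.mem_filter, Finset.mem_Ioc] at hp
        exact ⟨hp.2.1, hp.1.2⟩
      · have a0 : 0 < Real.log N ^ 2 := pow_pos (by linarith) 2
        have a1 : (N : ℝ) / Real.log N ^ 2 ≤ 4 * X / L ^ 2 := by
          rw [div_le_div_iff₀ a0 (by positivity)]
          have : (L / 2) ^ 2 ≤ Real.log N ^ 2 := pow_le_pow_left₀ (by linarith) hlogN 2
          nlinarith
        have a2 : SD (k * q) ≤ SD k * (q / φ) := by
          refine (SD_mul_le k q).trans (mul_le_mul_of_nonneg_left ?_ (SD_nonneg k))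
          rw [le_div_iff₀ hφ0]
          exact SD_mul_totient_le q
        have a3 := SD_nonneg (k * q)
        have a4 : C * ((N : ℝ) / Real.log N ^ 2) * SD (k * q)
            ≤ C * (4 * X / L ^ 2) * (SD k * (q / φ)) :=
          mul_le_mul (mul_le_mul_of_nonneg_left a1 hC.le) a2 a3 (by positivity)
        linarith
    rw [Finset.sum_add_distrib, ← Finset.mul_sum, ← Finset.sum_mul, Finset.sum_const,
      Nat.card_Icc, Nat.add_sub_cancel, nsmul_eq_mul, mul_one] at h2
    have h3 : C * (4 * X / L ^ 2) * ((∑ k ∈ Finset.Icc 1 (N / q), SD k) * (q / φ))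
        ≤ 8 * C * (κ1 * φ) := by
      have b1 : ∑ k ∈ Finset.Icc 1 (N / q), SD k ≤ 2 * (X / q) := (sum_SD_le _).trans (by linarith)
      calc C * (4 * X / L ^ 2) * ((∑ k ∈ Finset.Icc 1 (N / q), SD k) * (q / φ))
          ≤ C * (4 * X / L ^ 2) * (2 * (X / q) * (q / φ)) := by gcongr
        _ = 8 * C * (κ1 ^ 2 * φ) := by
            rw [hXd]
            field_simp
            ring
        _ ≤ 8 * C * (κ1 * φ) := by
            have : κ1 ^ 2 ≤ κ1 := by nlinarith
            gcongr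
    have h5 : X / q ≤ κ1 * φ := by
      rw [div_le_iff₀ (by linarith)]
      exact mul_le_mul_of_nonneg_left hLq (by positivity)
    have h6 : 0 < κ1 * φ := by positivity
    nlinarith [mul_pos hC h6]
  -- conclusion
  have hcs := cauchy q P
  set I := P.image fun p : ℕ => (p : ZMod q) with hI
  have hcard : (I.card : ℝ) ≤ (Nat.card {a : ZMod q // IsUnit a ∧ ∃ p : ℕ, p.Prime ∧
      (p : ZMod q) = a ∧ (p : ℝ) ≤ κ * Real.log p * q.totient} : ℝ) := by
    have key : ∀ a ∈ I, IsUnit a ∧ ∃ p : ℕ, p.Prime ∧ (p : ZMod q) = a ∧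
        (p : ℝ) ≤ κ * Real.log p * q.totient := by
      intro a ha
      obtain ⟨p, hp, rfl⟩ := Finset.mem_image.1 ha
      rw [hP, Finset.mem_filter, Finset.mem_Ioc] at hp
      obtain ⟨⟨c1, c2⟩, c3, c4⟩ := hp
      refine ⟨(ZMod.isUnit_iff_coprime p q).2 ((Nat.Prime.coprime_iff_not_dvd c3).2 c4), p, c3, rfl, ?_⟩
      have c5 : N < p * p := Nat.sqrt_lt.1 c1
      have c6 : (N : ℝ) + 1 ≤ (p : ℝ) ^ 2 := by
        have : N + 1 ≤ p ^ 2 := by rw [sq]; exact c5
        exact_mod_cast this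
      have c7 := Real.log_le_log hX0 (hXN.le.trans c6)
      rw [Real.log_pow, Nat.cast_ofNat] at c7
      have c8 : L / 4 ≤ Real.log p := by linarith
      calc (p : ℝ) ≤ N := by exact_mod_cast c2
        _ ≤ κ1 * φ * L := hNX
        _ ≤ κ / 4 * φ * L := by gcongr
        _ = κ * (L / 4) * φ := by ring
        _ ≤ κ * Real.log p * φ := by gcongr
    have h1 : Nat.card I ≤ Nat.card {a : ZMod q // IsUnit a ∧ ∃ p : ℕ, p.Prime ∧
        (p : ZMod q) = a ∧ (p : ℝ) ≤ κ * Real.log p * q.totient} :=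
      Nat.card_le_card_of_injective (fun x : I => ⟨x.1, key x.1 x.2⟩) fun x y h => by
        have h' := Subtype.ext_iff.1 h
        exact Subtype.ext h'
    rw [Nat.card_eq_fintype_card, Fintype.card_coe] at h1
    exact_mod_cast h1
  refine le_trans ?_ hcard
  have hI0 : (0 : ℝ) ≤ I.card := Nat.cast_nonneg _
  have h1 : (κ1 * φ / 16) ^ 2 ≤ I.card * ((9 + 64 * C) * (κ1 * φ)) :=
    (pow_le_pow_left₀ (by positivity) hlow 2).trans
      (hcs.trans (mul_le_mul_of_nonneg_left hcoll hI0))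
  have h2 : 0 < κ1 * φ := by positivity
  rw [div_mul_eq_mul_div, div_le_iff₀ (by positivity)]
  have h3 : κ1 * φ * (κ1 * φ) ≤ (I.card * (256 * (9 + 64 * C))) * (κ1 * φ) := by nlinarith
  exact le_of_mul_le_mul_right h3 h2

end Pool.Agent.AQ
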