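import Mathlib
import Pool.Agent.Work.MP_99218a_nt.PRP

/-!
# Exported halves of the block PRP (requested by helper70)
-/

set_option autoImplicit false

namespace Pool.Agent.AQ

open Filter Topology

namespace PRP

/-- Second moment: collisions modulo `q` in a set of primes up to `κ φ(q) log q`. -/
theorem collisions : ∃ C : ℝ, 0 < C ∧ ∀ κ1 : ℝ, 0 < κ1 → κ1 ≤ 1 → ∃ q0 : ℕ, ∀ q : ℕ, q0 ≤ q →
    ∀ P : Finset ℕ, (∀ p ∈ P, p.Prime ∧ (p : ℝ) ≤ κ1 * q.totient * Real.log q) →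
    (((P ×ˢ P).filter fun x => (x.1 : ZMod q) = (x.2 : ZMod q)).card : ℝ)
      ≤ C * (κ1 * q.totient) := by
  obtain ⟨C, hC, hpair⟩ := pair_le
  refine ⟨9 + 64 * C, by positivity, fun κ1 hk0 hk1 => ?_⟩
  obtain ⟨q0, hq0⟩ := params κ1 hk0
  refine ⟨q0, fun q hq P hPX => ?_⟩
  obtain ⟨hq400, h4, hL, hX⟩ := hq0 q hq
  have hqn : 0 < q := by omega
  have : NeZero q := ⟨hqn.ne'⟩
  have hqr : (400 : ℝ) ≤ q := by exact_mod_cast hq400
  set φ : ℝ := (q.totient : ℝ) with hφ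
  set L : ℝ := Real.log q with hLd
  have hφ0 : 0 < φ := by
    rw [hφ]
    exact_mod_cast Nat.totient_pos.2 hqn
  have hφq : φ ≤ q := by
    rw [hφ]
    exact_mod_cast Nat.totient_le q
  have hL4 : 4 ≤ L := by nlinarith [Real.log_nonneg (show (1 : ℝ) ≤ q by linarith)]
  have hLφ : L ≤ κ1 * φ / 2048 := by
    have : κ1 ^ 2 / 2048 * φ ≤ κ1 * φ / 2048 := by
      have : κ1 ^ 2 ≤ κ1 := by nlinarith
      nlinarith
    linarith
  have hLq : L ≤ q := by
    have : κ1 * φ / 2048 ≤ φ := by nlinarith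
    linarith
  set X : ℝ := κ1 * φ * L with hXd
  have hX0 : 0 < X := by positivity
  have hsq : (20 : ℝ) ≤ √(q : ℝ) := by
    rw [show (20 : ℝ) = √400 by rw [show (400 : ℝ) = 20 ^ 2 by norm_num, Real.sqrt_sq (by norm_num)]]
    exact Real.sqrt_le_sqrt hqr
  set N : ℕ := ⌊X⌋₊ with hNd
  have hNX : (N : ℝ) ≤ X := Nat.floor_le hX0.le
  have hXN : X < N + 1 := Nat.lt_floor_add_one X
  have hN2 : X / 2 ≤ N := by linarith
  have hNs : √(q : ℝ) ≤ N := by linarith
  have hN20 : 20 ≤ N := by exact_mod_cast hsq.trans hNs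
  have hN0 : (0 : ℝ) < N := by linarith
  have hlogN : L / 2 ≤ Real.log N := by
    have := Real.log_le_log (by positivity) hNs
    rwa [Real.log_sqrt (by linarith)] at this
  have hlogX : Real.log N ≤ Real.log X := Real.log_le_log hN0 hNX
  have hX2 : X ≤ (q : ℝ) ^ 2 := by
    have h1 : κ1 * φ ≤ q := by nlinarith
    calc X = κ1 * φ * L := rfl
      _ ≤ q * q := mul_le_mul h1 hLq (by linarith) (by linarith)
      _ = _ := by ring
  have hlogX2 : Real.log X ≤ 2 * L := by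
    have := Real.log_le_log hX0 hX2
    rwa [Real.log_pow, Nat.cast_ofNat] at this
  have hsX : √X ≤ κ1 * φ / 45 := by
    rw [show κ1 * φ / 45 = √((κ1 * φ / 45) ^ 2) by rw [Real.sqrt_sq (by positivity)]]
    apply Real.sqrt_le_sqrt
    calc X = κ1 * φ * L := rfl
      _ ≤ κ1 * φ * (κ1 * φ / 2048) := mul_le_mul_of_nonneg_left hLφ (by positivity)
      _ ≤ _ := by nlinarith [sq_nonneg (κ1 * φ)]
  have hPN : ∀ p ∈ P, p.Prime ∧ p ≤ N := fun p hp => ⟨(hPX p hp).1, Nat.le_floor (hPX p hp).2⟩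
  have hup : (P.card : ℝ) ≤ 6 * (κ1 * φ) := by
    have h1 : P ⊆ Nat.primesLE N := by
      intro p hp
      exact Nat.mem_primesLE.2 ⟨(hPN p hp).2, (hPN p hp).1⟩
    have h2 : P.card ≤ Nat.primeCounting N := by
      have := Finset.card_le_card h1
      simpa using this
    have h3 := Chebyshev.pi_le_log4_mul_div (x := X) (by linarith)
    rw [← hNd, Real.log_sqrt hX0.le] at h3
    have h5 : Real.log 4 ≤ 1.4 := by
      rw [show (4 : ℝ) = 2 ^ 2 by norm_num, Real.log_pow]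
      have := Real.log_two_lt_d9
      push_cast
      linarith
    have h6 : Real.log 4 * X / (Real.log X / 2) ≤ 5.6 * (κ1 * φ) := by
      rw [div_le_iff₀ (by linarith)]
      calc Real.log 4 * X ≤ 1.4 * X := mul_le_mul_of_nonneg_right h5 hX0.le
        _ = 5.6 * (κ1 * φ) * (L / 2 / 2) := by rw [hXd]; ring
        _ ≤ _ := by
          apply mul_le_mul_of_nonneg_left _ (by positivity)
          linarith
    have h7 : (P.card : ℝ) ≤ Nat.primeCounting N := by exact_mod_cast h2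
    have h8 : 0 < κ1 * φ := by positivity
    linarith
  have hcoll : (((P ×ˢ P).filter fun x => (x.1 : ZMod q) = (x.2 : ZMod q)).card : ℝ)
      ≤ (9 + 64 * C) * (κ1 * φ) := by
    have h1 := coll_le q N hqn P fun p hp => ⟨(hPN p hp).1.pos, (hPN p hp).2⟩
    refine h1.trans ?_
    have hKr : ((N / q : ℕ) : ℝ) ≤ X / q :=
      Nat.cast_div_le.trans (div_le_div_of_nonneg_right hNX (by linarith))
    have h2 : ∑ k ∈ Finset.Icc 1 (N / q), ((P.filter fun p => p + k * q ∈ P).card : ℝ)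
        ≤ ∑ k ∈ Finset.Icc 1 (N / q), (C * (4 * X / L ^ 2) * (SD k * (q / φ)) + 1) := by
      refine Finset.sum_le_sum fun k hk => ?_
      rw [Finset.mem_Icc] at hk
      refine (hpair N (k * q) P (by omega) (Nat.mul_pos (by omega) hqn) fun p hp => ?_).trans ?_
      · exact hPN p hp
      · have a0 : 0 < Real.log N ^ 2 := pow_pos (by linarith) 2
        have a1 : (N : ℝ) / Real.log N ^ 2 ≤ 4 * X / L ^ 2 := by
          rw [div_le_div_iff₀ a0 (by positivity)]
          have : (L / 2) ^ 2 ≤ Real.log N ^ 2 := pow_le_pow_left₀ (by linarith) hlogN 2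
          nlinarith
        have a2 : SD (k * q) ≤ SD k * (q / φ) := by
          refine (SD_mul_le k q).trans (mul_le_mul_of_nonneg_left ?_ (SD_nonneg k))
          rw [le_div_iff₀ hφ0]
          exact SD_mul_totient_le q
        have a3 := SD_nonneg (k * q)
        have a4 : C * ((N : ℝ) / Real.log N ^ 2) * SD (k * q)
            ≤ C * (4 * X / L ^ 2) * (SD k * (q / φ)) :=
          mul_le_mul (mul_le_mul_of_nonneg_left a1 hC.le) a2 a3 (by positivity)
        linarith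
    rw [Finset.sum_add_distrib, ← Finset.mul_sum, ← Finset.sum_mul, Finset.sum_const,
      Nat.card_Icc, Nat.add_sub_cancel, nsmul_eq_mul, mul_one] at h2
    have h3 : C * (4 * X / L ^ 2) * ((∑ k ∈ Finset.Icc 1 (N / q), SD k) * (q / φ))
        ≤ 8 * C * (κ1 * φ) := by
      have b1 : ∑ k ∈ Finset.Icc 1 (N / q), SD k ≤ 2 * (X / q) := (sum_SD_le _).trans (by linarith)
      calc C * (4 * X / L ^ 2) * ((∑ k ∈ Finset.Icc 1 (N / q), SD k) * (q / φ))
          ≤ C * (4 * X / L ^ 2) * (2 * (X / q) * (q / φ)) := by gcongr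
        _ = 8 * C * (κ1 ^ 2 * φ) := by
            rw [hXd]
            field_simp
            ring
        _ ≤ 8 * C * (κ1 * φ) := by
            have : κ1 ^ 2 ≤ κ1 := by nlinarith
            gcongr
    have h5 : X / q ≤ κ1 * φ := by
      rw [div_le_iff₀ (by linarith)]
      exact mul_le_mul_of_nonneg_left hLq (by positivity)
    have h6 : 0 < κ1 * φ := by positivity
    nlinarith [mul_pos hC h6]
  exact hcoll

/-- Second moment, written with the classes modulo `q`. -/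
theorem second_moment : ∃ C : ℝ, 0 < C ∧ ∀ κ1 : ℝ, 0 < κ1 → κ1 ≤ 1 → ∃ q0 : ℕ,
    ∀ (q : ℕ) [NeZero q], q0 ≤ q →
    ∀ P : Finset ℕ, (∀ p ∈ P, p.Prime ∧ (p : ℝ) ≤ κ1 * q.totient * Real.log q) →
    ∑ a : ZMod q, ((P.filter fun p : ℕ => (p : ZMod q) = a).card : ℝ) ^ 2
      ≤ C * (κ1 * q.totient) := by
  obtain ⟨C, hC, H⟩ := collisions
  refine ⟨C, hC, fun κ1 hk0 hk1 => ?_⟩
  obtain ⟨q0, hq0⟩ := H κ1 hk0 hk1
  refine ⟨q0, fun q _ hq P hP => le_trans (le_of_eq ?_) (hq0 q hq P hP)⟩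
  classical
  have h2 : ((P ×ˢ P).filter fun x => (x.1 : ZMod q) = (x.2 : ZMod q)).card
      = ∑ a : ZMod q, (P.filter fun p : ℕ => (p : ZMod q) = a).card ^ 2 := by
    rw [Finset.card_eq_sum_card_fiberwise (f := fun x : ℕ × ℕ => (x.1 : ZMod q))
      (t := Finset.univ)]
    · refine Finset.sum_congr rfl fun a _ => ?_
      rw [sq, ← Finset.card_product]
      congr 1
      ext ⟨x, y⟩
      simp only [Finset.mem_filter, Finset.mem_product]
      constructor
      · rintro ⟨⟨⟨h1, h2⟩, h3⟩, h4⟩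
        exact ⟨⟨h1, h4⟩, h2, h3 ▸ h4⟩
      · rintro ⟨⟨h1, h4⟩, h2, h3⟩
        exact ⟨⟨⟨h1, h2⟩, h4.trans h3.symm⟩, h4⟩
    · intro x _
      exact Finset.mem_coe.2 (Finset.mem_univ _)
  rw [h2]
  push_cast
  rfl

/-- First moment: primes in `(√N, N]`, `N = ⌊κ φ(q) log q⌋`, not dividing `q`. -/
theorem first_moment (κ1 : ℝ) (hk0 : 0 < κ1) (hk1 : κ1 ≤ 1) : ∃ q0 : ℕ, ∀ q : ℕ, q0 ≤ q →
    κ1 * q.totient / 16 ≤ (((Finset.Ioc (Nat.sqrt ⌊κ1 * (q.totient : ℝ) * Real.log q⌋₊)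
      ⌊κ1 * (q.totient : ℝ) * Real.log q⌋₊).filter fun p => p.Prime ∧ ¬ p ∣ q).card : ℝ) := by
  obtain ⟨q0, hq0⟩ := params κ1 hk0
  refine ⟨q0, fun q hq => ?_⟩
  obtain ⟨hq400, h4, hL, hX⟩ := hq0 q hq
  have hqn : 0 < q := by omega
  have : NeZero q := ⟨hqn.ne'⟩
  have hqr : (400 : ℝ) ≤ q := by exact_mod_cast hq400
  set φ : ℝ := (q.totient : ℝ) with hφ
  set L : ℝ := Real.log q with hLd
  have hφ0 : 0 < φ := by
    rw [hφ]
    exact_mod_cast Nat.totient_pos.2 hqn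
  have hφq : φ ≤ q := by
    rw [hφ]
    exact_mod_cast Nat.totient_le q
  have hL4 : 4 ≤ L := by nlinarith [Real.log_nonneg (show (1 : ℝ) ≤ q by linarith)]
  have hLφ : L ≤ κ1 * φ / 2048 := by
    have : κ1 ^ 2 / 2048 * φ ≤ κ1 * φ / 2048 := by
      have : κ1 ^ 2 ≤ κ1 := by nlinarith
      nlinarith
    linarith
  have hLq : L ≤ q := by
    have : κ1 * φ / 2048 ≤ φ := by nlinarith
    linarith
  set X : ℝ := κ1 * φ * L with hXd
  have hX0 : 0 < X := by positivity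
  have hsq : (20 : ℝ) ≤ √(q : ℝ) := by
    rw [show (20 : ℝ) = √400 by rw [show (400 : ℝ) = 20 ^ 2 by norm_num, Real.sqrt_sq (by norm_num)]]
    exact Real.sqrt_le_sqrt hqr
  set N : ℕ := ⌊X⌋₊ with hNd
  have hNX : (N : ℝ) ≤ X := Nat.floor_le hX0.le
  have hXN : X < N + 1 := Nat.lt_floor_add_one X
  have hN2 : X / 2 ≤ N := by linarith
  have hNs : √(q : ℝ) ≤ N := by linarith
  have hN20 : 20 ≤ N := by exact_mod_cast hsq.trans hNs
  have hN0 : (0 : ℝ) < N := by linarith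
  have hlogN : L / 2 ≤ Real.log N := by
    have := Real.log_le_log (by positivity) hNs
    rwa [Real.log_sqrt (by linarith)] at this
  have hlogX : Real.log N ≤ Real.log X := Real.log_le_log hN0 hNX
  have hX2 : X ≤ (q : ℝ) ^ 2 := by
    have h1 : κ1 * φ ≤ q := by nlinarith
    calc X = κ1 * φ * L := rfl
      _ ≤ q * q := mul_le_mul h1 hLq (by linarith) (by linarith)
      _ = _ := by ring
  have hlogX2 : Real.log X ≤ 2 * L := by
    have := Real.log_le_log hX0 hX2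
    rwa [Real.log_pow, Nat.cast_ofNat] at this
  have hsX : √X ≤ κ1 * φ / 45 := by
    rw [show κ1 * φ / 45 = √((κ1 * φ / 45) ^ 2) by rw [Real.sqrt_sq (by positivity)]]
    apply Real.sqrt_le_sqrt
    calc X = κ1 * φ * L := rfl
      _ ≤ κ1 * φ * (κ1 * φ / 2048) := mul_le_mul_of_nonneg_left hLφ (by positivity)
      _ ≤ _ := by nlinarith [sq_nonneg (κ1 * φ)]
  set P : Finset ℕ := (Finset.Ioc (Nat.sqrt N) N).filter fun p => p.Prime ∧ ¬ p ∣ q with hP
  have hlow : κ1 * φ / 16 ≤ (P.card : ℝ) := by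
    have h1 : Nat.primesLE N ⊆ Finset.range (Nat.sqrt N + 1) ∪ (P ∪ q.primeFactors) := by
      intro p hp
      rw [Nat.mem_primesLE] at hp
      rw [Finset.mem_union, Finset.mem_union, Finset.mem_range, hP, Finset.mem_filter,
        Finset.mem_Ioc, Nat.mem_primeFactors]
      by_cases a1 : p ≤ Nat.sqrt N
      · exact Or.inl (by omega)
      · by_cases a2 : p ∣ q
        · exact Or.inr (Or.inr ⟨hp.2, a2, hqn.ne'⟩)
        · exact Or.inr (Or.inl ⟨⟨by omega, hp.1⟩, hp.2, a2⟩)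
    have h2 := Finset.card_le_card h1
    have h3 := Finset.card_union_le (Finset.range (Nat.sqrt N + 1)) (P ∪ q.primeFactors)
    have h4' := Finset.card_union_le P q.primeFactors
    rw [Finset.card_range] at h3
    have h5 : (Nat.primesLE N).card = Nat.primeCounting N := by simp
    have h6 : (Nat.primeCounting N : ℝ) ≤ (Nat.sqrt N : ℝ) + 1 + (P.card + q.primeFactors.card) := by
      have : Nat.primeCounting N ≤ Nat.sqrt N + 1 + (P.card + q.primeFactors.card) := by omega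
      exact_mod_cast this
    have h7 := omega_le q hqn
    have h8 : (Nat.sqrt N : ℝ) ≤ √X := Real.nat_sqrt_le_real_sqrt.trans (Real.sqrt_le_sqrt hNX)
    have h9 := pi_lower N hN20
    have h10 : κ1 * φ / 8 ≤ (N : ℝ) / (2 * Real.log N) := by
      rw [le_div_iff₀ (by linarith)]
      calc κ1 * φ / 8 * (2 * Real.log N) ≤ κ1 * φ / 8 * (2 * (2 * L)) := by
            apply mul_le_mul_of_nonneg_left _ (by positivity)
            linarith
        _ = X / 2 := by rw [hXd]; ring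
        _ ≤ N := hN2
    have h11 : (1 : ℝ) ≤ κ1 * φ / 2048 := by linarith
    linarith
  exact hlow

/-- From `p ≤ N = ⌊κ φ(q) log q⌋`, `p > √N`, to `p ≤ 4 κ φ(q) log p`. -/
theorem passage (κ1 : ℝ) (hk0 : 0 < κ1) (hk1 : κ1 ≤ 1) : ∃ q0 : ℕ, ∀ q : ℕ, q0 ≤ q →
    ∀ p : ℕ, Nat.sqrt ⌊κ1 * (q.totient : ℝ) * Real.log q⌋₊ < p →
      p ≤ ⌊κ1 * (q.totient : ℝ) * Real.log q⌋₊ →
      Real.log q / 4 ≤ Real.log p ∧ (p : ℝ) ≤ 4 * κ1 * Real.log p * q.totient := by
  obtain ⟨q0, hq0⟩ := params κ1 hk0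
  refine ⟨q0, fun q hq p c1 c2 => ?_⟩
  obtain ⟨hq400, h4, hL, hX⟩ := hq0 q hq
  have hqn : 0 < q := by omega
  have : NeZero q := ⟨hqn.ne'⟩
  have hqr : (400 : ℝ) ≤ q := by exact_mod_cast hq400
  set φ : ℝ := (q.totient : ℝ) with hφ
  set L : ℝ := Real.log q with hLd
  have hφ0 : 0 < φ := by
    rw [hφ]
    exact_mod_cast Nat.totient_pos.2 hqn
  have hφq : φ ≤ q := by
    rw [hφ]
    exact_mod_cast Nat.totient_le q
  have hL4 : 4 ≤ L := by nlinarith [Real.log_nonneg (show (1 : ℝ) ≤ q by linarith)]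
  have hLφ : L ≤ κ1 * φ / 2048 := by
    have : κ1 ^ 2 / 2048 * φ ≤ κ1 * φ / 2048 := by
      have : κ1 ^ 2 ≤ κ1 := by nlinarith
      nlinarith
    linarith
  have hLq : L ≤ q := by
    have : κ1 * φ / 2048 ≤ φ := by nlinarith
    linarith
  set X : ℝ := κ1 * φ * L with hXd
  have hX0 : 0 < X := by positivity
  have hsq : (20 : ℝ) ≤ √(q : ℝ) := by
    rw [show (20 : ℝ) = √400 by rw [show (400 : ℝ) = 20 ^ 2 by norm_num, Real.sqrt_sq (by norm_num)]]
    exact Real.sqrt_le_sqrt hqr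
  set N : ℕ := ⌊X⌋₊ with hNd
  have hNX : (N : ℝ) ≤ X := Nat.floor_le hX0.le
  have hXN : X < N + 1 := Nat.lt_floor_add_one X
  have hN2 : X / 2 ≤ N := by linarith
  have hNs : √(q : ℝ) ≤ N := by linarith
  have hN20 : 20 ≤ N := by exact_mod_cast hsq.trans hNs
  have hN0 : (0 : ℝ) < N := by linarith
  have hlogN : L / 2 ≤ Real.log N := by
    have := Real.log_le_log (by positivity) hNs
    rwa [Real.log_sqrt (by linarith)] at this
  have hlogX : Real.log N ≤ Real.log X := Real.log_le_log hN0 hNX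
  have hX2 : X ≤ (q : ℝ) ^ 2 := by
    have h1 : κ1 * φ ≤ q := by nlinarith
    calc X = κ1 * φ * L := rfl
      _ ≤ q * q := mul_le_mul h1 hLq (by linarith) (by linarith)
      _ = _ := by ring
  have hlogX2 : Real.log X ≤ 2 * L := by
    have := Real.log_le_log hX0 hX2
    rwa [Real.log_pow, Nat.cast_ofNat] at this
  have hsX : √X ≤ κ1 * φ / 45 := by
    rw [show κ1 * φ / 45 = √((κ1 * φ / 45) ^ 2) by rw [Real.sqrt_sq (by positivity)]]
    apply Real.sqrt_le_sqrt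
    calc X = κ1 * φ * L := rfl
      _ ≤ κ1 * φ * (κ1 * φ / 2048) := mul_le_mul_of_nonneg_left hLφ (by positivity)
      _ ≤ _ := by nlinarith [sq_nonneg (κ1 * φ)]
  have c5 : N < p * p := Nat.sqrt_lt.1 c1
  have c6 : (N : ℝ) + 1 ≤ (p : ℝ) ^ 2 := by
    have : N + 1 ≤ p ^ 2 := by rw [sq]; exact c5
    exact_mod_cast this
  have c7 := Real.log_le_log hX0 (hXN.le.trans c6)
  rw [Real.log_pow, Nat.cast_ofNat] at c7
  have c8 : L / 4 ≤ Real.log p := by linarith
  refine ⟨c8, ?_⟩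
  calc (p : ℝ) ≤ N := by exact_mod_cast c2
    _ ≤ κ1 * φ * L := hNX
    _ = 4 * κ1 * (L / 4) * φ := by ring
    _ ≤ 4 * κ1 * Real.log p * φ := by gcongr

end PRP

theorem exp_PRPB : True := trivial

end Pool.Agent.AQ
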