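import Mathlib
import Pool.Agent.Work.MP_99218a_nt.InterfaceC

/-!
# MP_99218a_nt: block PSQ (primes in the classes of squares)
-/

set_option autoImplicit false

namespace Pool.Agent.AQ

open Filter Topology MeasureTheory Finset ArithmeticFunction
open scoped ComplexConjugate Classical

/-- The square classes. -/
noncomputable def Sq (q : ℕ) [NeZero q] : Finset (ZMod q) :=
  univ.filter fun a => IsUnit a ∧ IsSquare a

/-- The characters of order at most two. -/
noncomputable def Q2 (q : ℕ) [NeZero q] : Finset (DirichletCharacter ℂ q) :=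
  univ.filter fun χ => χ ^ 2 = 1

theorem mem_Sq {q : ℕ} [NeZero q] {a : ZMod q} : a ∈ Sq q ↔ IsUnit a ∧ IsSquare a := by
  simp [Sq]

theorem one_mem_Sq (q : ℕ) [NeZero q] : (1 : ZMod q) ∈ Sq q :=
  mem_Sq.mpr ⟨isUnit_one, ⟨1, by simp⟩⟩

theorem sum_Sq (q : ℕ) [NeZero q] (χ : DirichletCharacter ℂ q) :
    ∑ a ∈ Sq q, χ a⁻¹ = if χ ^ 2 = 1 then ((Sq q).card : ℂ) else 0 := by
  split_ifs with h
  · rw [card_eq_sum_ones]
    push_cast
    refine sum_congr rfl fun a ha => ?_
    obtain ⟨hu, b, hb⟩ := mem_Sq.mp ha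
    have hbu : IsUnit b := isUnit_of_mul_isUnit_left (hb ▸ hu)
    have hinv : a⁻¹ * a = 1 := ZMod.inv_mul_of_unit a hu
    have h1 : χ a = 1 := by
      rw [hb, map_mul, ← sq, ← MulChar.pow_apply' χ two_ne_zero, h, MulChar.one_apply hbu]
    have h2 : χ a⁻¹ * χ a = 1 := by rw [← map_mul, hinv, map_one]
    rw [h1, mul_one] at h2
    exact h2
  · have hex : ∃ b : (ZMod q)ˣ, (χ ^ 2) (b : ZMod q) ≠ 1 := by
      by_contra hcon
      push Not at hcon
      apply h
      ext b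
      rw [hcon b, MulChar.one_apply b.isUnit]
    obtain ⟨b, hb⟩ := hex
    set c : ZMod q := (b : ZMod q) * b with hc
    have hcu : IsUnit c := by
      rw [hc]
      exact b.isUnit.mul b.isUnit
    have hχc : χ c ≠ 1 := by
      rw [hc, map_mul, ← sq, ← MulChar.pow_apply' χ two_ne_zero]
      exact hb
    have hcc : c * c⁻¹ = 1 := ZMod.mul_inv_of_unit c hcu
    -- a ↦ c * a
    have hbij : ∑ a ∈ Sq q, χ a⁻¹ = ∑ a ∈ Sq q, χ (c * a)⁻¹ := by
      refine (sum_bij (fun a _ => c * a) ?_ ?_ ?_ ?_).symm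
      · intro a ha
        obtain ⟨hu, d, hd⟩ := mem_Sq.mp ha
        exact mem_Sq.mpr ⟨hcu.mul hu, ⟨b * d, by rw [hd, hc]; ring⟩⟩
      · intro a₁ _ a₂ _ h12
        exact hcu.mul_left_cancel h12
      · intro a ha
        obtain ⟨hu, d, hd⟩ := mem_Sq.mp ha
        refine ⟨c⁻¹ * a, mem_Sq.mpr ⟨?_, ⟨((b⁻¹ : (ZMod q)ˣ) : ZMod q) * d, ?_⟩⟩, ?_⟩
        · exact (IsUnit.of_mul_eq_one _ hcc |>.elim fun u hu' => by
            have : IsUnit c⁻¹ := IsUnit.of_mul_eq_one c (by rw [mul_comm]; exact hcc)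
            exact this.mul hu)
        · have hbi : c⁻¹ = ((b⁻¹ : (ZMod q)ˣ) : ZMod q) * ((b⁻¹ : (ZMod q)ˣ) : ZMod q) := by
            apply hcu.mul_left_cancel
            rw [hcc, hc]
            have hbb : (b : ZMod q) * ((b⁻¹ : (ZMod q)ˣ) : ZMod q) = 1 := Units.mul_inv b
            calc (1 : ZMod q) = ((b : ZMod q) * ((b⁻¹ : (ZMod q)ˣ) : ZMod q)) *
                  ((b : ZMod q) * ((b⁻¹ : (ZMod q)ˣ) : ZMod q)) := by rw [hbb, one_mul]
              _ = _ := by ring
          rw [hbi, hd]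
          ring
        · rw [← mul_assoc, hcc, one_mul]
      · intro a _
        rfl
    have hmul : ∀ a ∈ Sq q, χ (c * a)⁻¹ = (χ c)⁻¹ * χ a⁻¹ := by
      intro a ha
      obtain ⟨hu, _⟩ := mem_Sq.mp ha
      have e1 : χ (c * a)⁻¹ * χ (c * a) = 1 := by
        rw [← map_mul, ZMod.inv_mul_of_unit _ (hcu.mul hu), map_one]
      have e2 : χ a⁻¹ * χ a = 1 := by rw [← map_mul, ZMod.inv_mul_of_unit _ hu, map_one]
      have hca : χ (c * a) ≠ 0 := by
        intro h0
        rw [h0, mul_zero] at e1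
        exact zero_ne_one e1
      have hc0 : χ c ≠ 0 := by
        intro h0
        apply hca
        rw [map_mul, h0, zero_mul]
      apply mul_right_cancel₀ hca
      rw [e1, show χ (c * a) = χ c * χ a from map_mul χ c a]
      calc (1 : ℂ) = (χ c)⁻¹ * χ c * (χ a⁻¹ * χ a) := by rw [e2, inv_mul_cancel₀ hc0, one_mul]
        _ = _ := by ring
    rw [sum_congr rfl hmul, ← mul_sum] at hbij
    have hne : (χ c)⁻¹ ≠ 1 := by
      intro h1
      apply hχc
      rw [← inv_inv (χ c), h1, inv_one]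
    have : (1 - (χ c)⁻¹) * ∑ a ∈ Sq q, χ a⁻¹ = 0 := by
      rw [sub_mul, one_mul, ← hbij, sub_self]
    rcases mul_eq_zero.mp this with h1 | h1
    · exact absurd (sub_eq_zero.mp h1).symm hne
    · exact h1

theorem sum_Q2 (q : ℕ) [NeZero q] (n : ZMod q) :
    ((Sq q).card : ℂ) * ∑ χ ∈ Q2 q, χ n = if n ∈ Sq q then (q.totient : ℂ) else 0 := by
  have h1 : ((Sq q).card : ℂ) * ∑ χ ∈ Q2 q, χ n
      = ∑ χ : DirichletCharacter ℂ q, (∑ a ∈ Sq q, χ a⁻¹) * χ n := by
    rw [Q2, sum_filter, mul_sum]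
    refine sum_congr rfl fun χ _ => ?_
    rw [sum_Sq]
    split_ifs <;> simp
  rw [h1]
  simp_rw [sum_mul]
  rw [sum_comm]
  have h2 : ∀ a ∈ Sq q, ∑ χ : DirichletCharacter ℂ q, χ a⁻¹ * χ n
      = if a = n then (q.totient : ℂ) else 0 := by
    intro a ha
    exact DirichletCharacter.sum_char_inv_mul_char_eq ℂ (mem_Sq.mp ha).1 n
  rw [sum_congr rfl h2, sum_ite_eq']

theorem card_Q2_mul (q : ℕ) [NeZero q] : (Sq q).card * (Q2 q).card = q.totient := by
  have h := sum_Q2 q 1
  rw [if_pos (one_mem_Sq q)] at h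
  have h1 : ∑ χ ∈ Q2 q, χ (1 : ZMod q) = ((Q2 q).card : ℂ) := by
    rw [card_eq_sum_ones]
    push_cast
    exact sum_congr rfl fun χ _ => map_one χ
  rw [h1] at h
  exact_mod_cast h

/-- The squaring map on the units is `rt q 1`-to-one. -/
theorem card_Sq_mul (q : ℕ) [NeZero q] : (Sq q).card * rt q 1 = q.totient := by
  set f : (ZMod q)ˣ →* (ZMod q)ˣ := powMonoidHom 2 with hf
  have h1 : Nat.card f.range * Nat.card f.ker = Nat.card (ZMod q)ˣ := by
    have := Subgroup.card_mul_index f.ker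
    rw [Subgroup.index_ker, mul_comm] at this
    exact this
  have h2 : Nat.card f.ker = rt q 1 := by
    unfold rt
    refine Nat.card_congr ⟨fun u => ⟨((u : (ZMod q)ˣ) : ZMod q), ?_⟩, fun b => ⟨⟨b.1, b.1, ?_, ?_⟩, ?_⟩, ?_, ?_⟩
    · have h0 := u.2
      rw [MonoidHom.mem_ker] at h0
      have h00 : ((u : (ZMod q)ˣ)) ^ 2 = 1 := h0
      rw [← Units.val_pow_eq_pow_val, h00]
      simp
    · have := b.2
      rw [← sq, this]
      simp
    · have := b.2
      rw [← sq, this]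
      simp
    · rw [MonoidHom.mem_ker, hf, powMonoidHom_apply]
      ext
      have := b.2
      push_cast at this ⊢
      simpa using this
    · intro u
      ext
      rfl
    · intro b
      rfl
  have h3 : Nat.card f.range = (Sq q).card := by
    rw [← Fintype.card_coe, ← Nat.card_eq_fintype_card]
    refine Nat.card_congr (Equiv.ofBijective (fun u : f.range =>
      (⟨((u : (ZMod q)ˣ) : ZMod q), ?_⟩ : {a // a ∈ Sq q})) ⟨?_, ?_⟩)
    · obtain ⟨v, hv⟩ := u.2
      refine mem_Sq.mpr ⟨Units.isUnit _, ⟨(v : ZMod q), ?_⟩⟩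
      rw [← hv, hf, powMonoidHom_apply]
      push_cast
      ring
    · intro u v huv
      have := congrArg Subtype.val huv
      ext
      exact this
    · rintro ⟨a, ha⟩
      obtain ⟨hu, b, hb⟩ := mem_Sq.mp ha
      have hbu : IsUnit b := isUnit_of_mul_isUnit_left (hb ▸ hu)
      obtain ⟨v, hv⟩ := hbu
      refine ⟨⟨v ^ 2, ⟨v, by rw [hf, powMonoidHom_apply]⟩⟩, ?_⟩
      apply Subtype.ext
      simp only [Units.val_pow_eq_pow_val]
      rw [hv, hb, sq]
  rw [← h2, ← h3, h1, Nat.card_eq_fintype_card, ZMod.card_units_eq_totient]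

theorem card_Q2 (q : ℕ) [NeZero q] : (Q2 q).card = rt q 1 := by
  have h1 := card_Q2_mul q
  have h2 := card_Sq_mul q
  have h3 : 0 < (Sq q).card := card_pos.mpr ⟨1, one_mem_Sq q⟩
  exact Nat.eq_of_mul_eq_mul_left h3 (h1.trans h2.symm)

/-- The non-coprime part. -/
theorem noncoprime_le (q : ℕ) [NeZero q] (hq : 3 ≤ q) (x : ℝ) (hx : 1 ≤ x) :
    ∑ n ∈ (Ioc 0 ⌊x⌋₊).filter (fun n : ℕ => ¬ n.Coprime q), Λ n
      ≤ 4 * Real.log q * Real.log x := by
  have hx0 : 0 < x := by linarith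
  have hl2 : 0 < Real.log 2 := Real.log_pos (by norm_num)
  have hsub : ∑ n ∈ (Ioc 0 ⌊x⌋₊).filter (fun n : ℕ => ¬ n.Coprime q), Λ n
      ≤ ∑ p ∈ q.primeFactors, ∑ k ∈ Icc 1 ⌊Real.log x / Real.log p⌋₊, Real.log p := by
    rw [sum_sigma']
    have hmaps : ∀ n ∈ (Ioc 0 ⌊x⌋₊).filter (fun n : ℕ => ¬ n.Coprime q), Λ n ≠ 0 →
        ∃ y ∈ (q.primeFactors.sigma fun p => Icc 1 ⌊Real.log x / Real.log p⌋₊),
          y.1 ^ y.2 = n ∧ Λ n = Real.log y.1 := by
      intro n hn hΛ
      rw [mem_filter, mem_Ioc] at hn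
      have hpp : IsPrimePow n := by
        by_contra hcon
        exact hΛ (vonMangoldt_eq_zero_iff.mpr hcon)
      obtain ⟨p, k, hp, hk, hpk⟩ := (isPrimePow_nat_iff n).mp hpp
      have hpq : p ∣ q := by
        by_contra hcon
        apply hn.2
        rw [← hpk]
        exact Nat.Coprime.pow_left k ((Nat.Prime.coprime_iff_not_dvd hp).mpr hcon)
      have hlp : 0 < Real.log p := Real.log_pos (by exact_mod_cast hp.one_lt)
      refine ⟨⟨p, k⟩, ?_, hpk, ?_⟩
      · rw [mem_sigma, mem_Icc]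
        refine ⟨Nat.mem_primeFactors.mpr ⟨hp, hpq, NeZero.ne q⟩, hk, ?_⟩
        apply Nat.le_floor
        rw [le_div_iff₀ hlp, ← Real.log_pow]
        apply Real.log_le_log (by exact_mod_cast pow_pos hp.pos k)
        have : (n : ℝ) ≤ x := (Nat.le_floor_iff hx0.le).mp hn.1.2
        rw [← hpk] at this
        exact_mod_cast this
      · rw [← hpk, vonMangoldt_apply_pow hk.ne', vonMangoldt_apply_prime hp]
    choose! g hg using hmaps
    rw [← sum_filter_ne_zero]
    have hinj : Set.InjOn g (((Ioc 0 ⌊x⌋₊).filter (fun n : ℕ => ¬ n.Coprime q)).filter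
        (fun n => Λ n ≠ 0) : Finset ℕ) := by
      intro n₁ h₁ n₂ h₂ h12
      rw [mem_coe, mem_filter] at h₁ h₂
      rw [← (hg n₁ h₁.1 h₁.2).2.1, ← (hg n₂ h₂.1 h₂.2).2.1, h12]
    calc ∑ n ∈ ((Ioc 0 ⌊x⌋₊).filter (fun n : ℕ => ¬ n.Coprime q)).filter (fun n => Λ n ≠ 0), Λ n
        = ∑ n ∈ ((Ioc 0 ⌊x⌋₊).filter (fun n : ℕ => ¬ n.Coprime q)).filter (fun n => Λ n ≠ 0),
            Real.log (g n).1 := by
          refine sum_congr rfl fun n hn => ?_
          rw [mem_filter] at hn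
          exact (hg n hn.1 hn.2).2.2
      _ = ∑ y ∈ (((Ioc 0 ⌊x⌋₊).filter (fun n : ℕ => ¬ n.Coprime q)).filter
            (fun n => Λ n ≠ 0)).image g, Real.log y.1 := by
          rw [sum_image hinj]
      _ ≤ _ := by
          apply sum_le_sum_of_subset_of_nonneg
          · intro y hy
            rw [mem_image] at hy
            obtain ⟨n, hn, rfl⟩ := hy
            rw [mem_filter] at hn
            exact (hg n hn.1 hn.2).1
          · intro y _ _
            exact Real.log_natCast_nonneg _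
  refine hsub.trans ?_
  have hterm : ∀ p ∈ q.primeFactors, ∑ k ∈ Icc 1 ⌊Real.log x / Real.log p⌋₊, Real.log p
      ≤ Real.log x := by
    intro p hp
    have hp' := Nat.prime_of_mem_primeFactors hp
    have hlp : 0 < Real.log p := Real.log_pos (by exact_mod_cast hp'.one_lt)
    rw [sum_const, Nat.card_Icc, nsmul_eq_mul, Nat.add_sub_cancel]
    have := Nat.floor_le (div_nonneg (Real.log_nonneg hx) hlp.le)
    calc (⌊Real.log x / Real.log p⌋₊ : ℝ) * Real.log p ≤ Real.log x / Real.log p * Real.log p := by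
          gcongr
      _ = Real.log x := by field_simp
  have hcard : (q.primeFactors.card : ℝ) ≤ 4 * Real.log q := by
    have h1 : 2 ^ q.primeFactors.card ≤ q := by
      calc 2 ^ q.primeFactors.card = ∏ _p ∈ q.primeFactors, 2 := by rw [prod_const]
        _ ≤ ∏ p ∈ q.primeFactors, p :=
            prod_le_prod' fun p hp => (Nat.prime_of_mem_primeFactors hp).two_le
        _ ≤ q := Nat.le_of_dvd (by omega) (Nat.prod_primeFactors_dvd q)
    have h2 : (q.primeFactors.card : ℝ) * Real.log 2 ≤ Real.log q := by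
      rw [← Real.log_pow]
      exact Real.log_le_log (by positivity) (by exact_mod_cast h1)
    have h3 : (1 / 4 : ℝ) ≤ Real.log 2 := by
      have := Real.log_two_gt_d9
      linarith
    have h4 : (0 : ℝ) ≤ q.primeFactors.card := by positivity
    nlinarith
  calc ∑ p ∈ q.primeFactors, ∑ k ∈ Icc 1 ⌊Real.log x / Real.log p⌋₊, Real.log p
      ≤ ∑ _p ∈ q.primeFactors, Real.log x := sum_le_sum hterm
    _ = q.primeFactors.card * Real.log x := by rw [sum_const, nsmul_eq_mul]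
    _ ≤ _ := by
        have := Real.log_nonneg hx
        gcongr

/-- Smoothed sum with the imprimitive character. -/
noncomputable def Fi {q : ℕ} [NeZero q] (χ : DirichletCharacter ℂ q) (x : ℝ) : ℂ :=
  ∑ n ∈ Ioc 0 ⌊x⌋₊, (Λ n : ℂ) * χ (n : ZMod q) * ((1 - n / x : ℝ) : ℂ)

theorem Fi_sub (q : ℕ) [NeZero q] (hq : 3 ≤ q) (χ : DirichletCharacter ℂ q) (x : ℝ) (hx : 1 ≤ x) :
    ‖Fi χ x - ∑ n ∈ Ioc 0 ⌊x⌋₊, (Λ n : ℂ) * χ.primitiveCharacter (n : ZMod χ.conductor)
        * ((1 - n / x : ℝ) : ℂ)‖ ≤ 4 * Real.log q * Real.log x := by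
  have hx0 : 0 < x := by linarith
  unfold Fi
  rw [← sum_sub_distrib]
  refine (norm_sum_le _ _).trans (le_trans ?_ (noncoprime_le q hq x hx))
  rw [sum_filter]
  refine sum_le_sum fun n hn => ?_
  rw [mem_Ioc] at hn
  have hnx : (n : ℝ) ≤ x := (Nat.le_floor_iff hx0.le).mp hn.2
  by_cases hc : n.Coprime q
  · have h1 : χ.primitiveCharacter (n : ZMod χ.conductor) = χ (n : ZMod q) := by
      have := DirichletCharacter.primitiveCharacter_apply_of_isCoprime (χ := χ) (a := (n : ℤ))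
        (by exact_mod_cast Nat.isCoprime_iff_coprime.mpr hc)
      simpa using this
    rw [h1, sub_self, norm_zero]
    simp [hc]
  · have h0 : χ (n : ZMod q) = 0 := by
      apply χ.map_nonunit
      rw [ZMod.isUnit_iff_coprime]
      exact hc
    rw [h0, if_pos hc]
    simp only [mul_zero, zero_mul, zero_sub, norm_neg, norm_mul]
    rw [Complex.norm_real, Complex.norm_real, Real.norm_eq_abs, Real.norm_eq_abs,
      abs_of_nonneg vonMangoldt_nonneg]
    have h2 : ‖χ.primitiveCharacter (n : ZMod χ.conductor)‖ ≤ 1 :=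
      DirichletCharacter.norm_le_one _ _
    have h3 : |1 - (n : ℝ) / x| ≤ 1 := by
      have h4 : (n : ℝ) / x ≤ 1 := by rw [div_le_one hx0]; exact hnx
      have h5 : 0 ≤ (n : ℝ) / x := by positivity
      rw [abs_le]
      constructor <;> linarith
    calc Λ n * ‖χ.primitiveCharacter (n : ZMod χ.conductor)‖ * |1 - (n : ℝ) / x|
        ≤ Λ n * 1 * 1 := by
          have := @vonMangoldt_nonneg n
          gcongr
      _ = _ := by ring

theorem sum_Fi (q : ℕ) [NeZero q] (x : ℝ) :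
    ∑ χ ∈ Q2 q, Fi χ x = (((rt q 1 : ℝ) *
      ∑ n ∈ (Ioc 0 ⌊x⌋₊).filter (fun n : ℕ => (n : ZMod q) ∈ Sq q), Λ n * (1 - n / x) : ℝ) : ℂ) := by
  have h3 : (0 : ℝ) < (Sq q).card := by exact_mod_cast card_pos.mpr ⟨1, one_mem_Sq q⟩
  have h3c : ((Sq q).card : ℂ) ≠ 0 := by exact_mod_cast h3.ne'
  have hφ : (q.totient : ℂ) = (Sq q).card * rt q 1 := by exact_mod_cast (card_Sq_mul q).symm
  have h1 : ∀ n : ZMod q, ∑ χ ∈ Q2 q, χ n = if n ∈ Sq q then (rt q 1 : ℂ) else 0 := by
    intro n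
    have h := sum_Q2 q n
    rw [hφ] at h
    apply mul_left_cancel₀ h3c
    rw [h]
    split_ifs <;> simp
  unfold Fi
  rw [sum_comm, sum_filter, mul_sum]
  push_cast
  refine sum_congr rfl fun n _ => ?_
  have h2 : ∑ χ ∈ Q2 q, (Λ n : ℂ) * χ (n : ZMod q) * (1 - (n : ℂ) / (x : ℂ))
      = (Λ n : ℂ) * (1 - (n : ℂ) / (x : ℂ)) * ∑ χ ∈ Q2 q, χ (n : ZMod q) := by
    rw [mul_sum]
    refine sum_congr rfl fun χ _ => ?_
    ring
  rw [h2, h1]
  split_ifs
  · push_cast
    ring
  · simp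

theorem stmt_PSQ (hPSI : Stmt_PSI) : Stmt_PSQ := by
  intro hG
  obtain ⟨C1, hC1, h⟩ := hPSI hG
  refine ⟨C1 + 6, by positivity, ?_⟩
  intro q _ hq x hx
  have hx0 : 0 < x := by linarith
  have hsx : 1 ≤ √x := Real.one_le_sqrt.mpr hx
  have hlx : 0 ≤ Real.log x := Real.log_nonneg hx
  have hl : 1 ≤ Real.log q := by
    rw [Real.le_log_iff_exp_le (by positivity)]
    have : (3 : ℝ) ≤ q := by exact_mod_cast hq
    linarith [Real.exp_one_lt_d9]
  have hr : (0 : ℝ) < rt q 1 := by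
    have h1 := card_Sq_mul q
    have h2 : 0 < q.totient := Nat.totient_pos.mpr (by omega)
    rw [← h1] at h2
    exact_mod_cast Nat.pos_of_mul_pos_left h2 |> fun _ => Nat.pos_of_ne_zero (by
      rintro h0
      rw [h0, mul_zero] at h2
      exact lt_irrefl _ h2)
  set S := ∑ n ∈ (Ioc 0 ⌊x⌋₊).filter (fun n : ℕ => (n : ZMod q) ∈ Sq q), Λ n * (1 - n / x) with hS
  -- each term
  have hF : ∀ χ ∈ Q2 q, (if χ = 1 then x / 2 else 0) - (C1 * √x * Real.log q
      + 4 * Real.log q * Real.log x) ≤ (Fi χ x).re := by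
    intro χ _
    have h1 := h q hq χ x hx
    have h2 := Fi_sub q hq χ x hx
    set P := ∑ n ∈ Ioc 0 ⌊x⌋₊, (Λ n : ℂ) * χ.primitiveCharacter (n : ZMod χ.conductor)
        * ((1 - n / x : ℝ) : ℂ) with hP
    have h3 : |(Fi χ x - P).re| ≤ 4 * Real.log q * Real.log x := (Complex.abs_re_le_norm _).trans h2
    have h4 : |(P - (if χ = 1 then ((x / 2 : ℝ) : ℂ) else 0)).re| ≤ C1 * √x * Real.log q :=
      (Complex.abs_re_le_norm _).trans h1
    have h5 : (if χ = 1 then ((x / 2 : ℝ) : ℂ) else 0).re = if χ = 1 then x / 2 else 0 := by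
      split_ifs
      · exact Complex.ofReal_re _
      · simp
    rw [Complex.sub_re] at h3
    rw [Complex.sub_re, h5] at h4
    rw [abs_le] at h3 h4
    linarith [h3.1, h4.1]
  have hsum := sum_le_sum hF
  have hleft : ∑ χ ∈ Q2 q, ((if χ = 1 then x / 2 else 0) - (C1 * √x * Real.log q
      + 4 * Real.log q * Real.log x)) = x / 2 - rt q 1 * (C1 * √x * Real.log q
      + 4 * Real.log q * Real.log x) := by
    rw [sum_sub_distrib, sum_ite_eq' (Q2 q) (1 : DirichletCharacter ℂ q), if_pos (by simp [Q2]),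
      sum_const, card_Q2, nsmul_eq_mul]
  have hright : ∑ χ ∈ Q2 q, (Fi χ x).re = rt q 1 * S := by
    rw [← Complex.re_sum, sum_Fi, Complex.ofReal_re]
  rw [hleft, hright] at hsum
  have hS1 : x / (2 * rt q 1) - (C1 * √x * Real.log q + 4 * Real.log q * Real.log x) ≤ S := by
    have h1 : x / (2 * rt q 1) = (x / 2) / rt q 1 := by field_simp
    rw [h1, sub_le_iff_le_add, div_le_iff₀ hr]
    nlinarith
  -- upper bound for S
  have hS2 : S ≤ (∑ p ∈ (Ioc 0 ⌊x⌋₊).filter
      (fun p : ℕ => p.Prime ∧ IsUnit (p : ZMod q) ∧ IsSquare (p : ZMod q)), Real.log p)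
      + 2 * √x * Real.log x := by
    have h5 := Chebyshev.psi_sub_theta_eq_sum_not_prime x
    have h6 := Chebyshev.psi_sub_theta_le hx
    rw [h5] at h6
    refine le_trans ?_ (add_le_add_right h6 _)
    rw [hS, sum_filter, sum_filter, sum_filter, ← sum_add_distrib]
    refine sum_le_sum fun n hn => ?_
    rw [mem_Ioc] at hn
    have hnx : (n : ℝ) ≤ x := (Nat.le_floor_iff hx0.le).mp hn.2
    have h7 : 0 ≤ (n : ℝ) / x := by positivity
    have h8 : Λ n * (1 - n / x) ≤ Λ n := by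
      have := @vonMangoldt_nonneg n
      nlinarith
    have h9 := @vonMangoldt_nonneg n
    by_cases hp : n.Prime
    · rw [vonMangoldt_apply_prime hp] at h8 h9 ⊢
      by_cases hs : (n : ZMod q) ∈ Sq q
      · rw [if_pos hs, if_pos ⟨hp, mem_Sq.mp hs⟩]
        simp [hp]
        nlinarith
      · rw [if_neg hs, if_neg (fun h' => hs (mem_Sq.mpr h'.2))]
        simp [hp]
    · simp only [hp, false_and, if_false, not_false_eq_true, if_true, zero_add]
      split_ifs
      · exact h8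
      · exact h9
  have h10 : C1 * √x * Real.log q + 4 * Real.log q * Real.log x + 2 * √x * Real.log x
      ≤ (C1 + 6) * √x * (1 + Real.log x) * Real.log q := by
    have a1 : 0 ≤ √x * Real.log x * Real.log q := by positivity
    have a2 : Real.log q * Real.log x ≤ √x * Real.log x * Real.log q := by
      nlinarith [mul_nonneg hlx (by linarith : (0 : ℝ) ≤ Real.log q)]
    have a3 : √x * Real.log x ≤ √x * Real.log x * Real.log q :=
      le_mul_of_one_le_right (by positivity) hl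
    have a4 : 0 ≤ √x * Real.log q := by positivity
    nlinarith
  linarith

end Pool.Agent.AQ
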