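import Mathlib
import Pool.Agent.Work.MP_99218a_nt.InterfaceC
import Pool.Agent.Work.MP_99218a_nt.PRPB
import Pool.Agent.Work.MP_99218a_nt.PSQ
import Pool.Agent.Work.MP_99218a_nt.LRG

/-!
# MP_99218a_nt: block PRS (square classes with a small prime)
-/

set_option autoImplicit false

namespace Pool.Agent.AQ

open Filter Topology

/-- The parameters: `φ(q)` dominates the error terms. -/
theorem prs_params (κ1 K Cr : ℝ) (hk0 : 0 < κ1) (hK : 0 ≤ K) (hCr : 0 ≤ Cr) : ∃ q0 : ℕ, ∀ q : ℕ,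
    q0 ≤ q → K * (Cr * (q.totient : ℝ) ^ (1 / 8 : ℝ)) * Real.log q ^ 2 ≤ √(κ1 * q.totient) := by
  have h1 : ∀ᶠ t : ℝ in atTop, ‖Real.log t‖ ≤ 1 * ‖t ^ (1 / 16 : ℝ)‖ :=
    (isLittleO_log_rpow_atTop (by norm_num : (0 : ℝ) < 1 / 16)).def (by norm_num)
  have h2 : ∀ᶠ t : ℝ in atTop, 9 * (K * Cr) / √κ1 ≤ t ^ (1 / 4 : ℝ) :=
    (tendsto_rpow_atTop (by norm_num : (0 : ℝ) < 1 / 4)).eventually_ge_atTop _
  have h3 : ∀ᶠ t : ℝ in atTop, (1 : ℝ) ≤ t := eventually_ge_atTop _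
  obtain ⟨T0, hT0⟩ := eventually_atTop.1 ((h1.and h2).and h3)
  refine ⟨2 * ⌈max T0 1⌉₊ ^ 2 + 1, fun q hq => ?_⟩
  have hq0 : 0 < q := by omega
  have hle := LRG.le_totient q hq0
  have hφT : ⌈max T0 1⌉₊ ≤ q.totient := by
    by_contra hcon
    push Not at hcon
    have : q.totient ^ 2 ≤ ⌈max T0 1⌉₊ ^ 2 := Nat.pow_le_pow_left hcon.le 2
    omega
  have hφT' : T0 ≤ (q.totient : ℝ) :=
    (le_max_left _ _).trans ((Nat.le_ceil _).trans (by exact_mod_cast hφT))
  obtain ⟨⟨a1, a2⟩, a3⟩ := hT0 _ hφT'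
  set t : ℝ := (q.totient : ℝ) with ht
  have ht0 : 0 < t := by linarith
  have hlt : 0 ≤ Real.log t := Real.log_nonneg a3
  rw [Real.norm_of_nonneg hlt, one_mul, Real.norm_of_nonneg (by positivity)] at a1
  have hpw : 1 ≤ t ^ (1 / 16 : ℝ) := Real.one_le_rpow a3 (by norm_num)
  have hL : Real.log q ≤ 3 * t ^ (1 / 16 : ℝ) := by
    have h4 : (q : ℝ) ≤ 2 * t ^ 2 := by
      rw [ht]
      exact_mod_cast hle
    have h5 := Real.log_le_log (by exact_mod_cast hq0) h4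
    rw [Real.log_mul (by norm_num) (by positivity), Real.log_pow] at h5
    have h6 := Real.log_two_lt_d9
    push_cast at h5
    linarith
  have hL0 : 0 ≤ Real.log q := Real.log_natCast_nonneg q
  have hL2 : Real.log q ^ 2 ≤ 9 * t ^ (1 / 8 : ℝ) := by
    calc Real.log q ^ 2 ≤ (3 * t ^ (1 / 16 : ℝ)) ^ 2 := pow_le_pow_left₀ hL0 hL 2
      _ = 9 * (t ^ (1 / 16 : ℝ)) ^ 2 := by ring
      _ = 9 * t ^ (1 / 8 : ℝ) := by
        rw [← Real.rpow_natCast, ← Real.rpow_mul ht0.le]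
        norm_num
  have hs : √(κ1 * t) = √κ1 * (t ^ (1 / 4 : ℝ) * t ^ (1 / 4 : ℝ)) := by
    rw [Real.sqrt_mul hk0.le, Real.sqrt_eq_rpow t, ← Real.rpow_add ht0]
    norm_num
  have hs8 : t ^ (1 / 8 : ℝ) * t ^ (1 / 8 : ℝ) = t ^ (1 / 4 : ℝ) := by
    rw [← Real.rpow_add ht0]
    norm_num
  have hk : 0 < √κ1 := Real.sqrt_pos.mpr hk0
  rw [div_le_iff₀ hk] at a2
  rw [hs]
  have ht4 : 0 ≤ t ^ (1 / 4 : ℝ) := by positivity
  calc K * (Cr * t ^ (1 / 8 : ℝ)) * Real.log q ^ 2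
      ≤ K * (Cr * t ^ (1 / 8 : ℝ)) * (9 * t ^ (1 / 8 : ℝ)) := by gcongr
    _ = 9 * (K * Cr) * (t ^ (1 / 8 : ℝ) * t ^ (1 / 8 : ℝ)) := by ring
    _ = 9 * (K * Cr) * t ^ (1 / 4 : ℝ) := by rw [hs8]
    _ ≤ t ^ (1 / 4 : ℝ) * √κ1 * t ^ (1 / 4 : ℝ) := by gcongr
    _ = _ := by ring

theorem stmt_PRS (hPSQ : Stmt_PSQ) (hRQ : Stmt_RQ) : Stmt_PRS := by
  intro hG κ hκ
  obtain ⟨C1, hC1, hpsq⟩ := hPSQ hG
  obtain ⟨Cr, hCr⟩ := hRQ (1 / 8) (by norm_num)
  obtain ⟨C, hC, hcoll⟩ := PRP.collisions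
  set κ1 : ℝ := min (κ / 4) 1 with hκ1
  have hk0 : 0 < κ1 := lt_min (by positivity) zero_lt_one
  have hk1 : κ1 ≤ 1 := min_le_right _ _
  have hk4 : κ1 ≤ κ / 4 := min_le_left _ _
  obtain ⟨q1, hq1⟩ := hcoll κ1 hk0 hk1
  obtain ⟨q2, hq2⟩ := PRP.passage κ1 hk0 hk1
  obtain ⟨q3, hq3⟩ := PRP.params κ1 hk0
  obtain ⟨q4, hq4⟩ := prs_params κ1 (4 * (3 * C1 + 2)) |Cr| hk0 (by positivity) (abs_nonneg _)
  refine ⟨κ1 / (64 * C), by positivity, max (max q1 q2) (max q3 q4), fun q hq => ?_⟩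
  obtain ⟨hq400, h4, hL, hXq⟩ := hq3 q (by omega)
  have hqn : 0 < q := by omega
  have : NeZero q := ⟨hqn.ne'⟩
  have hqr : (400 : ℝ) ≤ q := by exact_mod_cast hq400
  have hpar := hq4 q (by omega)
  have hr := hCr q 1 hqn (by simp)
  set r : ℝ := (rt q 1 : ℝ) with hrd
  set φ : ℝ := (q.totient : ℝ) with hφ
  set L : ℝ := Real.log q with hLd
  have hφ0 : 0 < φ := by
    rw [hφ]
    exact_mod_cast Nat.totient_pos.2 hqn
  have hφq : φ ≤ q := by
    rw [hφ]
    exact_mod_cast Nat.totient_le q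
  have hr0 : 0 < r := by
    have h1 := card_Sq_mul q
    have h2 : 0 < q.totient := Nat.totient_pos.mpr hqn
    rw [← h1] at h2
    rw [hrd]
    exact_mod_cast Nat.pos_of_ne_zero (by
      rintro h0
      rw [h0, mul_zero] at h2
      exact lt_irrefl _ h2)
  have hL4 : 4 ≤ L := by nlinarith [Real.log_nonneg (show (1 : ℝ) ≤ q by linarith)]
  have hLφ : L ≤ κ1 * φ / 2048 := by
    have : κ1 ^ 2 / 2048 * φ ≤ κ1 * φ / 2048 := by
      have : κ1 ^ 2 ≤ κ1 := by nlinarith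
      nlinarith
    linarith
  have hLq : L ≤ q := by
    have : κ1 * φ / 2048 ≤ φ := by nlinarith
    linarith
  set X : ℝ := κ1 * φ * L with hXd
  have hX0 : 0 < X := by positivity
  have hX1 : 1 ≤ X := by nlinarith
  have hX2 : X ≤ (q : ℝ) ^ 2 := by
    have h1 : κ1 * φ ≤ q := by nlinarith
    calc X = κ1 * φ * L := rfl
      _ ≤ q * q := mul_le_mul h1 hLq (by linarith) (by linarith)
      _ = _ := by ring
  have hlogX2 : Real.log X ≤ 2 * L := by
    have := Real.log_le_log hX0 hX2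
    rwa [Real.log_pow, Nat.cast_ofNat] at this
  have hlogX0 : 0 ≤ Real.log X := Real.log_nonneg hX1
  set N : ℕ := ⌊X⌋₊ with hNd
  have hNX : (N : ℝ) ≤ X := Nat.floor_le hX0.le
  classical
  set P : Finset ℕ := (Finset.Ioc (Nat.sqrt N) N).filter
    fun p => p.Prime ∧ IsUnit (p : ZMod q) ∧ IsSquare (p : ZMod q) with hP
  -- lower bound for the number of primes
  have hlow : κ1 * φ / (8 * r) ≤ (P.card : ℝ) := by
    have h1 := hpsq q (by omega) X hX1
    rw [← hrd, ← hNd, ← hLd] at h1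
    have h2 : ∑ p ∈ (Finset.Ioc 0 N).filter
        (fun p : ℕ => p.Prime ∧ IsUnit (p : ZMod q) ∧ IsSquare (p : ZMod q)), Real.log p
        ≤ P.card * Real.log X + √X * Real.log X := by
      have h3 : (Finset.Ioc 0 N).filter
          (fun p : ℕ => p.Prime ∧ IsUnit (p : ZMod q) ∧ IsSquare (p : ZMod q))
          ⊆ P ∪ Finset.Ioc 0 (Nat.sqrt N) := by
        intro p hp
        rw [Finset.mem_filter, Finset.mem_Ioc] at hp
        rw [Finset.mem_union, hP, Finset.mem_filter, Finset.mem_Ioc, Finset.mem_Ioc]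
        by_cases hc : p ≤ Nat.sqrt N
        · exact Or.inr ⟨hp.1.1, hc⟩
        · exact Or.inl ⟨⟨by omega, hp.1.2⟩, hp.2⟩
      have h4 : ∀ p ∈ (Finset.Ioc 0 N).filter
          (fun p : ℕ => p.Prime ∧ IsUnit (p : ZMod q) ∧ IsSquare (p : ZMod q)),
          Real.log p ≤ Real.log X := by
        intro p hp
        rw [Finset.mem_filter, Finset.mem_Ioc] at hp
        apply Real.log_le_log (by exact_mod_cast hp.1.1)
        exact le_trans (by exact_mod_cast hp.1.2) hNX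
      have h5 := Finset.sum_le_card_nsmul _ _ _ h4
      rw [nsmul_eq_mul] at h5
      have h6 := Finset.card_le_card h3
      have h7 := Finset.card_union_le P (Finset.Ioc 0 (Nat.sqrt N))
      rw [Nat.card_Ioc, Nat.sub_zero] at h7
      have h8 : (Nat.sqrt N : ℝ) ≤ √X := Real.nat_sqrt_le_real_sqrt.trans (Real.sqrt_le_sqrt hNX)
      have h9 : (((Finset.Ioc 0 N).filter
          (fun p : ℕ => p.Prime ∧ IsUnit (p : ZMod q) ∧ IsSquare (p : ZMod q))).card : ℝ)
          ≤ P.card + √X := by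
        have : (((Finset.Ioc 0 N).filter
          (fun p : ℕ => p.Prime ∧ IsUnit (p : ZMod q) ∧ IsSquare (p : ZMod q))).card : ℝ)
          ≤ P.card + Nat.sqrt N := by exact_mod_cast h6.trans h7
        linarith
      calc _ ≤ _ := h5
        _ ≤ (P.card + √X) * Real.log X := by gcongr
        _ = _ := by ring
    have hsX : 0 ≤ √X := Real.sqrt_nonneg X
    have hXX : √X * √X = X := Real.mul_self_sqrt hX0.le
    -- the error terms
    have hsκ : √(κ1 * φ) ≤ √X := by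
      apply Real.sqrt_le_sqrt
      rw [hXd]
      have : 0 < κ1 * φ := by positivity
      nlinarith
    have hrL : 4 * (3 * C1 + 2) * r * L ^ 2 ≤ √X := by
      refine le_trans ?_ (hpar.trans hsκ)
      have hr' : r ≤ |Cr| * φ ^ (1 / 8 : ℝ) := hr.trans (by gcongr; exact le_abs_self _)
      gcongr
    have herr : C1 * √X * (1 + Real.log X) * L + √X * Real.log X ≤ X / (4 * r) := by
      have e1 : C1 * √X * (1 + Real.log X) * L + √X * Real.log X
          ≤ √X * ((3 * C1 + 2) * L ^ 2) := by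
        have e2 : (1 + Real.log X) * L ≤ 3 * L ^ 2 := by nlinarith
        have e3 : Real.log X ≤ 2 * L ^ 2 := by nlinarith
        calc C1 * √X * (1 + Real.log X) * L + √X * Real.log X
            = √X * (C1 * ((1 + Real.log X) * L) + Real.log X) := by ring
          _ ≤ √X * (C1 * (3 * L ^ 2) + 2 * L ^ 2) := by gcongr
          _ = _ := by ring
      refine e1.trans ?_
      rw [le_div_iff₀ (by positivity)]
      calc √X * ((3 * C1 + 2) * L ^ 2) * (4 * r) = √X * (4 * (3 * C1 + 2) * r * L ^ 2) := by ring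
        _ ≤ √X * √X := by gcongr
        _ = X := hXX
    have h3 : X / (4 * r) ≤ P.card * Real.log X := by
      have e4 : X / (2 * r) = X / (4 * r) + X / (4 * r) := by
        field_simp
        ring
      linarith
    have h4 : X / (4 * r) ≤ P.card * (2 * L) := h3.trans (by gcongr)
    rw [div_le_iff₀ (by positivity)] at h4 ⊢
    have h5 : κ1 * φ * L ≤ (P.card * (8 * r)) * L := by
      rw [hXd] at h4
      nlinarith
    exact le_of_mul_le_mul_right h5 (by linarith)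
  have hc := hq1 q (by omega) P (fun p hp => by
    rw [hP, Finset.mem_filter, Finset.mem_Ioc] at hp
    exact ⟨hp.2.1, le_trans (by exact_mod_cast hp.1.2) hNX⟩)
  have hcs := PRP.cauchy q P
  set I := P.image fun p : ℕ => (p : ZMod q) with hI
  have hcard : (I.card : ℝ) ≤ (Nat.card {a : ZMod q // IsUnit a ∧ IsSquare a ∧ ∃ p : ℕ, p.Prime ∧
      (p : ZMod q) = a ∧ (p : ℝ) ≤ κ * Real.log p * q.totient} : ℝ) := by
    have key : ∀ a ∈ I, IsUnit a ∧ IsSquare a ∧ ∃ p : ℕ, p.Prime ∧ (p : ZMod q) = a ∧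
        (p : ℝ) ≤ κ * Real.log p * q.totient := by
      intro a ha
      obtain ⟨p, hp, rfl⟩ := Finset.mem_image.1 ha
      rw [hP, Finset.mem_filter, Finset.mem_Ioc] at hp
      obtain ⟨⟨c1, c2⟩, c3, c4, c5⟩ := hp
      refine ⟨c4, c5, p, c3, rfl, ?_⟩
      obtain ⟨_, c6⟩ := hq2 q (by omega) p c1 c2
      have hlp : 0 ≤ Real.log p := Real.log_natCast_nonneg p
      calc (p : ℝ) ≤ 4 * κ1 * Real.log p * φ := c6
        _ ≤ κ * Real.log p * φ := by
          have : 4 * κ1 ≤ κ := by linarith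
          gcongr
    have h1 : Nat.card I ≤ Nat.card {a : ZMod q // IsUnit a ∧ IsSquare a ∧ ∃ p : ℕ, p.Prime ∧
        (p : ZMod q) = a ∧ (p : ℝ) ≤ κ * Real.log p * q.totient} :=
      Nat.card_le_card_of_injective (fun x : I => ⟨x.1, key x.1 x.2⟩) fun x y h => by
        have h' := Subtype.ext_iff.1 h
        exact Subtype.ext h'
    rw [Nat.card_eq_fintype_card, Fintype.card_coe] at h1
    exact_mod_cast h1
  refine le_trans ?_ hcard
  have hI0 : (0 : ℝ) ≤ I.card := Nat.cast_nonneg _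
  have h1 : (κ1 * φ / (8 * r)) ^ 2 ≤ I.card * (C * (κ1 * φ)) :=
    (pow_le_pow_left₀ (by positivity) hlow 2).trans
      (hcs.trans (mul_le_mul_of_nonneg_left hc hI0))
  have h2 : 0 < κ1 * φ := by positivity
  rw [div_mul_eq_mul_div, div_div, div_le_iff₀ (by positivity)]
  have h3 : κ1 * φ * (κ1 * φ) ≤ (I.card * (64 * C * r ^ 2)) * (κ1 * φ) := by
    rw [div_pow, div_le_iff₀ (by positivity)] at h1
    nlinarith
  exact le_of_mul_le_mul_right h3 h2

end Pool.Agent.AQ
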