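import Mathlib
import Pool.Agent.Work.MP_99218a_nt.InterfaceC
import Pool.Agent.Work.MP_99218a_nt.H2

/-!
# MP_99218a_nt: block PSI
-/

set_option autoImplicit false

namespace Pool.Agent.AQ

open Filter Topology MeasureTheory ArithmeticFunction
open scoped ComplexConjugate Classical

theorem norm_Hc_two (h1 : Stmt_EXPL) (q : ℕ) [NeZero q] (χ : DirichletCharacter ℂ q) :
    ‖Hc χ 2‖ ≤ Real.log q + H2.D0 := by
  have h := h1 q χ 2 (by norm_num)
  have hA : ‖(if χ = 1 then 1 / (2 : ℂ) + 1 / (2 - 1) else 0)‖ ≤ 2 := by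
    split_ifs
    · norm_num
    · norm_num
  have hq0 : 0 < q := Nat.pos_of_ne_zero (NeZero.ne q)
  have hc0 : 0 < χ.conductor := Nat.pos_of_ne_zero χ.conductor_ne_zero
  have hc : χ.conductor ≤ q := Nat.le_of_dvd hq0 χ.conductor_dvd_level
  have hcR : (0 : ℝ) < χ.conductor := by exact_mod_cast hc0
  have hB : ‖(1 / 2 : ℂ) * (Real.log (χ.conductor / Real.pi) : ℂ)‖
      ≤ Real.log q + Real.log Real.pi := by
    rw [norm_mul, Complex.norm_real, Real.norm_eq_abs,
      Real.log_div (by positivity) Real.pi_ne_zero]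
    have h3 : 0 ≤ Real.log χ.conductor := Real.log_nonneg (by exact_mod_cast hc0)
    have h4 : Real.log χ.conductor ≤ Real.log q :=
      Real.log_le_log hcR (by exact_mod_cast hc)
    have h5 := H2.logpi_nonneg
    have h6 : |Real.log χ.conductor - Real.log Real.pi| ≤ Real.log q + Real.log Real.pi := by
      rw [abs_le]
      constructor <;> linarith
    have h7 : ‖(1 / 2 : ℂ)‖ = 1 / 2 := by norm_num
    rw [h7]
    have h8 : 0 ≤ |Real.log χ.conductor - Real.log Real.pi| := abs_nonneg _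
    linarith
  have hC : ‖(1 / 2 : ℂ) * Complex.digamma ((2 + kap χ) / 2)‖
      ≤ ‖Complex.digamma 1‖ + ‖Complex.digamma (3 / 2)‖ := by
    rw [norm_mul]
    have h7 : ‖(1 / 2 : ℂ)‖ = 1 / 2 := by norm_num
    rw [h7]
    have h8 := norm_nonneg (Complex.digamma 1)
    have h9 := norm_nonneg (Complex.digamma (3 / 2))
    unfold kap
    split_ifs
    · have : ((2 : ℂ) + ((0 : ℝ) : ℂ)) / 2 = 1 := by push_cast; norm_num
      rw [this]
      linarith
    · have : ((2 : ℂ) + ((1 : ℝ) : ℂ)) / 2 = 3 / 2 := by push_cast; norm_num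
      rw [this]
      linarith
  have hD := H2.norm_LSeries_le χ
  rw [h]
  refine (norm_sub_le _ _).trans ?_
  have h9 := (norm_add_le ((if χ = 1 then 1 / (2 : ℂ) + 1 / (2 - 1) else 0)
    + 1 / 2 * (Real.log (χ.conductor / Real.pi) : ℂ))
    (1 / 2 * Complex.digamma ((2 + kap χ) / 2)))
  have h10 := norm_add_le (if χ = 1 then 1 / (2 : ℂ) + 1 / (2 - 1) else 0)
    (1 / 2 * (Real.log (χ.conductor / Real.pi) : ℂ))
  unfold H2.D0
  linarith

theorem norm_one_sub_two (hHER : Stmt_HER) (H : ℂ → ℂ) (hH : Hg H) :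
    ‖H 1 - H 2‖ ≤ 2 * (H 2).re := by
  have h2 := hHER H hH.diff hH.pos 2 1 (by norm_num) (by norm_num)
  have e2 : ‖((1 : ℂ) - 2) / ((1 : ℂ) + conj (2 : ℂ) - 1)‖ = 1 / 2 := by
    have : ((1 : ℂ) - 2) / ((1 : ℂ) + conj (2 : ℂ) - 1) = ((-(1 / 2) : ℝ) : ℂ) := by
      rw [map_ofNat]
      push_cast
      norm_num
    rw [this, Complex.norm_real]
    norm_num
  rw [e2] at h2
  norm_num at h2
  exact h2

theorem stmt_PSI (hJX : Stmt_JX) (hJ1 : Stmt_J1) (hHER : Stmt_HER) (hXI : Stmt_XI)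
    (hGRO : Stmt_GRO) (hEXPL : Stmt_EXPL) (hDGB : Stmt_DGB) : Stmt_PSI := by
  intro hG
  obtain ⟨C0, hC0⟩ := hDGB 0 le_rfl
  obtain ⟨C1, hC1⟩ := hDGB 1 zero_le_one
  have hD0 := H2.D0_ge
  have hlp := H2.logpi_nonneg
  refine ⟨10 * (1 + H2.D0) + 1 + Real.log Real.pi + |C0| + |C1| + 6, by positivity, ?_⟩
  intro q _ hq χ x hx
  have hx0 : 0 < x := by linarith
  have hsx : 1 ≤ √x := Real.one_le_sqrt.mpr hx
  have hl : 1 ≤ Real.log q := by
    rw [Real.le_log_iff_exp_le (by positivity)]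
    have : (3 : ℝ) ≤ q := by exact_mod_cast hq
    linarith [Real.exp_one_lt_d9]
  have hH : Hg (Hc χ) := hGRO _ (hXI hG q χ)
  have h2 := norm_Hc_two hEXPL q χ
  have hM : Real.log q + H2.D0 ≤ (1 + H2.D0) * Real.log q := by nlinarith
  set M := (1 + H2.D0) * Real.log q with hMdef
  have hM0 : 0 ≤ M := by positivity
  have h2' : ‖Hc χ 2‖ ≤ M := h2.trans hM
  have hre2 : (Hc χ 2).re ≤ M := (Complex.re_le_norm _).trans h2'
  have h12 : ‖Hc χ 1 - Hc χ 2‖ ≤ 2 * M := (norm_one_sub_two hHER _ hH).trans (by linarith)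
  have h1 : ‖Hc χ 1‖ ≤ 3 * M := by
    have : ‖Hc χ 1‖ ≤ ‖Hc χ 1 - Hc χ 2‖ + ‖Hc χ 2‖ := by
      have := norm_add_le (Hc χ 1 - Hc χ 2) (Hc χ 2)
      simpa using this
    linarith
  have hre1 : (Hc χ 1).re ≤ 3 * M := (Complex.re_le_norm _).trans h1
  have hJ := hJ1 (Hc χ) hH x (1 / 2) hx (by norm_num) (by norm_num)
  have hone : ((1 / 2 + 1 / 2 : ℝ) : ℂ) = 1 := by push_cast; norm_num
  rw [hone] at hJ
  have hJ' : ‖J (Hc χ) x‖ ≤ √x * (6 * M) := by
    refine hJ.trans ?_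
    have : (Hc χ 1).re / (1 / 2) ≤ 6 * M := by
      rw [div_le_iff₀ (by norm_num)]
      linarith
    gcongr
  have hid := hJX q χ x hx
  set S := ∑ n ∈ Finset.Ioc 0 ⌊x⌋₊,
        (Λ n : ℂ) * χ.primitiveCharacter (n : ZMod χ.conductor) * ((1 - n / x : ℝ) : ℂ) with hS
  -- the remaining terms
  have hlogx : Real.log x ≤ 2 * √x := by
    have := Real.log_le_rpow_div hx0.le (show (0 : ℝ) < 1 / 2 by norm_num)
    rw [← Real.sqrt_eq_rpow] at this
    linarith
  have hlogx0 : 0 ≤ Real.log x := Real.log_nonneg hx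
  have hinv : 1 / x ≤ 1 := by
    rw [div_le_one hx0]
    exact hx
  have hinv0 : 0 < 1 / x := by positivity
  have hP : ‖(if χ = 1 then ((x / 2 + Real.log x - 2 + 3 / (2 * x) : ℝ) : ℂ) else 0)
      - (if χ = 1 then ((x / 2 : ℝ) : ℂ) else 0)‖ ≤ 6 * √x := by
    split_ifs
    · rw [← Complex.ofReal_sub, Complex.norm_real, Real.norm_eq_abs, abs_le]
      have e1 : 3 / (2 * x) = 3 / 2 * (1 / x) := by field_simp
      rw [e1]
      constructor <;> nlinarith
    · rw [sub_zero, norm_zero]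
      positivity
  have hq0 : 0 < q := Nat.pos_of_ne_zero (NeZero.ne q)
  have hc0 : 0 < χ.conductor := Nat.pos_of_ne_zero χ.conductor_ne_zero
  have hc : χ.conductor ≤ q := Nat.le_of_dvd hq0 χ.conductor_dvd_level
  have hcR : (0 : ℝ) < χ.conductor := by exact_mod_cast hc0
  have hL : ‖1 / 2 * (Real.log (χ.conductor / Real.pi) : ℂ) * (1 - 1 / x)‖
      ≤ Real.log q + Real.log Real.pi := by
    have e1 : (1 / 2 * (Real.log (χ.conductor / Real.pi) : ℂ) * (1 - 1 / x))
        = ((1 / 2 * Real.log (χ.conductor / Real.pi) * (1 - 1 / x) : ℝ) : ℂ) := by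
      push_cast
      ring
    rw [e1, Complex.norm_real, Real.norm_eq_abs, Real.log_div (by positivity) Real.pi_ne_zero,
      abs_mul, abs_mul]
    have h3 : 0 ≤ Real.log χ.conductor := Real.log_nonneg (by exact_mod_cast hc0)
    have h4 : Real.log χ.conductor ≤ Real.log q :=
      Real.log_le_log hcR (by exact_mod_cast hc)
    have h6 : |Real.log χ.conductor - Real.log Real.pi| ≤ Real.log q + Real.log Real.pi := by
      rw [abs_le]
      constructor <;> linarith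
    have h7 : |1 - 1 / x| ≤ 1 := by
      rw [abs_le]
      constructor <;> linarith
    have h8 : |(1 / 2 : ℝ)| ≤ 1 := by norm_num
    calc |(1 / 2 : ℝ)| * |Real.log χ.conductor - Real.log Real.pi| * |1 - 1 / x|
        ≤ 1 * (Real.log q + Real.log Real.pi) * 1 := by gcongr
      _ = _ := by ring
  have hDg : ‖Dg (kap χ) x‖ ≤ (|C0| + |C1|) * √x := by
    have hx4 : x ^ (1 / 4 : ℝ) ≤ √x := by
      rw [Real.sqrt_eq_rpow]
      exact Real.rpow_le_rpow_of_exponent_le hx (by norm_num)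
    have hx40 : 0 ≤ x ^ (1 / 4 : ℝ) := by positivity
    unfold kap
    split_ifs
    · calc ‖Dg 0 x‖ ≤ C0 * x ^ (1 / 4 : ℝ) := hC0 x hx
        _ ≤ |C0| * √x := mul_le_mul (le_abs_self _) hx4 hx40 (abs_nonneg _)
        _ ≤ _ := by
          have := abs_nonneg C1
          nlinarith
    · calc ‖Dg 1 x‖ ≤ C1 * x ^ (1 / 4 : ℝ) := hC1 x hx
        _ ≤ |C1| * √x := mul_le_mul (le_abs_self _) hx4 hx40 (abs_nonneg _)
        _ ≤ _ := by
          have := abs_nonneg C0
          nlinarith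
  have hH2x : ‖conj (Hc χ 2) / (x : ℂ)‖ ≤ M := by
    rw [norm_div, RCLike.norm_conj, Complex.norm_real, Real.norm_eq_abs, abs_of_pos hx0]
    exact (div_le_self (norm_nonneg _) hx).trans h2'
  have hH1 : ‖conj (Hc χ 1)‖ ≤ 3 * M := by
    rw [RCLike.norm_conj]
    exact h1
  have key : S - (if χ = 1 then ((x / 2 : ℝ) : ℂ) else 0)
      = -(J (Hc χ) x)
        + ((if χ = 1 then ((x / 2 + Real.log x - 2 + 3 / (2 * x) : ℝ) : ℂ) else 0)
            - (if χ = 1 then ((x / 2 : ℝ) : ℂ) else 0))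
        + 1 / 2 * (Real.log (χ.conductor / Real.pi) : ℂ) * (1 - 1 / x)
        + Dg (kap χ) x + conj (Hc χ 1) - conj (Hc χ 2) / x := by
    rw [hid]
    ring
  rw [key]
  have t1 := norm_sub_le (-(J (Hc χ) x)
        + ((if χ = 1 then ((x / 2 + Real.log x - 2 + 3 / (2 * x) : ℝ) : ℂ) else 0)
            - (if χ = 1 then ((x / 2 : ℝ) : ℂ) else 0))
        + 1 / 2 * (Real.log (χ.conductor / Real.pi) : ℂ) * (1 - 1 / x)
        + Dg (kap χ) x + conj (Hc χ 1)) (conj (Hc χ 2) / x)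
  have t2 := norm_add_le (-(J (Hc χ) x)
        + ((if χ = 1 then ((x / 2 + Real.log x - 2 + 3 / (2 * x) : ℝ) : ℂ) else 0)
            - (if χ = 1 then ((x / 2 : ℝ) : ℂ) else 0))
        + 1 / 2 * (Real.log (χ.conductor / Real.pi) : ℂ) * (1 - 1 / x)
        + Dg (kap χ) x) (conj (Hc χ 1))
  have t3 := norm_add_le (-(J (Hc χ) x)
        + ((if χ = 1 then ((x / 2 + Real.log x - 2 + 3 / (2 * x) : ℝ) : ℂ) else 0)
            - (if χ = 1 then ((x / 2 : ℝ) : ℂ) else 0))
        + 1 / 2 * (Real.log (χ.conductor / Real.pi) : ℂ) * (1 - 1 / x)) (Dg (kap χ) x)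
  have t4 := norm_add_le (-(J (Hc χ) x)
        + ((if χ = 1 then ((x / 2 + Real.log x - 2 + 3 / (2 * x) : ℝ) : ℂ) else 0)
            - (if χ = 1 then ((x / 2 : ℝ) : ℂ) else 0)))
        (1 / 2 * (Real.log (χ.conductor / Real.pi) : ℂ) * (1 - 1 / x))
  have t5 := norm_add_le (-(J (Hc χ) x))
        ((if χ = 1 then ((x / 2 + Real.log x - 2 + 3 / (2 * x) : ℝ) : ℂ) else 0)
            - (if χ = 1 then ((x / 2 : ℝ) : ℂ) else 0))
  rw [norm_neg] at t5
  have htot : ‖-(J (Hc χ) x)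
        + ((if χ = 1 then ((x / 2 + Real.log x - 2 + 3 / (2 * x) : ℝ) : ℂ) else 0)
            - (if χ = 1 then ((x / 2 : ℝ) : ℂ) else 0))
        + 1 / 2 * (Real.log (χ.conductor / Real.pi) : ℂ) * (1 - 1 / x)
        + Dg (kap χ) x + conj (Hc χ 1) - conj (Hc χ 2) / x‖
      ≤ √x * (6 * M) + 6 * √x + (Real.log q + Real.log Real.pi) + (|C0| + |C1|) * √x
        + 3 * M + M := by linarith
  refine htot.trans ?_
  have a0 := abs_nonneg C0
  have a1 := abs_nonneg C1
  have hsl : √x ≤ √x * Real.log q := le_mul_of_one_le_right (by positivity) hl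
  have hll : Real.log q ≤ √x * Real.log q := le_mul_of_one_le_left (by positivity) hsx
  have h1l : 1 ≤ √x * Real.log q := by nlinarith
  have hMx : M ≤ (1 + H2.D0) * (√x * Real.log q) := by
    rw [hMdef]
    gcongr
  have hMs : √x * (6 * M) = 6 * (1 + H2.D0) * (√x * Real.log q) := by
    rw [hMdef]
    ring
  have b1 : 6 * √x ≤ 6 * (√x * Real.log q) := by linarith
  have b2 : Real.log Real.pi ≤ Real.log Real.pi * (√x * Real.log q) :=
    le_mul_of_one_le_right hlp h1l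
  have b3 : (|C0| + |C1|) * √x ≤ (|C0| + |C1|) * (√x * Real.log q) :=
    mul_le_mul_of_nonneg_left hsl (by positivity)
  calc _ ≤ 6 * (1 + H2.D0) * (√x * Real.log q) + 6 * (√x * Real.log q)
        + (√x * Real.log q + Real.log Real.pi * (√x * Real.log q))
        + (|C0| + |C1|) * (√x * Real.log q) + 3 * ((1 + H2.D0) * (√x * Real.log q))
        + (1 + H2.D0) * (√x * Real.log q) := by linarith
    _ = _ := by ring

end Pool.Agent.AQ
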