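import Pool.Agent.Work.MP_99218a_nt.Interface

/-! Block REM: removal of finitely many zeros. -/

set_option autoImplicit false

namespace Pool.Agent.AQ

open Filter Topology MeasureTheory
open scoped ComplexConjugate Classical

namespace REMh

lemma rho_re (γ : ℝ) : (rho γ).re = 1 / 2 := by
  simp [rho]

lemma rho_inj {γ γ' : ℝ} (h : rho γ = rho γ') : γ = γ' := by
  have := congrArg Complex.im h
  simpa [rho] using this

lemma one_sub_conj_sub (γ : ℝ) (s : ℂ) : 1 - conj s - rho γ = -conj (s - rho γ) := by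
  apply Complex.ext <;> simp [rho] <;> ring

lemma anal {Φ : ℂ → ℂ} (h : Differentiable ℂ Φ) (z : ℂ) : AnalyticAt ℂ Φ z :=
  h.analyticAt z

lemma ord_ne_top {Φ : ℂ → ℂ} (h : Xi Φ) (z : ℂ) : analyticOrderAt Φ z ≠ ⊤ := by
  intro h1
  rw [AnalyticOnNhd.analyticOrderAt_eq_top_iff_eq_zero z (fun w => anal h.diff w)] at h1
  exact h.ne 1 (by norm_num) (by rw [h1]; rfl)

lemma one_le_wt (s : ℂ) : (1 : ℝ) ≤ (1 + ‖s‖) ^ (1 / 2 : ℝ) :=
  Real.one_le_rpow (by linarith [norm_nonneg s]) (by norm_num)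

lemma one_le_wt' (s : ℂ) : (1 : ℝ) ≤ (1 + ‖s‖) ^ (3 / 2 : ℝ) :=
  Real.one_le_rpow (by linarith [norm_nonneg s]) (by norm_num)

lemma mul_dslope {Φ : ℂ → ℂ} {ρ : ℂ} (h0 : Φ ρ = 0) (s : ℂ) :
    Φ s = (s - ρ) * dslope Φ ρ s := by
  have := sub_smul_dslope Φ ρ s
  rw [h0, sub_zero, smul_eq_mul] at this
  exact this.symm

lemma logDeriv_step {Φ Ψ : ℂ → ℂ} {γ : ℝ} (hΨ : Differentiable ℂ Ψ)
    (hid : ∀ s, Φ s = (s - rho γ) * Ψ s) (s : ℂ) (hs : 1 / 2 < s.re) (hne : Φ s ≠ 0) :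
    logDeriv Ψ s = logDeriv Φ s - 1 / (s - rho γ) := by
  have h1 : Φ = fun z => (z - rho γ) * Ψ z := funext hid
  have h2 : s - rho γ ≠ 0 := by
    intro h
    have := congrArg Complex.re h
    rw [Complex.sub_re, rho_re, Complex.zero_re] at this
    linarith
  have h3 : Ψ s ≠ 0 := by
    intro h
    apply hne
    rw [hid, h, mul_zero]
  have h4 : logDeriv Φ s = logDeriv (fun z => z - rho γ) s + logDeriv Ψ s := by
    rw [h1]
    exact logDeriv_mul s h2 h3 (by fun_prop) (hΨ s)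
  have h5 : logDeriv (fun z : ℂ => z - rho γ) s = 1 / (s - rho γ) := by
    rw [logDeriv_apply]
    congr 1
    rw [deriv_sub_const]
    exact deriv_id s
  rw [h4, h5]
  ring

/-- Removal of one zero. -/
lemma step {Φ : ℂ → ℂ} (h : Xi Φ) (γ : ℝ) (h0 : Φ (rho γ) = 0) : Xi (dslope Φ (rho γ)) := by
  set ρ := rho γ with hρ
  set Ψ := dslope Φ ρ with hΨd
  have hid : ∀ s, Φ s = (s - ρ) * Ψ s := fun s => mul_dslope h0 s
  have hΨ : Differentiable ℂ Ψ := by
    rw [← differentiableOn_univ]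
    exact (Complex.differentiableOn_dslope Filter.univ_mem).2 h.diff.differentiableOn
  have hsub : ∀ s : ℂ, 1 / 2 < s.re → ‖s - ρ‖ ≥ s.re - 1 / 2 := by
    intro s _
    have := Complex.re_le_norm (s - ρ)
    rw [Complex.sub_re, hρ, rho_re] at this
    exact this
  refine ⟨hΨ, ?_, ?_, ?_, ?_, ?_⟩
  · intro s
    rcases eq_or_ne s ρ with hs | hs
    · have : (1 : ℂ) - conj s = s := by
        rw [hs, hρ]
        apply Complex.ext <;> simp [rho]
        ring
      rw [this]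
    · have h1 := h.symm s
      rw [hid s, hid (1 - conj s), norm_mul, norm_mul] at h1
      have h2 : ‖1 - conj s - ρ‖ = ‖s - ρ‖ := by
        rw [hρ, one_sub_conj_sub, norm_neg, Complex.norm_conj]
      rw [h2] at h1
      have h3 : ‖s - ρ‖ ≠ 0 := norm_ne_zero_iff.2 (sub_ne_zero.2 hs)
      exact mul_left_cancel₀ h3 h1
  · intro s hs h1
    exact h.ne s hs (by rw [hid s, h1, mul_zero])
  · obtain ⟨C, hC⟩ := h.upper
    obtain ⟨M, hM⟩ := (isCompact_closedBall ρ (1 / 8 : ℝ)).exists_bound_of_continuousOn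
      hΨ.continuous.continuousOn
    refine ⟨|C| + 3 + |M|, fun s hs => ?_⟩
    have hw := one_le_wt' s
    rcases le_or_gt ‖s - ρ‖ (1 / 8) with hd | hd
    · have h1 : ‖Ψ s‖ ≤ M := hM s (by rwa [mem_closedBall_iff_norm])
      refine h1.trans ?_
      have h2 : M ≤ |M| := le_abs_self M
      have h3 : |M| ≤ Real.exp |M| := by
        have := Real.add_one_le_exp |M|
        linarith
      refine h2.trans (h3.trans (Real.exp_le_exp.2 ?_))
      have h4 : |M| * 1 ≤ |M| * (1 + ‖s‖) ^ (3 / 2 : ℝ) :=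
        mul_le_mul_of_nonneg_left hw (abs_nonneg M)
      have h5 : 0 ≤ (|C| + 3) * (1 + ‖s‖) ^ (3 / 2 : ℝ) := by positivity
      nlinarith
    · have h1 := hC s hs
      rw [hid s, norm_mul] at h1
      have h2 : ‖Ψ s‖ ≤ 8 * Real.exp (C * (1 + ‖s‖) ^ (3 / 2 : ℝ)) := by
        have h3 : (1 / 8) * ‖Ψ s‖ ≤ ‖s - ρ‖ * ‖Ψ s‖ :=
          mul_le_mul_of_nonneg_right hd.le (norm_nonneg _)
        linarith
      have h8 : (8 : ℝ) ≤ Real.exp 3 := by
        have h9 : (2 : ℝ) ≤ Real.exp 1 := by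
          have := Real.add_one_le_exp (1 : ℝ)
          linarith
        have h10 : Real.exp 3 = Real.exp 1 ^ 3 := by
          rw [← Real.exp_nat_mul]
          norm_num
        rw [h10]
        nlinarith [mul_le_mul h9 h9 (by norm_num) (Real.exp_pos 1).le, Real.exp_pos 1,
          sq_nonneg (Real.exp 1 - 2)]
      refine h2.trans ?_
      refine (mul_le_mul_of_nonneg_right h8 (Real.exp_pos _).le).trans ?_
      rw [← Real.exp_add]
      apply Real.exp_le_exp.2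
      have h5 : C * (1 + ‖s‖) ^ (3 / 2 : ℝ) ≤ |C| * (1 + ‖s‖) ^ (3 / 2 : ℝ) :=
        mul_le_mul_of_nonneg_right (le_abs_self C) (by positivity)
      have h6 : 0 ≤ |M| * (1 + ‖s‖) ^ (3 / 2 : ℝ) := by positivity
      nlinarith
  · obtain ⟨C, hC⟩ := h.gr
    refine ⟨C + 1, fun s hs => ?_⟩
    have hs' : 1 / 2 < s.re := by linarith
    rw [logDeriv_step hΨ hid s hs' (h.ne s hs')]
    have h1 : ‖1 / (s - ρ)‖ ≤ 1 := by
      rw [norm_div, norm_one]
      have h2 := hsub s hs'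
      have h3 : (1 : ℝ) ≤ ‖s - ρ‖ := by linarith
      rw [div_le_one (by linarith)]
      exact h3
    have hw := one_le_wt s
    have h4 := norm_sub_le (logDeriv Φ s) (1 / (s - ρ))
    have h5 := hC s hs
    calc ‖logDeriv Φ s - 1 / (s - ρ)‖ ≤ ‖logDeriv Φ s‖ + ‖1 / (s - ρ)‖ := h4
      _ ≤ C * (1 + ‖s‖) ^ (1 / 2 : ℝ) + (1 + ‖s‖) ^ (1 / 2 : ℝ) := by linarith
      _ = (C + 1) * (1 + ‖s‖) ^ (1 / 2 : ℝ) := by ring
  · obtain ⟨C, hC⟩ := h.rb
    refine ⟨C + 1, fun σ hσ => ?_⟩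
    have hs' : 1 / 2 < (σ : ℂ).re := by
      rw [Complex.ofReal_re]
      linarith
    rw [logDeriv_step hΨ hid _ hs' (h.ne _ hs'), Complex.sub_re]
    have h1 : ‖1 / ((σ : ℂ) - ρ)‖ ≤ 1 := by
      rw [norm_div, norm_one]
      have h2 := hsub _ hs'
      rw [Complex.ofReal_re] at h2
      have h3 : (1 : ℝ) ≤ ‖(σ : ℂ) - ρ‖ := by linarith
      rw [div_le_one (by linarith)]
      exact h3
    have h2 := (Complex.abs_re_le_norm (1 / ((σ : ℂ) - ρ))).trans h1
    have h3 := (abs_le.1 h2).2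
    have h4 := hC σ hσ
    linarith

/-- Removal of one zero with its multiplicity. -/
lemma removeAll (γ : ℝ) : ∀ m : ℕ, ∀ Φ : ℂ → ℂ, Xi Φ → mult Φ γ = m → ∃ Ψ : ℂ → ℂ, Xi Ψ ∧
    (∀ s, Φ s = (s - rho γ) ^ m * Ψ s) ∧ Ψ (rho γ) ≠ 0 := by
  intro m
  induction m with
  | zero =>
    intro Φ h hm
    refine ⟨Φ, h, fun s => by simp, ?_⟩
    have h1 : analyticOrderAt Φ (rho γ) = 0 := by
      have h2 := Nat.cast_analyticOrderNatAt (ord_ne_top h (rho γ))
      rw [show analyticOrderNatAt Φ (rho γ) = 0 from hm] at h2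
      rw [← h2]
      rfl
    exact (anal h.diff _).analyticOrderAt_eq_zero.1 h1
  | succ m ih =>
    intro Φ h hm
    have h0 : Φ (rho γ) = 0 := by
      apply apply_eq_zero_of_analyticOrderNatAt_ne_zero
      rw [show analyticOrderNatAt Φ (rho γ) = m + 1 from hm]
      exact Nat.succ_ne_zero m
    have hX := step h γ h0
    have hid : ∀ s, Φ s = (s - rho γ) * dslope Φ (rho γ) s := fun s => mul_dslope h0 s
    have hfun : Φ = (fun s => s - rho γ) * dslope Φ (rho γ) := by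
      funext s
      exact hid s
    have hm2 : mult (dslope Φ (rho γ)) γ = m := by
      have h1 : analyticOrderNatAt Φ (rho γ)
          = analyticOrderNatAt (fun s => s - rho γ) (rho γ)
            + analyticOrderNatAt (dslope Φ (rho γ)) (rho γ) := by
        conv_lhs => rw [hfun]
        exact analyticOrderNatAt_mul (by fun_prop) (anal hX.diff _)
          (by rw [analyticOrderAt_id_sub_const_self]; exact ENat.one_ne_top) (ord_ne_top hX _)
      have h2 : analyticOrderNatAt (fun s : ℂ => s - rho γ) (rho γ) = 1 := by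
        unfold analyticOrderNatAt
        rw [analyticOrderAt_id_sub_const_self]
        rfl
      rw [h2, show analyticOrderNatAt Φ (rho γ) = m + 1 from hm] at h1
      have h3 : analyticOrderNatAt (dslope Φ (rho γ)) (rho γ) = m := by omega
      exact h3
    obtain ⟨Ψ, hΨ, h1, h2⟩ := ih (dslope Φ (rho γ)) hX hm2
    refine ⟨Ψ, hΨ, fun s => ?_, h2⟩
    rw [hid s, h1 s]
    ring

lemma mult_other {Φ Ψ : ℂ → ℂ} {γ γ' : ℝ} {m : ℕ} (hΨ : Xi Ψ)
    (hid : ∀ s, Φ s = (s - rho γ) ^ m * Ψ s) (hne : γ' ≠ γ) : mult Ψ γ' = mult Φ γ' := by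
  have hfun : Φ = (fun s => (s - rho γ) ^ m) * Ψ := by
    funext s
    exact hid s
  have h0 : analyticOrderAt (fun s : ℂ => (s - rho γ) ^ m) (rho γ') = 0 := by
    apply analyticOrderAt_eq_zero.2
    right
    apply pow_ne_zero
    rw [sub_ne_zero]
    intro h
    exact hne (rho_inj h)
  have h1 : analyticOrderNatAt Φ (rho γ')
      = analyticOrderNatAt (fun s => (s - rho γ) ^ m) (rho γ')
        + analyticOrderNatAt Ψ (rho γ') := by
    conv_lhs => rw [hfun]
    exact analyticOrderNatAt_mul (by fun_prop) (anal hΨ.diff _)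
      (by rw [h0]; exact ENat.zero_ne_top) (ord_ne_top hΨ _)
  have h2 : analyticOrderNatAt (fun s : ℂ => (s - rho γ) ^ m) (rho γ') = 0 := by
    unfold analyticOrderNatAt
    rw [h0]
    rfl
  rw [h2, zero_add] at h1
  exact h1.symm

lemma logDeriv_all {Φ Ψ : ℂ → ℂ} {γ : ℝ} {m : ℕ} (hΨ : Xi Ψ)
    (hid : ∀ s, Φ s = (s - rho γ) ^ m * Ψ s) (s : ℂ) (hs : 1 / 2 < s.re) :
    logDeriv Ψ s = logDeriv Φ s - (m : ℂ) / (s - rho γ) := by
  have h1 : Φ = fun z => (z - rho γ) ^ m * Ψ z := funext hid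
  have h2 : s - rho γ ≠ 0 := by
    intro h
    have := congrArg Complex.re h
    rw [Complex.sub_re, rho_re, Complex.zero_re] at this
    linarith
  have h4 : logDeriv Φ s = logDeriv (fun z => (z - rho γ) ^ m) s + logDeriv Ψ s := by
    rw [h1]
    exact logDeriv_mul s (pow_ne_zero _ h2) (hΨ.ne s hs) (by fun_prop) (hΨ.diff s)
  have h5 : logDeriv (fun z : ℂ => (z - rho γ) ^ m) s = (m : ℂ) / (s - rho γ) := by
    rw [logDeriv_fun_pow (by fun_prop : DifferentiableAt ℂ (fun z : ℂ => z - rho γ) s) m,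
      logDeriv_apply, deriv_sub_const, deriv_id'']
    ring
  rw [h4, h5]
  ring

end REMh

open REMh in
theorem stmt_REM : Stmt_REM := by
  intro Φ hΦ F
  suffices H : ∃ Ψ : ℂ → ℂ, Xi Ψ ∧
      (∀ s : ℂ, 1 / 2 < s.re → logDeriv Ψ s = HF Φ F s) ∧ (∀ γ ∈ F, Ψ (rho γ) ≠ 0) ∧
      (∀ s : ℂ, Ψ s = 0 → Φ s = 0) ∧ (∀ γ : ℝ, γ ∉ F → mult Ψ γ = mult Φ γ) by
    obtain ⟨Ψ, h1, h2, h3, h4, _⟩ := H
    exact ⟨Ψ, h1, h2, h3, h4⟩
  induction F using Finset.induction_on with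
  | empty =>
    refine ⟨Φ, hΦ, fun s _ => ?_, fun γ h => absurd h (Finset.notMem_empty γ), fun s h => h,
      fun γ _ => rfl⟩
    simp [HF]
  | insert γ F hγ ih =>
    obtain ⟨Ψ0, h1, h2, h3, h4, h5⟩ := ih
    obtain ⟨Ψ, g1, g2, g3⟩ := removeAll γ (mult Φ γ) Ψ0 h1 (h5 γ hγ)
    refine ⟨Ψ, g1, ?_, ?_, ?_, ?_⟩
    · intro s hs
      rw [logDeriv_all g1 g2 s hs, h2 s hs]
      unfold HF
      rw [Finset.sum_insert hγ]
      ring
    · intro γ' hγ'
      rcases Finset.mem_insert.1 hγ' with h | h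
      · rw [h]
        exact g3
      · intro h0
        exact h3 γ' h (by rw [g2, h0, mul_zero])
    · intro s hs
      exact h4 s (by rw [g2, hs, mul_zero])
    · intro γ' hγ'
      rw [Finset.mem_insert, not_or] at hγ'
      rw [mult_other g1 g2 hγ'.1, h5 γ' hγ'.2]

end Pool.Agent.AQ
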