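import Pool.Agent.Work.MP_99218a_nt.Interface
import Pool.Agent.Work.MP_99218a_nt.ONE
import Pool.Agent.Work.MP_081200_nt.Div

/-!
# Block RQ: the number of square roots is small
-/

set_option autoImplicit false

namespace Pool.Agent.AQ

open scoped Classical

namespace RQ

/-- At most two elements of `ZMod q` are killed by two. -/
lemma card_two_mul (q : ℕ) [NeZero q] :
    (Finset.univ.filter fun z : ZMod q => 2 * z = 0).card ≤ 2 := by
  have h : ((Finset.univ.filter fun z : ZMod q => 2 * z = 0).image ZMod.val) ⊆ {0, q / 2} := by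
    intro n hn
    rw [Finset.mem_image] at hn
    obtain ⟨z, hz, rfl⟩ := hn
    rw [Finset.mem_filter] at hz
    have h1 : ((2 * z.val : ℕ) : ZMod q) = 0 := by
      push_cast
      rw [ZMod.natCast_val, ZMod.cast_id]
      exact hz.2
    rw [ZMod.natCast_eq_zero_iff] at h1
    have h2 : z.val < q := z.val_lt
    obtain ⟨k, hk⟩ := h1
    have hk2 : k < 2 := by
      by_contra hcon
      push Not at hcon
      have : q * 2 ≤ q * k := Nat.mul_le_mul_left _ hcon
      omega
    rw [Finset.mem_insert, Finset.mem_singleton]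
    interval_cases k
    · left; omega
    · right; omega
  calc (Finset.univ.filter fun z : ZMod q => 2 * z = 0).card
      = ((Finset.univ.filter fun z : ZMod q => 2 * z = 0).image ZMod.val).card :=
        (Finset.card_image_of_injective _ (ZMod.val_injective q)).symm
    _ ≤ ({0, q / 2} : Finset ℕ).card := Finset.card_le_card h
    _ ≤ 2 := Finset.card_le_two

/-- Two roots with the same gcd differ by an element killed by two. -/
lemma key (q : ℕ) (X Y B : ℤ) (hB : IsCoprime B (q : ℤ)) (hq : 0 < q)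
    (hX : (q : ℤ) ∣ X ^ 2 - B ^ 2) (hY : (q : ℤ) ∣ Y ^ 2 - B ^ 2)
    (hd : Int.gcd (X - B) q = Int.gcd (Y - B) q) : (q : ℤ) ∣ 2 * (X - Y) := by
  have aux : ∀ Z : ℤ, (q : ℤ) ∣ Z ^ 2 - B ^ 2 → ∀ e : ℤ, (q : ℤ) = (Int.gcd (Z - B) q : ℤ) * e →
      e ∣ Z + B := by
    intro Z hZ e he
    have hg0 : (Int.gcd (Z - B) q : ℤ) ≠ 0 := by
      have : Int.gcd (Z - B) q ≠ 0 := by
        rw [Ne, Int.gcd_eq_zero_iff]
        rintro ⟨-, h⟩
        omega
      exact_mod_cast this
    obtain ⟨w, hw⟩ : (Int.gcd (Z - B) q : ℤ) ∣ Z - B := Int.gcd_dvd_left _ _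
    have hcop : IsCoprime e w := by
      have h1 := Int.gcd_eq_gcd_ab (Z - B) q
      refine ⟨Int.gcdB (Z - B) q, Int.gcdA (Z - B) q, ?_⟩
      apply mul_left_cancel₀ hg0
      calc (Int.gcd (Z - B) q : ℤ) * (Int.gcdB (Z - B) q * e + Int.gcdA (Z - B) q * w)
          = ((Int.gcd (Z - B) q : ℤ) * w) * Int.gcdA (Z - B) q
            + ((Int.gcd (Z - B) q : ℤ) * e) * Int.gcdB (Z - B) q := by ring
        _ = (Z - B) * Int.gcdA (Z - B) q + q * Int.gcdB (Z - B) q := by rw [← hw, ← he]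
        _ = (Int.gcd (Z - B) q : ℤ) * 1 := by rw [mul_one]; exact h1.symm
    have h2 : (Int.gcd (Z - B) q : ℤ) * e ∣ (Int.gcd (Z - B) q : ℤ) * (w * (Z + B)) := by
      rw [← he]
      have : (Int.gcd (Z - B) q : ℤ) * (w * (Z + B)) = Z ^ 2 - B ^ 2 := by
        calc (Int.gcd (Z - B) q : ℤ) * (w * (Z + B))
            = ((Int.gcd (Z - B) q : ℤ) * w) * (Z + B) := by ring
          _ = (Z - B) * (Z + B) := by rw [← hw]
          _ = Z ^ 2 - B ^ 2 := by ring
      rw [this]
      exact hZ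
    have h3 : e ∣ w * (Z + B) := Int.dvd_of_mul_dvd_mul_left hg0 h2
    exact hcop.dvd_of_dvd_mul_left h3
  obtain ⟨e, he⟩ : (Int.gcd (X - B) q : ℤ) ∣ (q : ℤ) := Int.gcd_dvd_right _ _
  set d : ℤ := (Int.gcd (X - B) q : ℤ) with hdd
  have hdY : (Int.gcd (Y - B) q : ℤ) = d := by rw [hdd, hd]
  have hXe : e ∣ X + B := aux X hX e he
  have hYe : e ∣ Y + B := aux Y hY e (by rw [hdY]; exact he)
  have hXd : d ∣ X - B := Int.gcd_dvd_left _ _
  have hYd : d ∣ Y - B := by
    rw [← hdY]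
    exact Int.gcd_dvd_left _ _
  have h1 : d ∣ X - Y := by
    have := dvd_sub hXd hYd
    have h : X - B - (Y - B) = X - Y := by ring
    rwa [h] at this
  have h2 : e ∣ X - Y := by
    have := dvd_sub hXe hYe
    have h : X + B - (Y + B) = X - Y := by ring
    rwa [h] at this
  obtain ⟨s, t, hst⟩ := hB
  -- 2 B = (X + B) - (X - B)
  obtain ⟨u, hu⟩ := hXd
  obtain ⟨v, hv⟩ := hXe
  obtain ⟨m, hm⟩ := h1
  obtain ⟨n, hn⟩ := h2
  -- 2 = 2 s B + 2 t q = s (e v - d u) + 2 t d e
  have h2B : (2 : ℤ) = s * (e * v - d * u) + 2 * t * (d * e) := by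
    have h5 : e * v - d * u = 2 * B := by rw [← hu, ← hv]; ring
    rw [h5, ← he]
    linear_combination -2 * hst
  have : 2 * (X - Y) = (q : ℤ) * (s * v * m - s * u * n + 2 * t * (X - Y)) := by
    calc 2 * (X - Y) = (s * (e * v - d * u) + 2 * t * (d * e)) * (X - Y) := by rw [← h2B]
      _ = s * e * v * (X - Y) - s * d * u * (X - Y) + 2 * t * (d * e) * (X - Y) := by ring
      _ = s * e * v * (d * m) - s * d * u * (e * n) + 2 * t * (d * e) * (X - Y) := by
          rw [← hm, ← hn]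
      _ = (d * e) * (s * v * m - s * u * n + 2 * t * (X - Y)) := by ring
      _ = _ := by rw [← he]
  exact ⟨_, this⟩

/-- The number of square roots is at most twice the number of divisors. -/
lemma rt_le (q : ℕ) (a : ℤ) (hq : 0 < q) (ha : IsUnit (a : ZMod q)) :
    rt q a ≤ 2 * q.divisors.card := by
  have : NeZero q := ⟨hq.ne'⟩
  have hrt : rt q a = (Finset.univ.filter fun b : ZMod q => b ^ 2 = (a : ZMod q)).card := by
    rw [rt, Nat.card_eq_fintype_card, Fintype.card_subtype]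
  rw [hrt]
  by_cases hex : ∃ b : ZMod q, b ^ 2 = (a : ZMod q)
  · obtain ⟨b, hb⟩ := hex
    have hbu : IsUnit b := by
      rw [← hb] at ha
      exact (isUnit_pow_iff (by norm_num)).mp ha
    have hcast : ∀ z : ZMod q, (((z.val : ℤ)) : ZMod q) = z := by
      intro z
      rw [Int.cast_natCast, ZMod.natCast_val, ZMod.cast_id]
    have hB : IsCoprime (b.val : ℤ) (q : ℤ) := by
      rw [isCoprime_comm, ← ZMod.coe_int_isUnit_iff_isCoprime, hcast]
      exact hbu
    have hdvd : ∀ z : ZMod q, z ^ 2 = (a : ZMod q) → (q : ℤ) ∣ (z.val : ℤ) ^ 2 - (b.val : ℤ) ^ 2 := by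
      intro z hz
      rw [← ZMod.intCast_zmod_eq_zero_iff_dvd _ q]
      push_cast
      rw [ZMod.natCast_val, ZMod.cast_id, ZMod.natCast_val, ZMod.cast_id, hz, hb, sub_self]
    set f : ZMod q → ℕ := fun z => Int.gcd ((z.val : ℤ) - (b.val : ℤ)) q with hf
    have hmaps : ∀ z ∈ Finset.univ.filter (fun b : ZMod q => b ^ 2 = (a : ZMod q)),
        f z ∈ q.divisors := by
      intro z _
      rw [Nat.mem_divisors]
      refine ⟨?_, hq.ne'⟩
      have : (f z : ℤ) ∣ (q : ℤ) := Int.gcd_dvd_right _ _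
      exact_mod_cast this
    have hfib : ∀ n ∈ q.divisors, ((Finset.univ.filter
        (fun b : ZMod q => b ^ 2 = (a : ZMod q))).filter fun z => f z = n).card ≤ 2 := by
      intro n _
      by_cases hne : ((Finset.univ.filter
        (fun b : ZMod q => b ^ 2 = (a : ZMod q))).filter fun z => f z = n).Nonempty
      · obtain ⟨y, hy⟩ := hne
        rw [Finset.mem_filter, Finset.mem_filter] at hy
        refine le_trans ?_ (card_two_mul q)
        refine Finset.card_le_card_of_injOn (fun z => z - y) ?_ ?_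
        · intro z hz
          rw [Finset.mem_coe, Finset.mem_filter, Finset.mem_filter] at hz
          rw [Finset.mem_coe, Finset.mem_filter]
          refine ⟨Finset.mem_univ _, ?_⟩
          have h1 := key q (z.val : ℤ) (y.val : ℤ) (b.val : ℤ) hB hq (hdvd z hz.1.2)
            (hdvd y hy.1.2) (by rw [hf] at hz hy; exact hz.2.trans hy.2.symm)
          rw [← ZMod.intCast_zmod_eq_zero_iff_dvd _ q] at h1
          push_cast at h1
          rw [ZMod.natCast_val, ZMod.cast_id, ZMod.natCast_val, ZMod.cast_id] at h1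
          exact h1
        · intro z _ w _ h
          exact sub_left_injective h
      · rw [Finset.not_nonempty_iff_eq_empty] at hne
        rw [hne, Finset.card_empty]
        omega
    exact Finset.card_le_mul_card_image_of_maps_to hmaps 2 hfib
  · have : (Finset.univ.filter fun b : ZMod q => b ^ 2 = (a : ZMod q)) = ∅ := by
      rw [Finset.filter_eq_empty_iff]
      intro b _ hb
      exact hex ⟨b, hb⟩
    rw [this, Finset.card_empty]
    omega

end RQ

theorem stmt_RQ : Stmt_RQ := by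
  intro ε hε
  obtain ⟨C, hC1, hC⟩ := Pool.Agent.Work.MP_081200_nt.div_bound (ε / 2) (by positivity)
  refine ⟨2 * (C * (16 : ℝ) ^ (ε / 2)), ?_⟩
  intro q a hq ha
  have h1 : (rt q a : ℝ) ≤ 2 * (q.divisors.card : ℝ) := by
    exact_mod_cast RQ.rt_le q a hq ha
  have h2 := hC q hq.ne'
  have hφ : 1 ≤ (q.totient : ℝ) := by
    exact_mod_cast Nat.totient_pos.mpr hq
  have h3 : (q : ℝ) ≤ 16 * (q.totient : ℝ) ^ 2 := by
    have h4 : ((q : ℝ)) ^ 3 ≤ 16 * (q.totient : ℝ) ^ 4 := by
      exact_mod_cast ONE.cube_le_totient q hq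
    have h5 : (q : ℝ) ^ 3 ≤ (16 * (q.totient : ℝ) ^ 2) ^ 3 := by
      have h6 : (q.totient : ℝ) ^ 4 ≤ (q.totient : ℝ) ^ 6 := pow_le_pow_right₀ hφ (by norm_num)
      calc (q : ℝ) ^ 3 ≤ 16 * (q.totient : ℝ) ^ 4 := h4
        _ ≤ 16 ^ 3 * (q.totient : ℝ) ^ 6 := by
            have h8 : (0 : ℝ) ≤ (q.totient : ℝ) ^ 6 := by positivity
            linarith
        _ = _ := by ring
    exact le_of_pow_le_pow_left₀ (by norm_num) (by positivity) h5
  have h7 : (q : ℝ) ^ (ε / 2) ≤ (16 : ℝ) ^ (ε / 2) * (q.totient : ℝ) ^ ε := by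
    calc (q : ℝ) ^ (ε / 2) ≤ (16 * (q.totient : ℝ) ^ 2) ^ (ε / 2) :=
          Real.rpow_le_rpow (by positivity) h3 (by positivity)
      _ = (16 : ℝ) ^ (ε / 2) * ((q.totient : ℝ) ^ 2) ^ (ε / 2) :=
          Real.mul_rpow (by norm_num) (by positivity)
      _ = _ := by
          rw [← Real.rpow_natCast (q.totient : ℝ) 2, ← Real.rpow_mul (by positivity)]
          congr 2
          push_cast
          ring
  calc (rt q a : ℝ) ≤ 2 * (q.divisors.card : ℝ) := h1
    _ ≤ 2 * (C * (q : ℝ) ^ (ε / 2)) := by linarith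
    _ ≤ 2 * (C * ((16 : ℝ) ^ (ε / 2) * (q.totient : ℝ) ^ ε)) := by
        have : C * (q : ℝ) ^ (ε / 2) ≤ C * ((16 : ℝ) ^ (ε / 2) * (q.totient : ℝ) ^ ε) :=
          mul_le_mul_of_nonneg_left h7 (by linarith)
        linarith
    _ = _ := by ring

end Pool.Agent.AQ
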