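import Pool.Agent.Work.MP_99218a_nt.Interface

/-!
# MP_99218a_nt, blocks SHL and SHR: shifting vertical lines of integration
-/

set_option autoImplicit false

namespace Pool.Agent.AQ

open Filter Topology MeasureTheory
open scoped ComplexConjugate

private lemma vl_re (σ y : ℝ) : (vl σ y).re = σ := by simp [vl]

private lemma vl_im (σ y : ℝ) : (vl σ y).im = y := by simp [vl]

private lemma continuous_vl (σ : ℝ) : Continuous (vl σ) := by
  unfold vl
  fun_prop

private lemma integrable_dom (C : ℝ) :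
    Integrable fun y : ℝ => C * (1 + ‖y‖) ^ (-(3 / 2) : ℝ) := by
  refine Integrable.const_mul ?_ C
  exact integrable_one_add_norm (E := ℝ) (μ := volume) (r := 3 / 2)
    (by rw [Module.finrank_self]; norm_num)

private lemma bound_vl {g : ℂ → ℂ} {C σ : ℝ} (hC : 0 ≤ C) {s : ℂ} (hs : |s.im| ≤ ‖s‖)
    (h : ‖g s‖ ≤ C * (1 + ‖s‖) ^ (-(3 / 2) : ℝ)) {y : ℝ} (hy : s.im = y) :
    ‖g s‖ ≤ C * (1 + ‖y‖) ^ (-(3 / 2) : ℝ) := by
  refine h.trans (mul_le_mul_of_nonneg_left ?_ hC)
  apply Real.rpow_le_rpow_of_nonpos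
  · positivity
  · rw [← hy, Real.norm_eq_abs]
    linarith
  · norm_num

private lemma const_nonneg {g : ℂ → ℂ} {C : ℝ} {s : ℂ}
    (h : ‖g s‖ ≤ C * (1 + ‖s‖) ^ (-(3 / 2) : ℝ)) : 0 ≤ C := by
  by_contra hC
  push Not at hC
  have h1 : 0 < (1 + ‖s‖) ^ (-(3 / 2) : ℝ) := by positivity
  have h2 : C * (1 + ‖s‖) ^ (-(3 / 2) : ℝ) < 0 := mul_neg_of_neg_of_pos hC h1
  linarith [norm_nonneg (g s)]

private lemma integrable_line {g : ℂ → ℂ} {C σ : ℝ}
    (hd : ∀ y : ℝ, DifferentiableAt ℂ g (vl σ y))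
    (hb : ∀ y : ℝ, ‖g (vl σ y)‖ ≤ C * (1 + ‖vl σ y‖) ^ (-(3 / 2) : ℝ)) :
    Integrable fun y : ℝ => g (vl σ y) := by
  have hC : 0 ≤ C := const_nonneg (hb 0)
  have hcont : Continuous fun y : ℝ => g (vl σ y) := by
    rw [continuous_iff_continuousAt]
    intro y
    exact ContinuousAt.comp (f := vl σ) (hd y).continuousAt (continuous_vl σ).continuousAt
  refine (integrable_dom C).mono' hcont.aestronglyMeasurable (Eventually.of_forall fun y => ?_)
  exact bound_vl (σ := σ) hC (Complex.abs_im_le_norm _) (hb y) (vl_im σ y)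

theorem stmt_SHL : Stmt_SHL := by
  intro g a b C hab hd hb
  have hra : ∀ y : ℝ, a ≤ (vl a y).re ∧ (vl a y).re ≤ b := fun y => by
    rw [vl_re]; exact ⟨le_rfl, hab⟩
  have hrb : ∀ y : ℝ, a ≤ (vl b y).re ∧ (vl b y).re ≤ b := fun y => by
    rw [vl_re]; exact ⟨hab, le_rfl⟩
  have hC : 0 ≤ C := const_nonneg (hb (vl a 0) (hra 0).1 (hra 0).2)
  have hia : Integrable fun y : ℝ => g (vl a y) :=
    integrable_line (fun y => hd _ (hra y).1 (hra y).2) (fun y => hb _ (hra y).1 (hra y).2)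
  have hib : Integrable fun y : ℝ => g (vl b y) :=
    integrable_line (fun y => hd _ (hrb y).1 (hrb y).2) (fun y => hb _ (hrb y).1 (hrb y).2)
  have hta : Tendsto (fun T : ℝ => ∫ y in (-T)..T, g (vl a y)) atTop (𝓝 (∫ y : ℝ, g (vl a y))) :=
    intervalIntegral_tendsto_integral hia tendsto_neg_atTop_atBot tendsto_id
  have htb : Tendsto (fun T : ℝ => ∫ y in (-T)..T, g (vl b y)) atTop (𝓝 (∫ y : ℝ, g (vl b y))) :=
    intervalIntegral_tendsto_integral hib tendsto_neg_atTop_atBot tendsto_id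
  -- horizontal sides
  have hhor : ∀ T : ℝ, ∀ τ : ℝ, |τ| = T →
      ‖∫ x in a..b, g ((x : ℂ) + τ * Complex.I)‖ ≤
        C * (1 + T) ^ (-(3 / 2) : ℝ) * |b - a| := by
    intro T τ hτ
    apply intervalIntegral.norm_integral_le_of_norm_le_const
    intro x hx
    rw [Set.uIoc_of_le hab] at hx
    have h1 : ((x : ℂ) + τ * Complex.I).re = x := by simp
    have h2 : ((x : ℂ) + τ * Complex.I).im = τ := by simp
    have h3 := bound_vl (σ := 0) hC (Complex.abs_im_le_norm _)
      (hb ((x : ℂ) + τ * Complex.I) (by rw [h1]; exact hx.1.le) (by rw [h1]; exact hx.2)) h2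
    rw [Real.norm_eq_abs, hτ] at h3
    exact h3
  have hz : Tendsto (fun T : ℝ => C * (1 + T) ^ (-(3 / 2) : ℝ) * |b - a|) atTop (𝓝 0) := by
    have h1 : Tendsto (fun T : ℝ => (1 + T) ^ (-(3 / 2) : ℝ)) atTop (𝓝 0) :=
      (tendsto_rpow_neg_atTop (by norm_num : (0 : ℝ) < 3 / 2)).comp
        (tendsto_atTop_add_const_left atTop 1 tendsto_id)
    have h2 := (h1.const_mul C).mul_const |b - a|
    simpa using h2
  have hht : Tendsto (fun T : ℝ => ∫ x in a..b, g ((x : ℂ) + (T : ℝ) * Complex.I)) atTop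
      (𝓝 0) := by
    apply squeeze_zero_norm' _ hz
    filter_upwards [eventually_ge_atTop 0] with T hT
    exact hhor T T (abs_of_nonneg hT)
  have hhb : Tendsto (fun T : ℝ => ∫ x in a..b, g ((x : ℂ) + ((-T : ℝ) : ℂ) * Complex.I)) atTop
      (𝓝 0) := by
    apply squeeze_zero_norm' _ hz
    filter_upwards [eventually_ge_atTop 0] with T hT
    exact hhor T (-T) (by rw [abs_neg, abs_of_nonneg hT])
  -- the rectangle
  have hrect : ∀ T : ℝ, 0 ≤ T →
      (∫ x in a..b, g ((x : ℂ) + ((-T : ℝ) : ℂ) * Complex.I)) -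
        (∫ x in a..b, g ((x : ℂ) + (T : ℝ) * Complex.I)) +
        Complex.I * (∫ y in (-T)..T, g (vl b y)) - Complex.I * (∫ y in (-T)..T, g (vl a y)) = 0 := by
    intro T hT
    have h := Complex.integral_boundary_rect_eq_zero_of_differentiableOn g (vl a (-T)) (vl b T)
      (by
        intro s hs
        apply DifferentiableAt.differentiableWithinAt
        rw [Complex.mem_reProdIm, vl_re, vl_re, Set.uIcc_of_le hab] at hs
        exact hd s hs.1.1 hs.1.2)
    rw [vl_re, vl_re, vl_im, vl_im] at h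
    simpa only [smul_eq_mul, vl] using h
  have hlim : Tendsto (fun T : ℝ =>
      (∫ x in a..b, g ((x : ℂ) + ((-T : ℝ) : ℂ) * Complex.I)) -
        (∫ x in a..b, g ((x : ℂ) + (T : ℝ) * Complex.I)) +
        Complex.I * (∫ y in (-T)..T, g (vl b y)) - Complex.I * (∫ y in (-T)..T, g (vl a y)))
      atTop (𝓝 (0 - 0 + Complex.I * (∫ y : ℝ, g (vl b y)) -
        Complex.I * (∫ y : ℝ, g (vl a y)))) :=
    ((hhb.sub hht).add (htb.const_mul Complex.I)).sub (hta.const_mul Complex.I)
  have hzero : Tendsto (fun T : ℝ =>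
      (∫ x in a..b, g ((x : ℂ) + ((-T : ℝ) : ℂ) * Complex.I)) -
        (∫ x in a..b, g ((x : ℂ) + (T : ℝ) * Complex.I)) +
        Complex.I * (∫ y in (-T)..T, g (vl b y)) - Complex.I * (∫ y in (-T)..T, g (vl a y)))
      atTop (𝓝 0) := by
    refine tendsto_const_nhds.congr' ?_
    filter_upwards [eventually_ge_atTop 0] with T hT
    exact (hrect T hT).symm
  have huniq := tendsto_nhds_unique hlim hzero
  have h1 : Complex.I * ((∫ y : ℝ, g (vl b y)) - (∫ y : ℝ, g (vl a y))) = 0 := by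
    rw [← huniq]; ring
  rcases mul_eq_zero.mp h1 with h2 | h2
  · exact absurd h2 Complex.I_ne_zero
  · exact (sub_eq_zero.mp h2).symm

theorem stmt_SHR : Stmt_SHR := by
  intro g a C hd hb
  have hC : 0 ≤ C := const_nonneg (hb (vl a 0) (by rw [vl_re]))
  have hshift : ∀ b : ℝ, a ≤ b → ∫ y : ℝ, g (vl a y) = ∫ y : ℝ, g (vl b y) := fun b hab =>
    stmt_SHL g a b C hab (fun s h1 _ => hd s h1) (fun s h1 _ => hb s h1)
  have hlim : Tendsto (fun b : ℝ => ∫ y : ℝ, g (vl b y)) atTop (𝓝 (∫ _ : ℝ, (0 : ℂ))) := by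
    apply tendsto_integral_filter_of_dominated_convergence
      (fun y : ℝ => C * (1 + ‖y‖) ^ (-(3 / 2) : ℝ))
    · filter_upwards [eventually_ge_atTop a] with b hab
      exact (integrable_line (fun y => hd _ (by rw [vl_re]; exact hab))
        (fun y => hb _ (by rw [vl_re]; exact hab))).aestronglyMeasurable
    · filter_upwards [eventually_ge_atTop a] with b hab
      refine Eventually.of_forall fun y => ?_
      exact bound_vl (σ := b) hC (Complex.abs_im_le_norm _)
        (hb _ (by rw [vl_re]; exact hab)) (vl_im b y)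
    · exact integrable_dom C
    · refine Eventually.of_forall fun y => ?_
      have h1 : Tendsto (fun b : ℝ => C * (1 + b) ^ (-(3 / 2) : ℝ)) atTop (𝓝 0) := by
        have h2 : Tendsto (fun T : ℝ => (1 + T) ^ (-(3 / 2) : ℝ)) atTop (𝓝 0) :=
          (tendsto_rpow_neg_atTop (by norm_num : (0 : ℝ) < 3 / 2)).comp
            (tendsto_atTop_add_const_left atTop 1 tendsto_id)
        simpa using h2.const_mul C
      apply squeeze_zero_norm' _ h1
      filter_upwards [eventually_ge_atTop a, eventually_ge_atTop 0] with b hab hb0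
      refine (hb _ (by rw [vl_re]; exact hab)).trans (mul_le_mul_of_nonneg_left ?_ hC)
      apply Real.rpow_le_rpow_of_nonpos
      · positivity
      · have h3 : |(vl b y).re| ≤ ‖vl b y‖ := Complex.abs_re_le_norm _
        rw [vl_re, abs_of_nonneg hb0] at h3
        linarith
      · norm_num
  have hconst : Tendsto (fun b : ℝ => ∫ y : ℝ, g (vl b y)) atTop (𝓝 (∫ y : ℝ, g (vl a y))) := by
    refine tendsto_const_nhds.congr' ?_
    filter_upwards [eventually_ge_atTop a] with b hab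
    exact hshift b hab
  have h := tendsto_nhds_unique hconst hlim
  rw [h, integral_zero]

end Pool.Agent.AQ
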