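import Mathlib

/-!
# MP_99218a_nt: weighted sums `∑ c(n) (y² - n²)` by partial summation
-/

set_option autoImplicit false

namespace Pool.Agent.AQ

open Filter Topology MeasureTheory Finset

/-- `|C(t) - α t| ≤ ε t + K`. -/
theorem lin_bound (c : ℕ → ℝ) (α : ℝ)
    (hc : Tendsto (fun t : ℝ => (∑ n ∈ Icc 0 ⌊t⌋₊, c n) / t) atTop (𝓝 α)) (ε : ℝ) (hε : 0 < ε) :
    ∃ K : ℝ, 0 ≤ K ∧ ∀ t : ℝ, 0 ≤ t → |(∑ n ∈ Icc 0 ⌊t⌋₊, c n) - α * t| ≤ ε * t + K := by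
  rw [Metric.tendsto_atTop] at hc
  obtain ⟨T0, hT0⟩ := hc ε hε
  set T := max T0 1 with hT
  have hT1 : 1 ≤ T := le_max_right _ _
  refine ⟨∑ n ∈ Icc 0 ⌊T⌋₊, |c n| + |α| * T, by positivity, ?_⟩
  intro t ht
  rcases le_or_gt T t with h | h
  · have h1 := hT0 t ((le_max_left _ _).trans h)
    have ht0 : 0 < t := by linarith
    rw [Real.dist_eq] at h1
    have h2 : (∑ n ∈ Icc 0 ⌊t⌋₊, c n) - α * t = ((∑ n ∈ Icc 0 ⌊t⌋₊, c n) / t - α) * t := by
      field_simp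
    rw [h2, abs_mul, abs_of_pos ht0]
    have h3 : 0 ≤ ∑ n ∈ Icc 0 ⌊T⌋₊, |c n| + |α| * T := by positivity
    nlinarith
  · have h1 : |∑ n ∈ Icc 0 ⌊t⌋₊, c n| ≤ ∑ n ∈ Icc 0 ⌊T⌋₊, |c n| := by
      refine (abs_sum_le_sum_abs _ _).trans (sum_le_sum_of_subset_of_nonneg ?_ fun _ _ _ => abs_nonneg _)
      exact Icc_subset_Icc_right (Nat.floor_le_floor h.le)
    have h2 : |α * t| ≤ |α| * T := by
      rw [abs_mul, abs_of_nonneg ht]
      gcongr
    calc |(∑ n ∈ Icc 0 ⌊t⌋₊, c n) - α * t| ≤ |∑ n ∈ Icc 0 ⌊t⌋₊, c n| + |α * t| := abs_sub _ _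
      _ ≤ ∑ n ∈ Icc 0 ⌊T⌋₊, |c n| + |α| * T := add_le_add h1 h2
      _ ≤ _ := by
        have : 0 ≤ ε * t := by positivity
        linarith

theorem weighted_eq (c : ℕ → ℝ) (y : ℝ) (hy : 0 ≤ y) :
    ∑ n ∈ Icc 0 ⌊y⌋₊, (y ^ 2 - (n : ℝ) ^ 2) * c n
      = ∫ t in (0 : ℝ)..y, 2 * t * ∑ n ∈ Icc 0 ⌊t⌋₊, c n := by
  have hd : ∀ t : ℝ, HasDerivAt (fun t : ℝ => y ^ 2 - t ^ 2) (-(2 * t)) t := by
    intro t
    have := (hasDerivAt_pow 2 t).const_sub (y ^ 2)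
    simpa using this
  have hder : deriv (fun t : ℝ => y ^ 2 - t ^ 2) = fun t => -(2 * t) := by
    funext t
    exact (hd t).deriv
  have h := sum_mul_eq_sub_integral_mul (f := fun t : ℝ => y ^ 2 - t ^ 2) c hy
    (fun t _ => (hd t).differentiableAt) (by
      rw [hder]
      exact (by fun_prop : Continuous fun t : ℝ => -(2 * t)).continuousOn.integrableOn_compact isCompact_Icc)
  rw [h, hder, intervalIntegral.integral_of_le hy]
  simp only [sub_self, zero_mul, zero_sub]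
  rw [← integral_neg]
  congr 1
  funext t
  ring

theorem weighted_tendsto (c : ℕ → ℝ) (α : ℝ)
    (hc : Tendsto (fun t : ℝ => (∑ n ∈ Icc 0 ⌊t⌋₊, c n) / t) atTop (𝓝 α)) :
    Tendsto (fun y : ℝ => (∑ n ∈ Icc 0 ⌊y⌋₊, (y ^ 2 - (n : ℝ) ^ 2) * c n) / y ^ 3) atTop
      (𝓝 (2 / 3 * α)) := by
  rw [Metric.tendsto_atTop]
  intro ε hε
  obtain ⟨K, hK, hb⟩ := lin_bound c α hc ε hε
  refine ⟨max 1 (4 * K / ε), fun y hy => ?_⟩
  have hy1 : 1 ≤ y := (le_max_left _ _).trans hy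
  have hy2 : 4 * K / ε ≤ y := (le_max_right _ _).trans hy
  have hy0 : 0 < y := by linarith
  rw [Real.dist_eq, weighted_eq c y hy0.le]
  have hmeas : Measurable fun t : ℝ => ∑ n ∈ Icc 0 ⌊t⌋₊, c n :=
    (measurable_from_nat (f := fun m : ℕ => ∑ n ∈ Icc 0 m, c n)).comp Nat.measurable_floor
  have hi1 : IntervalIntegrable (fun t : ℝ => 2 * t * (ε * t + K)) volume 0 y :=
    (by fun_prop : Continuous fun t : ℝ => 2 * t * (ε * t + K)).intervalIntegrable _ _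
  have hi2 : IntervalIntegrable (fun t : ℝ => 2 * t * (α * t)) volume 0 y :=
    (by fun_prop : Continuous fun t : ℝ => 2 * t * (α * t)).intervalIntegrable _ _
  have hptw : ∀ t ∈ Set.Ioc 0 y, ‖2 * t * (∑ n ∈ Icc 0 ⌊t⌋₊, c n) - 2 * t * (α * t)‖
      ≤ 2 * t * (ε * t + K) := by
    intro t ht
    rw [← mul_sub, norm_mul, Real.norm_eq_abs, Real.norm_eq_abs, abs_of_pos (by linarith [ht.1])]
    have := hb t ht.1.le
    have h0 : 0 ≤ 2 * t := by linarith [ht.1]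
    exact mul_le_mul_of_nonneg_left this h0
  have hi3 : IntervalIntegrable
      (fun t : ℝ => 2 * t * (∑ n ∈ Icc 0 ⌊t⌋₊, c n) - 2 * t * (α * t)) volume 0 y := by
    rw [intervalIntegrable_iff_integrableOn_Ioc_of_le hy0.le] at hi1 ⊢
    refine Integrable.mono' hi1 ?_ ?_
    · exact ((measurable_const.mul measurable_id).mul hmeas |>.sub (by fun_prop)).aestronglyMeasurable
    · exact (ae_restrict_iff' measurableSet_Ioc).mpr (Eventually.of_forall hptw)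
  have hi4 : IntervalIntegrable (fun t : ℝ => 2 * t * (∑ n ∈ Icc 0 ⌊t⌋₊, c n)) volume 0 y := by
    have := hi3.add hi2
    simpa using this
  have e1 : ∫ t in (0 : ℝ)..y, 2 * t * (α * t) = 2 / 3 * α * y ^ 3 := by
    have : ∀ t : ℝ, 2 * t * (α * t) = (2 * α) * t ^ 2 := fun t => by ring
    simp_rw [this]
    rw [intervalIntegral.integral_const_mul, integral_pow]
    norm_num
    ring
  have e2 : ∫ t in (0 : ℝ)..y, 2 * t * (ε * t + K) = 2 / 3 * ε * y ^ 3 + K * y ^ 2 := by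
    have : ∀ t : ℝ, 2 * t * (ε * t + K) = (2 * ε) * t ^ 2 + (2 * K) * t := fun t => by ring
    simp_rw [this]
    rw [intervalIntegral.integral_add
      ((by fun_prop : Continuous fun t : ℝ => (2 * ε) * t ^ 2).intervalIntegrable _ _)
      ((by fun_prop : Continuous fun t : ℝ => (2 * K) * t).intervalIntegrable _ _),
      intervalIntegral.integral_const_mul,
      intervalIntegral.integral_const_mul, integral_pow, integral_id]
    norm_num
    ring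
  have e3 : |(∫ t in (0 : ℝ)..y, 2 * t * (∑ n ∈ Icc 0 ⌊t⌋₊, c n)) - 2 / 3 * α * y ^ 3|
      ≤ 2 / 3 * ε * y ^ 3 + K * y ^ 2 := by
    rw [← e1, ← e2, ← intervalIntegral.integral_sub hi4 hi2]
    exact intervalIntegral.norm_integral_le_of_norm_le hy0.le
      (Eventually.of_forall fun t ht => hptw t ht) hi1
  have hy3 : 0 < y ^ 3 := by positivity
  have e4 : (∫ t in (0 : ℝ)..y, 2 * t * (∑ n ∈ Icc 0 ⌊t⌋₊, c n)) / y ^ 3 - 2 / 3 * α
      = ((∫ t in (0 : ℝ)..y, 2 * t * (∑ n ∈ Icc 0 ⌊t⌋₊, c n)) - 2 / 3 * α * y ^ 3) / y ^ 3 := by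
    field_simp
  rw [e4, abs_div, abs_of_pos hy3, div_lt_iff₀ hy3]
  have e5 : 4 * K ≤ y * ε := by rwa [div_le_iff₀ hε] at hy2
  have e6 : K * y ^ 2 ≤ ε / 4 * y ^ 3 := by
    have : 0 ≤ y ^ 2 := by positivity
    nlinarith
  nlinarith

end Pool.Agent.AQ
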