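import Mathlib
import Pool.Agent.Work.MP_99218a_nt.Interface
import Pool.Agent.Work.MP_99218a_nt.SQL
import Pool.Agent.Work.SW.AP

/-!
# MP_99218a_nt: block SQ (contribution of the prime powers)
-/

set_option autoImplicit false

namespace Pool.Agent.AQ

open Filter Topology MeasureTheory Finset ArithmeticFunction
open scoped Classical

/-- `log n` at the primes `n ≡ b`. -/
noncomputable def cb (q : ℕ) (b : ZMod q) (n : ℕ) : ℝ :=
  if n.Prime ∧ (n : ZMod q) = b then Real.log n else 0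

theorem cb_tendsto (q : ℕ) [NeZero q] (b : ZMod q) (hb : IsUnit b) :
    Tendsto (fun t : ℝ => (∑ n ∈ Icc 0 ⌊t⌋₊, cb q b n) / t) atTop (𝓝 (1 / (q.totient : ℝ))) := by
  obtain ⟨C, hC, hap⟩ := SW.psi_ap 1 1
  have hlog : Tendsto Real.log atTop atTop := Real.tendsto_log_atTop
  have hg1 : Tendsto (fun t : ℝ => C / Real.log t) atTop (𝓝 0) := hlog.const_div_atTop C
  have hg2 : Tendsto (fun t : ℝ => 2 * (Real.log t / t ^ (1 / 2 : ℝ))) atTop (𝓝 0) := by
    have := (isLittleO_log_rpow_atTop (r := 1 / 2) (by norm_num)).tendsto_div_nhds_zero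
    simpa using this.const_mul 2
  have hg : Tendsto (fun t : ℝ => C / Real.log t + 2 * (Real.log t / t ^ (1 / 2 : ℝ))) atTop (𝓝 0) := by
    simpa using hg1.add hg2
  rw [← sub_zero (1 / (q.totient : ℝ))]
  rw [tendsto_iff_norm_sub_tendsto_zero]
  rw [sub_zero]
  refine squeeze_zero' (Eventually.of_forall fun t => norm_nonneg _) ?_ hg
  filter_upwards [eventually_ge_atTop (2 : ℝ), hlog.eventually_ge_atTop (q : ℝ)] with t ht hqt
  have ht0 : 0 < t := by linarith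
  have hlt : 0 < Real.log t := Real.log_pos (by linarith)
  have h1 := hap q b hb t ht (by simpa using hqt)
  have h2 : ∑ n ∈ Icc 0 ⌊t⌋₊, cb q b n = ∑ n ∈ Ioc 0 ⌊t⌋₊, cb q b n := by
    rw [← Finset.add_sum_Ioc_eq_sum_Icc (Nat.zero_le _)]
    simp [cb]
  have h3 : |(∑ n ∈ (Ioc 0 ⌊t⌋₊).filter (fun n : ℕ => (n : ZMod q) = b), Λ n)
      - ∑ n ∈ Ioc 0 ⌊t⌋₊, cb q b n| ≤ 2 * √t * Real.log t := by
    have h4 : (∑ n ∈ (Ioc 0 ⌊t⌋₊).filter (fun n : ℕ => (n : ZMod q) = b), Λ n)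
        - ∑ n ∈ Ioc 0 ⌊t⌋₊, cb q b n
        = ∑ n ∈ (Ioc 0 ⌊t⌋₊).filter (fun n : ℕ => ¬ n.Prime), (if (n : ZMod q) = b then Λ n else 0) := by
      rw [sum_filter, sum_filter, ← sum_sub_distrib]
      refine sum_congr rfl fun n _ => ?_
      unfold cb
      by_cases hp : n.Prime
      · by_cases hn : (n : ZMod q) = b
        · simp [hp, hn, vonMangoldt_apply_prime hp]
        · simp [hp, hn]
      · simp [hp]
    rw [h4]
    have h5 := Chebyshev.psi_sub_theta_eq_sum_not_prime t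
    have h6 := Chebyshev.psi_sub_theta_le (x := t) (by linarith)
    rw [abs_of_nonneg (sum_nonneg fun n _ => by split_ifs; exacts [vonMangoldt_nonneg, le_rfl])]
    refine le_trans ?_ h6
    rw [h5]
    refine sum_le_sum fun n _ => ?_
    split_ifs
    · exact le_rfl
    · exact vonMangoldt_nonneg
  have h7 : |(∑ n ∈ Ioc 0 ⌊t⌋₊, cb q b n) - t / (q.totient : ℝ)|
      ≤ C * (t / Real.log t) + 2 * √t * Real.log t := by
    rw [pow_one] at h1
    rw [abs_le] at h1 h3 ⊢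
    constructor <;> linarith [h1.1, h1.2, h3.1, h3.2]
  rw [h2, Real.norm_eq_abs]
  have h8 : (∑ n ∈ Ioc 0 ⌊t⌋₊, cb q b n) / t - 1 / (q.totient : ℝ)
      = ((∑ n ∈ Ioc 0 ⌊t⌋₊, cb q b n) - t / (q.totient : ℝ)) / t := by
    field_simp
  rw [h8, abs_div, abs_of_pos ht0, div_le_iff₀ ht0]
  refine h7.trans (le_of_eq ?_)
  have h9 : t ^ (1 / 2 : ℝ) * √t = t := by
    rw [← Real.sqrt_eq_rpow, Real.mul_self_sqrt ht0.le]
  have h10 : 0 < t ^ (1 / 2 : ℝ) := by positivity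
  rw [← Real.sqrt_eq_rpow] at h9 h10 ⊢
  have h11 : √t = t / √t := by
    rw [eq_div_iff h10.ne', h9]
  rw [add_mul]
  congr 1
  · ring
  · nth_rewrite 1 [h11]
    ring

/-- The summand. -/
noncomputable def fq (q : ℕ) (a : ℤ) (x : ℝ) (n : ℕ) : ℝ :=
  if (n : ZMod q) = (a : ZMod q) then Λ n * (x - n) else 0

theorem psi1_split (q : ℕ) (a : ℤ) (x : ℝ) (hx : 1 ≤ x) (N : ℕ)
    (hN : ⌊Real.log x / Real.log 2⌋₊ ≤ N) (hN3 : 3 ≤ N) :
    psi1 q a x - ∑ n ∈ (Finset.Ioc 0 ⌊x⌋₊).filter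
      (fun n : ℕ => n.Prime ∧ (n : ZMod q) = (a : ZMod q)), Real.log n * (x - n)
      = (∑ p ∈ (Ioc 0 ⌊√x⌋₊).filter Nat.Prime, fq q a x (p ^ 2))
        + ∑ k ∈ Icc 3 N, ∑ p ∈ (Ioc 0 ⌊x ^ ((1 : ℝ) / k)⌋₊).filter Nat.Prime, fq q a x (p ^ k) := by
  have h1 : psi1 q a x = ∑ n ∈ (Ioc 0 ⌊x⌋₊).filter IsPrimePow, fq q a x n := by
    unfold psi1
    rw [sum_filter, sum_filter]
    refine sum_congr rfl fun n _ => ?_
    unfold fq
    by_cases hp : IsPrimePow n
    · simp [hp]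
    · simp [hp, vonMangoldt_eq_zero_iff.mpr hp]
  rw [h1, Chebyshev.sum_PrimePow_eq_sum_sum' (fq q a x) (by linarith) hN]
  have h2 : Icc 1 N = insert 1 (insert 2 (Icc 3 N)) := by
    ext k
    simp only [mem_Icc, mem_insert]
    omega
  rw [h2, sum_insert (by simp), sum_insert (by simp)]
  have h3 : ∑ p ∈ (Ioc 0 ⌊x ^ ((1 : ℝ) / ((1 : ℕ) : ℝ))⌋₊).filter Nat.Prime, fq q a x (p ^ 1)
      = ∑ n ∈ (Finset.Ioc 0 ⌊x⌋₊).filter
      (fun n : ℕ => n.Prime ∧ (n : ZMod q) = (a : ZMod q)), Real.log n * (x - n) := by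
    rw [Nat.cast_one, div_one, Real.rpow_one, sum_filter, sum_filter]
    refine sum_congr rfl fun n _ => ?_
    unfold fq
    rw [pow_one]
    by_cases hp : n.Prime
    · by_cases hn : (n : ZMod q) = (a : ZMod q)
      · simp [hp, hn, vonMangoldt_apply_prime hp]
      · simp [hn]
    · simp [hp]
  have h4 : x ^ ((1 : ℝ) / ((2 : ℕ) : ℝ)) = √x := by
    rw [Real.sqrt_eq_rpow]
    norm_num
  rw [h3, h4]
  ring

/-- The squares. -/
theorem squares_eq (q : ℕ) [NeZero q] (a : ℤ) (y : ℝ) :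
    ∑ p ∈ (Ioc 0 ⌊y⌋₊).filter Nat.Prime, fq q a (y ^ 2) (p ^ 2)
      = ∑ b ∈ (univ : Finset (ZMod q)).filter (fun b => b ^ 2 = (a : ZMod q)),
        ∑ n ∈ Icc 0 ⌊y⌋₊, (y ^ 2 - (n : ℝ) ^ 2) * cb q b n := by
  rw [sum_comm]
  have h2 : ∀ g : ℕ → ℝ, g 0 = 0 → ∑ n ∈ Icc 0 ⌊y⌋₊, g n = ∑ n ∈ Ioc 0 ⌊y⌋₊, g n := by
    intro g hg
    rw [← Finset.add_sum_Ioc_eq_sum_Icc (Nat.zero_le _), hg, zero_add]
  rw [h2 _ (by simp [cb]), sum_filter]
  refine sum_congr rfl fun n _ => ?_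
  unfold fq cb
  by_cases hp : n.Prime
  · rw [if_pos hp]
    by_cases hn : ((n ^ 2 : ℕ) : ZMod q) = (a : ZMod q)
    · rw [if_pos hn, vonMangoldt_apply_pow two_ne_zero, vonMangoldt_apply_prime hp]
      rw [sum_eq_single (n : ZMod q)]
      · rw [if_pos ⟨hp, rfl⟩]
        push_cast
        ring
      · intro b _ hb
        rw [if_neg (fun h => hb h.2.symm), mul_zero]
      · intro h
        exfalso
        apply h
        rw [mem_filter]
        refine ⟨mem_univ _, ?_⟩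
        rw [← hn]
        push_cast
        rfl
    · rw [if_neg hn]
      symm
      apply sum_eq_zero
      intro b hb
      rw [mem_filter] at hb
      rw [if_neg, mul_zero]
      rintro ⟨_, h⟩
      apply hn
      rw [← hb.2, ← h]
      push_cast
      rfl
  · simp [hp]

theorem rest_bound (q : ℕ) (a : ℤ) (x : ℝ) (hx : 1 ≤ x) (N : ℕ) :
    0 ≤ (∑ k ∈ Icc 3 N, ∑ p ∈ (Ioc 0 ⌊x ^ ((1 : ℝ) / k)⌋₊).filter Nat.Prime, fq q a x (p ^ k)) ∧
    (∑ k ∈ Icc 3 N, ∑ p ∈ (Ioc 0 ⌊x ^ ((1 : ℝ) / k)⌋₊).filter Nat.Prime, fq q a x (p ^ k))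
      ≤ N * (x * (Real.log 4 * x ^ (1 / 3 : ℝ))) := by
  have hx0 : 0 < x := by linarith
  have hterm : ∀ k ∈ Icc 3 N, ∀ p ∈ (Ioc 0 ⌊x ^ ((1 : ℝ) / k)⌋₊).filter Nat.Prime,
      0 ≤ fq q a x (p ^ k) ∧ fq q a x (p ^ k) ≤ x * Real.log p := by
    intro k hk p hp
    rw [mem_Icc] at hk
    rw [mem_filter, mem_Ioc] at hp
    have hk0 : k ≠ 0 := by omega
    have hpx : (p : ℝ) ≤ x ^ ((1 : ℝ) / k) := (Nat.le_floor_iff (by positivity)).mp hp.1.2
    have hpk : ((p ^ k : ℕ) : ℝ) ≤ x := by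
      push_cast
      calc (p : ℝ) ^ k ≤ (x ^ ((1 : ℝ) / k)) ^ k := pow_le_pow_left₀ (by positivity) hpx k
        _ = x := by
          rw [← Real.rpow_natCast, ← Real.rpow_mul hx0.le, one_div,
            inv_mul_cancel₀ (by exact_mod_cast hk0), Real.rpow_one]
    have hlp : 0 ≤ Real.log p := Real.log_natCast_nonneg p
    unfold fq
    split_ifs
    · rw [vonMangoldt_apply_pow hk0, vonMangoldt_apply_prime hp.2]
      refine ⟨mul_nonneg hlp (by linarith), ?_⟩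
      rw [mul_comm]
      apply mul_le_mul_of_nonneg_right _ hlp
      have : (0 : ℝ) ≤ ((p ^ k : ℕ) : ℝ) := by positivity
      linarith
    · exact ⟨le_rfl, by positivity⟩
  constructor
  · exact sum_nonneg fun k hk => sum_nonneg fun p hp => (hterm k hk p hp).1
  · have hk : ∀ k ∈ Icc 3 N, ∑ p ∈ (Ioc 0 ⌊x ^ ((1 : ℝ) / k)⌋₊).filter Nat.Prime, fq q a x (p ^ k)
        ≤ x * (Real.log 4 * x ^ (1 / 3 : ℝ)) := by
      intro k hk
      calc ∑ p ∈ (Ioc 0 ⌊x ^ ((1 : ℝ) / k)⌋₊).filter Nat.Prime, fq q a x (p ^ k)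
          ≤ ∑ p ∈ (Ioc 0 ⌊x ^ ((1 : ℝ) / k)⌋₊).filter Nat.Prime, x * Real.log p :=
            sum_le_sum fun p hp => (hterm k hk p hp).2
        _ = x * Chebyshev.theta (x ^ ((1 : ℝ) / k)) := by
            rw [← mul_sum]
            rfl
        _ ≤ x * (Real.log 4 * x ^ (1 / 3 : ℝ)) := by
            apply mul_le_mul_of_nonneg_left _ hx0.le
            refine (Chebyshev.theta_le_log4_mul_x (by positivity)).trans ?_
            apply mul_le_mul_of_nonneg_left _ (Real.log_nonneg (by norm_num))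
            apply Real.rpow_le_rpow_of_exponent_le hx
            rw [mem_Icc] at hk
            have : (3 : ℝ) ≤ k := by exact_mod_cast hk.1
            exact one_div_le_one_div_of_le (by norm_num) this
    calc _ ≤ ∑ k ∈ Icc 3 N, x * (Real.log 4 * x ^ (1 / 3 : ℝ)) := sum_le_sum hk
      _ = ((Icc 3 N).card : ℝ) * (x * (Real.log 4 * x ^ (1 / 3 : ℝ))) := by
          rw [sum_const, nsmul_eq_mul]
      _ ≤ _ := by
          have hl4 : 0 ≤ Real.log 4 := Real.log_nonneg (by norm_num)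
          have : ((Icc 3 N).card : ℝ) ≤ N := by
            rw [Nat.card_Icc]
            exact_mod_cast (by omega : N + 1 - 3 ≤ N)
          gcongr

theorem stmt_SQ : Stmt_SQ := by
  intro q _ a ha
  have hφ : (0 : ℝ) < q.totient := by
    exact_mod_cast Nat.totient_pos.mpr (Nat.pos_of_ne_zero (NeZero.ne q))
  set B := (univ : Finset (ZMod q)).filter (fun b => b ^ 2 = (a : ZMod q)) with hB
  have hrt : (rt q a : ℝ) = B.card := by
    unfold rt
    rw [Nat.card_eq_fintype_card, Fintype.card_subtype]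
  have hsq : Tendsto (fun y : ℝ => (q.totient : ℝ) * ∑ b ∈ B,
      (∑ n ∈ Icc 0 ⌊y⌋₊, (y ^ 2 - (n : ℝ) ^ 2) * cb q b n) / y ^ 3) atTop
      (𝓝 (q.totient * ∑ b ∈ B, 2 / 3 * (1 / (q.totient : ℝ)))) := by
    apply Tendsto.const_mul
    apply tendsto_finsetSum
    intro b hb
    rw [hB, mem_filter] at hb
    apply weighted_tendsto
    apply cb_tendsto
    have : IsUnit (b ^ 2) := by rw [hb.2]; exact ha
    exact (isUnit_pow_iff two_ne_zero).mp this
  have hsq' := hsq.comp Real.tendsto_sqrt_atTop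
  have hlim : (q.totient : ℝ) * ∑ b ∈ B, 2 / 3 * (1 / (q.totient : ℝ)) = 2 / 3 * rt q a := by
    rw [hrt, sum_const, nsmul_eq_mul]
    field_simp
  rw [hlim] at hsq'
  -- the rest
  set R : ℝ → ℝ := fun x => (q.totient : ℝ) * (∑ k ∈ Icc 3 (⌊Real.log x / Real.log 2⌋₊ + 3),
    ∑ p ∈ (Ioc 0 ⌊x ^ ((1 : ℝ) / k)⌋₊).filter Nat.Prime, fq q a x (p ^ k)) / x ^ (3 / 2 : ℝ) with hR
  have hl2 : 0 < Real.log 2 := Real.log_pos (by norm_num)
  have hR0 : Tendsto R atTop (𝓝 0) := by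
    have hg : Tendsto (fun x : ℝ => (q.totient : ℝ) * Real.log 4 *
        (1 / Real.log 2 * (Real.log x / x ^ (1 / 6 : ℝ)) + 3 * x ^ (-(1 / 6 : ℝ)))) atTop (𝓝 0) := by
      have h1 := ((isLittleO_log_rpow_atTop (r := 1 / 6) (by norm_num)).tendsto_div_nhds_zero).const_mul
        (1 / Real.log 2)
      have h2 := (tendsto_rpow_neg_atTop (y := (1 / 6 : ℝ)) (by norm_num)).const_mul 3
      simpa using (h1.add h2).const_mul ((q.totient : ℝ) * Real.log 4)
    refine squeeze_zero' ?_ ?_ hg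
    · filter_upwards [eventually_ge_atTop (1 : ℝ)] with x hx
      have := (rest_bound q a x hx (⌊Real.log x / Real.log 2⌋₊ + 3)).1
      rw [hR]
      positivity
    · filter_upwards [eventually_ge_atTop (1 : ℝ)] with x hx
      have hx0 : 0 < x := by linarith
      have h := (rest_bound q a x hx (⌊Real.log x / Real.log 2⌋₊ + 3)).2
      have hN : ((⌊Real.log x / Real.log 2⌋₊ + 3 : ℕ) : ℝ) ≤ Real.log x / Real.log 2 + 3 := by
        push_cast
        have := Nat.floor_le (div_nonneg (Real.log_nonneg hx) hl2.le)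
        linarith
      have hl4 : 0 ≤ Real.log 4 := Real.log_nonneg (by norm_num)
      have h2 : (∑ k ∈ Icc 3 (⌊Real.log x / Real.log 2⌋₊ + 3),
          ∑ p ∈ (Ioc 0 ⌊x ^ ((1 : ℝ) / k)⌋₊).filter Nat.Prime, fq q a x (p ^ k))
          ≤ (Real.log x / Real.log 2 + 3) * (x * (Real.log 4 * x ^ (1 / 3 : ℝ))) :=
        h.trans (by gcongr)
      rw [hR]
      simp only
      rw [div_le_iff₀ (by positivity)]
      have e1 : x ^ (-(1 / 6 : ℝ)) * x ^ (3 / 2 : ℝ) = x * x ^ (1 / 3 : ℝ) := by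
        rw [← Real.rpow_add hx0]
        nth_rewrite 2 [← Real.rpow_one x]
        rw [← Real.rpow_add hx0]
        norm_num
      have e2 : Real.log x / x ^ (1 / 6 : ℝ) = Real.log x * x ^ (-(1 / 6 : ℝ)) := by
        rw [Real.rpow_neg hx0.le]
        rfl
      rw [e2]
      calc (q.totient : ℝ) * _ ≤ q.totient *
            ((Real.log x / Real.log 2 + 3) * (x * (Real.log 4 * x ^ (1 / 3 : ℝ)))) := by gcongr
        _ = q.totient * Real.log 4 * (Real.log x / Real.log 2 + 3) * (x * x ^ (1 / 3 : ℝ)) := by ring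
        _ = q.totient * Real.log 4 * (Real.log x / Real.log 2 + 3)
            * (x ^ (-(1 / 6 : ℝ)) * x ^ (3 / 2 : ℝ)) := by rw [e1]
        _ = _ := by ring
  have htot := hsq'.add hR0
  rw [add_zero] at htot
  refine htot.congr' ?_
  filter_upwards [eventually_ge_atTop (1 : ℝ)] with x hx
  have hx0 : 0 < x := by linarith
  have hsplit := psi1_split q a x hx (⌊Real.log x / Real.log 2⌋₊ + 3) (by omega) (by omega)
  rw [hsplit]
  have h3 := squares_eq q a (√x)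
  rw [Real.sq_sqrt hx0.le] at h3
  rw [h3, mul_add, add_div, hR]
  congr 1
  simp only [Function.comp_apply]
  rw [Real.sq_sqrt hx0.le, ← sum_div, mul_div_assoc]
  congr 2
  rw [Real.sqrt_eq_rpow, ← Real.rpow_natCast, ← Real.rpow_mul hx0.le]
  norm_num

end Pool.Agent.AQ
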