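import Pool.Agent.Work.MP_99218a_nt.Interface

/-!
# MP_99218a_nt, block TRA: the integrated error in terms of `EE`
-/

set_option autoImplicit false

namespace Pool.Agent.AQ.TRA

open Filter Topology MeasureTheory ArithmeticFunction
open scoped Classical

/-! ## The weight -/

noncomputable def kk (x v : ℝ) : ℝ := (x - v) / Real.log v

noncomputable def k1 (x v : ℝ) : ℝ := -(Real.log v)⁻¹ - (x - v) / (v * Real.log v ^ 2)

noncomputable def k2 (x v : ℝ) : ℝ :=
  2 / (v * Real.log v ^ 2) + (x - v) * (Real.log v + 2) / (v ^ 2 * Real.log v ^ 3)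

lemma hd0 (x v : ℝ) : HasDerivAt (fun v : ℝ => x - v) (-1) v := by
  simpa using (hasDerivAt_id v).const_sub x

lemma hd1 (x : ℝ) {v : ℝ} (hv : 1 < v) : HasDerivAt (kk x) (k1 x v) v := by
  have hl : 0 < Real.log v := Real.log_pos hv
  have hv0 : 0 < v := by linarith
  have h3 := (hd0 x v).div (Real.hasDerivAt_log hv0.ne') hl.ne'
  refine h3.congr_deriv ?_
  unfold k1
  field_simp

lemma hd2 (x : ℝ) {v : ℝ} (hv : 1 < v) : HasDerivAt (k1 x) (k2 x v) v := by
  have hl : 0 < Real.log v := Real.log_pos hv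
  have hv0 : 0 < v := by linarith
  have h1 := (Real.hasDerivAt_log hv0.ne').inv hl.ne'
  have h2 : HasDerivAt (fun v : ℝ => v * Real.log v ^ 2)
      (1 * Real.log v ^ 2 + v * (2 * Real.log v * v⁻¹)) v := by
    refine ((hasDerivAt_id v).mul ((Real.hasDerivAt_log hv0.ne').pow 2)).congr_deriv ?_
    simp
  have h3 := (hd0 x v).div h2 (by positivity)
  have h4 := h1.neg.sub h3
  refine h4.congr_deriv ?_
  unfold k2
  field_simp
  ring

lemma cont2 (x : ℝ) : ContinuousOn (k2 x) (Set.Ioi 1) := by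
  intro v hv
  have hv1 : (1 : ℝ) < v := hv
  have hl : 0 < Real.log v := Real.log_pos hv1
  have hv0 : 0 < v := by linarith
  have hc : ContinuousAt Real.log v := Real.continuousAt_log hv0.ne'
  apply ContinuousAt.continuousWithinAt
  unfold k2
  refine ContinuousAt.add (ContinuousAt.div continuousAt_const
    (continuousAt_id.mul (hc.pow 2)) (by show v * Real.log v ^ 2 ≠ 0; positivity)) ?_
  refine ContinuousAt.div ((continuousAt_const.sub continuousAt_id).mul
    (hc.add continuousAt_const)) ((continuousAt_id.pow 2).mul (hc.pow 3)) ?_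
  show v ^ 2 * Real.log v ^ 3 ≠ 0
  positivity

lemma cont1 (x : ℝ) : ContinuousOn (kk x) (Set.Ioi 1) := fun _ hv =>
  (hd1 x hv).continuousAt.continuousWithinAt

lemma sub1 {a b : ℝ} (ha : 2 ≤ a) (hab : a ≤ b) : Set.uIcc a b ⊆ Set.Ioi (1 : ℝ) := by
  rw [Set.uIcc_of_le hab]
  intro v hv
  exact lt_of_lt_of_le (by linarith) hv.1

lemma T1 {u x : ℝ} (hu : 2 ≤ u) (hx : u ≤ x) :
    ∫ v in u..x, (v - u) * k2 x v = kk x u - (x - u) / Real.log x := by
  have hder : ∀ v ∈ Set.uIcc u x,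
      HasDerivAt (fun v => (v - u) * k1 x v - kk x v) ((v - u) * k2 x v) v := by
    intro v hv
    have hv1 : (1 : ℝ) < v := sub1 hu hx hv
    have h1 := (((hasDerivAt_id v).sub_const u).mul (hd2 x hv1)).sub (hd1 x hv1)
    refine h1.congr_deriv ?_
    simp
  have hint : IntervalIntegrable (fun v => (v - u) * k2 x v) volume u x := by
    apply ContinuousOn.intervalIntegrable
    exact ((continuous_id.sub continuous_const).continuousOn).mul ((cont2 x).mono (sub1 hu hx))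
  rw [intervalIntegral.integral_eq_sub_of_hasDerivAt hder hint]
  simp only [kk, k1]
  ring

lemma T1' {u x : ℝ} (hu : 2 ≤ u) (hx : u ≤ x) :
    ∫ v in (2:ℝ)..x, max (v - u) 0 * k2 x v = kk x u - (x - u) / Real.log x := by
  have h2x : (2 : ℝ) ≤ x := hu.trans hx
  have hc : ContinuousOn (fun v => max (v - u) 0 * k2 x v) (Set.Ioi 1) :=
    (((continuous_id.sub continuous_const).max continuous_const).continuousOn).mul (cont2 x)
  have hi1 : IntervalIntegrable (fun v => max (v - u) 0 * k2 x v) volume 2 u :=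
    (hc.mono (sub1 le_rfl hu)).intervalIntegrable
  have hi2 : IntervalIntegrable (fun v => max (v - u) 0 * k2 x v) volume u x :=
    (hc.mono (sub1 hu hx)).intervalIntegrable
  rw [← intervalIntegral.integral_add_adjacent_intervals hi1 hi2]
  have e1 : ∫ v in (2:ℝ)..u, max (v - u) 0 * k2 x v = 0 := by
    rw [intervalIntegral.integral_congr (g := fun _ => (0 : ℝ))]
    · simp
    · intro v hv
      rw [Set.uIcc_of_le hu] at hv
      simp only
      rw [max_eq_right (by linarith [hv.2]), zero_mul]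
  have e2 : ∫ v in u..x, max (v - u) 0 * k2 x v = ∫ v in u..x, (v - u) * k2 x v := by
    apply intervalIntegral.integral_congr
    intro v hv
    rw [Set.uIcc_of_le hx] at hv
    simp only
    rw [max_eq_left (by linarith [hv.1])]
  rw [e1, e2, T1 hu hx, zero_add]

lemma T2 {x : ℝ} (hx : 2 ≤ x) :
    ∫ v in (2:ℝ)..x, kk x v = (∫ v in (2:ℝ)..x, (v - 2) ^ 2 / 2 * k2 x v)
      + (x - 2) ^ 2 / 2 / Real.log x := by
  have hder : ∀ v ∈ Set.uIcc 2 x,
      HasDerivAt (fun v => (v - 2) ^ 2 / 2 * k1 x v - (v - 2) * kk x v)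
        ((v - 2) ^ 2 / 2 * k2 x v - kk x v) v := by
    intro v hv
    have hv1 : (1 : ℝ) < v := sub1 le_rfl hx hv
    have h0 : HasDerivAt (fun v : ℝ => (v - 2) ^ 2 / 2) (v - 2) v := by
      have := (((hasDerivAt_id v).sub_const 2).pow 2).div_const 2
      refine this.congr_deriv ?_
      simp
    have h1 := (h0.mul (hd2 x hv1)).sub (((hasDerivAt_id v).sub_const 2).mul (hd1 x hv1))
    refine h1.congr_deriv ?_
    simp only [id, one_mul]
    ring
  have hi1 : IntervalIntegrable (fun v => (v - 2) ^ 2 / 2 * k2 x v) volume 2 x := by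
    apply ContinuousOn.intervalIntegrable
    exact ((((continuous_id.sub continuous_const).pow 2).div_const 2).continuousOn).mul
      ((cont2 x).mono (sub1 le_rfl hx))
  have hi2 : IntervalIntegrable (kk x) volume 2 x :=
    ((cont1 x).mono (sub1 le_rfl hx)).intervalIntegrable
  have h := intervalIntegral.integral_eq_sub_of_hasDerivAt hder (hi1.sub hi2)
  rw [intervalIntegral.integral_sub hi1 hi2] at h
  have e : (fun v => (v - 2) ^ 2 / 2 * k1 x v - (v - 2) * kk x v) x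
      - (fun v => (v - 2) ^ 2 / 2 * k1 x v - (v - 2) * kk x v) 2
      = - ((x - 2) ^ 2 / 2 / Real.log x) := by
    simp only [kk, k1]
    ring
  linarith

lemma T3 {x : ℝ} (hx : 2 ≤ x) :
    ∫ t in (2:ℝ)..x, (∫ u in (2:ℝ)..t, (Real.log u)⁻¹) = ∫ v in (2:ℝ)..x, kk x v := by
  have hcl : ContinuousOn (fun u : ℝ => (Real.log u)⁻¹) (Set.Ioi 1) := by
    intro v hv
    have hv1 : (1 : ℝ) < v := hv
    have hl : 0 < Real.log v := Real.log_pos hv1
    exact ((Real.continuousAt_log (by linarith)).inv₀ hl.ne').continuousWithinAt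
  have hL : ∀ v ∈ Set.uIcc 2 x, HasDerivAt (fun t => ∫ u in (2:ℝ)..t, (Real.log u)⁻¹)
      (Real.log v)⁻¹ v := by
    intro v hv
    have hv1 : (1 : ℝ) < v := sub1 le_rfl hx hv
    have hv2 : (2 : ℝ) ≤ v := by
      rw [Set.uIcc_of_le hx] at hv; exact hv.1
    apply intervalIntegral.integral_hasDerivAt_right
    · exact (hcl.mono (sub1 le_rfl hv2)).intervalIntegrable
    · exact hcl.stronglyMeasurableAtFilter isOpen_Ioi v hv1
    · exact hcl.continuousAt (isOpen_Ioi.mem_nhds hv1)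
  have hder : ∀ v ∈ Set.uIcc 2 x,
      HasDerivAt (fun t => (t - x) * ∫ u in (2:ℝ)..t, (Real.log u)⁻¹)
        ((∫ u in (2:ℝ)..v, (Real.log u)⁻¹) - kk x v) v := by
    intro v hv
    have h1 := ((hasDerivAt_id v).sub_const x).mul (hL v hv)
    refine h1.congr_deriv ?_
    simp only [id, one_mul, kk]
    ring
  have hi1 : IntervalIntegrable (fun t => ∫ u in (2:ℝ)..t, (Real.log u)⁻¹) volume 2 x := by
    apply ContinuousOn.intervalIntegrable
    exact fun v hv => (hL v hv).continuousAt.continuousWithinAt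
  have hi2 : IntervalIntegrable (kk x) volume 2 x :=
    ((cont1 x).mono (sub1 le_rfl hx)).intervalIntegrable
  have h := intervalIntegral.integral_eq_sub_of_hasDerivAt hder (hi1.sub hi2)
  rw [intervalIntegral.integral_sub hi1 hi2] at h
  simp only [sub_self, zero_mul, intervalIntegral.integral_same, mul_zero] at h
  linarith


/-! ## The sums -/

/-- The primes `p ≤ x` in the class of `a`. -/
noncomputable def SS (q : ℕ) (a : ℤ) (x : ℝ) : Finset ℕ :=
  (Finset.Ioc 0 ⌊x⌋₊).filter (fun n : ℕ => n.Prime ∧ (n : ZMod q) = (a : ZMod q))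

/-- `∑_{p ≤ x, p ≡ a} log p (x - p)`. -/
noncomputable def th1 (q : ℕ) (a : ℤ) (x : ℝ) : ℝ := ∑ n ∈ SS q a x, Real.log n * (x - n)

lemma mem_SS {q : ℕ} {a : ℤ} {x : ℝ} (hx : 0 ≤ x) {n : ℕ} :
    n ∈ SS q a x ↔ n.Prime ∧ (n : ℝ) ≤ x ∧ (n : ZMod q) = (a : ZMod q) := by
  unfold SS
  rw [Finset.mem_filter, Finset.mem_Ioc, Nat.le_floor_iff hx]
  constructor
  · rintro ⟨⟨_, h2⟩, h3, h4⟩
    exact ⟨h3, h2, h4⟩
  · rintro ⟨h1, h2, h3⟩
    exact ⟨⟨h1.pos, h2⟩, h1, h3⟩

lemma th1_eq {q : ℕ} {a : ℤ} {v x : ℝ} (hv : 0 ≤ v) (hvx : v ≤ x) :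
    th1 q a v = ∑ n ∈ SS q a x, Real.log n * max (v - n) 0 := by
  have hx : 0 ≤ x := hv.trans hvx
  have hsub : SS q a v ⊆ SS q a x := by
    intro n hn
    rw [mem_SS hv] at hn
    rw [mem_SS hx]
    exact ⟨hn.1, hn.2.1.trans hvx, hn.2.2⟩
  unfold th1
  rw [← Finset.sum_subset hsub]
  · apply Finset.sum_congr rfl
    intro n hn
    rw [mem_SS hv] at hn
    rw [max_eq_left (by linarith [hn.2.1])]
  · intro n hn hn'
    rw [mem_SS hx] at hn
    rw [mem_SS hv] at hn'
    have : v < n := by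
      by_contra hcon
      exact hn' ⟨hn.1, not_lt.mp hcon, hn.2.2⟩
    rw [max_eq_right (by linarith), mul_zero]

lemma th1_mono {q : ℕ} {a : ℤ} {v x : ℝ} (hv : 0 ≤ v) (hvx : v ≤ x) :
    th1 q a v ≤ th1 q a x := by
  rw [th1_eq hv hvx, th1_eq (hv.trans hvx) le_rfl]
  apply Finset.sum_le_sum
  intro n hn
  apply mul_le_mul_of_nonneg_left _ (Real.log_natCast_nonneg n)
  exact max_le_max (by linarith) le_rfl

lemma th1_nonneg {q : ℕ} {a : ℤ} {v : ℝ} (hv : 0 ≤ v) : 0 ≤ th1 q a v := by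
  rw [th1_eq hv le_rfl]
  exact Finset.sum_nonneg fun n _ => mul_nonneg (Real.log_natCast_nonneg n) (le_max_right _ _)

lemma ppi_eq {q : ℕ} {a : ℤ} {t x : ℝ} (ht : 0 ≤ t) (htx : t ≤ x) :
    (ppi q a t : ℝ) = ∑ n ∈ SS q a x, if (n : ℝ) ≤ t then (1 : ℝ) else 0 := by
  have hx : 0 ≤ x := ht.trans htx
  have h1 : ppi q a t = (SS q a t).card := by
    unfold ppi
    rw [← Nat.card_eq_finsetCard]
    apply Nat.card_congr
    apply Equiv.subtypeEquivRight
    intro n
    rw [mem_SS ht, ← ZMod.intCast_eq_intCast_iff, Int.cast_natCast]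
  rw [h1, ← Finset.sum_filter, Finset.sum_const, nsmul_eq_mul, mul_one]
  congr 2
  ext n
  rw [Finset.mem_filter, mem_SS ht, mem_SS hx]
  constructor
  · rintro ⟨h1, h2, h3⟩
    exact ⟨⟨h1, h2.trans htx, h3⟩, h2⟩
  · rintro ⟨⟨h1, _, h3⟩, h4⟩
    exact ⟨h1, h4, h3⟩

lemma step_mono (c : ℝ) : Monotone (fun t : ℝ => if c ≤ t then (1 : ℝ) else 0) := by
  intro s t hst
  simp only
  split_ifs with h1 h2
  · exact le_rfl
  · exact absurd (h1.trans hst) h2
  · exact zero_le_one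
  · exact le_rfl

lemma step_int {c x : ℝ} (hc : 0 ≤ c) (hx : c ≤ x) :
    ∫ t in (0:ℝ)..x, (if c ≤ t then (1 : ℝ) else 0) = x - c := by
  have hi : ∀ u v : ℝ, IntervalIntegrable (fun t : ℝ => if c ≤ t then (1 : ℝ) else 0) volume u v :=
    fun u v => (step_mono c).intervalIntegrable
  rw [← intervalIntegral.integral_add_adjacent_intervals (hi 0 c) (hi c x)]
  have e1 : ∫ t in (0:ℝ)..c, (if c ≤ t then (1 : ℝ) else 0) = 0 := by
    rw [intervalIntegral.integral_of_le hc, MeasureTheory.integral_Ioc_eq_integral_Ioo]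
    rw [MeasureTheory.setIntegral_congr_fun (g := fun _ => (0 : ℝ)) measurableSet_Ioo]
    · simp
    · intro t ht
      simp only
      rw [if_neg (not_le.mpr ht.2)]
  have e2 : ∫ t in c..x, (if c ≤ t then (1 : ℝ) else 0) = x - c := by
    rw [intervalIntegral.integral_congr (g := fun _ => (1 : ℝ))]
    · simp
    · intro t ht
      rw [Set.uIcc_of_le hx] at ht
      simp only
      rw [if_pos ht.1]
  rw [e1, e2, zero_add]

lemma ppi_int {q : ℕ} {a : ℤ} {x : ℝ} (hx : 0 ≤ x) :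
    IntervalIntegrable (fun t => (ppi q a t : ℝ)) volume 0 x ∧
    ∫ t in (0:ℝ)..x, (ppi q a t : ℝ) = ∑ n ∈ SS q a x, (x - n) := by
  have hcongr : Set.EqOn (fun t => (ppi q a t : ℝ))
      (fun t => ∑ n ∈ SS q a x, if (n : ℝ) ≤ t then (1 : ℝ) else 0) (Set.uIcc 0 x) := by
    intro t ht
    rw [Set.uIcc_of_le hx] at ht
    exact ppi_eq ht.1 ht.2
  have hi : ∀ n ∈ SS q a x, IntervalIntegrable (fun t : ℝ => if (n : ℝ) ≤ t then (1 : ℝ) else 0)
      volume 0 x := fun n _ => (step_mono n).intervalIntegrable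
  constructor
  · have h1 : IntervalIntegrable (fun t => ∑ n ∈ SS q a x, if (n : ℝ) ≤ t then (1 : ℝ) else 0)
        volume 0 x := by
      have := IntervalIntegrable.sum (SS q a x)
        (f := fun n => fun t : ℝ => if (n : ℝ) ≤ t then (1 : ℝ) else 0) hi
      rwa [Finset.sum_fn] at this
    refine h1.congr ?_
    intro t ht
    exact (hcongr (Set.uIoc_subset_uIcc ht)).symm
  · rw [intervalIntegral.integral_congr hcongr, intervalIntegral.integral_finsetSum hi]
    apply Finset.sum_congr rfl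
    intro n hn
    rw [mem_SS hx] at hn
    exact step_int (Nat.cast_nonneg n) hn.2.1

/-- Partial summation. -/
lemma main_id {q : ℕ} {a : ℤ} {x : ℝ} (hx : 2 ≤ x) :
    IntervalIntegrable (fun v => th1 q a v * k2 x v) volume 2 x ∧
    ∑ n ∈ SS q a x, (x - n) = th1 q a x / Real.log x + ∫ v in (2:ℝ)..x, th1 q a v * k2 x v := by
  have hx0 : 0 ≤ x := by linarith
  have hcongr : Set.EqOn (fun v => th1 q a v * k2 x v)
      (fun v => ∑ n ∈ SS q a x, Real.log n * (max (v - n) 0 * k2 x v)) (Set.uIcc 2 x) := by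
    intro v hv
    rw [Set.uIcc_of_le hx] at hv
    simp only
    rw [th1_eq (by linarith [hv.1]) hv.2, Finset.sum_mul]
    exact Finset.sum_congr rfl fun n _ => by ring
  have hi : ∀ n ∈ SS q a x, IntervalIntegrable
      (fun v : ℝ => Real.log n * (max (v - n) 0 * k2 x v)) volume 2 x := by
    intro n _
    apply IntervalIntegrable.const_mul
    exact ((((continuous_id.sub continuous_const).max continuous_const).continuousOn).mul
      ((cont2 x).mono (sub1 le_rfl hx))).intervalIntegrable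
  constructor
  · have h1 : IntervalIntegrable (fun v => ∑ n ∈ SS q a x, Real.log n * (max (v - n) 0 * k2 x v))
        volume 2 x := by
      have := IntervalIntegrable.sum (SS q a x)
        (f := fun n => fun v : ℝ => Real.log n * (max (v - n) 0 * k2 x v)) hi
      rwa [Finset.sum_fn] at this
    refine h1.congr ?_
    intro t ht
    exact (hcongr (Set.uIoc_subset_uIcc ht)).symm
  · rw [intervalIntegral.integral_congr hcongr, intervalIntegral.integral_finsetSum hi]
    unfold th1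
    rw [Finset.sum_div, ← Finset.sum_add_distrib]
    apply Finset.sum_congr rfl
    intro n hn
    rw [mem_SS hx0] at hn
    have hn2 : (2 : ℝ) ≤ n := by exact_mod_cast hn.1.two_le
    have hl : 0 < Real.log n := Real.log_pos (by linarith)
    rw [intervalIntegral.integral_const_mul, T1' hn2 hn.2.1]
    unfold kk
    field_simp
    ring

/-- The error term in the sum over primes. -/
noncomputable def FF (q : ℕ) (a : ℤ) (v : ℝ) : ℝ := q.totient * th1 q a v - (v - 2) ^ 2 / 2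

lemma A1_eq (hLI : Stmt_LI) {q : ℕ} {a : ℤ} {x : ℝ} (hx : 2 ≤ x) :
    A1 q a x = FF q a x / Real.log x + (∫ v in (2:ℝ)..x, FF q a v * k2 x v)
      - ((∫ t in (0:ℝ)..2, li t) + li 2 * (x - 2)) := by
  have hx0 : 0 ≤ x := by linarith
  obtain ⟨hp1, hp2⟩ := ppi_int (q := q) (a := a) hx0
  obtain ⟨hm1, hm2⟩ := main_id (q := q) (a := a) hx
  have hli := hLI.1 x hx0
  have hli2 := hLI.1 2 (by norm_num)
  have hli3 : IntervalIntegrable li volume 2 x := hli2.symm.trans hli
  have e1 : A1 q a x = q.totient * (∑ n ∈ SS q a x, (x - n)) - ∫ t in (0:ℝ)..x, li t := by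
    unfold A1
    rw [intervalIntegral.integral_sub (hp1.const_mul _) hli, intervalIntegral.integral_const_mul, hp2]
  have hcl : ContinuousOn (fun u : ℝ => (Real.log u)⁻¹) (Set.Ioi 1) := by
    intro v hv
    have hv1 : (1 : ℝ) < v := hv
    have hl : 0 < Real.log v := Real.log_pos hv1
    exact ((Real.continuousAt_log (by linarith)).inv₀ hl.ne').continuousWithinAt
  have hic : IntervalIntegrable (fun t => ∫ u in (2:ℝ)..t, (Real.log u)⁻¹) volume 2 x := by
    apply ContinuousOn.intervalIntegrable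
    apply intervalIntegral.continuousOn_primitive_interval'
    · exact (hcl.mono (sub1 le_rfl hx)).intervalIntegrable
    · exact Set.left_mem_uIcc
  have e2 : ∫ t in (0:ℝ)..x, li t = (∫ t in (0:ℝ)..2, li t) + li 2 * (x - 2)
      + ∫ v in (2:ℝ)..x, kk x v := by
    rw [← intervalIntegral.integral_add_adjacent_intervals hli2 hli3]
    have : ∫ t in (2:ℝ)..x, li t = ∫ t in (2:ℝ)..x, (li 2 + ∫ u in (2:ℝ)..t, (Real.log u)⁻¹) := by
      apply intervalIntegral.integral_congr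
      intro t ht
      rw [Set.uIcc_of_le hx] at ht
      exact hLI.2 t ht.1
    rw [this, intervalIntegral.integral_add intervalIntegrable_const hic, T3 hx,
      intervalIntegral.integral_const, smul_eq_mul]
    ring
  have hi1 : IntervalIntegrable (fun v => (v - 2) ^ 2 / 2 * k2 x v) volume 2 x := by
    apply ContinuousOn.intervalIntegrable
    exact ((((continuous_id.sub continuous_const).pow 2).div_const 2).continuousOn).mul
      ((cont2 x).mono (sub1 le_rfl hx))
  have e3 : ∫ v in (2:ℝ)..x, FF q a v * k2 x v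
      = q.totient * (∫ v in (2:ℝ)..x, th1 q a v * k2 x v)
        - ∫ v in (2:ℝ)..x, (v - 2) ^ 2 / 2 * k2 x v := by
    rw [← intervalIntegral.integral_const_mul, ← intervalIntegral.integral_sub (hm1.const_mul _) hi1]
    apply intervalIntegral.integral_congr
    intro v _
    simp only [FF]
    ring
  rw [e1, e2, e3, T2 hx, hm2]
  unfold FF
  ring

/-! ## Bounds -/

lemma log_cmp {v x : ℝ} (hv : 2 ≤ v) (hvx : v ≤ x) :
    Real.log x ≤ 13 * (x / v) ^ (1 / 8 : ℝ) * Real.log v := by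
  have hv0 : 0 < v := by linarith
  have hx0 : 0 < x := by linarith
  have hl2 : (2 / 3 : ℝ) ≤ Real.log 2 := by linarith [Real.log_two_gt_d9]
  have hlv : Real.log 2 ≤ Real.log v := Real.log_le_log (by norm_num) hv
  have h1 : Real.log x = Real.log v + Real.log (x / v) := by
    rw [Real.log_div hx0.ne' hv0.ne']; ring
  have hr : 1 ≤ x / v := by rw [le_div_iff₀ hv0]; linarith
  have hp : 1 ≤ (x / v) ^ (1 / 8 : ℝ) := Real.one_le_rpow hr (by norm_num)
  have h2 : Real.log (x / v) ≤ (x / v) ^ (1 / 8 : ℝ) / (1 / 8) :=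
    Real.log_le_rpow_div (by linarith) (by norm_num)
  have h3 : (x / v) ^ (1 / 8 : ℝ) / (1 / 8) ≤ 12 * (x / v) ^ (1 / 8 : ℝ) * Real.log v := by
    have : 8 * (x / v) ^ (1 / 8 : ℝ) ≤ 12 * (x / v) ^ (1 / 8 : ℝ) * Real.log v := by
      have h4 : (8 : ℝ) ≤ 12 * Real.log v := by linarith
      nlinarith
    linarith
  have h5 : Real.log v ≤ (x / v) ^ (1 / 8 : ℝ) * Real.log v := by
    have : 0 ≤ Real.log v := by linarith
    nlinarith
  linarith

lemma k2_bd {v x : ℝ} (hv : 2 ≤ v) (hvx : v ≤ x) :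
    0 ≤ k2 x v ∧ k2 x v ≤ 6 * x / (v ^ 2 * Real.log v ^ 2) := by
  have hv0 : 0 < v := by linarith
  have hx0 : 0 < x := by linarith
  have hl2 : (2 / 3 : ℝ) ≤ Real.log 2 := by linarith [Real.log_two_gt_d9]
  have hlv : Real.log 2 ≤ Real.log v := Real.log_le_log (by norm_num) hv
  have hl : 0 < Real.log v := by linarith
  unfold k2
  constructor
  · have : 0 ≤ x - v := by linarith
    positivity
  · have e1 : 2 / (v * Real.log v ^ 2) ≤ 2 * x / (v ^ 2 * Real.log v ^ 2) := by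
      rw [div_le_div_iff₀ (by positivity) (by positivity)]
      have : v * (v * Real.log v ^ 2) ≤ x * (v * Real.log v ^ 2) :=
        mul_le_mul_of_nonneg_right hvx (by positivity)
      nlinarith
    have e2 : (x - v) * (Real.log v + 2) / (v ^ 2 * Real.log v ^ 3)
        ≤ 4 * x / (v ^ 2 * Real.log v ^ 2) := by
      rw [div_le_div_iff₀ (by positivity) (by positivity)]
      have h1 : (x - v) * (Real.log v + 2) ≤ x * (4 * Real.log v) := by
        apply mul_le_mul (by linarith) (by linarith) (by positivity) hx0.le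
      have h2 : (x - v) * (Real.log v + 2) * (v ^ 2 * Real.log v ^ 2)
          ≤ x * (4 * Real.log v) * (v ^ 2 * Real.log v ^ 2) :=
        mul_le_mul_of_nonneg_right h1 (by positivity)
      calc (x - v) * (Real.log v + 2) * (v ^ 2 * Real.log v ^ 2)
          ≤ x * (4 * Real.log v) * (v ^ 2 * Real.log v ^ 2) := h2
        _ = 4 * x * (v ^ 2 * Real.log v ^ 3) := by ring
    calc 2 / (v * Real.log v ^ 2) + (x - v) * (Real.log v + 2) / (v ^ 2 * Real.log v ^ 3)
        ≤ 2 * x / (v ^ 2 * Real.log v ^ 2) + 4 * x / (v ^ 2 * Real.log v ^ 2) := add_le_add e1 e2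
      _ = 6 * x / (v ^ 2 * Real.log v ^ 2) := by ring

lemma integrand_bd {C v x F : ℝ} (hC : 0 ≤ C) (hv : 2 ≤ v) (hvx : v ≤ x)
    (hF : |F| ≤ C * v ^ (3 / 2 : ℝ)) :
    |F * k2 x v| ≤ 1014 * C * x ^ (5 / 4 : ℝ) / Real.log x ^ 2 * v ^ (-(3 / 4) : ℝ) := by
  have hv0 : 0 < v := by linarith
  have hx0 : 0 < x := by linarith
  have hlx : 0 < Real.log x := Real.log_pos (by linarith)
  have hlv : 0 < Real.log v := Real.log_pos (by linarith)
  obtain ⟨hk0, hk1⟩ := k2_bd hv hvx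
  have hcmp := log_cmp hv hvx
  have hsq : Real.log x ^ 2 ≤ 169 * (x / v) ^ (1 / 4 : ℝ) * Real.log v ^ 2 := by
    have h1 : Real.log x ^ 2 ≤ (13 * (x / v) ^ (1 / 8 : ℝ) * Real.log v) ^ 2 :=
      pow_le_pow_left₀ hlx.le hcmp 2
    have h2 : ((x / v) ^ (1 / 8 : ℝ)) ^ 2 = (x / v) ^ (1 / 4 : ℝ) := by
      rw [← Real.rpow_natCast, ← Real.rpow_mul (by positivity)]
      norm_num
    calc Real.log x ^ 2 ≤ (13 * (x / v) ^ (1 / 8 : ℝ) * Real.log v) ^ 2 := h1
      _ = 169 * ((x / v) ^ (1 / 8 : ℝ)) ^ 2 * Real.log v ^ 2 := by ring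
      _ = _ := by rw [h2]
  have h3 : 1 / Real.log v ^ 2 ≤ 169 * (x / v) ^ (1 / 4 : ℝ) / Real.log x ^ 2 := by
    rw [div_le_div_iff₀ (by positivity) (by positivity), one_mul]
    exact hsq
  have hxv : (x / v) ^ (1 / 4 : ℝ) = x ^ (1 / 4 : ℝ) * v ^ (-(1 / 4) : ℝ) := by
    rw [Real.div_rpow hx0.le hv0.le, Real.rpow_neg hv0.le, div_eq_mul_inv]
  have hvv : v ^ (3 / 2 : ℝ) * (v ^ 2)⁻¹ * v ^ (-(1 / 4) : ℝ) = v ^ (-(3 / 4) : ℝ) := by
    rw [← Real.rpow_natCast, ← Real.rpow_neg hv0.le, ← Real.rpow_add hv0, ← Real.rpow_add hv0]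
    norm_num
  have hxx : x * x ^ (1 / 4 : ℝ) = x ^ (5 / 4 : ℝ) := by
    nth_rewrite 1 [← Real.rpow_one x]
    rw [← Real.rpow_add hx0]
    norm_num
  calc |F * k2 x v| = |F| * k2 x v := by rw [abs_mul, abs_of_nonneg hk0]
    _ ≤ (C * v ^ (3 / 2 : ℝ)) * (6 * x / (v ^ 2 * Real.log v ^ 2)) :=
        mul_le_mul hF hk1 hk0 (by positivity)
    _ = 6 * C * x * (v ^ (3 / 2 : ℝ) * (v ^ 2)⁻¹) * (1 / Real.log v ^ 2) := by
        field_simp
    _ ≤ 6 * C * x * (v ^ (3 / 2 : ℝ) * (v ^ 2)⁻¹) * (169 * (x / v) ^ (1 / 4 : ℝ) / Real.log x ^ 2) :=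
        mul_le_mul_of_nonneg_left h3 (by positivity)
    _ = 1014 * C * (x * x ^ (1 / 4 : ℝ)) / Real.log x ^ 2
          * (v ^ (3 / 2 : ℝ) * (v ^ 2)⁻¹ * v ^ (-(1 / 4) : ℝ)) := by
        rw [hxv]; ring
    _ = _ := by rw [hvv, hxx]

lemma int_bd {C x : ℝ} (hC : 0 ≤ C) (hx : 2 ≤ x) (F : ℝ → ℝ)
    (hF : ∀ v : ℝ, 2 ≤ v → |F v| ≤ C * v ^ (3 / 2 : ℝ)) :
    |∫ v in (2:ℝ)..x, F v * k2 x v| ≤ 4056 * C * x ^ (3 / 2 : ℝ) / Real.log x ^ 2 := by
  have hx0 : 0 < x := by linarith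
  have hlx : 0 < Real.log x := Real.log_pos (by linarith)
  have hi : IntervalIntegrable (fun v : ℝ => v ^ (-(3 / 4) : ℝ)) volume 2 x :=
    intervalIntegral.intervalIntegrable_rpow' (by norm_num)
  have h1 : ‖∫ v in (2:ℝ)..x, F v * k2 x v‖ ≤ ∫ v in (2:ℝ)..x,
      1014 * C * x ^ (5 / 4 : ℝ) / Real.log x ^ 2 * v ^ (-(3 / 4) : ℝ) := by
    apply intervalIntegral.norm_integral_le_of_norm_le hx
    · refine Filter.Eventually.of_forall fun v hv => ?_
      exact integrand_bd hC hv.1.le hv.2 (hF v hv.1.le)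
    · exact hi.const_mul _
  rw [Real.norm_eq_abs, intervalIntegral.integral_const_mul] at h1
  have h2 : ∫ v in (2:ℝ)..x, v ^ (-(3 / 4) : ℝ) ≤ 4 * x ^ (1 / 4 : ℝ) := by
    rw [integral_rpow (Or.inl (by norm_num))]
    have e : (-(3 / 4) + 1 : ℝ) = 1 / 4 := by norm_num
    rw [e]
    have : (0 : ℝ) ≤ 2 ^ (1 / 4 : ℝ) := by positivity
    rw [div_le_iff₀ (by norm_num)]
    linarith
  have hxx : x ^ (5 / 4 : ℝ) * x ^ (1 / 4 : ℝ) = x ^ (3 / 2 : ℝ) := by
    rw [← Real.rpow_add hx0]; norm_num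
  calc |∫ v in (2:ℝ)..x, F v * k2 x v|
      ≤ 1014 * C * x ^ (5 / 4 : ℝ) / Real.log x ^ 2 * ∫ v in (2:ℝ)..x, v ^ (-(3 / 4) : ℝ) := h1
    _ ≤ 1014 * C * x ^ (5 / 4 : ℝ) / Real.log x ^ 2 * (4 * x ^ (1 / 4 : ℝ)) :=
        mul_le_mul_of_nonneg_left h2 (by positivity)
    _ = 4056 * C * (x ^ (5 / 4 : ℝ) * x ^ (1 / 4 : ℝ)) / Real.log x ^ 2 := by ring
    _ = _ := by rw [hxx]

/-- The expression in `Stmt_SQ`. -/
noncomputable def sq (q : ℕ) (a : ℤ) (x : ℝ) : ℝ :=
  (q.totient : ℝ) * (psi1 q a x - th1 q a x) / x ^ (3 / 2 : ℝ)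

lemma FF_eq {q : ℕ} {a : ℤ} {v : ℝ} (hv : 0 < v) :
    FF q a v = (EE q a v - sq q a v) * v ^ (3 / 2 : ℝ) + (2 * v - 2) := by
  have h : 0 < v ^ (3 / 2 : ℝ) := by positivity
  unfold EE sq FF
  field_simp
  ring

lemma FF_bd {q : ℕ} {a : ℤ} {L : ℝ} (hE : ∃ C : ℝ, ∀ x : ℝ, 1 ≤ x → |EE q a x| ≤ C)
    (hS : Tendsto (sq q a) atTop (𝓝 L)) :
    ∃ C : ℝ, 0 ≤ C ∧ ∀ v : ℝ, 2 ≤ v → |FF q a v| ≤ C * v ^ (3 / 2 : ℝ) := by
  obtain ⟨C1, hC1⟩ := hE
  have h1 : ∀ᶠ x in atTop, |sq q a x| < |L| + 1 := by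
    have := hS.abs
    exact this.eventually_lt_const (by linarith)
  obtain ⟨X0, hX0⟩ := Filter.eventually_atTop.mp h1
  set X : ℝ := max X0 2 with hX
  have hX2 : 2 ≤ X := le_max_right _ _
  have hC1n : 0 ≤ C1 := (abs_nonneg _).trans (hC1 1 le_rfl)
  have hvp : ∀ v : ℝ, 2 ≤ v → v ≤ v ^ (3 / 2 : ℝ) := by
    intro v hv
    nth_rewrite 1 [← Real.rpow_one v]
    exact Real.rpow_le_rpow_of_exponent_le (by linarith) (by norm_num)
  refine ⟨max (C1 + (|L| + 1) + 2) (q.totient * th1 q a X + X ^ 2), ?_, ?_⟩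
  · refine le_trans ?_ (le_max_left _ _)
    positivity
  · intro v hv
    have hv0 : 0 < v := by linarith
    have hvp' := hvp v hv
    have hpos : 0 < v ^ (3 / 2 : ℝ) := by positivity
    by_cases hc : v ≤ X
    · have ht1 := th1_nonneg (q := q) (a := a) hv0.le
      have ht2 := th1_mono (q := q) (a := a) hv0.le hc
      have hb : |FF q a v| ≤ q.totient * th1 q a X + X ^ 2 := by
        unfold FF
        rw [abs_le]
        have hq : (0 : ℝ) ≤ q.totient := Nat.cast_nonneg _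
        have h2 : (q.totient : ℝ) * th1 q a v ≤ q.totient * th1 q a X :=
          mul_le_mul_of_nonneg_left ht2 hq
        have h3 : 0 ≤ (q.totient : ℝ) * th1 q a v := mul_nonneg hq ht1
        have h4 : (v - 2) ^ 2 ≤ X ^ 2 := by
          apply pow_le_pow_left₀ (by linarith) (by linarith)
        constructor
        · nlinarith [sq_nonneg (v - 2)]
        · nlinarith [sq_nonneg (v - 2), sq_nonneg X]
      calc |FF q a v| ≤ q.totient * th1 q a X + X ^ 2 := hb
        _ ≤ max (C1 + (|L| + 1) + 2) (q.totient * th1 q a X + X ^ 2) := le_max_right _ _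
        _ ≤ max (C1 + (|L| + 1) + 2) (q.totient * th1 q a X + X ^ 2) * v ^ (3 / 2 : ℝ) := by
          apply le_mul_of_one_le_right
          · refine le_trans ?_ (le_max_left _ _)
            positivity
          · linarith
    · have hc' : X0 ≤ v := (le_max_left X0 2).trans (not_le.mp hc).le
      have h2 := hX0 v hc'
      have h3 := hC1 v (by linarith)
      rw [FF_eq hv0]
      have h4 : |(EE q a v - sq q a v) * v ^ (3 / 2 : ℝ)| ≤ (C1 + (|L| + 1)) * v ^ (3 / 2 : ℝ) := by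
        rw [abs_mul, abs_of_pos hpos]
        apply mul_le_mul_of_nonneg_right _ hpos.le
        exact (abs_sub _ _).trans (by linarith)
      have h5 : |2 * v - 2| ≤ 2 * v ^ (3 / 2 : ℝ) := by
        rw [abs_of_nonneg (by linarith)]; linarith
      calc |(EE q a v - sq q a v) * v ^ (3 / 2 : ℝ) + (2 * v - 2)|
          ≤ |(EE q a v - sq q a v) * v ^ (3 / 2 : ℝ)| + |2 * v - 2| := abs_add_le _ _
        _ ≤ (C1 + (|L| + 1)) * v ^ (3 / 2 : ℝ) + 2 * v ^ (3 / 2 : ℝ) := add_le_add h4 h5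
        _ = (C1 + (|L| + 1) + 2) * v ^ (3 / 2 : ℝ) := by ring
        _ ≤ _ := mul_le_mul_of_nonneg_right (le_max_left _ _) hpos.le

lemma lim_log (c : ℝ) (hc : 0 < c) :
    Tendsto (fun x : ℝ => Real.log x / x ^ c) atTop (𝓝 0) :=
  (isLittleO_log_rpow_atTop hc).tendsto_div_nhds_zero

theorem main (hLI : Stmt_LI) (hSQ : Stmt_SQ) : Stmt_TRA := by
  intro q _ a ha hE
  have hS : Tendsto (sq q a) atTop (𝓝 (2 / 3 * rt q a)) := hSQ q a ha
  obtain ⟨C, hC, hF⟩ := FF_bd hE hS
  set c0 : ℝ := ∫ t in (0:ℝ)..2, li t with hc0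
  set c1 : ℝ := li 2 with hc1
  -- the decomposition
  have hdec : ∀ x : ℝ, 2 ≤ x →
      A1 q a x * Real.log x / x ^ (3 / 2 : ℝ) - (EE q a x - 2 / 3 * rt q a)
        = -(sq q a x - 2 / 3 * rt q a) + (2 * x - 2) / x ^ (3 / 2 : ℝ)
          + Real.log x / x ^ (3 / 2 : ℝ) * (∫ v in (2:ℝ)..x, FF q a v * k2 x v)
          - Real.log x / x ^ (3 / 2 : ℝ) * (c0 + c1 * (x - 2)) := by
    intro x hx
    have hx0 : 0 < x := by linarith
    have hlx : 0 < Real.log x := Real.log_pos (by linarith)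
    have hp : 0 < x ^ (3 / 2 : ℝ) := by positivity
    rw [A1_eq hLI hx, FF_eq hx0]
    field_simp
    ring
  have l1 : Tendsto (fun x => -(sq q a x - 2 / 3 * rt q a)) atTop (𝓝 0) := by
    have := (hS.sub_const (2 / 3 * rt q a : ℝ)).neg
    simpa using this
  have hxp : ∀ x : ℝ, 2 ≤ x → x / x ^ (3 / 2 : ℝ) = 1 / x ^ (1 / 2 : ℝ) := by
    intro x hx
    have hx0 : 0 < x := by linarith
    rw [div_eq_div_iff (by positivity) (by positivity), one_mul]
    nth_rewrite 1 [← Real.rpow_one x]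
    rw [← Real.rpow_add hx0]
    norm_num
  have p1 : Tendsto (fun x : ℝ => 1 / x ^ (1 / 2 : ℝ)) atTop (𝓝 0) := by
    have := tendsto_rpow_neg_atTop (y := (1 / 2 : ℝ)) (by norm_num)
    refine this.congr' ?_
    filter_upwards [eventually_ge_atTop (0:ℝ)] with x hx
    rw [Real.rpow_neg hx]
    exact (one_div _).symm
  have p2 : Tendsto (fun x : ℝ => 1 / x ^ (3 / 2 : ℝ)) atTop (𝓝 0) := by
    have := tendsto_rpow_neg_atTop (y := (3 / 2 : ℝ)) (by norm_num)
    refine this.congr' ?_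
    filter_upwards [eventually_ge_atTop (0:ℝ)] with x hx
    rw [Real.rpow_neg hx, one_div]
  have l2 : Tendsto (fun x : ℝ => (2 * x - 2) / x ^ (3 / 2 : ℝ)) atTop (𝓝 0) := by
    have h := (p1.const_mul 2).sub (p2.const_mul 2)
    simp only [mul_zero, sub_zero] at h
    refine h.congr' ?_
    filter_upwards [eventually_ge_atTop (2:ℝ)] with x hx
    rw [sub_div, mul_div_assoc, hxp x hx]
    ring
  have l3 : Tendsto (fun x : ℝ => Real.log x / x ^ (3 / 2 : ℝ)
      * (∫ v in (2:ℝ)..x, FF q a v * k2 x v)) atTop (𝓝 0) := by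
    have h0 : Tendsto (fun x : ℝ => 4056 * C / Real.log x) atTop (𝓝 0) :=
      Real.tendsto_log_atTop.const_div_atTop _
    apply squeeze_zero_norm' _ h0
    filter_upwards [eventually_ge_atTop (2:ℝ)] with x hx
    have hx0 : 0 < x := by linarith
    have hlx : 0 < Real.log x := Real.log_pos (by linarith)
    have hp : 0 < x ^ (3 / 2 : ℝ) := by positivity
    rw [Real.norm_eq_abs, abs_mul, abs_of_pos (by positivity)]
    calc Real.log x / x ^ (3 / 2 : ℝ) * |∫ v in (2:ℝ)..x, FF q a v * k2 x v|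
        ≤ Real.log x / x ^ (3 / 2 : ℝ) * (4056 * C * x ^ (3 / 2 : ℝ) / Real.log x ^ 2) :=
          mul_le_mul_of_nonneg_left (int_bd hC hx _ hF) (by positivity)
      _ = 4056 * C / Real.log x := by field_simp
  have l4 : Tendsto (fun x : ℝ => Real.log x / x ^ (3 / 2 : ℝ) * (c0 + c1 * (x - 2)))
      atTop (𝓝 0) := by
    have h := ((lim_log (3 / 2) (by norm_num)).const_mul (c0 - 2 * c1)).add
      ((lim_log (1 / 2) (by norm_num)).const_mul c1)
    simp only [mul_zero, add_zero] at h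
    refine h.congr' ?_
    filter_upwards [eventually_ge_atTop (2:ℝ)] with x hx
    have e := hxp x hx
    have : Real.log x / x ^ (1 / 2 : ℝ) = Real.log x * (x / x ^ (3 / 2 : ℝ)) := by
      rw [e]; ring
    rw [this]
    ring
  have hall := ((l1.add l2).add l3).sub l4
  simp only [add_zero, sub_zero] at hall
  refine hall.congr' ?_
  filter_upwards [eventually_ge_atTop (2:ℝ)] with x hx
  rw [hdec x hx]

end Pool.Agent.AQ.TRA

namespace Pool.Agent.AQ

theorem stmt_TRA (hLI : Stmt_LI) (hSQ : Stmt_SQ) : Stmt_TRA := TRA.main hLI hSQ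

end Pool.Agent.AQ
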