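import Mathlib
import Pool.Agent.Work.MP_99218a_nt.Interface

set_option autoImplicit false

namespace Pool.Agent.AQ

open Filter Topology

theorem uap2_geom (z : ℂ) (hz : ‖z‖ = 1) (h1 : z ≠ 1) :
    Tendsto (fun n : ℕ => ((n : ℝ)⁻¹ : ℝ) • ∑ i ∈ Finset.range n, z ^ i) atTop (𝓝 0) := by
  have hd : z - 1 ≠ 0 := sub_ne_zero.2 h1
  have hb : ∀ n : ℕ, ‖((n : ℝ)⁻¹ : ℝ) • ∑ i ∈ Finset.range n, z ^ i‖
      ≤ (n : ℝ)⁻¹ * (2 / ‖z - 1‖) := by
    intro n
    rw [norm_smul, geom_sum_eq h1, norm_div, Real.norm_of_nonneg (by positivity)]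
    refine mul_le_mul_of_nonneg_left ?_ (by positivity)
    refine div_le_div_of_nonneg_right ?_ (norm_nonneg _)
    calc ‖z ^ n - 1‖ ≤ ‖z ^ n‖ + ‖(1 : ℂ)‖ := norm_sub_le _ _
      _ = 2 := by rw [norm_pow, hz, one_pow, norm_one]; norm_num
  refine squeeze_zero_norm hb ?_
  have h2 : Tendsto (fun n : ℕ => (n : ℝ)⁻¹) atTop (𝓝 0) := tendsto_inv_atTop_nhds_zero_nat
  have h3 := h2.mul_const (2 / ‖z - 1‖)
  rwa [zero_mul] at h3

theorem uap2_exp_ne (t : ℝ) (h0 : t ≠ 0) (h1 : |t| < 1) :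
    Complex.exp ((t : ℝ) * Complex.I) ≠ 1 := by
  intro h
  obtain ⟨n, hn⟩ := Complex.exp_eq_one_iff.1 h
  have h2 : ((t : ℝ) : ℂ) * Complex.I = ((n * (2 * Real.pi) : ℝ) : ℂ) * Complex.I := by
    rw [hn]
    push_cast
    ring
  have h3 := mul_right_cancel₀ Complex.I_ne_zero h2
  have h4 : t = n * (2 * Real.pi) := by exact_mod_cast h3
  have hpi := Real.pi_gt_three
  by_cases hn0 : n = 0
  · rw [hn0] at h4
    simp at h4
    exact h0 h4
  · have h5 : (1 : ℝ) ≤ |(n : ℝ)| := by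
      have := Int.one_le_abs hn0
      exact_mod_cast this
    rw [h4, abs_mul, abs_of_pos (by positivity : (0 : ℝ) < 2 * Real.pi)] at h1
    nlinarith

/-- The trigonometric polynomial. -/
noncomputable def uapP (F : Finset ℝ) (c : ℝ → ℂ) (u : ℝ) : ℂ :=
  ∑ γ ∈ F, c γ * Complex.exp ((γ * u : ℝ) * Complex.I)

theorem uap2_mean (F : Finset ℝ) (c : ℝ → ℂ) (h δ : ℝ) (hh : ∀ γ ∈ F, |(γ - δ) * h| < 1)
    (hpos : 0 < h) (L : ℂ) (hL : L = ∑ γ ∈ F, if γ = δ then c γ else 0) :
    Tendsto (fun n : ℕ => ((n : ℝ)⁻¹ : ℝ) • ∑ i ∈ Finset.range n,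
      uapP F c (i * h) * Complex.exp ((-(δ * (i * h)) : ℝ) * Complex.I)) atTop (𝓝 L) := by
  have h1 : ∀ n : ℕ, ((n : ℝ)⁻¹ : ℝ) • ∑ i ∈ Finset.range n,
      uapP F c (i * h) * Complex.exp ((-(δ * (i * h)) : ℝ) * Complex.I)
      = ∑ γ ∈ F, c γ * (((n : ℝ)⁻¹ : ℝ) • ∑ i ∈ Finset.range n,
        (Complex.exp (((γ - δ) * h : ℝ) * Complex.I)) ^ i) := by
    intro n
    have h2 : ∀ i : ℕ, uapP F c (i * h) * Complex.exp ((-(δ * (i * h)) : ℝ) * Complex.I)
        = ∑ γ ∈ F, c γ * (Complex.exp (((γ - δ) * h : ℝ) * Complex.I)) ^ i := by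
      intro i
      rw [uapP, Finset.sum_mul]
      refine Finset.sum_congr rfl fun γ _ => ?_
      rw [mul_assoc, ← Complex.exp_add, ← Complex.exp_nat_mul]
      congr 2
      push_cast
      ring
    simp only [h2]
    rw [Finset.sum_comm, Finset.smul_sum]
    refine Finset.sum_congr rfl fun γ _ => ?_
    rw [← Finset.mul_sum, mul_smul_comm]
  simp only [h1]
  rw [hL]
  refine tendsto_finset_sum _ fun γ hγ => ?_
  by_cases he : γ = δ
  · rw [if_pos he]
    have h3 : Tendsto (fun n : ℕ => c γ * (((n : ℝ)⁻¹ : ℝ) • ∑ i ∈ Finset.range n,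
        (Complex.exp (((γ - δ) * h : ℝ) * Complex.I)) ^ i)) atTop (𝓝 (c γ * 1)) := by
      refine Tendsto.const_mul _ ?_
      refine tendsto_const_nhds.congr' ?_
      filter_upwards [eventually_gt_atTop 0] with n hn
      have hn' : (n : ℝ) ≠ 0 := by exact_mod_cast hn.ne'
      rw [he, sub_self, zero_mul, Complex.ofReal_zero, zero_mul, Complex.exp_zero]
      simp only [one_pow, Finset.sum_const, Finset.card_range, nsmul_eq_mul, mul_one]
      rw [Complex.real_smul, ← Complex.ofReal_natCast, ← Complex.ofReal_mul,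
        inv_mul_cancel₀ hn', Complex.ofReal_one]
    rwa [mul_one] at h3
  · rw [if_neg he]
    have h3 := (uap2_geom (Complex.exp (((γ - δ) * h : ℝ) * Complex.I))
      (Complex.norm_exp_ofReal_mul_I _)
      (uap2_exp_ne _ (mul_ne_zero (sub_ne_zero.2 he) hpos.ne') (hh γ hγ))).const_mul (c γ)
    rwa [mul_zero] at h3

theorem stmt_UAP2 : Stmt_UAP2 := by
  intro G c hG hc0 him hre γ0
  have key : ∀ ε : ℝ, 0 < ε → ‖c γ0‖ ≤ 2 * ε := by
    intro ε hε
    obtain ⟨F0, hF0⟩ := hG ε hε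
    set F : Finset ℝ := insert γ0 F0 with hF
    have hP := hF0 F (Finset.subset_insert _ _)
    set K : ℝ := 1 + ∑ γ ∈ F, |γ| + |γ0| with hK
    have hS0 : 0 ≤ ∑ γ ∈ F, |γ| := Finset.sum_nonneg fun _ _ => abs_nonneg _
    have hK1 : 1 ≤ K := by
      have := abs_nonneg γ0
      linarith
    have hKpos : 0 < K := by linarith
    set h : ℝ := K⁻¹ with hh
    have hhpos : 0 < h := inv_pos.2 hKpos
    have hle : ∀ γ ∈ F, |γ| ≤ ∑ γ ∈ F, |γ| := fun γ hγ =>
      Finset.single_le_sum (f := fun γ : ℝ => |γ|) (fun _ _ => abs_nonneg _) hγ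
    have hsm : ∀ δ : ℝ, |δ| ≤ |γ0| → ∀ γ ∈ F, |(γ - δ) * h| < 1 := by
      intro δ hδ γ hγ
      rw [abs_mul, abs_of_pos hhpos, hh, ← div_eq_mul_inv, div_lt_one hKpos]
      have h1 := hle γ hγ
      have h2 : |γ - δ| ≤ |γ| + |δ| := abs_sub _ _
      linarith
    have m0 := uap2_mean F c h 0 (hsm 0 (by rw [abs_zero]; exact abs_nonneg _)) hhpos 0 (by
      symm
      refine Finset.sum_eq_zero fun γ _ => ?_
      by_cases he : γ = 0
      · rw [if_pos he, he, hc0]
      · rw [if_neg he])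
    have m1 := uap2_mean F c h γ0 (hsm γ0 le_rfl) hhpos (c γ0) (by
      rw [Finset.sum_ite_eq' F γ0 c, if_pos (Finset.mem_insert_self _ _)])
    have hu : Tendsto (fun n : ℕ => (n : ℝ) * h) atTop atTop :=
      Tendsto.atTop_mul_const hhpos tendsto_natCast_atTop_atTop
    have r1 : Tendsto (fun u : ℝ => max (G u).re 0) atTop (𝓝 0) := by
      rw [Metric.tendsto_nhds]
      intro η hη
      filter_upwards [hre (η / 2) (by positivity)] with u hu
      rw [Real.dist_eq, sub_zero, abs_of_nonneg (le_max_right _ _)]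
      exact max_lt (by linarith) hη
    have r2 : Tendsto (fun u : ℝ => 2 * max (G u).re 0 + |(G u).im|) atTop (𝓝 0) := by
      have h1 := (r1.const_mul 2).add him.abs
      simpa using h1
    have r3 := (r2.comp hu).cesaro
    have hpt : ∀ i : ℕ, ‖uapP F c (i * h)‖ ≤ (2 * max (G (i * h)).re 0 + |(G (i * h)).im|)
        - (uapP F c (i * h) * Complex.exp ((-(0 * (i * h)) : ℝ) * Complex.I)).re + 2 * ε := by
      intro i
      have h1 := hP (i * h) (by positivity)
      have h2 : ‖G (i * h) - uapP F c (i * h)‖ ≤ ε := h1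
      have h3 : ‖uapP F c (i * h)‖ ≤ ‖G (i * h)‖ + ε := by
        have h4 : uapP F c (i * h) = G (i * h) - (G (i * h) - uapP F c (i * h)) := by ring
        calc ‖uapP F c (i * h)‖ = ‖G (i * h) - (G (i * h) - uapP F c (i * h))‖ := by rw [← h4]
          _ ≤ ‖G (i * h)‖ + ‖G (i * h) - uapP F c (i * h)‖ := norm_sub_le _ _
          _ ≤ ‖G (i * h)‖ + ε := by linarith
      have h5 := Complex.norm_le_abs_re_add_abs_im (G (i * h))
      have h6 : |(G (i * h)).re| = 2 * max (G (i * h)).re 0 - (G (i * h)).re := by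
        rcases le_total 0 (G (i * h)).re with h7 | h7
        · rw [abs_of_nonneg h7, max_eq_left h7]; ring
        · rw [abs_of_nonpos h7, max_eq_right h7]; ring
      have h7 := (Complex.abs_re_le_norm _).trans h2
      rw [Complex.sub_re] at h7
      have h8 := (abs_le.1 h7).1
      rw [zero_mul, neg_zero, Complex.ofReal_zero, zero_mul, Complex.exp_zero, mul_one]
      linarith
    have lim : Tendsto (fun n : ℕ => (n : ℝ)⁻¹ * ∑ i ∈ Finset.range n,
          (2 * max (G (i * h)).re 0 + |(G (i * h)).im|)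
        - (((n : ℝ)⁻¹ : ℝ) • ∑ i ∈ Finset.range n,
          uapP F c (i * h) * Complex.exp ((-(0 * (i * h)) : ℝ) * Complex.I)).re + 2 * ε)
        atTop (𝓝 (0 - (0 : ℂ).re + 2 * ε)) :=
      (r3.sub ((Complex.continuous_re.tendsto _).comp m0)).add_const _
    rw [Complex.zero_re, sub_zero, zero_add] at lim
    refine le_of_tendsto_of_tendsto' m1.norm lim fun n => ?_
    rw [norm_smul, Real.norm_of_nonneg (by positivity)]
    have s1 : ‖∑ i ∈ Finset.range n,
        uapP F c (i * h) * Complex.exp ((-(γ0 * (i * h)) : ℝ) * Complex.I)‖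
        ≤ ∑ i ∈ Finset.range n, ‖uapP F c (i * h)‖ := by
      refine norm_sum_le_of_le _ fun i _ => ?_
      rw [norm_mul, Complex.norm_exp_ofReal_mul_I, mul_one]
    have s2 : ∑ i ∈ Finset.range n, ‖uapP F c (i * h)‖
        ≤ ∑ i ∈ Finset.range n, (2 * max (G (i * h)).re 0 + |(G (i * h)).im|)
        - (∑ i ∈ Finset.range n,
          uapP F c (i * h) * Complex.exp ((-(0 * (i * h)) : ℝ) * Complex.I)).re
        + n * (2 * ε) := by
      calc ∑ i ∈ Finset.range n, ‖uapP F c (i * h)‖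
          ≤ ∑ i ∈ Finset.range n, ((2 * max (G (i * h)).re 0 + |(G (i * h)).im|)
        - (uapP F c (i * h) * Complex.exp ((-(0 * (i * h)) : ℝ) * Complex.I)).re + 2 * ε) :=
            Finset.sum_le_sum fun i _ => hpt i
        _ = _ := by
            rw [Finset.sum_add_distrib, Finset.sum_sub_distrib, Finset.sum_const,
              Finset.card_range, nsmul_eq_mul, Complex.re_sum]
    have hn0 : (0 : ℝ) ≤ (n : ℝ)⁻¹ := by positivity
    have s3 := mul_le_mul_of_nonneg_left (s1.trans s2) hn0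
    refine s3.trans ?_
    rw [Complex.real_smul, Complex.re_ofReal_mul, mul_add, mul_sub]
    have s4 : (n : ℝ)⁻¹ * (n * (2 * ε)) ≤ 2 * ε := by
      rcases Nat.eq_zero_or_pos n with h0 | h0
      · rw [h0]; simp; positivity
      · have hn' : (n : ℝ) ≠ 0 := by exact_mod_cast h0.ne'
        rw [← mul_assoc, inv_mul_cancel₀ hn', one_mul]
    linarith
  have h1 : ‖c γ0‖ ≤ 0 := by
    refine le_of_forall_pos_le_add fun ε hε => ?_
    have := key (ε / 2) (by positivity)
    linarith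
  exact norm_le_zero_iff.1 h1

end Pool.Agent.AQ
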