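import Mathlib
import Pool.Agent.Work.MP_99218a_nt.Interface

/-!
# MP_99218a_nt, block XI: the completed functions are `Xi`
-/

set_option autoImplicit false

namespace Pool.Agent.AQ

open Filter Topology ArithmeticFunction
open scoped ComplexConjugate Classical

/-- The Dirichlet series of a bounded multiple of `Λ` is bounded on `re s ≥ 2`. -/
theorem xi_LSeries {f : ℕ → ℂ} (hf : ∀ n, ‖f n‖ ≤ 1) {s : ℂ} (hs : 2 ≤ s.re) :
    ‖LSeries (fun n => (Λ n : ℂ) * f n) s‖ ≤ ∑' n : ℕ, ‖LSeries.term (fun n => (Λ n : ℂ)) 2 n‖ := by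
  have hsum : Summable fun n : ℕ => ‖LSeries.term (fun n => (Λ n : ℂ)) 2 n‖ :=
    (ArithmeticFunction.LSeriesSummable_vonMangoldt (s := 2) (by norm_num)).norm
  refine tsum_of_norm_bounded hsum.hasSum fun n => ?_
  calc ‖LSeries.term (fun n => (Λ n : ℂ) * f n) s n‖
      ≤ ‖LSeries.term (fun n => (Λ n : ℂ)) s n‖ := by
        refine LSeries.norm_term_le s ?_
        rw [norm_mul]
        exact mul_le_of_le_one_right (norm_nonneg _) (hf n)
    _ ≤ ‖LSeries.term (fun n => (Λ n : ℂ)) 2 n‖ := by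
        refine LSeries.norm_term_le_of_re_le_re _ ?_ n
        simpa using hs

theorem xi_rpow {s z : ℂ} (h : ‖z‖ ≤ ‖s‖) : (1 + ‖z‖) ^ (1 / 2 : ℝ) ≤ (1 + ‖s‖) ^ (1 / 2 : ℝ) :=
  Real.rpow_le_rpow (by positivity) (by linarith) (by norm_num)

theorem xi_one {s : ℂ} : 1 ≤ (1 + ‖s‖) ^ (1 / 2 : ℝ) :=
  Real.one_le_rpow (by linarith [norm_nonneg s]) (by norm_num)

theorem xi_kap {q : ℕ} (χ : DirichletCharacter ℂ q) : 0 ≤ kap χ ∧ kap χ ≤ 1 := by
  unfold kap
  split_ifs <;> norm_num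

theorem stmt_XI (hD : Stmt_XID) (hN : Stmt_XIN) (hU : Stmt_XIU) (hE : Stmt_EXPL)
    (hG : Stmt_DIG) : Stmt_XI := by
  intro hgrh q _ χ
  set M : ℝ := ∑' n : ℕ, ‖LSeries.term (fun n => (Λ n : ℂ)) 2 n‖ with hM
  have hM0 : 0 ≤ M := tsum_nonneg fun n => norm_nonneg _
  obtain ⟨hk0, hk1⟩ := xi_kap χ
  have hL : ∀ s : ℂ, 2 ≤ s.re →
      ‖LSeries (fun n => (Λ n : ℂ) * χ.primitiveCharacter (n : ZMod χ.conductor)) s‖ ≤ M :=
    fun s hs => xi_LSeries (fun n => DirichletCharacter.norm_le_one _ _) hs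
  refine ⟨(hD q χ).1, (hD q χ).2, (hN q χ).1 hgrh, hU q χ, ?_, ?_⟩
  · obtain ⟨C, hC⟩ := hG.2.1 1 one_pos
    have hC0 : 0 ≤ C := by
      have h := (norm_nonneg _).trans (hC 1 (by simp))
      have h2 : (0 : ℝ) < (1 + ‖(1 : ℂ)‖) ^ (1 / 2 : ℝ) := by positivity
      exact nonneg_of_mul_nonneg_left h h2
    set c0 : ℝ := ‖(1 / 2 * (Real.log (χ.conductor / Real.pi) : ℂ) : ℂ)‖ with hc0
    refine ⟨2 + c0 + C + M, fun s hs => ?_⟩
    have hs1 : 1 < s.re := by linarith
    have hsn : 2 ≤ ‖s‖ := hs.trans (Complex.re_le_norm s)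
    change ‖Hc χ s‖ ≤ _
    rw [hE q χ s hs1]
    have h1 : ‖(if χ = 1 then 1 / s + 1 / (s - 1) else 0 : ℂ)‖ ≤ 2 := by
      split_ifs
      · have a1 : ‖1 / s‖ ≤ 1 := by
          rw [norm_div, norm_one, div_le_one (by linarith)]
          linarith
        have a2 : ‖1 / (s - 1)‖ ≤ 1 := by
          have : 1 ≤ ‖s - 1‖ := by
            have h := Complex.re_le_norm (s - 1)
            simp at h
            linarith
          rw [norm_div, norm_one, div_le_one (by linarith)]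
          exact this
        calc ‖1 / s + 1 / (s - 1)‖ ≤ ‖1 / s‖ + ‖1 / (s - 1)‖ := norm_add_le _ _
          _ ≤ 2 := by linarith
      · simp
    have h2 : ‖1 / 2 * Complex.digamma ((s + kap χ) / 2)‖ ≤ C * (1 + ‖s‖) ^ (1 / 2 : ℝ) := by
      have hre : 1 ≤ ((s + kap χ) / 2).re := by
        have : ((s + kap χ) / 2).re = (s.re + kap χ) / 2 := by simp
        rw [this]
        linarith
      have hz : ‖(s + kap χ) / 2‖ ≤ ‖s‖ := by
        rw [norm_div]
        have h3 : ‖s + (kap χ : ℂ)‖ ≤ ‖s‖ + 1 := by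
          refine (norm_add_le _ _).trans ?_
          rw [Complex.norm_real, Real.norm_of_nonneg hk0]
          linarith
        have h4 : ‖(2 : ℂ)‖ = 2 := by simp
        rw [h4]
        linarith
      have h5 := (hC _ hre).trans (mul_le_mul_of_nonneg_left (xi_rpow hz) hC0)
      rw [norm_mul]
      have h6 : ‖(1 / 2 : ℂ)‖ ≤ 1 := by norm_num
      calc ‖(1 / 2 : ℂ)‖ * ‖Complex.digamma ((s + kap χ) / 2)‖
          ≤ 1 * ‖Complex.digamma ((s + kap χ) / 2)‖ :=
            mul_le_mul_of_nonneg_right h6 (norm_nonneg _)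
        _ ≤ C * (1 + ‖s‖) ^ (1 / 2 : ℝ) := by rw [one_mul]; exact h5
    have h3 := hL s hs
    have h4 := xi_one (s := s)
    calc ‖_ + 1 / 2 * (Real.log (χ.conductor / Real.pi) : ℂ)
          + 1 / 2 * Complex.digamma ((s + kap χ) / 2)
          - LSeries (fun n => (Λ n : ℂ) * χ.primitiveCharacter (n : ZMod χ.conductor)) s‖
        ≤ 2 + c0 + C * (1 + ‖s‖) ^ (1 / 2 : ℝ) + M := by
          refine (norm_sub_le _ _).trans (add_le_add ((norm_add_le _ _).trans
            (add_le_add ((norm_add_le _ _).trans (add_le_add h1 le_rfl)) h2)) h3)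
      _ ≤ (2 + c0 + C + M) * (1 + ‖s‖) ^ (1 / 2 : ℝ) := by
          have hc00 : 0 ≤ c0 := norm_nonneg _
          nlinarith
  · refine ⟨-(1 / 2 * Real.log (χ.conductor / Real.pi)) + 1 + M, fun σ hσ => ?_⟩
    have hs1 : 1 < (σ : ℂ).re := by simp; linarith
    change _ ≤ (Hc χ σ).re
    rw [hE q χ σ hs1]
    have h1 : 0 ≤ (if χ = 1 then 1 / (σ : ℂ) + 1 / ((σ : ℂ) - 1) else 0 : ℂ).re := by
      split_ifs
      · have : (1 / (σ : ℂ) + 1 / ((σ : ℂ) - 1)) = ((1 / σ + 1 / (σ - 1) : ℝ) : ℂ) := by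
          push_cast
          ring
        rw [this, Complex.ofReal_re]
        have a1 : 0 ≤ 1 / σ := by positivity
        have a2 : 0 ≤ 1 / (σ - 1) := div_nonneg zero_le_one (by linarith)
        linarith
      · simp
    have hx : 1 ≤ (σ + kap χ) / 2 := by linarith
    have h2 : -1 ≤ (1 / 2 * Complex.digamma (((σ : ℂ) + kap χ) / 2)).re := by
      have e : (((σ : ℂ) + kap χ) / 2) = (((σ + kap χ) / 2 : ℝ) : ℂ) := by
        push_cast
        ring
      obtain ⟨-, h3, -⟩ := hG.2.2 ((σ + kap χ) / 2) (by linarith)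
      have h4 : 0 ≤ Real.log ((σ + kap χ) / 2) := Real.log_nonneg hx
      have h5 : 1 / ((σ + kap χ) / 2) ≤ 1 := by
        rw [div_le_one (by linarith)]
        exact hx
      rw [e]
      have h6 : (1 / 2 * Complex.digamma (((σ + kap χ) / 2 : ℝ) : ℂ)).re
          = 1 / 2 * (Complex.digamma (((σ + kap χ) / 2 : ℝ) : ℂ)).re := by
        have : (1 / 2 : ℂ) = ((1 / 2 : ℝ) : ℂ) := by push_cast; ring
        rw [this, Complex.re_ofReal_mul]
      rw [h6]
      linarith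
    have h3 : (LSeries (fun n => (Λ n : ℂ) * χ.primitiveCharacter (n : ZMod χ.conductor)) σ).re
        ≤ M := (Complex.re_le_norm _).trans (hL σ (by simpa using hσ))
    have h4 : (1 / 2 * (Real.log (χ.conductor / Real.pi) : ℂ)).re
        = 1 / 2 * Real.log (χ.conductor / Real.pi) := by
      have : (1 / 2 : ℂ) = ((1 / 2 : ℝ) : ℂ) := by push_cast; ring
      rw [this, Complex.re_ofReal_mul, Complex.ofReal_re]
    rw [Complex.sub_re, Complex.add_re, Complex.add_re, h4]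
    linarith

end Pool.Agent.AQ
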