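import Pool.Agent.Work.MP_99218a_nt.Interface

/-!
# MP_99218a_nt, block XID

helper17
-/

set_option autoImplicit false

namespace Pool.Agent.AQ

open Filter Topology Complex
open scoped ComplexConjugate Classical

lemma natCast_cpow_conj (n : ℕ) (z : ℂ) : (n : ℂ) ^ (conj z) = conj ((n : ℂ) ^ z) := by
  have := Complex.cpow_conj (n : ℂ) z (by rw [Complex.natCast_arg]; exact Real.pi_pos.ne)
  rw [this, Complex.conj_natCast]

lemma Gammaℝ_conj (s : ℂ) : Gammaℝ (conj s) = conj (Gammaℝ s) := by
  rw [Gammaℝ_def, Gammaℝ_def, map_mul, ← Complex.Gamma_conj]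
  have e2 : conj (2 : ℂ) = 2 := by
    have := Complex.conj_ofReal 2
    simpa using this
  have e1 : conj s / 2 = conj (s / 2) := by rw [map_div₀, e2]
  have e3 : -conj s / 2 = conj (-s / 2) := by rw [map_div₀, e2, map_neg]
  rw [e1, e3]
  congr 1
  have h := Complex.cpow_conj ((Real.pi : ℝ) : ℂ) (-s / 2)
    (by rw [Complex.arg_ofReal_of_nonneg Real.pi_pos.le]; exact Real.pi_pos.ne)
  rw [h, Complex.conj_ofReal]

/-- two entire functions which agree for `re s > 1` -/
lemma eq_of_eq_right {f g : ℂ → ℂ} (hf : Differentiable ℂ f) (hg : Differentiable ℂ g)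
    (h : ∀ s : ℂ, 1 < s.re → f s = g s) : f = g := by
  have h1 : AnalyticOnNhd ℂ f Set.univ := hf.differentiableOn.analyticOnNhd isOpen_univ
  have h2 : AnalyticOnNhd ℂ g Set.univ := hg.differentiableOn.analyticOnNhd isOpen_univ
  have hev : f =ᶠ[𝓝 (2 : ℂ)] g := by
    have h3 : ∀ᶠ z in 𝓝 (2 : ℂ), 1 < z.re := by
      have : IsOpen {z : ℂ | 1 < z.re} := isOpen_lt continuous_const Complex.continuous_re
      refine this.mem_nhds ?_
      show (1 : ℝ) < (2 : ℂ).re
      norm_num
    filter_upwards [h3] with z hz using h z hz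
  have hall := h1.eqOn_of_preconnected_of_eventuallyEq h2 isPreconnected_univ (Set.mem_univ _) hev
  funext s
  exact hall (Set.mem_univ s)

lemma diff_conj {f : ℂ → ℂ} (hf : Differentiable ℂ f) :
    Differentiable ℂ (fun s => conj (f (conj s))) := by
  intro z
  have h2 := (hf (conj z)).conj_conj
  rw [Complex.conj_conj] at h2
  exact h2

lemma LSeries_conj {f g : ℕ → ℂ} (hfg : ∀ n, g n = conj (f n)) (s : ℂ) :
    LSeries g (conj s) = conj (LSeries f s) := by
  unfold LSeries
  rw [Complex.conj_tsum]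
  refine tsum_congr fun n => ?_
  rcases Nat.eq_zero_or_pos n with rfl | hn
  · simp
  · rw [LSeries.term_of_ne_zero hn.ne', LSeries.term_of_ne_zero hn.ne', map_div₀,
      natCast_cpow_conj, hfg]

lemma inv_eq_conj {N : ℕ} [NeZero N] (χ : DirichletCharacter ℂ N) (a : ZMod N) :
    χ⁻¹ a = conj (χ a) := by
  have := MulChar.star_apply χ a
  rw [← MulChar.star_eq_inv]
  exact this

lemma even_inv {N : ℕ} [NeZero N] (χ : DirichletCharacter ℂ N) : χ⁻¹.Even ↔ χ.Even := by
  unfold DirichletCharacter.Even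
  rw [inv_eq_conj]
  constructor
  · intro h
    have := congrArg conj h
    rw [Complex.conj_conj, map_one] at this
    exact this
  · intro h; rw [h, map_one]

lemma completed_conj {N : ℕ} [NeZero N] {χ : DirichletCharacter ℂ N} (hχ : χ ≠ 1) (s : ℂ) :
    χ⁻¹.completedLFunction (conj s) = conj (χ.completedLFunction s) := by
  have hχ' : χ⁻¹ ≠ 1 := by rwa [ne_eq, inv_eq_one]
  have hd := DirichletCharacter.differentiable_completedLFunction hχ
  have hd' := DirichletCharacter.differentiable_completedLFunction hχ'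
  have h := eq_of_eq_right hd (diff_conj hd') ?_
  · rw [congrFun h s, Complex.conj_conj]
  intro s hs
  have hs0 : s ≠ 0 := by rintro rfl; norm_num at hs
  have hs' : 1 < (conj s).re := by rwa [conj_re]
  have hs0' : conj s ≠ 0 := by rwa [ne_eq, map_eq_zero]
  have e1 := DirichletCharacter.LFunction_eq_completed_div_gammaFactor χ s (Or.inl hs0)
  have e2 := DirichletCharacter.LFunction_eq_completed_div_gammaFactor χ⁻¹ (conj s) (Or.inl hs0')
  have g1 : ∀ z : ℂ, 1 < z.re → ∀ ψ : DirichletCharacter ℂ N, ψ.gammaFactor z ≠ 0 := by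
    intro z hz ψ
    unfold DirichletCharacter.gammaFactor
    split_ifs
    · exact Gammaℝ_ne_zero_of_re_pos (by linarith)
    · exact Gammaℝ_ne_zero_of_re_pos (by rw [add_re, one_re]; linarith)
  rw [eq_div_iff (g1 s hs χ)] at e1
  rw [eq_div_iff (g1 _ hs' χ⁻¹)] at e2
  rw [← e1, ← e2, map_mul]
  have l1 : χ⁻¹.LFunction (conj s) = conj (χ.LFunction s) := by
    rw [DirichletCharacter.LFunction_eq_LSeries χ hs, DirichletCharacter.LFunction_eq_LSeries χ⁻¹ hs']
    exact LSeries_conj (fun n => inv_eq_conj χ _) s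
  have l2 : χ⁻¹.gammaFactor (conj s) = conj (χ.gammaFactor s) := by
    unfold DirichletCharacter.gammaFactor
    rw [show (χ⁻¹.Even) = χ.Even from propext (even_inv χ)]
    split_ifs
    · exact Gammaℝ_conj s
    · rw [← Gammaℝ_conj, map_add, map_one]
  rw [l1, l2, Complex.conj_conj, Complex.conj_conj]

lemma zeta0_conj (s : ℂ) : completedRiemannZeta₀ (conj s) = conj (completedRiemannZeta₀ s) := by
  have hd := differentiable_completedZeta₀
  have h := eq_of_eq_right hd (diff_conj hd) ?_
  · rw [congrFun h (conj s), Complex.conj_conj]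
  intro s hs
  have hs0 : s ≠ 0 := by rintro rfl; norm_num at hs
  have key : ∀ z : ℂ, 1 < z.re → completedRiemannZeta₀ z =
      Gammaℝ z * LSeries 1 z + 1 / z + 1 / (1 - z) := by
    intro z hz
    have hz0 : z ≠ 0 := by rintro rfl; norm_num at hz
    have e1 := completedRiemannZeta_eq z
    have e2 := riemannZeta_def_of_ne_zero hz0
    rw [eq_div_iff (Gammaℝ_ne_zero_of_re_pos (by linarith))] at e2
    have e3 := LSeries_one_eq_riemannZeta hz
    rw [e3, mul_comm, e2, e1]
    ring
  have hs' : 1 < (conj s).re := by rwa [conj_re]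
  rw [key s hs, key _ hs', Gammaℝ_conj,
    LSeries_conj (f := 1) (g := 1) (fun n => by simp) s]
  simp

/-- the symmetry at a nontrivial primitive character -/
lemma symm_primitive {N : ℕ} [NeZero N] {χ : DirichletCharacter ℂ N} (hχ : χ ≠ 1)
    (hp : χ.IsPrimitive) (s : ℂ) :
    ‖(N : ℂ) ^ ((1 - conj s) / 2) * χ.completedLFunction (1 - conj s)‖ =
      ‖(N : ℂ) ^ (s / 2) * χ.completedLFunction s‖ := by
  have hN : (0 : ℝ) < N := Nat.cast_pos.2 (NeZero.pos N)
  have key : ∀ s : ℂ, ‖(N : ℂ) ^ ((1 - conj s) / 2) * χ.completedLFunction (1 - conj s)‖ =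
      ‖χ.rootNumber‖ * ‖(N : ℂ) ^ (s / 2) * χ.completedLFunction s‖ := by
    intro s
    rw [hp.completedLFunction_one_sub, completed_conj hχ]
    have hnorm : ∀ z : ℂ, ‖(N : ℂ) ^ z‖ = (N : ℝ) ^ z.re := fun z =>
      Complex.norm_natCast_cpow_of_pos (NeZero.pos N) z
    have r1 : ((1 - conj s) / 2 : ℂ).re = (1 - s.re) / 2 := by
      rw [Complex.div_ofNat_re, sub_re, one_re, conj_re]
    have r2 : (conj s - 1 / 2 : ℂ).re = s.re - 1 / 2 := by
      rw [sub_re, conj_re]; norm_num
    have r3 : (s / 2 : ℂ).re = s.re / 2 := by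
      rw [Complex.div_ofNat_re]
    rw [norm_mul, norm_mul, norm_mul, norm_mul, hnorm, hnorm, hnorm, r1, r2, r3, RCLike.norm_conj]
    have : (N : ℝ) ^ (s.re / 2) = (N : ℝ) ^ ((1 - s.re) / 2) * (N : ℝ) ^ (s.re - 1 / 2) := by
      rw [← Real.rpow_add hN]; congr 1; ring
    rw [this]; ring
  set c := ‖χ.rootNumber‖ with hc
  have hc0 : 0 ≤ c := norm_nonneg _
  have h2 := key (1 - conj s)
  have e : 1 - conj (1 - conj s) = s := by simp
  rw [e, key s] at h2
  rw [key s]
  set F := ‖(N : ℂ) ^ (s / 2) * χ.completedLFunction s‖ with hF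
  rcases eq_or_ne F 0 with h0 | h0
  · rw [h0, mul_zero]
  · have h3 : c * c = 1 := by
      have : F * (c * c - 1) = 0 := by linear_combination -h2
      rcases mul_eq_zero.1 this with h | h
      · exact absurd h h0
      · linarith
    have h4 : c = 1 := by nlinarith
    rw [h4, one_mul]

theorem stmt_XID : Stmt_XID := by
  intro q _ χ
  haveI : NeZero χ.conductor := ⟨χ.conductor_ne_zero⟩
  by_cases h1 : χ = 1
  · have e : PhiC χ = fun s => s * (s - 1) * completedRiemannZeta₀ s + 1 := by
      unfold PhiC; rw [if_pos h1]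
    rw [e]
    have hd := differentiable_completedZeta₀
    refine ⟨by fun_prop, fun s => ?_⟩
    show ‖(1 - conj s) * (1 - conj s - 1) * completedRiemannZeta₀ (1 - conj s) + 1‖ =
      ‖s * (s - 1) * completedRiemannZeta₀ s + 1‖
    rw [completedRiemannZeta₀_one_sub, zeta0_conj]
    rw [← RCLike.norm_conj (s * (s - 1) * completedRiemannZeta₀ s + 1)]
    congr 1
    simp only [map_add, map_mul, map_sub, map_one]
    ring
  · have e : PhiC χ = fun s => (χ.conductor : ℂ) ^ (s / 2) *
        χ.primitiveCharacter.completedLFunction s := by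
      unfold PhiC; rw [if_neg h1]
    have hp := χ.primitiveCharacter_isPrimitive
    have hne : χ.primitiveCharacter ≠ 1 := by
      intro h
      apply h1
      rw [← χ.changeLevel_primitiveCharacter, h, map_one]
    rw [e]
    have hd := DirichletCharacter.differentiable_completedLFunction hne
    have hN : (χ.conductor : ℂ) ≠ 0 := Nat.cast_ne_zero.2 χ.conductor_ne_zero
    refine ⟨?_, fun s => symm_primitive hne hp s⟩
    intro s
    refine DifferentiableAt.mul ?_ (hd s)
    exact (differentiableAt_id.div_const 2).const_cpow (Or.inl hN)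

end Pool.Agent.AQ
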