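import Mathlib
import Pool.Agent.Work.MP_99218a_nt.Interface

set_option autoImplicit false

namespace Pool.Agent.AQ

open Filter Topology

theorem xin_principal {s : ℂ} (h0 : s ≠ 0) (h1 : s ≠ 1)
    (h : s * (s - 1) * completedRiemannZeta₀ s + 1 = 0) : riemannZeta s = 0 := by
  have h2 : completedRiemannZeta s = 0 := by
    rw [completedRiemannZeta_eq]
    have h3 : (1 - s) ≠ 0 := sub_ne_zero.2 h1.symm
    have h4 : s - 1 ≠ 0 := sub_ne_zero.2 h1
    have h5 : s * (s - 1) * (completedRiemannZeta₀ s - 1 / s - 1 / (1 - s)) = 0 := by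
      have h6 : s * (s - 1) * (completedRiemannZeta₀ s - 1 / s - 1 / (1 - s))
          = s * (s - 1) * completedRiemannZeta₀ s + 1 := by
        field_simp
        ring
      rw [h6, h]
    exact (mul_eq_zero.1 h5).resolve_left (mul_ne_zero h0 h4)
  rw [riemannZeta_def_of_ne_zero h0, h2, zero_div]

theorem xin_prim_ne_one {q : ℕ} [NeZero q] {χ : DirichletCharacter ℂ q} (hχ : χ ≠ 1) :
    χ.primitiveCharacter ≠ 1 := by
  intro h
  apply hχ
  rw [← χ.changeLevel_primitiveCharacter, h, map_one]

theorem stmt_XIN : Stmt_XIN := by
  intro q _ χ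
  haveI : NeZero χ.conductor := ⟨χ.conductor_ne_zero⟩
  by_cases hχ : χ = 1
  · have hP : ∀ s : ℂ, PhiC χ s = s * (s - 1) * completedRiemannZeta₀ s + 1 := by
      intro s
      simp only [PhiC, if_pos hχ]
    constructor
    · intro hG s hs h
      rw [hP] at h
      by_cases h1 : s = 1
      · rw [h1] at h
        simp at h
      have h0 : s ≠ 0 := by
        intro h0
        rw [h0] at hs
        norm_num at hs
      have hz := xin_principal h0 h1 h
      by_cases h2 : 1 ≤ s.re
      · exact riemannZeta_ne_zero_of_one_le_re h2 hz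
      · have h3 := hG 1 (1 : DirichletCharacter ℂ 1) s
          (by rw [DirichletCharacter.LFunction_modOne_eq]; exact hz) (by linarith)
          (not_le.1 h2)
        linarith
    · intro hL h
      rw [hP] at h
      have hz := xin_principal (s := 1 / 2) (by norm_num) (by norm_num) h
      apply hL
      rw [hχ]
      have h4 := DirichletCharacter.LFunctionTrivChar_eq_mul_riemannZeta (N := q) (s := 1 / 2)
        (by norm_num)
      rw [DirichletCharacter.LFunctionTrivChar] at h4
      rw [h4, hz, mul_zero]
  · have hP : ∀ s : ℂ, PhiC χ s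
        = (χ.conductor : ℂ) ^ (s / 2) * χ.primitiveCharacter.completedLFunction s := by
      intro s
      simp only [PhiC, if_neg hχ]
    have hp := xin_prim_ne_one hχ
    have hc : (χ.conductor : ℂ) ≠ 0 := by exact_mod_cast χ.conductor_ne_zero
    have key : ∀ s : ℂ, s ≠ 0 → PhiC χ s = 0 → χ.primitiveCharacter.LFunction s = 0 := by
      intro s h0 h
      rw [hP] at h
      have h1 : (χ.conductor : ℂ) ^ (s / 2) ≠ 0 := by
        rw [Complex.cpow_def_of_ne_zero hc]
        exact Complex.exp_ne_zero _
      have h2 := (mul_eq_zero.1 h).resolve_left h1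
      rw [DirichletCharacter.LFunction_eq_completed_div_gammaFactor _ _ (Or.inl h0), h2, zero_div]
    constructor
    · intro hG s hs h
      have h0 : s ≠ 0 := by
        intro h0
        rw [h0] at hs
        norm_num at hs
      have hz := key s h0 h
      by_cases h2 : 1 ≤ s.re
      · exact DirichletCharacter.LFunction_ne_zero_of_one_le_re _ (Or.inl hp) h2 hz
      · have h3 := hG χ.conductor χ.primitiveCharacter s hz (by linarith) (not_le.1 h2)
        linarith
    · intro hL h
      have hz := key (1 / 2) (by norm_num) h
      apply hL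
      have h4 := DirichletCharacter.LFunction_changeLevel χ.conductor_dvd_level
        χ.primitiveCharacter (s := 1 / 2) (Or.inl hp)
      rw [χ.changeLevel_primitiveCharacter, hz, zero_mul] at h4
      exact h4

end Pool.Agent.AQ
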