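import Pool.Agent.Work.MP_99218a_nt.Interface
import Pool.Agent.Work.MP_b0c12c_nt_helper70.LBound
import Pool.Agent.Work.MP_852da8_nt.ZetaApprox

/-!
# MP_99218a_nt, block XIU: growth of the completed `L`-functions on `re s ≥ 1/4`
-/

set_option autoImplicit false

namespace Pool.Agent.AQ

open Filter Topology MeasureTheory ArithmeticFunction
open scoped ComplexConjugate Classical

/-- growth of exponential type `3/2` on `re s ≥ 1/4` -/
def XGr (f : ℂ → ℂ) : Prop :=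
  ∃ C : ℝ, ∀ s : ℂ, 1 / 4 ≤ s.re → ‖f s‖ ≤ Real.exp (C * (1 + ‖s‖) ^ (3 / 2 : ℝ))

lemma XIU_T (s : ℂ) : 1 + ‖s‖ ≤ (1 + ‖s‖) ^ (3 / 2 : ℝ) := by
  have h : (1 : ℝ) ≤ 1 + ‖s‖ := by linarith [norm_nonneg s]
  calc 1 + ‖s‖ = (1 + ‖s‖) ^ (1 : ℝ) := (Real.rpow_one _).symm
    _ ≤ _ := Real.rpow_le_rpow_of_exponent_le h (by norm_num)

lemma XGr.mul {f g : ℂ → ℂ} (hf : XGr f) (hg : XGr g) : XGr (fun s => f s * g s) := by
  obtain ⟨C, hC⟩ := hf
  obtain ⟨D, hD⟩ := hg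
  refine ⟨C + D, fun s hs => ?_⟩
  rw [norm_mul, add_mul, Real.exp_add]
  exact mul_le_mul (hC s hs) (hD s hs) (norm_nonneg _) (Real.exp_pos _).le

lemma XGr.of_le {f : ℂ → ℂ} {c : ℝ} (h : ∀ s : ℂ, 1 / 4 ≤ s.re → ‖f s‖ ≤ c * (1 + ‖s‖)) :
    XGr f := by
  refine ⟨|c|, fun s hs => (h s hs).trans ?_⟩
  have h1 := XIU_T s
  have h2 : (0 : ℝ) ≤ 1 + ‖s‖ := by linarith [norm_nonneg s]
  calc c * (1 + ‖s‖) ≤ |c| * (1 + ‖s‖) := mul_le_mul_of_nonneg_right (le_abs_self c) h2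
    _ ≤ |c| * (1 + ‖s‖) ^ (3 / 2 : ℝ) := mul_le_mul_of_nonneg_left h1 (abs_nonneg c)
    _ ≤ |c| * (1 + ‖s‖) ^ (3 / 2 : ℝ) + 1 := by linarith
    _ ≤ _ := Real.add_one_le_exp _

lemma XIU_norm_Gamma {z : ℂ} (hz : 0 < z.re) : ‖Complex.Gamma z‖ ≤ Real.Gamma z.re := by
  rw [Complex.Gamma_eq_integral hz, Real.Gamma_eq_integral hz, Complex.GammaIntegral]
  refine (norm_integral_le_integral_norm _).trans (le_of_eq ?_)
  refine setIntegral_congr_fun measurableSet_Ioi fun x hx => ?_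
  have hx' : (0 : ℝ) < x := hx
  simp only [norm_mul]
  rw [Complex.norm_cpow_eq_rpow_re_of_pos hx', Complex.norm_real, Real.norm_eq_abs,
    abs_of_pos (Real.exp_pos _)]
  simp

lemma XIU_realGamma {x : ℝ} (hx : 1 / 8 ≤ x) :
    Real.Gamma x ≤ 8 * Real.exp (2 * (x + 2) ^ (3 / 2 : ℝ)) := by
  have hx0 : 0 < x := by linarith
  have h1 : Real.Gamma (x + 1) = x * Real.Gamma x := Real.Gamma_add_one hx0.ne'
  have h2 : Real.Gamma (x + 1 + 1) = (x + 1) * Real.Gamma (x + 1) :=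
    Real.Gamma_add_one (by linarith)
  have hG : 0 < Real.Gamma x := Real.Gamma_pos_of_pos hx0
  have h3 : Real.Gamma (x + 1 + 1) ≤ Real.Gamma ((⌈x⌉₊ : ℝ) + 1 + 1) := by
    refine Real.Gamma_strictMonoOn_Ici.monotoneOn ?_ ?_ ?_
    · show (2 : ℝ) ≤ x + 1 + 1
      linarith
    · show (2 : ℝ) ≤ (⌈x⌉₊ : ℝ) + 1 + 1
      have : (0 : ℝ) ≤ ⌈x⌉₊ := Nat.cast_nonneg _
      linarith
    · have := Nat.le_ceil x
      linarith
  have h4 : Real.Gamma ((⌈x⌉₊ : ℝ) + 1 + 1) = ((⌈x⌉₊ + 1).factorial : ℝ) := by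
    have := Real.Gamma_nat_eq_factorial (⌈x⌉₊ + 1)
    rw [← this]
    push_cast
    rfl
  have h5 : (((⌈x⌉₊ + 1).factorial : ℕ) : ℝ) ≤ ((⌈x⌉₊ + 1 : ℕ) : ℝ) ^ (⌈x⌉₊ + 1) := by
    exact_mod_cast Nat.factorial_le_pow (⌈x⌉₊ + 1)
  set m : ℝ := ((⌈x⌉₊ + 1 : ℕ) : ℝ) with hm
  have hm1 : 1 ≤ m := by
    rw [hm]
    push_cast
    have : (0 : ℝ) ≤ ⌈x⌉₊ := Nat.cast_nonneg _
    linarith
  have hmx : m ≤ x + 2 := by
    rw [hm]
    push_cast
    have := Nat.ceil_lt_add_one hx0.le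
    linarith
  have h6 : m ^ (⌈x⌉₊ + 1) = Real.exp (m * Real.log m) := by
    rw [mul_comm, Real.exp_mul, Real.exp_log (by linarith), hm, Real.rpow_natCast]
  have h7 : Real.log m ≤ 2 * m ^ (1 / 2 : ℝ) := by
    have := Real.log_le_rpow_div (x := m) (by linarith) (ε := 1 / 2) (by norm_num)
    linarith
  have h8 : m * Real.log m ≤ 2 * (x + 2) ^ (3 / 2 : ℝ) := by
    calc m * Real.log m ≤ m * (2 * m ^ (1 / 2 : ℝ)) :=
          mul_le_mul_of_nonneg_left h7 (by linarith)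
      _ = 2 * (m ^ (1 : ℝ) * m ^ (1 / 2 : ℝ)) := by rw [Real.rpow_one]; ring
      _ = 2 * m ^ (3 / 2 : ℝ) := by
          rw [← Real.rpow_add (by linarith)]
          norm_num
      _ ≤ 2 * (x + 2) ^ (3 / 2 : ℝ) := by
          refine mul_le_mul_of_nonneg_left ?_ (by norm_num)
          exact Real.rpow_le_rpow (by linarith) hmx (by norm_num)
  have h9 : Real.Gamma (x + 1 + 1) ≤ Real.exp (2 * (x + 2) ^ (3 / 2 : ℝ)) := by
    refine h3.trans (h4.le.trans (h5.trans (h6.le.trans ?_)))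
    exact Real.exp_le_exp.2 h8
  have h10 : Real.Gamma x ≤ 8 * Real.Gamma (x + 1 + 1) := by
    rw [h2, h1]
    have : 1 ≤ 8 * ((x + 1) * x) := by nlinarith
    nlinarith
  linarith

/-- bound for `Γ` on affine arguments -/
lemma XIU_Gamma {a : ℝ} (ha : 0 ≤ a) (ha1 : a ≤ 1) :
    XGr (fun s => Complex.Gamma ((s + a) / 2)) := by
  refine ⟨8 + 2 * (3 : ℝ) ^ (3 / 2 : ℝ), fun s hs => ?_⟩
  have hre : ((s + a) / 2 : ℂ).re = (s.re + a) / 2 := by
    have e : ((s + a) / 2 : ℂ) = (s + a) / ((2 : ℝ) : ℂ) := by norm_num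
    rw [e, Complex.div_ofReal_re]
    simp
  have h1 := XIU_norm_Gamma (z := (s + a) / 2) (by rw [hre]; linarith)
  have h2 := XIU_realGamma (x := (s.re + a) / 2) (by linarith)
  rw [hre] at h1
  have h3 : s.re ≤ ‖s‖ := Complex.re_le_norm s
  have h4 : ((s.re + a) / 2 + 2) ^ (3 / 2 : ℝ) ≤ (3 : ℝ) ^ (3 / 2 : ℝ) * (1 + ‖s‖) ^ (3 / 2 : ℝ) := by
    rw [← Real.mul_rpow (by norm_num) (by linarith [norm_nonneg s])]
    refine Real.rpow_le_rpow (by linarith) ?_ (by norm_num)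
    linarith [norm_nonneg s]
  have hT : 1 ≤ (1 + ‖s‖) ^ (3 / 2 : ℝ) := by
    have := XIU_T s
    linarith [norm_nonneg s]
  have h5 : (8 : ℝ) ≤ Real.exp (8 * (1 + ‖s‖) ^ (3 / 2 : ℝ)) := by
    have := Real.add_one_le_exp (8 * (1 + ‖s‖) ^ (3 / 2 : ℝ))
    linarith
  rw [add_mul, Real.exp_add]
  refine (h1.trans h2).trans ?_
  refine mul_le_mul h5 (Real.exp_le_exp.2 ?_) (Real.exp_pos _).le (Real.exp_pos _).le
  linarith

lemma XIU_pi {a : ℝ} (ha : 0 ≤ a) : XGr (fun s => (Real.pi : ℂ) ^ (-(s + a) / 2)) := by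
  refine XGr.of_le (c := 1) fun s hs => ?_
  have hre : (-(s + a) / 2 : ℂ).re = -(s.re + a) / 2 := by
    have e : (-(s + a) / 2 : ℂ) = (-(s + a)) / ((2 : ℝ) : ℂ) := by norm_num
    rw [e, Complex.div_ofReal_re]
    simp
  rw [Complex.norm_cpow_eq_rpow_re_of_pos Real.pi_pos, hre]
  have h1 : Real.pi ^ (-(s.re + a) / 2) ≤ 1 :=
    Real.rpow_le_one_of_one_le_of_nonpos (by linarith [Real.pi_gt_three]) (by linarith)
  linarith [norm_nonneg s]

lemma XIU_Gammaℝ {a : ℝ} (ha : 0 ≤ a) (ha1 : a ≤ 1) :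
    XGr (fun s => Complex.Gammaℝ (s + a)) := by
  have h := (XIU_pi ha).mul (XIU_Gamma ha ha1)
  refine h.imp fun C hC s hs => ?_
  have h1 := hC s hs
  simp only [← Complex.Gammaℝ_def] at h1
  exact h1

lemma XIU_pow (N : ℕ) [NeZero N] : XGr (fun s => (N : ℂ) ^ (s / 2)) := by
  have hN : 0 < N := Nat.pos_of_ne_zero (NeZero.ne N)
  have hN' : (1 : ℝ) ≤ N := by exact_mod_cast hN
  refine ⟨Real.log N, fun s hs => ?_⟩
  have hre : (s / 2 : ℂ).re = s.re / 2 := by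
    have e : (s / 2 : ℂ) = s / ((2 : ℝ) : ℂ) := by norm_num
    rw [e, Complex.div_ofReal_re]
  rw [Complex.norm_natCast_cpow_of_pos hN, hre, Real.rpow_def_of_pos (by linarith)]
  refine Real.exp_le_exp.2 (mul_le_mul_of_nonneg_left ?_ (Real.log_nonneg hN'))
  have h1 := XIU_T s
  have h3 : s.re ≤ ‖s‖ := Complex.re_le_norm s
  linarith [norm_nonneg s]

lemma XIU_L {N : ℕ} [NeZero N] (χ : DirichletCharacter ℂ N) (hχ : χ ≠ 1) :
    XGr χ.LFunction := by
  refine XGr.of_le (c := 1 + 4 * N) fun s hs => ?_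
  have hs0 : 0 < s.re := by linarith
  have h := Pool.Agent.Work.MP_b0c12c_nt_helper70.norm_LFunction_le χ hχ (le_refl 1) hs0
  refine h.trans ?_
  have hN : (0 : ℝ) ≤ N := Nat.cast_nonneg N
  have h1 : (N : ℝ) * ((1 : ℕ) : ℝ) ^ (-s.re) / s.re ≤ 4 * N := by
    rw [Nat.cast_one, Real.one_rpow, mul_one, div_le_iff₀ hs0]
    nlinarith
  have h2 : ∑ n ∈ Finset.Icc (1 : ℕ) 1, (n : ℝ) ^ (-s.re) = 1 := by simp
  rw [h2]
  have h3 := mul_le_mul_of_nonneg_left h1 (norm_nonneg s)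
  nlinarith [norm_nonneg s]

lemma XIU_zeta : XGr riemannZeta₁ := by
  have hSb : Summable fun n : ℕ => (n : ℝ) ^ (-(5 / 4) : ℝ) := Real.summable_nat_rpow.2 (by norm_num)
  have hS : Summable fun n : ℕ => ((0 + 1 + n : ℕ) : ℝ) ^ (-(5 / 4) : ℝ) := by
    have h2 := (summable_nat_add_iff 1).mpr hSb
    refine h2.congr fun n => ?_
    rw [zero_add, add_comm n 1]
  set K : ℝ := ∑' n : ℕ, ((0 + 1 + n : ℕ) : ℝ) ^ (-(5 / 4) : ℝ) with hK
  have hK0 : 0 ≤ K := tsum_nonneg fun n => Real.rpow_nonneg (Nat.cast_nonneg _) _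
  have h1 : XGr (fun s => s) := XGr.of_le (c := 1) fun s _ => by linarith [norm_nonneg s]
  -- `‖ζ₁ s‖ ≤ ‖s‖ (1 + K ‖s - 1‖)`
  have hb : ∀ s : ℂ, 1 / 4 ≤ s.re → ‖riemannZeta₁ s‖ ≤ ‖s‖ * (1 + K * ‖s - 1‖) := by
    intro s hs
    have hs0 : 0 < s.re := by linarith
    have h := Pool.Agent.Work.MP_852da8_nt.zeta_one_formula hs0 0
    have hsum : ‖∑' n : ℕ, Pool.Agent.Work.MP_852da8_nt.defect (0 + 1 + n) s‖ ≤
        ‖s - 1‖ * ‖s‖ * K := by
      have hb : ∀ n : ℕ, ‖Pool.Agent.Work.MP_852da8_nt.defect (0 + 1 + n) s‖ ≤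
          ‖s - 1‖ * ‖s‖ * (((0 + 1 + n : ℕ) : ℝ) ^ (-(5 / 4) : ℝ)) := by
        intro n
        have h1 := Pool.Agent.Work.MP_852da8_nt.norm_defect_le (n := 0 + 1 + n) (by omega) hs0
        refine h1.trans ?_
        rw [← mul_assoc]
        apply mul_le_mul_of_nonneg_left _ (by positivity)
        apply Real.rpow_le_rpow_of_exponent_le
        · exact_mod_cast (by omega : 1 ≤ 0 + 1 + n)
        · linarith
      have h4 := tsum_of_norm_bounded (hS.mul_left (‖s - 1‖ * ‖s‖)).hasSum hb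
      rwa [tsum_mul_left] at h4
    have e : (s - 1) * ∑ n ∈ Finset.range (0 + 1), ((n : ℂ) + 1) ^ (-s) +
        ((0 + 1 : ℕ) : ℂ) ^ (1 - s) = s := by
      simp
    rw [e] at h
    rw [h]
    calc ‖s + ∑' n : ℕ, Pool.Agent.Work.MP_852da8_nt.defect (0 + 1 + n) s‖
        ≤ ‖s‖ + ‖s - 1‖ * ‖s‖ * K := (norm_add_le _ _).trans (by linarith)
      _ = _ := by ring
  have h2 : XGr (fun s : ℂ => ((1 + K * ‖s - 1‖ : ℝ) : ℂ)) := by
    refine XGr.of_le (c := 1 + K) fun s hs => ?_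
    have h3 : ‖s - 1‖ ≤ ‖s‖ + 1 := by
      refine (norm_sub_le _ _).trans ?_
      rw [norm_one]
    rw [Complex.norm_real, Real.norm_eq_abs, abs_of_nonneg (by positivity)]
    nlinarith [norm_nonneg s]
  obtain ⟨C, hC⟩ := h1.mul h2
  refine ⟨C, fun s hs => (hb s hs).trans ?_⟩
  have := hC s hs
  rw [norm_mul, Complex.norm_real, Real.norm_eq_abs, abs_of_nonneg (by positivity)] at this
  exact this

/-- the principal case -/
lemma XIU_one_eq {s : ℂ} (hs : 0 < s.re) :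
    s * (s - 1) * completedRiemannZeta₀ s + 1 = s * riemannZeta₁ s * Complex.Gammaℝ s := by
  have hs0 : s ≠ 0 := by
    rintro rfl
    simp at hs
  have key : ∀ z : ℂ, 0 < z.re → z ≠ 1 →
      z * (z - 1) * completedRiemannZeta₀ z + 1 = z * riemannZeta₁ z * Complex.Gammaℝ z := by
    intro z hz hz1
    have hz0 : z ≠ 0 := by
      rintro rfl
      simp at hz
    have hG : Complex.Gammaℝ z ≠ 0 := Complex.Gammaℝ_ne_zero_of_re_pos hz
    have hz1' : z - 1 ≠ 0 := sub_ne_zero.2 hz1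
    have hz1'' : (1 : ℂ) - z ≠ 0 := sub_ne_zero.2 (Ne.symm hz1)
    have h1 := riemannZeta_eq_inv_sub_mul hz1
    have h2 := riemannZeta_def_of_ne_zero hz0
    have h3 := completedRiemannZeta_eq z
    have h4 : riemannZeta₁ z = (z - 1) * riemannZeta z := by
      rw [h1]
      field_simp
    rw [h4, h2]
    have h5 : z * ((z - 1) * (completedRiemannZeta z / z.Gammaℝ)) * z.Gammaℝ =
        z * (z - 1) * completedRiemannZeta z := by
      field_simp
    rw [h5, h3]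
    field_simp
    ring
  by_cases h1 : s = 1
  · subst h1
    simp
  · exact key s hs h1

theorem stmt_XIU : Stmt_XIU := by
  intro q _ χ
  have : NeZero χ.conductor := ⟨χ.conductor_ne_zero⟩
  by_cases h : χ = 1
  · have h1 : XGr (fun s => s) := XGr.of_le (c := 1) fun s _ => by linarith [norm_nonneg s]
    have h2 := (h1.mul XIU_zeta).mul (XIU_Gammaℝ le_rfl zero_le_one)
    obtain ⟨C, hC⟩ := h2
    refine ⟨C, fun s hs => ?_⟩
    have := hC s hs
    unfold PhiC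
    simp only [if_pos h]
    rw [XIU_one_eq (by linarith)]
    simpa using this
  · have hp : χ.primitiveCharacter ≠ 1 := by
      intro hp
      have h1 := χ.changeLevel_primitiveCharacter
      rw [hp, map_one] at h1
      exact h h1.symm
    have hG : XGr (fun s => χ.primitiveCharacter.gammaFactor s) := by
      rcases χ.primitiveCharacter.even_or_odd with he | ho
      · obtain ⟨C, hC⟩ := XIU_Gammaℝ le_rfl zero_le_one
        refine ⟨C, fun s hs => ?_⟩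
        have := hC s hs
        simp only [he.gammaFactor_def]
        simpa using this
      · obtain ⟨C, hC⟩ := XIU_Gammaℝ (a := 1) zero_le_one le_rfl
        refine ⟨C, fun s hs => ?_⟩
        have := hC s hs
        simp only [ho.gammaFactor_def]
        simpa using this
    obtain ⟨C, hC⟩ := (XIU_pow χ.conductor).mul ((XIU_L _ hp).mul hG)
    refine ⟨C, fun s hs => ?_⟩
    have := hC s hs
    have hs0 : s ≠ 0 := by
      rintro rfl
      norm_num at hs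
    have hg : χ.primitiveCharacter.gammaFactor s ≠ 0 := by
      rcases χ.primitiveCharacter.even_or_odd with he | ho
      · rw [he.gammaFactor_def]
        exact Complex.Gammaℝ_ne_zero_of_re_pos (by linarith)
      · rw [ho.gammaFactor_def]
        exact Complex.Gammaℝ_ne_zero_of_re_pos (by simp; linarith)
    have e : χ.primitiveCharacter.completedLFunction s =
        χ.primitiveCharacter.LFunction s * χ.primitiveCharacter.gammaFactor s := by
      rw [DirichletCharacter.LFunction_eq_completed_div_gammaFactor _ s (Or.inl hs0),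
        div_mul_cancel₀ _ hg]
    unfold PhiC
    simp only [if_neg h]
    rw [e]
    exact this

end Pool.Agent.AQ
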