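import Pool.Agent.Work.MP_99218a_nt.FINAL
import Pool.Agent.Work.MP_99218a_nt.SHL
import Pool.Agent.Work.MP_99218a_nt.HPC
import Pool.Agent.Work.MP_99218a_nt.J1
import Pool.Agent.Work.MP_99218a_nt.HER
import Pool.Agent.Work.MP_99218a_nt.POS
import Pool.Agent.Work.MP_99218a_nt.GRO
import Pool.Agent.Work.MP_99218a_nt.REM
import Pool.Agent.Work.MP_99218a_nt.COM
import Pool.Agent.Work.MP_99218a_nt.JAP
import Pool.Agent.Work.MP_99218a_nt.HCON
import Pool.Agent.Work.MP_99218a_nt.UAP1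
import Pool.Agent.Work.MP_99218a_nt.UAP2
import Pool.Agent.Work.MP_99218a_nt.DIG
import Pool.Agent.Work.MP_99218a_nt.XID
import Pool.Agent.Work.MP_99218a_nt.XIN
import Pool.Agent.Work.MP_99218a_nt.XIU
import Pool.Agent.Work.MP_99218a_nt.EXPL
import Pool.Agent.Work.MP_99218a_nt.XI
import Pool.Agent.Work.MP_99218a_nt.JX
import Pool.Agent.Work.MP_99218a_nt.DGB
import Pool.Agent.Work.MP_99218a_nt.CHR
import Pool.Agent.Work.MP_99218a_nt.CHS
import Pool.Agent.Work.MP_99218a_nt.CND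
import Pool.Agent.Work.MP_99218a_nt.LI
import Pool.Agent.Work.MP_99218a_nt.SQ
import Pool.Agent.Work.MP_99218a_nt.TRA
import Pool.Agent.Work.MP_99218a_nt.GE
import Pool.Agent.Work.MP_99218a_nt.GAP
import Pool.Agent.Work.MP_99218a_nt.BRI
import Pool.Agent.Work.MP_99218a_nt.INS
import Pool.Agent.Work.MP_99218a_nt.NSQ
import Pool.Agent.Work.MP_99218a_nt.NUMF
import Pool.Agent.Work.MP_99218a_nt.NUMA
import Pool.Agent.Work.MP_99218a_nt.NUMB
import Pool.Agent.Work.MP_99218a_nt.NUMC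
import Pool.Agent.Work.MP_99218a_nt.NUMD
import Pool.Agent.Work.MP_99218a_nt.DBL
import Pool.Agent.Work.MP_99218a_nt.RQ
import Pool.Agent.Work.MP_99218a_nt.H2
import Pool.Agent.Work.MP_99218a_nt.CRI
import Pool.Agent.Work.MP_99218a_nt.ONE
import Pool.Agent.Work.MP_99218a_nt.LRG2
import Pool.Agent.Work.MP_99218a_nt.PRP
import Pool.Agent.Work.MP_99218a_nt.PSI
import Pool.Agent.Work.MP_99218a_nt.PSQ
import Pool.Agent.Work.MP_99218a_nt.PRS

/-!
# MP_99218a_nt: all blocks together, except KB, J2, LOWB, END, CEN (taken as hypotheses)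
-/

set_option autoImplicit false

namespace Pool.Agent.AQ.Main

open Pool.Agent.AQ

section
variable (kb : Stmt_KB) (j2 : Stmt_J2) (lb : Stmt_LOWB) (en : Stmt_END)

theorem hHPC : Stmt_HPC := stmt_HPC stmt_SHR
include lb in
theorem hPOS : Stmt_POS := stmt_POS lb
include lb in
theorem hGRO : Stmt_GRO := stmt_GRO (hPOS lb) stmt_HER
include lb in
theorem hCOM : Stmt_COM := stmt_COM stmt_REM (hPOS lb) stmt_HER
include lb in
theorem hHCON : Stmt_HCON := stmt_HCON (hCOM lb) stmt_REM (hPOS lb) stmt_HER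
theorem hJ1 : Stmt_J1 := stmt_J1 stmt_SHL hHPC
theorem hJ0 : Stmt_J0 := stmt_J0 stmt_SHR
include lb j2 in
theorem hJAP : Stmt_JAP := JAP.stmt_JAP (hCOM lb) hJ1 j2 stmt_REM (hGRO lb)
theorem hXI : Stmt_XI := stmt_XI stmt_XID stmt_XIN stmt_XIU stmt_EXPL stmt_DIG
include kb in
theorem hJX : Stmt_JX := stmt_JX stmt_EXPL kb stmt_DIG
theorem hDGB : Stmt_DGB := stmt_DGB stmt_SHL stmt_DIG
theorem hTRA : Stmt_TRA := stmt_TRA stmt_LI stmt_SQ
include kb in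
theorem hGE : Stmt_GE := stmt_GE (hJX kb) hDGB stmt_CHR
include lb j2 in
theorem hGAP : Stmt_GAP := stmt_GAP (hJAP j2 lb) hXI
include kb lb j2 in
theorem hBRI : Stmt_BRI := stmt_BRI (hGE kb) (hGAP j2 lb) hTRA stmt_UAP1
include kb lb j2 in
theorem hINS : Stmt_INS := stmt_INS (hBRI kb j2 lb) hJ1 hXI (hGRO lb)
include kb lb j2 en in
theorem hNSQ : Stmt_NSQ := stmt_NSQ (hBRI kb j2 lb) (hGAP j2 lb) stmt_UAP2 (hHCON lb) stmt_XIN hXI en
theorem hNUMF : Stmt_NUMF := stmt_NUMF stmt_EXPL stmt_CHR stmt_CHS stmt_CND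
theorem hNUMA : Stmt_NUMA := stmt_NUMA hNUMF stmt_DIG stmt_CHP stmt_CND
theorem hNUMB : Stmt_NUMB := stmt_NUMB hNUMF stmt_DIG stmt_CHR stmt_CHP stmt_CND
theorem hNUMC : Stmt_NUMC := stmt_NUMC hNUMF stmt_DIG stmt_CHR stmt_CHP stmt_CND
theorem hNUMD : Stmt_NUMD := stmt_NUMD hNUMF stmt_DIG stmt_CHR stmt_CHP stmt_CND
theorem hH2 : Stmt_H2 := stmt_H2 stmt_EXPL stmt_DIG
include kb lb j2 in
theorem hCRI : Stmt_CRI :=
  stmt_CRI (hBRI kb j2 lb) (hJX kb) stmt_EXPL stmt_CHR stmt_CHS stmt_CND stmt_HER hXI (hGRO lb) hH2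
include kb lb j2 in
theorem hONE : Stmt_ONE :=
  stmt_ONE (hBRI kb j2 lb) hJ0 stmt_CHR stmt_CHS stmt_HER hXI (hGRO lb) hH2 stmt_EXPL stmt_DIG stmt_RQ
include kb lb j2 in
theorem hLRG2 : Stmt_LRG2 := stmt_LRG2 (hCRI kb j2 lb) (hONE kb j2 lb) stmt_RQ
include kb lb in
theorem hPSI : Stmt_PSI := stmt_PSI (hJX kb) hJ1 stmt_HER hXI (hGRO lb) stmt_EXPL hDGB
include kb lb in
theorem hPRS : Stmt_PRS := stmt_PRS (stmt_PSQ (hPSI kb lb)) stmt_RQ
end

end Pool.Agent.AQ.Main
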