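import Pool.Agent.Work.MP_99218a_nt.NUMF

/-! # The modulus `1` -/

set_option autoImplicit false

namespace Pool.Agent.AQ

open Filter Topology MeasureTheory ArithmeticFunction
open scoped ComplexConjugate Classical

namespace NUM1

lemma rt_one : rt 1 1 = 1 := by
  unfold rt
  rw [Nat.card_eq_one_iff_unique]
  refine ⟨⟨fun a b => ?_⟩, ⟨⟨0, ?_⟩⟩⟩
  · exact Subtype.ext (Subsingleton.elim _ _)
  · exact Subsingleton.elim _ _

lemma Hc_two (hE : Stmt_EXPL) (hR : Stmt_CHR) (hD : Stmt_DIG) :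
    (Hc (1 : DirichletCharacter ℂ 1) (2 : ℂ)).re ≤ 328 / 1000 := by
  have huniv : (Finset.univ : Finset (DirichletCharacter ℂ 1)) = {1} := by
    apply Finset.eq_singleton_iff_unique_mem.mpr
    exact ⟨Finset.mem_univ _, fun χ _ => Subsingleton.elim _ _⟩
  have h1 := NUMF.re_Hc (q := 1) hE 1 (s := 2) (by norm_num)
  have h2 := NUMF.sum_L (q := 1) hR (s := 2) (by norm_num) {2, 3, 4, 5}
  rw [huniv, Finset.sum_singleton] at h2
  have hca : ∀ n : ℕ, 0 < n → (ca 1 1 n).re = 1 := by
    intro n hn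
    have h := (hR 1 1 (by simp) n hn).2.2.2 (Nat.coprime_one_right n)
    rw [h, if_pos (Subsingleton.elim _ _)]
    simp
  have hev : (1 : DirichletCharacter ℂ 1).Even := by
    have h : (-1 : ZMod 1) = 1 := Subsingleton.elim _ _
    show (1 : DirichletCharacter ℂ 1) (-1) = 1
    rw [h, map_one]
  rw [if_pos rfl, DirichletCharacter.conductor_one, if_pos hev, if_pos hev] at h1
  have hdg := (hD.2.2 1 one_pos).2.2
  have e1 : (((2 / 2 : ℝ)) : ℂ) = ((1 : ℝ) : ℂ) := by norm_num
  rw [e1] at h1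
  have hL2 : Λ 2 = Real.log 2 := by
    have := vonMangoldt_apply_prime Nat.prime_two
    simpa using this
  have hL3 : Λ 3 = Real.log 3 := by
    have := vonMangoldt_apply_prime Nat.prime_three
    simpa using this
  have hL5 : Λ 5 = Real.log 5 := by
    have := vonMangoldt_apply_prime Nat.prime_five
    simpa using this
  have hL4 : Λ 4 = Real.log 2 := by
    have h : Λ (2 ^ 2) = Λ 2 := vonMangoldt_apply_pow two_ne_zero
    rw [hL2] at h
    simpa using h
  rw [Finset.sum_insert (by decide), Finset.sum_insert (by decide), Finset.sum_insert (by decide),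
    Finset.sum_singleton, hL2, hL3, hL4, hL5, hca 2 (by norm_num), hca 3 (by norm_num),
    hca 4 (by norm_num), hca 5 (by norm_num)] at h2
  have r2 : ((2 : ℕ) : ℝ) ^ (-2 : ℝ) = 1 / 4 := by
    rw [Real.rpow_neg (by positivity)]; norm_num
  have r3 : ((3 : ℕ) : ℝ) ^ (-2 : ℝ) = 1 / 9 := by
    rw [Real.rpow_neg (by positivity)]; norm_num
  have r4 : ((4 : ℕ) : ℝ) ^ (-2 : ℝ) = 1 / 16 := by
    rw [Real.rpow_neg (by positivity)]; norm_num
  have r5 : ((5 : ℕ) : ℝ) ^ (-2 : ℝ) = 1 / 25 := by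
    rw [Real.rpow_neg (by positivity)]; norm_num
  rw [r2, r3, r4, r5] at h2
  have l2 : (69 / 100 : ℝ) ≤ Real.log 2 := by
    have := Real.log_two_gt_d9
    linarith
  have l3 : (109 / 100 : ℝ) ≤ Real.log 3 := by
    rw [Real.le_log_iff_exp_le (by norm_num)]
    have e : Real.exp (109 / 100) = Real.exp 1 * Real.exp (9 / 100) := by
      rw [← Real.exp_add]; norm_num
    have h1 := Real.exp_one_lt_d9
    have h2 := Real.exp_bound' (x := 9 / 100) (by norm_num) (by norm_num) (n := 3) (by norm_num)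
    norm_num [Finset.sum_range_succ, Nat.factorial] at h2
    rw [e]
    have h3 := Real.exp_pos 1
    have h4 := Real.exp_pos (9 / 100)
    nlinarith
  have l5 : (16 / 10 : ℝ) ≤ Real.log 5 := by
    rw [Real.le_log_iff_exp_le (by norm_num)]
    have e : Real.exp (16 / 10) = Real.exp 1 * Real.exp (6 / 10) := by
      rw [← Real.exp_add]; norm_num
    have h1 := Real.exp_one_lt_d9
    have h2 := Real.exp_bound' (x := 6 / 10) (by norm_num) (by norm_num) (n := 5) (by norm_num)
    norm_num [Finset.sum_range_succ, Nat.factorial] at h2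
    rw [e]
    have h3 := Real.exp_pos 1
    have h4 := Real.exp_pos (6 / 10)
    nlinarith
  have lpi : (109 / 100 : ℝ) ≤ Real.log Real.pi := by
    refine l3.trans (Real.log_le_log (by norm_num) Real.pi_gt_three.le)
  have hz : ((2 : ℝ) : ℂ) = 2 := by norm_num
  rw [hz] at h1 h2
  rw [Real.log_one] at hdg
  norm_num at h1 hdg h2
  rw [h1]
  linarith

end NUM1

theorem num_one (hg : GRH) (hE : Stmt_EXPL) (hR : Stmt_CHR) (hD : Stmt_DIG) (hH : Stmt_HER)
    (hX : Stmt_XI) (hG : Stmt_GRO) : NumOK 1 := by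
  have huniv : (Finset.univ : Finset (DirichletCharacter ℂ 1)) = {1} := by
    apply Finset.eq_singleton_iff_unique_mem.mpr
    exact ⟨Finset.mem_univ _, fun χ _ => Subsingleton.elim _ _⟩
  have h2 := NUM1.Hc_two hE hR hD
  have hg1 : Hg (Hc (1 : DirichletCharacter ℂ 1)) := hG _ (hX hg 1 1)
  have h3 := hH _ hg1.diff hg1.pos 2 (34 / 25) (by norm_num) (by norm_num)
  have e1 : ‖((34 / 25 : ℂ) - 2) / (34 / 25 + conj (2 : ℂ) - 1)‖ = 16 / 59 := by
    have : ((34 / 25 : ℂ) - 2) / (34 / 25 + conj (2 : ℂ) - 1) = ((-(16 / 59) : ℝ) : ℂ) := by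
      rw [map_ofNat]
      push_cast
      norm_num
    rw [this, Complex.norm_real, Real.norm_eq_abs, abs_neg, abs_of_pos (by norm_num)]
  rw [e1] at h3
  have h4 := (Complex.abs_re_le_norm _).trans h3
  rw [Complex.sub_re] at h4
  have h5 := (abs_le.mp h4).2
  unfold NumOK
  rw [huniv, Finset.sum_singleton, NUM1.rt_one]
  rw [div_lt_iff₀ (by norm_num)]
  norm_num at h5 ⊢
  linarith

end Pool.Agent.AQ
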