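import Pool.Agent.Work.MP_99218a_nt.MAIN0
import Pool.Agent.Work.MP_99218a_nt.J2
import Pool.Agent.Work.MP_99218a_nt.LOWB
import Pool.Agent.Work.MP_99218a_nt.END
import Pool.Agent.Work.MP_99218a_nt.CEN
import Pool.Agent.Work.MP_99218a_nt.NUM1

/-!
# MP_99218a_nt: the theorems, from KB
-/

set_option autoImplicit false

namespace Pool.Agent.AQ.Main

open Pool.Agent.AQ
open scoped Classical

theorem small13 (kb : Stmt_KB) (h : GRH) (q : ℕ)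
    (hq : q ∈ ({1, 2, 3, 4, 5, 6, 8, 10, 12, 15, 20, 24, 30} : Finset ℕ)) (a : ℤ)
    (ha : IsCoprime a (q : ℤ)) : InSet q a ↔ ∃ b : ℤ, b ^ 2 ≡ a [ZMOD q] := by
  have j2 : Stmt_J2 := J2_of_KB kb
  have en : Stmt_END := stmt_END stmt_EXPL stmt_CHS
  have i1 : ∀ a : ℤ, InSet 1 a := by
    intro a
    refine hINS kb j2 stmt_LOWB h 1
      (num_one h stmt_EXPL stmt_CHR stmt_DIG stmt_HER hXI (hGRO stmt_LOWB)) a ?_ ?_
    · exact (isUnit_iff 1 a).mpr (by simpa using isCoprime_one_right)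
    · exact ⟨0, Subsingleton.elim _ _⟩
  by_cases h1 : q = 1
  · subst h1
    exact ⟨fun _ => ⟨0, by simp [Int.modEq_one]⟩, fun _ => i1 a⟩
  by_cases h2 : q = 2
  · subst h2
    refine ⟨fun _ => ⟨1, ?_⟩, fun _ => ?_⟩
    · have hodd : a % 2 = 1 := by
        rcases Int.emod_two_eq_zero_or_one a with h0 | h0
        · exfalso
          obtain ⟨u, v, huv⟩ := ha
          have : (2 : ℤ) ∣ 1 := by
            rw [← huv]
            push_cast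
            exact dvd_add (Dvd.dvd.mul_left (Int.dvd_of_emod_eq_zero h0) _) (dvd_mul_left _ _)
          norm_num at this
        · exact h0
      show (1 : ℤ) ^ 2 % 2 = a % 2
      rw [hodd]
      norm_num
    · have := stmt_DBL 1 (by decide) a (by simpa using ha) (i1 a)
      simpa using this
  have hq' : q ∈ ({3, 4, 5, 6, 8, 10, 12, 15, 20, 24, 30} : Finset ℕ) := by
    simp only [Finset.mem_insert, Finset.mem_singleton] at hq ⊢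
    omega
  exact small_iff h (hINS kb j2 stmt_LOWB) hNUMA hNUMB hNUMC hNUMD stmt_DBL
    (hNSQ kb j2 stmt_LOWB en) stmt_CEN q hq' a ha

theorem nonsquares (kb : Stmt_KB) (h : GRH) (q : ℕ) [NeZero q]
    (hc : ∀ χ : DirichletCharacter ℂ q, χ.LFunction (1 / 2) ≠ 0) (a : ℤ)
    (ha : IsCoprime a (q : ℤ)) (hns : ¬ ∃ b : ℤ, b ^ 2 ≡ a [ZMOD q]) : ¬ InSet q a :=
  nonsquare_outside h (hNSQ kb (J2_of_KB kb) stmt_LOWB (stmt_END stmt_EXPL stmt_CHS)) q hc a ha hns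

theorem large (kb : Stmt_KB) (h : GRH) : ∃ c' : ℝ, 0 < c' ∧ ∀ c : ℝ, c < 1 / 2 →
    ∃ q0 : ℕ, ∀ q : ℕ, q0 ≤ q → ∀ a : ℤ, IsCoprime a (q : ℤ) →
    (a ≡ 1 [ZMOD q] ∨ a ≡ -1 [ZMOD q] ∨
      (∃ p k : ℕ, p.Prime ∧ a ≡ (p : ℤ) ^ k [ZMOD q] ∧
        (p : ℝ) ^ k ≤ c * Real.log p * q.totient) ∨
      (∃ p k : ℕ, p.Prime ∧ (p : ℤ) ^ k * a ≡ 1 [ZMOD q] ∧
        (p : ℝ) ^ k * √(Real.log q) ≤ c' * Real.log p * √(q.totient : ℝ))) →
    ¬ InSet q a :=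
  large_outside h (hLRG2 kb (J2_of_KB kb) stmt_LOWB)

theorem proportion (kb : Stmt_KB) (h : GRH) : ∃ c : ℝ, 0 < c ∧
    ∃ q0 : ℕ, ∀ q : ℕ, q0 ≤ q → c * (q.totient : ℝ) ≤
      (((Finset.range q).filter fun a : ℕ => a.Coprime q ∧ ¬ InSet q (a : ℤ)).card : ℝ) :=
  proportion_outside h (hLRG2 kb (J2_of_KB kb) stmt_LOWB) stmt_PRP

theorem proportion_squares (kb : Stmt_KB) (h : GRH) : ∃ c : ℝ, 0 < c ∧
    ∃ q0 : ℕ, ∀ q : ℕ, q0 ≤ q → c * (q.totient : ℝ) / (rt q 1 : ℝ) ^ 2 ≤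
      (((Finset.range q).filter fun a : ℕ => a.Coprime q ∧ (∃ b : ℤ, b ^ 2 ≡ a [ZMOD q]) ∧
        ¬ InSet q (a : ℤ)).card : ℝ) :=
  proportion_squares_outside h (hLRG2 kb (J2_of_KB kb) stmt_LOWB) (hPRS kb stmt_LOWB)

end Pool.Agent.AQ.Main
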