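import Pool.Agent.Work.MP_99218a_nt.UAP3
import Pool.Agent.Work.MP_99218a_nt.CEN

/-! # Block NSC: non-square classes inside, cosets -/

set_option autoImplicit false

namespace Pool.Agent.AQ

open Filter Topology MeasureTheory ArithmeticFunction
open scoped ComplexConjugate Classical

/-- The twisted sum of the orders of vanishing at `1/2`. -/
noncomputable def N0 (q : ℕ) [NeZero q] (a : ZMod q) : ℂ :=
  ∑ χ : DirichletCharacter ℂ q, χ⁻¹ a * (mult (PhiC χ) 0 : ℂ)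

theorem nsq_pos (hB : Stmt_BRI) (hGAP : Stmt_GAP) (hH : Stmt_HCON)
    (hX : Stmt_XI) (hE : Stmt_END) (hGRH : GRH) (q : ℕ) [NeZero q] (a : ℤ)
    (ha : IsUnit (a : ZMod q)) (hs : ¬ IsSquare (a : ZMod q)) (hin : InSet q a) :
    0 < (N0 q (a : ZMod q)).re := by
  by_contra hcon
  rw [not_lt] at hcon
  obtain ⟨h1, -, h3⟩ := hB hGRH q a ha
  have hrt : rt q a = 0 := by
    unfold rt
    have : IsEmpty {b : ZMod q // b ^ 2 = (a : ZMod q)} :=
      ⟨fun b => hs ⟨b.1, by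
        have h := b.2
        rw [sq] at h
        exact h.symm⟩⟩
    exact Nat.card_of_isEmpty
  have h4 := h1 hin
  rw [hrt] at h4
  have hne : ∀ γ : ℝ, rho γ * (rho γ + 1) ≠ 0 := by
    intro γ
    have e1 : (rho γ).re = 1 / 2 := by
      unfold rho
      simp
    apply mul_ne_zero
    · intro h
      rw [h] at e1
      norm_num at e1
    · intro h
      have e2 : (rho γ + 1).re = 3 / 2 := by
        rw [Complex.add_re, e1, Complex.one_re]
        norm_num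
      rw [h] at e2
      norm_num at e2
  have h5 := uap3 (Gc q a) _ (hGAP hGRH q a) (by
    have e1 : rho 0 * (rho 0 + 1) = ((3 / 4 : ℝ) : ℂ) := by
      unfold rho
      push_cast
      norm_num
    simp only [e1]
    rw [Complex.div_ofReal_re, Complex.neg_re]
    apply div_nonneg _ (by norm_num)
    unfold N0 at hcon
    linarith) h3 (fun η hη => by
      filter_upwards [eventually_ge_atTop (0 : ℝ)] with u hu
      have := h4 u hu
      norm_num at this
      linarith)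
  have h6 : ∀ γ : ℝ, ∑ χ : DirichletCharacter ℂ q,
      χ⁻¹ (a : ZMod q) * (mult (PhiC χ) γ : ℂ) = 0 := by
    intro γ
    have h7 := h5 γ
    rcases div_eq_zero_iff.1 h7 with h8 | h8
    · exact neg_eq_zero.1 h8
    · exact absurd h8 (hne γ)
  have h7 := hH (DirichletCharacter ℂ q) (fun χ => PhiC χ) (fun χ => χ⁻¹ (a : ZMod q))
    (fun χ => hX hGRH q χ) h6
  have hane : (a : ZMod q) ≠ 1 := by
    intro h
    apply hs
    rw [h]
    exact ⟨1, by ring⟩
  refine hE q a ha hane (∑ χ : DirichletCharacter ℂ q, χ⁻¹ (a : ZMod q) * logDeriv (PhiC χ) 1) ?_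
  intro s hs1
  exact h7 (s : ℂ) (by
    rw [Complex.ofReal_re]
    linarith)

theorem mult_zero (hN : Stmt_XIN) (hX : Stmt_XI) (hGRH : GRH) (q : ℕ) [NeZero q]
    (χ : DirichletCharacter ℂ q) (hχ : χ.LFunction (1 / 2) ≠ 0) : mult (PhiC χ) 0 = 0 := by
  have e1 : rho 0 = 1 / 2 := by
    unfold rho
    simp
  have hne0 : PhiC χ (1 / 2) ≠ 0 := (hN q χ).2 hχ
  have han : AnalyticAt ℂ (PhiC χ) (1 / 2) :=
    ((hX hGRH q χ).diff).analyticAt _
  unfold mult analyticOrderNatAt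
  rw [e1, (han.analyticOrderAt_eq_zero).2 hne0]
  rfl

theorem mult_one (hN : Stmt_XIN) (hX : Stmt_XI) (hGRH : GRH) (q : ℕ) [NeZero q] :
    mult (PhiC (1 : DirichletCharacter ℂ q)) 0 = 0 := by
  have h1 := mult_zero hN hX hGRH 1 1 (by
    rw [DirichletCharacter.LFunction_modOne_eq]
    exact CEN.zeta_ne)
  have h2 : PhiC (1 : DirichletCharacter ℂ q) = PhiC (1 : DirichletCharacter ℂ 1) := by
    unfold PhiC
    simp only [if_true]
  rw [h2]
  exact h1

/-- Cosets. -/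
theorem coset_outside (hB : Stmt_BRI) (hGAP : Stmt_GAP) (hH : Stmt_HCON) (hN : Stmt_XIN)
    (hX : Stmt_XI) (hE : Stmt_END) (hGRH : GRH) (q : ℕ) [NeZero q]
    (H : Subgroup (ZMod q)ˣ) (b : (ZMod q)ˣ) (hb : ∀ x ∈ H, ¬ IsSquare (b * x))
    (hc : ∀ χ : DirichletCharacter ℂ q, χ ≠ 1 → (∀ x ∈ H, χ x = 1) → 0 < (χ b).re →
      χ.LFunction (1 / 2) ≠ 0) :
    ∃ a : ℤ, (∃ x ∈ H, (a : ZMod q) = b * x) ∧ ¬ InSet q a := by
  by_contra hcon
  push Not at hcon
  have hpos : ∀ x ∈ H, 0 < (N0 q ((b * x : (ZMod q)ˣ) : ZMod q)).re := by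
    intro x hx
    obtain ⟨a, ha⟩ := ZMod.intCast_surjective ((b * x : (ZMod q)ˣ) : ZMod q)
    have h1 := hcon a ⟨x, hx, by rw [ha]; push_cast; rfl⟩
    have h2 := nsq_pos hB hGAP hH hX hE hGRH q a (by rw [ha]; exact Units.isUnit _) (by
      rw [ha]
      rintro ⟨c, hc'⟩
      have hcu : IsUnit c := by
        have h3 : IsUnit (c * c) := by rw [← hc']; exact Units.isUnit _
        exact isUnit_of_mul_isUnit_left h3
      obtain ⟨w, rfl⟩ := hcu
      exact hb x hx ⟨w, Units.ext (by rw [hc']; rfl)⟩) h1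
    rwa [ha] at h2
  have hsum : 0 < (∑ x : H, N0 q ((b * x : (ZMod q)ˣ) : ZMod q)).re := by
    rw [Complex.re_sum]
    exact Finset.sum_pos (fun x _ => hpos x x.2) ⟨1, Finset.mem_univ _⟩
  have hch : ∀ χ : DirichletCharacter ℂ q, (¬ ∀ x ∈ H, χ x = 1) → ∑ x : H, χ⁻¹ ((x : (ZMod q)ˣ) : ZMod q) = 0 := by
    intro χ hχ
    push Not at hχ
    obtain ⟨y, hy, hy1⟩ := hχ
    have hy2 : χ⁻¹ ((y : (ZMod q)ˣ) : ZMod q) ≠ 1 := by
      intro h
      apply hy1
      rw [MulChar.inv_apply_eq_inv'] at h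
      exact inv_eq_one.mp h
    have e1 : ∑ x : H, χ⁻¹ ((x : (ZMod q)ˣ) : ZMod q)
        = ∑ x : H, χ⁻¹ (((⟨y, hy⟩ * x : H) : (ZMod q)ˣ) : ZMod q) :=
      (Fintype.sum_equiv (Equiv.mulLeft (⟨y, hy⟩ : H)) _ _ (fun x => rfl)).symm
    have e2 : ∀ x : H, χ⁻¹ (((⟨y, hy⟩ * x : H) : (ZMod q)ˣ) : ZMod q)
        = χ⁻¹ ((y : (ZMod q)ˣ) : ZMod q) * χ⁻¹ ((x : (ZMod q)ˣ) : ZMod q) := by
      intro x
      rw [← map_mul]
      rfl
    simp only [e2] at e1
    rw [← Finset.mul_sum] at e1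
    have e3 : (1 - χ⁻¹ ((y : (ZMod q)ˣ) : ZMod q)) * ∑ x : H, χ⁻¹ ((x : (ZMod q)ˣ) : ZMod q) = 0 := by
      linear_combination e1
    rcases mul_eq_zero.mp e3 with h | h
    · exact absurd (sub_eq_zero.mp h).symm hy2
    · exact h
  have hterm : ∀ χ : DirichletCharacter ℂ q,
      (χ⁻¹ (b : ZMod q) * (mult (PhiC χ) 0 : ℂ) * ∑ x : H, χ⁻¹ ((x : (ZMod q)ˣ) : ZMod q)).re ≤ 0 := by
    intro χ
    by_cases hχ : ∀ x ∈ H, χ x = 1
    · have e1 : ∑ x : H, χ⁻¹ ((x : (ZMod q)ˣ) : ZMod q) = (Fintype.card H : ℂ) := by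
        have : ∀ x : H, χ⁻¹ ((x : (ZMod q)ˣ) : ZMod q) = 1 := by
          intro x
          rw [MulChar.inv_apply_eq_inv', hχ x x.2, inv_one]
        simp [this]
      rw [e1]
      by_cases h1 : χ = 1
      · subst h1
        rw [mult_one hN hX hGRH q]
        simp
      by_cases h2 : 0 < (χ b).re
      · rw [mult_zero hN hX hGRH q χ (hc χ h1 hχ h2)]
        simp
      · have e2 : (χ⁻¹ (b : ZMod q)).re = (χ b).re := by
          have h3 : χ⁻¹ (b : ZMod q) = conj (χ b) := by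
            rw [← MulChar.star_eq_inv, MulChar.star_apply, starRingEnd_apply]
          rw [h3, Complex.conj_re]
        have e3 : (χ⁻¹ (b : ZMod q) * (mult (PhiC χ) 0 : ℂ) * (Fintype.card H : ℂ)).re
            = (χ b).re * ((mult (PhiC χ) 0 : ℝ) * (Fintype.card H : ℝ)) := by
          rw [mul_assoc]
          have : ((mult (PhiC χ) 0 : ℂ) * (Fintype.card H : ℂ))
              = (((mult (PhiC χ) 0 : ℝ) * (Fintype.card H : ℝ) : ℝ) : ℂ) := by push_cast; rfl
          rw [this, Complex.re_mul_ofReal, e2]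
        rw [e3]
        exact mul_nonpos_of_nonpos_of_nonneg (not_lt.mp h2) (by positivity)
    · rw [hch χ hχ, mul_zero, Complex.zero_re]
  have heq : ∑ x : H, N0 q ((b * x : (ZMod q)ˣ) : ZMod q)
      = ∑ χ : DirichletCharacter ℂ q,
        χ⁻¹ (b : ZMod q) * (mult (PhiC χ) 0 : ℂ) * ∑ x : H, χ⁻¹ ((x : (ZMod q)ˣ) : ZMod q) := by
    unfold N0
    rw [Finset.sum_comm]
    refine Finset.sum_congr rfl fun χ _ => ?_
    rw [Finset.mul_sum]
    refine Finset.sum_congr rfl fun x _ => ?_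
    rw [Units.val_mul, map_mul]
    ring
  rw [heq, Complex.re_sum] at hsum
  exact absurd hsum (not_lt.mpr (Finset.sum_nonpos fun χ _ => hterm χ))

end Pool.Agent.AQ
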