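import Mathlib
import Pool.Agent.Work.MP_99218a_nt.Interface

set_option autoImplicit false

namespace Pool.Agent.AQ

open Filter Topology

/-- Simultaneous recurrence. -/
theorem uap1_recur (F : Finset ℝ) (η : ℝ) (hη : 0 < η) (N : ℕ) :
    ∃ m : ℕ, N ≤ m ∧ ∀ γ ∈ F, ‖Complex.exp ((γ * m : ℝ) * Complex.I) - 1‖ ≤ η := by
  set x : ℕ → (↥F → ℂ) := fun n γ => Complex.exp (((γ : ℝ) * n : ℝ) * Complex.I) with hx
  have hn : ∀ t : ℝ, ‖Complex.exp ((t : ℝ) * Complex.I)‖ = 1 := fun t =>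
    Complex.norm_exp_ofReal_mul_I t
  have hb : ∀ n, x n ∈ Metric.closedBall (0 : ↥F → ℂ) 1 := by
    intro n
    rw [mem_closedBall_zero_iff, pi_norm_le_iff_of_nonneg zero_le_one]
    intro γ
    exact (hn _).le
  obtain ⟨a, _, φ, hφ, hlim⟩ := tendsto_subseq_of_bounded Metric.isBounded_closedBall hb
  have hc : CauchySeq (x ∘ φ) := hlim.cauchySeq
  obtain ⟨N0, hN0⟩ := Metric.cauchySeq_iff'.1 hc η hη
  set n := φ N0 + N + N0 with hnn
  have h1 : dist (x (φ n)) (x (φ N0)) < η := hN0 n (by omega)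
  have h2 : n ≤ φ n := hφ.le_apply
  have h3 : φ N0 + N ≤ φ n := by omega
  refine ⟨φ n - φ N0, by omega, ?_⟩
  intro γ hγ
  have h4 : dist (x (φ n) ⟨γ, hγ⟩) (x (φ N0) ⟨γ, hγ⟩) ≤ η :=
    (dist_le_pi_dist _ _ _).trans h1.le
  have h5 : x (φ n) ⟨γ, hγ⟩ - x (φ N0) ⟨γ, hγ⟩
      = Complex.exp ((γ * (φ N0 : ℕ) : ℝ) * Complex.I)
        * (Complex.exp ((γ * ((φ n - φ N0 : ℕ) : ℝ) : ℝ) * Complex.I) - 1) := by
    rw [mul_sub, ← Complex.exp_add, mul_one]
    simp only [hx]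
    have h6 : ((φ n - φ N0 : ℕ) : ℝ) = (φ n : ℝ) - φ N0 := by
      rw [Nat.cast_sub (by omega)]
    have h7 : ((γ * (φ n : ℕ) : ℝ) : ℂ) * Complex.I
        = ((γ * (φ N0 : ℕ) : ℝ) : ℂ) * Complex.I
          + ((γ * ((φ n - φ N0 : ℕ) : ℝ) : ℝ) : ℂ) * Complex.I := by
      rw [h6]
      push_cast
      ring
    rw [h7]
  rw [dist_eq_norm, h5, norm_mul, hn, one_mul] at h4
  exact h4

theorem stmt_UAP1 : Stmt_UAP1 := by
  intro G c B hG hB u hu
  refine le_of_forall_pos_le_add fun δ hδ => ?_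
  obtain ⟨F, hF⟩ := hG (δ / 4) (by positivity)
  have hF := hF F (Finset.Subset.refl F)
  obtain ⟨U, hU⟩ := eventually_atTop.1 (hB (δ / 4) (by positivity))
  set S := ∑ γ ∈ F, ‖c γ‖ with hS
  have hS0 : 0 ≤ S := Finset.sum_nonneg fun _ _ => norm_nonneg _
  obtain ⟨m, hm, hrec⟩ := uap1_recur F (δ / (4 * (S + 1))) (by positivity) ⌈|U|⌉₊
  have hmU : U ≤ u + m := by
    have h1 : |U| ≤ (⌈|U|⌉₊ : ℝ) := Nat.le_ceil _
    have h2 : ((⌈|U|⌉₊ : ℕ) : ℝ) ≤ m := by exact_mod_cast hm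
    have h3 := le_abs_self U
    linarith
  have h1 := hF u hu
  have h2 := hF (u + m) (by positivity)
  have h3 := hU (u + m) hmU
  have h4 : ‖(∑ γ ∈ F, c γ * Complex.exp ((γ * (u + m) : ℝ) * Complex.I))
      - ∑ γ ∈ F, c γ * Complex.exp ((γ * u : ℝ) * Complex.I)‖ ≤ δ / 4 := by
    rw [← Finset.sum_sub_distrib]
    calc ‖∑ γ ∈ F, (c γ * Complex.exp ((γ * (u + m) : ℝ) * Complex.I)
          - c γ * Complex.exp ((γ * u : ℝ) * Complex.I))‖
        ≤ ∑ γ ∈ F, ‖c γ‖ * (δ / (4 * (S + 1))) := by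
          refine norm_sum_le_of_le _ fun γ hγ => ?_
          have h5 : c γ * Complex.exp ((γ * (u + m) : ℝ) * Complex.I)
              - c γ * Complex.exp ((γ * u : ℝ) * Complex.I)
              = c γ * (Complex.exp ((γ * u : ℝ) * Complex.I)
                * (Complex.exp ((γ * m : ℝ) * Complex.I) - 1)) := by
            rw [mul_sub, ← Complex.exp_add, mul_one, mul_sub]
            congr 3
            push_cast
            ring
          rw [h5, norm_mul, norm_mul, Complex.norm_exp_ofReal_mul_I, one_mul]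
          exact mul_le_mul_of_nonneg_left (hrec γ hγ) (norm_nonneg _)
      _ = S * (δ / (4 * (S + 1))) := by rw [← Finset.sum_mul]
      _ ≤ δ / 4 := by
          rw [mul_div_assoc', div_le_div_iff₀ (by positivity) (by norm_num)]
          nlinarith
  have a1 := (Complex.abs_re_le_norm _).trans h1
  have a2 := (Complex.abs_re_le_norm _).trans h2
  have a3 := (Complex.abs_re_le_norm _).trans h4
  rw [Complex.sub_re] at a1 a2 a3
  have b1 := (abs_le.1 a1).2
  have b2 := (abs_le.1 a2).1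
  have b3 := (abs_le.1 a3).1
  linarith

end Pool.Agent.AQ
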