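import Pool.Agent.Work.MP_99218a_nt.UAP2

/-! # Mean values of almost periodic functions -/

set_option autoImplicit false

namespace Pool.Agent.AQ

open Filter Topology

/-- The mean value of a function whose imaginary part tends to `0` and whose real part is
eventually at most `η`, for all `η > 0`. -/
theorem uap_mean0 (G c : ℝ → ℂ) (hG : UAP G c) (him : Tendsto (fun u => (G u).im) atTop (𝓝 0))
    (hre : ∀ η : ℝ, 0 < η → ∀ᶠ u in atTop, (G u).re ≤ η) : (c 0).im = 0 ∧ (c 0).re ≤ 0 := by
  have key : ∀ ε : ℝ, 0 < ε → |(c 0).im| ≤ ε ∧ (c 0).re ≤ ε := by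
    intro ε hε
    obtain ⟨F0, hF0⟩ := hG ε hε
    set F : Finset ℝ := insert 0 F0 with hF
    have hP := hF0 F (Finset.subset_insert _ _)
    set K : ℝ := 1 + ∑ γ ∈ F, |γ| with hK
    have hS0 : 0 ≤ ∑ γ ∈ F, |γ| := Finset.sum_nonneg fun _ _ => abs_nonneg _
    have hKpos : 0 < K := by linarith
    set h : ℝ := K⁻¹ with hh
    have hhpos : 0 < h := inv_pos.2 hKpos
    have hle : ∀ γ ∈ F, |γ| ≤ ∑ γ ∈ F, |γ| := fun γ hγ =>
      Finset.single_le_sum (f := fun γ : ℝ => |γ|) (fun _ _ => abs_nonneg _) hγ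
    have hsm : ∀ γ ∈ F, |(γ - 0) * h| < 1 := by
      intro γ hγ
      rw [sub_zero, abs_mul, abs_of_pos hhpos, hh, ← div_eq_mul_inv, div_lt_one hKpos]
      have h1 := hle γ hγ
      linarith
    have m0 := uap2_mean F c h 0 hsm hhpos (c 0) (by
      rw [Finset.sum_ite_eq' F 0 c, if_pos (Finset.mem_insert_self _ _)])
    have hu : Tendsto (fun n : ℕ => (n : ℝ) * h) atTop atTop :=
      Tendsto.atTop_mul_const hhpos tendsto_natCast_atTop_atTop
    have r1 : Tendsto (fun u : ℝ => max (G u).re 0) atTop (𝓝 0) := by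
      rw [Metric.tendsto_nhds]
      intro η hη
      filter_upwards [hre (η / 2) (by positivity)] with u hu
      rw [Real.dist_eq, sub_zero, abs_of_nonneg (le_max_right _ _)]
      exact max_lt (by linarith) hη
    have r3 := (r1.comp hu).cesaro
    have r4 := (him.abs.comp hu).cesaro
    rw [abs_zero] at r4
    have hd : ∀ i : ℕ, ‖G (i * h) - uapP F c (i * h)‖ ≤ ε := fun i => hP (i * h) (by positivity)
    have ep : ∀ i : ℕ, uapP F c (i * h) * Complex.exp ((-(0 * (i * h)) : ℝ) * Complex.I)
        = uapP F c (i * h) := by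
      intro i
      rw [zero_mul, neg_zero, Complex.ofReal_zero, zero_mul, Complex.exp_zero, mul_one]
    simp only [ep] at m0
    have hmean : ∀ (n : ℕ) (f g : ℕ → ℝ), (∀ i, f i ≤ g i + ε) →
        (n : ℝ)⁻¹ * ∑ i ∈ Finset.range n, f i ≤ (n : ℝ)⁻¹ * ∑ i ∈ Finset.range n, g i + ε := by
      intro n f g hfg
      have h1 : ∑ i ∈ Finset.range n, f i ≤ ∑ i ∈ Finset.range n, g i + n * ε := by
        calc ∑ i ∈ Finset.range n, f i ≤ ∑ i ∈ Finset.range n, (g i + ε) :=
              Finset.sum_le_sum fun i _ => hfg i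
          _ = _ := by
              rw [Finset.sum_add_distrib, Finset.sum_const, Finset.card_range, nsmul_eq_mul]
      have h2 := mul_le_mul_of_nonneg_left h1 (by positivity : (0 : ℝ) ≤ (n : ℝ)⁻¹)
      refine h2.trans ?_
      rw [mul_add]
      have s4 : (n : ℝ)⁻¹ * (n * ε) ≤ ε := by
        rcases Nat.eq_zero_or_pos n with h0 | h0
        · rw [h0]; simp; positivity
        · have hn' : (n : ℝ) ≠ 0 := by exact_mod_cast h0.ne'
          rw [← mul_assoc, inv_mul_cancel₀ hn', one_mul]
      linarith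
    constructor
    · have t1 : Tendsto (fun n : ℕ => |(((n : ℝ)⁻¹ : ℝ) • ∑ i ∈ Finset.range n,
          uapP F c (i * h)).im|) atTop (𝓝 |(c 0).im|) :=
        ((Complex.continuous_im.tendsto _).comp m0).abs
      have t2 := r4.add_const ε
      rw [zero_add] at t2
      refine le_of_tendsto_of_tendsto' t1 t2 fun n => ?_
      rw [Complex.real_smul, Complex.im_ofReal_mul, Complex.im_sum, abs_mul,
        abs_of_nonneg (by positivity : (0 : ℝ) ≤ (n : ℝ)⁻¹)]
      refine (mul_le_mul_of_nonneg_left (Finset.abs_sum_le_sum_abs _ _) (by positivity)).trans ?_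
      refine hmean n _ _ fun i => ?_
      have h7 := (Complex.abs_im_le_norm _).trans (hd i)
      rw [Complex.sub_im] at h7
      have h8 := abs_sub_abs_le_abs_sub (uapP F c (i * h)).im (G (i * h)).im
      rw [abs_sub_comm] at h8
      simp only [Function.comp_apply]
      linarith
    · have t1 : Tendsto (fun n : ℕ => ((((n : ℝ)⁻¹ : ℝ) • ∑ i ∈ Finset.range n,
          uapP F c (i * h)).re)) atTop (𝓝 (c 0).re) :=
        ((Complex.continuous_re.tendsto _).comp m0)
      have t2 := r3.add_const ε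
      rw [zero_add] at t2
      refine le_of_tendsto_of_tendsto' t1 t2 fun n => ?_
      rw [Complex.real_smul, Complex.re_ofReal_mul, Complex.re_sum]
      refine hmean n _ _ fun i => ?_
      have h7 := (Complex.abs_re_le_norm _).trans (hd i)
      rw [Complex.sub_re] at h7
      have h8 := (abs_le.1 h7).1
      have h9 := le_max_left (G (i * h)).re 0
      simp only [Function.comp_apply]
      linarith
  constructor
  · have : |(c 0).im| ≤ 0 := by
      refine le_of_forall_pos_le_add fun ε hε => ?_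
      rw [zero_add]
      exact (key ε hε).1
    exact abs_nonpos_iff.1 this
  · refine le_of_forall_pos_le_add fun ε hε => ?_
    rw [zero_add]
    exact (key ε hε).2

/-- If the mean value has nonnegative real part, all coefficients vanish. -/
theorem uap3 (G c : ℝ → ℂ) (hG : UAP G c) (hc : 0 ≤ (c 0).re)
    (him : Tendsto (fun u => (G u).im) atTop (𝓝 0))
    (hre : ∀ η : ℝ, 0 < η → ∀ᶠ u in atTop, (G u).re ≤ η) : ∀ γ : ℝ, c γ = 0 := by
  obtain ⟨h1, h2⟩ := uap_mean0 G c hG him hre
  have h0 : c 0 = 0 := Complex.ext (by simpa using le_antisymm h2 hc) (by simpa using h1)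
  exact stmt_UAP2 G c hG h0 him hre

end Pool.Agent.AQ
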